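/-
MP_2b108f_pr (malnormality constant of a Ginibre matrix), full answer: definitions.
helper55.  Folder Pool/Agent/H55/ML, namespace Pool.Agent.H55.ML.
-/
import Mathlib

namespace Pool.Agent.H55.ML

open MeasureTheory ProbabilityTheory Polynomial Matrix
open scoped Kronecker

/-! ### Words -/

/-- the value of a word: product (from left to right) of `x` (for `true`) and `y` (for `false`) -/
def ev {A : Type*} [Monoid A] (x y : A) (w : List Bool) : A := (w.map fun b => cond b x y).prod

/-- the adjoint word: reversed and with the letters exchanged -/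
def st (w : List Bool) : List Bool := (w.map not).reverse

/-! ### Matrices and superoperators -/

abbrev Mat (n : ℕ) := Matrix (Fin n) (Fin n) ℂ

/-- operators on `Mat n` (on vectors indexed by pairs) -/
abbrev Op (n : ℕ) := Matrix (Fin n × Fin n) (Fin n × Fin n) ℂ

variable {n : ℕ}

/-- left multiplication by `A` as an operator on vectors indexed by pairs -/
noncomputable def Lf (A : Mat n) : Op n := A ⊗ₖ (1 : Mat n)

/-- right multiplication by `A` -/
noncomputable def Rt (A : Mat n) : Op n := (1 : Mat n) ⊗ₖ Aᵀ

/-- the rank one operator `B ↦ tr (V B) A` -/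
def Kop (A V : Mat n) : Op n := Matrix.of fun p q => A p.1 p.2 * V q.2 q.1

/-- a matrix as a vector -/
def vc (B : Mat n) : Fin n × Fin n → ℂ := fun p => B p.1 p.2

/-- the orthogonal projection onto the multiples of the identity matrix -/
noncomputable def P1 (n : ℕ) : Op n := ((n : ℂ))⁻¹ • Kop (1 : Mat n) (1 : Mat n)

/-- `δ* δ + δ δ*` for `δ = l - r` -/
def DDg {A : Type*} [Ring A] (l l' r r' : A) : A := (l' - r') * (l - r) + (l - r) * (l' - r')

/-- the operator `B ↦ [X*, [X, B]] + [X, [X*, B]]` -/
noncomputable def DD (X : Mat n) : Op n := DDg (Lf X) (Lf Xᴴ) (Rt X) (Rt Xᴴ)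

/-- squared Hilbert-Schmidt norm -/
noncomputable def hs2 {ι κ : Type*} [Fintype ι] [Fintype κ] (A : Matrix ι κ ℂ) : ℝ :=
  ∑ i, ∑ j, ‖A i j‖ ^ 2

/-- squared euclidean norm of a vector -/
noncomputable def nv {ι : Type*} [Fintype ι] (v : ι → ℂ) : ℝ := ∑ i, ‖v i‖ ^ 2

/-- operator norm (for the euclidean norm of vectors) -/
noncomputable def opn {ι : Type*} [Fintype ι] [DecidableEq ι] (A : Matrix ι ι ℂ) : ℝ :=
  ‖Matrix.toEuclideanCLM (n := ι) (𝕜 := ℂ) A‖

/-! ### The malnormality constant -/

/-- The malnormality constant of `X`: the infimum of the Hilbert-Schmidt norm of `X B - B X` over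
the Hermitian matrices `B` of trace zero and Hilbert-Schmidt norm one. -/
noncomputable def mal (X : Mat n) : ℝ :=
  sInf {r : ℝ | ∃ B : Mat n, B.IsHermitian ∧ B.trace = 0 ∧ hs2 B = 1 ∧
    r = Real.sqrt (hs2 (X * B - B * X))}

/-! ### The Ginibre matrix -/

/-- the law of a standard complex Gaussian variable `(a + i b) / √2`, `a, b` independent `N(0,1)` -/
noncomputable def stdC : Measure ℂ :=
  ((gaussianReal 0 1).prod (gaussianReal 0 1)).map
    (fun p : ℝ × ℝ => ((p.1 : ℂ) + (p.2 : ℂ) * Complex.I) / (Real.sqrt 2 : ℂ))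

/-- the law of `n²` independent standard complex Gaussian variables, indexed by pairs -/
noncomputable def gin (n : ℕ) : Measure (Fin n × Fin n → ℂ) :=
  Measure.pi (fun _ : Fin n × Fin n => stdC)

/-- the normalized matrix `n^{-1/2} (g_{ij})` -/
noncomputable def XX (g : Fin n × Fin n → ℂ) : Mat n :=
  ((Real.sqrt n : ℂ))⁻¹ • Matrix.of (fun i j => g (i, j))

/-- the constant `K = 1200`: with overwhelming probability `8 ‖X_n‖² ≤ K` -/
def KK : ℝ := 1200

/-- the good event -/
def Gd (n : ℕ) : Set (Fin n × Fin n → ℂ) := {g | 8 * opn (XX g) ^ 2 ≤ KK}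

/-! ### The limit object: circular elements on the space of words -/

/-- creation of the first letter `b` -/
def cre (b : Bool) (f : List Bool → ℂ) : List Bool → ℂ
  | [] => 0
  | a :: w => if a = b then f w else 0

/-- The circular element (`b = true`) and its adjoint (`b = false`), acting from the left:
creation of `b` plus annihilation of `!b`. -/
def cL (b : Bool) (f : List Bool → ℂ) : List Bool → ℂ := fun w => cre b f w + f ((!b) :: w)

/-- the same operators acting from the right (at the end of the words) -/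
def cR (b : Bool) (f : List Bool → ℂ) : List Bool → ℂ :=
  fun w => cL b (fun u => f u.reverse) w.reverse

/-- the circular element acting on the first word of a pair -/
def c1 (b : Bool) (f : List Bool × List Bool → ℂ) : List Bool × List Bool → ℂ :=
  fun p => cL b (fun u => f (u, p.2)) p.1

/-- the circular element acting on the second word of a pair -/
def c2 (b : Bool) (f : List Bool × List Bool → ℂ) : List Bool × List Bool → ℂ :=
  fun p => cL b (fun u => f (p.1, u)) p.2

/-- quadratic form `‖[c, f]‖² + ‖[c*, f]‖²` on functions of one word -/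
noncomputable def qT (f : List Bool → ℂ) : ℝ :=
  (∑' w, ‖cL true f w - cR true f w‖ ^ 2) + ∑' w, ‖cL false f w - cR false f w‖ ^ 2

/-- quadratic form `‖(c ⊗ 1 - 1 ⊗ c) f‖² + ‖(c* ⊗ 1 - 1 ⊗ c*) f‖²` on functions of two words -/
noncomputable def qC (f : List Bool × List Bool → ℂ) : ℝ :=
  (∑' p, ‖c1 true f p - c2 true f p‖ ^ 2) + ∑' p, ‖c1 false f p - c2 false f p‖ ^ 2

/-- bottom of the form `qT` on the orthogonal complement of the empty word -/
noncomputable def dT : ℝ :=
  sInf {r : ℝ | ∃ f : List Bool → ℂ, f [] = 0 ∧ HasSum (fun w => ‖f w‖ ^ 2) 1 ∧ r = qT f}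

/-- bottom of the form `qC` -/
noncomputable def dC : ℝ :=
  sInf {r : ℝ | ∃ f : List Bool × List Bool → ℂ, HasSum (fun p => ‖f p‖ ^ 2) 1 ∧ r = qC f}

/-- the limit of the malnormality constant -/
noncomputable def cmal : ℝ := Real.sqrt (min dC dT / 2)

/-! ### The vectors of the words -/

/-- the vector `w(c, c*) Ω` -/
noncomputable def wv : List Bool → (List Bool → ℂ)
  | [] => Pi.single [] 1
  | b :: w => cL b (wv w)

/-- the `*`-moments of the circular element (they are real) -/
noncomputable def tau (w : List Bool) : ℝ := (wv w []).re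

/-! ### Chebyshev polynomials on `[0, K]` -/

/-- the Chebyshev polynomial `T_k (2 x / K - 1)` -/
noncomputable def Tk (k : ℕ) : ℝ[X] :=
  (Polynomial.Chebyshev.T ℝ (k : ℤ)).comp (Polynomial.C (2 / KK) * Polynomial.X - 1)

/-- the soft spectral projection with the trivial direction removed -/
noncomputable def FF (h : ℝ[X]) (g : Fin n × Fin n → ℂ) : Op n :=
  aeval (DD (XX g)) h - ((h.eval 0 : ℝ) : ℂ) • P1 n

end Pool.Agent.H55.ML
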