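/-
C1 (ChebG).  Bounds for the rescaled Chebyshev polynomials Tk.  Defs + Mathlib.  (helper11)
Tk k at x is T_k(y), y = 2x/K - 1.  For 0 <= x <= K: |y| <= 1, |T_k(y)| <= 1.  For x > K: y = cosh t >= 1,
T_k(y) = cosh (k t) <= exp(k t) <= (2 cosh t)^k = (2y)^k <= (4x/K)^k <= (4(1+x))^k (K >= 1), and
1 <= (4(1+x))^k for x >= 0.
-/
import Pool.Agent.H55.ML.Defs

namespace Pool.Agent.H55.ML
open Polynomial

private theorem Tk_eval (k : ℕ) (x : ℝ) :
    (Tk k).eval x = (Polynomial.Chebyshev.T ℝ (k : ℤ)).eval (2 / KK * x - 1) := by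
  simp [Tk]

theorem Tk_le_one (k : ℕ) (x : ℝ) (hx : x ∈ Set.Icc 0 KK) : |(Tk k).eval x| ≤ 1 := by
  rw [Tk_eval]
  refine Polynomial.Chebyshev.abs_eval_T_real_le_one _ ?_
  obtain ⟨h0, h1⟩ := hx
  unfold KK at *
  rw [abs_le]
  constructor
  · have : 0 ≤ 2 / (1200 : ℝ) * x := by positivity
    linarith
  · linarith

theorem Tk_growth (k : ℕ) (x : ℝ) (hx : 0 ≤ x) : |(Tk k).eval x| ≤ (4 * (1 + x)) ^ k := by
  rcases le_or_gt x KK with h | h
  · exact (Tk_le_one k x ⟨hx, h⟩).trans (one_le_pow₀ (by linarith))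
  · rw [Tk_eval]
    have hK : KK = 1200 := rfl
    rw [hK] at h ⊢
    set y : ℝ := 2 / 1200 * x - 1 with hy
    have hy1 : 1 ≤ y := by rw [hy]; linarith
    have h1 := Real.cosh_arcosh hy1
    set t := Real.arcosh y with ht
    have ht0 : 0 ≤ t := Real.arcosh_nonneg hy1
    rw [← h1, Polynomial.Chebyshev.T_real_cosh, abs_of_nonneg (Real.cosh_pos _).le]
    have h2 : Real.cosh ((k : ℤ) * t) ≤ Real.exp (k * t) := by
      rw [Real.cosh_eq]
      have : Real.exp (-(((k : ℤ) : ℝ) * t)) ≤ Real.exp (((k : ℤ) : ℝ) * t) := by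
        apply Real.exp_le_exp.2
        have : 0 ≤ ((k : ℤ) : ℝ) * t := by positivity
        linarith
      have h3 : ((k : ℤ) : ℝ) = (k : ℝ) := by norm_cast
      rw [h3] at this ⊢
      linarith
    refine h2.trans ?_
    rw [mul_comm, Real.exp_mul, Real.rpow_natCast]
    refine pow_le_pow_left₀ (Real.exp_pos _).le ?_ k
    have h4 : Real.exp t ≤ 2 * Real.cosh t := by
      rw [Real.cosh_eq]
      have := Real.exp_pos (-t)
      linarith
    rw [h1] at h4
    refine h4.trans ?_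
    rw [hy]
    linarith

theorem Tk_natDegree (k : ℕ) : (Tk k).natDegree ≤ k := by
  unfold Tk
  refine (Polynomial.natDegree_comp_le).trans ?_
  have h1 : (Polynomial.Chebyshev.T ℝ (k : ℤ)).natDegree = k := by
    rw [Polynomial.Chebyshev.natDegree_T]
    simp
  have h2 : (Polynomial.C (2 / KK) * Polynomial.X - 1 : ℝ[X]).natDegree ≤ 1 := by
    refine (Polynomial.natDegree_sub_le _ _).trans (max_le ?_ ?_)
    · exact (Polynomial.natDegree_C_mul_le _ _).trans Polynomial.natDegree_X_le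
    · simp
  rw [h1]
  calc k * (Polynomial.C (2 / KK) * Polynomial.X - 1 : ℝ[X]).natDegree ≤ k * 1 :=
        Nat.mul_le_mul_left _ h2
    _ = k := Nat.mul_one k

theorem Tk_zero : Tk 0 = 1 := by
  unfold Tk
  simp

/-- `T_k (2x/K - 1) = cos (k φ)` for `x = K (1 + cos φ)/2` -/
theorem Tk_cos (k : ℕ) (φ : ℝ) : (Tk k).eval (KK * (1 + Real.cos φ) / 2) = Real.cos (k * φ) := by
  rw [Tk_eval]
  have hK : KK ≠ 0 := by unfold KK; norm_num
  have h : 2 / KK * (KK * (1 + Real.cos φ) / 2) - 1 = Real.cos φ := by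
    field_simp
    ring
  rw [h, Polynomial.Chebyshev.T_real_cos]
  norm_cast

end Pool.Agent.H55.ML
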