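/-
C2a (Four).  Cosine series of a smooth even 2π-periodic function, with fast decay of the coefficients.
MATHLIB ONLY.  About 200 lines.
PROOF.  Fourier series on AddCircle (2π) (or on the interval [0, 2π]): c_k = (1/2π) ∫ ψ(φ) exp(-ikφ) dφ.
M integrations by parts (fourierCoeffOn_of_hasDerivAt, or integral_mul_deriv; boundary terms cancel by
periodicity of the derivatives) give |c_k| <= sup |ψ^(M)| / |k|^M.  So the coefficients are summable and the
series converges to ψ (hasSum_fourier_series_of_summable / has_pointwise_sum_fourier_series_of_summable).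
ψ even and real: c_{-k} = c_k real, so ψ(φ) = c_0 + sum_{k>=1} 2 c_k cos(kφ): a_0 = c_0, a_k = 2 c_k.
-/
import Mathlib

namespace Pool.Agent.H55.ML

open MeasureTheory Complex

private theorem four_congr {ι : Type*} {f g : ι → ℝ} {s : ℝ} (h : ∀ n, f n = g n)
    (hg : HasSum g s) : HasSum f s := by
  have : f = g := funext h
  rw [this]
  exact hg

private theorem four_exp_hasDeriv (n : ℤ) (x : ℝ) :
    HasDerivAt (fun x : ℝ => Complex.exp (-(Complex.I * n * x)))
      (-(Complex.I * n) * Complex.exp (-(Complex.I * n * x))) x := by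
  have h1 : HasDerivAt (fun x : ℝ => (x : ℂ)) 1 x := Complex.ofRealCLM.hasDerivAt
  have h2 : HasDerivAt (fun x : ℝ => -(Complex.I * n * (x : ℂ))) (-(Complex.I * n * 1)) x :=
    (h1.const_mul (Complex.I * n)).fun_neg
  have h3 := h2.cexp
  have h4 : Complex.exp (-(Complex.I * n * x)) * (-(Complex.I * n * 1))
      = -(Complex.I * n) * Complex.exp (-(Complex.I * n * x)) := by ring
  rw [h4] at h3
  exact h3

private theorem four_exp_end (n : ℤ) :
    Complex.exp (-(Complex.I * n * ((2 * Real.pi : ℝ) : ℂ))) = 1 := by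
  rw [Complex.exp_eq_one_iff]
  refine ⟨-n, ?_⟩
  push_cast
  ring

private theorem four_step (F F' : ℝ → ℂ) (hF : ∀ x, HasDerivAt F (F' x) x) (hc : Continuous F')
    (hp : F (2 * Real.pi) = F 0) (n : ℤ) :
    ∫ x in (0 : ℝ)..(2 * Real.pi), Complex.exp (-(Complex.I * n * x)) * F' x =
      (Complex.I * n) * ∫ x in (0 : ℝ)..(2 * Real.pi), Complex.exp (-(Complex.I * n * x)) * F x := by
  have h := intervalIntegral.integral_mul_deriv_eq_deriv_mul (a := 0) (b := 2 * Real.pi)
    (u := fun x : ℝ => Complex.exp (-(Complex.I * n * x)))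
    (u' := fun x : ℝ => -(Complex.I * n) * Complex.exp (-(Complex.I * n * x)))
    (v := F) (v' := F') (fun x _ => four_exp_hasDeriv n x) (fun x _ => hF x)
    (by
      apply Continuous.intervalIntegrable
      fun_prop) (hc.intervalIntegrable _ _)
  rw [h, four_exp_end, hp, ← intervalIntegral.integral_const_mul]
  simp [mul_assoc]

private noncomputable def fourD (ψ : ℝ → ℝ) (M : ℕ) : ℝ → ℂ := fun x => ((iteratedDeriv M ψ x : ℝ) : ℂ)

private theorem fourD_hasDeriv (ψ : ℝ → ℝ) (h : ContDiff ℝ (⊤ : ℕ∞) ψ) (M : ℕ) (x : ℝ) :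
    HasDerivAt (fourD ψ M) (fourD ψ (M + 1) x) x := by
  have h1 : Differentiable ℝ (iteratedDeriv M ψ) :=
    h.differentiable_iteratedDeriv M (by exact_mod_cast WithTop.coe_lt_top _)
  have h2 : HasDerivAt (iteratedDeriv M ψ) (iteratedDeriv (M + 1) ψ x) x := by
    rw [iteratedDeriv_succ]
    exact (h1 x).hasDerivAt
  exact h2.ofReal_comp

private theorem fourD_cont (ψ : ℝ → ℝ) (h : ContDiff ℝ (⊤ : ℕ∞) ψ) (M : ℕ) :
    Continuous (fourD ψ M) :=
  continuous_iff_continuousAt.2 fun x => (fourD_hasDeriv ψ h M x).continuousAt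

private theorem fourD_per (ψ : ℝ → ℝ) (hp : ∀ x, ψ (x + 2 * Real.pi) = ψ x) (M : ℕ) :
    fourD ψ M (2 * Real.pi) = fourD ψ M 0 := by
  have : iteratedDeriv M ψ (2 * Real.pi) = iteratedDeriv M ψ 0 := by
    have h1 := congrFun (iteratedDeriv_comp_add_const M ψ (2 * Real.pi)) 0
    have h2 : (fun z => ψ (z + 2 * Real.pi)) = ψ := funext hp
    rw [h2] at h1
    simpa using h1.symm
  simp [fourD, this]

private noncomputable def fourI (ψ : ℝ → ℝ) (M : ℕ) (n : ℤ) : ℂ :=
  ∫ x in (0 : ℝ)..(2 * Real.pi), Complex.exp (-(Complex.I * n * x)) * fourD ψ M x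

private theorem fourI_eq (ψ : ℝ → ℝ) (h : ContDiff ℝ (⊤ : ℕ∞) ψ)
    (hp : ∀ x, ψ (x + 2 * Real.pi) = ψ x) (M : ℕ) (n : ℤ) :
    fourI ψ M n = (Complex.I * n) ^ M * fourI ψ 0 n := by
  induction M with
  | zero => simp
  | succ M ih =>
    have := four_step (fourD ψ M) (fourD ψ (M + 1)) (fourD_hasDeriv ψ h M)
      (fourD_cont ψ h (M + 1)) (fourD_per ψ hp M) n
    rw [pow_succ, mul_comm (_ ^ M), mul_assoc, ← ih]
    exact this

private theorem fourI_bound (ψ : ℝ → ℝ) (h : ContDiff ℝ (⊤ : ℕ∞) ψ)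
    (hp : ∀ x, ψ (x + 2 * Real.pi) = ψ x) (M : ℕ) :
    ∃ C : ℝ, 0 ≤ C ∧ ∀ n : ℤ, |(n : ℝ)| ^ M * ‖fourI ψ 0 n‖ ≤ C := by
  obtain ⟨C, hC⟩ := (isCompact_uIcc (a := (0 : ℝ)) (b := 2 * Real.pi)).exists_bound_of_continuousOn
    (fourD_cont ψ h M).continuousOn
  have hC0 : 0 ≤ C := le_trans (norm_nonneg _) (hC 0 Set.left_mem_uIcc)
  refine ⟨C * (2 * Real.pi), by positivity, fun n => ?_⟩
  have h1 : |(n : ℝ)| ^ M * ‖fourI ψ 0 n‖ = ‖fourI ψ M n‖ := by
    rw [fourI_eq ψ h hp M n, norm_mul, norm_pow, norm_mul]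
    simp
  rw [h1]
  have h2 := intervalIntegral.norm_integral_le_of_norm_le_const (a := (0 : ℝ)) (b := 2 * Real.pi)
    (f := fun x : ℝ => Complex.exp (-(Complex.I * n * x)) * fourD ψ M x) (C := C) (by
      intro x hx
      rw [norm_mul]
      have h3 : ‖Complex.exp (-(Complex.I * n * (x : ℂ)))‖ = 1 := by
        rw [Complex.norm_exp]
        simp
      rw [h3, one_mul]
      exact hC x (Set.uIoc_subset_uIcc hx))
  have h4 : |2 * Real.pi - 0| = 2 * Real.pi := by
    rw [sub_zero, abs_of_pos Real.two_pi_pos]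
  rw [h4] at h2
  exact h2

private theorem fourI_bound' (ψ : ℝ → ℝ) (h : ContDiff ℝ (⊤ : ℕ∞) ψ)
    (hp : ∀ x, ψ (x + 2 * Real.pi) = ψ x) (M : ℕ) :
    ∃ C : ℝ, 0 ≤ C ∧ ∀ n : ℤ, (|(n : ℝ)| + 1) ^ M * ‖fourI ψ 0 n‖ ≤ C := by
  obtain ⟨C, hC0, hC⟩ := fourI_bound ψ h hp M
  refine ⟨2 ^ M * C + ‖fourI ψ 0 0‖, by positivity, fun n => ?_⟩
  by_cases hn : n = 0
  · subst hn
    simp
    positivity
  · have h1 : (1 : ℝ) ≤ |(n : ℝ)| := by
      rw [← Int.cast_abs]
      exact_mod_cast Int.one_le_abs hn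
    have h2 : (|(n : ℝ)| + 1) ^ M ≤ 2 ^ M * |(n : ℝ)| ^ M := by
      rw [← mul_pow]
      gcongr
      linarith
    calc (|(n : ℝ)| + 1) ^ M * ‖fourI ψ 0 n‖ ≤ (2 ^ M * |(n : ℝ)| ^ M) * ‖fourI ψ 0 n‖ := by
          gcongr
      _ = 2 ^ M * (|(n : ℝ)| ^ M * ‖fourI ψ 0 n‖) := by ring
      _ ≤ 2 ^ M * C := by gcongr; exact hC n
      _ ≤ _ := by linarith [norm_nonneg (fourI ψ 0 0)]

theorem cosine_series (ψ : ℝ → ℝ) (h : ContDiff ℝ (⊤ : ℕ∞) ψ) (hp : ∀ x, ψ (x + 2 * Real.pi) = ψ x)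
    (he : ∀ x, ψ (-x) = ψ x) :
    ∃ a : ℕ → ℝ, (∀ M : ℕ, ∃ C : ℝ, ∀ k : ℕ, |a k| * ((k : ℝ) + 1) ^ M ≤ C) ∧
      ∀ x, HasSum (fun k : ℕ => a k * Real.cos (k * x)) (ψ x) := by
  classical
  have hpi : (0 : ℝ) < 2 * Real.pi := Real.two_pi_pos
  have : Fact ((0 : ℝ) < 2 * Real.pi) := ⟨hpi⟩
  -- the function on the circle
  have hper : Function.Periodic (fun x : ℝ => (ψ x : ℂ)) (2 * Real.pi) := fun x => by
    simp [hp x]
  let f0 : AddCircle (2 * Real.pi) → ℂ := hper.lift
  have hf0 : ∀ x : ℝ, f0 (x : AddCircle (2 * Real.pi)) = (ψ x : ℂ) := fun x => rfl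
  have hcont : Continuous f0 := by
    apply continuous_coinduced_dom.mpr
    exact Complex.continuous_ofReal.comp h.continuous
  let f : C(AddCircle (2 * Real.pi), ℂ) := ⟨f0, hcont⟩
  set c : ℤ → ℂ := fun n => (1 / (2 * Real.pi) : ℝ) • fourI ψ 0 n with hcdef
  have hexp : ∀ (n : ℤ) (x : ℝ), (fourier n (x : AddCircle (2 * Real.pi)) : ℂ)
      = Complex.exp (Complex.I * n * x) := by
    intro n x
    rw [fourier_coe_apply]
    congr 1
    have : (Real.pi : ℂ) ≠ 0 := by exact_mod_cast Real.pi_ne_zero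
    push_cast
    field_simp
  have hcoef : ∀ n : ℤ, fourierCoeff (f : AddCircle (2 * Real.pi) → ℂ) n = c n := by
    intro n
    rw [fourierCoeff_eq_intervalIntegral _ n 0]
    simp only [hcdef, fourI, zero_add]
    congr 1
    apply intervalIntegral.integral_congr
    intro x _
    simp only
    rw [hexp]
    show _ • f0 x = _
    rw [hf0, smul_eq_mul]
    simp [fourD]
  have hcb : ∀ M : ℕ, ∃ C : ℝ, 0 ≤ C ∧ ∀ n : ℤ, (|(n : ℝ)| + 1) ^ M * ‖c n‖ ≤ C := by
    intro M
    obtain ⟨C, hC0, hC⟩ := fourI_bound' ψ h hp M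
    refine ⟨(1 / (2 * Real.pi)) * C, by positivity, fun n => ?_⟩
    have : ‖c n‖ = (1 / (2 * Real.pi)) * ‖fourI ψ 0 n‖ := by
      rw [hcdef, norm_smul, Real.norm_of_nonneg (by positivity)]
    rw [this]
    calc _ = (1 / (2 * Real.pi)) * ((|(n : ℝ)| + 1) ^ M * ‖fourI ψ 0 n‖) := by ring
      _ ≤ _ := by gcongr; exact hC n
  have hsum : Summable c := by
    obtain ⟨C, hC0, hC⟩ := hcb 2
    have hs : Summable (fun k : ℕ => C * (1 / ((k : ℝ) + 1) ^ 2)) := by
      apply Summable.mul_left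
      have := (summable_nat_add_iff 1).mpr (Real.summable_one_div_nat_pow.mpr one_lt_two)
      simpa using this
    have hb : ∀ n : ℤ, ∀ k : ℕ, |(n : ℝ)| = k → ‖c n‖ ≤ C * (1 / ((k : ℝ) + 1) ^ 2) := by
      intro n k hk
      have := hC n
      rw [hk] at this
      rw [mul_one_div, le_div_iff₀ (by positivity), mul_comm]
      exact this
    rw [summable_int_iff_summable_nat_and_neg]
    constructor
    · exact Summable.of_norm_bounded hs (fun k => hb k k (by simp))
    · exact Summable.of_norm_bounded hs (fun k => hb (-k) k (by simp))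
  have hsum' : Summable (fourierCoeff (f : AddCircle (2 * Real.pi) → ℂ)) := by
    have : fourierCoeff (f : AddCircle (2 * Real.pi) → ℂ) = c := funext hcoef
    rw [this]
    exact hsum
  have hS : ∀ x : ℝ, HasSum (fun n : ℤ => (c n * Complex.exp (Complex.I * n * x)).re) (ψ x) := by
    intro x
    have h1 := has_pointwise_sum_fourier_series_of_summable hsum' (x : AddCircle (2 * Real.pi))
    have h2 : (f (x : AddCircle (2 * Real.pi))) = (ψ x : ℂ) := hf0 x
    rw [h2] at h1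
    have h3 := Complex.hasSum_re h1
    simp only [Complex.ofReal_re] at h3
    refine four_congr (fun n => ?_) h3
    rw [hcoef, hexp, smul_eq_mul]
  have hcos : ∀ x : ℝ, HasSum (fun n : ℤ => (c n).re * Real.cos (n * x)) (ψ x) := by
    intro x
    have h1 := ((hS x).add (hS (-x))).mul_left (1 / 2)
    rw [he x] at h1
    have h2 : (1 / 2 : ℝ) * (ψ x + ψ x) = ψ x := by ring
    rw [h2] at h1
    refine four_congr (fun n => ?_) h1
    have e1 : Complex.exp (Complex.I * n * (x : ℂ)) = Complex.cos ((n * x : ℝ) : ℂ)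
        + Complex.sin ((n * x : ℝ) : ℂ) * Complex.I := by
      rw [← Complex.exp_mul_I]
      congr 1
      push_cast
      ring
    have e2 : Complex.exp (Complex.I * n * ((-x : ℝ) : ℂ)) = Complex.cos ((n * x : ℝ) : ℂ)
        - Complex.sin ((n * x : ℝ) : ℂ) * Complex.I := by
      have : Complex.exp (Complex.I * n * ((-x : ℝ) : ℂ))
          = Complex.exp ((((-(n * x)) : ℝ) : ℂ) * Complex.I) := by
        congr 1
        push_cast
        ring
      rw [this, Complex.exp_mul_I]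
      rw [Complex.ofReal_neg, Complex.cos_neg, Complex.sin_neg]
      ring
    rw [e1, e2]
    rw [← Complex.ofReal_cos, ← Complex.ofReal_sin]
    simp only [Complex.mul_re, Complex.add_re, Complex.sub_re, Complex.add_im, Complex.sub_im,
      Complex.mul_im, Complex.ofReal_re, Complex.ofReal_im, Complex.I_re, Complex.I_im]
    ring
  refine ⟨fun k => (c k).re + (c (-k)).re - (if k = 0 then (c 0).re else 0), ?_, ?_⟩
  · intro M
    obtain ⟨C, hC0, hC⟩ := hcb M
    refine ⟨3 * C, fun k => ?_⟩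
    have hk1 := hC k
    have hk2 := hC (-k)
    have hk3 := hC 0
    have a1 : |((k : ℤ) : ℝ)| = k := by simp
    have a2 : |((-(k : ℤ) : ℤ) : ℝ)| = k := by simp
    rw [a1] at hk1
    rw [a2] at hk2
    have a3 : ‖c 0‖ ≤ C := by simpa using hk3
    have hp1 : (0 : ℝ) < ((k : ℝ) + 1) ^ M := by positivity
    have b1 : |(c k).re| * ((k : ℝ) + 1) ^ M ≤ C := by
      calc _ ≤ ‖c k‖ * ((k : ℝ) + 1) ^ M := by gcongr; exact Complex.abs_re_le_norm _
        _ ≤ C := by rw [mul_comm]; exact hk1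
    have b2 : |(c (-k)).re| * ((k : ℝ) + 1) ^ M ≤ C := by
      calc _ ≤ ‖c (-k)‖ * ((k : ℝ) + 1) ^ M := by gcongr; exact Complex.abs_re_le_norm _
        _ ≤ C := by rw [mul_comm]; exact hk2
    have b3 : |(if k = 0 then (c 0).re else 0)| * ((k : ℝ) + 1) ^ M ≤ C := by
      by_cases hk : k = 0
      · subst hk
        simp only [if_true]
        have : ((((0 : ℕ) : ℝ)) + 1) ^ M = 1 := by simp
        rw [this, mul_one]
        exact le_trans (Complex.abs_re_le_norm _) a3
      · simp [hk, hC0]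
    have b4 : |(c k).re + (c (-k)).re - (if k = 0 then (c 0).re else 0)| ≤
        |(c k).re| + |(c (-k)).re| + |(if k = 0 then (c 0).re else 0)| := by
      refine le_trans (abs_sub _ _) ?_
      gcongr
      exact abs_add_le _ _
    calc _ ≤ (|(c k).re| + |(c (-k)).re| + |(if k = 0 then (c 0).re else 0)|) *
          ((k : ℝ) + 1) ^ M := by gcongr
      _ ≤ _ := by nlinarith
  · intro x
    have h1 := (hcos x).nat_add_neg
    have h2 : HasSum (fun k : ℕ => if k = 0 then (c 0).re else (0 : ℝ)) ((c 0).re) := by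
      convert hasSum_ite_eq (0 : ℕ) ((c 0).re) using 2
    have h3 := h1.sub h2
    have h4 : ψ x + (c 0).re * Real.cos (((0 : ℤ) : ℝ) * x) - (c 0).re = ψ x := by simp
    rw [h4] at h3
    refine four_congr (fun k => ?_) h3
    have e1 : Real.cos (((-(k : ℤ) : ℤ) : ℝ) * x) = Real.cos ((k : ℝ) * x) := by
      push_cast
      rw [neg_mul, Real.cos_neg]
    rw [e1]
    by_cases hk : k = 0
    · subst hk
      simp
    · simp [hk]
      ring

end Pool.Agent.H55.ML
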