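/-
C4 (Approx).  Polynomial approximation of a smooth function with small degree.  Needs ChebG, Four.  About 150 lines.
PROOF.  ψ(φ) = χ(K (1 + cos φ)/2) is smooth, even, 2π-periodic: Four gives a with |a_k| (k+1)^M <= C_M and
χ(x) = sum_k a_k Tk k (x) for x in [0, K] (x = K (1 + cos φ)/2 with φ = arccos(2x/K - 1), Tk_cos).
Tail: |χ - sum_{k <= Q} a_k Tk k| <= sum_{k > Q} |a_k| <= C_15 sum_{k>Q} (k+1)^{-15} <= C (Q+1)^{-13}.
Choose Q n = the largest Q with c0 (Q+1)^3 <= n (0 if there is none; there is one for n >= c0), so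
c0 (Q n + 2)^3 > n, Q n + 2 > (n/c0)^{1/3}, and (Q n+1)^{-13} <= 2^13 (Q n+2)^{-13} <= C' n^{-13/3} <= n^{-4} for large n.
-/
import Pool.Agent.H55.ML.ChebG
import Pool.Agent.H55.ML.Four

namespace Pool.Agent.H55.ML
open Polynomial

/-- the partial sums of a Chebyshev series -/
noncomputable def chs (a : ℕ → ℝ) (Q : ℕ) : ℝ[X] :=
  ∑ k ∈ Finset.range (Q + 1), Polynomial.C (a k) * Tk k

private lemma KK_pos : (0 : ℝ) < KK := by unfold KK; norm_num

private lemma sum_sq_tail (q m : ℕ) :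
    ∑ k ∈ Finset.Ico (q + 1) (q + 1 + m), 1 / ((k : ℝ) + 1) ^ 2 ≤
      1 / ((q : ℝ) + 1) - 1 / ((q : ℝ) + 1 + m) := by
  induction m with
  | zero => simp
  | succ m ih =>
    rw [show q + 1 + (m + 1) = (q + 1 + m) + 1 from by ring,
      Finset.sum_Ico_succ_top (by omega)]
    have h1 : (0 : ℝ) < (q : ℝ) + 1 + m := by positivity
    have h2 : 1 / (((q + 1 + m : ℕ) : ℝ) + 1) ^ 2 ≤
        1 / ((q : ℝ) + 1 + m) - 1 / ((q : ℝ) + 1 + (m + 1 : ℕ)) := by
      push_cast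
      rw [div_sub_div _ _ h1.ne' (by positivity), div_le_div_iff₀ (by positivity) (by positivity)]
      nlinarith
    linarith

private lemma sum_sq_all (m : ℕ) :
    ∑ k ∈ Finset.range m, 1 / ((k : ℝ) + 1) ^ 2 ≤ 2 := by
  rcases m with _ | m
  · simp
  · have h := sum_sq_tail 0 m
    rw [Finset.range_eq_Ico, Finset.sum_eq_sum_Ico_succ_bot (by omega)]
    simp only [zero_add] at h ⊢
    rw [show m + 1 = 1 + m from by ring]
    have h3 : (0 : ℝ) ≤ 1 / (((0 : ℕ) : ℝ) + 1 + m) := by positivity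
    have h4 : (1 : ℝ) / (((0 : ℕ) : ℝ) + 1) ^ 2 = 1 := by norm_num
    have h5 : (1 : ℝ) / (((0 : ℕ) : ℝ) + 1) = 1 := by norm_num
    rw [h5] at h
    rw [h4]
    linarith

theorem approx (χ : ℝ → ℝ) (hχ : ContDiff ℝ (⊤ : ℕ∞) χ) (c0 : ℕ) :
    ∃ (a : ℕ → ℝ) (Q : ℕ → ℕ) (C : ℝ) (N : ℕ), 0 ≤ C ∧
      (∀ k : ℕ, |a k| * ((k : ℝ) + 1) ^ 11 ≤ C) ∧
      (∀ n, N ≤ n → c0 * (Q n + 1) ^ 3 ≤ n) ∧
      (∀ n, N ≤ n → ∀ x ∈ Set.Icc 0 KK, |χ x - (chs a (Q n)).eval x| ≤ 1 / (n : ℝ) ^ 4) := by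
  classical
  set ψ : ℝ → ℝ := fun φ => χ (KK * (1 + Real.cos φ) / 2) with hψ
  have hc : ContDiff ℝ (⊤ : ℕ∞) ψ := by
    apply hχ.comp
    apply ContDiff.div_const
    exact contDiff_const.mul (contDiff_const.add (Real.contDiff_cos.of_le le_top))
  obtain ⟨a, ha, hs⟩ := cosine_series ψ hc
    (fun x => by simp only [hψ, Real.cos_add_two_pi]) (fun x => by simp only [hψ, Real.cos_neg])
  obtain ⟨C, hC⟩ := ha 11
  obtain ⟨D, hD⟩ := ha 17
  have hC0 : 0 ≤ C := le_trans (by positivity) (hC 0)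
  have hD0 : 0 ≤ D := le_trans (by positivity) (hD 0)
  set P : ℕ → ℕ → Prop := fun n q => (c0 + 1) * (q + 1) ^ 3 ≤ n with hP
  set Q : ℕ → ℕ := fun n => Nat.findGreatest (P n) n with hQ
  have hQ1 : ∀ n, c0 + 1 ≤ n → (c0 + 1) * (Q n + 1) ^ 3 ≤ n := by
    intro n hn
    have : P n (Q n) := Nat.findGreatest_spec (P := P n) (m := 0) (Nat.zero_le n)
      (by simp only [hP]; simpa using hn)
    exact this
  have hQ2 : ∀ n, n < (c0 + 1) * (Q n + 2) ^ 3 := by
    intro n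
    by_cases h : Q n + 1 ≤ n
    · have := Nat.findGreatest_is_greatest (P := P n) (n := n) (k := Q n + 1)
        (by simp only [hQ]; omega) h
      simp only [hP, not_le] at this
      exact this
    · have h1 : Q n + 2 ≤ (Q n + 2) ^ 3 := Nat.le_self_pow (by norm_num) _
      have h2 : (Q n + 2) ^ 3 ≤ (c0 + 1) * (Q n + 2) ^ 3 := Nat.le_mul_of_pos_left _ (by omega)
      omega
  obtain ⟨N1, hN1⟩ := exists_nat_ge (D * ((c0 : ℝ) + 1) ^ 5)
  refine ⟨a, Q, C, max (c0 + 1) (max N1 1), hC0, hC, ?_, ?_⟩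
  · intro n hn
    have h1 := hQ1 n (le_trans (le_max_left _ _) hn)
    have h2 : c0 * (Q n + 1) ^ 3 ≤ (c0 + 1) * (Q n + 1) ^ 3 := Nat.mul_le_mul_right _ (by omega)
    omega
  · intro n hn x hx
    have hn1 : N1 ≤ n := le_trans (le_trans (le_max_left _ _) (le_max_right _ _)) hn
    have hn2 : 1 ≤ n := le_trans (le_trans (le_max_right _ _) (le_max_right _ _)) hn
    have hnp : (0 : ℝ) < n := by exact_mod_cast hn2
    set φ := Real.arccos (2 * x / KK - 1) with hφ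
    have hcos : Real.cos φ = 2 * x / KK - 1 := by
      apply Real.cos_arccos
      · have : 0 ≤ 2 * x / KK := div_nonneg (by linarith [hx.1]) KK_pos.le
        linarith
      · have : 2 * x / KK ≤ 2 := by
          rw [div_le_iff₀ KK_pos]; linarith [hx.2]
        linarith
    have hxφ : x = KK * (1 + Real.cos φ) / 2 := by
      rw [hcos]; field_simp [KK_pos.ne']; ring
    have hsum := hs φ
    have hψx : ψ φ = χ x := by simp only [hψ]; rw [← hxφ]
    rw [hψx] at hsum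
    have hev : (chs a (Q n)).eval x = ∑ k ∈ Finset.range (Q n + 1), a k * Real.cos (k * φ) := by
      unfold chs
      rw [Polynomial.eval_finsetSum]
      apply Finset.sum_congr rfl
      intro k _
      rw [Polynomial.eval_mul, Polynomial.eval_C]
      congr 1
      conv_lhs => rw [hxφ]
      exact Tk_cos k φ
    have hbd : ∀ m : ℕ, |(∑ k ∈ Finset.range (Q n + 1 + m), a k * Real.cos (k * φ)) -
        (chs a (Q n)).eval x| ≤ 1 / (n : ℝ) ^ 4 := by
      intro m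
      rw [hev, ← Finset.sum_range_add_sum_Ico _ (show Q n + 1 ≤ Q n + 1 + m by omega),
        add_sub_cancel_left]
      have hq : (0 : ℝ) < (Q n : ℝ) + 2 := by positivity
      have hterm : ∀ k ∈ Finset.Ico (Q n + 1) (Q n + 1 + m), |a k * Real.cos (k * φ)| ≤
          D / ((Q n : ℝ) + 2) ^ 15 * (1 / ((k : ℝ) + 1) ^ 2) := by
        intro k hk
        have hk1 : Q n + 1 ≤ k := (Finset.mem_Ico.mp hk).1
        have hk2 : (Q n : ℝ) + 2 ≤ (k : ℝ) + 1 := by
          have : ((Q n + 1 : ℕ) : ℝ) ≤ (k : ℝ) := by exact_mod_cast hk1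
          push_cast at this; linarith
        rw [abs_mul]
        have h1 : |a k| * |Real.cos (k * φ)| ≤ |a k| :=
          mul_le_of_le_one_right (abs_nonneg _) (Real.abs_cos_le_one _)
        refine h1.trans ?_
        rw [div_mul_div_comm, mul_one, le_div_iff₀ (by positivity)]
        refine le_trans ?_ (hD k)
        apply mul_le_mul_of_nonneg_left _ (abs_nonneg _)
        calc ((Q n : ℝ) + 2) ^ 15 * ((k : ℝ) + 1) ^ 2
            ≤ ((k : ℝ) + 1) ^ 15 * ((k : ℝ) + 1) ^ 2 := by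
              apply mul_le_mul_of_nonneg_right _ (by positivity)
              exact pow_le_pow_left₀ hq.le hk2 15
          _ = ((k : ℝ) + 1) ^ 17 := by ring
      refine (Finset.abs_sum_le_sum_abs _ _).trans ((Finset.sum_le_sum hterm).trans ?_)
      rw [← Finset.mul_sum]
      have hs1 : ∑ k ∈ Finset.Ico (Q n + 1) (Q n + 1 + m), 1 / ((k : ℝ) + 1) ^ 2 ≤ 1 := by
        refine (sum_sq_tail (Q n) m).trans ?_
        have h1 : (0 : ℝ) ≤ 1 / ((Q n : ℝ) + 1 + m) := by positivity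
        have h2 : 1 / ((Q n : ℝ) + 1) ≤ 1 := by
          rw [div_le_one (by positivity)]
          have : (0 : ℝ) ≤ (Q n : ℝ) := Nat.cast_nonneg _
          linarith
        linarith
      have hfac : 0 ≤ D / ((Q n : ℝ) + 2) ^ 15 := by positivity
      refine (mul_le_mul_of_nonneg_left hs1 hfac).trans ?_
      rw [mul_one, div_le_div_iff₀ (by positivity) (by positivity), one_mul]
      have hq2 : (n : ℝ) ≤ ((c0 : ℝ) + 1) * ((Q n : ℝ) + 2) ^ 3 := by
        have := (hQ2 n).le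
        exact_mod_cast this
      have hq3 : (n : ℝ) ^ 5 ≤ ((c0 : ℝ) + 1) ^ 5 * ((Q n : ℝ) + 2) ^ 15 := by
        calc (n : ℝ) ^ 5 ≤ (((c0 : ℝ) + 1) * ((Q n : ℝ) + 2) ^ 3) ^ 5 :=
              pow_le_pow_left₀ hnp.le hq2 5
          _ = ((c0 : ℝ) + 1) ^ 5 * ((Q n : ℝ) + 2) ^ 15 := by ring
      have hDn : D * ((c0 : ℝ) + 1) ^ 5 ≤ n :=
        hN1.trans (by exact_mod_cast hn1)
      have h4 : D * (n : ℝ) ^ 5 ≤ (n : ℝ) * ((Q n : ℝ) + 2) ^ 15 := by
        calc D * (n : ℝ) ^ 5 ≤ D * (((c0 : ℝ) + 1) ^ 5 * ((Q n : ℝ) + 2) ^ 15) :=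
              mul_le_mul_of_nonneg_left hq3 hD0
          _ = (D * ((c0 : ℝ) + 1) ^ 5) * ((Q n : ℝ) + 2) ^ 15 := by ring
          _ ≤ (n : ℝ) * ((Q n : ℝ) + 2) ^ 15 :=
              mul_le_mul_of_nonneg_right hDn (by positivity)
      have h5 : (n : ℝ) * (D * (n : ℝ) ^ 4) ≤ (n : ℝ) * ((Q n : ℝ) + 2) ^ 15 := by
        calc (n : ℝ) * (D * (n : ℝ) ^ 4) = D * (n : ℝ) ^ 5 := by ring
          _ ≤ _ := h4
      exact le_of_mul_le_mul_left h5 hnp
    have htend : Filter.Tendsto (fun m : ℕ =>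
        |(∑ k ∈ Finset.range (Q n + 1 + m), a k * Real.cos (k * φ)) - (chs a (Q n)).eval x|)
        Filter.atTop (nhds |χ x - (chs a (Q n)).eval x|) := by
      have h1 := hsum.tendsto_sum_nat
      have h2 : Filter.Tendsto (fun m : ℕ => Q n + 1 + m) Filter.atTop Filter.atTop :=
        Filter.tendsto_atTop_mono (f := fun m : ℕ => m) (fun m => by omega) Filter.tendsto_id
      exact ((h1.comp h2).sub_const _).abs
    exact le_of_tendsto' htend hbd

theorem chs_growth (a : ℕ → ℝ) (C : ℝ) (ha : ∀ k : ℕ, |a k| * ((k : ℝ) + 1) ^ 11 ≤ C) (Q : ℕ)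
    (x : ℝ) (hx : 0 ≤ x) : |(chs a Q).eval x| ≤ 2 * C * (4 * (1 + x)) ^ Q := by
  have hC0 : 0 ≤ C := le_trans (by positivity) (ha 0)
  have hb : (1 : ℝ) ≤ 4 * (1 + x) := by linarith
  unfold chs
  rw [Polynomial.eval_finsetSum]
  refine (Finset.abs_sum_le_sum_abs _ _).trans ?_
  have hterm : ∀ k ∈ Finset.range (Q + 1), |(Polynomial.C (a k) * Tk k).eval x| ≤
      C * (4 * (1 + x)) ^ Q * (1 / ((k : ℝ) + 1) ^ 2) := by
    intro k hk
    have hkQ : k ≤ Q := Nat.lt_succ_iff.mp (Finset.mem_range.mp hk)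
    rw [Polynomial.eval_mul, Polynomial.eval_C, abs_mul]
    have h1 : |(Tk k).eval x| ≤ (4 * (1 + x)) ^ Q :=
      (Tk_growth k x hx).trans (pow_le_pow_right₀ hb hkQ)
    have h2 : |a k| ≤ C * (1 / ((k : ℝ) + 1) ^ 2) := by
      rw [mul_one_div, le_div_iff₀ (by positivity)]
      refine le_trans ?_ (ha k)
      apply mul_le_mul_of_nonneg_left _ (abs_nonneg _)
      exact pow_le_pow_right₀ (by linarith [show (0 : ℝ) ≤ k from Nat.cast_nonneg k]) (by norm_num)
    calc |a k| * |(Tk k).eval x| ≤ (C * (1 / ((k : ℝ) + 1) ^ 2)) * (4 * (1 + x)) ^ Q :=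
          mul_le_mul h2 h1 (abs_nonneg _) (by positivity)
      _ = C * (4 * (1 + x)) ^ Q * (1 / ((k : ℝ) + 1) ^ 2) := by ring
  refine (Finset.sum_le_sum hterm).trans ?_
  rw [← Finset.mul_sum]
  have hfac : 0 ≤ C * (4 * (1 + x)) ^ Q := by positivity
  refine (mul_le_mul_of_nonneg_left (sum_sq_all (Q + 1)) hfac).trans ?_
  linarith

theorem chs_natDegree (a : ℕ → ℝ) (Q : ℕ) : (chs a Q).natDegree ≤ Q := by
  unfold chs
  apply Polynomial.natDegree_sum_le_of_forall_le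
  intro k hk
  have hkQ : k ≤ Q := Nat.lt_succ_iff.mp (Finset.mem_range.mp hk)
  exact (Polynomial.natDegree_C_mul_le _ _).trans ((Tk_natDegree k).trans hkQ)

end Pool.Agent.H55.ML
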