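/-
A1 (Expand).  Universal expansion of h(D), D = (l'-r')(l-r) + (l-r)(l'-r'), l, l' commuting with r, r'.
MATHLIB ONLY, about 120 lines.

PROOF.  Let M = MonoidAlgebra ℝ (FreeMonoid Bool × FreeMonoid Bool) (or: induct directly with Finsupp).
Induction principle: call an element x of A represented in degree <= m by a if
x = a.sum (t • (ev l l' u * ev r r' v)) and all pairs in the support of a satisfy |u| + |v| <= m, with the
SAME a for all (A, l, l', r, r').  Closed under addition and real scalar multiples (same degree) and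
products (degrees add): (ev l l' u * ev r r' v) * (ev l l' u' * ev r r' v') =
ev l l' (u ++ u') * ev r r' (v ++ v') because the r-words commute with the l-words.
The element DDg l l' r r' is represented in degree 2:
(l'-r')(l-r) + (l-r)(l'-r') = l'l - l'r - lr' + r'r + ll' - lr' - l'r + rr' (use the commutations).
Then h(D) = sum h_i D^i is represented in degree 2 natDegree h (Polynomial.aeval_eq_sum_range).
Suggestion: prove first for D^i by induction on i, then sum over i in range (natDegree h + 1).
-/
import Pool.Agent.H55.ML.Defs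

namespace Pool.Agent.H55.ML
open Polynomial

theorem ev_nil {A : Type*} [Monoid A] (x y : A) : ev x y [] = 1 := by
  simp [ev]

theorem ev_cons {A : Type*} [Monoid A] (x y : A) (b : Bool) (w : List Bool) :
    ev x y (b :: w) = cond b x y * ev x y w := by
  simp [ev]

theorem ev_append {A : Type*} [Monoid A] (x y : A) (u v : List Bool) :
    ev x y (u ++ v) = ev x y u * ev x y v := by
  simp [ev]

private def Rep (m : ℕ)
    (F : ∀ (A : Type) [Ring A] [Algebra ℝ A] (_ _ _ _ : A), A) : Prop :=
  ∃ a : (List Bool × List Bool) →₀ ℝ,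
    (∀ p ∈ a.support, p.1.length + p.2.length ≤ m) ∧
    ∀ (A : Type) [Ring A] [Algebra ℝ A] (l l' r r' : A),
      Commute l r → Commute l r' → Commute l' r → Commute l' r' →
      F A l l' r r' = a.sum fun p t => t • (ev l l' p.1 * ev r r' p.2)

private theorem Rep.mono {m m' : ℕ} {F : ∀ (A : Type) [Ring A] [Algebra ℝ A] (_ _ _ _ : A), A}
    (h : Rep m F) (hm : m ≤ m') : Rep m' F := by
  obtain ⟨a, ha, hb⟩ := h
  exact ⟨a, fun p hp => (ha p hp).trans hm, hb⟩

private theorem Rep.add {m : ℕ} {F G : ∀ (A : Type) [Ring A] [Algebra ℝ A] (_ _ _ _ : A), A}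
    (hF : Rep m F) (hG : Rep m G) :
    Rep m (fun A _ _ l l' r r' => F A l l' r r' + G A l l' r r') := by
  classical
  obtain ⟨a, ha, ha'⟩ := hF
  obtain ⟨b, hb, hb'⟩ := hG
  refine ⟨a + b, ?_, ?_⟩
  · intro p hp
    rcases Finset.mem_union.1 (Finsupp.support_add hp) with h | h
    · exact ha p h
    · exact hb p h
  · intro A _ _ l l' r r' h1 h2 h3 h4
    rw [Finsupp.sum_add_index']
    · beta_reduce
      rw [ha' A l l' r r' h1 h2 h3 h4, hb' A l l' r r' h1 h2 h3 h4]
    · intro p; simp
    · intro p s t; rw [add_smul]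

private theorem Rep.smul {m : ℕ} {F : ∀ (A : Type) [Ring A] [Algebra ℝ A] (_ _ _ _ : A), A}
    (c : ℝ) (hF : Rep m F) :
    Rep m (fun A _ _ l l' r r' => c • F A l l' r r') := by
  classical
  obtain ⟨a, ha, ha'⟩ := hF
  refine ⟨c • a, ?_, ?_⟩
  · intro p hp
    exact ha p (Finsupp.support_smul hp)
  · intro A _ _ l l' r r' h1 h2 h3 h4
    rw [Finsupp.sum_smul_index (by intro p; simp)]
    beta_reduce
    rw [ha' A l l' r r' h1 h2 h3 h4, Finsupp.smul_sum]
    refine Finsupp.sum_congr fun p _ => ?_
    rw [smul_smul]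

private theorem Rep.zero {m : ℕ} : Rep m (fun A _ _ _ _ _ _ => (0 : A)) :=
  ⟨0, by simp, by intro A _ _ l l' r r' _ _ _ _; simp⟩

private theorem Rep.word (c : ℝ) (u v : List Bool) :
    Rep (u.length + v.length) (fun A _ _ l l' r r' => c • (ev l l' u * ev r r' v)) := by
  classical
  refine ⟨Finsupp.single (u, v) c, ?_, ?_⟩
  · intro p hp
    have := Finsupp.support_single_subset hp
    rw [Finset.mem_singleton] at this
    rw [this]
  · intro A _ _ l l' r r' _ _ _ _
    rw [Finsupp.sum_single_index (by simp)]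

private theorem commute_ev {A : Type} [Ring A] {l l' x : A} (h1 : Commute l x)
    (h2 : Commute l' x) (u : List Bool) : Commute (ev l l' u) x := by
  induction u with
  | nil => rw [ev_nil]; exact Commute.one_left x
  | cons b u ih =>
    rw [ev_cons]
    refine Commute.mul_left ?_ ih
    cases b
    · exact h2
    · exact h1

private theorem Rep.wordMul {m : ℕ} {F : ∀ (A : Type) [Ring A] [Algebra ℝ A] (_ _ _ _ : A), A}
    (c : ℝ) (u v : List Bool) (hF : Rep m F) :
    Rep (u.length + v.length + m)
      (fun A _ _ l l' r r' => (c • (ev l l' u * ev r r' v)) * F A l l' r r') := by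
  classical
  obtain ⟨a, ha, ha'⟩ := hF
  refine ⟨a.sum fun q t => Finsupp.single (u ++ q.1, v ++ q.2) (c * t), ?_, ?_⟩
  · intro p hp
    have h1 := Finsupp.support_sum hp
    rw [Finset.mem_biUnion] at h1
    obtain ⟨q, hq, hq2⟩ := h1
    have := Finsupp.support_single_subset hq2
    rw [Finset.mem_singleton] at this
    rw [this]
    have := ha q hq
    simp only [List.length_append]
    omega
  · intro A _ _ l l' r r' h1 h2 h3 h4
    beta_reduce
    rw [ha' A l l' r r' h1 h2 h3 h4]
    rw [Finsupp.sum_sum_index (by intro p; simp) (by intro p s t; rw [add_smul])]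
    rw [Finsupp.sum, Finsupp.sum, Finset.mul_sum]
    refine Finset.sum_congr rfl fun q _ => ?_
    rw [Finsupp.sum_single_index (by simp)]
    rw [ev_append, ev_append, smul_mul_smul_comm]
    congr 1
    have hc : Commute (ev r r' v) (ev l l' q.1) := by
      refine (commute_ev (x := ev r r' v) ?_ ?_ q.1).symm
      · exact (commute_ev h1.symm h2.symm v).symm
      · exact (commute_ev h3.symm h4.symm v).symm
    calc ev l l' u * ev r r' v * (ev l l' q.1 * ev r r' q.2)
        = ev l l' u * (ev r r' v * ev l l' q.1) * ev r r' q.2 := by simp only [mul_assoc]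
      _ = ev l l' u * (ev l l' q.1 * ev r r' v) * ev r r' q.2 := by rw [hc.eq]
      _ = ev l l' u * ev l l' q.1 * (ev r r' v * ev r r' q.2) := by simp only [mul_assoc]

private theorem rep_DDg_mul {m : ℕ} {F : ∀ (A : Type) [Ring A] [Algebra ℝ A] (_ _ _ _ : A), A}
    (hF : Rep m F) :
    Rep (m + 2) (fun A _ _ l l' r r' => DDg l l' r r' * F A l l' r r') := by
  have k1 := (Rep.wordMul 1 [false, true] [] hF)
  have k2 := (Rep.wordMul 1 [true, false] [] hF)
  have k3 := (Rep.wordMul 1 [] [false, true] hF)
  have k4 := (Rep.wordMul 1 [] [true, false] hF)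
  have k5 := (Rep.wordMul (-2) [false] [true] hF)
  have k6 := (Rep.wordMul (-2) [true] [false] hF)
  have key := (((((k1.mono (m' := m + 2) (by simp; omega)).add
    (k2.mono (m' := m + 2) (by simp; omega))).add
    (k3.mono (m' := m + 2) (by simp; omega))).add
    (k4.mono (m' := m + 2) (by simp; omega))).add
    (k5.mono (m' := m + 2) (by simp; omega))).add
    (k6.mono (m' := m + 2) (by simp; omega))
  obtain ⟨a, ha, ha'⟩ := key
  refine ⟨a, ha, ?_⟩
  intro A _ _ l l' r r' h1 h2 h3 h4
  rw [← ha' A l l' r r' h1 h2 h3 h4]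
  simp only [← add_mul]
  congr 1
  simp only [ev_cons, ev_nil, cond_true, cond_false, mul_one, one_mul, one_smul]
  unfold DDg
  have e1 : r' * l = l * r' := h2.eq.symm
  have e2 : r * l' = l' * r := h3.eq.symm
  simp only [sub_mul, mul_sub, e1, e2]
  have s1 : ((-2 : ℝ)) • (l' * r) = -(l' * r) - (l' * r) := by
    rw [show (-2 : ℝ) = -1 + -1 by norm_num, add_smul, neg_one_smul]; abel
  have s2 : ((-2 : ℝ)) • (l * r') = -(l * r') - (l * r') := by
    rw [show (-2 : ℝ) = -1 + -1 by norm_num, add_smul, neg_one_smul]; abel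
  rw [s1, s2]
  abel

private theorem rep_pow (i : ℕ) :
    Rep (2 * i) (fun A _ _ l l' r r' => (DDg l l' r r') ^ i) := by
  induction i with
  | zero =>
    have k := Rep.word 1 [] []
    simpa [ev_nil] using k
  | succ i ih =>
    have k := rep_DDg_mul ih
    simp only [pow_succ']
    exact k

private theorem rep_sum (h : ℝ[X]) (N : ℕ) :
    Rep (2 * N) (fun A _ _ l l' r r' =>
      ∑ i ∈ Finset.range (N + 1), h.coeff i • (DDg l l' r r') ^ i) := by
  induction N with
  | zero =>
    have k := (rep_pow 0).smul (h.coeff 0)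
    simpa using k
  | succ N ih =>
    have k := (ih.mono (m' := 2 * (N + 1)) (by omega)).add ((rep_pow (N + 1)).smul (h.coeff (N + 1)))
    have e : (fun (A : Type) [Ring A] [Algebra ℝ A] (l l' r r' : A) =>
      ∑ i ∈ Finset.range (N + 1 + 1), h.coeff i • (DDg l l' r r') ^ i) =
      (fun (A : Type) [Ring A] [Algebra ℝ A] (l l' r r' : A) =>
      (∑ i ∈ Finset.range (N + 1), h.coeff i • (DDg l l' r r') ^ i)
        + h.coeff (N + 1) • (DDg l l' r r') ^ (N + 1)) := by
      funext A _ _ l l' r r'
      rw [Finset.sum_range_succ]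
    rw [e]
    exact k

theorem expand (h : ℝ[X]) : ∃ a : (List Bool × List Bool) →₀ ℝ,
    (∀ p ∈ a.support, p.1.length + p.2.length ≤ 2 * h.natDegree) ∧
    ∀ (A : Type) [Ring A] [Algebra ℝ A] (l l' r r' : A),
      Commute l r → Commute l r' → Commute l' r → Commute l' r' →
      aeval (DDg l l' r r') h = a.sum fun p t => t • (ev l l' p.1 * ev r r' p.2) := by
  obtain ⟨a, ha, ha'⟩ := rep_sum h h.natDegree
  refine ⟨a, ha, ?_⟩
  intro A _ _ l l' r r' h1 h2 h3 h4
  rw [← ha' A l l' r r' h1 h2 h3 h4, Polynomial.aeval_eq_sum_range]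

end Pool.Agent.H55.ML
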