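/-
A2 (LR).  Left and right multiplications as matrices on pairs.  About 120 lines.
Everything is entrywise: Lf A (i,j) (k,l) = A i k * (if j = l then 1 else 0),
Rt A (i,j) (k,l) = (if i = k then 1 else 0) * A l j  (kroneckerMap_apply, Matrix.one_apply,
Matrix.mul_kronecker_mul, Matrix.conjTranspose_kronecker, Matrix.trace_kronecker).
ev_Rt: Rt is an anti-homomorphism, induction on v with List.reverse_cons.
-/
import Pool.Agent.H55.ML.Expand

namespace Pool.Agent.H55.ML
open Matrix
open scoped Kronecker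

variable {n : ℕ}

theorem Lf_mul (A B : Mat n) : Lf (A * B) = Lf A * Lf B := by
  unfold Lf
  rw [← Matrix.mul_kronecker_mul, Matrix.mul_one]

theorem Rt_mul (A B : Mat n) : Rt (A * B) = Rt B * Rt A := by
  unfold Rt
  rw [← Matrix.mul_kronecker_mul, Matrix.mul_one, Matrix.transpose_mul]

theorem Lf_one : Lf (1 : Mat n) = 1 := by
  unfold Lf
  exact Matrix.one_kronecker_one

theorem Rt_one : Rt (1 : Mat n) = 1 := by
  unfold Rt
  rw [Matrix.transpose_one]
  exact Matrix.one_kronecker_one

theorem Lf_add (A B : Mat n) : Lf (A + B) = Lf A + Lf B := by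
  unfold Lf
  exact Matrix.add_kronecker _ _ _

theorem Rt_add (A B : Mat n) : Rt (A + B) = Rt A + Rt B := by
  unfold Rt
  rw [Matrix.transpose_add]
  exact Matrix.kronecker_add _ _ _

theorem Lf_smul (c : ℂ) (A : Mat n) : Lf (c • A) = c • Lf A := by
  unfold Lf
  exact Matrix.smul_kronecker _ _ _

theorem Rt_smul (c : ℂ) (A : Mat n) : Rt (c • A) = c • Rt A := by
  unfold Rt
  rw [Matrix.transpose_smul]
  exact Matrix.kronecker_smul _ _ _

theorem Lf_conjTranspose (A : Mat n) : (Lf A)ᴴ = Lf Aᴴ := by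
  unfold Lf
  rw [Matrix.conjTranspose_kronecker, Matrix.conjTranspose_one]

theorem Rt_conjTranspose (A : Mat n) : (Rt A)ᴴ = Rt Aᴴ := by
  unfold Rt
  rw [Matrix.conjTranspose_kronecker, Matrix.conjTranspose_one]
  congr 1

theorem Lf_comm_Rt (A B : Mat n) : Commute (Lf A) (Rt B) := by
  unfold Lf Rt
  unfold Commute SemiconjBy
  rw [← Matrix.mul_kronecker_mul, ← Matrix.mul_kronecker_mul, Matrix.mul_one, Matrix.one_mul, Matrix.mul_one, Matrix.one_mul]

theorem trace_Lf_mul_Rt (A B : Mat n) : (Lf A * Rt B).trace = A.trace * B.trace := by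
  unfold Lf Rt
  rw [← Matrix.mul_kronecker_mul, Matrix.mul_one, Matrix.one_mul, Matrix.trace_kronecker, Matrix.trace_transpose]

theorem ev_Lf (X Y : Mat n) (u : List Bool) : ev (Lf X) (Lf Y) u = Lf (ev X Y u) := by
  induction u with
  | nil => rw [ev_nil, ev_nil, Lf_one]
  | cons b u ih =>
    rw [ev_cons, ev_cons, Lf_mul, ih]
    cases b <;> rfl

theorem ev_Rt (X Y : Mat n) (v : List Bool) :
    ev (Rt X) (Rt Y) v = Rt (ev X Y v.reverse) := by
  induction v with
  | nil => rw [List.reverse_nil, ev_nil, ev_nil, Rt_one]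
  | cons b v ih =>
    rw [ev_cons, List.reverse_cons, ev_append, Rt_mul, ih, ev_cons, ev_nil, mul_one]
    cases b <;> rfl

theorem ev_conjTranspose (X : Mat n) (w : List Bool) :
    (ev X Xᴴ w)ᴴ = ev X Xᴴ (st w) := by
  induction w with
  | nil => simp [st, ev]
  | cons b w ih =>
    rw [ev_cons, Matrix.conjTranspose_mul, ih]
    have e : st (b :: w) = st w ++ [!b] := by simp [st]
    rw [e, ev_append, ev_cons, ev_nil, mul_one]
    cases b <;> simp

theorem Lf_mulVec_vc (A B : Mat n) : Lf A *ᵥ vc B = vc (A * B) := by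
  funext p
  simp only [Lf, vc, Matrix.mulVec, dotProduct, Matrix.kroneckerMap_apply, Matrix.one_apply,
    Matrix.mul_apply]
  rw [Fintype.sum_prod_type]
  refine Finset.sum_congr rfl fun k _ => ?_
  simp

theorem Rt_mulVec_vc (A B : Mat n) : Rt A *ᵥ vc B = vc (B * A) := by
  funext p
  simp only [Rt, vc, Matrix.mulVec, dotProduct, Matrix.kroneckerMap_apply, Matrix.one_apply,
    Matrix.mul_apply, Matrix.transpose_apply]
  rw [Fintype.sum_prod_type]
  rw [Finset.sum_eq_single p.1]
  · refine Finset.sum_congr rfl fun k _ => ?_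
    simp [mul_comm]
  · intro b _ hb
    refine Finset.sum_eq_zero fun k _ => ?_
    simp [Ne.symm hb]
  · intro h
    exact absurd (Finset.mem_univ _) h

theorem star_vc_dotProduct_vc (A B : Mat n) : star (vc A) ⬝ᵥ vc B = (Aᴴ * B).trace := by
  simp only [vc, dotProduct, Pi.star_apply, Matrix.trace, Matrix.diag_apply, Matrix.mul_apply,
    Matrix.conjTranspose_apply]
  rw [Fintype.sum_prod_type, Finset.sum_comm]

theorem nv_vc (B : Mat n) : nv (vc B) = hs2 B := by
  simp only [nv, vc, hs2]
  rw [Fintype.sum_prod_type]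

end Pool.Agent.H55.ML
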