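/-
A3 (KV).  The rank one operators Kop, the projection P1, and the form of DD.  About 200 lines.
Kop A V (i,j) (k,l) = A i j * V l k, so Kop A V = |vc A> < vc (V*)|.
DD X = δ* δ + δ δ* with δ = Lf X - Rt X, δ* = Lf X* - Rt X* (LR: Lf_conjTranspose, Rt_conjTranspose), and
star b ⬝ (δ* δ b) = nv (δ b), star b ⬝ (δ δ* b) = nv (δ* b).
DD X * P1 = 0: (Lf X - Rt X) * Kop 1 1 = 0 entrywise (X i j - X i j), similarly for X*; P1 * DD X = 0 by
conjugate transposition (DD X and P1 are Hermitian).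
aeval (DD X) h * P1 = h(0) P1: induction on h or Polynomial.aeval_eq_sum_range.
-/
import Pool.Agent.H55.ML.LR

namespace Pool.Agent.H55.ML
open Matrix Polynomial
open scoped Kronecker

variable {n : ℕ}

private theorem Kop_eq (A V : Mat n) : Kop A V = vecMulVec (vc A) (vc Vᵀ) := by
  ext p q
  rw [vecMulVec_apply]
  rfl

private theorem Kop_conjTranspose' (A V : Mat n) : (Kop A V)ᴴ = Kop Vᴴ Aᴴ := by
  ext p q
  simp only [Matrix.conjTranspose_apply, Kop, Matrix.of_apply, star_mul']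
  ring

private theorem trace_Kop' (A V : Mat n) : (Kop A V).trace = (V * A).trace := by
  simp only [Kop, Matrix.trace, Matrix.diag_apply, Matrix.of_apply, Matrix.mul_apply]
  rw [Fintype.sum_prod_type_right]
  refine Finset.sum_congr rfl fun l _ => Finset.sum_congr rfl fun k _ => ?_
  ring

private theorem Kop_mul_Kop' (A V A' V' : Mat n) :
    Kop A V * Kop A' V' = (V * A').trace • Kop A V' := by
  ext p q
  simp only [Kop, Matrix.mul_apply, Matrix.of_apply, Matrix.smul_apply, smul_eq_mul,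
    Matrix.trace, Matrix.diag_apply]
  rw [Fintype.sum_prod_type_right, Finset.sum_mul]
  refine Finset.sum_congr rfl fun l _ => ?_
  rw [Finset.sum_mul]
  refine Finset.sum_congr rfl fun k _ => ?_
  ring

private theorem del_conj (X : Mat n) : (Lf X - Rt X)ᴴ = Lf Xᴴ - Rt Xᴴ := by
  rw [Matrix.conjTranspose_sub, Lf_conjTranspose, Rt_conjTranspose]

private theorem form_self {ι : Type*} [Fintype ι] (M : Matrix ι ι ℂ) (b : ι → ℂ) :
    star b ⬝ᵥ ((Mᴴ * M) *ᵥ b) = ((nv (M *ᵥ b) : ℝ) : ℂ) := by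
  rw [← Matrix.mulVec_mulVec, Matrix.dotProduct_mulVec, ← Matrix.star_mulVec]
  simp only [dotProduct, nv, Pi.star_apply]
  push_cast
  refine Finset.sum_congr rfl fun i _ => ?_
  rw [← Complex.conj_mul']
  rfl

private theorem DD_eq (X : Mat n) :
    DD X = (Lf X - Rt X)ᴴ * (Lf X - Rt X) + (Lf Xᴴ - Rt Xᴴ)ᴴ * (Lf Xᴴ - Rt Xᴴ) := by
  rw [del_conj, del_conj, Matrix.conjTranspose_conjTranspose]
  rfl

private theorem hs2_neg' {ι κ : Type*} [Fintype ι] [Fintype κ] (A : Matrix ι κ ℂ) :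
    hs2 (-A) = hs2 A := by
  simp only [hs2, Matrix.neg_apply, norm_neg]

private theorem hs2_conjTranspose' {ι κ : Type*} [Fintype ι] [Fintype κ] (A : Matrix ι κ ℂ) :
    hs2 Aᴴ = hs2 A := by
  simp only [hs2, Matrix.conjTranspose_apply, norm_star]
  exact Finset.sum_comm

private theorem nv_nonneg' {ι : Type*} [Fintype ι] (v : ι → ℂ) : 0 ≤ nv v :=
  Finset.sum_nonneg fun _ _ => by positivity

private theorem Kop_one_mulVec (b : Fin n × Fin n → ℂ) :
    Kop (1 : Mat n) (1 : Mat n) *ᵥ b = (∑ i, b (i, i)) • vc (1 : Mat n) := by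
  funext p
  simp only [Matrix.mulVec, dotProduct, Kop, vc, Matrix.of_apply, Pi.smul_apply, smul_eq_mul]
  rw [Fintype.sum_prod_type, Finset.sum_mul]
  refine Finset.sum_congr rfl fun i _ => ?_
  rw [Finset.sum_eq_single i]
  · rw [Matrix.one_apply_eq]
    ring
  · intro j _ hj
    rw [Matrix.one_apply_ne hj]
    ring
  · intro h
    exact absurd (Finset.mem_univ i) h

private theorem P1_mulVec (b : Fin n × Fin n → ℂ) :
    P1 n *ᵥ b = ((n : ℂ))⁻¹ • (∑ i, b (i, i)) • vc (1 : Mat n) := by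
  rw [P1, Matrix.smul_mulVec, Kop_one_mulVec]

theorem Kop_mulVec_vc (A V B : Mat n) : Kop A V *ᵥ vc B = (V * B).trace • vc A := by
  funext p
  simp only [Matrix.mulVec, dotProduct, Kop, vc, Matrix.of_apply, Pi.smul_apply, smul_eq_mul,
    Matrix.trace, Matrix.diag_apply, Matrix.mul_apply]
  rw [Fintype.sum_prod_type_right, Finset.sum_mul]
  refine Finset.sum_congr rfl fun l _ => ?_
  rw [Finset.sum_mul]
  refine Finset.sum_congr rfl fun k _ => ?_
  ring

theorem Kop_smul_left (c : ℂ) (A V : Mat n) : Kop (c • A) V = c • Kop A V := by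
  ext p q
  simp only [Kop, Matrix.of_apply, Matrix.smul_apply, smul_eq_mul]
  ring

theorem Lf_mul_Kop (U A V : Mat n) : Lf U * Kop A V = Kop (U * A) V := by
  rw [Kop_eq, Kop_eq, Matrix.mul_vecMulVec, Lf_mulVec_vc]

theorem Rt_mul_Kop (U A V : Mat n) : Rt U * Kop A V = Kop (A * U) V := by
  rw [Kop_eq, Kop_eq, Matrix.mul_vecMulVec, Rt_mulVec_vc]

theorem trace_LR_LR (A B A' B' : Mat n) :
    ((Lf A * Rt B)ᴴ * (Lf A' * Rt B')).trace = (Aᴴ * A').trace * (B' * Bᴴ).trace := by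
  rw [Matrix.conjTranspose_mul, Lf_conjTranspose, Rt_conjTranspose]
  have h1 : Rt Bᴴ * Lf Aᴴ * (Lf A' * Rt B') = Lf (Aᴴ * A') * Rt (B' * Bᴴ) := by
    rw [← (Lf_comm_Rt Aᴴ Bᴴ).eq, Lf_mul, Rt_mul]
    have h2 : Rt Bᴴ * Lf A' = Lf A' * Rt Bᴴ := (Lf_comm_Rt A' Bᴴ).eq.symm
    calc Lf Aᴴ * Rt Bᴴ * (Lf A' * Rt B') = Lf Aᴴ * (Rt Bᴴ * Lf A') * Rt B' := by
          simp only [mul_assoc]
      _ = Lf Aᴴ * Lf A' * (Rt Bᴴ * Rt B') := by
          rw [h2]
          simp only [mul_assoc]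
  rw [h1, trace_Lf_mul_Rt]

theorem trace_K_K (A V A' V' : Mat n) :
    ((Kop A V)ᴴ * Kop A' V').trace = (Aᴴ * A').trace * (V' * Vᴴ).trace := by
  rw [Kop_conjTranspose', Kop_mul_Kop', Matrix.trace_smul, trace_Kop', smul_eq_mul]

theorem trace_LR_K (A B A' V : Mat n) :
    ((Lf A * Rt B)ᴴ * Kop A' V).trace = (V * (Aᴴ * A' * Bᴴ)).trace := by
  rw [Matrix.conjTranspose_mul, Lf_conjTranspose, Rt_conjTranspose, mul_assoc, Lf_mul_Kop,
    Rt_mul_Kop, trace_Kop']

/-- pairing of a rank one operator with any operator -/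
theorem trace_K_any (A V : Mat n) (F : Op n) :
    ((Kop A V)ᴴ * F).trace = star (vc A) ⬝ᵥ (F *ᵥ vc Vᴴ) := by
  rw [Kop_conjTranspose', Kop_eq, Matrix.vecMulVec_mul, Matrix.trace_vecMulVec, dotProduct_comm,
    ← Matrix.dotProduct_mulVec]
  have h1 : vc (Aᴴ)ᵀ = star (vc A) := by
    funext p
    rfl
  rw [h1]

theorem hs2_eq_trace {ι : Type*} [Fintype ι] (A : Matrix ι ι ℂ) :
    ((hs2 A : ℝ) : ℂ) = (Aᴴ * A).trace := by
  simp only [hs2, Matrix.trace, Matrix.diag_apply, Matrix.mul_apply, Matrix.conjTranspose_apply]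
  push_cast
  rw [Finset.sum_comm]
  refine Finset.sum_congr rfl fun j _ => Finset.sum_congr rfl fun i _ => ?_
  rw [← Complex.conj_mul']
  rfl

theorem DD_isHermitian (X : Mat n) : (DD X).IsHermitian := by
  rw [DD_eq]
  exact (Matrix.isHermitian_conjTranspose_mul_self _).add
    (Matrix.isHermitian_conjTranspose_mul_self _)

theorem DD_form (X : Mat n) (b : Fin n × Fin n → ℂ) :
    star b ⬝ᵥ (DD X *ᵥ b) =
      ((nv ((Lf X - Rt X) *ᵥ b) + nv ((Lf Xᴴ - Rt Xᴴ) *ᵥ b) : ℝ) : ℂ) := by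
  rw [DD_eq, Matrix.add_mulVec, dotProduct_add, form_self, form_self]
  push_cast
  rfl

theorem DD_form_nonneg (X : Mat n) (b : Fin n × Fin n → ℂ) :
    0 ≤ (star b ⬝ᵥ (DD X *ᵥ b)).re := by
  rw [DD_form, Complex.ofReal_re]
  exact add_nonneg (nv_nonneg' _) (nv_nonneg' _)

theorem DD_mul_P1 (X : Mat n) : DD X * P1 n = 0 := by
  have h1 : ∀ Y : Mat n, (Lf Y - Rt Y) * Kop (1 : Mat n) (1 : Mat n) = 0 := by
    intro Y
    rw [sub_mul, Lf_mul_Kop, Rt_mul_Kop, mul_one, one_mul, sub_self]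
  rw [P1, Matrix.mul_smul, DD, DDg, add_mul, mul_assoc, mul_assoc, h1, h1, mul_zero, mul_zero,
    add_zero, smul_zero]

theorem P1_conjTranspose : (P1 n)ᴴ = P1 n := by
  rw [P1, Matrix.conjTranspose_smul, Kop_conjTranspose', Matrix.conjTranspose_one]
  congr 1
  rw [star_inv₀, star_natCast]

theorem P1_mul_DD (X : Mat n) : P1 n * DD X = 0 := by
  have h1 := congrArg Matrix.conjTranspose (DD_mul_P1 X)
  rw [Matrix.conjTranspose_mul, P1_conjTranspose, (DD_isHermitian X).eq,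
    Matrix.conjTranspose_zero] at h1
  exact h1

theorem P1_mul_P1 : P1 n * P1 n = P1 n := by
  rw [P1, Matrix.smul_mul, Matrix.mul_smul, Kop_mul_Kop', one_mul, Matrix.trace_one, smul_smul,
    smul_smul, Fintype.card_fin]
  congr 1
  rcases eq_or_ne (n : ℂ) 0 with h0 | h0
  · rw [h0]
    simp
  · field_simp

theorem aeval_DD_mul_P1 (X : Mat n) (h : ℝ[X]) :
    aeval (DD X) h * P1 n = ((h.eval 0 : ℝ) : ℂ) • P1 n := by
  have h1 : aeval (DD X) h = aeval (DD X) (divX h) * DD X + algebraMap ℝ (Op n) (h.eval 0) := by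
    conv_lhs => rw [← divX_mul_X_add h]
    rw [map_add, map_mul, aeval_X, aeval_C, coeff_zero_eq_eval_zero]
  rw [h1, add_mul, mul_assoc, DD_mul_P1, mul_zero, zero_add, Algebra.algebraMap_eq_smul_one,
    smul_mul_assoc, one_mul]
  exact (Complex.coe_smul _ _).symm

theorem P1_mul_aeval_DD (X : Mat n) (h : ℝ[X]) :
    P1 n * aeval (DD X) h = ((h.eval 0 : ℝ) : ℂ) • P1 n := by
  have h1 : aeval (DD X) h = DD X * aeval (DD X) (divX h) + algebraMap ℝ (Op n) (h.eval 0) := by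
    conv_lhs => rw [← divX_mul_X_add h, mul_comm (divX h) Polynomial.X]
    rw [map_add, map_mul, aeval_X, aeval_C, coeff_zero_eq_eval_zero]
  rw [h1, mul_add, ← mul_assoc, P1_mul_DD, zero_mul, zero_add, Algebra.algebraMap_eq_smul_one,
    mul_smul_comm, mul_one]
  exact (Complex.coe_smul _ _).symm

theorem FF_eq (h : ℝ[X]) (g : Fin n × Fin n → ℂ) :
    FF h g = aeval (DD (XX g)) h * (1 - P1 n) := by
  rw [FF, mul_sub, mul_one, aeval_DD_mul_P1]

/-- `P1` kills the vectors of trace zero -/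
theorem P1_mulVec_of_trace (b : Fin n × Fin n → ℂ) (hb : ∑ i, b (i, i) = 0) :
    P1 n *ᵥ b = 0 := by
  rw [P1_mulVec, hb, zero_smul, smul_zero]

theorem form_P1 (b : Fin n × Fin n → ℂ) :
    star b ⬝ᵥ (P1 n *ᵥ b) = ((‖∑ i, b (i, i)‖ ^ 2 / n : ℝ) : ℂ) := by
  have h1 : star b ⬝ᵥ vc (1 : Mat n) = star (∑ i, b (i, i)) := by
    simp only [dotProduct, vc, Pi.star_apply]
    rw [Fintype.sum_prod_type, star_sum]
    refine Finset.sum_congr rfl fun i _ => ?_
    rw [Finset.sum_eq_single i]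
    · rw [Matrix.one_apply_eq, mul_one]
    · intro j _ hj
      rw [Matrix.one_apply_ne hj.symm, mul_zero]
    · intro h
      exact absurd (Finset.mem_univ i) h
  rw [P1_mulVec, dotProduct_smul, dotProduct_smul, h1, smul_eq_mul, smul_eq_mul]
  have h2 : (∑ i, b (i, i)) * star (∑ i, b (i, i)) = ((‖∑ i, b (i, i)‖ ^ 2 : ℝ) : ℂ) := by
    push_cast
    exact Complex.mul_conj' _
  rw [h2]
  push_cast
  ring

/-- the vectors of the form `(1 - P1) v` have trace zero -/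
theorem trace_one_sub_P1 (v : Fin n × Fin n → ℂ) : ∑ i, ((1 - P1 n) *ᵥ v) (i, i) = 0 := by
  rw [Matrix.sub_mulVec, Matrix.one_mulVec, P1_mulVec]
  simp only [Pi.sub_apply, Pi.smul_apply, vc, Matrix.one_apply_eq, smul_eq_mul, mul_one]
  rw [Finset.sum_sub_distrib, Finset.sum_const, Finset.card_univ, Fintype.card_fin, nsmul_eq_mul]
  rcases Nat.eq_zero_or_pos n with h0 | h0
  · subst h0
    simp
  · have h1 : (n : ℂ) ≠ 0 := by exact_mod_cast h0.ne'
    rw [← mul_assoc, mul_inv_cancel₀ h1, one_mul, sub_self]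

/-- on a Hermitian matrix the form of `DD` is twice the squared norm of the commutator -/
theorem DD_form_herm (X B : Mat n) (hB : B.IsHermitian) :
    (star (vc B) ⬝ᵥ (DD X *ᵥ vc B)).re = 2 * hs2 (X * B - B * X) := by
  have hd : ∀ Y : Mat n, (Lf Y - Rt Y) *ᵥ vc B = vc (Y * B - B * Y) := by
    intro Y
    rw [Matrix.sub_mulVec, Lf_mulVec_vc, Rt_mulVec_vc]
    rfl
  rw [DD_form, Complex.ofReal_re, hd, hd, nv_vc, nv_vc]
  have h1 : Xᴴ * B - B * Xᴴ = -(X * B - B * X)ᴴ := by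
    rw [Matrix.conjTranspose_sub, Matrix.conjTranspose_mul, Matrix.conjTranspose_mul, hB.eq]
    abel
  rw [h1, hs2_neg', hs2_conjTranspose']
  ring

end Pool.Agent.H55.ML
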