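/-
G1.  Moments of the standard complex Gaussian variable.  Defs only.  About 200 lines.
stdC is the law of (a + i b)/√2 with a, b independent N(0,1).
PROOF of stdC_ibp for monomials (this gives the moments by induction): let x = a/√2, y = b/√2, z = x + i y.
Real Gaussian integration by parts: ∫ a F(a) dγ(a) = ∫ F'(a) dγ(a) for polynomials F (moments of gaussianReal 0 1:
∫ a^(k+1) = k ∫ a^(k-1); from the density exp(-a²/2)/√(2π) by integral_mul_deriv_eq or from known moment
lemmas in Mathlib).  Then for P(z, zbar): E[z P] = (1/√2)(E[a P] + i E[b P]) and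
E[a P] = E[∂_a P] = (1/√2) E[P_z + P_zbar], E[b P] = E[∂_b P] = (i/√2) E[P_z - P_zbar], so
E[z P] = (1/2)(P_z + P_zbar - P_z + P_zbar) = E[P_zbar].
Alternative for the moments: polar coordinates: E z^a zbar^b = 0 for a ≠ b by rotation invariance
(the law of (a,b) is invariant under rotations) and E |z|^(2a) = a! (|z|^2 has the exponential law).
Alternative: expand E exp(2 Re (conj u z)) = exp |u|^2.
-/
import Pool.Agent.H55.ML.Defs

namespace Pool.Agent.H55.ML
open MeasureTheory ProbabilityTheory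
open scoped ComplexConjugate

private noncomputable abbrev gg : Measure ℝ := gaussianReal 0 1

/-- the variable as a function of the two real Gaussian variables -/
private noncomputable def zz (p : ℝ × ℝ) : ℂ := ((p.1 : ℂ) + (p.2 : ℂ) * Complex.I) / (Real.sqrt 2 : ℂ)

private lemma meas_zz : Measurable zz := by
  unfold zz; fun_prop

private lemma stdC_eq : stdC = (gg.prod gg).map zz := rfl

instance stdC_prob : IsProbabilityMeasure stdC := by
  rw [stdC_eq]
  exact Measure.isProbabilityMeasure_map meas_zz.aemeasurable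

private lemma memLp_zz (q : ENNReal) (hq : q ≠ ⊤) : MemLp zz q (gg.prod gg) := by
  have h0 : MemLp (fun x : ℝ => (x : ℂ)) q gg :=
    (memLp_id_gaussianReal' (μ := 0) (v := 1) q hq).ofReal (K := ℂ)
  have h1 : MemLp (fun p : ℝ × ℝ => (p.1 : ℂ)) q (gg.prod gg) := h0.comp_fst gg
  have h2 : MemLp (fun p : ℝ × ℝ => (p.2 : ℂ)) q (gg.prod gg) := h0.comp_snd gg
  have h3 : MemLp (fun p : ℝ × ℝ => ((Real.sqrt 2 : ℂ))⁻¹ * ((p.1 : ℂ) + Complex.I * (p.2 : ℂ))) q
      (gg.prod gg) := (h1.add (h2.const_mul Complex.I)).const_mul _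
  refine h3.congr_norm meas_zz.aestronglyMeasurable (Filter.Eventually.of_forall fun p => ?_)
  unfold zz
  congr 1
  rw [div_eq_inv_mul, mul_comm Complex.I]

private lemma int_zz (a : ℕ) : Integrable (fun p => ‖zz p‖ ^ a) (gg.prod gg) :=
  (memLp_zz a (ENNReal.natCast_ne_top a)).integrable_norm_pow'

/-- all absolute moments are finite -/
theorem stdC_norm_integrable (a : ℕ) : Integrable (fun z : ℂ => ‖z‖ ^ a) stdC := by
  rw [stdC_eq, integrable_map_measure (by fun_prop) meas_zz.aemeasurable]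
  exact int_zz a

theorem stdC_integrable (a b : ℕ) : Integrable (fun z : ℂ => z ^ a * (conj z) ^ b) stdC := by
  refine (stdC_norm_integrable (a + b)).mono' (by fun_prop) (Filter.Eventually.of_forall fun z => ?_)
  rw [norm_mul, norm_pow, norm_pow, Complex.norm_conj, pow_add]

/-- the monomials on the product space -/
private noncomputable def G (a b : ℕ) (p : ℝ × ℝ) : ℂ := zz p ^ a * (conj (zz p)) ^ b

private lemma meas_G (a b : ℕ) : Measurable (G a b) := by
  unfold G
  have := meas_zz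
  exact (this.pow_const a).mul ((Complex.continuous_conj.measurable.comp this).pow_const b)

private lemma norm_G (a b : ℕ) (p : ℝ × ℝ) : ‖G a b p‖ = ‖zz p‖ ^ (a + b) := by
  unfold G
  rw [norm_mul, norm_pow, norm_pow, Complex.norm_conj, pow_add]

private lemma int_G (a b : ℕ) : Integrable (G a b) (gg.prod gg) := by
  refine (int_zz (a + b)).mono' (meas_G a b).aestronglyMeasurable
    (Filter.Eventually.of_forall fun p => ?_)
  rw [norm_G]

private lemma norm_fst (p : ℝ × ℝ) : ‖(p.1 : ℂ)‖ ≤ Real.sqrt 2 * ‖zz p‖ := by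
  have h2 : (0 : ℝ) < Real.sqrt 2 := by positivity
  have h : ‖zz p‖ = ‖(p.1 : ℂ) + (p.2 : ℂ) * Complex.I‖ / Real.sqrt 2 := by
    unfold zz
    rw [norm_div, Complex.norm_real, Real.norm_eq_abs, abs_of_pos h2]
  rw [h, mul_div_cancel₀ _ h2.ne']
  have := Complex.abs_re_le_norm ((p.1 : ℂ) + (p.2 : ℂ) * Complex.I)
  simpa [Complex.norm_real] using this

private lemma norm_snd (p : ℝ × ℝ) : ‖(p.2 : ℂ)‖ ≤ Real.sqrt 2 * ‖zz p‖ := by
  have h2 : (0 : ℝ) < Real.sqrt 2 := by positivity
  have h : ‖zz p‖ = ‖(p.1 : ℂ) + (p.2 : ℂ) * Complex.I‖ / Real.sqrt 2 := by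
    unfold zz
    rw [norm_div, Complex.norm_real, Real.norm_eq_abs, abs_of_pos h2]
  rw [h, mul_div_cancel₀ _ h2.ne']
  have := Complex.abs_im_le_norm ((p.1 : ℂ) + (p.2 : ℂ) * Complex.I)
  simpa [Complex.norm_real] using this

private lemma int_xG (a b : ℕ) : Integrable (fun p : ℝ × ℝ => (p.1 : ℂ) * G a b p) (gg.prod gg) := by
  refine ((int_zz (1 + (a + b))).const_mul (Real.sqrt 2)).mono'
    (Measurable.aestronglyMeasurable (by have := meas_G a b; fun_prop))
    (Filter.Eventually.of_forall fun p => ?_)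
  rw [norm_mul, norm_G, pow_add _ 1, pow_one, ← mul_assoc]
  exact mul_le_mul_of_nonneg_right (norm_fst p) (by positivity)

private lemma int_yG (a b : ℕ) : Integrable (fun p : ℝ × ℝ => (p.2 : ℂ) * G a b p) (gg.prod gg) := by
  refine ((int_zz (1 + (a + b))).const_mul (Real.sqrt 2)).mono'
    (Measurable.aestronglyMeasurable (by have := meas_G a b; fun_prop))
    (Filter.Eventually.of_forall fun p => ?_)
  rw [norm_mul, norm_G, pow_add _ 1, pow_one, ← mul_assoc]
  exact mul_le_mul_of_nonneg_right (norm_snd p) (by positivity)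

private lemma ibp {f f' : ℝ → ℂ} (hd : ∀ x, HasDerivAt f (f' x) x)
    (hf : Integrable f gg) (hf' : Integrable f' gg)
    (hxf : Integrable (fun x : ℝ => (x : ℂ) * f x) gg) :
    ∫ x, (x : ℂ) * f x ∂gg = ∫ x, f' x ∂gg := by
  have key : ∀ g : ℝ → ℂ, Integrable g gg →
      Integrable (fun x => g x * ((gaussianPDFReal 0 1 x : ℝ) : ℂ)) := by
    intro g hg
    have h := hg
    rw [gg, gaussianReal_of_var_ne_zero _ one_ne_zero,
      integrable_withDensity_iff_integrable_smul' (measurable_gaussianPDF _ _)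
        (ae_of_all _ fun _ => gaussianPDF_lt_top)] at h
    refine h.congr (Filter.Eventually.of_forall fun x => ?_)
    simp only [toReal_gaussianPDF, Complex.real_smul]
    ring
  have hv : ∀ x : ℝ, HasDerivAt (fun x : ℝ => ((gaussianPDFReal 0 1 x : ℝ) : ℂ))
      (-(x : ℂ) * ((gaussianPDFReal 0 1 x : ℝ) : ℂ)) x := by
    intro x
    have h1 : HasDerivAt (fun x : ℝ => gaussianPDFReal 0 1 x) (-x * gaussianPDFReal 0 1 x) x := by
      rw [gaussianPDFReal_def]
      have h2 : HasDerivAt (fun x : ℝ => -(x - 0) ^ 2 / (2 * ((1 : NNReal) : ℝ))) (-x) x := by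
        have h3 := (((hasDerivAt_id x).sub_const 0).pow 2).neg.div_const (2 * ((1 : NNReal) : ℝ))
        refine h3.congr_deriv ?_
        simp
        ring
      have h4 := h2.exp.const_mul ((Real.sqrt (2 * Real.pi * ((1 : NNReal) : ℝ)))⁻¹)
      refine h4.congr_deriv ?_
      ring
    have h5 := h1.ofReal_comp
    refine h5.congr_deriv ?_
    push_cast
    ring
  have h := integral_mul_deriv_eq_deriv_mul_of_integrable (u := f) (u' := f')
    (v := fun x : ℝ => ((gaussianPDFReal 0 1 x : ℝ) : ℂ))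
    (v' := fun x : ℝ => (-(x : ℂ) * ((gaussianPDFReal 0 1 x : ℝ) : ℂ)))
    (fun x _ => hd x) (fun x _ => hv x)
    (by
      refine (key _ hxf).neg.congr (Filter.Eventually.of_forall fun x => ?_)
      simp only [Pi.neg_apply, Pi.mul_apply]
      ring)
    (key _ hf') (key _ hf)
  rw [gg, integral_gaussianReal_eq_integral_smul one_ne_zero,
    integral_gaussianReal_eq_integral_smul one_ne_zero]
  have e1 : ∫ x : ℝ, gaussianPDFReal 0 1 x • ((x : ℂ) * f x)
      = - ∫ x : ℝ, f x * (-(x : ℂ) * ((gaussianPDFReal 0 1 x : ℝ) : ℂ)) := by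
    rw [← integral_neg]
    refine integral_congr_ae (Filter.Eventually.of_forall fun x => ?_)
    simp only [Complex.real_smul]
    ring
  have e2 : ∫ x : ℝ, gaussianPDFReal 0 1 x • f' x
      = ∫ x : ℝ, f' x * ((gaussianPDFReal 0 1 x : ℝ) : ℂ) := by
    refine integral_congr_ae (Filter.Eventually.of_forall fun x => ?_)
    simp only [Complex.real_smul]
    ring
  rw [e1, e2, h, neg_neg]

private lemma conj_zz (p : ℝ × ℝ) :
    conj (zz p) = ((p.1 : ℂ) - (p.2 : ℂ) * Complex.I) / (Real.sqrt 2 : ℂ) := by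
  unfold zz
  simp [Complex.conj_ofReal, sub_eq_add_neg]

/-- derivative in the first variable -/
private noncomputable def Gx (a b : ℕ) (p : ℝ × ℝ) : ℂ :=
  ((a : ℂ) * G (a - 1) b p + (b : ℂ) * G a (b - 1) p) / (Real.sqrt 2 : ℂ)

/-- derivative in the second variable -/
private noncomputable def Gy (a b : ℕ) (p : ℝ × ℝ) : ℂ :=
  ((a : ℂ) * G (a - 1) b p - (b : ℂ) * G a (b - 1) p) * (Complex.I / (Real.sqrt 2 : ℂ))

private lemma deriv_x (a b : ℕ) (x y : ℝ) : HasDerivAt (fun x : ℝ => G a b (x, y)) (Gx a b (x, y)) x := by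
  have h0 : HasDerivAt (fun x : ℝ => (x : ℂ)) 1 x := Complex.ofRealCLM.hasDerivAt
  have h1 : HasDerivAt (fun x : ℝ => zz (x, y)) (1 / (Real.sqrt 2 : ℂ)) x := by
    unfold zz
    exact (h0.add_const ((y : ℂ) * Complex.I)).div_const (Real.sqrt 2 : ℂ)
  have h2 : HasDerivAt (fun x : ℝ => conj (zz (x, y))) (1 / (Real.sqrt 2 : ℂ)) x := by
    simp only [conj_zz]
    exact (h0.sub_const _).div_const _
  have h3 := (h1.pow a).mul (h2.pow b)
  refine h3.congr_deriv ?_
  unfold Gx G
  simp only [Pi.pow_apply]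
  ring

private lemma deriv_y (a b : ℕ) (x y : ℝ) : HasDerivAt (fun y : ℝ => G a b (x, y)) (Gy a b (x, y)) y := by
  have h0 : HasDerivAt (fun y : ℝ => (y : ℂ)) 1 y := Complex.ofRealCLM.hasDerivAt
  have h1 : HasDerivAt (fun y : ℝ => zz (x, y)) (Complex.I / (Real.sqrt 2 : ℂ)) y := by
    unfold zz
    simpa using ((h0.mul_const Complex.I).const_add (x : ℂ)).div_const (Real.sqrt 2 : ℂ)
  have h2 : HasDerivAt (fun y : ℝ => conj (zz (x, y))) (-(Complex.I / (Real.sqrt 2 : ℂ))) y := by
    simp only [conj_zz]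
    simpa [neg_div] using ((h0.mul_const Complex.I).const_sub (x : ℂ)).div_const (Real.sqrt 2 : ℂ)
  have h3 := (h1.pow a).mul (h2.pow b)
  refine h3.congr_deriv ?_
  unfold Gy G
  simp only [Pi.pow_apply]
  ring

private lemma int_Gx (a b : ℕ) : Integrable (Gx a b) (gg.prod gg) :=
  (((int_G _ _).const_mul _).add ((int_G _ _).const_mul _)).div_const _

private lemma int_Gy (a b : ℕ) : Integrable (Gy a b) (gg.prod gg) :=
  (((int_G _ _).const_mul _).sub ((int_G _ _).const_mul _)).mul_const _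

private lemma ex (a b : ℕ) :
    ∫ p : ℝ × ℝ, (p.1 : ℂ) * G a b p ∂(gg.prod gg) = ∫ p, Gx a b p ∂(gg.prod gg) := by
  rw [integral_prod_symm _ (int_xG a b), integral_prod_symm _ (int_Gx a b)]
  refine integral_congr_ae ?_
  filter_upwards [(int_G a b).prod_left_ae, (int_Gx a b).prod_left_ae, (int_xG a b).prod_left_ae]
    with y h1 h2 h3
  exact ibp (fun x => deriv_x a b x y) h1 h2 h3

private lemma ey (a b : ℕ) :
    ∫ p : ℝ × ℝ, (p.2 : ℂ) * G a b p ∂(gg.prod gg) = ∫ p, Gy a b p ∂(gg.prod gg) := by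
  rw [integral_prod _ (int_yG a b), integral_prod _ (int_Gy a b)]
  refine integral_congr_ae ?_
  filter_upwards [(int_G a b).prod_right_ae, (int_Gy a b).prod_right_ae, (int_yG a b).prod_right_ae]
    with x h1 h2 h3
  exact ibp (fun y => deriv_y a b x y) h1 h2 h3

private lemma step (a b : ℕ) :
    ∫ p, G (a + 1) b p ∂(gg.prod gg) = (b : ℂ) * ∫ p, G a (b - 1) p ∂(gg.prod gg) := by
  have hs : (Real.sqrt 2 : ℂ) * (Real.sqrt 2 : ℂ) = 2 := by
    rw [← Complex.ofReal_mul, Real.mul_self_sqrt (by norm_num)]; norm_num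
  have hs0 : (Real.sqrt 2 : ℂ) ≠ 0 := by
    intro h; rw [h] at hs; norm_num at hs
  have e0 : ∀ p : ℝ × ℝ, G (a + 1) b p
      = ((p.1 : ℂ) * G a b p + Complex.I * ((p.2 : ℂ) * G a b p)) / (Real.sqrt 2 : ℂ) := by
    intro p
    have : G (a + 1) b p = zz p * G a b p := by unfold G; ring
    rw [this]
    unfold zz
    ring
  simp only [e0]
  rw [integral_div, integral_add (int_xG a b) ((int_yG a b).const_mul _), integral_const_mul,
    ex, ey]
  unfold Gx Gy
  rw [integral_div, integral_mul_const,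
    integral_add ((int_G _ _).const_mul _) ((int_G _ _).const_mul _),
    integral_sub ((int_G _ _).const_mul _) ((int_G _ _).const_mul _)]
  simp only [integral_const_mul]
  field_simp
  rw [pow_two (Real.sqrt 2 : ℂ), hs, Complex.I_sq]
  ring

private lemma conj_G (a b : ℕ) (p : ℝ × ℝ) : G a b p = conj (G b a p) := by
  unfold G
  simp [mul_comm]

private lemma moment : ∀ a b : ℕ,
    ∫ p, G a b p ∂(gg.prod gg) = if a = b then (a.factorial : ℂ) else 0
  | 0, 0 => by simp [G]
  | 0, b + 1 => by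
    have h : ∫ p, G 0 (b + 1) p ∂(gg.prod gg) = conj (∫ p, G (b + 1) 0 p ∂(gg.prod gg)) := by
      rw [← integral_conj]
      exact integral_congr_ae (Filter.Eventually.of_forall fun p => conj_G 0 (b + 1) p)
    rw [h, step b 0]
    simp
  | a + 1, 0 => by
    rw [step a 0]
    simp
  | a + 1, b + 1 => by
    rw [step a (b + 1), Nat.add_sub_cancel, moment a b]
    by_cases h : a = b
    · subst h
      simp [Nat.factorial_succ]
    · simp [h]

theorem stdC_moment (a b : ℕ) :
    ∫ z, z ^ a * (conj z) ^ b ∂stdC = if a = b then (a.factorial : ℂ) else 0 := by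
  rw [stdC_eq, integral_map meas_zz.aemeasurable (by fun_prop)]
  exact moment a b

end Pool.Agent.H55.ML
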