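/-
TPc (InProb).  A small calculus of convergence in probability along gin n.  Defs + G1 (gin n is a probability
measure).  About 200 lines.
All statements are elementary with outer measures of sets {g | ε <= ‖f n g - c‖} (no measurability needed except in
TP_of_L2): add: {ε <= ‖f+g-c-d‖} ⊆ {ε/2 <= ‖f-c‖} ∪ {ε/2 <= ‖g-d‖}; mul: fg - cd = (f-c)(g-d) + c(g-d) + d(f-c).
TP_of_L2: Markov (mul_meas_ge_le_lintegral or measure_ge_le / meas_ge_le_mul_pow_eLpNorm).
TP_of_le: bound valid off an exceptional set of vanishing probability.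
-/
import Pool.Agent.H55.ML.G1

namespace Pool.Agent.H55.ML
open MeasureTheory ProbabilityTheory Filter Topology

instance gin_prob (n : ℕ) : IsProbabilityMeasure (gin n) := by
  unfold gin; infer_instance

/-- convergence in probability to a constant, along the laws `gin n` -/
def TP (f : ∀ n : ℕ, (Fin n × Fin n → ℂ) → ℂ) (c : ℂ) : Prop :=
  ∀ ε : ℝ, 0 < ε → Tendsto (fun n => gin n {g | ε ≤ ‖f n g - c‖}) atTop (𝓝 0)

/-- events of vanishing (outer) probability -/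
def EvZ (A : ∀ n : ℕ, Set (Fin n × Fin n → ℂ)) : Prop :=
  Tendsto (fun n => gin n (A n)) atTop (𝓝 0)

theorem EvZ.mono {A B : ∀ n : ℕ, Set (Fin n × Fin n → ℂ)} (hB : EvZ B)
    (h : ∀ᶠ n in atTop, A n ⊆ B n) : EvZ A := by
  refine tendsto_of_tendsto_of_tendsto_of_le_of_le' tendsto_const_nhds hB
    (Eventually.of_forall fun n => zero_le) ?_
  filter_upwards [h] with n hn
  exact measure_mono hn

theorem EvZ.union {A B : ∀ n : ℕ, Set (Fin n × Fin n → ℂ)} (hA : EvZ A) (hB : EvZ B) :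
    EvZ (fun n => A n ∪ B n) := by
  have h0 : Tendsto (fun n => gin n (A n) + gin n (B n)) atTop (𝓝 (0 + 0)) :=
    Tendsto.add hA hB
  rw [add_zero] at h0
  refine tendsto_of_tendsto_of_tendsto_of_le_of_le tendsto_const_nhds h0
    (fun n => zero_le) (fun n => ?_)
  exact measure_union_le _ _

theorem TP.const (c : ℂ) : TP (fun _ _ => c) c := by
  intro ε hε
  have h0 : ∀ n : ℕ, gin n {g : Fin n × Fin n → ℂ | ε ≤ ‖c - c‖} = 0 := by
    intro n
    have h1 : {g : Fin n × Fin n → ℂ | ε ≤ ‖c - c‖} = ∅ := by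
      ext g
      simp [hε]
    rw [h1, measure_empty]
  simp only [h0]
  exact tendsto_const_nhds

theorem TP.add {f g : ∀ n : ℕ, (Fin n × Fin n → ℂ) → ℂ} {c d : ℂ} (hf : TP f c) (hg : TP g d) :
    TP (fun n x => f n x + g n x) (c + d) := by
  intro ε hε
  have h1 : EvZ (fun n => {x | ε / 2 ≤ ‖f n x - c‖} ∪ {x | ε / 2 ≤ ‖g n x - d‖}) :=
    EvZ.union (hf (ε / 2) (half_pos hε)) (hg (ε / 2) (half_pos hε))
  refine EvZ.mono h1 (Eventually.of_forall fun n x hx => ?_)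
  simp only [Set.mem_ofPred_eq] at hx
  by_contra hc
  simp only [Set.mem_union, Set.mem_ofPred_eq, not_or, not_le] at hc
  have h2 : ‖f n x + g n x - (c + d)‖ ≤ ‖f n x - c‖ + ‖g n x - d‖ := by
    rw [show f n x + g n x - (c + d) = (f n x - c) + (g n x - d) by ring]
    exact norm_add_le _ _
  linarith [hc.1, hc.2]

private theorem inProb_mul0 {f g : ∀ n : ℕ, (Fin n × Fin n → ℂ) → ℂ} (hf : TP f 0)
    (hg : TP g 0) : TP (fun n x => f n x * g n x) 0 := by
  intro ε hε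
  have h1 : EvZ (fun n => {x | ε ≤ ‖f n x - 0‖} ∪ {x | 1 ≤ ‖g n x - 0‖}) :=
    EvZ.union (hf ε hε) (hg 1 one_pos)
  refine EvZ.mono h1 (Eventually.of_forall fun n x hx => ?_)
  simp only [Set.mem_ofPred_eq] at hx
  by_contra hc
  simp only [Set.mem_union, Set.mem_ofPred_eq, not_or, not_le, sub_zero] at hc
  rw [sub_zero, norm_mul] at hx
  have h2 : ‖f n x‖ * ‖g n x‖ ≤ ‖f n x‖ * 1 :=
    mul_le_mul_of_nonneg_left hc.2.le (norm_nonneg _)
  linarith [hc.1, hc.2]

private theorem inProb_cmul {f : ∀ n : ℕ, (Fin n × Fin n → ℂ) → ℂ} {c : ℂ} (a : ℂ)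
    (hf : TP f c) : TP (fun n x => a * f n x) (a * c) := by
  intro ε hε
  have ha : 0 < ‖a‖ + 1 := by positivity
  have h1 := hf (ε / (‖a‖ + 1)) (div_pos hε ha)
  refine EvZ.mono h1 (Eventually.of_forall fun n x hx => ?_)
  simp only [Set.mem_ofPred_eq] at hx ⊢
  rw [← mul_sub, norm_mul] at hx
  rw [div_le_iff₀ ha]
  nlinarith [norm_nonneg (f n x - c)]

theorem TP.sub {f g : ∀ n : ℕ, (Fin n × Fin n → ℂ) → ℂ} {c d : ℂ} (hf : TP f c) (hg : TP g d) :
    TP (fun n x => f n x - g n x) (c - d) := by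
  have h1 := TP.add hf (inProb_cmul (-1) hg)
  have h2 : c + -1 * d = c - d := by ring
  rw [h2] at h1
  have h3 : (fun (n : ℕ) (x : Fin n × Fin n → ℂ) => f n x + -1 * g n x) =
      fun n x => f n x - g n x := by
    funext n x
    ring
  rw [h3] at h1
  exact h1

theorem TP.mul {f g : ∀ n : ℕ, (Fin n × Fin n → ℂ) → ℂ} {c d : ℂ} (hf : TP f c) (hg : TP g d) :
    TP (fun n x => f n x * g n x) (c * d) := by
  have hf0 : TP (fun n x => f n x - c) 0 := by
    have := TP.sub hf (TP.const c)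
    rwa [sub_self] at this
  have hg0 : TP (fun n x => g n x - d) 0 := by
    have := TP.sub hg (TP.const d)
    rwa [sub_self] at this
  have h1 := TP.add (TP.add (TP.add (inProb_mul0 hf0 hg0) (inProb_cmul c hg0))
    (inProb_cmul d hf0)) (TP.const (c * d))
  have h2 : (0 : ℂ) + c * 0 + d * 0 + c * d = c * d := by ring
  rw [h2] at h1
  have h3 : (fun (n : ℕ) (x : Fin n × Fin n → ℂ) =>
      (f n x - c) * (g n x - d) + c * (g n x - d) + d * (f n x - c) + c * d) =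
      fun n x => f n x * g n x := by
    funext n x
    ring
  rw [h3] at h1
  exact h1

theorem TP.const_mul {f : ∀ n : ℕ, (Fin n × Fin n → ℂ) → ℂ} {c : ℂ} (a : ℂ) (hf : TP f c) :
    TP (fun n x => a * f n x) (a * c) := inProb_cmul a hf

theorem TP.sum {α : Type*} (s : Finset α) {f : α → ∀ n : ℕ, (Fin n × Fin n → ℂ) → ℂ} {c : α → ℂ}
    (hf : ∀ a ∈ s, TP (f a) (c a)) : TP (fun n x => ∑ a ∈ s, f a n x) (∑ a ∈ s, c a) := by
  classical
  induction s using Finset.induction_on with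
  | empty =>
    simp only [Finset.sum_empty]
    exact TP.const 0
  | insert a s ha ih =>
    simp only [Finset.sum_insert ha]
    exact TP.add (hf a (Finset.mem_insert_self a s))
      (ih fun b hb => hf b (Finset.mem_insert_of_mem hb))

theorem TP.conj {f : ∀ n : ℕ, (Fin n × Fin n → ℂ) → ℂ} {c : ℂ} (hf : TP f c) :
    TP (fun n x => (starRingEnd ℂ) (f n x)) ((starRingEnd ℂ) c) := by
  intro ε hε
  refine EvZ.mono (hf ε hε) (Eventually.of_forall fun n x hx => ?_)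
  simp only [Set.mem_ofPred_eq] at hx ⊢
  rwa [← map_sub, RCLike.norm_conj] at hx

/-- deterministic null sequences -/
theorem TP.of_tendsto (a : ℕ → ℂ) (c : ℂ) (h : Tendsto a atTop (𝓝 c)) :
    TP (fun n _ => a n) c := by
  intro ε hε
  refine EvZ.mono (A := fun n => {g : Fin n × Fin n → ℂ | ε ≤ ‖a n - c‖}) (B := fun _ => ∅) ?_ ?_
  · unfold EvZ
    simp only [measure_empty]
    exact tendsto_const_nhds
  · have h1 : ∀ᶠ n in atTop, dist (a n) c < ε := (Metric.tendsto_nhds.1 h) ε hε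
    filter_upwards [h1] with n hn
    intro g hg
    simp only [Set.mem_ofPred_eq] at hg
    rw [dist_eq_norm] at hn
    exact absurd hg (not_le.2 hn)

theorem TP.congr {f g : ∀ n : ℕ, (Fin n × Fin n → ℂ) → ℂ} {c : ℂ} (hf : TP f c)
    (h : ∀ n, 1 ≤ n → ∀ x, g n x = f n x) : TP g c := by
  intro ε hε
  refine EvZ.mono (hf ε hε) ?_
  filter_upwards [eventually_ge_atTop 1] with n hn
  intro x hx
  simp only [Set.mem_ofPred_eq] at hx ⊢
  rwa [h n hn x] at hx

/-- squeeze, off an exceptional event of vanishing probability -/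
theorem TP_of_le {f h : ∀ n : ℕ, (Fin n × Fin n → ℂ) → ℂ} {c : ℂ} (hh : TP h 0)
    (B : ∀ n : ℕ, Set (Fin n × Fin n → ℂ)) (hB : EvZ B)
    (hle : ∀ᶠ n in atTop, ∀ x, x ∉ B n → ‖f n x - c‖ ≤ ‖h n x‖) : TP f c := by
  intro ε hε
  refine EvZ.mono (EvZ.union (hh ε hε) hB) ?_
  filter_upwards [hle] with n hn
  intro x hx
  simp only [Set.mem_ofPred_eq] at hx
  by_cases hxB : x ∈ B n
  · exact Or.inr hxB
  · refine Or.inl ?_
    simp only [Set.mem_ofPred_eq, sub_zero]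
    exact hx.trans (hn x hxB)

theorem TP_of_L2 {f : ∀ n : ℕ, (Fin n × Fin n → ℂ) → ℂ} {c : ℂ} {e : ℕ → ℝ}
    (he : Tendsto e atTop (𝓝 0))
    (hint : ∀ᶠ n in atTop, Integrable (fun g => ‖f n g - c‖ ^ 2) (gin n) ∧
      ∫ g, ‖f n g - c‖ ^ 2 ∂(gin n) ≤ e n) : TP f c := by
  intro ε hε
  have h1 : Tendsto (fun n => ENNReal.ofReal (e n / ε ^ 2)) atTop (𝓝 0) := by
    have h2 : Tendsto (fun n => e n / ε ^ 2) atTop (𝓝 (0 / ε ^ 2)) := he.div_const _
    rw [zero_div] at h2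
    have h3 := (ENNReal.continuous_ofReal.tendsto 0).comp h2
    rwa [ENNReal.ofReal_zero] at h3
  refine tendsto_of_tendsto_of_tendsto_of_le_of_le' tendsto_const_nhds h1
    (Eventually.of_forall fun n => zero_le) ?_
  filter_upwards [hint] with n hn
  have h4 := mul_meas_ge_le_integral_of_nonneg (μ := gin n) (f := fun g => ‖f n g - c‖ ^ 2)
    (Eventually.of_forall fun g => by positivity) hn.1 (ε ^ 2)
  have h5 : {g | ε ≤ ‖f n g - c‖} ⊆ {g | ε ^ 2 ≤ ‖f n g - c‖ ^ 2} := by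
    intro g hg
    simp only [Set.mem_ofPred_eq] at hg ⊢
    exact pow_le_pow_left₀ hε.le hg 2
  refine (measure_mono h5).trans ?_
  rw [← ENNReal.ofReal_toReal (measure_ne_top (gin n) {g | ε ^ 2 ≤ ‖f n g - c‖ ^ 2})]
  refine ENNReal.ofReal_le_ofReal ?_
  rw [le_div_iff₀ (by positivity)]
  have h6 : ε ^ 2 * (gin n {g | ε ^ 2 ≤ ‖f n g - c‖ ^ 2}).toReal ≤ e n := h4.trans hn.2
  linarith

theorem TP_iff_EvZ {f : ∀ n : ℕ, (Fin n × Fin n → ℂ) → ℂ} {c : ℂ} :
    TP f c ↔ ∀ ε : ℝ, 0 < ε → EvZ (fun n => {g | ε ≤ ‖f n g - c‖}) := Iff.rfl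

end Pool.Agent.H55.ML
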