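/-
G2.  Gaussian integration by parts for polynomials in finitely many independent standard complex Gaussian
variables and their conjugates.  Needs G1.  About 200 lines.
PROOF.  By linearity (MvPolynomial.induction_on / monomials: p = sum of monomials) it is enough to take
p = monomial s 1, evP p g = prod_i g_i^(s (inl i)) conj(g_i)^(s (inr i)); integral of a product over the product
measure is the product of the integrals (MeasureTheory.integral_fintype_prod_eq_prod), each factor
stdC_moment.  For g_i * monomial: the i-th factor becomes E[z^(a+1) zbar^b] = (a+1)! [a+1 = b] = b * E[z^a zbar^(b-1)],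
and pderiv (inr i) (monomial s 1) = monomial (s - single (inr i) 1) (s (inr i)) (MvPolynomial.pderiv_monomial).
-/
import Pool.Agent.H55.ML.G1

namespace Pool.Agent.H55.ML
open MeasureTheory ProbabilityTheory
open scoped ComplexConjugate

variable {ι : Type} [Fintype ι] [DecidableEq ι]

/-- the value of a polynomial in `g_i` (`inl`) and `conj g_i` (`inr`) -/
noncomputable def evP (p : MvPolynomial (ι ⊕ ι) ℂ) (g : ι → ℂ) : ℂ :=
  MvPolynomial.eval (Sum.elim g (fun i => conj (g i))) p

/-- the moments of one variable -/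
private noncomputable def gM (a b : ℕ) : ℂ := if a = b then (a.factorial : ℂ) else 0

private lemma gM_left (a b : ℕ) : gM (a + 1) b = b * gM a (b - 1) := by
  unfold gM
  rcases b with _ | b
  · simp
  · by_cases h : a = b
    · subst h
      rw [if_pos rfl, Nat.add_sub_cancel, if_pos rfl, Nat.factorial_succ]
      push_cast
      ring
    · rw [if_neg (by omega), Nat.add_sub_cancel, if_neg h, mul_zero]

private lemma gM_right (a b : ℕ) : gM a (b + 1) = a * gM (a - 1) b := by
  unfold gM
  rcases a with _ | a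
  · simp
  · by_cases h : a = b
    · subst h
      rw [if_pos rfl, Nat.add_sub_cancel, if_pos rfl, Nat.factorial_succ]
      push_cast
      ring
    · rw [if_neg (by omega), Nat.add_sub_cancel, if_neg h, mul_zero]

omit [DecidableEq ι] in
private lemma evP_mono (s : ι ⊕ ι →₀ ℕ) (c : ℂ) (g : ι → ℂ) :
    evP (MvPolynomial.monomial s c) g =
      c * ∏ i, (g i ^ s (Sum.inl i) * (conj (g i)) ^ s (Sum.inr i)) := by
  unfold evP
  rw [MvPolynomial.eval_monomial, Finsupp.prod_fintype _ _ (fun i => pow_zero _),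
    Fintype.prod_sum_type, Finset.prod_mul_distrib]
  rfl

omit [Fintype ι] [DecidableEq ι] in
private lemma evP_add (p q : MvPolynomial (ι ⊕ ι) ℂ) (g : ι → ℂ) :
    evP (p + q) g = evP p g + evP q g := by
  unfold evP
  rw [map_add]

omit [Fintype ι] [DecidableEq ι] in
private lemma evP_mul (p q : MvPolynomial (ι ⊕ ι) ℂ) (g : ι → ℂ) :
    evP (p * q) g = evP p g * evP q g := by
  unfold evP
  rw [map_mul]

omit [Fintype ι] [DecidableEq ι] in
private lemma evP_inl (i : ι) (g : ι → ℂ) :
    evP (MvPolynomial.X (Sum.inl i) : MvPolynomial (ι ⊕ ι) ℂ) g = g i := by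
  unfold evP
  rw [MvPolynomial.eval_X]
  rfl

omit [Fintype ι] [DecidableEq ι] in
private lemma evP_inr (i : ι) (g : ι → ℂ) :
    evP (MvPolynomial.X (Sum.inr i) : MvPolynomial (ι ⊕ ι) ℂ) g = conj (g i) := by
  unfold evP
  rw [MvPolynomial.eval_X]
  rfl

omit [DecidableEq ι] in
private lemma evP_mono_int (s : ι ⊕ ι →₀ ℕ) (c : ℂ) :
    Integrable (evP (MvPolynomial.monomial s c)) (Measure.pi (fun _ : ι => stdC)) := by
  have h : evP (MvPolynomial.monomial s c) = fun g : ι → ℂ =>
      c * ∏ i, (g i ^ s (Sum.inl i) * (conj (g i)) ^ s (Sum.inr i)) :=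
    funext fun g => evP_mono s c g
  rw [h]
  exact (Integrable.fintype_prod (f := fun (i : ι) (z : ℂ) =>
    z ^ s (Sum.inl i) * (conj z) ^ s (Sum.inr i)) fun i => stdC_integrable _ _).const_mul c

omit [DecidableEq ι] in
private lemma evP_mono_integral (s : ι ⊕ ι →₀ ℕ) (c : ℂ) :
    ∫ g, evP (MvPolynomial.monomial s c) g ∂(Measure.pi (fun _ : ι => stdC)) =
      c * ∏ i, gM (s (Sum.inl i)) (s (Sum.inr i)) := by
  simp_rw [evP_mono]
  rw [integral_const_mul]
  congr 1
  rw [integral_fintype_prod_eq_prod (fun (i : ι) (z : ℂ) =>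
    z ^ s (Sum.inl i) * (conj z) ^ s (Sum.inr i))]
  refine Finset.prod_congr rfl fun i _ => ?_
  rw [stdC_moment]
  rfl

theorem evP_integrable (p : MvPolynomial (ι ⊕ ι) ℂ) :
    Integrable (evP p) (Measure.pi (fun _ : ι => stdC)) := by
  induction p using MvPolynomial.induction_on' with
  | monomial s c => exact evP_mono_int s c
  | add p q hp hq =>
    have h : evP (p + q) = fun g : ι → ℂ => evP p g + evP q g := funext fun g => evP_add p q g
    rw [h]
    exact hp.add hq

theorem ibp (p : MvPolynomial (ι ⊕ ι) ℂ) (i : ι) :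
    ∫ g, g i * evP p g ∂(Measure.pi (fun _ : ι => stdC))
      = ∫ g, evP (MvPolynomial.pderiv (Sum.inr i) p) g ∂(Measure.pi (fun _ : ι => stdC)) := by
  have h0 : ∀ (p : MvPolynomial (ι ⊕ ι) ℂ) (g : ι → ℂ),
      g i * evP p g = evP (MvPolynomial.X (Sum.inl i) * p) g := fun p g => by
    rw [evP_mul, evP_inl]
  simp_rw [h0]
  induction p using MvPolynomial.induction_on' with
  | monomial s c =>
    rw [MvPolynomial.pderiv_monomial, MvPolynomial.X, MvPolynomial.monomial_mul, one_mul,
      evP_mono_integral, evP_mono_integral, mul_assoc c]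
    congr 1
    rw [← Finset.mul_prod_erase Finset.univ _ (Finset.mem_univ i),
      ← Finset.mul_prod_erase Finset.univ _ (Finset.mem_univ i), ← mul_assoc]
    congr 1
    · have e1 : (Finsupp.single (Sum.inl i) 1 + s : ι ⊕ ι →₀ ℕ) (Sum.inl i) = s (Sum.inl i) + 1 := by
        rw [Finsupp.add_apply, Finsupp.single_eq_same, add_comm]
      have e2 : (Finsupp.single (Sum.inl i) 1 + s : ι ⊕ ι →₀ ℕ) (Sum.inr i) = s (Sum.inr i) := by
        rw [Finsupp.add_apply, Finsupp.single_eq_of_ne (by simp), zero_add]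
      have e3 : (s - Finsupp.single (Sum.inr i) 1 : ι ⊕ ι →₀ ℕ) (Sum.inl i) = s (Sum.inl i) := by
        rw [Finsupp.tsub_apply, Finsupp.single_eq_of_ne (by simp), Nat.sub_zero]
      have e4 : (s - Finsupp.single (Sum.inr i) 1 : ι ⊕ ι →₀ ℕ) (Sum.inr i) = s (Sum.inr i) - 1 := by
        rw [Finsupp.tsub_apply, Finsupp.single_eq_same]
      rw [e1, e2, e3, e4]
      exact gM_left _ _
    · refine Finset.prod_congr rfl fun j hj => ?_
      have hji : j ≠ i := (Finset.mem_erase.1 hj).1
      have e1 : (Finsupp.single (Sum.inl i) 1 + s : ι ⊕ ι →₀ ℕ) (Sum.inl j) = s (Sum.inl j) := by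
        rw [Finsupp.add_apply, Finsupp.single_eq_of_ne (by simpa using hji), zero_add]
      have e2 : (Finsupp.single (Sum.inl i) 1 + s : ι ⊕ ι →₀ ℕ) (Sum.inr j) = s (Sum.inr j) := by
        rw [Finsupp.add_apply, Finsupp.single_eq_of_ne (by simp), zero_add]
      have e3 : (s - Finsupp.single (Sum.inr i) 1 : ι ⊕ ι →₀ ℕ) (Sum.inl j) = s (Sum.inl j) := by
        rw [Finsupp.tsub_apply, Finsupp.single_eq_of_ne (by simp), Nat.sub_zero]
      have e4 : (s - Finsupp.single (Sum.inr i) 1 : ι ⊕ ι →₀ ℕ) (Sum.inr j) = s (Sum.inr j) := by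
        rw [Finsupp.tsub_apply, Finsupp.single_eq_of_ne (by simpa using hji), Nat.sub_zero]
      rw [e1, e2, e3, e4]
  | add p q hp hq =>
    have e1 : ∀ g : ι → ℂ, evP (MvPolynomial.X (Sum.inl i) * (p + q)) g =
        evP (MvPolynomial.X (Sum.inl i) * p) g + evP (MvPolynomial.X (Sum.inl i) * q) g :=
      fun g => by rw [mul_add, evP_add]
    simp_rw [e1]
    rw [map_add]
    simp_rw [evP_add]
    rw [integral_add (evP_integrable _) (evP_integrable _),
      integral_add (evP_integrable _) (evP_integrable _), hp, hq]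

theorem ibp' (p : MvPolynomial (ι ⊕ ι) ℂ) (i : ι) :
    ∫ g, conj (g i) * evP p g ∂(Measure.pi (fun _ : ι => stdC))
      = ∫ g, evP (MvPolynomial.pderiv (Sum.inl i) p) g ∂(Measure.pi (fun _ : ι => stdC)) := by
  have h0 : ∀ (p : MvPolynomial (ι ⊕ ι) ℂ) (g : ι → ℂ),
      conj (g i) * evP p g = evP (MvPolynomial.X (Sum.inr i) * p) g := fun p g => by
    rw [evP_mul, evP_inr]
  simp_rw [h0]
  induction p using MvPolynomial.induction_on' with
  | monomial s c =>
    rw [MvPolynomial.pderiv_monomial, MvPolynomial.X, MvPolynomial.monomial_mul, one_mul,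
      evP_mono_integral, evP_mono_integral, mul_assoc c]
    congr 1
    rw [← Finset.mul_prod_erase Finset.univ _ (Finset.mem_univ i),
      ← Finset.mul_prod_erase Finset.univ _ (Finset.mem_univ i), ← mul_assoc]
    congr 1
    · have e1 : (Finsupp.single (Sum.inr i) 1 + s : ι ⊕ ι →₀ ℕ) (Sum.inl i) = s (Sum.inl i) := by
        rw [Finsupp.add_apply, Finsupp.single_eq_of_ne (by simp), zero_add]
      have e2 : (Finsupp.single (Sum.inr i) 1 + s : ι ⊕ ι →₀ ℕ) (Sum.inr i) = s (Sum.inr i) + 1 := by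
        rw [Finsupp.add_apply, Finsupp.single_eq_same, add_comm]
      have e3 : (s - Finsupp.single (Sum.inl i) 1 : ι ⊕ ι →₀ ℕ) (Sum.inl i) = s (Sum.inl i) - 1 := by
        rw [Finsupp.tsub_apply, Finsupp.single_eq_same]
      have e4 : (s - Finsupp.single (Sum.inl i) 1 : ι ⊕ ι →₀ ℕ) (Sum.inr i) = s (Sum.inr i) := by
        rw [Finsupp.tsub_apply, Finsupp.single_eq_of_ne (by simp), Nat.sub_zero]
      rw [e1, e2, e3, e4]
      exact gM_right _ _
    · refine Finset.prod_congr rfl fun j hj => ?_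
      have hji : j ≠ i := (Finset.mem_erase.1 hj).1
      have e1 : (Finsupp.single (Sum.inr i) 1 + s : ι ⊕ ι →₀ ℕ) (Sum.inl j) = s (Sum.inl j) := by
        rw [Finsupp.add_apply, Finsupp.single_eq_of_ne (by simp), zero_add]
      have e2 : (Finsupp.single (Sum.inr i) 1 + s : ι ⊕ ι →₀ ℕ) (Sum.inr j) = s (Sum.inr j) := by
        rw [Finsupp.add_apply, Finsupp.single_eq_of_ne (by simpa using hji), zero_add]
      have e3 : (s - Finsupp.single (Sum.inl i) 1 : ι ⊕ ι →₀ ℕ) (Sum.inl j) = s (Sum.inl j) := by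
        rw [Finsupp.tsub_apply, Finsupp.single_eq_of_ne (by simpa using hji), Nat.sub_zero]
      have e4 : (s - Finsupp.single (Sum.inl i) 1 : ι ⊕ ι →₀ ℕ) (Sum.inr j) = s (Sum.inr j) := by
        rw [Finsupp.tsub_apply, Finsupp.single_eq_of_ne (by simp), Nat.sub_zero]
      rw [e1, e2, e3, e4]
  | add p q hp hq =>
    have e1 : ∀ g : ι → ℂ, evP (MvPolynomial.X (Sum.inr i) * (p + q)) g =
        evP (MvPolynomial.X (Sum.inr i) * p) g + evP (MvPolynomial.X (Sum.inr i) * q) g :=
      fun g => by rw [mul_add, evP_add]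
    simp_rw [e1]
    rw [map_add]
    simp_rw [evP_add]
    rw [integral_add (evP_integrable _) (evP_integrable _),
      integral_add (evP_integrable _) (evP_integrable _), hp, hq]

end Pool.Agent.H55.ML
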