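/-
G3.  Loop equation for one Ginibre matrix and arbitrary constant matrices.  Needs G2.  About 250 lines.
Letters: inl b is the random matrix XX g (b = true) or its adjoint (b = false), inr k the constant matrix M k.
PROOF.  Work in the polynomial ring R = MvPolynomial (ι ⊕ ι) ℂ, ι = Fin n × Fin n: generic matrices
Xp = (C (1/√n) X (inl (i,j)))_{ij}, Xq = (C (1/√n) X (inr (j,i)))_{ij}, constants (C (M k i j)); words and traces in
Matrix (Fin n) (Fin n) R; evaluation at g gives the complex words (evP is a ring hom applied entrywise: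
RingHom.mapMatrix, map_list_prod).
(1) derivative of a word: pderiv (inr (i,j)) of (word)_{kl} = sum over positions p with w[p] = inl false of
 (1/√n) (w.take p)_{k j} (w.drop (p+1))_{i l}   (Leibniz, induction on w; Xq_{ab} = C(1/√n) X (inr (b,a)) has
 derivative 1/√n at b = i, a = j); similarly pderiv (inl (i,j)): positions with w[p] = inl true,
 (1/√n) (w.take p)_{k i} (w.drop (p+1))_{j l}.
(2) b = true: Tr (X W) prod = sum_{ij} (1/√n) g_ij W_{ji} prod; ibp turns it into
 (1/√n) sum_ij E[∂_{inr (i,j)} (W_{ji} prod)] and by (1) with k = j, l = i: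
 sum_ij (1/n)(W.take p)_{jj} (W.drop (p+1))_{ii} = (1/n) Tr (take) Tr (drop); and for a factor Tr (w_i):
 ∂ Tr w_i = (1/√n) sum_p (w_i.drop (p+1) ++ w_i.take p)_{ij}, times W_{ji}, summed over i j:
 Tr (W ++ drop ++ take).
(3) b = false: Tr (X* W) = sum_{ij} (X*)_{ij} W_{ji} with (X*)_{ij} = (1/√n) conj (g_ji); ibp' gives the derivative
 with respect to inl (j,i) of W_{ji}: positions with w[p] = inl true, (W.take p)_{jj} (W.drop (p+1))_{ii}.
The product over the other words: (ws.eraseIdx i); prove by induction on ws or with List products.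
-/
import Pool.Agent.H55.ML.G2

namespace Pool.Agent.H55.ML
open MeasureTheory ProbabilityTheory Matrix

variable {n : ℕ} {κ : Type}

/-- product of the letters of a word, for an assignment of matrices to letters -/
def evM (M : κ → Mat n) (w : List κ) : Mat n := (w.map M).prod

/-- product of the traces of the words of a list -/
def tm (M : κ → Mat n) (ws : List (List κ)) : ℂ := (ws.map fun w => (evM M w).trace).prod

/-- random letters and constant letters -/
noncomputable def gm (g : Fin n × Fin n → ℂ) (M : κ → Mat n) : Bool ⊕ κ → Mat n :=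
  Sum.elim (fun b => cond b (XX g) (XX g)ᴴ) M

/-! #### polynomials in the entries -/

private abbrev PR (n : ℕ) := MvPolynomial ((Fin n × Fin n) ⊕ (Fin n × Fin n)) ℂ

private noncomputable def sq (n : ℕ) : ℂ := ((Real.sqrt n : ℂ))⁻¹

private noncomputable def pm (M : κ → Mat n) : Bool ⊕ κ → Matrix (Fin n) (Fin n) (PR n)
  | Sum.inl true => Matrix.of fun i j => MvPolynomial.C (sq n) * MvPolynomial.X (Sum.inl (i, j))
  | Sum.inl false => Matrix.of fun i j => MvPolynomial.C (sq n) * MvPolynomial.X (Sum.inr (j, i))
  | Sum.inr k => (M k).map MvPolynomial.C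

private noncomputable def Wd {α : Type*} (F : α → Matrix (Fin n) (Fin n) (PR n)) (w : List α) :
    Matrix (Fin n) (Fin n) (PR n) := (w.map F).prod

private noncomputable def Tw {α : Type*} (F : α → Matrix (Fin n) (Fin n) (PR n))
    (ws : List (List α)) : PR n := (ws.map fun w => (Wd F w).trace).prod

private noncomputable def ew (g : Fin n × Fin n → ℂ) : PR n →+* ℂ :=
  MvPolynomial.eval (Sum.elim g (fun i => (starRingEnd ℂ) (g i)))

private theorem evP_eq (p : PR n) (g : Fin n × Fin n → ℂ) : evP p g = ew g p := rfl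

private theorem sq_conj : (starRingEnd ℂ) (sq n) = sq n := by
  unfold sq
  rw [map_inv₀, Complex.conj_ofReal]

private theorem sq_mul : sq n * sq n = (n : ℂ)⁻¹ := by
  unfold sq
  rw [← mul_inv, ← Complex.ofReal_mul, Real.mul_self_sqrt (Nat.cast_nonneg n)]
  simp

private theorem ew_pm (M : κ → Mat n) (g : Fin n × Fin n → ℂ) (c : Bool ⊕ κ) :
    (ew g).mapMatrix (pm M c) = gm g M c := by
  rcases c with (b | k)
  · cases b
    · ext i j
      simp [pm, gm, XX, ew, Matrix.conjTranspose_apply]
      rw [← sq_conj]
      simp [sq]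
    · ext i j
      simp [pm, gm, XX, ew, sq]
  · ext i j
    simp [pm, gm, ew]

private theorem ew_Wd (M : κ → Mat n) (g : Fin n × Fin n → ℂ) (w : List (Bool ⊕ κ)) :
    (ew g).mapMatrix (Wd (pm M) w) = evM (gm g M) w := by
  unfold Wd evM
  rw [map_list_prod, List.map_map]
  congr 1
  refine List.map_congr_left ?_
  intro c _
  exact ew_pm M g c

private theorem ew_Wd_apply (M : κ → Mat n) (g : Fin n × Fin n → ℂ) (w : List (Bool ⊕ κ))
    (i j : Fin n) : ew g (Wd (pm M) w i j) = evM (gm g M) w i j := by
  rw [← ew_Wd M g w]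
  rfl

private theorem ew_Tw (M : κ → Mat n) (g : Fin n × Fin n → ℂ) (ws : List (List (Bool ⊕ κ))) :
    ew g (Tw (pm M) ws) = tm (gm g M) ws := by
  unfold Tw tm
  rw [map_list_prod, List.map_map]
  congr 1
  refine List.map_congr_left ?_
  intro w _
  simp only [Function.comp_apply, Matrix.trace, Matrix.diag_apply, map_sum]
  refine Finset.sum_congr rfl ?_
  intro i _
  exact ew_Wd_apply M g w i i

theorem tm_gm_integrable (M : κ → Mat n) (ws : List (List (Bool ⊕ κ))) :
    Integrable (fun g => tm (gm g M) ws) (gin n) := by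
  have h := evP_integrable (Tw (pm M) ws)
  have h2 : (fun g => tm (gm g M) ws) = evP (Tw (pm M) ws) := by
    funext g
    rw [evP_eq, ew_Tw]
  rw [h2]
  exact h

/-! #### derivatives -/

section Der

variable {α : Type*} [DecidableEq α] (D : Derivation ℂ (PR n) (PR n))
  (F : α → Matrix (Fin n) (Fin n) (PR n)) (c0 : α) (s : PR n) (i j : Fin n)

private theorem der_word
    (hF : ∀ c a b, D (F c a b) = if c = c0 ∧ a = j ∧ b = i then s else 0) (w : List α) :
    ∀ k l : Fin n, D (Wd F w k l) = ∑ p ∈ Finset.range w.length,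
      if w[p]? = some c0 then s * (Wd F (w.take p) k j * Wd F (w.drop (p + 1)) i l) else 0 := by
  induction w with
  | nil =>
    intro k l
    simp only [Wd, List.map_nil, List.prod_nil, Matrix.one_apply, List.length_nil,
      Finset.range_zero, Finset.sum_empty]
    split_ifs
    · exact D.map_one_eq_zero
    · exact map_zero D
  | cons c w ih =>
    intro k l
    have h1 : ∀ v : List α, Wd F (c :: v) = F c * Wd F v := by
      intro v; simp [Wd]
    have h0 : Wd F ([] : List α) = 1 := by simp [Wd]
    rw [h1, Matrix.mul_apply, map_sum]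
    simp only [Derivation.leibniz, smul_eq_mul, ih, hF, Finset.sum_add_distrib]
    rw [List.length_cons, Finset.sum_range_succ']
    congr 1
    · simp only [Finset.mul_sum]
      rw [Finset.sum_comm]
      refine Finset.sum_congr rfl ?_
      intro p _
      simp only [List.getElem?_cons_succ, List.take_succ_cons, List.drop_succ_cons]
      split_ifs with hp
      · rw [h1, Matrix.mul_apply, Finset.sum_mul, Finset.mul_sum]
        refine Finset.sum_congr rfl ?_
        intro m _
        ring
      · simp
    · simp only [List.getElem?_cons_zero, List.take_zero, List.drop_succ_cons, List.drop_zero,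
        Option.some.injEq, zero_add]
      rw [h0, Matrix.one_apply]
      by_cases hc : c = c0
      · by_cases hk : k = j
        · simp only [hc, hk, true_and, mul_ite, mul_zero, Finset.sum_ite_eq', Finset.mem_univ,
            if_true, one_mul]
          ring
        · simp [hc, hk]
      · simp [hc]

private theorem der_trace
    (hF : ∀ c a b, D (F c a b) = if c = c0 ∧ a = j ∧ b = i then s else 0) (w : List α) :
    D (Wd F w).trace = ∑ p ∈ Finset.range w.length,
      if w[p]? = some c0 then s * (Wd F (w.drop (p + 1)) * Wd F (w.take p)) i j else 0 := by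
  simp only [Matrix.trace, Matrix.diag_apply, map_sum, der_word D F c0 s i j hF]
  rw [Finset.sum_comm]
  refine Finset.sum_congr rfl ?_
  intro p _
  split_ifs with hp
  · rw [Matrix.mul_apply, Finset.mul_sum]
    refine Finset.sum_congr rfl ?_
    intro m _
    ring
  · simp

omit [DecidableEq α] in
private theorem der_Tw (ws : List (List α)) :
    D (Tw F ws) = ∑ r ∈ Finset.range ws.length,
      D (Wd F (ws.getD r [])).trace * Tw F (ws.eraseIdx r) := by
  induction ws with
  | nil =>
    simp only [Tw, List.map_nil, List.prod_nil, List.length_nil, Finset.range_zero,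
      Finset.sum_empty]
    exact D.map_one_eq_zero
  | cons u ws ih =>
    have h1 : ∀ us : List (List α), Tw F (u :: us) = (Wd F u).trace * Tw F us := by
      intro us; simp [Tw]
    rw [h1, Derivation.leibniz, smul_eq_mul, smul_eq_mul, ih, List.length_cons,
      Finset.sum_range_succ']
    congr 1
    · rw [Finset.mul_sum]
      refine Finset.sum_congr rfl ?_
      intro r _
      simp only [List.getD_cons_succ, List.eraseIdx_cons_succ]
      rw [h1]
      ring
    · simp only [List.getD_cons_zero, List.eraseIdx_cons_zero]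
      ring

end Der

/-! #### the derivatives in the integration by parts -/

private noncomputable def Dv (b : Bool) (i j : Fin n) : Derivation ℂ (PR n) (PR n) :=
  MvPolynomial.pderiv (cond b (Sum.inr (i, j)) (Sum.inl (j, i)))

private theorem Dv_pm [DecidableEq κ] (M : κ → Mat n) (b : Bool) (i j : Fin n) (c : Bool ⊕ κ)
    (x y : Fin n) : Dv b i j (pm M c x y)
      = if c = Sum.inl (!b) ∧ x = j ∧ y = i then MvPolynomial.C (sq n) else 0 := by
  rcases c with (d | k)
  · cases b <;> cases d <;>
      simp [Dv, pm, Derivation.leibniz, MvPolynomial.pderiv_X, Pi.single_apply, Prod.ext_iff,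
        and_comm, eq_comm]
  · simp [Dv, pm]

private theorem Dv_ibp (M : κ → Mat n) (b : Bool) (i j : Fin n) (p : PR n) :
    ∫ g, gm g M (Sum.inl b) i j * evP p g ∂(gin n)
      = sq n * ∫ g, evP (Dv b i j p) g ∂(gin n) := by
  unfold gin
  cases b
  · have h : ∀ g : Fin n × Fin n → ℂ, gm g M (Sum.inl false) i j * evP p g
        = sq n * ((starRingEnd ℂ) (g (j, i)) * evP p g) := by
      intro g
      have : gm g M (Sum.inl false) i j = sq n * (starRingEnd ℂ) (g (j, i)) := by
        simp [gm, XX, Matrix.conjTranspose_apply]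
        rw [← sq_conj]
        simp [sq]
      rw [this, mul_assoc]
    simp only [h]
    rw [integral_const_mul, ibp']
    rfl
  · have h : ∀ g : Fin n × Fin n → ℂ, gm g M (Sum.inl true) i j * evP p g
        = sq n * (g (i, j) * evP p g) := by
      intro g
      have : gm g M (Sum.inl true) i j = sq n * g (i, j) := by
        simp [gm, XX, sq]
      rw [this, mul_assoc]
    simp only [h]
    rw [integral_const_mul, ibp]
    rfl

/-! #### the expectation functional -/

private noncomputable def LE (n : ℕ) : PR n →ₗ[ℂ] ℂ where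
  toFun p := ∫ g, evP p g ∂(gin n)
  map_add' p q := by
    have h : ∀ g : Fin n × Fin n → ℂ, evP (p + q) g = evP p g + evP q g := by
      intro g; simp [evP]
    simp only [h]
    exact integral_add (evP_integrable p) (evP_integrable q)
  map_smul' c p := by
    have h : ∀ g : Fin n × Fin n → ℂ, evP (c • p) g = c * evP p g := by
      intro g; simp [evP, MvPolynomial.smul_eval]
    simp only [h, RingHom.id_apply, smul_eq_mul]
    exact integral_const_mul _ _

private theorem LE_apply (p : PR n) : LE n p = ∫ g, evP p g ∂(gin n) := rfl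

private theorem LE_Tw (M : κ → Mat n) (ws : List (List (Bool ⊕ κ))) :
    LE n (Tw (pm M) ws) = ∫ g, tm (gm g M) ws ∂(gin n) := by
  rw [LE_apply]
  simp only [evP_eq, ew_Tw]

private theorem g3_sum {R : Type*} [CommRing R] (A B : Fin n → R) (s T : R) :
    ∑ x, ∑ y, T * (s * (A y * B x)) = s * ((∑ x, A x) * ((∑ x, B x) * T)) := by
  rw [Finset.sum_comm, Finset.sum_mul, Finset.mul_sum]
  refine Finset.sum_congr rfl ?_
  intro y _
  rw [Finset.sum_mul, Finset.mul_sum, Finset.mul_sum]
  refine Finset.sum_congr rfl ?_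
  intro x _
  ring

private theorem g3_comm {R : Type*} [CommRing R] (S : Finset ℕ) (f : Fin n → Fin n → ℕ → R) :
    ∑ i, ∑ j, ∑ r ∈ S, f i j r = ∑ r ∈ S, ∑ i, ∑ j, f i j r := by
  calc _ = ∑ i, ∑ r ∈ S, ∑ j, f i j r := Finset.sum_congr rfl fun i _ => Finset.sum_comm
    _ = _ := Finset.sum_comm

private theorem g3_sum2 {R : Type*} [CommRing R] (A B : Matrix (Fin n) (Fin n) R) (s T : R) :
    ∑ i, ∑ j, A j i * (s * B i j * T) = s * ((A * B).trace * T) := by
  simp only [Matrix.trace, Matrix.diag_apply, Matrix.mul_apply]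
  rw [Finset.sum_comm, Finset.sum_mul, Finset.mul_sum]
  refine Finset.sum_congr rfl ?_
  intro j _
  rw [Finset.sum_mul, Finset.mul_sum]
  refine Finset.sum_congr rfl ?_
  intro i _
  ring

/-- the algebra: sum over `i j` of the derivatives -/
private theorem alg [DecidableEq κ] (M : κ → Mat n) (b : Bool) (w : List (Bool ⊕ κ))
    (ws : List (List (Bool ⊕ κ))) :
    ∑ i, ∑ j, Dv b i j (Wd (pm M) w j i * Tw (pm M) ws)
      = sq n • ((∑ p ∈ Finset.range w.length, if w[p]? = some (Sum.inl (!b)) then
          Tw (pm M) (w.take p :: w.drop (p + 1) :: ws) else 0)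
        + ∑ i ∈ Finset.range ws.length, ∑ p ∈ Finset.range (ws.getD i []).length,
          if (ws.getD i [])[p]? = some (Sum.inl (!b)) then
            Tw (pm M) ((w ++ (ws.getD i []).drop (p + 1) ++ (ws.getD i []).take p)
            :: ws.eraseIdx i) else 0) := by
  have hT : ∀ (u : List (Bool ⊕ κ)) (us : List (List (Bool ⊕ κ))),
      Tw (pm M) (u :: us) = (Wd (pm M) u).trace * Tw (pm M) us := by
    intro u us; simp [Tw]
  have hW : ∀ u v : List (Bool ⊕ κ), Wd (pm M) (u ++ v) = Wd (pm M) u * Wd (pm M) v := by
    intro u v; simp [Wd]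
  have hD1 : ∀ (i j : Fin n), Dv b i j (Wd (pm M) w j i) = _ := fun i j =>
    der_word (Dv b i j) (pm M) (Sum.inl (!b)) (MvPolynomial.C (sq n)) i j
      (fun c x y => Dv_pm M b i j c x y) w j i
  have hD2 : ∀ (i j : Fin n) (u : List (Bool ⊕ κ)), Dv b i j (Wd (pm M) u).trace = _ :=
    fun i j u => der_trace (Dv b i j) (pm M) (Sum.inl (!b)) (MvPolynomial.C (sq n)) i j
      (fun c x y => Dv_pm M b i j c x y) u
  simp only [Derivation.leibniz, smul_eq_mul, der_Tw, hD1, hD2, Finset.sum_add_distrib]
  rw [add_comm, smul_add]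
  rw [MvPolynomial.smul_eq_C_mul, MvPolynomial.smul_eq_C_mul]
  congr 1
  · simp only [Finset.mul_sum]
    rw [g3_comm]
    refine Finset.sum_congr rfl ?_
    intro p _
    split_ifs with hp
    · rw [hT, hT]
      simp only [Matrix.trace, Matrix.diag_apply]
      exact g3_sum (fun x => Wd (pm M) (w.take p) x x) (fun x => Wd (pm M) (w.drop (p + 1)) x x)
        _ _
    · simp
  · simp only [Finset.mul_sum]
    rw [g3_comm]
    refine Finset.sum_congr rfl ?_
    intro r _
    simp only [Finset.sum_mul, Finset.mul_sum]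
    rw [g3_comm]
    refine Finset.sum_congr rfl ?_
    intro p _
    split_ifs with hp
    · rw [hT, hW, hW, Matrix.mul_assoc]
      exact g3_sum2 (Wd (pm M) w) _ _ _
    · simp

theorem loop [DecidableEq κ] (hn : 1 ≤ n) (M : κ → Mat n) (b : Bool) (w : List (Bool ⊕ κ))
    (ws : List (List (Bool ⊕ κ))) :
    ∫ g, tm (gm g M) ((Sum.inl b :: w) :: ws) ∂(gin n) =
      (n : ℂ)⁻¹ * (∑ p ∈ Finset.range w.length, if w[p]? = some (Sum.inl (!b)) then
        ∫ g, tm (gm g M) (w.take p :: w.drop (p + 1) :: ws) ∂(gin n) else 0)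
      + (n : ℂ)⁻¹ * ∑ i ∈ Finset.range ws.length, ∑ p ∈ Finset.range (ws.getD i []).length,
        if (ws.getD i [])[p]? = some (Sum.inl (!b)) then
          ∫ g, tm (gm g M) ((w ++ (ws.getD i []).drop (p + 1) ++ (ws.getD i []).take p)
            :: ws.eraseIdx i) ∂(gin n) else 0 := by
  have h1 : ∀ g : Fin n × Fin n → ℂ, tm (gm g M) ((Sum.inl b :: w) :: ws)
      = ∑ i, ∑ j, gm g M (Sum.inl b) i j * evP (Wd (pm M) w j i * Tw (pm M) ws) g := by
    intro g
    have h2 : tm (gm g M) ((Sum.inl b :: w) :: ws)
        = (gm g M (Sum.inl b) * evM (gm g M) w).trace * tm (gm g M) ws := by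
      simp [tm, evM]
    rw [h2, Matrix.trace, Finset.sum_mul]
    refine Finset.sum_congr rfl ?_
    intro i _
    rw [Matrix.diag_apply, Matrix.mul_apply, Finset.sum_mul]
    refine Finset.sum_congr rfl ?_
    intro j _
    rw [evP_eq, map_mul, ew_Wd_apply, ew_Tw, mul_assoc]
  have h3 : ∀ (i j : Fin n) (p : PR n),
      Integrable (fun g => gm g M (Sum.inl b) i j * evP p g) (gin n) := by
    intro i j p
    have h4 : (fun g => gm g M (Sum.inl b) i j * evP p g)
        = evP (pm M (Sum.inl b) i j * p) := by
      funext g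
      rw [evP_eq, evP_eq, map_mul]
      congr 1
      rw [← ew_pm]
      rfl
    rw [h4]
    exact evP_integrable _
  simp only [h1]
  rw [integral_finsetSum _ (fun i _ => integrable_finsetSum _ (fun j _ => h3 i j _))]
  have h5 : ∀ i : Fin n, ∫ g, ∑ j, gm g M (Sum.inl b) i j
        * evP (Wd (pm M) w j i * Tw (pm M) ws) g ∂(gin n)
      = ∑ j, sq n * LE n (Dv b i j (Wd (pm M) w j i * Tw (pm M) ws)) := by
    intro i
    rw [integral_finsetSum _ (fun j _ => h3 i j _)]
    refine Finset.sum_congr rfl ?_
    intro j _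
    rw [Dv_ibp, LE_apply]
  simp only [h5, ← Finset.mul_sum, ← map_sum]
  rw [alg, map_smul, smul_eq_mul, ← mul_assoc, sq_mul, map_add, mul_add]
  congr 1
  · congr 1
    rw [map_sum]
    refine Finset.sum_congr rfl ?_
    intro p _
    rw [apply_ite (LE n), map_zero, LE_Tw]
  · congr 1
    rw [map_sum]
    refine Finset.sum_congr rfl ?_
    intro i _
    rw [map_sum]
    refine Finset.sum_congr rfl ?_
    intro p _
    rw [apply_ite (LE n), map_zero, LE_Tw]

end Pool.Agent.H55.ML
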