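/-
G3b.  The loop equation for words in X, X* only.  Needs G3.  About 60 lines.
Take κ = Empty and map the words by inl: evM (gm g M) (w.map inl) = ev (XX g) (XX g)ᴴ w; take, drop, getD,
eraseIdx commute with map.
-/
import Pool.Agent.H55.ML.G3

namespace Pool.Agent.H55.ML
open MeasureTheory ProbabilityTheory Matrix

variable {n : ℕ}

/-- product of the traces of words in `X`, `X*` -/
noncomputable def tb (X : Mat n) (ws : List (List Bool)) : ℂ :=
  (ws.map fun w => (ev X Xᴴ w).trace).prod

private def g3bI (w : List Bool) : List (Bool ⊕ Empty) := w.map Sum.inl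

private theorem g3b_ev (g : Fin n × Fin n → ℂ) (w : List Bool) :
    evM (gm g (fun x : Empty => (Empty.elim x : Mat n))) (g3bI w) = ev (XX g) (XX g)ᴴ w := by
  unfold evM ev g3bI
  rw [List.map_map]
  rfl

private theorem g3b_tm (g : Fin n × Fin n → ℂ) (ws : List (List Bool)) :
    tm (gm g (fun x : Empty => (Empty.elim x : Mat n))) (ws.map g3bI) = tb (XX g) ws := by
  unfold tm tb
  rw [List.map_map]
  congr 1
  refine List.map_congr_left fun w _ => ?_
  rw [Function.comp_apply, g3b_ev]

private theorem g3b_get (w : List Bool) (p : ℕ) (b : Bool) :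
    ((g3bI w)[p]? = some (Sum.inl b)) ↔ (w[p]? = some b) := by
  unfold g3bI
  rw [List.getElem?_map]
  cases w[p]? with
  | none => simp
  | some c => simp

private theorem g3b_getD (ws : List (List Bool)) (i : ℕ) :
    (ws.map g3bI).getD i [] = g3bI (ws.getD i []) := by
  rw [List.getD_eq_getElem?_getD, List.getD_eq_getElem?_getD, List.getElem?_map]
  cases ws[i]? with
  | none => rfl
  | some c => rfl

private theorem g3b_len (w : List Bool) : (g3bI w).length = w.length := by
  unfold g3bI
  rw [List.length_map]

theorem tb_integrable (ws : List (List Bool)) : Integrable (fun g => tb (XX g) ws) (gin n) := by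
  have h1 := tm_gm_integrable (n := n) (fun x : Empty => (Empty.elim x : Mat n)) (ws.map g3bI)
  simp only [g3b_tm] at h1
  exact h1

theorem loopB (hn : 1 ≤ n) (b : Bool) (w : List Bool) (ws : List (List Bool)) :
    ∫ g, tb (XX g) ((b :: w) :: ws) ∂(gin n) =
      (n : ℂ)⁻¹ * (∑ p ∈ Finset.range w.length, if w[p]? = some (!b) then
        ∫ g, tb (XX g) (w.take p :: w.drop (p + 1) :: ws) ∂(gin n) else 0)
      + (n : ℂ)⁻¹ * ∑ i ∈ Finset.range ws.length, ∑ p ∈ Finset.range (ws.getD i []).length,
        if (ws.getD i [])[p]? = some (!b) then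
          ∫ g, tb (XX g) ((w ++ (ws.getD i []).drop (p + 1) ++ (ws.getD i []).take p)
            :: ws.eraseIdx i) ∂(gin n) else 0 := by
  have h1 := loop hn (fun x : Empty => (Empty.elim x : Mat n)) b (g3bI w) (ws.map g3bI)
  have e0 : (Sum.inl b :: g3bI w) :: ws.map g3bI = ((b :: w) :: ws).map g3bI := rfl
  have e1 : ∀ p, (g3bI w).take p :: (g3bI w).drop (p + 1) :: ws.map g3bI =
      (w.take p :: w.drop (p + 1) :: ws).map g3bI := by
    intro p
    simp only [List.map_cons, g3bI, List.map_take, List.map_drop]
  have e2 : ∀ i p, (g3bI w ++ (g3bI (ws.getD i [])).drop (p + 1) ++ (g3bI (ws.getD i [])).take p)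
      :: (ws.map g3bI).eraseIdx i =
      ((w ++ (ws.getD i []).drop (p + 1) ++ (ws.getD i []).take p) :: ws.eraseIdx i).map g3bI := by
    intro i p
    simp only [List.map_cons, g3bI, List.map_take, List.map_drop, List.map_append,
      List.eraseIdx_map]
  rw [e0] at h1
  simp only [g3b_getD, g3b_get, g3b_len, List.length_map, e1, e2, g3b_tm] at h1
  exact h1

end Pool.Agent.H55.ML
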