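/-
F1 (TauRec).  Recursion for the *-moments of the circular element.  About 150 lines, Defs only.
KEY LEMMA (by strong induction on the length of w, for all a, y):
  wv w (a :: y) = sum over p < |w| with w[p] = a of  wv (w.take p) [] * wv (w.drop (p+1)) y.
Proof for w = b :: w':  wv (b :: w') (a :: y) = (if a = b then wv w' y else 0) + wv w' (!b :: a :: y).
The first term is p = 0.  For the second term use the induction hypothesis for w' with (!b, a :: y):
sum over q < |w'|, w'[q] = !b, of wv (w'.take q) [] * wv (w'.drop (q+1)) (a :: y), and again the hypothesis for
w'.drop (q+1) (shorter) with (a, y): the double sum over q < r (positions in w'), w'[q] = !b, w'[r] = a, of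
wv (w'.take q) [] * wv ((w'.take r).drop (q+1)) [] * wv (w'.drop (r+1)) y; and for fixed r the sum over q is
wv (b :: w'.take r) [] = wv (w'.take r) [!b] by the hypothesis with y = [] for the shorter word w'.take r.
Then tau_cons: wv (b :: w) [] = 0 + wv w [!b] = key lemma with y = [].
-/
import Pool.Agent.H55.ML.Defs

namespace Pool.Agent.H55.ML

private theorem tauRec_nil (u : List Bool) : wv [] u = if u = [] then 1 else 0 := by
  change (Pi.single [] 1 : List Bool → ℂ) u = _
  rw [Pi.single_apply]

private theorem tauRec_cons_nil (b : Bool) (w : List Bool) : wv (b :: w) [] = wv w [!b] := by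
  change cre b (wv w) [] + wv w [!b] = _
  change 0 + wv w [!b] = _
  rw [zero_add]

private theorem tauRec_cons_cons (b : Bool) (w : List Bool) (a : Bool) (u : List Bool) :
    wv (b :: w) (a :: u) = (if a = b then wv w u else 0) + wv w ((!b) :: a :: u) := rfl

theorem wv_im (w u : List Bool) : (wv w u).im = 0 := by
  induction w generalizing u with
  | nil =>
    rw [tauRec_nil]
    split_ifs <;> simp
  | cons b w ih =>
    cases u with
    | nil => rw [tauRec_cons_nil, ih]
    | cons a u =>
      rw [tauRec_cons_cons, Complex.add_im, ih, add_zero]
      split_ifs
      · exact ih u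
      · rfl

theorem wv_nil_apply (w : List Bool) : wv w [] = (tau w : ℂ) := by
  refine Complex.ext ?_ ?_
  · rw [Complex.ofReal_re]
    rfl
  · rw [Complex.ofReal_im, wv_im]

theorem tau_nil : tau [] = 1 := by
  unfold tau
  rw [tauRec_nil, if_pos rfl, Complex.one_re]

private theorem tauRec_key (n : ℕ) : ∀ (w : List Bool), w.length ≤ n → ∀ (a : Bool) (y : List Bool),
    wv w (a :: y) = ∑ p ∈ Finset.range w.length,
      if w[p]? = some a then wv (w.take p) [] * wv (w.drop (p + 1)) y else 0 := by
  induction n with
  | zero =>
    intro w hw a y
    have h0 : w = [] := List.length_eq_zero_iff.1 (Nat.le_zero.1 hw)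
    subst h0
    rw [tauRec_nil, if_neg (by simp)]
    simp
  | succ n ih =>
    intro w hw a y
    cases w with
    | nil =>
      rw [tauRec_nil, if_neg (by simp)]
      simp
    | cons b w =>
      have hwn : w.length ≤ n := by
        rw [List.length_cons] at hw
        omega
      rw [tauRec_cons_cons, List.length_cons, Finset.sum_range_succ']
      have h0 : (if (b :: w)[0]? = some a then wv ((b :: w).take 0) [] *
          wv ((b :: w).drop (0 + 1)) y else 0) = if a = b then wv w y else 0 := by
        have e1 : ((b :: w)[0]? = some a) ↔ (a = b) := by
          simp [eq_comm]
        have e2 : wv ((b :: w).take 0) [] = 1 := by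
          rw [List.take_zero, tauRec_nil, if_pos rfl]
        have e3 : (b :: w).drop (0 + 1) = w := by simp
        simp only [e1, e2, e3, one_mul]
      rw [h0, add_comm]
      congr 1
      -- the left side as a double sum
      have hL : wv w ((!b) :: a :: y) = ∑ q ∈ Finset.range w.length,
          ∑ r ∈ Finset.Ico (q + 1) w.length,
            if w[q]? = some (!b) then (if w[r]? = some a then wv (w.take q) [] *
              (wv ((w.drop (q + 1)).take (r - (q + 1))) [] * wv (w.drop (r + 1)) y) else 0)
            else 0 := by
        rw [ih w hwn]
        refine Finset.sum_congr rfl fun q hq => ?_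
        rw [Finset.sum_Ico_eq_sum_range]
        by_cases hqb : w[q]? = some (!b)
        · simp only [hqb, if_true]
          rw [ih (w.drop (q + 1)) (by rw [List.length_drop]; omega), Finset.mul_sum,
            List.length_drop]
          refine Finset.sum_congr rfl fun s _ => ?_
          have e1 : (w.drop (q + 1))[s]? = w[q + 1 + s]? := List.getElem?_drop
          have e2 : (w.drop (q + 1)).drop (s + 1) = w.drop (q + 1 + s + 1) := by
            rw [List.drop_drop]
            congr 1
          have e3 : q + 1 + s - (q + 1) = s := by omega
          rw [e1, e2, e3]
          split_ifs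
          · rfl
          · rw [mul_zero]
        · simp only [hqb, if_false, Finset.sum_const_zero]
      have hR : ∀ r ∈ Finset.range w.length,
          (if (b :: w)[r + 1]? = some a then wv ((b :: w).take (r + 1)) [] *
            wv ((b :: w).drop (r + 1 + 1)) y else 0) =
          ∑ q ∈ Finset.range r,
            if w[q]? = some (!b) then (if w[r]? = some a then wv (w.take q) [] *
              (wv ((w.drop (q + 1)).take (r - (q + 1))) [] * wv (w.drop (r + 1)) y) else 0)
            else 0 := by
        intro r hr
        have hr' : r < w.length := Finset.mem_range.1 hr
        have e1 : (b :: w)[r + 1]? = w[r]? := by simp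
        have e2 : (b :: w).take (r + 1) = b :: w.take r := by simp
        have e3 : (b :: w).drop (r + 1 + 1) = w.drop (r + 1) := by simp
        rw [e1, e2, e3]
        by_cases hra : w[r]? = some a
        · simp only [hra, if_true]
          have hlen : (w.take r).length = r := by
            rw [List.length_take]
            omega
          rw [tauRec_cons_nil, ih (w.take r) (by rw [hlen]; omega), Finset.sum_mul, hlen]
          refine Finset.sum_congr rfl fun q hq => ?_
          have hq' : q < r := Finset.mem_range.1 hq
          have e4 : (w.take r)[q]? = w[q]? := by
            rw [List.getElem?_take, if_pos hq']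
          have e5 : (w.take r).take q = w.take q := by
            rw [List.take_take, min_eq_left (le_of_lt hq')]
          have e6 : (w.take r).drop (q + 1) = (w.drop (q + 1)).take (r - (q + 1)) := by
            rw [List.drop_take]
          rw [e4, e5, e6]
          split_ifs
          · rw [mul_assoc]
          · rw [zero_mul]
        · simp only [hra, if_false]
          symm
          refine Finset.sum_eq_zero fun q _ => ?_
          split_ifs <;> rfl
      rw [hL, Finset.sum_congr rfl hR]
      refine Finset.sum_comm' fun q r => ?_
      simp only [Finset.mem_range, Finset.mem_Ico]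
      omega

theorem tau_cons (b : Bool) (w : List Bool) :
    tau (b :: w) = ∑ p ∈ Finset.range w.length,
      if w[p]? = some (!b) then tau (w.take p) * tau (w.drop (p + 1)) else 0 := by
  have h1 := tauRec_key w.length w le_rfl (!b) []
  rw [← tauRec_cons_nil, wv_nil_apply] at h1
  apply Complex.ofReal_injective
  rw [h1, Complex.ofReal_sum]
  refine Finset.sum_congr rfl fun p _ => ?_
  split_ifs
  · rw [wv_nil_apply, wv_nil_apply, Complex.ofReal_mul]
  · rw [Complex.ofReal_zero]

/-- a word of length `m` creates only words of length at most `m` -/
theorem wv_zero (w u : List Bool) (h : w.length < u.length) : wv w u = 0 := by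
  induction w generalizing u with
  | nil =>
    rw [tauRec_nil, if_neg]
    rintro rfl
    simp at h
  | cons b w ih =>
    cases u with
    | nil => simp at h
    | cons a u =>
      rw [List.length_cons, List.length_cons] at h
      rw [tauRec_cons_cons, ih u (by omega),
        ih ((!b) :: a :: u) (by rw [List.length_cons, List.length_cons]; omega)]
      simp

/-- the top coefficient -/
theorem wv_top (w u : List Bool) (h : u.length = w.length) :
    wv w u = if u = w then 1 else 0 := by
  induction w generalizing u with
  | nil => rw [tauRec_nil]
  | cons b w ih =>
    cases u with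
    | nil => simp at h
    | cons a u =>
      rw [List.length_cons, List.length_cons] at h
      rw [tauRec_cons_cons, ih u (by omega),
        wv_zero w ((!b) :: a :: u) (by rw [List.length_cons, List.length_cons]; omega), add_zero]
      by_cases hab : a = b
      · subst hab
        simp
      · rw [if_neg hab, if_neg]
        intro hc
        exact hab (List.cons.inj hc).1

end Pool.Agent.H55.ML
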