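/-
Q1 (PEx).  Genus expansion: expectations of products of traces are polynomials in 1/n².
Needs G3b (loopB) and TauRec (tau_nil, tau_cons).  About 150 lines.
PROOF.  Strong induction on the total length ws.flatten.length, and inside on the number of words.
ws = []: P = 1.  ws = [] :: ws': Tr 1 = n, P = P'.  ws = (b :: w) :: ws': loopB.  Every term on the right has
total length two less.  Splitting term: k+1 words: n^{-1} n^{k+1} P_1(1/n²) = n^k P_1; merging term: k-1 words:
n^{-1} n^{k-1} P_2(1/n²) = n^k (1/n²) P_2(1/n²).  So P = sum of the P_1 + X * sum of the P_2.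
natDegree: total length drops by 2 and the degree grows by at most 1.
P(0) = sum over p of tau(take) tau(drop) * prod tau(ws') = tau (b :: w) * prod tau(ws') by tau_cons.
Use choice (the induction hypothesis gives a function from lists of words to polynomials).
-/
import Pool.Agent.H55.ML.G3b
import Pool.Agent.H55.ML.TauRec

namespace Pool.Agent.H55.ML
open MeasureTheory ProbabilityTheory Polynomial

private theorem pex_erase_len (ws : List (List Bool)) : ∀ i, i < ws.length →
    (ws.eraseIdx i).flatten.length + (ws.getD i []).length = ws.flatten.length := by
  induction ws with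
  | nil => intro i hi; simp at hi
  | cons u ws ih =>
    intro i hi
    cases i with
    | zero => simp [List.flatten_cons]; omega
    | succ i =>
      have hi' : i < ws.length := by simpa using hi
      have := ih i hi'
      simp only [List.eraseIdx_cons_succ, List.flatten_cons, List.length_append,
        List.getD_cons_succ]
      omega

private theorem pex_lt (w : List Bool) (p : ℕ) (c : Bool) (h : w[p]? = some c) :
    p < w.length := by
  by_contra hp
  rw [List.getElem?_eq_none (by omega)] at h
  simp at h

private theorem pex_alg1 (n : ℕ) (hn : 1 ≤ n) (k : ℕ) (x : ℝ) :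
    ((n : ℂ))⁻¹ * (((n : ℝ) ^ (k + 2) * x : ℝ) : ℂ) = (((n : ℝ) ^ (k + 1) * x : ℝ) : ℂ) := by
  have h : (n : ℂ) ≠ 0 := by
    have : n ≠ 0 := by omega
    exact_mod_cast this
  push_cast
  field_simp
  ring

private theorem pex_alg2 (n : ℕ) (hn : 1 ≤ n) (k : ℕ) (x : ℝ) :
    ((n : ℂ))⁻¹ * (((n : ℝ) ^ k * x : ℝ) : ℂ)
      = (((n : ℝ) ^ (k + 1) * (1 / (n : ℝ) ^ 2 * x) : ℝ) : ℂ) := by
  have h : (n : ℂ) ≠ 0 := by
    have : n ≠ 0 := by omega
    exact_mod_cast this
  push_cast
  field_simp
  ring

theorem exists_P (ws : List (List Bool)) : ∃ P : ℝ[X], P.natDegree ≤ ws.flatten.length ∧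
    P.eval 0 = (ws.map tau).prod ∧
    ∀ n : ℕ, 1 ≤ n → ∫ g, tb (XX g) ws ∂(gin n)
      = (((n : ℝ) ^ ws.length * P.eval (1 / (n : ℝ) ^ 2) : ℝ) : ℂ) := by
  induction hN : ws.flatten.length + ws.length using Nat.strong_induction_on generalizing ws with
  | _ N ih =>
  match ws, hN with
  | [], _ =>
    refine ⟨1, by simp, by simp, ?_⟩
    intro n hn
    have : IsProbabilityMeasure (gin n) := by unfold gin; infer_instance
    simp [tb]
  | [] :: ws', hN =>
    simp only [List.flatten_cons, List.nil_append, List.length_cons] at hN
    obtain ⟨P, h1, h2, h3⟩ := ih (ws'.flatten.length + ws'.length) (by omega) ws' rfl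
    refine ⟨P, by simpa using h1, by simp [h2, tau_nil], ?_⟩
    intro n hn
    have h4 : ∀ g : Fin n × Fin n → ℂ, tb (XX g) ([] :: ws') = (n : ℂ) * tb (XX g) ws' := by
      intro g
      simp [tb, ev, Matrix.trace_one]
    simp only [h4]
    rw [integral_const_mul, h3 n hn]
    simp only [List.length_cons]
    push_cast
    ring
  | (b :: w) :: ws', hN =>
    simp only [List.flatten_cons, List.length_append, List.length_cons] at hN
    have hex : ∀ us : List (List Bool), ∃ P : ℝ[X], us.flatten.length + us.length < N →
        (P.natDegree ≤ us.flatten.length ∧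
        P.eval 0 = (us.map tau).prod ∧
        ∀ n : ℕ, 1 ≤ n → ∫ g, tb (XX g) us ∂(gin n)
          = (((n : ℝ) ^ us.length * P.eval (1 / (n : ℝ) ^ 2) : ℝ) : ℂ)) := by
      intro us
      by_cases hus : us.flatten.length + us.length < N
      · obtain ⟨P, hP⟩ := ih _ hus us rfl
        exact ⟨P, fun _ => hP⟩
      · exact ⟨0, fun h => absurd h hus⟩
    choose Q hQ using hex
    -- the split words
    have hsp : ∀ p, w[p]? = some (!b) →
        (w.take p :: w.drop (p + 1) :: ws').flatten.length + 1 = w.length + ws'.flatten.length := by
      intro p hp
      have := pex_lt w p _ hp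
      simp only [List.flatten_cons, List.length_append, List.length_take, List.length_drop]
      omega
    have hspN : ∀ p, w[p]? = some (!b) →
        (w.take p :: w.drop (p + 1) :: ws').flatten.length
          + (w.take p :: w.drop (p + 1) :: ws').length < N := by
      intro p hp
      have := hsp p hp
      simp only [List.length_cons]
      omega
    -- the merged words
    have hme : ∀ i, i < ws'.length → ∀ p, (ws'.getD i [])[p]? = some (!b) →
        ((w ++ (ws'.getD i []).drop (p + 1) ++ (ws'.getD i []).take p)
            :: ws'.eraseIdx i).flatten.length + 1 = w.length + ws'.flatten.length := by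
      intro i hi p hp
      have h1 := pex_lt _ p _ hp
      have h2 := pex_erase_len ws' i hi
      simp only [List.flatten_cons, List.length_append, List.length_take, List.length_drop]
      omega
    have hmeN : ∀ i, i < ws'.length → ∀ p, (ws'.getD i [])[p]? = some (!b) →
        ((w ++ (ws'.getD i []).drop (p + 1) ++ (ws'.getD i []).take p)
            :: ws'.eraseIdx i).flatten.length
          + ((w ++ (ws'.getD i []).drop (p + 1) ++ (ws'.getD i []).take p)
            :: ws'.eraseIdx i).length < N := by
      intro i hi p hp
      have h1 := hme i hi p hp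
      have h2 : (ws'.eraseIdx i).length = ws'.length - 1 := List.length_eraseIdx_of_lt hi
      simp only [List.length_cons, h2]
      omega
    refine ⟨(∑ p ∈ Finset.range w.length, if w[p]? = some (!b) then
        Q (w.take p :: w.drop (p + 1) :: ws') else 0)
      + X * ∑ i ∈ Finset.range ws'.length, ∑ p ∈ Finset.range (ws'.getD i []).length,
        if (ws'.getD i [])[p]? = some (!b) then
          Q ((w ++ (ws'.getD i []).drop (p + 1) ++ (ws'.getD i []).take p)
            :: ws'.eraseIdx i) else 0, ?_, ?_, ?_⟩
    · simp only [List.flatten_cons, List.length_append, List.length_cons]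
      refine natDegree_add_le_of_degree_le ?_ ?_
      · refine natDegree_sum_le_of_forall_le _ _ ?_
        intro p _
        split_ifs with hp
        · have h1 := (hQ _ (hspN p hp)).1
          have h2 := hsp p hp
          omega
        · simp
      · refine natDegree_mul_le.trans ?_
        have h3 : (∑ i ∈ Finset.range ws'.length, ∑ p ∈ Finset.range (ws'.getD i []).length,
            if (ws'.getD i [])[p]? = some (!b) then
            Q ((w ++ (ws'.getD i []).drop (p + 1) ++ (ws'.getD i []).take p)
              :: ws'.eraseIdx i) else 0).natDegree ≤ w.length + ws'.flatten.length := by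
          refine natDegree_sum_le_of_forall_le _ _ ?_
          intro i hi
          refine natDegree_sum_le_of_forall_le _ _ ?_
          intro p _
          split_ifs with hp
          · have h1 := (hQ _ (hmeN i (Finset.mem_range.1 hi) p hp)).1
            have h2 := hme i (Finset.mem_range.1 hi) p hp
            omega
          · simp
        have h4 : (X : ℝ[X]).natDegree ≤ 1 := natDegree_X_le
        omega
    · rw [eval_add, eval_mul, eval_X, zero_mul, add_zero, eval_finsetSum]
      simp only [List.map_cons, List.prod_cons]
      rw [tau_cons, Finset.sum_mul]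
      refine Finset.sum_congr rfl ?_
      intro p _
      split_ifs with hp
      · rw [(hQ _ (hspN p hp)).2.1]
        simp only [List.map_cons, List.prod_cons]
        ring
      · simp
    · intro n hn
      rw [loopB hn]
      rw [eval_add, eval_mul, eval_X, eval_finsetSum, eval_finsetSum]
      simp only [eval_finsetSum]
      rw [mul_add]
      push_cast
      congr 1
      · rw [Finset.mul_sum, Finset.mul_sum]
        refine Finset.sum_congr rfl ?_
        intro p _
        split_ifs with hp
        · rw [(hQ _ (hspN p hp)).2.2 n hn]
          have := pex_alg1 n hn ws'.length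
            ((Q (w.take p :: w.drop (p + 1) :: ws')).eval (1 / (n : ℝ) ^ 2))
          simp only [List.length_cons]
          rw [this]
          push_cast
          rfl
        · simp
      · rw [Finset.mul_sum, Finset.mul_sum, Finset.mul_sum]
        refine Finset.sum_congr rfl ?_
        intro i hi
        rw [Finset.mul_sum, Finset.mul_sum, Finset.mul_sum]
        refine Finset.sum_congr rfl ?_
        intro p _
        have hi' := Finset.mem_range.1 hi
        split_ifs with hp
        · rw [(hQ _ (hmeN i hi' p hp)).2.2 n hn]
          have h2 : (ws'.eraseIdx i).length = ws'.length - 1 := List.length_eraseIdx_of_lt hi'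
          have h3 : ws'.length - 1 + 1 = ws'.length := by omega
          have := pex_alg2 n hn ws'.length
            ((Q ((w ++ (ws'.getD i []).drop (p + 1) ++ (ws'.getD i []).take p)
            :: ws'.eraseIdx i)).eval (1 / (n : ℝ) ^ 2))
          simp only [List.length_cons, h2, h3]
          rw [this]
          push_cast
          rfl
        · simp

end Pool.Agent.H55.ML
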