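/-
F3a (PInj).  Bounded operators on ℓ² given by partial injections.  About 120 lines, MATHLIB ONLY.
φ, ψ : α → Option α inverse partial maps.  (T f)(x) = f (φ x) if φ x is defined and 0 otherwise.
sum_x |T f x|^2 <= sum_y |f y|^2 because φ is injective where defined (the sum over x with φ x defined
embeds by φ).  Build T with LinearMap.mkContinuous of norm bound 1 (Memℓp 2: memℓp_gen, summable by
comparison: Summable.comp_injective on the subtype {x // (φ x).isSome}); norms by lp.norm_rpow_eq_tsum or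
lp.norm_sq_eq_of_L2 / inner product lp.inner_eq_tsum.
Adjoint: <T f, g> = sum_x conj (f (φ x)) g x = sum_y conj (f y) g (ψ y) (bijection x <-> y between the
domains: tsum over the subtypes), ContinuousLinearMap.eq_adjoint_iff.
-/
import Mathlib

namespace Pool.Agent.H55.ML

private theorem pinj_sum {α : Type} (φ : α → Option α)
    (hφ : ∀ x x' y, φ x = some y → φ x' = some y → x = x') (F : α → ℝ) (s : Finset α) :
    ∃ t : Finset α, (∀ y ∈ t, ∃ x ∈ s, φ x = some y) ∧
      ∑ x ∈ s, (φ x).elim 0 F = ∑ y ∈ t, F y := by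
  classical
  induction s using Finset.induction_on with
  | empty => exact ⟨∅, by simp, by simp⟩
  | insert x s hx ih =>
    obtain ⟨t, ht, hs⟩ := ih
    rcases hφx : φ x with _ | y
    · refine ⟨t, fun y hy => ?_, ?_⟩
      · obtain ⟨x', hx', h'⟩ := ht y hy
        exact ⟨x', Finset.mem_insert_of_mem hx', h'⟩
      · rw [Finset.sum_insert hx, hs, hφx]
        simp
    · have hy : y ∉ t := by
        intro hy
        obtain ⟨x', hx', h'⟩ := ht y hy
        exact hx (hφ x x' y hφx h' ▸ hx')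
      refine ⟨insert y t, fun z hz => ?_, ?_⟩
      · rcases Finset.mem_insert.1 hz with rfl | hz
        · exact ⟨x, Finset.mem_insert_self _ _, hφx⟩
        · obtain ⟨x', hx', h'⟩ := ht z hz
          exact ⟨x', Finset.mem_insert_of_mem hx', h'⟩
      · rw [Finset.sum_insert hx, Finset.sum_insert hy, hs, hφx]
        simp

private theorem pinj_le {α : Type} (φ : α → Option α)
    (hφ : ∀ x x' y, φ x = some y → φ x' = some y → x = x') (f : lp (fun _ : α => ℂ) 2)
    (s : Finset α) :
    ∑ x ∈ s, ‖(φ x).elim (0 : ℂ) (fun y => f y)‖ ^ (2 : ENNReal).toReal ≤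
      ‖f‖ ^ (2 : ENNReal).toReal := by
  have h2 : (0 : ℝ) < (2 : ENNReal).toReal := by norm_num
  obtain ⟨t, -, hs⟩ := pinj_sum φ hφ (fun y => ‖f y‖ ^ (2 : ENNReal).toReal) s
  have h3 : ∀ x, ‖(φ x).elim (0 : ℂ) (fun y => f y)‖ ^ (2 : ENNReal).toReal =
      (φ x).elim 0 (fun y => ‖f y‖ ^ (2 : ENNReal).toReal) := by
    intro x
    rcases φ x with _ | y
    · simp
    · rfl
  rw [Finset.sum_congr rfl fun x _ => h3 x, hs]
  exact lp.sum_rpow_le_norm_rpow h2 f t

private theorem pinj_op {α : Type} (φ : α → Option α)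
    (hφ : ∀ x x' y, φ x = some y → φ x' = some y → x = x') :
    ∃ T : lp (fun _ : α => ℂ) 2 →L[ℂ] lp (fun _ : α => ℂ) 2,
      (∀ (f : lp (fun _ : α => ℂ) 2) (x : α), (T f : α → ℂ) x = (φ x).elim 0 (fun y => f y)) ∧
      ‖T‖ ≤ 1 := by
  have h2 : (0 : ℝ) < (2 : ENNReal).toReal := by norm_num
  let T₀ : lp (fun _ : α => ℂ) 2 →ₗ[ℂ] lp (fun _ : α => ℂ) 2 :=
    { toFun := fun f => ⟨fun x => (φ x).elim (0 : ℂ) (fun y => f y),
        memℓp_gen' (C := ‖f‖ ^ (2 : ENNReal).toReal) (pinj_le φ hφ f)⟩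
      map_add' := by
        intro f g
        refine Subtype.ext (funext fun x => ?_)
        change (φ x).elim (0 : ℂ) (fun y => (f + g : lp (fun _ : α => ℂ) 2) y) =
          (φ x).elim (0 : ℂ) (fun y => f y) + (φ x).elim (0 : ℂ) (fun y => g y)
        rcases φ x with _ | y
        · simp
        · rfl
      map_smul' := by
        intro c f
        refine Subtype.ext (funext fun x => ?_)
        change (φ x).elim (0 : ℂ) (fun y => (c • f : lp (fun _ : α => ℂ) 2) y) =
          c • (φ x).elim (0 : ℂ) (fun y => f y)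
        rcases φ x with _ | y
        · simp
        · rfl }
  refine ⟨T₀.mkContinuous 1 ?_, fun f x => rfl, LinearMap.mkContinuous_norm_le _ zero_le_one _⟩
  intro f
  rw [one_mul]
  exact lp.norm_le_of_forall_sum_le h2 (norm_nonneg f) (pinj_le φ hφ f)

theorem pinj {α : Type} (φ ψ : α → Option α) (h : ∀ x y, φ x = some y ↔ ψ y = some x) :
    ∃ T S : lp (fun _ : α => ℂ) 2 →L[ℂ] lp (fun _ : α => ℂ) 2,
      (∀ (f : lp (fun _ : α => ℂ) 2) (x : α), (T f : α → ℂ) x = (φ x).elim 0 (fun y => f y)) ∧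
      (∀ (f : lp (fun _ : α => ℂ) 2) (x : α), (S f : α → ℂ) x = (ψ x).elim 0 (fun y => f y)) ∧
      ‖T‖ ≤ 1 ∧ ‖S‖ ≤ 1 ∧ ContinuousLinearMap.adjoint T = S := by
  obtain ⟨T, hT, hT1⟩ := pinj_op φ (fun x x' y h1 h2 => by
    have h3 := (h x y).1 h1
    have h4 := (h x' y).1 h2
    rw [h3] at h4
    exact Option.some.inj h4)
  obtain ⟨S, hS, hS1⟩ := pinj_op ψ (fun y y' x h1 h2 => by
    have h3 := (h x y).2 h1
    have h4 := (h x y').2 h2
    rw [h3] at h4
    exact Option.some.inj h4)
  refine ⟨T, S, hT, hS, hT1, hS1, ?_⟩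
  symm
  rw [ContinuousLinearMap.eq_adjoint_iff]
  intro f g
  rw [lp.inner_eq_tsum, lp.inner_eq_tsum]
  let G : α → ℂ := fun x => (φ x).elim 0 (fun y => g y * (starRingEnd ℂ) (f x))
  let F : α → ℂ := fun y => (ψ y).elim 0 (fun x => g y * (starRingEnd ℂ) (f x))
  have hF : ∀ y, inner ℂ ((S f : α → ℂ) y) (g y) = F y := by
    intro y
    rw [hS]
    change _ = (ψ y).elim 0 (fun x => g y * (starRingEnd ℂ) (f x))
    rcases ψ y with _ | x
    · simp
    · simp
  have hG : ∀ x, inner ℂ (f x) ((T g : α → ℂ) x) = G x := by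
    intro x
    rw [hT]
    change _ = (φ x).elim 0 (fun y => g y * (starRingEnd ℂ) (f x))
    rcases φ x with _ | y
    · simp
    · simp
  rw [tsum_congr hF, tsum_congr hG]
  have hsome : ∀ x : Function.support G, (φ x).isSome := by
    intro x
    by_contra hn
    rw [Option.not_isSome_iff_eq_none] at hn
    apply x.2
    change (φ x).elim 0 (fun y => g y * (starRingEnd ℂ) (f x)) = 0
    rw [hn]
    rfl
  have hget : ∀ x : Function.support G, φ x = some ((φ x).get (hsome x)) := by
    intro x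
    rw [Option.some_get]
  refine tsum_eq_tsum_of_ne_zero_bij (fun x => (φ x).get (hsome x)) ?_ ?_ ?_
  · intro x x' hxx
    have h1 := (h _ _).1 (hget x)
    have h2 := (h _ _).1 (hget x')
    simp only at hxx
    rw [hxx, h2] at h1
    exact Subtype.ext (Option.some.inj h1).symm
  · intro y hy
    have hy' : F y ≠ 0 := hy
    rcases hψ : ψ y with _ | x
    · exfalso
      apply hy'
      change (ψ y).elim 0 (fun x => g y * (starRingEnd ℂ) (f x)) = 0
      rw [hψ]
      rfl
    · have hx := (h x y).2 hψ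
      have hFG : G x = F y := by
        change (φ x).elim 0 (fun y => g y * (starRingEnd ℂ) (f x)) =
          (ψ y).elim 0 (fun x => g y * (starRingEnd ℂ) (f x))
        rw [hx, hψ]
        rfl
      refine ⟨⟨x, ?_⟩, ?_⟩
      · change G x ≠ 0
        rw [hFG]
        exact hy'
      · simp [hx]
  · intro x
    have h1 := (h _ _).1 (hget x)
    change (ψ ((φ x).get (hsome x))).elim 0
        (fun z => g ((φ x).get (hsome x)) * (starRingEnd ℂ) (f z)) =
      (φ x).elim 0 (fun y => g y * (starRingEnd ℂ) (f x))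
    rw [h1]
    conv_rhs => rw [hget x]
    rfl

end Pool.Agent.H55.ML
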