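/-
F3c (OpsC).  The circular elements acting on the first and on the second word of a pair.  About 120 lines.
Same construction as OpsT with the partial injections acting on one coordinate of the pair:
creation of b on the first word: φ ([], v) = none, φ (a :: u, v) = if a = b then some (u, v) else none,
inverse ψ (u, v) = some (b :: u, v), etc.  The operators on the two coordinates commute (pointwise check).
-/
import Pool.Agent.H55.ML.Defs
import Pool.Agent.H55.ML.PInj

namespace Pool.Agent.H55.ML

noncomputable abbrev E2 := lp (fun _ : List Bool × List Bool => ℂ) 2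

/-- partial inverse of the map which adds the letter `b` to the first word -/
private def ph1 (b : Bool) : List Bool × List Bool → Option (List Bool × List Bool)
  | ([], _) => none
  | (a :: u, v) => if a = b then some (u, v) else none

/-- the map which adds the letter `b` to the first word -/
private def ps1 (b : Bool) (p : List Bool × List Bool) : Option (List Bool × List Bool) :=
  some (b :: p.1, p.2)

/-- partial inverse of the map which adds the letter `b` to the second word -/
private def ph2 (b : Bool) : List Bool × List Bool → Option (List Bool × List Bool)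
  | (_, []) => none
  | (u, a :: v) => if a = b then some (u, v) else none

/-- the map which adds the letter `b` to the second word -/
private def ps2 (b : Bool) (p : List Bool × List Bool) : Option (List Bool × List Bool) :=
  some (p.1, b :: p.2)

private lemma inv1 (b : Bool) (x y : List Bool × List Bool) : ph1 b x = some y ↔ ps1 b y = some x := by
  obtain ⟨u, v⟩ := x
  obtain ⟨u', v'⟩ := y
  cases u with
  | nil => simp [ph1, ps1]
  | cons a u =>
    by_cases h : a = b
    · simp only [ph1, ps1, h, if_true, Option.some.injEq, Prod.mk.injEq, List.cons.injEq, true_and]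
      constructor <;> rintro ⟨h1, h2⟩ <;> exact ⟨h1.symm, h2.symm⟩
    · have h' : b ≠ a := fun e => h e.symm
      simp [ph1, ps1, h, h']

private lemma inv2 (b : Bool) (x y : List Bool × List Bool) : ph2 b x = some y ↔ ps2 b y = some x := by
  obtain ⟨u, v⟩ := x
  obtain ⟨u', v'⟩ := y
  cases v with
  | nil => simp [ph2, ps2]
  | cons a v =>
    by_cases h : a = b
    · simp only [ph2, ps2, h, if_true, Option.some.injEq, Prod.mk.injEq, List.cons.injEq, true_and]
      constructor <;> rintro ⟨h1, h2⟩ <;> exact ⟨h1.symm, h2.symm⟩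
    · have h' : b ≠ a := fun e => h e.symm
      simp [ph2, ps2, h, h']

/-- creation and annihilation give the circular elements -/
private theorem build (φ ψ : Bool → List Bool × List Bool → Option (List Bool × List Bool))
    (h : ∀ b x y, φ b x = some y ↔ ψ b y = some x) :
    ∃ L : Bool → (E2 →L[ℂ] E2),
      (∀ b (f : E2) p, (L b f : List Bool × List Bool → ℂ) p
        = (φ b p).elim 0 (fun y => f y) + (ψ (!b) p).elim 0 (fun y => f y)) ∧
      (∀ b, ‖L b‖ ≤ 2) ∧ (∀ b, ContinuousLinearMap.adjoint (L b) = L (!b)) := by
  choose T S hT hS hT1 hS1 hA using fun b => pinj (φ b) (ψ b) (h b)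
  have hA' : ∀ b, ContinuousLinearMap.adjoint (S b) = T b := fun b => by
    rw [← hA b, ContinuousLinearMap.adjoint_adjoint]
  refine ⟨fun b => T b + S (!b), fun b f p => ?_, fun b => ?_, fun b => ?_⟩
  · rw [← hT b f p, ← hS (!b) f p]
    rfl
  · calc ‖T b + S (!b)‖ ≤ ‖T b‖ + ‖S (!b)‖ := norm_add_le _ _
      _ ≤ 1 + 1 := add_le_add (hT1 b) (hS1 (!b))
      _ = 2 := by norm_num
  · rw [map_add, hA, hA', add_comm]
    change T (!b) + S b = T (!b) + S (!!b)
    rw [Bool.not_not]

theorem exists_opsC : ∃ L R : Bool → (E2 →L[ℂ] E2),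
    (∀ b (f : E2) p, (L b f : List Bool × List Bool → ℂ) p = c1 b f p) ∧
    (∀ b (f : E2) p, (R b f : List Bool × List Bool → ℂ) p = c2 b f p) ∧
    (∀ b, ‖L b‖ ≤ 2) ∧ (∀ b, ‖R b‖ ≤ 2) ∧
    (∀ b, ContinuousLinearMap.adjoint (L b) = L (!b)) ∧
    (∀ b, ContinuousLinearMap.adjoint (R b) = R (!b)) ∧
    ∀ b b', Commute (L b) (R b') := by
  obtain ⟨L, hL, hL2, hLa⟩ := build ph1 ps1 inv1
  obtain ⟨R, hR, hR2, hRa⟩ := build ph2 ps2 inv2
  have h1 : ∀ b (f : E2) p, (L b f : List Bool × List Bool → ℂ) p = c1 b f p := by
    intro b f p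
    rw [hL]
    obtain ⟨u, v⟩ := p
    cases u with
    | nil => simp [ph1, ps1, c1, cL, cre]
    | cons a u =>
      by_cases h : a = b <;> simp [ph1, ps1, c1, cL, cre, h]
  have h2 : ∀ b (f : E2) p, (R b f : List Bool × List Bool → ℂ) p = c2 b f p := by
    intro b f p
    rw [hR]
    obtain ⟨u, v⟩ := p
    cases v with
    | nil => simp [ph2, ps2, c2, cL, cre]
    | cons a v =>
      by_cases h : a = b <;> simp [ph2, ps2, c2, cL, cre, h]
  refine ⟨L, R, h1, h2, hL2, hR2, hLa, hRa, fun b b' => ?_⟩
  refine ContinuousLinearMap.ext fun f => ?_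
  refine Subtype.ext (funext fun p => ?_)
  change (L b (R b' f) : List Bool × List Bool → ℂ) p = (R b' (L b f) : List Bool × List Bool → ℂ) p
  rw [h1, h2]
  obtain ⟨u, v⟩ := p
  simp only [c1, c2, cL, h1, h2]
  cases u with
  | nil =>
    cases v with
    | nil => simp only [cre, zero_add]
    | cons a v =>
      by_cases h : a = b' <;> simp [cre, h]
  | cons a u =>
    cases v with
    | nil =>
      by_cases h : a = b <;> simp [cre, h]
    | cons a' v =>
      by_cases h : a = b <;> by_cases h' : a' = b' <;> simp only [cre, h, h', if_true, if_false] <;> ring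

end Pool.Agent.H55.ML
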