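/-
F3b (OpsT).  The circular elements acting from the left and from the right on ℓ²(words).
Creation of b on the left is the partial injection φ [] = none, φ (a :: w) = if a = b then some w else none,
with inverse ψ w = some (b :: w) (annihilation of b: f ↦ f (b :: ·)); PInj gives both with norm <= 1 and
adjoint to each other.  L b = creation of b + annihilation of !b, norm <= 2, adjoint of L b = L (!b).
Right: the same with the last letter.  Commutation: pointwise, by cases on w = [], [a], a :: (w' ++ [a']).
-/
import Pool.Agent.H55.ML.Defs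
import Pool.Agent.H55.ML.PInj

namespace Pool.Agent.H55.ML

noncomputable abbrev E1 := lp (fun _ : List Bool => ℂ) 2

/-- removes the first letter if it is `b` -/
private def phL (b : Bool) : List Bool → Option (List Bool)
  | [] => none
  | a :: w => if a = b then some w else none

/-- adds the first letter `b` -/
private def psL (b : Bool) (w : List Bool) : Option (List Bool) := some (b :: w)

/-- removes the last letter if it is `b` -/
private def phR (b : Bool) (w : List Bool) : Option (List Bool) := (phL b w.reverse).map List.reverse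

/-- adds the last letter `b` -/
private def psR (b : Bool) (w : List Bool) : Option (List Bool) := some (w ++ [b])

private lemma invL (b : Bool) (x y : List Bool) : phL b x = some y ↔ psL b y = some x := by
  cases x with
  | nil => simp [phL, psL]
  | cons a w =>
    by_cases h : a = b
    · simp only [phL, psL, h, if_true, Option.some.injEq, List.cons.injEq, true_and]
      exact ⟨fun h => h.symm, fun h => h.symm⟩
    · have h' : b ≠ a := fun e => h e.symm
      simp [phL, psL, h, h']

private lemma invR (b : Bool) (x y : List Bool) : phR b x = some y ↔ psR b y = some x := by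
  unfold phR psR
  rw [Option.map_eq_some_iff]
  constructor
  · rintro ⟨z, hz, rfl⟩
    rw [invL] at hz
    simp only [psL, Option.some.injEq] at hz ⊢
    have h := congrArg List.reverse hz
    rw [List.reverse_reverse, List.reverse_cons] at h
    exact h
  · intro h
    simp only [Option.some.injEq] at h
    refine ⟨y.reverse, ?_, List.reverse_reverse y⟩
    rw [invL]
    simp only [psL, Option.some.injEq]
    rw [← h]
    simp

/-- creation and annihilation give the circular elements -/
private theorem buildT (φ ψ : Bool → List Bool → Option (List Bool))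
    (h : ∀ b x y, φ b x = some y ↔ ψ b y = some x) :
    ∃ L : Bool → (E1 →L[ℂ] E1),
      (∀ b (f : E1) p, (L b f : List Bool → ℂ) p
        = (φ b p).elim 0 (fun y => f y) + (ψ (!b) p).elim 0 (fun y => f y)) ∧
      (∀ b, ‖L b‖ ≤ 2) ∧ (∀ b, ContinuousLinearMap.adjoint (L b) = L (!b)) := by
  choose T S hT hS hT1 hS1 hA using fun b => pinj (φ b) (ψ b) (h b)
  have hA' : ∀ b, ContinuousLinearMap.adjoint (S b) = T b := fun b => by
    rw [← hA b, ContinuousLinearMap.adjoint_adjoint]
  refine ⟨fun b => T b + S (!b), fun b f p => ?_, fun b => ?_, fun b => ?_⟩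
  · rw [← hT b f p, ← hS (!b) f p]
    rfl
  · calc ‖T b + S (!b)‖ ≤ ‖T b‖ + ‖S (!b)‖ := norm_add_le _ _
      _ ≤ 1 + 1 := add_le_add (hT1 b) (hS1 (!b))
      _ = 2 := by norm_num
  · rw [map_add, hA, hA', add_comm]
    change T (!b) + S b = T (!b) + S (!!b)
    rw [Bool.not_not]

private lemma cR_nil (b : Bool) (f : List Bool → ℂ) : cR b f [] = f [!b] := by
  simp [cR, cL, cre]

private lemma cR_snoc (b : Bool) (f : List Bool → ℂ) (w : List Bool) (a : Bool) :
    cR b f (w ++ [a]) = (if a = b then f w else 0) + f (w ++ [a] ++ [!b]) := by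
  simp [cR, cL, cre]

private lemma comm_pt (b b' : Bool) (f : List Bool → ℂ) (w : List Bool) :
    cL b (cR b' f) w = cR b' (cL b f) w := by
  cases w with
  | nil =>
    rw [cR_nil]
    have h : cR b' f [!b] = (if (!b) = b' then f [] else 0) + f ([!b] ++ [!b']) := cR_snoc b' f [] (!b)
    simp only [cL, cre, h]
    cases b <;> cases b' <;> simp
  | cons a v =>
    rcases List.eq_nil_or_concat v with rfl | ⟨u, a', rfl⟩
    · have h1 : cR b' f ((!b) :: [a]) = (if a = b' then f [!b] else 0) + f ([!b, a] ++ [!b']) :=
        cR_snoc b' f [!b] a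
      have h2 : cR b' (cL b f) [a] = (if a = b' then cL b f [] else 0) + cL b f ([a] ++ [!b']) :=
        cR_snoc b' (cL b f) [] a
      rw [h2]
      simp only [cL, cre, h1, cR_nil, List.cons_append, List.nil_append]
      by_cases h : a = b <;> by_cases h' : a = b' <;> simp only [h, h', if_true, if_false] <;> ring_nf
    · have h0 : cR b' f (u ++ [a']) = (if a' = b' then f u else 0) + f (u ++ [a'] ++ [!b']) :=
        cR_snoc b' f u a'
      have h1 : cR b' f ((!b) :: a :: (u ++ [a'])) = (if a' = b' then f ((!b) :: a :: u) else 0)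
          + f ((!b) :: a :: (u ++ [a'] ++ [!b'])) := by
        have := cR_snoc b' f ((!b) :: a :: u) a'
        simpa using this
      have h2 : cR b' (cL b f) (a :: (u ++ [a'])) = (if a' = b' then cL b f (a :: u) else 0)
          + cL b f (a :: (u ++ [a'] ++ [!b'])) := by
        have := cR_snoc b' (cL b f) (a :: u) a'
        simpa using this
      rw [List.concat_eq_append, h2]
      simp only [cL, cre, h1, h0]
      by_cases h : a = b <;> by_cases h' : a' = b' <;> simp only [h, h', if_true, if_false] <;> ring

theorem exists_opsT : ∃ L R : Bool → (E1 →L[ℂ] E1),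
    (∀ b (f : E1) w, (L b f : List Bool → ℂ) w = cL b f w) ∧
    (∀ b (f : E1) w, (R b f : List Bool → ℂ) w = cR b f w) ∧
    (∀ b, ‖L b‖ ≤ 2) ∧ (∀ b, ‖R b‖ ≤ 2) ∧
    (∀ b, ContinuousLinearMap.adjoint (L b) = L (!b)) ∧
    (∀ b, ContinuousLinearMap.adjoint (R b) = R (!b)) ∧
    ∀ b b', Commute (L b) (R b') := by
  obtain ⟨L, hL, hL2, hLa⟩ := buildT phL psL invL
  obtain ⟨R, hR, hR2, hRa⟩ := buildT phR psR invR
  have h1 : ∀ b (f : E1) w, (L b f : List Bool → ℂ) w = cL b f w := by
    intro b f w
    rw [hL]
    cases w with
    | nil => simp [phL, psL, cL, cre]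
    | cons a u =>
      by_cases h : a = b <;> simp [phL, psL, cL, cre, h]
  have h2 : ∀ b (f : E1) w, (R b f : List Bool → ℂ) w = cR b f w := by
    intro b f w
    rw [hR]
    rcases List.eq_nil_or_concat w with rfl | ⟨u, a, rfl⟩
    · rw [cR_nil]; simp [phR, phL, psR]
    · rw [List.concat_eq_append, cR_snoc]
      by_cases h : a = b <;> simp [phR, phL, psR, h]
  refine ⟨L, R, h1, h2, hL2, hR2, hLa, hRa, fun b b' => ?_⟩
  refine ContinuousLinearMap.ext fun f => ?_
  refine Subtype.ext (funext fun w => ?_)
  change (L b (R b' f) : List Bool → ℂ) w = (R b' (L b f) : List Bool → ℂ) w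
  rw [h1, h2]
  have e1 : ((R b' f : E1) : List Bool → ℂ) = cR b' f := funext fun u => h2 b' f u
  have e2 : ((L b f : E1) : List Bool → ℂ) = cL b f := funext fun u => h1 b f u
  rw [e1, e2]
  exact comm_pt b b' f w

end Pool.Agent.H55.ML
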