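/-
Choice of the operators of OpsT and OpsC, and the two limit operators.
-/
import Pool.Agent.H55.ML.OpsT
import Pool.Agent.H55.ML.OpsC

namespace Pool.Agent.H55.ML

noncomputable def LT : Bool → (E1 →L[ℂ] E1) := exists_opsT.choose
noncomputable def RT : Bool → (E1 →L[ℂ] E1) := exists_opsT.choose_spec.choose
noncomputable def LC : Bool → (E2 →L[ℂ] E2) := exists_opsC.choose
noncomputable def RC : Bool → (E2 →L[ℂ] E2) := exists_opsC.choose_spec.choose

theorem LT_apply (b : Bool) (f : E1) (w : List Bool) : (LT b f : List Bool → ℂ) w = cL b f w :=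
  exists_opsT.choose_spec.choose_spec.1 b f w
theorem RT_apply (b : Bool) (f : E1) (w : List Bool) : (RT b f : List Bool → ℂ) w = cR b f w :=
  exists_opsT.choose_spec.choose_spec.2.1 b f w
theorem norm_LT (b : Bool) : ‖LT b‖ ≤ 2 := exists_opsT.choose_spec.choose_spec.2.2.1 b
theorem norm_RT (b : Bool) : ‖RT b‖ ≤ 2 := exists_opsT.choose_spec.choose_spec.2.2.2.1 b
theorem adjoint_LT (b : Bool) : ContinuousLinearMap.adjoint (LT b) = LT (!b) :=
  exists_opsT.choose_spec.choose_spec.2.2.2.2.1 b
theorem adjoint_RT (b : Bool) : ContinuousLinearMap.adjoint (RT b) = RT (!b) :=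
  exists_opsT.choose_spec.choose_spec.2.2.2.2.2.1 b
theorem commute_LT_RT (b b' : Bool) : Commute (LT b) (RT b') :=
  exists_opsT.choose_spec.choose_spec.2.2.2.2.2.2 b b'

theorem LC_apply (b : Bool) (f : E2) (p : List Bool × List Bool) :
    (LC b f : List Bool × List Bool → ℂ) p = c1 b f p :=
  exists_opsC.choose_spec.choose_spec.1 b f p
theorem RC_apply (b : Bool) (f : E2) (p : List Bool × List Bool) :
    (RC b f : List Bool × List Bool → ℂ) p = c2 b f p :=
  exists_opsC.choose_spec.choose_spec.2.1 b f p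
theorem norm_LC (b : Bool) : ‖LC b‖ ≤ 2 := exists_opsC.choose_spec.choose_spec.2.2.1 b
theorem norm_RC (b : Bool) : ‖RC b‖ ≤ 2 := exists_opsC.choose_spec.choose_spec.2.2.2.1 b
theorem adjoint_LC (b : Bool) : ContinuousLinearMap.adjoint (LC b) = LC (!b) :=
  exists_opsC.choose_spec.choose_spec.2.2.2.2.1 b
theorem adjoint_RC (b : Bool) : ContinuousLinearMap.adjoint (RC b) = RC (!b) :=
  exists_opsC.choose_spec.choose_spec.2.2.2.2.2.1 b
theorem commute_LC_RC (b b' : Bool) : Commute (LC b) (RC b') :=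
  exists_opsC.choose_spec.choose_spec.2.2.2.2.2.2 b b'

/-- the operator of the form `qT` -/
noncomputable def DT : E1 →L[ℂ] E1 := DDg (LT true) (LT false) (RT true) (RT false)

/-- the operator of the form `qC` -/
noncomputable def DCo : E2 →L[ℂ] E2 := DDg (LC true) (LC false) (RC true) (RC false)

/-- the empty word -/
noncomputable def Om1 : E1 := lp.single 2 [] (1 : ℂ)

/-- the pair of empty words -/
noncomputable def Om2 : E2 := lp.single 2 ([], []) (1 : ℂ)

/-- the value of `h ↦ <Ω ⊗ Ω, h(D) Ω ⊗ Ω>` -/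
noncomputable def nuC (h : Polynomial ℝ) : ℝ :=
  (inner ℂ Om2 ((Polynomial.aeval DCo h) Om2)).re

end Pool.Agent.H55.ML
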