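/-
F2 (TSym).  The vectors of the words in the Hilbert space and the symmetries of the moments.  About 150 lines.
Write aw w = ev (LT true) (LT false) w (product of operators; (cond b (LT true) (LT false)) = LT b).
(1) coordinates of aw w Om1 are wv w: induction on w with LT_apply (Om1 = indicator of []).
(2) right words: RT b Om1 = LT b Om1 (both are the word [b]); ev R (b :: v) Om1 = RT b (ev R v Om1)
 = RT b (aw v.reverse Om1) = aw v.reverse (RT b Om1) (commute_LT_RT) = aw v.reverse (LT b Om1)
 = aw (v.reverse ++ [b]) Om1 = aw (b :: v).reverse Om1.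
(3) adjoint (aw u) = aw (st u) (adjoint_LT, reversal of the product; cond), so
 <aw u Om1, aw v Om1> = <Om1, aw (st u ++ v) Om1> = wv (st u ++ v) [] = tau (st u ++ v).
(4) tau real: inner product symmetric, tau (st w) = <aw w Om1, Om1> = conj <Om1, aw w Om1> = tau w.
(5) tau (a ++ b) = <Om1, aw a (aw b Om1)> = <Om1, aw a (ev R b.reverse Om1)> = <Om1, ev R b.reverse (aw a Om1)>
 = <ev R (st b.reverse) Om1, aw a Om1> = <aw (st b) Om1, aw a Om1> = tau (st (st b) ++ a) = tau (b ++ a),
 where adjoint (ev R v) = ev R (st v) and (st b.reverse).reverse = st b, st (st b) = b.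
(6) tau w.reverse = <Om1, aw w.reverse Om1> = <Om1, ev R w Om1>, and (RT b f)(w) = (cL b (f ∘ reverse)) w.reverse
 gives by induction (ev R w Om1)(u) = wv w u.reverse, so the value at [] is wv w [] = tau w.
-/
import Pool.Agent.H55.ML.Ops
import Pool.Agent.H55.ML.TauRec
import Pool.Agent.H55.ML.Expand

namespace Pool.Agent.H55.ML

private theorem tsym_cond {A : Type*} (F : Bool → A) (b : Bool) :
    cond b (F true) (F false) = F b := by
  cases b <;> rfl

private theorem tsym_Om1 (u : List Bool) :
    (Om1 : List Bool → ℂ) u = (Pi.single [] 1 : List Bool → ℂ) u := by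
  unfold Om1
  rw [lp.coeFn_single]

private theorem tsym_cL_single (b : Bool) (w : List Bool) :
    cL b (Pi.single [] 1 : List Bool → ℂ) w = if w = [b] then 1 else 0 := by
  unfold cL
  have h1 : (Pi.single [] 1 : List Bool → ℂ) ((!b) :: w) = 0 := by
    rw [Pi.single_apply]; simp
  rw [h1, add_zero]
  match w with
  | [] => simp [cre]
  | [a] =>
    unfold cre
    by_cases h : a = b
    · simp [h]
    · simp [h]
  | a :: a' :: w' =>
    have h2 : cre b (Pi.single [] 1 : List Bool → ℂ) (a :: a' :: w')
        = if a = b then (Pi.single [] 1 : List Bool → ℂ) (a' :: w') else 0 := rfl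
    have h3 : (Pi.single [] 1 : List Bool → ℂ) (a' :: w') = 0 := by
      rw [Pi.single_apply]; simp
    rw [h2, h3]
    simp

theorem ev_LT_apply (w u : List Bool) :
    (ev (LT true) (LT false) w Om1 : List Bool → ℂ) u = wv w u := by
  induction w generalizing u with
  | nil =>
    rw [ev_nil, one_apply_eq_self, tsym_Om1]
    rfl
  | cons b w ih =>
    rw [ev_cons, tsym_cond LT b, mul_apply_eq_comp, LT_apply]
    have : ((ev (LT true) (LT false) w Om1 : E1) : List Bool → ℂ) = wv w := funext ih
    rw [this]
    rfl

private theorem tsym_ev_RT_apply (w u : List Bool) :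
    (ev (RT true) (RT false) w Om1 : List Bool → ℂ) u = wv w u.reverse := by
  induction w generalizing u with
  | nil =>
    rw [ev_nil, one_apply_eq_self, tsym_Om1]
    change _ = (Pi.single [] 1 : List Bool → ℂ) u.reverse
    rw [Pi.single_apply, Pi.single_apply]
    simp
  | cons b w ih =>
    rw [ev_cons, tsym_cond RT b, mul_apply_eq_comp, RT_apply]
    unfold cR
    have : (fun v : List Bool => ((ev (RT true) (RT false) w Om1 : E1) : List Bool → ℂ) v.reverse)
        = wv w := by
      funext v
      rw [ih, List.reverse_reverse]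
    rw [this]
    rfl

private theorem tsym_RT_Om (b : Bool) : RT b Om1 = LT b Om1 := by
  apply lp.ext
  funext w
  rw [RT_apply, LT_apply]
  unfold cR
  have h1 : (fun u : List Bool => (Om1 : List Bool → ℂ) u.reverse)
      = (Pi.single [] 1 : List Bool → ℂ) := by
    funext u
    rw [tsym_Om1, Pi.single_apply, Pi.single_apply]
    simp
  have h2 : ((Om1 : E1) : List Bool → ℂ) = (Pi.single [] 1 : List Bool → ℂ) := funext tsym_Om1
  rw [h1, h2, tsym_cL_single, tsym_cL_single]
  have h3 : w.reverse = [b] ↔ w = [b] := by
    constructor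
    · intro h
      have := congrArg List.reverse h
      simpa using this
    · rintro rfl; rfl
  simp only [h3]

private theorem tsym_comm_ev {A : Type*} [Monoid A] {l l' x : A} (h1 : Commute l x)
    (h2 : Commute l' x) (u : List Bool) : Commute (ev l l' u) x := by
  induction u with
  | nil => rw [ev_nil]; exact Commute.one_left x
  | cons b u ih =>
    rw [ev_cons]
    refine Commute.mul_left ?_ ih
    cases b
    · exact h2
    · exact h1

private theorem tsym_comm (u v : List Bool) :
    Commute (ev (LT true) (LT false) u) (ev (RT true) (RT false) v) := by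
  refine tsym_comm_ev ?_ ?_ u
  · exact (tsym_comm_ev (commute_LT_RT true true).symm (commute_LT_RT true false).symm v).symm
  · exact (tsym_comm_ev (commute_LT_RT false true).symm (commute_LT_RT false false).symm v).symm

theorem ev_RT_Om (v : List Bool) :
    ev (RT true) (RT false) v Om1 = ev (LT true) (LT false) v.reverse Om1 := by
  induction v with
  | nil => rw [List.reverse_nil, ev_nil, ev_nil]
  | cons b v ih =>
    rw [ev_cons, tsym_cond RT b, mul_apply_eq_comp, ih]
    have hc : Commute (ev (LT true) (LT false) v.reverse) (RT b) :=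
      tsym_comm_ev (commute_LT_RT true b) (commute_LT_RT false b) v.reverse
    have h1 : RT b (ev (LT true) (LT false) v.reverse Om1)
        = ev (LT true) (LT false) v.reverse (RT b Om1) := by
      have := congrArg (fun T : E1 →L[ℂ] E1 => T Om1) hc.eq
      simp only [mul_apply_eq_comp] at this
      exact this.symm
    rw [h1, tsym_RT_Om, List.reverse_cons, ev_append, mul_apply_eq_comp,
      ev_cons, tsym_cond LT b, ev_nil, mul_one]

private theorem tsym_st_cons (b : Bool) (w : List Bool) : st (b :: w) = st w ++ [!b] := by
  simp [st]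

private theorem tsym_st_st (w : List Bool) : st (st w) = w := by
  have h : (not ∘ not) = (id : Bool → Bool) := by
    funext b; cases b <;> rfl
  simp [st, h]

private theorem tsym_adj (F : Bool → (E1 →L[ℂ] E1))
    (hF : ∀ b, ContinuousLinearMap.adjoint (F b) = F (!b)) (w : List Bool) :
    ContinuousLinearMap.adjoint (ev (F true) (F false) w) = ev (F true) (F false) (st w) := by
  induction w with
  | nil =>
    change _ = ev (F true) (F false) []
    rw [ev_nil]
    rw [← ContinuousLinearMap.star_eq_adjoint, star_one]
  | cons b w ih =>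
    rw [ev_cons, tsym_cond F b, tsym_st_cons, ev_append, ev_cons, tsym_cond F (!b), ev_nil,
      mul_one, ← ih, ← hF b, ← ContinuousLinearMap.star_eq_adjoint,
      ← ContinuousLinearMap.star_eq_adjoint, ← ContinuousLinearMap.star_eq_adjoint, star_mul]

theorem adjoint_ev_LT (u : List Bool) :
    ContinuousLinearMap.adjoint (ev (LT true) (LT false) u) = ev (LT true) (LT false) (st u) :=
  tsym_adj LT adjoint_LT u

theorem adjoint_ev_RT (u : List Bool) :
    ContinuousLinearMap.adjoint (ev (RT true) (RT false) u) = ev (RT true) (RT false) (st u) :=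
  tsym_adj RT adjoint_RT u

private theorem tsym_inner_Om (f : E1) : inner ℂ Om1 f = (f : List Bool → ℂ) [] := by
  unfold Om1
  rw [lp.inner_single_left]
  simp

theorem inner_ev_ev (u v : List Bool) :
    inner ℂ (ev (LT true) (LT false) u Om1) (ev (LT true) (LT false) v Om1)
      = (tau (st u ++ v) : ℂ) := by
  rw [← ContinuousLinearMap.adjoint_inner_right, adjoint_ev_LT,
    ← mul_apply_eq_comp, ← ev_append, tsym_inner_Om, ev_LT_apply, wv_nil_apply]

theorem tau_st (w : List Bool) : tau (st w) = tau w := by
  have h1 := inner_ev_ev w []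
  have h2 := inner_ev_ev [] w
  rw [← inner_conj_symm, h2] at h1
  simp only [List.append_nil, Complex.conj_ofReal] at h1
  have h3 : st [] ++ w = w := rfl
  rw [h3] at h1
  exact_mod_cast h1.symm

theorem tau_append_comm (a b : List Bool) : tau (a ++ b) = tau (b ++ a) := by
  have h1 := inner_ev_ev [] (a ++ b)
  rw [ev_nil, one_apply_eq_self, ev_append, mul_apply_eq_comp] at h1
  have h2 : ev (LT true) (LT false) b Om1 = ev (RT true) (RT false) b.reverse Om1 := by
    rw [ev_RT_Om, List.reverse_reverse]
  have h3 : ev (LT true) (LT false) a (ev (RT true) (RT false) b.reverse Om1)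
      = ev (RT true) (RT false) b.reverse (ev (LT true) (LT false) a Om1) := by
    have := congrArg (fun T : E1 →L[ℂ] E1 => T Om1) (tsym_comm a b.reverse).eq
    simpa only [mul_apply_eq_comp] using this
  rw [h2, h3, ← ContinuousLinearMap.adjoint_inner_left, adjoint_ev_RT, ev_RT_Om] at h1
  have h4 : (st b.reverse).reverse = st b := by
    simp [st]
  rw [h4, inner_ev_ev, tsym_st_st] at h1
  have h5 : st [] ++ (a ++ b) = a ++ b := rfl
  rw [h5] at h1
  exact_mod_cast h1.symm

theorem tau_reverse (w : List Bool) : tau w.reverse = tau w := by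
  have h1 := tsym_ev_RT_apply w []
  rw [ev_RT_Om, ev_LT_apply, List.reverse_nil, wv_nil_apply, wv_nil_apply] at h1
  exact Complex.ofReal_injective h1

/-- moments of the trivial bimodule -/
theorem inner_bimodule (u a b w : List Bool) :
    inner ℂ (ev (LT true) (LT false) u Om1)
      ((ev (LT true) (LT false) a * ev (RT true) (RT false) b) (ev (LT true) (LT false) w Om1))
      = (tau (st u ++ a ++ w ++ b.reverse) : ℂ) := by
  have h3 : ev (RT true) (RT false) b (ev (LT true) (LT false) w Om1)
      = ev (LT true) (LT false) w (ev (RT true) (RT false) b Om1) := by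
    have := congrArg (fun T : E1 →L[ℂ] E1 => T Om1) (tsym_comm w b).eq
    simp only [mul_apply_eq_comp] at this
    exact this.symm
  rw [mul_apply_eq_comp, h3, ev_RT_Om, ← mul_apply_eq_comp, ← ev_append,
    ← mul_apply_eq_comp, ← ev_append, inner_ev_ev]
  simp only [List.append_assoc]

end Pool.Agent.H55.ML
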