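/-
V1 (TrConv).  Normalized traces of words converge in probability to the moments.  About 100 lines.
PROOF.  t = Tr (ev X X* w), conj t = Tr (ev X X* (st w)) (ev_conjTranspose).  With exists_P for [w], [st w] and
[w, st w]: E |t/n - tau w|^2 = P_{w, st w}(1/n²) - tau w (P_w(1/n²) + P_{st w}(1/n²)) + tau w ^2 → 0, because the
polynomials are continuous and P_{w, st w}(0) = tau w * tau (st w) = tau w ^2 (tau_st).
|t/n - tau|^2 = (t/n - tau)(conj t/n - tau): integrals from tb_integrable.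
-/
import Pool.Agent.H55.ML.PEx
import Pool.Agent.H55.ML.LR
import Pool.Agent.H55.ML.TSym
import Pool.Agent.H55.ML.InProb

namespace Pool.Agent.H55.ML
open MeasureTheory ProbabilityTheory Polynomial Matrix

private theorem trc_tend (P : ℝ[X]) :
    Filter.Tendsto (fun n : ℕ => P.eval (1 / (n : ℝ) ^ 2)) Filter.atTop (nhds (P.eval 0)) := by
  have h1 : Filter.Tendsto (fun n : ℕ => (1 : ℝ) / (n : ℝ) ^ 2) Filter.atTop (nhds 0) :=
    ((Filter.tendsto_pow_atTop two_ne_zero).comp tendsto_natCast_atTop_atTop).const_div_atTop 1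
  exact (P.continuous.tendsto 0).comp h1

private theorem trc_sq (n : ℕ) (g : Fin n × Fin n → ℂ) (w : List Bool) (c : ℝ) :
    ((‖(ev (XX g) (XX g)ᴴ w).trace / (n : ℂ) - (c : ℂ)‖ ^ 2 : ℝ) : ℂ) =
      tb (XX g) [w, st w] / (n : ℂ) ^ 2 - (c : ℂ) * (tb (XX g) [w] / (n : ℂ))
        - (c : ℂ) * (tb (XX g) [st w] / (n : ℂ)) + (c : ℂ) ^ 2 := by
  have h1 : (starRingEnd ℂ) (ev (XX g) (XX g)ᴴ w).trace = (ev (XX g) (XX g)ᴴ (st w)).trace := by
    rw [← ev_conjTranspose, Matrix.trace_conjTranspose]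
    rfl
  have h2 : ((‖(ev (XX g) (XX g)ᴴ w).trace / (n : ℂ) - (c : ℂ)‖ ^ 2 : ℝ) : ℂ) =
      ((ev (XX g) (XX g)ᴴ w).trace / (n : ℂ) - (c : ℂ)) *
        (starRingEnd ℂ) ((ev (XX g) (XX g)ᴴ w).trace / (n : ℂ) - (c : ℂ)) := by
    rw [Complex.mul_conj, Complex.normSq_eq_norm_sq]
  rw [h2, map_sub, map_div₀, h1, Complex.conj_ofReal, map_natCast]
  unfold tb
  simp only [List.map_cons, List.map_nil, List.prod_cons, List.prod_nil, mul_one]
  ring

theorem tr_conv (w : List Bool) :
    TP (fun n g => (ev (XX g) (XX g)ᴴ w).trace / (n : ℂ)) (tau w : ℂ) := by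
  obtain ⟨P1, -, h12, h13⟩ := exists_P [w]
  obtain ⟨P2, -, h22, h23⟩ := exists_P [st w]
  obtain ⟨P3, -, h32, h33⟩ := exists_P [w, st w]
  simp only [List.map_cons, List.map_nil, List.prod_cons, List.prod_nil, mul_one, tau_st]
    at h12 h22 h32
  refine TP_of_L2 (e := fun n : ℕ => P3.eval (1 / (n : ℝ) ^ 2) - tau w * P1.eval (1 / (n : ℝ) ^ 2)
    - tau w * P2.eval (1 / (n : ℝ) ^ 2) + tau w ^ 2) ?_ ?_
  · have h := (((trc_tend P3).sub ((trc_tend P1).const_mul (tau w))).sub
      ((trc_tend P2).const_mul (tau w))).add_const (tau w ^ 2)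
    rw [h12, h22, h32] at h
    have e : tau w * tau w - tau w * tau w - tau w * tau w + tau w ^ 2 = 0 := by ring
    rw [e] at h
    exact h
  · filter_upwards [Filter.eventually_ge_atTop 1] with n hn
    have hn0 : (n : ℂ) ≠ 0 := by
      have : n ≠ 0 := by omega
      exact_mod_cast this
    have hn0' : (n : ℝ) ≠ 0 := by
      have : n ≠ 0 := by omega
      exact_mod_cast this
    have i1 : Integrable (fun g => tb (XX g) [w, st w] / (n : ℂ) ^ 2) (gin n) :=
      (tb_integrable [w, st w]).div_const _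
    have i2 : Integrable (fun g => (tau w : ℂ) * (tb (XX g) [w] / (n : ℂ))) (gin n) :=
      ((tb_integrable [w]).div_const _).const_mul _
    have i3 : Integrable (fun g => (tau w : ℂ) * (tb (XX g) [st w] / (n : ℂ))) (gin n) :=
      ((tb_integrable [st w]).div_const _).const_mul _
    have i12 : Integrable (fun g => tb (XX g) [w, st w] / (n : ℂ) ^ 2
        - (tau w : ℂ) * (tb (XX g) [w] / (n : ℂ))) (gin n) := i1.sub i2
    have i123 : Integrable (fun g => tb (XX g) [w, st w] / (n : ℂ) ^ 2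
        - (tau w : ℂ) * (tb (XX g) [w] / (n : ℂ))
        - (tau w : ℂ) * (tb (XX g) [st w] / (n : ℂ))) (gin n) := i12.sub i3
    have hC : Integrable (fun g => ((‖(ev (XX g) (XX g)ᴴ w).trace / (n : ℂ) - (tau w : ℂ)‖ ^ 2 : ℝ)
        : ℂ)) (gin n) := by
      simp only [trc_sq]
      exact i123.add (integrable_const _)
    have hval : ∫ g, ((‖(ev (XX g) (XX g)ᴴ w).trace / (n : ℂ) - (tau w : ℂ)‖ ^ 2 : ℝ) : ℂ) ∂(gin n)
        = ((P3.eval (1 / (n : ℝ) ^ 2) - tau w * P1.eval (1 / (n : ℝ) ^ 2)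
          - tau w * P2.eval (1 / (n : ℝ) ^ 2) + tau w ^ 2 : ℝ) : ℂ) := by
      simp only [trc_sq]
      rw [integral_add i123 (integrable_const _), integral_sub i12 i3,
        integral_sub i1 i2, integral_div, integral_const_mul, integral_const_mul, integral_div,
        integral_div, h33 n hn, h13 n hn, h23 n hn, integral_const]
      simp only [List.length_cons, List.length_nil, probReal_univ, one_smul]
      push_cast
      field_simp
    refine ⟨?_, ?_⟩
    · exact hC.re.congr (Filter.Eventually.of_forall fun g => Complex.ofReal_re _)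
    · have h5 := hval
      rw [integral_complex_ofReal] at h5
      exact (Complex.ofReal_injective h5).le

end Pool.Agent.H55.ML
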