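/-
V2 (Bim).  Convergence of the bimodule coefficients.  Needs TrConv, TSym, MomC, KV.  About 180 lines.
bim_conv: Expand.expand h with (Lf X, Lf X*), (Rt X, Rt X*): aeval (DD X) h = sum a(p) Lf (ev p.1) Rt (ev p.2.reverse)
(ev_Lf, ev_Rt), star (vc U) ⬝ vc (A W B) = Tr (U* A W B) (Lf_mulVec_vc, Rt_mulVec_vc, star_vc_dotProduct_vc,
ev_conjTranspose): word st u ++ p.1 ++ w ++ p.2.reverse; tr_conv and TP.sum, TP.const_mul.  The limit:
the same expansion with (LT, RT) and inner_bimodule.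
co_conv: Tr of (Lf U Rt V)ᴴ (Lf A Rt B)(Lf U' Rt V') etc. factorizes (trace_Lf_mul_Rt, ev_Lf, ev_Rt):
Yᴴ = ev of (st p.1), (st p.2); total words st p.1 ++ r.1 ++ q.1 on the left and st p.2 ++ r.2 ++ q.2 on the right;
Tr = Tr ev (left word) * Tr ev (right word).reverse, divided by n²: limit tau(left) tau(right) (tau_reverse) and
inner_C with (Commute) (ev r.1 ev r.2)(ev q.1 ev q.2) = ev (r.1++q.1) ev (r.2++q.2).
-/
import Pool.Agent.H55.ML.TrConv
import Pool.Agent.H55.ML.MomC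
import Pool.Agent.H55.ML.KV

namespace Pool.Agent.H55.ML
open MeasureTheory ProbabilityTheory Polynomial Matrix

private theorem bim_comm {A : Type*} [Monoid A] {l l' r r' : A} (h1 : Commute l r)
    (h2 : Commute l r') (h3 : Commute l' r) (h4 : Commute l' r') (u v : List Bool) :
    Commute (ev l l' u) (ev r r' v) := by
  unfold ev
  refine Commute.list_prod_left _ _ (fun x hx => Commute.list_prod_right _ _ (fun y hy => ?_))
  obtain ⟨b, -, rfl⟩ := List.mem_map.1 hx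
  obtain ⟨c, -, rfl⟩ := List.mem_map.1 hy
  cases b <;> cases c <;> simp [h1, h2, h3, h4]

private theorem bim_mulmul {A : Type*} [Monoid A] {l l' r r' : A} (h1 : Commute l r)
    (h2 : Commute l r') (h3 : Commute l' r) (h4 : Commute l' r') (u v u' v' : List Bool) :
    (ev l l' u * ev r r' v) * (ev l l' u' * ev r r' v')
      = ev l l' (u ++ u') * ev r r' (v ++ v') := by
  rw [ev_append, ev_append]
  exact (bim_comm h1 h2 h3 h4 u' v).symm.mul_mul_mul_comm _ _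

private theorem bim_smul_mat {n : ℕ} (t : ℝ) (M : Op n) : t • M = (t : ℂ) • M := by
  ext i j; simp [Matrix.smul_apply]

private theorem bim_mat {n : ℕ} (Y : Mat n) (u w : List Bool) (h : ℝ[X])
    (a : (List Bool × List Bool) →₀ ℝ)
    (ha : aeval (DD Y) h = a.sum fun p t => t • (ev (Lf Y) (Lf Yᴴ) p.1 * ev (Rt Y) (Rt Yᴴ) p.2)) :
    star (vc (ev Y Yᴴ u)) ⬝ᵥ (aeval (DD Y) h *ᵥ vc (ev Y Yᴴ w)) =
      ∑ p ∈ a.support, (a p : ℂ) * (ev Y Yᴴ (st u ++ p.1 ++ w ++ p.2.reverse)).trace := by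
  rw [ha, Finsupp.sum, Matrix.sum_mulVec, dotProduct_sum]
  refine Finset.sum_congr rfl fun p _ => ?_
  rw [bim_smul_mat, Matrix.smul_mulVec, dotProduct_smul, smul_eq_mul, ← Matrix.mulVec_mulVec, ev_Rt,
    Rt_mulVec_vc, ev_Lf, Lf_mulVec_vc, star_vc_dotProduct_vc, ev_conjTranspose, ev_append, ev_append,
    ev_append]
  simp only [Matrix.mul_assoc]

private theorem bim_smul1 (t : ℝ) (T : E1 →L[ℂ] E1) (v : E1) : (t • T) v = (t : ℂ) • T v := by
  rw [Complex.coe_smul]; rfl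

private theorem bim_smul2 (t : ℝ) (T : E2 →L[ℂ] E2) (v : E2) : (t • T) v = (t : ℂ) • T v := by
  rw [Complex.coe_smul]; rfl

theorem bim_conv (u w : List Bool) (h : ℝ[X]) :
    TP (fun n g => (star (vc (ev (XX g) (XX g)ᴴ u)) ⬝ᵥ
        (aeval (DD (XX g)) h *ᵥ vc (ev (XX g) (XX g)ᴴ w))) / (n : ℂ))
      (inner ℂ (ev (LT true) (LT false) u Om1)
        ((aeval DT h) (ev (LT true) (LT false) w Om1))) := by
  obtain ⟨a, -, ha⟩ := expand h
  have hlim : inner ℂ (ev (LT true) (LT false) u Om1)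
        ((aeval DT h) (ev (LT true) (LT false) w Om1)) =
      ∑ p ∈ a.support, (a p : ℂ) * (tau (st u ++ p.1 ++ w ++ p.2.reverse) : ℂ) := by
    have hD : aeval DT h = a.sum fun p t =>
        t • (ev (LT true) (LT false) p.1 * ev (RT true) (RT false) p.2) :=
      ha (E1 →L[ℂ] E1) _ _ _ _ (commute_LT_RT _ _) (commute_LT_RT _ _) (commute_LT_RT _ _)
        (commute_LT_RT _ _)
    rw [hD, Finsupp.sum, _root_.sum_apply, inner_sum]
    refine Finset.sum_congr rfl fun p _ => ?_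
    rw [← inner_bimodule, bim_smul1, inner_smul_right]
  rw [hlim]
  refine TP.congr (TP.sum a.support (f := fun p n g => (a p : ℂ) *
    ((ev (XX g) (XX g)ᴴ (st u ++ p.1 ++ w ++ p.2.reverse)).trace / (n : ℂ)))
    (fun p _ => TP.const_mul _ (tr_conv _))) ?_
  intro n _ g
  have hD : aeval (DD (XX g)) h = a.sum fun p t => t •
      (ev (Lf (XX g)) (Lf (XX g)ᴴ) p.1 * ev (Rt (XX g)) (Rt (XX g)ᴴ) p.2) :=
    ha (Op n) _ _ _ _ (Lf_comm_Rt _ _) (Lf_comm_Rt _ _) (Lf_comm_Rt _ _) (Lf_comm_Rt _ _)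
  rw [bim_mat _ u w h a hD, Finset.sum_div]
  exact Finset.sum_congr rfl fun p _ => by rw [mul_div_assoc]

/-- the superoperator of a pair of words -/
noncomputable def Yp {n : ℕ} (g : Fin n × Fin n → ℂ) (p : List Bool × List Bool) : Op n :=
  ev (Lf (XX g)) (Lf (XX g)ᴴ) p.1 * ev (Rt (XX g)) (Rt (XX g)ᴴ) p.2

/-- the vector of a pair of words -/
noncomputable def Vp (p : List Bool × List Bool) : E2 :=
  (ev (LC true) (LC false) p.1 * ev (RC true) (RC false) p.2) Om2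

private theorem bim_Yp {n : ℕ} (g : Fin n × Fin n → ℂ) (p : List Bool × List Bool) :
    (Yp g p)ᴴ = ev (Lf (XX g)) (Lf (XX g)ᴴ) (st p.1) * ev (Rt (XX g)) (Rt (XX g)ᴴ) (st p.2) := by
  have hst : st p.2.reverse = (st p.2).reverse := by simp [st]
  unfold Yp
  rw [Matrix.conjTranspose_mul, ev_Lf, ev_Rt, Lf_conjTranspose, Rt_conjTranspose, ev_conjTranspose,
    ev_conjTranspose, hst, ev_Lf, ev_Rt]
  exact (Lf_comm_Rt _ _).symm.eq

theorem co_conv (p q : List Bool × List Bool) (h : ℝ[X]) :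
    TP (fun n g => ((Yp g p)ᴴ * aeval (DD (XX g)) h * Yp g q).trace / (n : ℂ) ^ 2)
      (inner ℂ (Vp p) ((aeval DCo h) (Vp q))) := by
  obtain ⟨a, -, ha⟩ := expand h
  have hlim : inner ℂ (Vp p) ((aeval DCo h) (Vp q)) =
      ∑ r ∈ a.support, (a r : ℂ) * ((tau (st p.1 ++ (r.1 ++ q.1)) : ℂ) *
        (tau (st p.2 ++ (r.2 ++ q.2)).reverse : ℂ)) := by
    have hD : aeval DCo h = a.sum fun p t =>
        t • (ev (LC true) (LC false) p.1 * ev (RC true) (RC false) p.2) :=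
      ha (E2 →L[ℂ] E2) _ _ _ _ (commute_LC_RC _ _) (commute_LC_RC _ _) (commute_LC_RC _ _)
        (commute_LC_RC _ _)
    rw [hD, Finsupp.sum, _root_.sum_apply, inner_sum]
    refine Finset.sum_congr rfl fun r _ => ?_
    have h1 : (ev (LC true) (LC false) r.1 * ev (RC true) (RC false) r.2) (Vp q) =
        (ev (LC true) (LC false) (r.1 ++ q.1) * ev (RC true) (RC false) (r.2 ++ q.2)) Om2 := by
      rw [← bim_mulmul (commute_LC_RC _ _) (commute_LC_RC _ _) (commute_LC_RC _ _)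
        (commute_LC_RC _ _)]
      rfl
    rw [bim_smul2, inner_smul_right, h1]
    unfold Vp
    rw [inner_C, tau_reverse]
    push_cast
    ring
  rw [hlim]
  refine TP.congr (TP.sum a.support (f := fun r n g => (a r : ℂ) *
    (((ev (XX g) (XX g)ᴴ (st p.1 ++ (r.1 ++ q.1))).trace / (n : ℂ)) *
      ((ev (XX g) (XX g)ᴴ (st p.2 ++ (r.2 ++ q.2)).reverse).trace / (n : ℂ))))
    (fun r _ => TP.const_mul _ (TP.mul (tr_conv _) (tr_conv _)))) ?_
  intro n _ g
  have hD : aeval (DD (XX g)) h = a.sum fun p t => t •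
      (ev (Lf (XX g)) (Lf (XX g)ᴴ) p.1 * ev (Rt (XX g)) (Rt (XX g)ᴴ) p.2) :=
    ha (Op n) _ _ _ _ (Lf_comm_Rt _ _) (Lf_comm_Rt _ _) (Lf_comm_Rt _ _) (Lf_comm_Rt _ _)
  rw [hD, Finsupp.sum, Finset.mul_sum, Finset.sum_mul, Matrix.trace_sum, Finset.sum_div]
  refine Finset.sum_congr rfl fun r _ => ?_
  have h2 : (Yp g p)ᴴ * (ev (Lf (XX g)) (Lf (XX g)ᴴ) r.1 * ev (Rt (XX g)) (Rt (XX g)ᴴ) r.2) *
      Yp g q = Lf (ev (XX g) (XX g)ᴴ (st p.1 ++ (r.1 ++ q.1))) *
        Rt (ev (XX g) (XX g)ᴴ (st p.2 ++ (r.2 ++ q.2)).reverse) := by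
    have hc := fun A B : Mat n => Lf_comm_Rt A B
    rw [bim_Yp, ← ev_Lf, ← ev_Rt]
    unfold Yp
    rw [Matrix.mul_assoc, bim_mulmul (hc _ _) (hc _ _) (hc _ _) (hc _ _),
      bim_mulmul (hc _ _) (hc _ _) (hc _ _) (hc _ _)]
  rw [bim_smul_mat, Matrix.mul_smul, Matrix.smul_mul, Matrix.trace_smul, h2, trace_Lf_mul_Rt,
    smul_eq_mul]
  ring

end Pool.Agent.H55.ML
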