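/-
XB (CatW).  Concatenation product of functions on words.  Needs only Defs.  About 200 lines.
cat α β w = sum over i <= |w| of α(w.take i) β(w.drop i).
cL_cat: cre b (cat α β) = cat (cre b α) β and (cat α β)(b' :: w) = α [] β(b' :: w) + cat (α (b' :: .)) β w.
cR_cat: (cat α β)(w.reverse) = cat (β ∘ reverse) (α ∘ reverse) w, then cL_cat.
Ek k = 2^(-k/2) on the words of length k (the k-th tensor power of e1 = (t+f)/√2), e2 = (t - f)/√2 on words of length 1.
inner_cat: the sum over w of (cat (Ek i) (cat e2 (Ek j)))(w) · (cat α (cat e2 β))(w), α, β of finite support.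
Proof by induction on i, with the recursive sum `Sw n F` over the words of length n.
-/
import Pool.Agent.H55.ML.Defs

namespace Pool.Agent.H55.ML

/-- concatenation product -/
noncomputable def cat (α β : List Bool → ℂ) (w : List Bool) : ℂ :=
  ∑ i ∈ Finset.range (w.length + 1), α (w.take i) * β (w.drop i)

/-- the tensor powers of `(t + f)/√2` -/
noncomputable def Ek (k : ℕ) (w : List Bool) : ℂ :=
  if w.length = k then (((1 / Real.sqrt 2) ^ k : ℝ) : ℂ) else 0

/-- the vector `(t - f)/√2` -/
noncomputable def e2 : List Bool → ℂ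
  | [true] => ((1 / Real.sqrt 2 : ℝ) : ℂ)
  | [false] => ((-(1 / Real.sqrt 2) : ℝ) : ℂ)
  | _ => 0

private theorem CatW_nil (α β : List Bool → ℂ) : cat α β [] = α [] * β [] := by
  simp [cat]

private theorem CatW_cons (α β : List Bool → ℂ) (b : Bool) (w : List Bool) :
    cat α β (b :: w) = α [] * β (b :: w) + cat (fun u => α (b :: u)) β w := by
  unfold cat
  rw [List.length_cons, Finset.sum_range_succ']
  simp only [List.take_succ_cons, List.drop_succ_cons, List.take_zero, List.drop_zero]
  rw [add_comm]

private theorem CatW_add (α α' β : List Bool → ℂ) (w : List Bool) :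
    cat (fun u => α u + α' u) β w = cat α β w + cat α' β w := by
  unfold cat
  rw [← Finset.sum_add_distrib]
  exact Finset.sum_congr rfl fun i _ => by ring

private theorem CatW_mul (c : ℂ) (α β : List Bool → ℂ) (w : List Bool) :
    cat (fun u => c * α u) β w = c * cat α β w := by
  unfold cat
  rw [Finset.mul_sum]
  exact Finset.sum_congr rfl fun i _ => by ring

private theorem CatW_zero (β : List Bool → ℂ) (w : List Bool) :
    cat (fun _ => 0) β w = 0 := by
  unfold cat
  simp

theorem cL_cat (b : Bool) (α β : List Bool → ℂ) (h : α [] = 0) :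
    cL b (cat α β) = cat (cL b α) β := by
  funext w
  cases w with
  | nil =>
    simp only [cL, cre, CatW_nil, CatW_cons, h]
    ring
  | cons a w =>
    have h1 : cat α β ((!b) :: a :: w) = cat (fun u => α ((!b) :: u)) β (a :: w) := by
      rw [CatW_cons, h]
      ring
    have h2 : cat (cL b α) β (a :: w) = α [!b] * β (a :: w) +
        ((if a = b then cat α β w else 0) + cat (fun u => α ((!b) :: a :: u)) β w) := by
      rw [CatW_cons]
      have h3 : (fun u => cL b α (a :: u)) = fun u => (if a = b then (1 : ℂ) else 0) * α u +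
          α ((!b) :: a :: u) := by
        funext u
        simp only [cL, cre]
        split_ifs <;> simp
      rw [h3, CatW_add, CatW_mul]
      have h4 : cL b α [] = α [!b] := by simp [cL, cre]
      rw [h4]
      split_ifs <;> simp
    rw [h2]
    show cre b (cat α β) (a :: w) + cat α β ((!b) :: a :: w) = _
    rw [h1, CatW_cons]
    show (if a = b then cat α β w else 0) + _ = _
    ring

private theorem CatW_rev (α β : List Bool → ℂ) (u : List Bool) :
    cat α β u.reverse = cat (fun v => β v.reverse) (fun v => α v.reverse) u := by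
  unfold cat
  rw [List.length_reverse, ← Finset.sum_flip]
  refine Finset.sum_congr rfl fun i hi => ?_
  have hi' : i ≤ u.length := Nat.lt_succ_iff.1 (Finset.mem_range.1 hi)
  rw [List.take_reverse, List.drop_reverse, Nat.sub_sub_self hi']
  ring

theorem cR_cat (b : Bool) (α β : List Bool → ℂ) (h : β [] = 0) :
    cR b (cat α β) = cat α (cR b β) := by
  funext w
  have h1 : (fun u => cat α β u.reverse) = cat (fun v => β v.reverse) (fun v => α v.reverse) := by
    funext u
    exact CatW_rev α β u
  show cL b (fun u => cat α β u.reverse) w.reverse = _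
  rw [h1, cL_cat b _ _ (by simpa using h), CatW_rev]
  simp only [List.reverse_reverse]
  rfl

theorem cat_assoc (α β γ : List Bool → ℂ) : cat (cat α β) γ = cat α (cat β γ) := by
  funext w
  induction w generalizing α β with
  | nil =>
    simp only [CatW_nil]
    ring
  | cons b w ih =>
    rw [CatW_cons, CatW_nil, CatW_cons α, CatW_cons β]
    have h1 : (fun u => cat α β (b :: u)) =
        fun u => α [] * β (b :: u) + cat (fun v => α (b :: v)) β u := by
      funext u
      rw [CatW_cons]
    rw [h1, CatW_add, CatW_mul, ← ih]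
    ring

/-- `cat α β` is supported on finitely many words if `α` and `β` are -/
theorem cat_supp (α β : List Bool → ℂ) (m : ℕ) (hα : ∀ w, m < w.length → α w = 0)
    (hβ : ∀ w, m < w.length → β w = 0) : ∀ w, 2 * m < w.length → cat α β w = 0 := by
  intro w hw
  unfold cat
  refine Finset.sum_eq_zero fun i hi => ?_
  have hi' : i ≤ w.length := Nat.lt_succ_iff.1 (Finset.mem_range.1 hi)
  by_cases h : m < i
  · rw [hα _ (by rw [List.length_take]; omega), zero_mul]
  · rw [hβ _ (by rw [List.length_drop]; omega), mul_zero]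

/-- sum over the words of length `n` -/
private noncomputable def Sw : ℕ → (List Bool → ℂ) → ℂ
  | 0, F => F []
  | n + 1, F => Sw n (fun w => F (true :: w)) + Sw n (fun w => F (false :: w))

private theorem Sw_add (n : ℕ) (F G : List Bool → ℂ) :
    Sw n (fun w => F w + G w) = Sw n F + Sw n G := by
  induction n generalizing F G with
  | zero => rfl
  | succ n ih =>
    simp only [Sw]
    rw [ih, ih]
    ring

private theorem Sw_mul (n : ℕ) (c : ℂ) (F : List Bool → ℂ) :
    Sw n (fun w => c * F w) = c * Sw n F := by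
  induction n generalizing F with
  | zero => rfl
  | succ n ih =>
    simp only [Sw]
    rw [ih, ih]
    ring

private theorem Sw_succ (n : ℕ) (F : List Bool → ℂ) :
    Sw (n + 1) F = Sw n (fun w => F (true :: w)) + Sw n (fun w => F (false :: w)) := rfl

/-- the words of length `n` -/
private def Wd : ℕ → Finset (List Bool)
  | 0 => {[]}
  | n + 1 => (Wd n).map ⟨fun w => true :: w, List.cons_injective⟩ ∪
      (Wd n).map ⟨fun w => false :: w, List.cons_injective⟩

private theorem mem_Wd (n : ℕ) (w : List Bool) : w ∈ Wd n ↔ w.length = n := by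
  induction n generalizing w with
  | zero => simp [Wd]
  | succ n ih =>
    simp only [Wd, Finset.mem_union, Finset.mem_map, Function.Embedding.coeFn_mk, ih]
    cases w with
    | nil => simp
    | cons a w =>
      cases a <;> simp

private theorem sum_Wd (n : ℕ) (F : List Bool → ℂ) : ∑ w ∈ Wd n, F w = Sw n F := by
  induction n generalizing F with
  | zero => simp [Wd, Sw]
  | succ n ih =>
    simp only [Wd, Sw]
    rw [Finset.sum_union, Finset.sum_map, Finset.sum_map, ← ih, ← ih]
    · rfl
    · rw [Finset.disjoint_left]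
      intro w h1 h2
      simp only [Finset.mem_map, Function.Embedding.coeFn_mk] at h1 h2
      obtain ⟨u, -, rfl⟩ := h1
      obtain ⟨v, -, h3⟩ := h2
      simp at h3

private theorem tsum_Sw (n : ℕ) (F : List Bool → ℂ) (hF : ∀ w, w.length ≠ n → F w = 0) :
    ∑' w, F w = Sw n F := by
  rw [← sum_Wd]
  exact tsum_eq_sum fun w hw => hF w fun h => hw ((mem_Wd n w).2 h)

private theorem CatW_supp (α β : List Bool → ℂ) (p q : ℕ) (hα : ∀ w, w.length ≠ p → α w = 0)
    (hβ : ∀ w, w.length ≠ q → β w = 0) : ∀ w, w.length ≠ p + q → cat α β w = 0 := by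
  intro w hw
  unfold cat
  refine Finset.sum_eq_zero fun i hi => ?_
  have hi' : i ≤ w.length := Nat.lt_succ_iff.1 (Finset.mem_range.1 hi)
  by_cases h : i = p
  · rw [hβ _ (by rw [List.length_drop]; omega), mul_zero]
  · rw [hα _ (by rw [List.length_take]; omega), zero_mul]

private theorem Ek_supp (k : ℕ) : ∀ w, w.length ≠ k → Ek k w = 0 := by
  intro w hw
  simp [Ek, hw]

private theorem e2_supp : ∀ w, w.length ≠ 1 → e2 w = 0 := by
  intro w hw
  match w, hw with
  | [], _ => rfl
  | [a], h => exact absurd rfl h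
  | a :: b :: w, _ => cases a <;> rfl

private theorem e2_nil : e2 [] = 0 := rfl

private theorem cat_e2_cons (β : List Bool → ℂ) (b : Bool) (w : List Bool) :
    cat e2 β (b :: w) = e2 [b] * β w := by
  rw [CatW_cons, e2_nil, zero_mul, zero_add]
  cases w with
  | nil => rw [CatW_nil]
  | cons a w =>
    rw [CatW_cons]
    have : (fun u => e2 (b :: a :: u)) = fun _ => 0 := by
      funext u
      exact e2_supp _ (by simp)
    rw [this, CatW_zero, add_zero]

private theorem e2_sum : e2 [true] + e2 [false] = 0 := by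
  simp only [e2]
  push_cast
  ring

private theorem sq2 : (((1 / Real.sqrt 2 : ℝ)) : ℂ) * (((1 / Real.sqrt 2 : ℝ)) : ℂ) = 1 / 2 := by
  rw [← Complex.ofReal_mul]
  have h : (1 / Real.sqrt 2) * (1 / Real.sqrt 2) = (1 / 2 : ℝ) := by
    rw [div_mul_div_comm, Real.mul_self_sqrt (by norm_num)]
    norm_num
  rw [h]
  push_cast
  rfl

private theorem e2_sq : e2 [true] * e2 [true] + e2 [false] * e2 [false] = 1 := by
  have h1 : e2 [true] * e2 [true] = 1 / 2 := sq2
  have h2 : e2 [false] = - e2 [true] := by
    have := e2_sum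
    exact eq_neg_of_add_eq_zero_right this
  rw [h2, neg_mul_neg, h1]
  norm_num

private theorem Ek_cons (k : ℕ) (b : Bool) (w : List Bool) :
    Ek (k + 1) (b :: w) = ((1 / Real.sqrt 2 : ℝ) : ℂ) * Ek k w := by
  unfold Ek
  by_cases h : w.length = k
  · simp only [List.length_cons, h, if_true]
    rw [pow_succ', Complex.ofReal_mul]
  · simp [List.length_cons, h]

private theorem Ek_nil (k : ℕ) : Ek (k + 1) [] = 0 := Ek_supp _ _ (by simp)

private theorem Ek_zero_nil : Ek 0 [] = 1 := by simp [Ek]

private theorem cat_Ek_zero (β : List Bool → ℂ) (w : List Bool) : cat (Ek 0) β w = β w := by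
  cases w with
  | nil => rw [CatW_nil, Ek_zero_nil, one_mul]
  | cons b w =>
    rw [CatW_cons, Ek_zero_nil, one_mul]
    have : (fun u => Ek 0 (b :: u)) = fun _ => 0 := by
      funext u
      exact Ek_supp _ _ (by simp)
    rw [this, CatW_zero, add_zero]

private theorem B_cons (γ β : List Bool → ℂ) (b : Bool) (w : List Bool) :
    cat γ (cat e2 β) (b :: w) =
      γ [] * e2 [b] * β w + cat (fun u => γ (b :: u)) (cat e2 β) w := by
  rw [CatW_cons, cat_e2_cons]
  ring

private theorem S_E_B (j : ℕ) (γ β : List Bool → ℂ) :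
    Sw j (fun w => Ek j w * cat γ (cat e2 β) w) = 0 := by
  induction j generalizing γ with
  | zero =>
    simp only [Sw, CatW_nil, e2_nil]
    ring
  | succ j ih =>
    simp only [Sw]
    have key : ∀ b : Bool, Sw j (fun w => Ek (j + 1) (b :: w) * cat γ (cat e2 β) (b :: w)) =
        ((1 / Real.sqrt 2 : ℝ) : ℂ) * γ [] * Sw j (fun w => Ek j w * β w) * e2 [b] := by
      intro b
      have h1 : (fun w => Ek (j + 1) (b :: w) * cat γ (cat e2 β) (b :: w)) = fun w =>
          (((1 / Real.sqrt 2 : ℝ) : ℂ) * γ [] * e2 [b]) * (Ek j w * β w) +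
          ((1 / Real.sqrt 2 : ℝ) : ℂ) * (Ek j w * cat (fun u => γ (b :: u)) (cat e2 β) w) := by
        funext w
        rw [Ek_cons, B_cons]
        ring
      rw [h1, Sw_add, Sw_mul, Sw_mul, ih]
      ring
    rw [key, key, ← mul_add, e2_sum, mul_zero]

private theorem S_A_B (i j : ℕ) (α β : List Bool → ℂ) :
    Sw (i + j + 1) (fun w => cat (Ek i) (cat e2 (Ek j)) w * cat α (cat e2 β) w) =
      Sw i (fun w => Ek i w * α w) * Sw j (fun w => Ek j w * β w) := by
  induction i generalizing α with
  | zero =>
    rw [zero_add]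
    simp only [Sw]
    have key : ∀ b : Bool, Sw j (fun w => cat (Ek 0) (cat e2 (Ek j)) (b :: w) *
        cat α (cat e2 β) (b :: w)) =
        α [] * Sw j (fun w => Ek j w * β w) * (e2 [b] * e2 [b]) := by
      intro b
      have h1 : (fun w => cat (Ek 0) (cat e2 (Ek j)) (b :: w) * cat α (cat e2 β) (b :: w)) = fun w =>
          (e2 [b] * (α [] * e2 [b])) * (Ek j w * β w) +
          e2 [b] * (Ek j w * cat (fun u => α (b :: u)) (cat e2 β) w) := by
        funext w
        rw [cat_Ek_zero, cat_e2_cons, B_cons]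
        ring
      rw [h1, Sw_add, Sw_mul, Sw_mul, S_E_B]
      ring
    rw [key, key, ← mul_add, e2_sq, Ek_zero_nil]
    ring
  | succ i ih =>
    rw [show i + 1 + j + 1 = (i + j + 1) + 1 by ring, Sw_succ (i + j + 1), Sw_succ i]
    have key : ∀ b : Bool, Sw (i + j + 1) (fun w => cat (Ek (i + 1)) (cat e2 (Ek j)) (b :: w) *
        cat α (cat e2 β) (b :: w)) =
        (((1 / Real.sqrt 2 : ℝ) : ℂ) * α [] *
          Sw (i + j + 1) (fun w => cat (Ek i) (cat e2 (Ek j)) w * β w)) * e2 [b] +
        ((1 / Real.sqrt 2 : ℝ) : ℂ) * (Sw i (fun w => Ek i w * α (b :: w)) *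
          Sw j (fun w => Ek j w * β w)) := by
      intro b
      have h1 : (fun w => cat (Ek (i + 1)) (cat e2 (Ek j)) (b :: w) *
          cat α (cat e2 β) (b :: w)) = fun w =>
          (((1 / Real.sqrt 2 : ℝ) : ℂ) * (α [] * e2 [b])) *
            (cat (Ek i) (cat e2 (Ek j)) w * β w) +
          ((1 / Real.sqrt 2 : ℝ) : ℂ) * (cat (Ek i) (cat e2 (Ek j)) w *
            cat (fun u => α (b :: u)) (cat e2 β) w) := by
        funext w
        have h2 : (fun u => Ek (i + 1) (b :: u)) = fun u => ((1 / Real.sqrt 2 : ℝ) : ℂ) * Ek i u := by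
          funext u
          exact Ek_cons i b u
        rw [CatW_cons (Ek (i + 1)), Ek_nil, h2, CatW_mul, B_cons]
        ring
      rw [h1, Sw_add, Sw_mul, Sw_mul, ih]
      ring
    have h3 : ∀ b : Bool, Sw i (fun w => Ek (i + 1) (b :: w) * α (b :: w)) =
        ((1 / Real.sqrt 2 : ℝ) : ℂ) * Sw i (fun w => Ek i w * α (b :: w)) := by
      intro b
      rw [← Sw_mul]
      congr 1
      funext w
      rw [Ek_cons]
      ring
    rw [key, key, h3, h3]
    have h4 := e2_sum
    linear_combination (((1 / Real.sqrt 2 : ℝ) : ℂ) * α [] *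
          Sw (i + j + 1) (fun w => cat (Ek i) (cat e2 (Ek j)) w * β w)) * h4

theorem inner_cat (i j : ℕ) (α β : List Bool → ℂ) (m : ℕ)
    (hα : ∀ w, m < w.length → α w = 0) (hβ : ∀ w, m < w.length → β w = 0) :
    ∑' w, cat (Ek i) (cat e2 (Ek j)) w * cat α (cat e2 β) w
      = (∑' x, Ek i x * α x) * (∑' y, Ek j y * β y) := by
  rw [tsum_Sw i (fun x => Ek i x * α x) fun w hw => by rw [Ek_supp i w hw, zero_mul],
    tsum_Sw j (fun x => Ek j x * β x) fun w hw => by rw [Ek_supp j w hw, zero_mul],
    tsum_Sw (i + j + 1) (fun w => cat (Ek i) (cat e2 (Ek j)) w * cat α (cat e2 β) w)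
      fun w hw => ?_, S_A_B]
  rw [CatW_supp (Ek i) (cat e2 (Ek j)) i (1 + j) (Ek_supp i)
    (CatW_supp e2 (Ek j) 1 j e2_supp (Ek_supp j)) w (by omega), zero_mul]

end Pool.Agent.H55.ML
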