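/-
S0 (Core).  Chaos decomposition for a symmetric operator with a triangular filtration, purely algebraic.
MATHLIB ONLY.  About 200 lines.
STATEMENT.  B positive semidefinite Hermitian form, T symmetric, V 0 = 0 <= V 1 <= ..., T x - c^k x ∈ V k for
x ∈ V (k+1), 0 < c < 1.  Then every F ∈ V Q has G ∈ V q with (1 - c^q) B(F-G,F-G) <= B(F,F) - Re B(F,TF).
PROOF.  (1) DECOMPOSITION: by induction on Q: every F ∈ V Q is a sum F = sum_{k<Q} F_k with F_k ∈ V (k+1) and
T F_k = c^k F_k.  Step: for x ∈ V (Q+1) we look for y ∈ V Q with T (x - y) = c^Q (x - y), i.e.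
(T - c^Q) y = (T - c^Q) x =: r ∈ V Q.  By the hypothesis for Q, r = sum_{k<Q} r_k, T r_k = c^k r_k, and
y = sum r_k / (c^k - c^Q) works (c^k ≠ c^Q).  Then F_Q = x - y ∈ V (Q+1) and y ∈ V Q is decomposed by the hypothesis.
(2) ORTHOGONALITY: c^j B(F_j, F_k) = B(T F_j, F_k) = B(F_j, T F_k) = c^k B(F_j, F_k), so B(F_j, F_k) = 0 for j ≠ k.
(3) G = sum_{k < min(q,Q)} F_k ∈ V q (V monotone).  B(F,F) - Re B(F,TF) = sum_k (1 - c^k) B(F_k,F_k) >=
(1 - c^q) sum_{k >= q} B(F_k,F_k) = (1 - c^q) B(F-G, F-G)  (c^k <= c^q for k >= q, all terms >= 0).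
-/
import Mathlib

namespace Pool.Agent.H55.ML
open scoped ComplexConjugate

private lemma decomp {M : Type*} [AddCommGroup M] [Module ℂ M] (T : M →ₗ[ℂ] M) (c : ℝ)
    (hc0 : 0 < c) (hc1 : c < 1) (V : ℕ → Submodule ℂ M) (hV0 : V 0 = ⊥) (hV : Monotone V)
    (hTV : ∀ k, ∀ x ∈ V (k + 1), T x - ((c : ℂ) ^ k) • x ∈ V k) (Q : ℕ) :
    ∀ F ∈ V Q, ∃ f : ℕ → M, (∀ k < Q, f k ∈ V (k + 1)) ∧
      (∀ k < Q, T (f k) = ((c : ℂ) ^ k) • f k) ∧ F = ∑ k ∈ Finset.range Q, f k := by
  induction Q with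
  | zero =>
    intro F hF
    rw [hV0, Submodule.mem_bot] at hF
    exact ⟨fun _ => 0, fun k hk => absurd hk (Nat.not_lt_zero k),
      fun k hk => absurd hk (Nat.not_lt_zero k), by simpa using hF⟩
  | succ Q ih =>
    intro F hF
    obtain ⟨r, hr1, hr2, hr3⟩ := ih _ (hTV Q F hF)
    have hne : ∀ k < Q, (c : ℂ) ^ k - (c : ℂ) ^ Q ≠ 0 := by
      intro k hk h0
      have h1 : c ^ Q < c ^ k := pow_lt_pow_right_of_lt_one₀ hc0 hc1 hk
      have h2 : (c : ℂ) ^ k = (c : ℂ) ^ Q := sub_eq_zero.1 h0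
      have h3 : c ^ k = c ^ Q := by exact_mod_cast h2
      exact absurd h3 h1.ne'
    set y : M := ∑ k ∈ Finset.range Q, ((c : ℂ) ^ k - (c : ℂ) ^ Q)⁻¹ • r k with hy
    have hyV : y ∈ V Q := by
      refine Submodule.sum_mem _ fun k hk => Submodule.smul_mem _ _ ?_
      have hk' := Finset.mem_range.1 hk
      exact hV (Nat.succ_le_of_lt hk') (hr1 k hk')
    have hTy : T y - ((c : ℂ) ^ Q) • y = T F - ((c : ℂ) ^ Q) • F := by
      rw [hr3, hy, map_sum, Finset.smul_sum, ← Finset.sum_sub_distrib]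
      refine Finset.sum_congr rfl fun k hk => ?_
      have hk' := Finset.mem_range.1 hk
      rw [map_smul, hr2 k hk', smul_smul, smul_smul, ← sub_smul, mul_comm ((c : ℂ) ^ Q),
        ← mul_sub, inv_mul_cancel₀ (hne k hk'), one_smul]
    refine ⟨fun k => if k < Q then ((c : ℂ) ^ k - (c : ℂ) ^ Q)⁻¹ • r k else F - y, ?_, ?_, ?_⟩
    · intro k hk
      dsimp only
      split_ifs with h
      · exact Submodule.smul_mem _ _ (hr1 k h)
      · have hkQ : k = Q := by omega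
        subst hkQ
        exact Submodule.sub_mem _ hF (hV (Nat.le_succ k) hyV)
    · intro k hk
      dsimp only
      split_ifs with h
      · rw [map_smul, hr2 k h, smul_comm]
      · have hkQ : k = Q := by omega
        subst hkQ
        rw [map_sub, smul_sub]
        have h1 : T F = T y - ((c : ℂ) ^ k) • y + ((c : ℂ) ^ k) • F := by
          rw [hTy]; abel
        rw [h1]
        abel
    · rw [Finset.sum_range_succ]
      rw [if_neg (lt_irrefl Q)]
      have h1 : ∑ k ∈ Finset.range Q,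
          (if k < Q then ((c : ℂ) ^ k - (c : ℂ) ^ Q)⁻¹ • r k else F - y) = y := by
        rw [hy]
        refine Finset.sum_congr rfl fun k hk => ?_
        rw [if_pos (Finset.mem_range.1 hk)]
      rw [h1]
      abel

theorem core {M : Type*} [AddCommGroup M] [Module ℂ M] (B : M → M → ℂ)
    (hadd : ∀ x y z, B (x + y) z = B x z + B y z) (hsmul : ∀ (a : ℂ) x y, B (a • x) y = conj a * B x y)
    (hsymm : ∀ x y, B y x = conj (B x y)) (hpos : ∀ x, 0 ≤ (B x x).re)
    (T : M →ₗ[ℂ] M) (hT : ∀ x y, B (T x) y = B x (T y)) (c : ℝ) (hc0 : 0 < c) (hc1 : c < 1)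
    (V : ℕ → Submodule ℂ M) (hV0 : V 0 = ⊥) (hV : Monotone V)
    (hTV : ∀ k, ∀ x ∈ V (k + 1), T x - ((c : ℂ) ^ k) • x ∈ V k)
    (Q : ℕ) (F : M) (hF : F ∈ V Q) (q : ℕ) :
    ∃ G ∈ V q, (1 - c ^ q) * (B (F - G) (F - G)).re ≤ (B F F).re - (B F (T F)).re := by
  classical
  obtain ⟨f, hf1, hf2, hf3⟩ := decomp T c hc0 hc1 V hV0 hV hTV Q F hF
  have hcc : ∀ k : ℕ, conj ((c : ℂ) ^ k) = (c : ℂ) ^ k := by
    intro k
    rw [map_pow, Complex.conj_ofReal]
  have hsmul2 : ∀ (a : ℂ) x y, B x (a • y) = a * B x y := by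
    intro a x y
    rw [hsymm (a • y) x, hsmul, map_mul, Complex.conj_conj, ← hsymm y x]
  have hadd2 : ∀ x y z, B z (x + y) = B z x + B z y := by
    intro x y z
    rw [hsymm (x + y) z, hadd, map_add, ← hsymm x z, ← hsymm y z]
  -- additive maps
  let Bl : M → (M →+ ℂ) := fun y => AddMonoidHom.mk' (fun x => B x y) (fun a b => hadd a b y)
  let Br : M → (M →+ ℂ) := fun x => AddMonoidHom.mk' (fun y => B x y) (fun a b => hadd2 a b x)
  have hBl : ∀ (s : Finset ℕ) (g : ℕ → M) (y : M), B (∑ k ∈ s, g k) y = ∑ k ∈ s, B (g k) y :=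
    fun s g y => map_sum (Bl y) g s
  have hBr : ∀ (s : Finset ℕ) (g : ℕ → M) (x : M), B x (∑ k ∈ s, g k) = ∑ k ∈ s, B x (g k) :=
    fun s g x => map_sum (Br x) g s
  have horth : ∀ j < Q, ∀ k < Q, j ≠ k → B (f j) (f k) = 0 := by
    intro j hj k hk hjk
    have h1 := hT (f j) (f k)
    rw [hf2 j hj, hf2 k hk, hsmul, hsmul2, hcc] at h1
    have h2 : ((c : ℂ) ^ j - (c : ℂ) ^ k) * B (f j) (f k) = 0 := by
      rw [sub_mul, h1, sub_self]
    rcases mul_eq_zero.1 h2 with h3 | h3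
    · exfalso
      have h4 : c ^ j = c ^ k := by exact_mod_cast sub_eq_zero.1 h3
      exact hjk (pow_right_injective₀ hc0 hc1.ne h4)
    · exact h3
  have hsum : ∀ s : Finset ℕ, s ⊆ Finset.range Q → ∀ a : ℕ → ℂ,
      B (∑ k ∈ s, f k) (∑ k ∈ s, a k • f k) = ∑ k ∈ s, a k * B (f k) (f k) := by
    intro s hs a
    rw [hBl]
    refine Finset.sum_congr rfl fun j hj => ?_
    rw [hBr, Finset.sum_eq_single j]
    · rw [hsmul2]
    · intro k hk hkj
      rw [hsmul2, horth j (Finset.mem_range.1 (hs hj)) k (Finset.mem_range.1 (hs hk)) hkj.symm,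
        mul_zero]
    · intro h
      exact absurd hj h
  have hone : ∀ s : Finset ℕ, s ⊆ Finset.range Q →
      B (∑ k ∈ s, f k) (∑ k ∈ s, f k) = ∑ k ∈ s, B (f k) (f k) := by
    intro s hs
    have := hsum s hs (fun _ => 1)
    simpa using this
  set s1 := (Finset.range Q).filter (fun k => k < q) with hs1
  set s2 := (Finset.range Q).filter (fun k => ¬ k < q) with hs2
  have hsplit : ∑ k ∈ s1, f k + ∑ k ∈ s2, f k = F := by
    rw [hf3]
    exact Finset.sum_filter_add_sum_filter_not _ _ _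
  refine ⟨∑ k ∈ s1, f k, ?_, ?_⟩
  · refine Submodule.sum_mem _ fun k hk => ?_
    rw [hs1, Finset.mem_filter, Finset.mem_range] at hk
    exact hV (Nat.succ_le_of_lt hk.2) (hf1 k hk.1)
  · have hFG : F - ∑ k ∈ s1, f k = ∑ k ∈ s2, f k := by
      rw [← hsplit]; abel
    have hs2Q : s2 ⊆ Finset.range Q := Finset.filter_subset _ _
    have hTF : T F = ∑ k ∈ Finset.range Q, ((c : ℂ) ^ k) • f k := by
      rw [hf3, map_sum]
      exact Finset.sum_congr rfl fun k hk => hf2 k (Finset.mem_range.1 hk)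
    have h1 : (B F F).re = ∑ k ∈ Finset.range Q, (B (f k) (f k)).re := by
      rw [hf3, hone _ (Finset.Subset.refl _), Complex.re_sum]
    have h2 : (B F (T F)).re = ∑ k ∈ Finset.range Q, c ^ k * (B (f k) (f k)).re := by
      rw [hTF]
      conv_lhs => rw [hf3]
      rw [hsum _ (Finset.Subset.refl _), Complex.re_sum]
      refine Finset.sum_congr rfl fun k _ => ?_
      rw [← Complex.ofReal_pow, Complex.re_ofReal_mul]
    have h3 : (B (∑ k ∈ s2, f k) (∑ k ∈ s2, f k)).re = ∑ k ∈ s2, (B (f k) (f k)).re := by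
      rw [hone _ hs2Q, Complex.re_sum]
    rw [hFG, h1, h2, h3, ← Finset.sum_sub_distrib, Finset.mul_sum]
    calc ∑ k ∈ s2, (1 - c ^ q) * (B (f k) (f k)).re
        ≤ ∑ k ∈ s2, ((B (f k) (f k)).re - c ^ k * (B (f k) (f k)).re) := by
          refine Finset.sum_le_sum fun k hk => ?_
          rw [hs2, Finset.mem_filter, Finset.mem_range, not_lt] at hk
          have h4 : c ^ k ≤ c ^ q := pow_le_pow_of_le_one hc0.le hc1.le hk.2
          have h5 := mul_le_mul_of_nonneg_right h4 (hpos (f k))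
          linarith
      _ ≤ ∑ k ∈ Finset.range Q, ((B (f k) (f k)).re - c ^ k * (B (f k) (f k)).re) := by
          refine Finset.sum_le_sum_of_subset_of_nonneg hs2Q fun k _ _ => ?_
          have h4 : c ^ k ≤ 1 := pow_le_one₀ hc0.le hc1.le
          have h5 := mul_le_mul_of_nonneg_right h4 (hpos (f k))
          linarith

end Pool.Agent.H55.ML
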