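/-
G4 (Rot).  Rotation invariance of the pair of independent Gaussian families.  Defs only.  About 150 lines.
PROOF.  Characteristic functions on the dual: for L on (ι → ℂ) × (ι → ℂ) the charFunDual of
(gin n).prod (gin n) is the exponential of -(1/4) times the sum of the squares of the values of L at the
real coordinate vectors; the rotation acts on these values by a rotation; Measure.ext_of_charFunDual.
-/
import Pool.Agent.H55.ML.Defs

namespace Pool.Agent.H55.ML
open MeasureTheory ProbabilityTheory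

/-- the pair `(c g + s g', s g - c g')` -/
def rotP {ι : Type} (c s : ℝ) (p : (ι → ℂ) × (ι → ℂ)) : (ι → ℂ) × (ι → ℂ) :=
  ((c : ℂ) • p.1 + (s : ℂ) • p.2, (s : ℂ) • p.1 - (c : ℂ) • p.2)

theorem rotP_rotP {ι : Type} (c s : ℝ) (h : c ^ 2 + s ^ 2 = 1) (p : (ι → ℂ) × (ι → ℂ)) :
    rotP c s (rotP c s p) = p := by
  have h' : (c : ℂ) ^ 2 + (s : ℂ) ^ 2 = 1 := by exact_mod_cast h
  ext i
  · simp only [rotP, Pi.add_apply, Pi.smul_apply, Pi.sub_apply, smul_eq_mul]
    linear_combination (p.1 i) * h'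
  · simp only [rotP, Pi.add_apply, Pi.smul_apply, Pi.sub_apply, smul_eq_mul]
    linear_combination (p.2 i) * h'

private lemma cfd_gauss (L : StrongDual ℝ ℝ) :
    charFunDual (gaussianReal 0 1) L = Complex.exp (-((L 1 : ℝ) : ℂ) ^ 2 / 2) := by
  have h1 : charFunDual (gaussianReal 0 1) L = charFun (gaussianReal 0 1) (L 1) := by
    rw [charFunDual_apply, charFun_apply_real]
    congr 1
    ext v
    have : L v = L 1 * v := by
      have := L.map_smul v 1
      simp only [smul_eq_mul, mul_one] at this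
      rw [this, mul_comm]
    rw [this]
    push_cast
    rfl
  rw [h1, charFun_gaussianReal]
  congr 1
  push_cast
  ring

private noncomputable def toC : ℝ × ℝ →L[ℝ] ℂ :=
  (ContinuousLinearMap.fst ℝ ℝ ℝ).smulRight ((1 : ℂ) / (Real.sqrt 2 : ℂ)) +
    (ContinuousLinearMap.snd ℝ ℝ ℝ).smulRight (Complex.I / (Real.sqrt 2 : ℂ))

private lemma stdC_eq : stdC = ((gaussianReal 0 1).prod (gaussianReal 0 1)).map toC := by
  unfold stdC
  congr 1
  ext p
  simp only [toC, _root_.add_apply, ContinuousLinearMap.smulRight_apply,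
    ContinuousLinearMap.coe_fst', ContinuousLinearMap.coe_snd', Complex.real_smul]
  ring

private instance : IsProbabilityMeasure stdC := by
  rw [stdC_eq]
  exact Measure.isProbabilityMeasure_map toC.continuous.aemeasurable

private lemma cfd_stdC (L : StrongDual ℝ ℂ) :
    charFunDual stdC L
      = Complex.exp (-(((L 1 : ℝ) : ℂ) ^ 2 + ((L Complex.I : ℝ) : ℂ) ^ 2) / 4) := by
  rw [stdC_eq, charFunDual_map, charFunDual_prod, cfd_gauss, cfd_gauss, ← Complex.exp_add]
  have h2 : (Real.sqrt 2) ^ 2 = 2 := Real.sq_sqrt (by norm_num)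
  have hs : Real.sqrt 2 ≠ 0 := by positivity
  have e1 : ((L.comp toC).comp (ContinuousLinearMap.inl ℝ ℝ ℝ)) 1 = L 1 / Real.sqrt 2 := by
    have : toC ((1 : ℝ), (0 : ℝ)) = (1 / Real.sqrt 2 : ℝ) • (1 : ℂ) := by
      simp [toC, Complex.real_smul]
    simp only [ContinuousLinearMap.comp_apply, ContinuousLinearMap.inl_apply, this, map_smul,
      smul_eq_mul]
    ring
  have e2 : ((L.comp toC).comp (ContinuousLinearMap.inr ℝ ℝ ℝ)) 1
      = L Complex.I / Real.sqrt 2 := by
    have : toC ((0 : ℝ), (1 : ℝ)) = (1 / Real.sqrt 2 : ℝ) • Complex.I := by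
      simp [toC, Complex.real_smul]
      ring
    simp only [ContinuousLinearMap.comp_apply, ContinuousLinearMap.inr_apply, this, map_smul,
      smul_eq_mul]
    ring
  rw [e1, e2]
  congr 1
  push_cast
  have h2' : ((Real.sqrt 2 : ℝ) : ℂ) ^ 2 = 2 := by exact_mod_cast h2
  rw [div_pow, div_pow, h2']
  ring

private lemma cfd_gin (n : ℕ) (L : StrongDual ℝ (Fin n × Fin n → ℂ)) :
    charFunDual (gin n) L = Complex.exp (∑ i : Fin n × Fin n,
      -(((L (Pi.single i 1) : ℝ) : ℂ) ^ 2 + ((L (Pi.single i Complex.I) : ℝ) : ℂ) ^ 2) / 4) := by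
  unfold gin
  rw [charFunDual_pi, Complex.exp_sum]
  refine Finset.prod_congr rfl fun i _ => ?_
  rw [cfd_stdC]
  rfl

private instance (n : ℕ) : IsProbabilityMeasure (gin n) := by
  unfold gin; infer_instance

private noncomputable def rotL (n : ℕ) (c s : ℝ) :
    ((Fin n × Fin n → ℂ) × (Fin n × Fin n → ℂ)) →L[ℝ]
      ((Fin n × Fin n → ℂ) × (Fin n × Fin n → ℂ)) :=
  (c • ContinuousLinearMap.fst ℝ (Fin n × Fin n → ℂ) (Fin n × Fin n → ℂ) +
    s • ContinuousLinearMap.snd ℝ (Fin n × Fin n → ℂ) (Fin n × Fin n → ℂ)).prod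
  (s • ContinuousLinearMap.fst ℝ (Fin n × Fin n → ℂ) (Fin n × Fin n → ℂ) -
    c • ContinuousLinearMap.snd ℝ (Fin n × Fin n → ℂ) (Fin n × Fin n → ℂ))

private lemma rotP_eq (n : ℕ) (c s : ℝ) :
    (rotP c s : (Fin n × Fin n → ℂ) × (Fin n × Fin n → ℂ) → _) = rotL n c s := by
  ext p i
  · simp [rotP, rotL, Complex.real_smul]
  · simp [rotP, rotL, Complex.real_smul]

theorem measurePreserving_rotP (n : ℕ) (c s : ℝ) (h : c ^ 2 + s ^ 2 = 1) :
    MeasurePreserving (rotP c s) ((gin n).prod (gin n)) ((gin n).prod (gin n)) := by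
  rw [rotP_eq]
  refine ⟨(rotL n c s).continuous.measurable, ?_⟩
  have : IsProbabilityMeasure (((gin n).prod (gin n)).map (rotL n c s)) :=
    Measure.isProbabilityMeasure_map (rotL n c s).continuous.aemeasurable
  refine Measure.ext_of_charFunDual (funext fun L => ?_)
  rw [charFunDual_map, charFunDual_prod, charFunDual_prod, cfd_gin, cfd_gin, cfd_gin, cfd_gin,
    ← Complex.exp_add, ← Complex.exp_add, ← Finset.sum_add_distrib, ← Finset.sum_add_distrib]
  congr 1
  refine Finset.sum_congr rfl fun i _ => ?_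
  have key : ∀ z : Fin n × Fin n → ℂ,
      ((L.comp (rotL n c s)).comp (ContinuousLinearMap.inl ℝ _ _)) z
        = c * L (z, 0) + s * L (0, z) ∧
      ((L.comp (rotL n c s)).comp (ContinuousLinearMap.inr ℝ _ _)) z
        = s * L (z, 0) - c * L (0, z) := by
    intro z
    have d1 : (rotL n c s) (z, 0) = c • (z, (0 : Fin n × Fin n → ℂ)) + s • ((0 : Fin n × Fin n → ℂ), z) := by
      ext j <;> simp [rotL]
    have d2 : (rotL n c s) (0, z) = s • (z, (0 : Fin n × Fin n → ℂ)) - c • ((0 : Fin n × Fin n → ℂ), z) := by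
      ext j <;> simp [rotL]
    constructor
    · simp only [ContinuousLinearMap.comp_apply, ContinuousLinearMap.inl_apply, d1, map_add,
        map_smul, smul_eq_mul]
    · simp only [ContinuousLinearMap.comp_apply, ContinuousLinearMap.inr_apply, d2, map_sub,
        map_smul, smul_eq_mul]
  have h' : (c : ℂ) ^ 2 + (s : ℂ) ^ 2 = 1 := by exact_mod_cast h
  rw [(key _).1, (key _).1, (key _).2, (key _).2]
  simp only [ContinuousLinearMap.comp_apply, ContinuousLinearMap.inl_apply,
    ContinuousLinearMap.inr_apply]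
  push_cast
  generalize ((L (Pi.single i 1, 0) : ℝ) : ℂ) = a1
  generalize ((L (Pi.single i Complex.I, 0) : ℝ) : ℂ) = a2
  generalize ((L (0, Pi.single i 1) : ℝ) : ℂ) = b1
  generalize ((L (0, Pi.single i Complex.I) : ℝ) : ℂ) = b2
  linear_combination (-(a1 ^ 2 + a2 ^ 2 + b1 ^ 2 + b2 ^ 2) / 4) * h'

end Pool.Agent.H55.ML
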