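/-
G5 (PGr).  Continuous functions of polynomial growth are integrable.  Needs G1.  About 150 lines.
PG_integrable: ‖g‖ (sup norm) ^ m <= sum_i ‖g_i‖^m + ... ; (1 + ‖g‖)^m <= 2^m (1 + sum_i ‖g_i‖^m); each
‖g_i‖^m is integrable for the product measure (stdC_norm_integrable, Integrable.comp_eval or
integrable_comp_eval).  For the product of two copies use Integrable.prod_mul ... : (1 + max(‖g‖,‖g'‖))^m <=
(1 + ‖g‖)^m (1 + ‖g'‖)^m and Integrable.mul_prod.
-/
import Pool.Agent.H55.ML.G1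

namespace Pool.Agent.H55.ML
open MeasureTheory ProbabilityTheory
open scoped ComplexConjugate

/-- continuous with polynomial growth -/
def PG {E F : Type*} [NormedAddCommGroup E] [NormedAddCommGroup F] (f : E → F) : Prop :=
  Continuous f ∧ ∃ (C : ℝ) (m : ℕ), ∀ x, ‖f x‖ ≤ C * (1 + ‖x‖) ^ m

section
variable {E : Type*} [NormedAddCommGroup E]

private theorem pgr_nn {F : Type*} [NormedAddCommGroup F] {f : E → F} (hf : PG f) :
    ∃ (C : ℝ) (m : ℕ), 0 ≤ C ∧ ∀ x, ‖f x‖ ≤ C * (1 + ‖x‖) ^ m := by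
  obtain ⟨_, C, m, h⟩ := hf
  refine ⟨|C|, m, abs_nonneg C, fun x => (h x).trans ?_⟩
  exact mul_le_mul_of_nonneg_right (le_abs_self C) (by positivity)

private theorem pgr_one (x : E) : 1 ≤ 1 + ‖x‖ := by
  linarith [norm_nonneg x]

theorem PG.const {F : Type*} [NormedAddCommGroup F] (c : F) : PG (fun _ : E => c) := by
  refine ⟨continuous_const, ‖c‖, 0, fun x => ?_⟩
  rw [pow_zero, mul_one]

theorem PG.add {F : Type*} [NormedAddCommGroup F] {f g : E → F} (hf : PG f) (hg : PG g) :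
    PG (fun x => f x + g x) := by
  obtain ⟨C, m, hC, h1⟩ := pgr_nn hf
  obtain ⟨D, k, hD, h2⟩ := pgr_nn hg
  refine ⟨hf.1.add hg.1, C + D, m + k, fun x => ?_⟩
  have hx := pgr_one x
  have h3 : (1 + ‖x‖) ^ m ≤ (1 + ‖x‖) ^ (m + k) := pow_le_pow_right₀ hx (Nat.le_add_right m k)
  have h4 : (1 + ‖x‖) ^ k ≤ (1 + ‖x‖) ^ (m + k) := pow_le_pow_right₀ hx (Nat.le_add_left k m)
  calc ‖f x + g x‖ ≤ ‖f x‖ + ‖g x‖ := norm_add_le _ _
    _ ≤ C * (1 + ‖x‖) ^ m + D * (1 + ‖x‖) ^ k := add_le_add (h1 x) (h2 x)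
    _ ≤ C * (1 + ‖x‖) ^ (m + k) + D * (1 + ‖x‖) ^ (m + k) :=
        add_le_add (mul_le_mul_of_nonneg_left h3 hC) (mul_le_mul_of_nonneg_left h4 hD)
    _ = (C + D) * (1 + ‖x‖) ^ (m + k) := by ring

private theorem pgr_bound {F G : Type*} [NormedAddCommGroup F] [NormedAddCommGroup G]
    {f : E → F} {g : E → G} (hf : PG f) (hg : Continuous g) (h : ∀ x, ‖g x‖ ≤ ‖f x‖) : PG g := by
  obtain ⟨_, C, m, h1⟩ := hf
  exact ⟨hg, C, m, fun x => (h x).trans (h1 x)⟩

private theorem pgr_mul {R : Type*} [NormedRing R] {f g : E → R} (hf : PG f) (hg : PG g) :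
    PG (fun x => f x * g x) := by
  obtain ⟨C, m, hC, h1⟩ := pgr_nn hf
  obtain ⟨D, k, hD, h2⟩ := pgr_nn hg
  refine ⟨hf.1.mul hg.1, C * D, m + k, fun x => ?_⟩
  calc ‖f x * g x‖ ≤ ‖f x‖ * ‖g x‖ := norm_mul_le _ _
    _ ≤ (C * (1 + ‖x‖) ^ m) * (D * (1 + ‖x‖) ^ k) :=
        mul_le_mul (h1 x) (h2 x) (norm_nonneg _) (by positivity)
    _ = (C * D) * (1 + ‖x‖) ^ (m + k) := by rw [pow_add]; ring

theorem PG.sub {F : Type*} [NormedAddCommGroup F] {f g : E → F} (hf : PG f) (hg : PG g) :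
    PG (fun x => f x - g x) := by
  have h1 : PG (fun x => - g x) :=
    pgr_bound hg hg.1.neg (fun x => by rw [norm_neg])
  have h2 := PG.add hf h1
  simp only [← sub_eq_add_neg] at h2
  exact h2

theorem PG.neg {F : Type*} [NormedAddCommGroup F] {f : E → F} (hf : PG f) :
    PG (fun x => - f x) :=
  pgr_bound hf hf.1.neg (fun x => by rw [norm_neg])

theorem PG.mul {f g : E → ℂ} (hf : PG f) (hg : PG g) : PG (fun x => f x * g x) :=
  pgr_mul hf hg

theorem PG.mulR {f g : E → ℝ} (hf : PG f) (hg : PG g) : PG (fun x => f x * g x) :=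
  pgr_mul hf hg

theorem PG.sum {F : Type*} [NormedAddCommGroup F] {α : Type*} (s : Finset α) {f : α → E → F}
    (hf : ∀ a ∈ s, PG (f a)) : PG (fun x => ∑ a ∈ s, f a x) := by
  classical
  induction s using Finset.induction_on with
  | empty =>
    simp only [Finset.sum_empty]
    exact PG.const 0
  | insert a s ha ih =>
    simp only [Finset.sum_insert ha]
    exact PG.add (hf a (Finset.mem_insert_self a s))
      (ih fun b hb => hf b (Finset.mem_insert_of_mem hb))

theorem PG.prod {α : Type*} (s : Finset α) {f : α → E → ℂ}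
    (hf : ∀ a ∈ s, PG (f a)) : PG (fun x => ∏ a ∈ s, f a x) := by
  classical
  induction s using Finset.induction_on with
  | empty =>
    simp only [Finset.prod_empty]
    exact PG.const 1
  | insert a s ha ih =>
    simp only [Finset.prod_insert ha]
    exact PG.mul (hf a (Finset.mem_insert_self a s))
      (ih fun b hb => hf b (Finset.mem_insert_of_mem hb))

theorem PG.pow {f : E → ℂ} (hf : PG f) (k : ℕ) : PG (fun x => f x ^ k) := by
  induction k with
  | zero =>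
    simp only [pow_zero]
    exact PG.const 1
  | succ k ih =>
    simp only [pow_succ]
    exact PG.mul ih hf

theorem PG.powR {f : E → ℝ} (hf : PG f) (k : ℕ) : PG (fun x => f x ^ k) := by
  induction k with
  | zero =>
    simp only [pow_zero]
    exact PG.const 1
  | succ k ih =>
    simp only [pow_succ]
    exact PG.mulR ih hf

theorem PG.conj {f : E → ℂ} (hf : PG f) : PG (fun x => conj (f x)) :=
  pgr_bound hf (Complex.continuous_conj.comp hf.1) (fun x => by rw [RCLike.norm_conj])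

theorem PG.norm {F : Type*} [NormedAddCommGroup F] {f : E → F} (hf : PG f) :
    PG (fun x => ‖f x‖) :=
  pgr_bound hf hf.1.norm (fun x => by rw [norm_norm])

theorem PG.re {f : E → ℂ} (hf : PG f) : PG (fun x => (f x).re) :=
  pgr_bound hf (Complex.continuous_re.comp hf.1)
    (fun x => by rw [Real.norm_eq_abs]; exact Complex.abs_re_le_norm _)

theorem PG.ofReal {f : E → ℝ} (hf : PG f) : PG (fun x => ((f x : ℝ) : ℂ)) :=
  pgr_bound hf (Complex.continuous_ofReal.comp hf.1)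
    (fun x => by rw [Complex.norm_real])

theorem PG.comp {G F : Type*} [NormedAddCommGroup G] [NormedAddCommGroup F] {f : G → F}
    {h : E → G} (hf : PG f) (hh : PG h) : PG (fun x => f (h x)) := by
  obtain ⟨C, m, hC, h1⟩ := pgr_nn hf
  obtain ⟨D, k, hD, h2⟩ := pgr_nn hh
  refine ⟨hf.1.comp hh.1, C * (1 + D) ^ m, k * m, fun x => ?_⟩
  have hx := pgr_one x
  have hxk : (1 : ℝ) ≤ (1 + ‖x‖) ^ k := one_le_pow₀ hx
  have h3 : 1 + ‖h x‖ ≤ (1 + D) * (1 + ‖x‖) ^ k := by
    have := h2 x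
    nlinarith
  calc ‖f (h x)‖ ≤ C * (1 + ‖h x‖) ^ m := h1 (h x)
    _ ≤ C * ((1 + D) * (1 + ‖x‖) ^ k) ^ m :=
        mul_le_mul_of_nonneg_left (pow_le_pow_left₀ (by positivity) h3 m) hC
    _ = C * (1 + D) ^ m * (1 + ‖x‖) ^ (k * m) := by
        rw [mul_pow, ← pow_mul]
        ring

end

theorem PG.coord {ι : Type*} [Fintype ι] (i : ι) : PG (fun g : ι → ℂ => g i) := by
  refine ⟨continuous_apply i, 1, 1, fun g => ?_⟩
  rw [pow_one, one_mul]
  linarith [norm_le_pi_norm g i]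

theorem PG.fst {ι : Type*} [Fintype ι] : PG (fun p : (ι → ℂ) × (ι → ℂ) => p.1) := by
  refine ⟨continuous_fst, 1, 1, fun p => ?_⟩
  rw [pow_one, one_mul]
  linarith [norm_fst_le p]

theorem PG.snd {ι : Type*} [Fintype ι] : PG (fun p : (ι → ℂ) × (ι → ℂ) => p.2) := by
  refine ⟨continuous_snd, 1, 1, fun p => ?_⟩
  rw [pow_one, one_mul]
  linarith [norm_snd_le p]

private theorem pgr_smul {E ι : Type*} [NormedAddCommGroup E] [Fintype ι] {f : E → (ι → ℂ)}
    (hf : PG f) (c : ℂ) : PG (fun x => c • f x) := by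
  obtain ⟨C, m, hC, h1⟩ := pgr_nn hf
  refine ⟨hf.1.const_smul c, ‖c‖ * C, m, fun x => ?_⟩
  rw [norm_smul, mul_assoc]
  exact mul_le_mul_of_nonneg_left (h1 x) (norm_nonneg c)

/-- the rotated variable -/
theorem PG.rot {ι : Type*} [Fintype ι] (c s : ℝ) :
    PG (fun p : (ι → ℂ) × (ι → ℂ) => (c : ℂ) • p.1 + (s : ℂ) • p.2) :=
  PG.add (pgr_smul PG.fst (c : ℂ)) (pgr_smul PG.snd (s : ℂ))

private theorem pgr_stdC (m : ℕ) : Integrable (fun z : ℂ => (1 + ‖z‖) ^ m) stdC := by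
  have h1 : (fun z : ℂ => (1 + ‖z‖) ^ m) =
      fun z => ∑ k ∈ Finset.range (m + 1), ‖z‖ ^ (m - k) * (m.choose k : ℝ) := by
    funext z
    rw [add_pow]
    refine Finset.sum_congr rfl fun k _ => ?_
    rw [one_pow, one_mul]
  rw [h1]
  exact integrable_finsetSum _ fun k _ => (stdC_norm_integrable (m - k)).mul_const _

private theorem pgr_one_le_prod {ι : Type*} (s : Finset ι) (a : ι → ℝ) (ha : ∀ i, 0 ≤ a i) :
    (1 : ℝ) ≤ ∏ j ∈ s, (1 + a j) := by
  calc (1 : ℝ) = ∏ _j ∈ s, (1 : ℝ) := by rw [Finset.prod_const_one]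
    _ ≤ ∏ j ∈ s, (1 + a j) :=
        Finset.prod_le_prod (fun _ _ => zero_le_one) (fun j _ => by linarith [ha j])

private theorem pgr_prod_ge {ι : Type*} (s : Finset ι) (a : ι → ℝ) (ha : ∀ i, 0 ≤ a i) :
    ∀ i ∈ s, 1 + a i ≤ ∏ j ∈ s, (1 + a j) := by
  classical
  intro i hi
  rw [← Finset.mul_prod_erase s _ hi]
  have h1 : (1 : ℝ) ≤ ∏ j ∈ s.erase i, (1 + a j) := pgr_one_le_prod _ a ha
  nlinarith [ha i]

private theorem pgr_gin {n : ℕ} (m : ℕ) :
    Integrable (fun g : Fin n × Fin n → ℂ => (1 + ‖g‖) ^ m) (gin n) := by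
  have h1 : Integrable (fun g : Fin n × Fin n → ℂ => ∏ i, (1 + ‖g i‖) ^ m) (gin n) := by
    unfold gin
    exact Integrable.fintype_prod (f := fun _ (z : ℂ) => (1 + ‖z‖) ^ m)
      (μ := fun _ => stdC) (fun _ => pgr_stdC m)
  refine h1.mono' ?_ (Filter.Eventually.of_forall fun g => ?_)
  · exact ((continuous_const.add continuous_norm).pow m).aestronglyMeasurable
  · rw [Real.norm_of_nonneg (by positivity), Finset.prod_pow]
    refine pow_le_pow_left₀ (by positivity) ?_ m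
    have h2 : ‖g‖ ≤ (∏ i, (1 + ‖g i‖)) - 1 := by
      have h3 : (1 : ℝ) ≤ ∏ i, (1 + ‖g i‖) :=
        pgr_one_le_prod _ (fun i => ‖g i‖) (fun i => norm_nonneg _)
      refine (pi_norm_le_iff_of_nonneg (by linarith)).2 fun i => ?_
      have := pgr_prod_ge Finset.univ (fun j => ‖g j‖) (fun j => norm_nonneg _) i
        (Finset.mem_univ i)
      linarith
    linarith

private theorem pgr_int {n : ℕ} {F : Type*} [NormedAddCommGroup F]
    {f : (Fin n × Fin n → ℂ) → F} (hf : PG f) :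
    Integrable f (gin n) := by
  obtain ⟨hc, C, m, h⟩ := hf
  exact ((pgr_gin (n := n) m).const_mul C).mono' hc.aestronglyMeasurable
    (Filter.Eventually.of_forall h)

private theorem pgr_int2 {n : ℕ} {F : Type*} [NormedAddCommGroup F]
    {f : (Fin n × Fin n → ℂ) × (Fin n × Fin n → ℂ) → F} (hf : PG f) :
    Integrable f ((gin n).prod (gin n)) := by
  obtain ⟨C, m, hC, h⟩ := pgr_nn hf
  have : SFinite (gin n) := by
    unfold gin
    infer_instance
  have h1 : Integrable (fun p : (Fin n × Fin n → ℂ) × (Fin n × Fin n → ℂ) =>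
      (1 + ‖p.1‖) ^ m * (1 + ‖p.2‖) ^ m) ((gin n).prod (gin n)) :=
    Integrable.mul_prod (pgr_gin (n := n) m) (pgr_gin (n := n) m)
  refine (h1.const_mul C).mono' hf.1.aestronglyMeasurable
    (Filter.Eventually.of_forall fun p => (h p).trans ?_)
  refine mul_le_mul_of_nonneg_left ?_ hC
  rw [← mul_pow]
  refine pow_le_pow_left₀ (by positivity) ?_ m
  have ha := norm_nonneg p.1
  have hb := norm_nonneg p.2
  have h2 : ‖p‖ ≤ ‖p.1‖ + ‖p.2‖ := by
    rw [Prod.norm_def]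
    exact max_le (by linarith) (by linarith)
  nlinarith [mul_nonneg ha hb]

theorem PG.integrable {n : ℕ} {f : (Fin n × Fin n → ℂ) → ℂ} (hf : PG f) :
    Integrable f (gin n) := pgr_int hf

theorem PG.integrableR {n : ℕ} {f : (Fin n × Fin n → ℂ) → ℝ} (hf : PG f) :
    Integrable f (gin n) := pgr_int hf

theorem PG.integrable_prod {n : ℕ} {f : (Fin n × Fin n → ℂ) × (Fin n × Fin n → ℂ) → ℂ}
    (hf : PG f) : Integrable f ((gin n).prod (gin n)) := pgr_int2 hf

theorem PG.integrable_prodR {n : ℕ} {f : (Fin n × Fin n → ℂ) × (Fin n × Fin n → ℂ) → ℝ}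
    (hf : PG f) : Integrable f ((gin n).prod (gin n)) := pgr_int2 hf

end Pool.Agent.H55.ML
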