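/-
S (SSd).  The finite chaos spaces: span of the trace polynomials with values in superoperators, with fewer than q
letters.  Needs G3b, KV, Expand, PGr, ChebTr.  About 180 lines.
FF_mem: FF h g = aeval (DD X) h - h(0) P1; Expand.expand with the pairs (Lf X, Lf X*), (Rt X, Rt X*), ev_Lf, ev_Rt:
sum a(u,v) Lf (ev u) Rt (ev v.reverse), |u| + |v| <= 2 natDegree h; P1 = (1/n) gK [] [] [] .
SS_PG: entries of the generators are products of entries (PG.mul, PG.sum, PG.coord, PG.conj); span induction.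
SS_repr: span induction: for a generator with words ws take c p = tb (XX g) ws at p = (u, v).
-/
import Pool.Agent.H55.ML.G3b
import Pool.Agent.H55.ML.KV
import Pool.Agent.H55.ML.PGr

namespace Pool.Agent.H55.ML
open MeasureTheory ProbabilityTheory Polynomial Matrix

variable {n : ℕ}

/-- the generator `prod tr(w) · (B ↦ u B v)` -/
noncomputable def gL (ws : List (List Bool)) (u v : List Bool) (g : Fin n × Fin n → ℂ) : Op n :=
  tb (XX g) ws • (Lf (ev (XX g) (XX g)ᴴ u) * Rt (ev (XX g) (XX g)ᴴ v))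

/-- the generator `prod tr(w) · (B ↦ tr(v B) u)` -/
noncomputable def gK (ws : List (List Bool)) (u v : List Bool) (g : Fin n × Fin n → ℂ) : Op n :=
  tb (XX g) ws • Kop (ev (XX g) (XX g)ᴴ u) (ev (XX g) (XX g)ᴴ v)

/-- generators with fewer than `q` letters -/
def SSgen (n q : ℕ) : Set ((Fin n × Fin n → ℂ) → Op n) :=
  {F | ∃ (ws : List (List Bool)) (u v : List Bool), ws.flatten.length + u.length + v.length < q ∧
    (F = gL ws u v ∨ F = gK ws u v)}

/-- the span of the generators with fewer than `q` letters -/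
def SS (n q : ℕ) : Submodule ℂ ((Fin n × Fin n → ℂ) → Op n) := Submodule.span ℂ (SSgen n q)

private theorem tb_nil (X : Mat n) : tb X [] = 1 := by
  simp [tb]

private theorem gL_mem {q : ℕ} (ws : List (List Bool)) (u v : List Bool)
    (h : ws.flatten.length + u.length + v.length < q) :
    (gL ws u v : (Fin n × Fin n → ℂ) → Op n) ∈ SS n q :=
  Submodule.subset_span ⟨ws, u, v, h, Or.inl rfl⟩

private theorem gK_mem {q : ℕ} (ws : List (List Bool)) (u v : List Bool)
    (h : ws.flatten.length + u.length + v.length < q) :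
    (gK ws u v : (Fin n × Fin n → ℂ) → Op n) ∈ SS n q :=
  Submodule.subset_span ⟨ws, u, v, h, Or.inr rfl⟩

theorem SS_zero (n : ℕ) : SS n 0 = ⊥ := by
  have h : SSgen n 0 = ∅ := by
    ext F
    simp [SSgen]
  rw [SS, h, Submodule.span_empty]

theorem SS_mono (n : ℕ) : Monotone (SS n) := by
  intro a b hab
  apply Submodule.span_mono
  rintro F ⟨ws, u, v, h, hF⟩
  exact ⟨ws, u, v, lt_of_lt_of_le h hab, hF⟩

theorem FF_mem (n : ℕ) (h : ℝ[X]) :
    (FF h : (Fin n × Fin n → ℂ) → Op n) ∈ SS n (2 * h.natDegree + 1) := by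
  obtain ⟨a, ha, hexp⟩ := expand h
  have key : (FF h : (Fin n × Fin n → ℂ) → Op n) =
      (∑ p ∈ a.support, ((a p : ℝ) : ℂ) •
        (gL [] p.1 p.2.reverse : (Fin n × Fin n → ℂ) → Op n)) -
      ((h.eval 0 : ℝ) : ℂ) • (((n : ℂ))⁻¹ •
        (gK [] [] [] : (Fin n × Fin n → ℂ) → Op n)) := by
    funext g
    have h1 := hexp (Op n) (Lf (XX g)) (Lf (XX g)ᴴ) (Rt (XX g)) (Rt (XX g)ᴴ)
      (Lf_comm_Rt _ _) (Lf_comm_Rt _ _) (Lf_comm_Rt _ _) (Lf_comm_Rt _ _)
    have h2 : aeval (DD (XX g)) h = ∑ p ∈ a.support, ((a p : ℝ) : ℂ) •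
        (gL [] p.1 p.2.reverse g : Op n) := by
      rw [DD, h1, Finsupp.sum]
      refine Finset.sum_congr rfl fun p _ => ?_
      rw [gL, tb_nil, one_smul, ev_Lf, ev_Rt]
      ext i j
      simp only [Matrix.smul_apply, Complex.real_smul, smul_eq_mul]
    have h3 : (gK [] [] [] g : Op n) = Kop 1 1 := by
      rw [gK, tb_nil, one_smul, ev_nil]
    simp only [Pi.sub_apply, Finset.sum_apply, Pi.smul_apply]
    rw [FF, P1, h2, h3]
  rw [key]
  refine Submodule.sub_mem _ (Submodule.sum_mem _ fun p hp => ?_) ?_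
  · apply Submodule.smul_mem
    apply gL_mem
    have := ha p hp
    simp only [List.flatten_nil, List.length_nil, List.length_reverse]
    omega
  · apply Submodule.smul_mem
    apply Submodule.smul_mem
    apply gK_mem
    simp

private theorem PG_XX (i j : Fin n) : PG (fun g : Fin n × Fin n → ℂ => XX g i j) := by
  have h : (fun g : Fin n × Fin n → ℂ => XX g i j)
      = fun g => ((Real.sqrt n : ℂ))⁻¹ * g (i, j) := by
    funext g
    simp [XX]
  rw [h]
  exact PG.mul (PG.const _) (PG.coord _)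

private theorem PG_XXH (i j : Fin n) : PG (fun g : Fin n × Fin n → ℂ => (XX g)ᴴ i j) := by
  have h : (fun g : Fin n × Fin n → ℂ => (XX g)ᴴ i j)
      = fun g => (starRingEnd ℂ) (XX g j i) := by
    funext g
    rfl
  rw [h]
  exact PG.conj (PG_XX j i)

private theorem PG_ev (w : List Bool) (i j : Fin n) :
    PG (fun g : Fin n × Fin n → ℂ => ev (XX g) (XX g)ᴴ w i j) := by
  induction w generalizing i with
  | nil =>
    simp only [ev_nil]
    exact PG.const _
  | cons b w ih =>
    have h : (fun g : Fin n × Fin n → ℂ => ev (XX g) (XX g)ᴴ (b :: w) i j)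
        = fun g => ∑ k ∈ Finset.univ, (cond b (XX g) (XX g)ᴴ) i k * ev (XX g) (XX g)ᴴ w k j := by
      funext g
      rw [ev_cons, Matrix.mul_apply]
    rw [h]
    refine PG.sum _ fun k _ => PG.mul ?_ (ih k)
    cases b
    · exact PG_XXH i k
    · exact PG_XX i k

private theorem PG_tb (ws : List (List Bool)) :
    PG (fun g : Fin n × Fin n → ℂ => tb (XX g) ws) := by
  induction ws with
  | nil =>
    simp only [tb_nil]
    exact PG.const _
  | cons w ws ih =>
    have h : (fun g : Fin n × Fin n → ℂ => tb (XX g) (w :: ws))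
        = fun g => (∑ k ∈ Finset.univ, ev (XX g) (XX g)ᴴ w k k) * tb (XX g) ws := by
      funext g
      simp [tb, Matrix.trace]
    rw [h]
    exact PG.mul (PG.sum _ fun k _ => PG_ev w k k) ih

private theorem PG_LR (u v : List Bool) (x y : Fin n × Fin n) :
    PG (fun g : Fin n × Fin n → ℂ =>
      (Lf (ev (XX g) (XX g)ᴴ u) * Rt (ev (XX g) (XX g)ᴴ v)) x y) := by
  have h : (fun g : Fin n × Fin n → ℂ =>
      (Lf (ev (XX g) (XX g)ᴴ u) * Rt (ev (XX g) (XX g)ᴴ v)) x y)
      = fun g => ∑ z ∈ (Finset.univ : Finset (Fin n × Fin n)),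
        (ev (XX g) (XX g)ᴴ u x.1 z.1 * (1 : Mat n) x.2 z.2) *
        ((1 : Mat n) z.1 y.1 * ev (XX g) (XX g)ᴴ v y.2 z.2) := by
    funext g
    rw [Matrix.mul_apply]
    rfl
  rw [h]
  exact PG.sum _ fun z _ => PG.mul (PG.mul (PG_ev _ _ _) (PG.const _))
    (PG.mul (PG.const _) (PG_ev _ _ _))

theorem SS_PG {n q : ℕ} {F : (Fin n × Fin n → ℂ) → Op n} (hF : F ∈ SS n q)
    (x y : Fin n × Fin n) : PG (fun g => F g x y) := by
  induction hF using Submodule.span_induction with
  | mem F hF =>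
    obtain ⟨ws, u, v, -, rfl | rfl⟩ := hF
    · have h : (fun g => (gL ws u v g : Op n) x y) = fun g => tb (XX g) ws *
          (Lf (ev (XX g) (XX g)ᴴ u) * Rt (ev (XX g) (XX g)ᴴ v)) x y := by
        funext g
        rw [gL, Matrix.smul_apply, smul_eq_mul]
      rw [h]
      exact PG.mul (PG_tb ws) (PG_LR u v x y)
    · have h : (fun g => (gK ws u v g : Op n) x y) = fun g => tb (XX g) ws *
          (ev (XX g) (XX g)ᴴ u x.1 x.2 * ev (XX g) (XX g)ᴴ v y.2 y.1) := by
        funext g
        rw [gK, Matrix.smul_apply, smul_eq_mul]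
        rfl
      rw [h]
      exact PG.mul (PG_tb ws) (PG.mul (PG_ev _ _ _) (PG_ev _ _ _))
  | zero => exact PG.const 0
  | add F G _ _ hF hG => exact PG.add hF hG
  | smul a F _ hF => exact PG.mul (PG.const a) hF

theorem SS_repr {n q : ℕ} {F : (Fin n × Fin n → ℂ) → Op n} (hF : F ∈ SS n q)
    (s : Finset (List Bool × List Bool)) (hs : ∀ p, p.1.length + p.2.length < q → p ∈ s)
    (g : Fin n × Fin n → ℂ) : ∃ c c' : List Bool × List Bool → ℂ,
      F g = ∑ p ∈ s, (c p • (Lf (ev (XX g) (XX g)ᴴ p.1) * Rt (ev (XX g) (XX g)ᴴ p.2))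
        + c' p • Kop (ev (XX g) (XX g)ᴴ p.1) (ev (XX g) (XX g)ᴴ p.2)) := by
  classical
  induction hF using Submodule.span_induction with
  | mem F hF =>
    obtain ⟨ws, u, v, hl, rfl | rfl⟩ := hF
    · have hm : (u, v) ∈ s := hs (u, v) (by dsimp only; omega)
      refine ⟨Pi.single (u, v) (tb (XX g) ws), 0, ?_⟩
      rw [Finset.sum_eq_single_of_mem (u, v) hm]
      · rw [Pi.single_eq_same, Pi.zero_apply, zero_smul, add_zero, gL]
      · intro p _ hp
        rw [Pi.single_eq_of_ne hp, Pi.zero_apply, zero_smul, zero_smul, add_zero]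
    · have hm : (u, v) ∈ s := hs (u, v) (by dsimp only; omega)
      refine ⟨0, Pi.single (u, v) (tb (XX g) ws), ?_⟩
      rw [Finset.sum_eq_single_of_mem (u, v) hm]
      · rw [Pi.single_eq_same, Pi.zero_apply, zero_smul, zero_add, gK]
      · intro p _ hp
        rw [Pi.single_eq_of_ne hp, Pi.zero_apply, zero_smul, zero_smul, add_zero]
  | zero =>
    refine ⟨0, 0, ?_⟩
    simp
  | add F G _ _ hF hG =>
    obtain ⟨c1, d1, h1⟩ := hF
    obtain ⟨c2, d2, h2⟩ := hG
    refine ⟨c1 + c2, d1 + d2, ?_⟩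
    rw [Pi.add_apply, h1, h2, ← Finset.sum_add_distrib]
    refine Finset.sum_congr rfl fun p _ => ?_
    rw [Pi.add_apply, Pi.add_apply, add_smul, add_smul]
    abel
  | smul a F _ hF =>
    obtain ⟨c1, d1, h1⟩ := hF
    refine ⟨a • c1, a • d1, ?_⟩
    rw [Pi.smul_apply, h1, Finset.smul_sum]
    refine Finset.sum_congr rfl fun p _ => ?_
    rw [Pi.smul_apply, Pi.smul_apply, smul_add, smul_eq_mul, smul_eq_mul, mul_smul, mul_smul]

/-- there is a finite set of pairs of words containing all pairs of total length less than `q` -/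
theorem exists_words (q : ℕ) : ∃ s : Finset (List Bool × List Bool),
    ∀ p : List Bool × List Bool, p.1.length + p.2.length < q → p ∈ s := by
  have hfin : Set.Finite {l : List Bool | l.length < q} := List.finite_length_lt Bool q
  refine ⟨hfin.toFinset ×ˢ hfin.toFinset, fun p hp => ?_⟩
  rw [Finset.mem_product, Set.Finite.mem_toFinset, Set.Finite.mem_toFinset]
  constructor
  · show p.1.length < q
    omega
  · show p.2.length < q
    omega

end Pool.Agent.H55.ML
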