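/-
S3 (Classify).  Trace polynomials with exactly one letter B and one letter C are pairings of generators.
Needs SSd, G3.  About 180 lines.
Letters: inl true = X, inl false = X*, inr true = B, inr false = C.
pr C Φ B = Tr (C · Φ[B]) = sum_{p,q} C p.2 p.1 Φ p q B q.1 q.2, linear in Φ; pr C (Lf U * Rt V) B = Tr (C U B V),
pr C (Kop U V) B = Tr (C U) Tr (V B); pr determines Φ (take matrix units).
PROOF of classify.  ws.flatten contains one B and one C.  Case 1: in the same word: rotate the word (trace cyclic) to
C :: u ++ B :: v, u, v words in X, X*; case 2: in two different words, rotate to C :: u and B :: v' , i.e.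
Tr (C u) Tr (v B) (rotate B to the end).  All other words are words in X, X*; the number of X-letters is preserved.
-/
import Pool.Agent.H55.ML.SSd
import Pool.Agent.H55.ML.G3

namespace Pool.Agent.H55.ML
open MeasureTheory ProbabilityTheory Matrix

variable {n : ℕ}

/-- the pairing `Tr (C · Φ[B])` -/
def pr (C : Mat n) (Φ : Op n) (B : Mat n) : ℂ :=
  ∑ p, ∑ q, C p.2 p.1 * Φ p q * B q.1 q.2

theorem pr_LR (C U V B : Mat n) : pr C (Lf U * Rt V) B = (C * U * B * V).trace := by
  have hk : Lf U * Rt V = Matrix.kroneckerMap (fun a b => a * b) U Vᵀ := by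
    unfold Lf Rt
    rw [← Matrix.mul_kronecker_mul, Matrix.mul_one, Matrix.one_mul]
  unfold pr
  rw [hk]
  simp only [Matrix.kroneckerMap_apply, Matrix.transpose_apply, Fintype.sum_prod_type,
    Matrix.trace, Matrix.diag_apply, Matrix.mul_apply, Finset.sum_mul]
  -- LHS: ∑ a, ∑ b, ∑ c, ∑ d, C b a * (U a c * V d b) * B c d
  -- RHS: ∑ b, ∑ d, ∑ c, ∑ a, C b a * U a c * B c d * V d b
  rw [Finset.sum_comm]
  refine Finset.sum_congr rfl fun b _ => ?_
  rw [Finset.sum_comm]
  have h1 : ∀ c : Fin n, ∑ a, ∑ d, C b a * (U a c * V d b) * B c d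
      = ∑ d, ∑ a, C b a * U a c * B c d * V d b := by
    intro c
    rw [Finset.sum_comm]
    refine Finset.sum_congr rfl fun d _ => Finset.sum_congr rfl fun a _ => ?_
    ring
  simp only [h1]
  rw [Finset.sum_comm]

theorem pr_K (C U V B : Mat n) : pr C (Kop U V) B = (C * U).trace * (V * B).trace := by
  unfold pr Kop
  simp only [Matrix.of_apply, Fintype.sum_prod_type, Matrix.trace, Matrix.diag_apply,
    Matrix.mul_apply]
  have h1 : ∀ a b : Fin n, ∑ c, ∑ d, C b a * (U a b * V d c) * B c d
      = C b a * U a b * ∑ d, ∑ c, V d c * B c d := by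
    intro a b
    rw [Finset.sum_comm, Finset.mul_sum]
    refine Finset.sum_congr rfl fun d _ => ?_
    rw [Finset.mul_sum]
    refine Finset.sum_congr rfl fun c _ => ?_
    ring
  simp only [h1, ← Finset.sum_mul]
  rw [Finset.sum_comm]

private theorem pr_smul (C : Mat n) (a : ℂ) (Φ : Op n) (B : Mat n) :
    pr C (a • Φ) B = a * pr C Φ B := by
  unfold pr
  rw [Finset.mul_sum]
  refine Finset.sum_congr rfl fun p _ => ?_
  rw [Finset.mul_sum]
  refine Finset.sum_congr rfl fun q _ => ?_
  rw [Matrix.smul_apply, smul_eq_mul]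
  ring

private theorem pr_single (Φ : Op n) (x y : Fin n × Fin n) :
    pr (Matrix.single x.2 x.1 (1 : ℂ)) Φ (Matrix.single y.1 y.2 (1 : ℂ)) = Φ x y := by
  unfold pr
  rw [Finset.sum_eq_single x]
  · rw [Finset.sum_eq_single y]
    · rw [Matrix.single_apply_same, Matrix.single_apply_same, one_mul, mul_one]
    · intro q _ hq
      have : (Matrix.single y.1 y.2 (1 : ℂ) : Mat n) q.1 q.2 = 0 := by
        rw [Matrix.single_apply, if_neg]
        rintro ⟨h1, h2⟩
        exact hq (Prod.ext h1.symm h2.symm)
      rw [this, mul_zero]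
    · intro h; exact absurd (Finset.mem_univ _) h
  · intro p _ hp
    have : (Matrix.single x.2 x.1 (1 : ℂ) : Mat n) p.2 p.1 = 0 := by
      rw [Matrix.single_apply, if_neg]
      rintro ⟨h1, h2⟩
      exact hp (Prod.ext h2.symm h1.symm)
    simp only [this, zero_mul, Finset.sum_const_zero]
  · intro h; exact absurd (Finset.mem_univ _) h

theorem pr_ext (Φ Ψ : Op n) (h : ∀ C B, pr C Φ B = pr C Ψ B) : Φ = Ψ := by
  ext x y
  rw [← pr_single Φ x y, ← pr_single Ψ x y, h]

/-- the assignment of the letters `X, X*, B, C` -/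
noncomputable def asg (g : Fin n × Fin n → ℂ) (B C : Mat n) : Bool ⊕ Bool → Mat n :=
  Sum.elim (fun b => cond b (XX g) (XX g)ᴴ) (fun b => cond b B C)

private theorem evM_append {κ : Type} (M : κ → Mat n) (u v : List κ) :
    evM M (u ++ v) = evM M u * evM M v := by
  simp [evM]

private theorem evM_cons {κ : Type} (M : κ → Mat n) (c : κ) (v : List κ) :
    evM M (c :: v) = M c * evM M v := by
  simp [evM]

private theorem tm_cons {κ : Type} (M : κ → Mat n) (w : List κ) (ws : List (List κ)) :
    tm M (w :: ws) = (evM M w).trace * tm M ws := by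
  simp [tm]

private theorem tm_perm {κ : Type} (M : κ → Mat n) {ws vs : List (List κ)} (h : ws.Perm vs) :
    tm M ws = tm M vs := by
  unfold tm
  exact (h.map _).prod_eq

private theorem rot {κ : Type} {c : κ} {w : List κ} (hc : c ∈ w) :
    ∃ w' : List κ, w.Perm (c :: w') ∧
      ∀ M : κ → Mat n, (evM M w).trace = (M c * evM M w').trace := by
  obtain ⟨s, t, rfl⟩ := List.append_of_mem hc
  refine ⟨t ++ s, ?_, fun M => ?_⟩
  · have h1 : (s ++ c :: t).Perm (c :: t ++ s) := List.perm_append_comm
    simpa using h1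
  · rw [evM_append, Matrix.trace_mul_comm, evM_cons, evM_append, Matrix.mul_assoc]

private theorem lawS : LawfulBEq (Bool ⊕ Bool) where
  eq_of_beq := by
    intro a b h
    rcases a with a | a <;> rcases b with b | b <;> cases a <;> cases b <;>
      first | rfl | exact absurd h (by decide)
  rfl := by
    intro a
    rcases a with a | a <;> cases a <;> decide

attribute [local instance] lawS

private theorem pureW {w : List (Bool ⊕ Bool)} (h1 : w.count (Sum.inr true) = 0)
    (h2 : w.count (Sum.inr false) = 0) : ∃ u : List Bool, w = u.map Sum.inl := by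
  rw [List.count_eq_zero] at h1 h2
  induction w with
  | nil => exact ⟨[], rfl⟩
  | cons c w ih =>
    obtain ⟨u, rfl⟩ := ih (fun h => h1 (List.mem_cons_of_mem _ h))
      (fun h => h2 (List.mem_cons_of_mem _ h))
    rcases c with b | b
    · exact ⟨b :: u, rfl⟩
    · cases b
      · exact absurd List.mem_cons_self h2
      · exact absurd List.mem_cons_self h1

private theorem pureWs {ws : List (List (Bool ⊕ Bool))}
    (h1 : ws.flatten.count (Sum.inr true) = 0)
    (h2 : ws.flatten.count (Sum.inr false) = 0) :
    ∃ us : List (List Bool), ws = us.map (List.map Sum.inl) := by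
  induction ws with
  | nil => exact ⟨[], rfl⟩
  | cons w ws ih =>
    rw [List.flatten_cons, List.count_append] at h1 h2
    obtain ⟨us, hus⟩ := ih (by omega) (by omega)
    obtain ⟨u, hu⟩ := pureW (w := w) (by omega) (by omega)
    exact ⟨u :: us, by rw [List.map_cons, ← hus, ← hu]⟩

private theorem cnt_pure (u : List Bool) :
    (u.map (Sum.inl : Bool → Bool ⊕ Bool)).count (Sum.inl true)
      + (u.map (Sum.inl : Bool → Bool ⊕ Bool)).count (Sum.inl false) = u.length := by
  rw [List.count_map_of_injective _ _ Sum.inl_injective,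
    List.count_map_of_injective _ _ Sum.inl_injective]
  exact List.count_true_add_count_false u

private theorem evM_pure (g : Fin n × Fin n → ℂ) (B C : Mat n) (u : List Bool) :
    evM (asg g B C) (u.map Sum.inl) = ev (XX g) (XX g)ᴴ u := by
  unfold evM ev
  rw [List.map_map]
  rfl

private theorem tm_pure (g : Fin n × Fin n → ℂ) (B C : Mat n) (us : List (List Bool)) :
    tm (asg g B C) (us.map (List.map Sum.inl)) = tb (XX g) us := by
  unfold tm tb
  rw [List.map_map]
  congr 1
  refine List.map_congr_left fun w _ => ?_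
  rw [Function.comp_apply, evM_pure]

theorem classify (ws : List (List (Bool ⊕ Bool)))
    (hB : ws.flatten.count (Sum.inr true) = 1) (hC : ws.flatten.count (Sum.inr false) = 1) (q : ℕ)
    (hq : ws.flatten.count (Sum.inl true) + ws.flatten.count (Sum.inl false) < q) :
    ∃ F : (Fin n × Fin n → ℂ) → Op n, F ∈ SS n q ∧
      ∀ g B C, tm (asg g B C) ws = pr C (F g) B := by
  classical
  have hmem : Sum.inr true ∈ ws.flatten := by
    rw [← List.count_pos_iff]; omega
  obtain ⟨w, hw, hbw⟩ := List.mem_flatten.1 hmem
  have hp : ws.Perm (w :: ws.erase w) := List.perm_cons_erase hw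
  generalize ws.erase w = ws1 at hp
  have hcnt : ∀ c, ws.flatten.count c = w.count c + ws1.flatten.count c := by
    intro c
    rw [(hp.flatten).count_eq c, List.flatten_cons, List.count_append]
  have hbw1 : 0 < w.count (Sum.inr true) := List.count_pos_iff.2 hbw
  have hB' := hcnt (Sum.inr true)
  have hC' := hcnt (Sum.inr false)
  have hT' := hcnt (Sum.inl true)
  have hF' := hcnt (Sum.inl false)
  by_cases hcw : Sum.inr false ∈ w
  · -- both letters in the same word
    have hcw1 : 0 < w.count (Sum.inr false) := List.count_pos_iff.2 hcw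
    obtain ⟨us, hus⟩ := pureWs (ws := ws1) (by omega) (by omega)
    obtain ⟨w', hw', htr⟩ := rot (n := n) hcw
    have hcw' : ∀ c, w.count c = (Sum.inr false :: w' : List (Bool ⊕ Bool)).count c :=
      fun c => hw'.count_eq c
    have h1 := hcw' (Sum.inr true)
    have h2 := hcw' (Sum.inr false)
    have h3 := hcw' (Sum.inl true)
    have h4 := hcw' (Sum.inl false)
    simp at h1 h2 h3 h4
    have hb' : Sum.inr true ∈ w' := by
      rw [← List.count_pos_iff]; omega
    obtain ⟨s, t, rfl⟩ := List.append_of_mem hb'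
    simp [List.count_append] at h1 h2 h3 h4
    obtain ⟨u, rfl⟩ := pureW (w := s) (by omega) (by omega)
    obtain ⟨v, rfl⟩ := pureW (w := t) (by omega) (by omega)
    subst hus
    have e1 := cnt_pure u
    have e2 := cnt_pure v
    have e3 := cnt_pure us.flatten
    rw [List.map_flatten] at e3
    refine ⟨gL us u v, Submodule.subset_span ⟨us, u, v, by omega, Or.inl rfl⟩, fun g B C => ?_⟩
    rw [gL, pr_smul, pr_LR, tm_perm _ hp, tm_cons, htr, tm_pure, evM_append, evM_cons, evM_pure,
      evM_pure, mul_comm]
    congr 2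
    show C * (_ * (B * _)) = _
    rw [← Matrix.mul_assoc, ← Matrix.mul_assoc]
  · -- the two letters in two words
    have hcw1 : w.count (Sum.inr false) = 0 := List.count_eq_zero.2 hcw
    have hmem2 : Sum.inr false ∈ ws1.flatten := by
      rw [← List.count_pos_iff]; omega
    obtain ⟨w2, hw2, hcw2⟩ := List.mem_flatten.1 hmem2
    have hp2 : ws1.Perm (w2 :: ws1.erase w2) := List.perm_cons_erase hw2
    generalize ws1.erase w2 = ws2 at hp2
    have hcnt2 : ∀ c, ws1.flatten.count c = w2.count c + ws2.flatten.count c := by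
      intro c
      rw [(hp2.flatten).count_eq c, List.flatten_cons, List.count_append]
    have hcw3 : 0 < w2.count (Sum.inr false) := List.count_pos_iff.2 hcw2
    have hB2 := hcnt2 (Sum.inr true)
    have hC2 := hcnt2 (Sum.inr false)
    have hT2 := hcnt2 (Sum.inl true)
    have hF2 := hcnt2 (Sum.inl false)
    obtain ⟨us, hus⟩ := pureWs (ws := ws2) (by omega) (by omega)
    obtain ⟨w', hw', htr⟩ := rot (n := n) hbw
    obtain ⟨w2', hw2', htr2⟩ := rot (n := n) hcw2
    have h1 := hw'.count_eq (Sum.inr true)
    have h2 := hw'.count_eq (Sum.inr false)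
    have h3 := hw'.count_eq (Sum.inl true)
    have h4 := hw'.count_eq (Sum.inl false)
    have k1 := hw2'.count_eq (Sum.inr true)
    have k2 := hw2'.count_eq (Sum.inr false)
    have k3 := hw2'.count_eq (Sum.inl true)
    have k4 := hw2'.count_eq (Sum.inl false)
    simp at h1 h2 h3 h4 k1 k2 k3 k4
    obtain ⟨v, rfl⟩ := pureW (w := w') (by omega) (by omega)
    obtain ⟨u, rfl⟩ := pureW (w := w2') (by omega) (by omega)
    subst hus
    have e1 := cnt_pure u
    have e2 := cnt_pure v
    have e3 := cnt_pure us.flatten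
    rw [List.map_flatten] at e3
    refine ⟨gK us u v, Submodule.subset_span ⟨us, u, v, by omega, Or.inr rfl⟩, fun g B C => ?_⟩
    rw [gK, pr_smul, pr_K, tm_perm _ hp, tm_cons, tm_perm _ hp2, tm_cons, htr, htr2, tm_pure,
      evM_pure, evM_pure]
    show (B * _).trace * ((C * _).trace * _) = _
    rw [Matrix.trace_mul_comm B]
    ring

end Pool.Agent.H55.ML
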