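/-
S2 (PartInt).  Integrating out a Ginibre matrix in a trace polynomial with constant matrices.  Needs G3.
About 200 lines.
STATEMENT.  E prod Tr w(X, M) = finite sum of t.1 * prod Tr v(M), v running over lists of words t.2 in the constant
letters only, in which every constant letter occurs exactly as often as in ws.
PROOF.  Strong induction on the number m of random letters (inl) in ws.flatten.  m = 0: every word is a map of inr,
one term (coefficient 1).  m > 0: bring a random letter to the front: some word is w1 ++ inl b :: w2; by cyclicity of the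
trace replace it by inl b :: (w2 ++ w1) (Matrix.trace_mul_comm, evM_append) and put it first in the list (the product
is commutative: List.Perm).  Apply loop: every term on the right has m - 2 random letters and the same multiset of
constant letters (counts: List.count_append, count of take and drop).  Concatenate the finite lists with the
coefficients multiplied by 1/n (lists: flatMap over the positions; a term with the if false contributes nothing).
-/
import Pool.Agent.H55.ML.G3

namespace Pool.Agent.H55.ML
open MeasureTheory ProbabilityTheory Matrix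

variable {n : ℕ} {κ : Type}

private def PiRep [DecidableEq κ] (c : κ → ℕ) (F : (κ → Mat n) → ℂ) : Prop :=
  ∃ s : List (ℂ × List (List κ)), (∀ t ∈ s, ∀ k : κ, t.2.flatten.count k = c k) ∧
    ∀ M : κ → Mat n, F M = (s.map fun t => t.1 * tm M t.2).sum

private lemma pi_zero [DecidableEq κ] (c : κ → ℕ) :
    PiRep c (fun _ : κ → Mat n => (0 : ℂ)) := ⟨[], by simp, by simp⟩

private lemma pi_add [DecidableEq κ] {c : κ → ℕ} {F G : (κ → Mat n) → ℂ} (hF : PiRep c F)
    (hG : PiRep c G) : PiRep c (fun M => F M + G M) := by
  obtain ⟨s, hs, hs'⟩ := hF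
  obtain ⟨t, ht, ht'⟩ := hG
  refine ⟨s ++ t, ?_, ?_⟩
  · intro x hx k
    rcases List.mem_append.1 hx with h | h
    · exact hs x h k
    · exact ht x h k
  · intro M
    rw [List.map_append, List.sum_append, ← hs' M, ← ht' M]

private lemma pi_smul [DecidableEq κ] {c : κ → ℕ} {F : (κ → Mat n) → ℂ} (hF : PiRep c F) (a : ℂ) :
    PiRep c (fun M => a * F M) := by
  obtain ⟨s, hs, hs'⟩ := hF
  refine ⟨s.map fun t => (a * t.1, t.2), ?_, ?_⟩
  · intro x hx k
    obtain ⟨y, hy, rfl⟩ := List.mem_map.1 hx
    exact hs y hy k
  · intro M
    change a * F M = _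
    rw [hs' M, List.map_map, ← List.sum_map_mul_left]
    congr 1
    refine List.map_congr_left fun t _ => ?_
    simp only [Function.comp]
    ring

private lemma pi_sum [DecidableEq κ] {c : κ → ℕ} (F : ℕ → (κ → Mat n) → ℂ) (N : ℕ)
    (hF : ∀ i < N, PiRep c (F i)) : PiRep c (fun M => ∑ i ∈ Finset.range N, F i M) := by
  induction N with
  | zero =>
    simp only [Finset.range_zero, Finset.sum_empty]
    exact pi_zero c
  | succ N ih =>
    simp only [Finset.sum_range_succ]
    exact pi_add (ih fun i hi => hF i (by omega)) (hF N (by omega))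

private lemma pi_split {α : Type} {w : List α} {p : ℕ} {a : α} (h : w[p]? = some a) :
    w = w.take p ++ a :: w.drop (p + 1) := by
  obtain ⟨hp, rfl⟩ := List.getElem?_eq_some_iff.1 h
  rw [List.getElem_cons_drop, List.take_append_drop]

private lemma pi_split2 {α : Type} {ws : List (List α)} {i : ℕ} (h : i < ws.length) :
    ws = ws.take i ++ ws.getD i [] :: ws.drop (i + 1) := by
  apply pi_split
  rw [List.getD_eq_getElem?_getD, List.getElem?_eq_getElem h]
  rfl

private lemma pi_tm_append (M : κ → Mat n) (l1 l2 : List (List κ)) :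
    tm M (l1 ++ l2) = tm M l1 * tm M l2 := by
  unfold tm
  rw [List.map_append, List.prod_append]

private lemma pi_tm_cons (M : κ → Mat n) (w : List κ) (l : List (List κ)) :
    tm M (w :: l) = (evM M w).trace * tm M l := by
  unfold tm
  rw [List.map_cons, List.prod_cons]

private lemma pi_ev_append (M : κ → Mat n) (w1 w2 : List κ) :
    evM M (w1 ++ w2) = evM M w1 * evM M w2 := by
  unfold evM
  rw [List.map_append, List.prod_append]

private lemma pi_rot (M : κ → Mat n) (w1 w2 : List κ) :
    (evM M (w1 ++ w2)).trace = (evM M (w2 ++ w1)).trace := by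
  rw [pi_ev_append, pi_ev_append, Matrix.trace_mul_comm]

private lemma pi_front (M : κ → Mat n) (l1 l2 : List (List κ)) (w1 w2 : List κ) (a : κ) :
    tm M (l1 ++ (w1 ++ a :: w2) :: l2) = tm M ((a :: (w2 ++ w1)) :: (l1 ++ l2)) := by
  rw [pi_tm_append, pi_tm_cons, pi_tm_cons, pi_tm_append, pi_rot M w1 (a :: w2)]
  rw [List.cons_append]
  ring

private lemma pi_inr (g : Fin n × Fin n → ℂ) (M : κ → Mat n) (w : List κ) :
    evM (gm g M) (w.map Sum.inr) = evM M w := by
  unfold evM gm
  rw [List.map_map]
  rfl

private lemma pi_inrs (g : Fin n × Fin n → ℂ) (M : κ → Mat n) (ws : List (List κ)) :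
    tm (gm g M) (ws.map (List.map Sum.inr)) = tm M ws := by
  unfold tm
  rw [List.map_map]
  congr 1
  refine List.map_congr_left fun w _ => ?_
  simp only [Function.comp, pi_inr]

private lemma pi_prob : IsProbabilityMeasure (gin n) := by
  unfold gin
  infer_instance

private lemma pi_word (w : List (Bool ⊕ κ)) (h : ∀ b, Sum.inl b ∉ w) :
    ∃ v : List κ, w = v.map Sum.inr := by
  induction w with
  | nil => exact ⟨[], rfl⟩
  | cons a w ih =>
    obtain ⟨v, hv⟩ := ih fun b hb => h b (List.mem_cons_of_mem _ hb)
    rcases a with b | k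
    · exact absurd List.mem_cons_self (h b)
    · exact ⟨k :: v, by rw [hv, List.map_cons]⟩

private lemma pi_words (ws : List (List (Bool ⊕ κ))) (h : ∀ w ∈ ws, ∀ b, Sum.inl b ∉ w) :
    ∃ vs : List (List κ), ws = vs.map (List.map Sum.inr) := by
  induction ws with
  | nil => exact ⟨[], rfl⟩
  | cons w ws ih =>
    obtain ⟨vs, hvs⟩ := ih fun w hw => h w (List.mem_cons_of_mem _ hw)
    obtain ⟨v, hv⟩ := pi_word w (h w List.mem_cons_self)
    exact ⟨v :: vs, by rw [hvs, hv, List.map_cons]⟩

private lemma pi_ne [DecidableEq κ] (b : Bool) (k : κ) :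
    ((Sum.inl b : Bool ⊕ κ) == Sum.inr k) = false := rfl

private lemma pi_eq [DecidableEq κ] (l k : κ) :
    ((Sum.inr l : Bool ⊕ κ) == Sum.inr k) = (l == k) := rfl

private lemma pi_cnt0 [DecidableEq κ] (v : List κ) (k : κ) :
    (v.map (Sum.inr : κ → Bool ⊕ κ)).count (Sum.inr k) = v.count k := by
  induction v with
  | nil => rfl
  | cons a v ih => rw [List.map_cons, List.count_cons, List.count_cons, ih, pi_eq]

private lemma pi_cnt [DecidableEq κ] (vs : List (List κ)) (k : κ) :
    (vs.map (List.map (Sum.inr : κ → Bool ⊕ κ))).flatten.count (Sum.inr k) = vs.flatten.count k := by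
  rw [← List.map_flatten, pi_cnt0]

private lemma pi_main [DecidableEq κ] (hn : 1 ≤ n) (m : ℕ) : ∀ ws : List (List (Bool ⊕ κ)),
    ws.flatten.countP Sum.isLeft = m →
    PiRep (fun k => ws.flatten.count (Sum.inr k)) (fun M : κ → Mat n =>
      ∫ g, tm (gm g M) ws ∂(gin n)) := by
  induction m using Nat.strong_induction_on with
  | _ m ih =>
  intro ws hm
  by_cases h : ∀ w ∈ ws, ∀ b, Sum.inl b ∉ w
  · obtain ⟨vs, rfl⟩ := pi_words ws h
    have := pi_prob (n := n)
    refine ⟨[(1, vs)], ?_, ?_⟩
    · intro t ht k
      rw [List.mem_singleton] at ht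
      subst ht
      exact (pi_cnt vs k).symm
    · intro M
      simp [pi_inrs]
  · push Not at h
    obtain ⟨w, hw, b, hb⟩ := h
    obtain ⟨l1, l2, rfl⟩ := List.append_of_mem hw
    obtain ⟨w1, w2, rfl⟩ := List.append_of_mem hb
    simp only [pi_front, loop hn]
    have key : ∀ (ws' : List (List (Bool ⊕ κ))),
        ws'.flatten.countP Sum.isLeft + 2 = m →
        (∀ k, ws'.flatten.count (Sum.inr k) =
          (l1 ++ (w1 ++ Sum.inl b :: w2) :: l2).flatten.count (Sum.inr k)) →
        PiRep (fun k => (l1 ++ (w1 ++ Sum.inl b :: w2) :: l2).flatten.count (Sum.inr k))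
          (fun M : κ → Mat n => ∫ g, tm (gm g M) ws' ∂(gin n)) := by
      intro ws' h1 h2
      have := ih (ws'.flatten.countP Sum.isLeft) (by omega) ws' rfl
      simp only [h2] at this
      exact this
    refine pi_add (pi_smul (pi_sum _ _ fun p _ => ?_) _) (pi_smul (pi_sum _ _ fun i hi =>
      pi_sum _ _ fun p _ => ?_) _)
    · by_cases hp : (w2 ++ w1)[p]? = some (Sum.inl (!b))
      · simp only [hp, if_true]
        have hs := pi_split hp
        refine key _ ?_ ?_
        · have h1 := congrArg (List.countP Sum.isLeft) hs
          simp only [List.flatten_append, List.flatten_cons, List.countP_append, List.countP_cons,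
            Sum.isLeft_inl, if_true] at h1 hm ⊢
          omega
        · intro k
          have h1 := congrArg (List.count (Sum.inr k)) hs
          simp only [List.flatten_append, List.flatten_cons, List.count_append, List.count_cons,
            pi_ne, Bool.false_eq_true, if_false] at h1 ⊢
          omega
      · simp only [hp, if_false]
        exact pi_zero _
    · by_cases hp : ((l1 ++ l2).getD i [])[p]? = some (Sum.inl (!b))
      · simp only [hp, if_true]
        have hs := pi_split hp
        have hs2 := pi_split2 hi
        rw [List.eraseIdx_eq_take_drop_succ]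
        refine key _ ?_ ?_
        · have h1 := congrArg (List.countP Sum.isLeft) hs
          have h2 := congrArg (fun l => (List.countP Sum.isLeft (List.flatten l))) hs2
          simp only [List.flatten_append, List.flatten_cons, List.countP_append, List.countP_cons,
            Sum.isLeft_inl, if_true] at h1 h2 hm ⊢
          omega
        · intro k
          have h1 := congrArg (List.count (Sum.inr k)) hs
          have h2 := congrArg (fun l => (List.count (Sum.inr k) (List.flatten l))) hs2
          simp only [List.flatten_append, List.flatten_cons, List.count_append, List.count_cons,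
            pi_ne, Bool.false_eq_true, if_false] at h1 h2 ⊢
          omega
      · simp only [hp, if_false]
        exact pi_zero _

theorem part_int {n : ℕ} (hn : 1 ≤ n) {κ : Type} [DecidableEq κ] (ws : List (List (Bool ⊕ κ))) :
    ∃ s : List (ℂ × List (List κ)),
      (∀ t ∈ s, ∀ k : κ, t.2.flatten.count k = ws.flatten.count (Sum.inr k)) ∧
      ∀ M : κ → Mat n, ∫ g, tm (gm g M) ws ∂(gin n) = (s.map fun t => t.1 * tm M t.2).sum := by
  exact pi_main hn _ ws rfl

end Pool.Agent.H55.ML
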