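/-
N1 (Opn).  The operator norm `opn` of square complex matrices.  About 150 lines, Mathlib + Defs only.
opn A = ‖Matrix.toEuclideanCLM A‖ and toEuclideanCLM is a star algebra isomorphism onto the continuous
linear maps of EuclideanSpace ℂ ι, so everything is a fact on operator norms
(ContinuousLinearMap.opNorm_le_bound, le_opNorm, norm_star / adjoint.norm_map, map_mul, map_add ...).
nv v = ‖(WithLp.toLp 2 v)‖^2 (EuclideanSpace.norm_sq_eq).
hs2_mul_le: hs2 (A * B) = sum over the columns of nv (A *ᵥ column) .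
opn_sq_le_hs2: Cauchy-Schwarz row by row.  norm_trace_le: every diagonal entry is at most opn A.
continuous_opn: toEuclideanCLM is a linear map from a finite dimensional space, hence continuous
(LinearMap.continuous_of_finiteDimensional); the topology of Matrix is the product topology.
-/
import Pool.Agent.H55.ML.Defs

namespace Pool.Agent.H55.ML
open Matrix

variable {ι : Type*} [Fintype ι] [DecidableEq ι]

theorem nv_nonneg (v : ι → ℂ) : 0 ≤ nv v := by
  unfold nv
  exact Finset.sum_nonneg fun i _ => by positivity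

theorem hs2_nonneg {κ : Type*} [Fintype κ] (A : Matrix ι κ ℂ) : 0 ≤ hs2 A := by
  unfold hs2
  exact Finset.sum_nonneg fun i _ => Finset.sum_nonneg fun j _ => by positivity

omit [DecidableEq ι] in
private lemma nv_eq (v : ι → ℂ) : nv v = ‖WithLp.toLp 2 v‖ ^ 2 := by
  rw [EuclideanSpace.norm_sq_eq]; rfl

omit [DecidableEq ι] in
private lemma sqrt_nv (v : ι → ℂ) : Real.sqrt (nv v) = ‖WithLp.toLp 2 v‖ := by
  rw [nv_eq, Real.sqrt_sq (norm_nonneg _)]

theorem opn_nonneg (A : Matrix ι ι ℂ) : 0 ≤ opn A := by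
  unfold opn; exact norm_nonneg _

theorem opn_zero : opn (0 : Matrix ι ι ℂ) = 0 := by
  unfold opn; rw [map_zero, norm_zero]

theorem opn_one_le : opn (1 : Matrix ι ι ℂ) ≤ 1 := by
  unfold opn; rw [map_one]; exact ContinuousLinearMap.norm_id_le

theorem opn_mul_le (A B : Matrix ι ι ℂ) : opn (A * B) ≤ opn A * opn B := by
  unfold opn; rw [map_mul]; exact ContinuousLinearMap.opNorm_comp_le _ _

theorem opn_add_le (A B : Matrix ι ι ℂ) : opn (A + B) ≤ opn A + opn B := by
  unfold opn; rw [map_add]; exact norm_add_le _ _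

theorem opn_sub_le (A B : Matrix ι ι ℂ) : opn (A - B) ≤ opn A + opn B := by
  unfold opn; rw [map_sub]; exact norm_sub_le _ _

theorem opn_smul (c : ℂ) (A : Matrix ι ι ℂ) : opn (c • A) = ‖c‖ * opn A := by
  unfold opn; rw [map_smul]; exact norm_smul _ _

theorem opn_conjTranspose (A : Matrix ι ι ℂ) : opn Aᴴ = opn A := by
  unfold opn
  rw [← Matrix.star_eq_conjTranspose, map_star, ContinuousLinearMap.star_eq_adjoint]
  exact LinearIsometryEquiv.norm_map _ _

theorem nv_mulVec_le (A : Matrix ι ι ℂ) (v : ι → ℂ) : nv (A *ᵥ v) ≤ opn A ^ 2 * nv v := by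
  rw [nv_eq, nv_eq, ← mul_pow]
  refine pow_le_pow_left₀ (norm_nonneg _) ?_ 2
  have h := (Matrix.toEuclideanCLM (n := ι) (𝕜 := ℂ) A).le_opNorm (WithLp.toLp 2 v)
  rw [Matrix.toEuclideanCLM_toLp] at h
  exact h

theorem opn_le_of (A : Matrix ι ι ℂ) (c : ℝ) (hc : 0 ≤ c)
    (h : ∀ v : ι → ℂ, nv (A *ᵥ v) ≤ c ^ 2 * nv v) : opn A ≤ c := by
  unfold opn
  refine ContinuousLinearMap.opNorm_le_bound _ hc fun x => ?_
  have h1 := h (WithLp.ofLp x)
  rw [nv_eq, nv_eq, ← mul_pow] at h1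
  have h2 := (pow_le_pow_iff_left₀ (norm_nonneg _) (by positivity) two_ne_zero).1 h1
  have h3 : Matrix.toEuclideanCLM (n := ι) (𝕜 := ℂ) A x = WithLp.toLp 2 (A *ᵥ WithLp.ofLp x) := rfl
  rw [h3]
  exact h2

theorem norm_dot_le (u v : ι → ℂ) :
    ‖star u ⬝ᵥ v‖ ≤ Real.sqrt (nv u) * Real.sqrt (nv v) := by
  rw [sqrt_nv, sqrt_nv]
  have h := norm_inner_le_norm (𝕜 := ℂ) (WithLp.toLp 2 u) (WithLp.toLp 2 v)
  have h2 : (inner ℂ (WithLp.toLp 2 u) (WithLp.toLp 2 v) : ℂ) = star u ⬝ᵥ v := by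
    rw [EuclideanSpace.inner_eq_star_dotProduct, dotProduct_comm]
  rw [h2] at h
  exact h

theorem norm_form_le (A : Matrix ι ι ℂ) (u v : ι → ℂ) :
    ‖star u ⬝ᵥ (A *ᵥ v)‖ ≤ opn A * (Real.sqrt (nv u) * Real.sqrt (nv v)) := by
  refine (norm_dot_le u (A *ᵥ v)).trans ?_
  have h : Real.sqrt (nv (A *ᵥ v)) ≤ opn A * Real.sqrt (nv v) := by
    have h1 := Real.sqrt_le_sqrt (nv_mulVec_le A v)
    rwa [Real.sqrt_mul (by positivity), Real.sqrt_sq (opn_nonneg A)] at h1
  calc _ ≤ Real.sqrt (nv u) * (opn A * Real.sqrt (nv v)) :=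
        mul_le_mul_of_nonneg_left h (Real.sqrt_nonneg _)
    _ = _ := by ring

omit [DecidableEq ι] in
private lemma hs2_cols (A : Matrix ι ι ℂ) : hs2 A = ∑ j, nv (fun i => A i j) := by
  unfold hs2 nv
  exact Finset.sum_comm

private lemma hs2_conjT (A : Matrix ι ι ℂ) : hs2 Aᴴ = hs2 A := by
  unfold hs2
  rw [Finset.sum_comm]
  refine Finset.sum_congr rfl fun i _ => Finset.sum_congr rfl fun j _ => ?_
  rw [Matrix.conjTranspose_apply, norm_star]

theorem hs2_mul_le (A B : Matrix ι ι ℂ) : hs2 (A * B) ≤ opn A ^ 2 * hs2 B := by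
  rw [hs2_cols, hs2_cols, Finset.mul_sum]
  refine Finset.sum_le_sum fun j _ => ?_
  have h : (fun i => (A * B) i j) = A *ᵥ (fun i => B i j) := by
    funext i; rfl
  rw [h]
  exact nv_mulVec_le A _

theorem hs2_mul_le' (A B : Matrix ι ι ℂ) : hs2 (A * B) ≤ hs2 A * opn B ^ 2 := by
  rw [← hs2_conjT (A * B), Matrix.conjTranspose_mul]
  refine (hs2_mul_le _ _).trans (le_of_eq ?_)
  rw [opn_conjTranspose, hs2_conjT, mul_comm]

theorem hs2_le_opn (A : Matrix ι ι ℂ) : hs2 A ≤ Fintype.card ι * opn A ^ 2 := by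
  have h := hs2_mul_le A (1 : Matrix ι ι ℂ)
  rw [mul_one] at h
  refine h.trans (le_of_eq ?_)
  have h1 : hs2 (1 : Matrix ι ι ℂ) = Fintype.card ι := by
    unfold hs2
    have : ∀ i : ι, ∑ j, ‖(1 : Matrix ι ι ℂ) i j‖ ^ 2 = 1 := by
      intro i
      rw [Finset.sum_eq_single i]
      · simp
      · intro b _ hb
        rw [Matrix.one_apply_ne (Ne.symm hb)]; simp
      · intro h; exact absurd (Finset.mem_univ i) h
    rw [Finset.sum_congr rfl fun i _ => this i]
    simp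
  rw [h1, mul_comm]

theorem hs2_add_le (A B : Matrix ι ι ℂ) : hs2 (A + B) ≤ 2 * hs2 A + 2 * hs2 B := by
  unfold hs2
  rw [Finset.mul_sum, Finset.mul_sum, ← Finset.sum_add_distrib]
  refine Finset.sum_le_sum fun i _ => ?_
  rw [Finset.mul_sum, Finset.mul_sum, ← Finset.sum_add_distrib]
  refine Finset.sum_le_sum fun j _ => ?_
  rw [Matrix.add_apply]
  have h := norm_add_le (A i j) (B i j)
  nlinarith [sq_nonneg (‖A i j‖ - ‖B i j‖), norm_nonneg (A i j + B i j), norm_nonneg (A i j),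
    norm_nonneg (B i j)]

theorem hs2_sub_le (A B : Matrix ι ι ℂ) : hs2 (A - B) ≤ 2 * hs2 A + 2 * hs2 B := by
  have h := hs2_add_le A (-B)
  rw [← sub_eq_add_neg] at h
  have h2 : hs2 (-B) = hs2 B := by
    unfold hs2
    refine Finset.sum_congr rfl fun i _ => Finset.sum_congr rfl fun j _ => ?_
    rw [Matrix.neg_apply, norm_neg]
  rwa [h2] at h

theorem opn_sq_le_hs2 (A : Matrix ι ι ℂ) : opn A ^ 2 ≤ hs2 A := by
  have hA := hs2_nonneg A
  have h : opn A ≤ Real.sqrt (hs2 A) := by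
    refine opn_le_of A _ (Real.sqrt_nonneg _) fun v => ?_
    rw [Real.sq_sqrt hA]
    unfold nv hs2
    rw [Finset.sum_mul]
    refine Finset.sum_le_sum fun i _ => ?_
    have h1 : ‖(A *ᵥ v) i‖ ≤ ∑ j, ‖A i j‖ * ‖v j‖ := by
      refine (norm_sum_le _ _).trans (le_of_eq ?_)
      exact Finset.sum_congr rfl fun j _ => norm_mul _ _
    have h2 := Finset.sum_mul_sq_le_sq_mul_sq (Finset.univ : Finset ι) (fun j => ‖A i j‖)
      (fun j => ‖v j‖)
    exact (pow_le_pow_left₀ (norm_nonneg _) h1 2).trans h2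
  have h3 := pow_le_pow_left₀ (opn_nonneg A) h 2
  rwa [Real.sq_sqrt hA] at h3

theorem norm_trace_le (A : Matrix ι ι ℂ) : ‖A.trace‖ ≤ Fintype.card ι * opn A := by
  unfold Matrix.trace
  refine (norm_sum_le _ _).trans ?_
  have h : ∀ i : ι, ‖A.diag i‖ ≤ opn A := by
    intro i
    have h1 := nv_mulVec_le A (Pi.single i (1 : ℂ))
    have h2 : nv (Pi.single i (1 : ℂ)) = 1 := by
      unfold nv
      rw [Finset.sum_eq_single i]
      · simp
      · intro b _ hb
        rw [Pi.single_eq_of_ne hb]; simp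
      · intro h; exact absurd (Finset.mem_univ i) h
    rw [h2, mul_one] at h1
    have h3 : ‖A.diag i‖ ^ 2 ≤ nv (A *ᵥ Pi.single i (1 : ℂ)) := by
      unfold nv
      have h4 : (A *ᵥ Pi.single i (1 : ℂ)) i = A.diag i := by
        simp [Matrix.diag_apply]
      rw [← h4]
      exact Finset.single_le_sum (f := fun j => ‖(A *ᵥ Pi.single i (1 : ℂ)) j‖ ^ 2)
        (fun j _ => by positivity) (Finset.mem_univ i)
    exact (pow_le_pow_iff_left₀ (norm_nonneg _) (opn_nonneg A) two_ne_zero).1 (h3.trans h1)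
  calc ∑ i, ‖A.diag i‖ ≤ ∑ _i : ι, opn A := Finset.sum_le_sum fun i _ => h i
    _ = _ := by simp

theorem continuous_opn : Continuous (opn : Matrix ι ι ℂ → ℝ) := by
  have h : Continuous (fun A : Matrix ι ι ℂ => Matrix.toEuclideanCLM (n := ι) (𝕜 := ℂ) A) := by
    exact LinearMap.continuous_of_finiteDimensional
      ((Matrix.toEuclideanCLM (n := ι) (𝕜 := ℂ)).toAlgEquiv.toLinearMap)
  exact h.norm

end Pool.Agent.H55.ML
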