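/-
N2 (OpD).  Operator norms of the superoperators.  About 120 lines.
opn_Lf_le: nv (Lf A *ᵥ v) = sum over j of nv (A *ᵥ v(.,j)) <= opn A ^2 nv v, then opn_le_of; Rt A has the
same form with Aᵀ: (Rt A *ᵥ v)(i,j) = sum_l v(i,l) A l j; use opn Aᵀ = opn A, or
star-conjugate: nv of (row vector times A) = nv (Aᴴ *ᵥ conj row) <= opn A^2 nv(row).
opn_DD_le: DD X = δ' δ + δ δ', opn δ, opn δ' <= 2 opn X.
opn_DD_sub_le: with δ = Lf X - Rt X, ε = Lf Y - Rt Y: δ'δ - ε'ε = δ'(δ - ε) + (δ' - ε')ε, and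
δ - ε = Lf (X - Y) - Rt (X - Y), total (2|X| 2|X-Y| + 2|X-Y| 2|Y|) twice.
Gd n is closed (continuous_opn and continuity of XX).
-/
import Pool.Agent.H55.ML.LR
import Pool.Agent.H55.ML.Opn

namespace Pool.Agent.H55.ML
open Matrix MeasureTheory
open scoped Kronecker

variable {n : ℕ}

private lemma Lf_mulVec (A : Mat n) (v : Fin n × Fin n → ℂ) (i j : Fin n) :
    (Lf A *ᵥ v) (i, j) = (A *ᵥ fun k => v (k, j)) i := by
  simp only [Lf, Matrix.mulVec, dotProduct, Matrix.kroneckerMap_apply, Fintype.sum_prod_type,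
    Matrix.one_apply]
  refine Finset.sum_congr rfl fun k _ => ?_
  rw [Finset.sum_eq_single j]
  · simp
  · intro b _ hb
    rw [if_neg (Ne.symm hb)]; ring
  · intro h; exact absurd (Finset.mem_univ j) h

private lemma Rt_mulVec (A : Mat n) (v : Fin n × Fin n → ℂ) (i j : Fin n) :
    (Rt A *ᵥ v) (i, j) = ∑ l, A l j * v (i, l) := by
  simp only [Rt, Matrix.mulVec, dotProduct, Matrix.kroneckerMap_apply, Fintype.sum_prod_type,
    Matrix.one_apply, Matrix.transpose_apply]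
  rw [Finset.sum_eq_single i]
  · simp
  · intro b _ hb
    refine Finset.sum_eq_zero fun x _ => ?_
    rw [if_neg (Ne.symm hb)]; ring
  · intro h; exact absurd (Finset.mem_univ i) h

private lemma nv_pair (v : Fin n × Fin n → ℂ) : nv v = ∑ i, ∑ j, ‖v (i, j)‖ ^ 2 := by
  unfold nv
  rw [Fintype.sum_prod_type]

theorem opn_Lf_le (A : Mat n) : opn (Lf A) ≤ opn A := by
  refine opn_le_of _ _ (opn_nonneg A) fun v => ?_
  rw [nv_pair, nv_pair, Finset.sum_comm, Finset.sum_comm (f := fun i j => ‖v (i, j)‖ ^ 2),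
    Finset.mul_sum]
  refine Finset.sum_le_sum fun j _ => ?_
  have h := nv_mulVec_le A (fun k => v (k, j))
  unfold nv at h
  simp only [Lf_mulVec]
  exact h

private lemma nv_star {ι : Type*} [Fintype ι] (v : ι → ℂ) : nv (fun i => star (v i)) = nv v := by
  unfold nv
  exact Finset.sum_congr rfl fun i _ => by rw [norm_star]

theorem opn_Rt_le (A : Mat n) : opn (Rt A) ≤ opn A := by
  refine opn_le_of _ _ (opn_nonneg A) fun v => ?_
  rw [nv_pair, nv_pair, Finset.mul_sum]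
  refine Finset.sum_le_sum fun i _ => ?_
  have h := nv_mulVec_le Aᴴ (fun l => star (v (i, l)))
  rw [opn_conjTranspose, nv_star] at h
  unfold nv at h
  refine le_trans (le_of_eq ?_) h
  refine Finset.sum_congr rfl fun j _ => ?_
  rw [Rt_mulVec]
  congr 1
  rw [← norm_star (∑ l, A l j * v (i, l))]
  congr 1
  rw [star_sum]
  simp only [Matrix.mulVec, dotProduct, Matrix.conjTranspose_apply]
  exact Finset.sum_congr rfl fun l _ => by rw [star_mul']

theorem opn_ev_le (X : Mat n) (w : List Bool) : opn (ev X Xᴴ w) ≤ opn X ^ w.length := by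
  induction w with
  | nil => simpa [ev] using opn_one_le (ι := Fin n)
  | cons b w ih =>
    have h : ev X Xᴴ (b :: w) = (cond b X Xᴴ) * ev X Xᴴ w := by simp [ev]
    rw [h, List.length_cons, pow_succ']
    refine (opn_mul_le _ _).trans ?_
    have hb : opn (cond b X Xᴴ) = opn X := by
      cases b
      · exact opn_conjTranspose X
      · rfl
    rw [hb]
    exact mul_le_mul_of_nonneg_left ih (opn_nonneg X)

private lemma opn_del (X Y : Mat n) (h : opn Y = opn X) : opn (Lf Y - Rt Y) ≤ 2 * opn X := by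
  refine (opn_sub_le _ _).trans ?_
  have h1 := opn_Lf_le Y
  have h2 := opn_Rt_le Y
  linarith

theorem opn_DD_le (X : Mat n) : opn (DD X) ≤ 8 * opn X ^ 2 := by
  unfold DD DDg
  have hX := opn_nonneg X
  have h1 := opn_del X X rfl
  have h2 := opn_del X Xᴴ (opn_conjTranspose X)
  have h3 := opn_nonneg (Lf X - Rt X)
  have h4 := opn_nonneg (Lf Xᴴ - Rt Xᴴ)
  refine (opn_add_le _ _).trans ?_
  have h5 := opn_mul_le (Lf Xᴴ - Rt Xᴴ) (Lf X - Rt X)
  have h6 := opn_mul_le (Lf X - Rt X) (Lf Xᴴ - Rt Xᴴ)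
  have h7 : opn (Lf X - Rt X) * opn (Lf Xᴴ - Rt Xᴴ) ≤ (2 * opn X) * (2 * opn X) :=
    mul_le_mul h1 h2 h4 (mul_nonneg zero_le_two hX)
  have h8 : opn (Lf Xᴴ - Rt Xᴴ) * opn (Lf X - Rt X) = opn (Lf X - Rt X) * opn (Lf Xᴴ - Rt Xᴴ) :=
    mul_comm _ _
  have h9 : 8 * opn X ^ 2 = 2 * ((2 * opn X) * (2 * opn X)) := by ring
  linarith

theorem opn_DD_sub_le (X Y : Mat n) :
    opn (DD X - DD Y) ≤ 8 * (opn X + opn Y) * opn (X - Y) := by
  have key : ∀ d d' e e' : Op n, (d' * d + d * d') - (e' * e + e * e') =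
      (d' * (d - e) + (d' - e') * e) + (d * (d' - e') + (d - e) * e') := by
    intro d d' e e'
    noncomm_ring
  have hd : (Lf X - Rt X) - (Lf Y - Rt Y) = Lf (X - Y) - Rt (X - Y) := by
    have h1 : Lf X = Lf (X - Y) + Lf Y := by rw [← Lf_add, sub_add_cancel]
    have h2 : Rt X = Rt (X - Y) + Rt Y := by rw [← Rt_add, sub_add_cancel]
    rw [h1, h2]; abel
  have hd' : (Lf Xᴴ - Rt Xᴴ) - (Lf Yᴴ - Rt Yᴴ) = Lf (X - Y)ᴴ - Rt (X - Y)ᴴ := by
    have h1 : Lf Xᴴ = Lf (X - Y)ᴴ + Lf Yᴴ := by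
      rw [← Lf_add, ← Matrix.conjTranspose_add, sub_add_cancel]
    have h2 : Rt Xᴴ = Rt (X - Y)ᴴ + Rt Yᴴ := by
      rw [← Rt_add, ← Matrix.conjTranspose_add, sub_add_cancel]
    rw [h1, h2]; abel
  unfold DD DDg
  rw [key, hd, hd']
  have hX := opn_nonneg X
  have hY := opn_nonneg Y
  have hXY := opn_nonneg (X - Y)
  have a1 := opn_del X X rfl
  have a2 := opn_del X Xᴴ (opn_conjTranspose X)
  have b1 := opn_del Y Y rfl
  have b2 := opn_del Y Yᴴ (opn_conjTranspose Y)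
  have c1 := opn_del (X - Y) (X - Y) rfl
  have c2 := opn_del (X - Y) (X - Y)ᴴ (opn_conjTranspose (X - Y))
  have t1 := opn_mul_le (Lf Xᴴ - Rt Xᴴ) (Lf (X - Y) - Rt (X - Y))
  have t2 := opn_mul_le (Lf (X - Y)ᴴ - Rt (X - Y)ᴴ) (Lf Y - Rt Y)
  have t3 := opn_mul_le (Lf X - Rt X) (Lf (X - Y)ᴴ - Rt (X - Y)ᴴ)
  have t4 := opn_mul_le (Lf (X - Y) - Rt (X - Y)) (Lf Yᴴ - Rt Yᴴ)
  have u1 : opn (Lf Xᴴ - Rt Xᴴ) * opn (Lf (X - Y) - Rt (X - Y)) ≤ (2 * opn X) * (2 * opn (X - Y)) :=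
    mul_le_mul a2 c1 (opn_nonneg _) (mul_nonneg zero_le_two hX)
  have u2 : opn (Lf (X - Y)ᴴ - Rt (X - Y)ᴴ) * opn (Lf Y - Rt Y) ≤ (2 * opn (X - Y)) * (2 * opn Y) :=
    mul_le_mul c2 b1 (opn_nonneg _) (mul_nonneg zero_le_two hXY)
  have u3 : opn (Lf X - Rt X) * opn (Lf (X - Y)ᴴ - Rt (X - Y)ᴴ) ≤ (2 * opn X) * (2 * opn (X - Y)) :=
    mul_le_mul a1 c2 (opn_nonneg _) (mul_nonneg zero_le_two hX)
  have u4 : opn (Lf (X - Y) - Rt (X - Y)) * opn (Lf Yᴴ - Rt Yᴴ) ≤ (2 * opn (X - Y)) * (2 * opn Y) :=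
    mul_le_mul c1 b2 (opn_nonneg _) (mul_nonneg zero_le_two hXY)
  refine (opn_add_le _ _).trans ?_
  have s1 := opn_add_le ((Lf Xᴴ - Rt Xᴴ) * (Lf (X - Y) - Rt (X - Y)))
    ((Lf (X - Y)ᴴ - Rt (X - Y)ᴴ) * (Lf Y - Rt Y))
  have s2 := opn_add_le ((Lf X - Rt X) * (Lf (X - Y)ᴴ - Rt (X - Y)ᴴ))
    ((Lf (X - Y) - Rt (X - Y)) * (Lf Yᴴ - Rt Yᴴ))
  have e : 8 * (opn X + opn Y) * opn (X - Y) =
      2 * ((2 * opn X) * (2 * opn (X - Y))) + 2 * ((2 * opn (X - Y)) * (2 * opn Y)) := by ring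
  linarith

theorem XX_add (g h : Fin n × Fin n → ℂ) : XX (g + h) = XX g + XX h := by
  unfold XX
  rw [← smul_add]
  rfl

theorem XX_smul (c : ℂ) (g : Fin n × Fin n → ℂ) : XX (c • g) = c • XX g := by
  unfold XX
  rw [smul_comm]
  rfl

theorem continuous_XX : Continuous (XX : (Fin n × Fin n → ℂ) → Mat n) := by
  have h : Continuous (fun g : Fin n × Fin n → ℂ => (Matrix.of (fun i j => g (i, j)) : Mat n)) := by
    refine continuous_pi fun i => continuous_pi fun j => ?_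
    exact continuous_apply (i, j)
  exact h.const_smul ((Real.sqrt n : ℂ))⁻¹

theorem measurableSet_Gd (n : ℕ) : MeasurableSet (Gd n) := by
  have h : IsClosed (Gd n) := by
    unfold Gd
    refine isClosed_le ?_ continuous_const
    exact continuous_const.mul ((continuous_opn.comp continuous_XX).pow 2)
  exact h.measurableSet

end Pool.Agent.H55.ML
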