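/-
S3a (Split).  Expansion of a trace polynomial in c X + s X'.  Needs G3.  About 180 lines.
Letters of the expanded words: inl b = the new random matrix X' or X'*; inr (inl b) = the old X or X* (constant for the
integration over X'); inr (inr k) = constants.  In the words w the letter inl b stands for c X + s X' (b = true) or its
adjoint.
STATEMENT.  tm (letters at c g + s g') ws = c^m tm (all old) + finite sum of t.1 * tm (expanded words t.2), where
every t.2 has fewer than m old letters (m = number of random letters of ws) and the same numbers of constants.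
PROOF.  XX (c g + s g') = c XX g + s XX g' (XX_add, XX_smul; c, s real so the adjoint is the same combination).
First for one word and matrices (evM): induction on the word: (c X_b + s X'_b)(c^m W_old + sum t W_t) =
c^{m+1} X_b W_old + s c^m X'_b W_old + sum c t X_b W_t + sum s t X'_b W_t: the last three kinds have at most m old
letters (W_t has < m).  Constant letters: multiply.  Then the trace (linear) and the product over the list of words
(induction on the list, same counting).  Keep the counts of the constant letters in the induction.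
-/
import Pool.Agent.H55.ML.G3
import Pool.Agent.H55.ML.OpD

namespace Pool.Agent.H55.ML
open MeasureTheory ProbabilityTheory Matrix

variable {n : ℕ}

/-- number of random letters -/
def nrand {κ : Type} (ws : List (List (Bool ⊕ κ))) : ℕ :=
  (ws.flatten.filter fun x => x.isLeft).length

/-- number of old letters in an expanded list of words -/
def nold {κ : Type} (ws : List (List (Bool ⊕ (Bool ⊕ κ)))) : ℕ :=
  (ws.flatten.filter fun x => match x with
    | Sum.inr (Sum.inl _) => true
    | _ => false).length

section
variable {κ : Type}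

private theorem Split_lbeq {α β : Type} [BEq α] [LawfulBEq α] [BEq β] [LawfulBEq β] :
    LawfulBEq (α ⊕ β) where
  eq_of_beq := by
    intro a b h
    rcases a with a | a <;> rcases b with b | b
    · have : (a == b) = true := h
      rw [eq_of_beq this]
    · exact absurd h (by intro h; cases h)
    · exact absurd h (by intro h; cases h)
    · have : (a == b) = true := h
      rw [eq_of_beq this]
  rfl := by
    intro a
    rcases a with a | a
    · exact (beq_self_eq_true a : (a == a) = true)
    · exact (beq_self_eq_true a : (a == a) = true)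

private theorem Split_lb1 [DecidableEq κ] : LawfulBEq (Bool ⊕ κ) := Split_lbeq

private theorem Split_lb2 [DecidableEq κ] : LawfulBEq (Bool ⊕ (Bool ⊕ κ)) :=
  have : LawfulBEq (Bool ⊕ κ) := Split_lb1
  Split_lbeq

private theorem Split_nold_nil : nold ([] : List (List (Bool ⊕ (Bool ⊕ κ)))) = 0 := by simp [nold]

private theorem Split_nrand_nil : nrand ([] : List (List (Bool ⊕ κ))) = 0 := by simp [nrand]

private theorem Split_nold_cons (w : List (Bool ⊕ (Bool ⊕ κ))) (ws : List (List (Bool ⊕ (Bool ⊕ κ)))) :
    nold (w :: ws) = nold [w] + nold ws := by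
  simp [nold, List.filter_append]

private theorem Split_nrand_cons (w : List (Bool ⊕ κ)) (ws : List (List (Bool ⊕ κ))) :
    nrand (w :: ws) = nrand [w] + nrand ws := by
  simp [nrand, List.filter_append]

private theorem Split_nold_inl (b : Bool) (w : List (Bool ⊕ (Bool ⊕ κ))) :
    nold [Sum.inl b :: w] = nold [w] := by
  simp [nold]

private theorem Split_nold_old (b : Bool) (w : List (Bool ⊕ (Bool ⊕ κ))) :
    nold [Sum.inr (Sum.inl b) :: w] = nold [w] + 1 := by
  simp [nold]

private theorem Split_nold_const (k : κ) (w : List (Bool ⊕ (Bool ⊕ κ))) :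
    nold [Sum.inr (Sum.inr k) :: w] = nold [w] := by
  simp [nold]

private theorem Split_nrand_inl (b : Bool) (w : List (Bool ⊕ κ)) :
    nrand [Sum.inl b :: w] = nrand [w] + 1 := by
  simp only [nrand, List.flatten_cons, List.flatten_nil, List.append_nil]
  rw [List.filter_cons_of_pos (by rfl), List.length_cons]

private theorem Split_nrand_inr (k : κ) (w : List (Bool ⊕ κ)) :
    nrand [Sum.inr k :: w] = nrand [w] := by
  simp [nrand]

private theorem Split_nold_map (w : List (Bool ⊕ κ)) :
    nold [w.map (Sum.inr : Bool ⊕ κ → Bool ⊕ (Bool ⊕ κ))] = nrand [w] := by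
  induction w with
  | nil => simp [nold, nrand]
  | cons x w ih =>
    rw [List.map_cons]
    rcases x with b | k
    · rw [Split_nold_old, Split_nrand_inl, ih]
    · rw [Split_nold_const, Split_nrand_inr, ih]

private theorem Split_nold_maps (ws : List (List (Bool ⊕ κ))) :
    nold (ws.map (List.map (Sum.inr : Bool ⊕ κ → Bool ⊕ (Bool ⊕ κ)))) = nrand ws := by
  induction ws with
  | nil => simp [nold, nrand]
  | cons w ws ih => rw [List.map_cons, Split_nold_cons, Split_nrand_cons, ih, Split_nold_map]

private theorem Split_evM_map (g' : Fin n × Fin n → ℂ) (N : Bool ⊕ κ → Mat n)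
    (w : List (Bool ⊕ κ)) : evM (gm g' N) (w.map Sum.inr) = evM N w := by
  unfold evM
  rw [List.map_map]
  rfl

private theorem Split_tm_map (g' : Fin n × Fin n → ℂ) (N : Bool ⊕ κ → Mat n)
    (ws : List (List (Bool ⊕ κ))) : tm (gm g' N) (ws.map (List.map Sum.inr)) = tm N ws := by
  unfold tm
  rw [List.map_map]
  congr 1
  refine List.map_congr_left fun w _ => ?_
  simp only [Function.comp_apply, Split_evM_map]

private theorem Split_evM_cons (N : κ → Mat n) (x : κ) (w : List κ) :
    evM N (x :: w) = N x * evM N w := by
  simp [evM]

private theorem Split_tm_cons (N : κ → Mat n) (w : List κ) (ws : List (List κ)) :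
    tm N (w :: ws) = (evM N w).trace * tm N ws := by
  simp [tm]

private theorem Split_letter (c s : ℝ) (g g' : Fin n × Fin n → ℂ) (M : κ → Mat n)
    (N : Bool ⊕ κ → Mat n) (b : Bool) :
    gm ((c : ℂ) • g + (s : ℂ) • g') M (Sum.inl b) =
      (c : ℂ) • gm g M (Sum.inl b) + (s : ℂ) • gm g' N (Sum.inl b) := by
  have h : XX ((c : ℂ) • g + (s : ℂ) • g') = (c : ℂ) • XX g + (s : ℂ) • XX g' := by
    rw [XX_add, XX_smul, XX_smul]
  cases b with
  | true =>
    simp only [gm, Sum.elim_inl, cond_true]
    exact h
  | false =>
    simp only [gm, Sum.elim_inl, cond_false]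
    rw [h, Matrix.conjTranspose_add, Matrix.conjTranspose_smul, Matrix.conjTranspose_smul]
    simp

private theorem Split_mul_sum {ι : Type} (A : Mat n) (r : List ι) (f : ι → ℂ) (W : ι → Mat n) :
    A * (r.map fun t => f t • W t).sum = (r.map fun t => f t • (A * W t)).sum := by
  induction r with
  | nil => simp
  | cons a r ih =>
    simp only [List.map_cons, List.sum_cons, mul_add, ih, Matrix.mul_smul]

private theorem Split_smul_sum {ι : Type} (c : ℂ) (r : List ι) (f : ι → ℂ) (W : ι → Mat n) :
    c • (r.map fun t => f t • W t).sum = (r.map fun t => (c * f t) • W t).sum := by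
  induction r with
  | nil => simp
  | cons a r ih =>
    simp only [List.map_cons, List.sum_cons, smul_add, ih, smul_smul]

private theorem Split_word [DecidableEq κ] (c s : ℝ) (w : List (Bool ⊕ κ)) :
    ∃ r : List (ℂ × List (Bool ⊕ (Bool ⊕ κ))),
      (∀ t ∈ r, nold [t.2] < nrand [w] ∧
        ∀ k : κ, t.2.count (Sum.inr (Sum.inr k)) = w.count (Sum.inr k)) ∧
      ∀ (g g' : Fin n × Fin n → ℂ) (M : κ → Mat n),
        evM (gm ((c : ℂ) • g + (s : ℂ) • g') M) w = (c : ℂ) ^ nrand [w] • evM (gm g M) w
          + (r.map fun t => t.1 • evM (gm g' (gm g M)) t.2).sum := by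
  have : LawfulBEq (Bool ⊕ κ) := Split_lb1
  have : LawfulBEq (Bool ⊕ (Bool ⊕ κ)) := Split_lb2
  induction w with
  | nil =>
    refine ⟨[], by simp, fun g g' M => ?_⟩
    simp [evM, nrand]
  | cons x w ih =>
    obtain ⟨r, hr, hs⟩ := ih
    rcases x with b | k
    · refine ⟨((s : ℂ) * (c : ℂ) ^ nrand [w], Sum.inl b :: w.map Sum.inr) ::
        ((r.map fun t => ((c : ℂ) * t.1, Sum.inr (Sum.inl b) :: t.2)) ++
          (r.map fun t => ((s : ℂ) * t.1, Sum.inl b :: t.2))), ?_, ?_⟩
      · intro t ht
        rw [List.mem_cons, List.mem_append, List.mem_map, List.mem_map] at ht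
        rw [Split_nrand_inl]
        rcases ht with rfl | ⟨t', ht', rfl⟩ | ⟨t', ht', rfl⟩
        · refine ⟨?_, fun k => ?_⟩
          · simp only
            rw [Split_nold_inl, Split_nold_map]
            exact Nat.lt_succ_self _
          · simp only
            rw [List.count_cons_of_ne (by simp), List.count_cons_of_ne (by simp),
              List.count_map_of_injective _ _ Sum.inr_injective]
        · obtain ⟨h1, h2⟩ := hr t' ht'
          refine ⟨?_, fun k => ?_⟩
          · simp only
            rw [Split_nold_old]
            omega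
          · simp only
            rw [List.count_cons_of_ne (by simp), List.count_cons_of_ne (by simp), h2 k]
        · obtain ⟨h1, h2⟩ := hr t' ht'
          refine ⟨?_, fun k => ?_⟩
          · simp only
            rw [Split_nold_inl]
            omega
          · simp only
            rw [List.count_cons_of_ne (by simp), List.count_cons_of_ne (by simp), h2 k]
      · intro g g' M
        rw [Split_evM_cons, Split_letter c s g g' M (gm g M) b, hs g g' M, Split_nrand_inl,
          List.map_cons, List.map_append, List.sum_cons, List.sum_append, List.map_map,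
          List.map_map]
        simp only [Function.comp_def, Split_evM_cons, Split_evM_map]
        rw [add_mul, mul_add, mul_add]
        have e1 : ((c : ℂ) • gm g M (Sum.inl b)) * ((c : ℂ) ^ nrand [w] • evM (gm g M) w) =
            (c : ℂ) ^ (nrand [w] + 1) • (gm g M (Sum.inl b) * evM (gm g M) w) := by
          rw [Matrix.smul_mul, Matrix.mul_smul, smul_smul, pow_succ']
        have e2 : ((s : ℂ) • gm g' (gm g M) (Sum.inl b)) *
            ((c : ℂ) ^ nrand [w] • evM (gm g M) w) =
            ((s : ℂ) * (c : ℂ) ^ nrand [w]) • (gm g' (gm g M) (Sum.inl b) * evM (gm g M) w) := by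
          rw [Matrix.smul_mul, Matrix.mul_smul, smul_smul]
        have e3 : ((c : ℂ) • gm g M (Sum.inl b)) *
            (r.map fun t => t.1 • evM (gm g' (gm g M)) t.2).sum =
            (r.map fun t => ((c : ℂ) * t.1) •
              (gm g M (Sum.inl b) * evM (gm g' (gm g M)) t.2)).sum := by
          rw [Matrix.smul_mul, Split_mul_sum, Split_smul_sum]
        have e4 : ((s : ℂ) • gm g' (gm g M) (Sum.inl b)) *
            (r.map fun t => t.1 • evM (gm g' (gm g M)) t.2).sum =
            (r.map fun t => ((s : ℂ) * t.1) •
              (gm g' (gm g M) (Sum.inl b) * evM (gm g' (gm g M)) t.2)).sum := by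
          rw [Matrix.smul_mul, Split_mul_sum, Split_smul_sum]
        rw [e1, e2, e3, e4]
        have e5 : gm g' (gm g M) (Sum.inr (Sum.inl b)) = gm g M (Sum.inl b) := rfl
        rw [e5]
        abel
    · refine ⟨r.map fun t => (t.1, Sum.inr (Sum.inr k) :: t.2), ?_, ?_⟩
      · intro t ht
        rw [List.mem_map] at ht
        obtain ⟨t', ht', rfl⟩ := ht
        obtain ⟨h1, h2⟩ := hr t' ht'
        refine ⟨?_, fun j => ?_⟩
        · simp only
          rw [Split_nold_const, Split_nrand_inr]
          exact h1
        · simp only
          rw [List.count_cons, List.count_cons, h2 j]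
          rfl
      · intro g g' M
        rw [Split_evM_cons, hs g g' M, Split_nrand_inr, List.map_map]
        simp only [Function.comp_def, Split_evM_cons]
        rw [mul_add, Split_mul_sum, Matrix.mul_smul]
        rfl

private theorem Split_prod_sum {ι ι' : Type} (r1 : List ι) (r2 : List ι') (F : ι → ℂ)
    (G : ι' → ℂ) : (r1.map F).sum * (r2.map G).sum =
      ((r1.flatMap fun a => r2.map fun b => (a, b)).map fun x => F x.1 * G x.2).sum := by
  induction r1 with
  | nil => simp
  | cons a r1 ih =>
    rw [List.map_cons, List.sum_cons, add_mul, ih, List.flatMap_cons, List.map_append,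
      List.sum_append, List.map_map]
    congr 1
    rw [← List.sum_map_mul_left]
    rfl

private theorem Split_trace_sum {ι : Type} (r : List ι) (f : ι → ℂ) (W : ι → Mat n) :
    ((r.map fun t => f t • W t).sum).trace = (r.map fun t => f t * (W t).trace).sum := by
  induction r with
  | nil => simp
  | cons a r ih =>
    simp only [List.map_cons, List.sum_cons, Matrix.trace_add, ih, Matrix.trace_smul, smul_eq_mul]

end

theorem split {κ : Type} [DecidableEq κ] (c s : ℝ) (ws : List (List (Bool ⊕ κ))) :
    ∃ r : List (ℂ × List (List (Bool ⊕ (Bool ⊕ κ)))),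
      (∀ t ∈ r, nold t.2 < nrand ws ∧
        ∀ k : κ, t.2.flatten.count (Sum.inr (Sum.inr k)) = ws.flatten.count (Sum.inr k)) ∧
      ∀ (g g' : Fin n × Fin n → ℂ) (M : κ → Mat n),
        tm (gm ((c : ℂ) • g + (s : ℂ) • g') M) ws = (c : ℂ) ^ nrand ws * tm (gm g M) ws
          + (r.map fun t => t.1 * tm (gm g' (gm g M)) t.2).sum := by
  have : LawfulBEq (Bool ⊕ κ) := Split_lb1
  have : LawfulBEq (Bool ⊕ (Bool ⊕ κ)) := Split_lb2
  induction ws with
  | nil =>
    refine ⟨[], by simp, fun g g' M => ?_⟩
    simp [tm, nrand]
  | cons w ws ih =>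
    obtain ⟨r2, hr2, hs2⟩ := ih
    obtain ⟨r1, hr1, hs1⟩ := Split_word (n := n) c s w
    refine ⟨(r1.map fun t => ((c : ℂ) ^ nrand ws * t.1, t.2 :: ws.map (List.map Sum.inr))) ++
      ((r2.map fun t => ((c : ℂ) ^ nrand [w] * t.1, w.map Sum.inr :: t.2)) ++
        ((r1.flatMap fun a => r2.map fun b => (a, b)).map fun x =>
          (x.1.1 * x.2.1, x.1.2 :: x.2.2))), ?_, ?_⟩
    · intro t ht
      rw [List.mem_append, List.mem_append, List.mem_map, List.mem_map, List.mem_map] at ht
      rw [Split_nrand_cons w ws]
      rcases ht with ⟨t1, ht1, rfl⟩ | ⟨t2, ht2, rfl⟩ | ⟨x, hx, rfl⟩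
      · obtain ⟨h1, h2⟩ := hr1 t1 ht1
        refine ⟨?_, fun k => ?_⟩
        · simp only
          rw [Split_nold_cons, Split_nold_maps]
          omega
        · simp only
          rw [List.flatten_cons, List.flatten_cons, List.count_append, List.count_append, h2 k,
            ← List.map_flatten, List.count_map_of_injective _ _ Sum.inr_injective]
      · obtain ⟨h1, h2⟩ := hr2 t2 ht2
        refine ⟨?_, fun k => ?_⟩
        · simp only
          rw [Split_nold_cons, Split_nold_map]
          omega
        · simp only
          rw [List.flatten_cons, List.flatten_cons, List.count_append, List.count_append, h2 k,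
            List.count_map_of_injective _ _ Sum.inr_injective]
      · rw [List.mem_flatMap] at hx
        obtain ⟨a, ha, hx⟩ := hx
        rw [List.mem_map] at hx
        obtain ⟨b, hb, rfl⟩ := hx
        obtain ⟨h1, h2⟩ := hr1 a ha
        obtain ⟨h3, h4⟩ := hr2 b hb
        refine ⟨?_, fun k => ?_⟩
        · simp only
          rw [Split_nold_cons]
          omega
        · simp only
          rw [List.flatten_cons, List.flatten_cons, List.count_append, List.count_append, h2 k,
            h4 k]
    · intro g g' M
      rw [Split_tm_cons, hs1 g g' M, hs2 g g' M, Split_nrand_cons w ws, Matrix.trace_add,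
        Matrix.trace_smul, Split_trace_sum, List.map_append, List.map_append, List.sum_append,
        List.sum_append, List.map_map, List.map_map, List.map_map]
      simp only [Function.comp_def, Split_tm_cons, Split_tm_map, Split_evM_map, smul_eq_mul]
      rw [add_mul, mul_add, mul_add, Split_prod_sum]
      have e1 : (r1.map fun t => (c : ℂ) ^ nrand ws * t.1 *
          ((evM (gm g' (gm g M)) t.2).trace * tm (gm g M) ws)).sum =
          (r1.map fun t => t.1 * (evM (gm g' (gm g M)) t.2).trace).sum *
            ((c : ℂ) ^ nrand ws * tm (gm g M) ws) := by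
        rw [← List.sum_map_mul_right]
        congr 1
        refine List.map_congr_left fun t _ => ?_
        ring
      have e2 : (r2.map fun t => (c : ℂ) ^ nrand [w] * t.1 *
          ((evM (gm g M) w).trace * tm (gm g' (gm g M)) t.2)).sum =
          (c : ℂ) ^ nrand [w] * (evM (gm g M) w).trace *
            (r2.map fun t => t.1 * tm (gm g' (gm g M)) t.2).sum := by
        rw [← List.sum_map_mul_left]
        congr 1
        refine List.map_congr_left fun t _ => ?_
        ring
      have e3 : ((r1.flatMap fun a => r2.map fun b => (a, b)).map fun x =>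
          x.1.1 * x.2.1 * ((evM (gm g' (gm g M)) x.1.2).trace * tm (gm g' (gm g M)) x.2.2)) =
          ((r1.flatMap fun a => r2.map fun b => (a, b)).map fun x =>
            x.1.1 * (evM (gm g' (gm g M)) x.1.2).trace * (x.2.1 * tm (gm g' (gm g M)) x.2.2)) := by
        refine List.map_congr_left fun x _ => ?_
        ring
      rw [e1, e2, e3, pow_add]
      ring

end Pool.Agent.H55.ML
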