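/-
S4 (TSS).  The Mehler operator is triangular on the chaos spaces.  Needs SSd, Split, PartInt, Classify.
About 200 lines.
TT c s Φ (g) = ∫ Φ (c g + s g') d gin(g') entrywise.
PROOF of TT_mem.  n = 0 is trivial? (Op 0 has one element: every function into it is 0, a member.)  n >= 1: by linearity
(span_induction; TT is linear on SS by integrability SS_PG) take Φ a generator with ws, u, v and j =
|ws|+|u|+|v| <= k letters.  pr C (Φ g) B = tm (asg g B C) W with W = the words ws.map inl plus
[C u B v] (gL; one word) or plus [C u], [v B] (gK).  asg g B C = gm g (fun b => cond b B C).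
split: tm at c g + s g' = c^j tm at g + sum t.1 tm (gm g' (gm g M)) t.2 with fewer than j old letters;
integrate over g' with part_int (constants: Bool ⊕ Bool, M' = gm g M = asg g B C): sum of coefficients times tm
(asg g B C) v with the same counts: one B, one C, fewer than j <= k letters X: classify gives members of SS n k.
So pr C (TT Φ g) B = c^j pr C (Φ g) B + pr C (F g) B with F ∈ SS n k for all B, C (interchange the finite sum pr with
the integral), hence TT Φ = c^j Φ + F (pr_ext).  If j = k: done.  If j < k: TT Φ - c^k Φ = (c^j - c^k) Φ + F and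
Φ ∈ SS n (j+1) ⊆ SS n k.
-/
import Pool.Agent.H55.ML.SSd
import Pool.Agent.H55.ML.Split
import Pool.Agent.H55.ML.PartInt
import Pool.Agent.H55.ML.Classify

namespace Pool.Agent.H55.ML
open MeasureTheory ProbabilityTheory Matrix

variable {n : ℕ}

/-- the Mehler operator -/
noncomputable def TT (c s : ℝ) (Φ : (Fin n × Fin n → ℂ) → Op n) (g : Fin n × Fin n → ℂ) : Op n :=
  Matrix.of fun p q => ∫ g', Φ ((c : ℂ) • g + (s : ℂ) • g') p q ∂(gin n)

/-! ### private helpers -/

private lemma pr_add' (C B : Mat n) (Φ Ψ : Op n) : pr C (Φ + Ψ) B = pr C Φ B + pr C Ψ B := by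
  simp only [pr, Matrix.add_apply, mul_add, add_mul, Finset.sum_add_distrib]

private lemma pr_smul' (C B : Mat n) (a : ℂ) (Φ : Op n) : pr C (a • Φ) B = a * pr C Φ B := by
  simp only [pr, Matrix.smul_apply, smul_eq_mul, Finset.mul_sum]
  refine Finset.sum_congr rfl fun p _ => Finset.sum_congr rfl fun q _ => ?_
  ring

private lemma pr_zero' (C B : Mat n) : pr C (0 : Op n) B = 0 := by
  simp [pr]

private lemma PG_aff (c s : ℝ) (g : Fin n × Fin n → ℂ) :
    PG (fun g' : Fin n × Fin n → ℂ => (c : ℂ) • g + (s : ℂ) • g') := by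
  refine ⟨by fun_prop, |c| * ‖g‖ + |s|, 1, fun x => ?_⟩
  have h1 : ‖(c : ℂ) • g + (s : ℂ) • x‖ ≤ |c| * ‖g‖ + |s| * ‖x‖ := by
    refine (norm_add_le _ _).trans ?_
    rw [norm_smul, norm_smul]
    simp [Complex.norm_real]
  have h2 : 0 ≤ |c| * ‖g‖ := by positivity
  have h3 : 0 ≤ |s| := abs_nonneg s
  have h4 : 0 ≤ ‖x‖ := norm_nonneg x
  refine h1.trans ?_
  rw [pow_one]
  nlinarith [mul_nonneg h2 h4, mul_nonneg h3 h4]

private lemma int_SS (c s : ℝ) {q : ℕ} {Φ : (Fin n × Fin n → ℂ) → Op n} (hΦ : Φ ∈ SS n q)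
    (g : Fin n × Fin n → ℂ) (x y : Fin n × Fin n) :
    Integrable (fun g' => Φ ((c : ℂ) • g + (s : ℂ) • g') x y) (gin n) :=
  (PG.comp (SS_PG hΦ x y) (PG_aff c s g)).integrable

private lemma TT_add' (c s : ℝ) {q : ℕ} {Φ Ψ : (Fin n × Fin n → ℂ) → Op n} (hΦ : Φ ∈ SS n q)
    (hΨ : Ψ ∈ SS n q) : TT c s (Φ + Ψ) = TT c s Φ + TT c s Ψ := by
  funext g
  ext x y
  simp only [TT, Pi.add_apply, Matrix.add_apply, Matrix.of_apply]
  exact integral_add (int_SS c s hΦ g x y) (int_SS c s hΨ g x y)

private lemma TT_smul' (c s : ℝ) (a : ℂ) (Φ : (Fin n × Fin n → ℂ) → Op n) :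
    TT c s (a • Φ) = a • TT c s Φ := by
  funext g
  ext x y
  simp only [TT, Pi.smul_apply, Matrix.smul_apply, Matrix.of_apply, smul_eq_mul]
  exact integral_const_mul _ _

private lemma pr_TT (c s : ℝ) {q : ℕ} {Φ : (Fin n × Fin n → ℂ) → Op n} (hΦ : Φ ∈ SS n q)
    (g : Fin n × Fin n → ℂ) (C B : Mat n) :
    pr C (TT c s Φ g) B = ∫ g', pr C (Φ ((c : ℂ) • g + (s : ℂ) • g')) B ∂(gin n) := by
  have h : ∀ x y : Fin n × Fin n, Integrable
      (fun g' => C x.2 x.1 * Φ ((c : ℂ) • g + (s : ℂ) • g') x y * B y.1 y.2) (gin n) :=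
    fun x y => ((int_SS c s hΦ g x y).const_mul _).mul_const _
  simp only [pr, TT, Matrix.of_apply]
  rw [integral_finsetSum _ fun x _ => integrable_finsetSum _ fun y _ => h x y]
  refine Finset.sum_congr rfl fun x _ => ?_
  rw [integral_finsetSum _ fun y _ => h x y]
  refine Finset.sum_congr rfl fun y _ => ?_
  rw [integral_mul_const, integral_const_mul]

/-- lists of values which are pairings with members of a submodule -/
private lemma list_mem {α : Type} (k : ℕ) (r : List (ℂ × α))
    (val : α → (Fin n × Fin n → ℂ) → Mat n → Mat n → ℂ)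
    (h : ∀ t ∈ r, ∃ F : (Fin n × Fin n → ℂ) → Op n, F ∈ SS n k ∧
      ∀ g B C, val t.2 g B C = pr C (F g) B) :
    ∃ F : (Fin n × Fin n → ℂ) → Op n, F ∈ SS n k ∧
      ∀ g B C, (r.map fun t => t.1 * val t.2 g B C).sum = pr C (F g) B := by
  induction r with
  | nil => exact ⟨0, Submodule.zero_mem _, fun g B C => by simp [pr_zero']⟩
  | cons t r ih =>
    obtain ⟨F, hF, hF'⟩ := ih fun t' ht' => h t' (List.mem_cons_of_mem _ ht')
    obtain ⟨G, hG, hG'⟩ := h t List.mem_cons_self
    refine ⟨t.1 • G + F, Submodule.add_mem _ (Submodule.smul_mem _ _ hG) hF, fun g B C => ?_⟩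
    rw [List.map_cons, List.sum_cons, hF' g B C, hG' g B C, Pi.add_apply, pr_add', Pi.smul_apply,
      pr_smul']

private lemma int_list {α : Type} (r : List (ℂ × α)) (f : α → (Fin n × Fin n → ℂ) → ℂ)
    (h : ∀ t ∈ r, Integrable (f t.2) (gin n)) :
    Integrable (fun g' => (r.map fun t => t.1 * f t.2 g').sum) (gin n) ∧
    ∫ g', (r.map fun t => t.1 * f t.2 g').sum ∂(gin n)
      = (r.map fun t => t.1 * ∫ g', f t.2 g' ∂(gin n)).sum := by
  induction r with
  | nil => simp
  | cons t r ih =>
    obtain ⟨h1, h2⟩ := ih fun t' ht' => h t' (List.mem_cons_of_mem _ ht')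
    have h3 : Integrable (fun g' => t.1 * f t.2 g') (gin n) :=
      (h t List.mem_cons_self).const_mul _
    simp only [List.map_cons, List.sum_cons]
    refine ⟨h3.add h1, ?_⟩
    rw [integral_add h3 h1, h2, integral_const_mul]

private lemma lawfulS {α β : Type} [BEq α] [BEq β] [LawfulBEq α] [LawfulBEq β] :
    LawfulBEq (α ⊕ β) where
  rfl := by
    rintro (a | a)
    · exact (beq_self_eq_true a : (a == a) = true)
    · exact (beq_self_eq_true a : (a == a) = true)
  eq_of_beq := by
    rintro (a | a) (b | b) h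
    · exact congrArg _ (eq_of_beq (h : (a == b) = true))
    · exact Bool.noConfusion (h : false = true)
    · exact Bool.noConfusion (h : false = true)
    · exact congrArg _ (eq_of_beq (h : (a == b) = true))

attribute [local instance] lawfulS

private lemma cnt_inst {α : Type} (i1 i2 : BEq α) (h1 : @LawfulBEq α i1) (h2 : @LawfulBEq α i2)
    (a : α) (l : List α) : @List.count α i1 a l = @List.count α i2 a l := by
  have h : i1 = i2 := by
    obtain ⟨f⟩ := i1
    obtain ⟨f'⟩ := i2
    congr 1
    funext x y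
    rw [Bool.eq_iff_iff]
    exact (@beq_iff_eq α ⟨f⟩ h1 x y).trans (@beq_iff_eq α ⟨f'⟩ h2 x y).symm
  subst h
  rfl

private lemma cnt_old (ws : List (List (Bool ⊕ (Bool ⊕ Bool)))) :
    ws.flatten.count (Sum.inr (Sum.inl true)) + ws.flatten.count (Sum.inr (Sum.inl false))
      = nold ws := by
  unfold nold
  generalize ws.flatten = l
  induction l with
  | nil => simp
  | cons a l ih =>
    rcases a with b | (b | b)
    · simpa using ih
    · cases b <;> simp <;> omega
    · simpa using ih

private lemma key (hn : 1 ≤ n) (c s : ℝ) (W : List (List (Bool ⊕ Bool)))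
    (hB : W.flatten.count (Sum.inr true) = 1) (hC : W.flatten.count (Sum.inr false) = 1) (k : ℕ)
    (hk : nrand W ≤ k) {q : ℕ} (Φ : (Fin n × Fin n → ℂ) → Op n) (hΦ : Φ ∈ SS n q)
    (hΦW : ∀ g B C, pr C (Φ g) B = tm (asg g B C) W) :
    ∃ F : (Fin n × Fin n → ℂ) → Op n, F ∈ SS n k ∧
      TT c s Φ = ((c : ℂ) ^ nrand W) • Φ + F := by
  classical
  have : IsProbabilityMeasure (gin n) := by unfold gin; infer_instance
  obtain ⟨r, hr, hr'⟩ := split (n := n) c s W
  have h1 : ∀ t ∈ r, ∃ F : (Fin n × Fin n → ℂ) → Op n, F ∈ SS n k ∧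
      ∀ g B C, ∫ g', tm (gm g' (asg g B C)) t.2 ∂(gin n) = pr C (F g) B := by
    intro t ht
    obtain ⟨x, hx0, hx'⟩ := part_int hn t.2
    have hx : ∀ y ∈ x, ∀ k : Bool ⊕ Bool,
        y.2.flatten.count k = t.2.flatten.count (Sum.inr k) := fun y hy k =>
      ((cnt_inst _ _ inferInstance inferInstance _ _).trans (hx0 y hy k)).trans
        (cnt_inst _ _ inferInstance inferInstance _ _)
    obtain ⟨ht1, ht2⟩ := hr t ht
    obtain ⟨F, hF, hF'⟩ := list_mem (n := n) k x (fun y g B C => tm (asg g B C) y) (by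
      intro y hy
      refine classify y.2 ?_ ?_ k ?_
      · rw [hx y hy (Sum.inr true), ht2 true, hB]
      · rw [hx y hy (Sum.inr false), ht2 false, hC]
      · have e1 := hx y hy (Sum.inl true)
        have e2 := hx y hy (Sum.inl false)
        have e3 := cnt_old t.2
        omega)
    exact ⟨F, hF, fun g B C => by rw [hx' (asg g B C)]; exact hF' g B C⟩
  obtain ⟨F, hF, hF'⟩ := list_mem (n := n) k r
    (fun t g B C => ∫ g', tm (gm g' (asg g B C)) t ∂(gin n)) h1
  refine ⟨F, hF, ?_⟩
  funext g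
  refine pr_ext _ _ fun C B => ?_
  rw [pr_TT c s hΦ, Pi.add_apply, pr_add', Pi.smul_apply, pr_smul', ← hF' g B C, hΦW g B C]
  have h2 := int_list (n := n) r (fun t g' => tm (gm g' (asg g B C)) t)
    (fun t _ => tm_gm_integrable _ _)
  rw [← h2.2]
  have h3 : (fun g' => pr C (Φ ((c : ℂ) • g + (s : ℂ) • g')) B) = fun g' =>
      (c : ℂ) ^ nrand W * tm (asg g B C) W
        + (r.map fun t => t.1 * tm (gm g' (asg g B C)) t.2).sum := by
    funext g'
    rw [hΦW]
    exact hr' g g' (fun b => cond b B C)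
  rw [h3, integral_add (integrable_const _) h2.1, integral_const]
  simp

private lemma evM_inl (g : Fin n × Fin n → ℂ) (B C : Mat n) (u : List Bool) :
    evM (asg g B C) (u.map Sum.inl) = ev (XX g) (XX g)ᴴ u := by
  simp only [evM, ev, List.map_map]
  rfl

private lemma tm_inl (g : Fin n × Fin n → ℂ) (B C : Mat n) (ws : List (List Bool)) :
    tm (asg g B C) (ws.map (List.map Sum.inl)) = tb (XX g) ws := by
  simp only [tm, tb, List.map_map]
  congr 1
  refine List.map_congr_left fun w _ => ?_
  simp only [Function.comp_apply, evM_inl]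

private lemma tm_app (M : Bool ⊕ Bool → Mat n) (ws ws' : List (List (Bool ⊕ Bool))) :
    tm M (ws ++ ws') = tm M ws * tm M ws' := by
  simp [tm]

private lemma evM_cons (M : Bool ⊕ Bool → Mat n) (a : Bool ⊕ Bool) (w : List (Bool ⊕ Bool)) :
    evM M (a :: w) = M a * evM M w := by
  simp [evM]

private lemma evM_app (M : Bool ⊕ Bool → Mat n) (w w' : List (Bool ⊕ Bool)) :
    evM M (w ++ w') = evM M w * evM M w' := by
  simp [evM]

private lemma count_inl (l : List Bool) (b : Bool) :
    (l.map (Sum.inl : Bool → Bool ⊕ Bool)).count (Sum.inr b) = 0 := by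
  rw [List.count_eq_zero]
  simp

private lemma flat_inl (ws : List (List Bool)) :
    (ws.map (List.map (Sum.inl : Bool → Bool ⊕ Bool))).flatten = ws.flatten.map Sum.inl := by
  rw [List.map_flatten]

private lemma filt_inl (l : List Bool) :
    (l.map (Sum.inl : Bool → Bool ⊕ Bool)).filter (fun x => x.isLeft) = l.map Sum.inl := by
  rw [List.filter_eq_self]
  simp

/-- the case of a generator -/
private lemma gen_case (hn : 1 ≤ n) (c s : ℝ) (k : ℕ) (Φ : (Fin n × Fin n → ℂ) → Op n)
    (hΦ : Φ ∈ SSgen n (k + 1)) : TT c s Φ - ((c : ℂ) ^ k) • Φ ∈ SS n k := by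
  have hΦS : Φ ∈ SS n (k + 1) := Submodule.subset_span hΦ
  obtain ⟨ws, u, v, hlt, hgen⟩ := hΦ
  -- the list of words
  obtain ⟨W, hB, hC, hnr, hW⟩ : ∃ W : List (List (Bool ⊕ Bool)),
      W.flatten.count (Sum.inr true) = 1 ∧ W.flatten.count (Sum.inr false) = 1 ∧
      nrand W = ws.flatten.length + u.length + v.length ∧
      ∀ g B C, pr C (Φ g) B = tm (asg g B C) W := by
    rcases hgen with rfl | rfl
    · refine ⟨ws.map (List.map Sum.inl) ++ [Sum.inr false :: (u.map Sum.inl
        ++ Sum.inr true :: v.map Sum.inl)], ?_, ?_, ?_, fun g B C => ?_⟩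
      · rw [List.flatten_append, flat_inl]
        generalize ws.flatten = l
        simp [List.count_append, count_inl]
      · rw [List.flatten_append, flat_inl]
        generalize ws.flatten = l
        simp [List.count_append, count_inl]
      · rw [nrand, List.flatten_append, flat_inl]
        generalize ws.flatten = l
        simp [List.filter_append, filt_inl, add_assoc]
      · rw [tm_app, tm_inl, gL, pr_smul', pr_LR]
        simp only [tm, List.map_cons, List.map_nil, List.prod_cons, List.prod_nil, mul_one,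
          evM_cons, evM_app, evM_inl]
        simp only [asg, Sum.elim_inr, cond_true, cond_false, mul_assoc]
    · refine ⟨ws.map (List.map Sum.inl) ++ [Sum.inr false :: u.map Sum.inl,
        v.map Sum.inl ++ [Sum.inr true]], ?_, ?_, ?_, fun g B C => ?_⟩
      · rw [List.flatten_append, flat_inl]
        generalize ws.flatten = l
        simp [List.count_append, count_inl]
      · rw [List.flatten_append, flat_inl]
        generalize ws.flatten = l
        simp [List.count_append, count_inl]
      · rw [nrand, List.flatten_append, flat_inl]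
        generalize ws.flatten = l
        simp [List.filter_append, filt_inl, add_assoc]
      · rw [tm_app, tm_inl, gK, pr_smul', pr_K]
        simp only [tm, List.map_cons, List.map_nil, List.prod_cons, List.prod_nil, mul_one,
          evM_cons, evM_app, evM_inl]
        simp only [asg, Sum.elim_inr, cond_true, cond_false, evM, List.map_nil, List.prod_nil, mul_one]
  obtain ⟨F, hF, hT⟩ := key hn c s W hB hC k (by omega) Φ hΦS hW
  rw [hT]
  rcases Nat.lt_or_ge (nrand W) k with h | h
  · have hΦk : Φ ∈ SS n k := by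
      refine Submodule.subset_span ⟨ws, u, v, ?_, hgen⟩
      omega
    exact Submodule.sub_mem _ (Submodule.add_mem _ (Submodule.smul_mem _ _ hΦk) hF)
      (Submodule.smul_mem _ _ hΦk)
  · have h' : nrand W = k := by omega
    rw [h', add_sub_cancel_left]
    exact hF

theorem TT_sub_mem (c s : ℝ) (k : ℕ) (Φ : (Fin n × Fin n → ℂ) → Op n) (hΦ : Φ ∈ SS n (k + 1)) :
    TT c s Φ - ((c : ℂ) ^ k) • Φ ∈ SS n k := by
  rcases Nat.eq_zero_or_pos n with rfl | hn
  · have h0 : TT c s Φ - ((c : ℂ) ^ k) • Φ = 0 := by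
      funext g
      ext p
      exact p.1.elim0
    rw [h0]
    exact Submodule.zero_mem _
  · have h : Φ ∈ SS n (k + 1) ∧ TT c s Φ - ((c : ℂ) ^ k) • Φ ∈ SS n k := by
      refine Submodule.span_induction (p := fun Φ _ => Φ ∈ SS n (k + 1) ∧
        TT c s Φ - ((c : ℂ) ^ k) • Φ ∈ SS n k) ?_ ?_ ?_ ?_ hΦ
      · intro Φ hΦ
        exact ⟨Submodule.subset_span hΦ, gen_case hn c s k Φ hΦ⟩
      · refine ⟨Submodule.zero_mem _, ?_⟩
        have h0 : TT c s (0 : (Fin n × Fin n → ℂ) → Op n) = 0 := by
          funext g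
          ext p q
          simp [TT]
        rw [h0, smul_zero, sub_zero]
        exact Submodule.zero_mem _
      · rintro Φ Ψ _ _ ⟨h1, h2⟩ ⟨h3, h4⟩
        refine ⟨Submodule.add_mem _ h1 h3, ?_⟩
        rw [TT_add' c s h1 h3, smul_add, add_sub_add_comm]
        exact Submodule.add_mem _ h2 h4
      · rintro a Φ _ ⟨h1, h2⟩
        refine ⟨Submodule.smul_mem _ _ h1, ?_⟩
        rw [TT_smul', smul_comm, ← smul_sub]
        exact Submodule.smul_mem _ _ h2
    exact h.2

end Pool.Agent.H55.ML
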