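/-
S6 (Chaos).  Distance to the low chaos spaces.  Needs TSS, Core, Rot, PGr, SSd.  About 220 lines.
PROOF.  M = the union of the SS n k (⨆ k, SS n k, directed) as a submodule, B(Φ,Ψ) = ∫ Tr (Φᴴ Ψ) d gin, T = TT c s with
c = cos θ, s = sin θ, 0 < c < 1 for 0 < θ <= 1.  T maps SS n k to SS n k (TT_sub_mem, SS_mono), linear on M.
Symmetry: B(Φ, TΨ) = ∫∫ Tr (Φ(g)ᴴ Ψ(c g + s g')) = ∫∫ Tr (Φ(c g + s g')ᴴ Ψ(g)) = B(TΦ, Ψ) by the measure preserving
involution rotP c s (it exchanges g and c g + s g'), Fubini (PG.integrable_prod).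
core: G ∈ SS n q with (1 - c^q) ∫ hs2 (F - G) <= B(F,F) - Re B(F,TF), and
∫∫ hs2 (F(g) - F(g_θ)) = 2 B(F,F) - 2 Re B(F, TF) (hs2 A = Re Tr (Aᴴ A), hs2_eq_trace; law of g_θ is gin n).
-/
import Pool.Agent.H55.ML.TSS
import Pool.Agent.H55.ML.Core
import Pool.Agent.H55.ML.Rot

namespace Pool.Agent.H55.ML
open MeasureTheory ProbabilityTheory Matrix

variable {n : ℕ}

theorem PG_hs2 {E : Type*} [NormedAddCommGroup E] (Φ : E → Op n)
    (h : ∀ x y : Fin n × Fin n, PG (fun e => Φ e x y)) : PG (fun e => hs2 (Φ e)) := by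
  unfold hs2
  exact PG.sum _ fun i _ => PG.sum _ fun j _ => PG.powR (PG.norm (h i j)) 2

private instance gin_prob' (n : ℕ) : IsProbabilityMeasure (gin n) := by
  unfold gin; infer_instance

/-- the sum of the products of the entries -/
private noncomputable def ip (A A' : Op n) : ℂ :=
  ∑ x, ∑ y, (starRingEnd ℂ) (A x y) * A' x y

private theorem ip_add_left (A A' C : Op n) : ip (A + A') C = ip A C + ip A' C := by
  simp only [ip, Matrix.add_apply, map_add, add_mul, Finset.sum_add_distrib]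

private theorem ip_smul_left (a : ℂ) (A C : Op n) :
    ip (a • A) C = (starRingEnd ℂ) a * ip A C := by
  simp only [ip, Matrix.smul_apply, smul_eq_mul, map_mul, Finset.mul_sum, mul_assoc]

private theorem ip_conj (A C : Op n) : ip C A = (starRingEnd ℂ) (ip A C) := by
  simp only [ip, map_sum, map_mul, Complex.conj_conj]
  refine Finset.sum_congr rfl fun x _ => Finset.sum_congr rfl fun y _ => ?_
  ring

private theorem ip_self (A : Op n) : ip A A = ((hs2 A : ℝ) : ℂ) := by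
  simp only [ip, hs2, Complex.ofReal_sum]
  refine Finset.sum_congr rfl fun x _ => Finset.sum_congr rfl fun y _ => ?_
  rw [mul_comm, Complex.mul_conj, Complex.normSq_eq_norm_sq]

private theorem hs2_sub' (A C : Op n) : hs2 (A - C) = hs2 A + hs2 C - 2 * (ip A C).re := by
  simp only [hs2, ip, Complex.re_sum, Finset.mul_sum, ← Finset.sum_add_distrib,
    ← Finset.sum_sub_distrib]
  refine Finset.sum_congr rfl fun x _ => Finset.sum_congr rfl fun y _ => ?_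
  rw [Matrix.sub_apply, ← Complex.normSq_eq_norm_sq, ← Complex.normSq_eq_norm_sq,
    ← Complex.normSq_eq_norm_sq, Complex.normSq_sub]
  simp only [Complex.mul_re, Complex.conj_re, Complex.conj_im]
  ring

private theorem PG_ip {E : Type*} [NormedAddCommGroup E] (Φ Ψ : E → Op n)
    (h : ∀ x y : Fin n × Fin n, PG (fun e => Φ e x y))
    (h' : ∀ x y : Fin n × Fin n, PG (fun e => Ψ e x y)) : PG (fun e => ip (Φ e) (Ψ e)) := by
  unfold ip
  exact PG.sum _ fun i _ => PG.sum _ fun j _ => PG.mul (PG.conj (h i j)) (h' i j)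

private theorem PG_aff {ι : Type*} [Fintype ι] (c s : ℝ) (g : ι → ℂ) :
    PG (fun g' : ι → ℂ => (c : ℂ) • g + (s : ℂ) • g') := by
  refine ⟨by fun_prop, |c| * ‖g‖ + |s|, 1, fun x => ?_⟩
  have h1 : ‖(c : ℂ) • g + (s : ℂ) • x‖ ≤ |c| * ‖g‖ + |s| * ‖x‖ := by
    refine (norm_add_le _ _).trans ?_
    rw [norm_smul, norm_smul, Complex.norm_real, Complex.norm_real, Real.norm_eq_abs,
      Real.norm_eq_abs]
  have h2 : 0 ≤ ‖x‖ := norm_nonneg _
  have h3 : 0 ≤ ‖g‖ := norm_nonneg _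
  have h4 : 0 ≤ |c| * ‖g‖ := mul_nonneg (abs_nonneg _) h3
  have h5 : 0 ≤ |s| := abs_nonneg _
  rw [pow_one]
  nlinarith [mul_nonneg h4 h2, mul_nonneg h5 h2]

/-- the space of all chaos functions -/
private noncomputable def MM (n : ℕ) : Submodule ℂ ((Fin n × Fin n → ℂ) → Op n) := ⨆ k, SS n k

private theorem mem_MM {Φ : (Fin n × Fin n → ℂ) → Op n} : Φ ∈ MM n ↔ ∃ k, Φ ∈ SS n k := by
  unfold MM
  exact Submodule.mem_iSup_of_directed _ (SS_mono n).directed_le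

private theorem MM_PG {Φ : (Fin n × Fin n → ℂ) → Op n} (h : Φ ∈ MM n)
    (x y : Fin n × Fin n) : PG (fun g => Φ g x y) := by
  obtain ⟨k, hk⟩ := mem_MM.1 h
  exact SS_PG hk x y

private theorem TT_mem_succ (c s : ℝ) (k : ℕ) {Φ : (Fin n × Fin n → ℂ) → Op n}
    (h : Φ ∈ SS n (k + 1)) : TT c s Φ ∈ SS n (k + 1) := by
  have h1 := TT_sub_mem c s k Φ h
  have h2 : TT c s Φ = (TT c s Φ - ((c : ℂ) ^ k) • Φ) + ((c : ℂ) ^ k) • Φ := by
    rw [sub_add_cancel]
  rw [h2]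
  exact Submodule.add_mem _ (SS_mono n (Nat.le_succ k) h1) (Submodule.smul_mem _ _ h)

private theorem TT_mem (c s : ℝ) {Φ : (Fin n × Fin n → ℂ) → Op n}
    (h : Φ ∈ MM n) : TT c s Φ ∈ MM n := by
  obtain ⟨k, hk⟩ := mem_MM.1 h
  exact mem_MM.2 ⟨k + 1, TT_mem_succ c s k (SS_mono n (Nat.le_succ k) hk)⟩

private theorem TT_int (c s : ℝ) {Φ : (Fin n × Fin n → ℂ) → Op n} (h : Φ ∈ MM n)
    (g : Fin n × Fin n → ℂ) (x y : Fin n × Fin n) :
    Integrable (fun g' => Φ ((c : ℂ) • g + (s : ℂ) • g') x y) (gin n) :=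
  PG.integrable (PG.comp (f := fun g => Φ g x y) (MM_PG h x y) (PG_aff c s g))

private noncomputable def TL (n : ℕ) (c s : ℝ) : MM n →ₗ[ℂ] MM n where
  toFun Φ := ⟨TT c s Φ.1, TT_mem c s Φ.2⟩
  map_add' Φ Ψ := by
    apply Subtype.ext
    funext g
    ext x y
    change ∫ g', (Φ.1 ((c : ℂ) • g + (s : ℂ) • g') x y + Ψ.1 ((c : ℂ) • g + (s : ℂ) • g') x y)
      ∂(gin n) = (∫ g', Φ.1 ((c : ℂ) • g + (s : ℂ) • g') x y ∂(gin n)) +
        ∫ g', Ψ.1 ((c : ℂ) • g + (s : ℂ) • g') x y ∂(gin n)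
    exact integral_add (TT_int c s Φ.2 g x y) (TT_int c s Ψ.2 g x y)
  map_smul' a Φ := by
    apply Subtype.ext
    funext g
    ext x y
    change ∫ g', a * (Φ.1 ((c : ℂ) • g + (s : ℂ) • g') x y) ∂(gin n) =
      a * ∫ g', Φ.1 ((c : ℂ) • g + (s : ℂ) • g') x y ∂(gin n)
    exact integral_const_mul a _

private noncomputable def BB (Φ Ψ : MM n) : ℂ := ∫ g, ip (Φ.1 g) (Ψ.1 g) ∂(gin n)

private theorem ip_int (Φ Ψ : MM n) : Integrable (fun g => ip (Φ.1 g) (Ψ.1 g)) (gin n) :=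
  PG.integrable (PG_ip _ _ (MM_PG Φ.2) (MM_PG Ψ.2))

private theorem PG_rotE {Φ : (Fin n × Fin n → ℂ) → Op n} (h : Φ ∈ MM n) (c s : ℝ)
    (x y : Fin n × Fin n) :
    PG (fun p : (Fin n × Fin n → ℂ) × (Fin n × Fin n → ℂ) =>
      Φ ((c : ℂ) • p.1 + (s : ℂ) • p.2) x y) :=
  PG.comp (f := fun g => Φ g x y) (MM_PG h x y) (PG.rot c s)

private theorem PG_fstE {Φ : (Fin n × Fin n → ℂ) → Op n} (h : Φ ∈ MM n)
    (x y : Fin n × Fin n) :
    PG (fun p : (Fin n × Fin n → ℂ) × (Fin n × Fin n → ℂ) => Φ p.1 x y) :=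
  PG.comp (f := fun g => Φ g x y) (MM_PG h x y) PG.fst

/-- the form with the Mehler operator as an integral over pairs -/
private theorem BB_TL (Φ Ψ : MM n) (c s : ℝ) :
    BB Φ (TL n c s Ψ) = ∫ p, ip (Φ.1 p.1) (Ψ.1 ((c : ℂ) • p.1 + (s : ℂ) • p.2))
      ∂((gin n).prod (gin n)) := by
  rw [integral_prod _ (PG.integrable_prod (PG_ip _ _ (PG_fstE Φ.2) (PG_rotE Ψ.2 c s)))]
  unfold BB
  congr 1
  funext g
  change ∑ x, ∑ y, (starRingEnd ℂ) (Φ.1 g x y) *
    (∫ g', Ψ.1 ((c : ℂ) • g + (s : ℂ) • g') x y ∂(gin n)) =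
    ∫ g', ∑ x, ∑ y, (starRingEnd ℂ) (Φ.1 g x y) * Ψ.1 ((c : ℂ) • g + (s : ℂ) • g') x y ∂(gin n)
  rw [integral_finsetSum _ fun x _ => integrable_finsetSum _ fun y _ =>
    (TT_int c s Ψ.2 g x y).const_mul _]
  refine Finset.sum_congr rfl fun x _ => ?_
  rw [integral_finsetSum _ fun y _ => (TT_int c s Ψ.2 g x y).const_mul _]
  refine Finset.sum_congr rfl fun y _ => ?_
  rw [integral_const_mul]

private theorem BB_symm (Φ Ψ : MM n) : BB Ψ Φ = (starRingEnd ℂ) (BB Φ Ψ) := by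
  unfold BB
  rw [← integral_conj]
  congr 1
  funext g
  exact ip_conj _ _

private theorem rot_first (c s : ℝ) (h : c ^ 2 + s ^ 2 = 1)
    (p : (Fin n × Fin n → ℂ) × (Fin n × Fin n → ℂ)) :
    (c : ℂ) • (rotP c s p).1 + (s : ℂ) • (rotP c s p).2 = p.1 := by
  have := congrArg Prod.fst (rotP_rotP c s h p)
  exact this

private theorem BB_selfadj (Φ Ψ : MM n) (c s : ℝ) (h : c ^ 2 + s ^ 2 = 1) :
    BB (TL n c s Φ) Ψ = BB Φ (TL n c s Ψ) := by
  rw [BB_symm, BB_TL, BB_TL, ← integral_conj]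
  have hmp := measurePreserving_rotP n c s h
  have hint : Integrable (fun p : (Fin n × Fin n → ℂ) × (Fin n × Fin n → ℂ) =>
      (starRingEnd ℂ) (ip (Ψ.1 p.1) (Φ.1 ((c : ℂ) • p.1 + (s : ℂ) • p.2))))
      ((gin n).prod (gin n)) :=
    PG.integrable_prod (PG.conj (PG_ip _ _ (PG_fstE Ψ.2) (PG_rotE Φ.2 c s)))
  have key : ∫ p, (starRingEnd ℂ) (ip (Ψ.1 p.1) (Φ.1 ((c : ℂ) • p.1 + (s : ℂ) • p.2)))
      ∂((gin n).prod (gin n)) =
      ∫ p, (fun p : (Fin n × Fin n → ℂ) × (Fin n × Fin n → ℂ) =>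
        (starRingEnd ℂ) (ip (Ψ.1 p.1) (Φ.1 ((c : ℂ) • p.1 + (s : ℂ) • p.2)))) (rotP c s p)
      ∂((gin n).prod (gin n)) := by
    have h2 := integral_map (μ := (gin n).prod (gin n)) hmp.measurable.aemeasurable
      (f := fun p : (Fin n × Fin n → ℂ) × (Fin n × Fin n → ℂ) =>
        (starRingEnd ℂ) (ip (Ψ.1 p.1) (Φ.1 ((c : ℂ) • p.1 + (s : ℂ) • p.2))))
      (by rw [hmp.map_eq]; exact hint.aestronglyMeasurable)
    rw [hmp.map_eq] at h2
    exact h2
  rw [key]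
  congr 1
  funext p
  simp only [rot_first c s h p]
  rw [ip_conj (Φ.1 p.1)]
  simp only [Complex.conj_conj]
  rfl

private theorem hs2_rot (F : MM n) (c s : ℝ) (h : c ^ 2 + s ^ 2 = 1) :
    ∫ p, hs2 (F.1 (rotP c s p).1) ∂((gin n).prod (gin n)) = ∫ g, hs2 (F.1 g) ∂(gin n) := by
  have hmp := measurePreserving_rotP n c s h
  have hPG : PG (fun p : (Fin n × Fin n → ℂ) × (Fin n × Fin n → ℂ) => hs2 (F.1 p.1)) :=
    PG_hs2 _ (PG_fstE F.2)
  have hint := PG.integrable_prodR hPG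
  have h2 := integral_map (μ := (gin n).prod (gin n)) hmp.measurable.aemeasurable
      (f := fun p : (Fin n × Fin n → ℂ) × (Fin n × Fin n → ℂ) => hs2 (F.1 p.1))
      (by rw [hmp.map_eq]; exact hint.aestronglyMeasurable)
  rw [hmp.map_eq] at h2
  rw [← h2, integral_prod _ hint]
  simp

private theorem BB_self (Φ : MM n) : (BB Φ Φ).re = ∫ g, hs2 (Φ.1 g) ∂(gin n) := by
  unfold BB
  simp only [ip_self]
  rw [integral_complex_ofReal, Complex.ofReal_re]

theorem chaos_dist (F : (Fin n × Fin n → ℂ) → Op n) (Q : ℕ) (hF : F ∈ SS n Q) (q : ℕ)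
    (θ : ℝ) (h0 : 0 < θ) (h1 : θ ≤ 1) :
    ∃ G ∈ SS n q, 2 * (1 - Real.cos θ ^ q) * ∫ g, hs2 (F g - G g) ∂(gin n) ≤
      ∫ p, hs2 (F p.1 - F (rotP (Real.cos θ) (Real.sin θ) p).1) ∂((gin n).prod (gin n)) := by
  set c := Real.cos θ with hc
  set s := Real.sin θ with hs
  have hcs : c ^ 2 + s ^ 2 = 1 := by rw [hc, hs]; exact Real.cos_sq_add_sin_sq θ
  have hpi : (1 : ℝ) < Real.pi / 2 := by linarith [Real.pi_gt_three]
  have hc0 : 0 < c := Real.cos_pos_of_mem_Ioo ⟨by linarith, by linarith⟩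
  have hs0 : 0 < s := Real.sin_pos_of_pos_of_lt_pi h0 (by linarith)
  have hc1 : c < 1 := by nlinarith
  have hFM : F ∈ MM n := mem_MM.2 ⟨Q, hF⟩
  obtain ⟨G, hG, hle⟩ := core (M := MM n) BB
    (fun x y z => by
      unfold BB
      rw [← integral_add (ip_int x z) (ip_int y z)]
      congr 1
      funext g
      exact ip_add_left _ _ _)
    (fun a x y => by
      unfold BB
      rw [← integral_const_mul]
      congr 1
      funext g
      exact ip_smul_left _ _ _)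
    BB_symm
    (fun x => by
      rw [BB_self]
      refine integral_nonneg fun g => ?_
      exact Finset.sum_nonneg fun i _ => Finset.sum_nonneg fun j _ => sq_nonneg _)
    (TL n c s) (fun x y => BB_selfadj x y c s hcs) c hc0 hc1
    (fun k => (SS n k).comap (MM n).subtype)
    (by
      rw [SS_zero]
      exact (Submodule.comap_bot _).trans (Submodule.ker_subtype _))
    (fun i j hij => Submodule.comap_mono (SS_mono n hij))
    (fun k x hx => by
      exact TT_sub_mem c s k x.1 hx)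
    Q ⟨F, hFM⟩ hF q
  refine ⟨G.1, hG, ?_⟩
  have e1 : ∫ g, hs2 (F g - G.1 g) ∂(gin n) = (BB ((⟨F, hFM⟩ : MM n) - G) (⟨F, hFM⟩ - G)).re := by
    rw [BB_self]
    rfl
  have e2 : ∫ p, hs2 (F p.1 - F (rotP c s p).1) ∂((gin n).prod (gin n)) =
      2 * (BB (⟨F, hFM⟩ : MM n) ⟨F, hFM⟩).re - 2 * (BB (⟨F, hFM⟩ : MM n) (TL n c s ⟨F, hFM⟩)).re := by
    have i1 : Integrable (fun p : (Fin n × Fin n → ℂ) × (Fin n × Fin n → ℂ) => hs2 (F p.1))
        ((gin n).prod (gin n)) := PG.integrable_prodR (PG_hs2 _ (PG_fstE hFM))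
    have i2 : Integrable (fun p : (Fin n × Fin n → ℂ) × (Fin n × Fin n → ℂ) =>
        hs2 (F (rotP c s p).1)) ((gin n).prod (gin n)) :=
      PG.integrable_prodR (PG_hs2 _ (PG_rotE hFM c s))
    have i3 : Integrable (fun p : (Fin n × Fin n → ℂ) × (Fin n × Fin n → ℂ) =>
        ip (F p.1) (F ((c : ℂ) • p.1 + (s : ℂ) • p.2))) ((gin n).prod (gin n)) :=
      PG.integrable_prod (PG_ip _ _ (PG_fstE hFM) (PG_rotE hFM c s))
    have i4 : Integrable (fun p : (Fin n × Fin n → ℂ) × (Fin n × Fin n → ℂ) =>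
        (ip (F p.1) (F ((c : ℂ) • p.1 + (s : ℂ) • p.2))).re) ((gin n).prod (gin n)) := i3.re
    rw [BB_TL]
    have r1 : (∫ p, ip (F p.1) (F ((c : ℂ) • p.1 + (s : ℂ) • p.2)) ∂((gin n).prod (gin n))).re =
        ∫ p, (ip (F p.1) (F ((c : ℂ) • p.1 + (s : ℂ) • p.2))).re ∂((gin n).prod (gin n)) := by
      have := integral_re i3
      simpa using this.symm
    have r2 : ∫ p : (Fin n × Fin n → ℂ) × (Fin n × Fin n → ℂ), hs2 (F p.1)
        ∂((gin n).prod (gin n)) = ∫ g, hs2 (F g) ∂(gin n) := by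
      rw [integral_prod _ i1]
      simp
    have r3 := hs2_rot (⟨F, hFM⟩ : MM n) c s hcs
    have r4 : ∫ p, hs2 (F p.1 - F (rotP c s p).1) ∂((gin n).prod (gin n)) =
        ∫ p, (hs2 (F p.1) + hs2 (F (rotP c s p).1)
          - 2 * (ip (F p.1) (F ((c : ℂ) • p.1 + (s : ℂ) • p.2))).re)
          ∂((gin n).prod (gin n)) := by
      congr 1
      funext p
      exact hs2_sub' _ _
    change _ = 2 * (BB (⟨F, hFM⟩ : MM n) ⟨F, hFM⟩).re -
      2 * (∫ p, ip (F p.1) (F ((c : ℂ) • p.1 + (s : ℂ) • p.2)) ∂((gin n).prod (gin n))).re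
    have i12 : Integrable (fun p : (Fin n × Fin n → ℂ) × (Fin n × Fin n → ℂ) =>
        hs2 (F p.1) + hs2 (F (rotP c s p).1)) ((gin n).prod (gin n)) := i1.add i2
    have i5 : Integrable (fun p : (Fin n × Fin n → ℂ) × (Fin n × Fin n → ℂ) =>
        2 * (ip (F p.1) (F ((c : ℂ) • p.1 + (s : ℂ) • p.2))).re) ((gin n).prod (gin n)) :=
      i4.const_mul 2
    rw [r1, BB_self, r4, integral_sub i12 i5, integral_add i1 i2, r2, integral_const_mul]
    have r5 : ∫ p, hs2 (F (rotP c s p).1) ∂((gin n).prod (gin n)) = ∫ g, hs2 (F g) ∂(gin n) := r3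
    rw [r5]
    ring
  rw [e1, e2]
  linarith

end Pool.Agent.H55.ML
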