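/-
HC0 (Herm).  Polynomial calculus of a Hermitian matrix 0 <= D <= K.  About 200 lines.
Spectral theorem: D = U diag(λ) U* (Matrix.IsHermitian.spectral_theorem, eigenvalues, eigenvectorUnitary),
all λ_i in [0,K] (λ_i = v_i* D v_i, |λ_i| <= opn D), hence aeval D h = U diag(h(λ_i)) U*
(conjugation by U is an algebra map; Polynomial.aeval of a diagonal matrix).
form: (v* h(D) v) = sum_i h(λ_i) |(U* v)_i|^2, trace h(D) = sum_i h(λ_i).
opn_aeval_le: nv (h(D) v) = sum h(λ_i)^2 |(U* v)_i|^2 <= M^2 nv v, opn_le_of.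
norm_trace_mul_aeval_le: trace (A f(D)) = sum_i f(λ_i) v_i* A v_i, |v_i* A v_i| <= opn A (norm_form_le).
hs2_aeval_le: hs2 (f(D)) = sum f(λ_i)^2.
-/
import Pool.Agent.H55.ML.Opn

namespace Pool.Agent.H55.ML
open Matrix Polynomial

variable {ι : Type*} [Fintype ι] [DecidableEq ι]

/-- `D` is Hermitian, positive semidefinite and bounded by `K` -/
def PSB (D : Matrix ι ι ℂ) (K : ℝ) : Prop :=
  D.IsHermitian ∧ (∀ v : ι → ℂ, 0 ≤ (star v ⬝ᵥ (D *ᵥ v)).re) ∧ opn D ≤ K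

omit [DecidableEq ι] in
private lemma Herm_dot_self (v : ι → ℂ) : star v ⬝ᵥ v = ((nv v : ℝ) : ℂ) := by
  unfold nv dotProduct
  rw [Complex.ofReal_sum]
  refine Finset.sum_congr rfl fun i _ => ?_
  rw [Pi.star_apply, RCLike.star_def, ← Complex.normSq_eq_conj_mul_self, Complex.normSq_eq_norm_sq]

omit [DecidableEq ι] in
private lemma Herm_adj (A : Matrix ι ι ℂ) (u v : ι → ℂ) :
    star u ⬝ᵥ (A *ᵥ v) = star (Aᴴ *ᵥ u) ⬝ᵥ v := by
  rw [Matrix.star_mulVec, Matrix.conjTranspose_conjTranspose, Matrix.dotProduct_mulVec]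

private lemma Herm_nv_unitary {U : Matrix ι ι ℂ} (hU : Uᴴ * U = 1) (v : ι → ℂ) :
    nv (U *ᵥ v) = nv v := by
  have h : ((nv (U *ᵥ v) : ℝ) : ℂ) = ((nv v : ℝ) : ℂ) := by
    rw [← Herm_dot_self, ← Herm_dot_self, Herm_adj, Matrix.mulVec_mulVec, hU, Matrix.one_mulVec]
  exact_mod_cast h

private lemma Herm_opn_unitary {U : Matrix ι ι ℂ} (hU : Uᴴ * U = 1) : opn U ≤ 1 := by
  refine opn_le_of U 1 zero_le_one fun v => ?_
  rw [Herm_nv_unitary hU, one_pow, one_mul]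

private lemma Herm_nv_single (i : ι) : nv (Pi.single i (1 : ℂ)) = 1 := by
  unfold nv
  rw [Finset.sum_eq_single i]
  · simp
  · intro b _ hb
    rw [Pi.single_eq_of_ne hb]; simp
  · intro h; exact absurd (Finset.mem_univ i) h

private lemma Herm_diag_le (A : Matrix ι ι ℂ) (i : ι) : ‖A i i‖ ≤ opn A := by
  have h := norm_form_le A (Pi.single i (1 : ℂ)) (Pi.single i (1 : ℂ))
  rw [Herm_nv_single, Real.sqrt_one, mul_one, mul_one] at h
  have h2 : star (Pi.single i (1 : ℂ)) ⬝ᵥ (A *ᵥ Pi.single i (1 : ℂ)) = A i i := by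
    rw [← Pi.single_star, single_dotProduct, star_one, one_mul, Matrix.mulVec_single_one]
    rfl
  rwa [h2] at h

private lemma Herm_diag_mulVec (d : ι → ℂ) (w : ι → ℂ) :
    Matrix.diagonal d *ᵥ w = fun i => d i * w i := by
  funext i
  rw [Matrix.mulVec_diagonal]

/-- spectral decomposition, in the form used below -/
theorem psb_spectral {D : Matrix ι ι ℂ} {K : ℝ} (hD : PSB D K) :
    ∃ (U : Matrix ι ι ℂ) (l : ι → ℝ), Uᴴ * U = 1 ∧ U * Uᴴ = 1 ∧ (∀ i, l i ∈ Set.Icc 0 K) ∧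
      ∀ h : ℝ[X], aeval D h = U * Matrix.diagonal (fun i => (((h.eval (l i)) : ℝ) : ℂ)) * Uᴴ := by
  obtain ⟨hH, hpos, hK⟩ := hD
  set U : Matrix ι ι ℂ := (hH.eigenvectorUnitary : Matrix ι ι ℂ) with hUdef
  set l : ι → ℝ := hH.eigenvalues with hldef
  have hU1 : Uᴴ * U = 1 := by
    have := hH.eigenvectorUnitary.2
    rw [Matrix.mem_unitaryGroup_iff'] at this
    exact this
  have hU2 : U * Uᴴ = 1 := by
    have := hH.eigenvectorUnitary.2
    rw [Matrix.mem_unitaryGroup_iff] at this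
    exact this
  have hDU : D = U * Matrix.diagonal (fun i => ((l i : ℝ) : ℂ)) * Uᴴ := by
    have h := hH.spectral_theorem
    rw [Unitary.conjStarAlgAut_apply] at h
    exact h
  have hdiag : ∀ i, (Uᴴ * D * U) i i = ((l i : ℝ) : ℂ) := by
    intro i
    have : Uᴴ * D * U = Matrix.diagonal (fun i => ((l i : ℝ) : ℂ)) := by
      conv_lhs => rw [hDU]
      calc Uᴴ * (U * Matrix.diagonal (fun i => ((l i : ℝ) : ℂ)) * Uᴴ) * U
          = (Uᴴ * U) * Matrix.diagonal (fun i => ((l i : ℝ) : ℂ)) * (Uᴴ * U) := by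
            simp only [Matrix.mul_assoc]
        _ = _ := by rw [hU1, Matrix.one_mul, Matrix.mul_one]
    rw [this, Matrix.diagonal_apply_eq]
  refine ⟨U, l, hU1, hU2, fun i => ⟨?_, ?_⟩, ?_⟩
  · have h := hpos (U *ᵥ Pi.single i (1 : ℂ))
    have h2 : star (U *ᵥ Pi.single i (1 : ℂ)) ⬝ᵥ (D *ᵥ (U *ᵥ Pi.single i (1 : ℂ)))
        = (Uᴴ * D * U) i i := by
      have h3 := Herm_adj Uᴴ (Pi.single i (1 : ℂ)) (D *ᵥ (U *ᵥ Pi.single i (1 : ℂ)))
      rw [Matrix.conjTranspose_conjTranspose] at h3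
      rw [← h3, Matrix.mulVec_mulVec, Matrix.mulVec_mulVec, ← Pi.single_star, single_dotProduct,
        star_one, one_mul, Matrix.mulVec_single_one, Matrix.mul_assoc]
      rfl
    rw [h2, hdiag, Complex.ofReal_re] at h
    exact h
  · have h := Herm_diag_le (Uᴴ * D * U) i
    rw [hdiag, Complex.norm_real] at h
    have h1 := opn_mul_le (Uᴴ * D) U
    have h2 := opn_mul_le Uᴴ D
    have h3 := Herm_opn_unitary hU1
    have h4 : opn Uᴴ ≤ 1 := by rw [opn_conjTranspose]; exact h3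
    have h5 : opn (Uᴴ * D) ≤ opn D :=
      h2.trans (by nlinarith [opn_nonneg D, opn_nonneg Uᴴ])
    have h6 : opn (Uᴴ * D * U) ≤ opn D :=
      h1.trans (by nlinarith [opn_nonneg D, opn_nonneg U, opn_nonneg (Uᴴ * D)])
    exact (le_abs_self _).trans ((Real.norm_eq_abs (l i) ▸ h).trans (h6.trans hK))
  · have hpow : ∀ m : ℕ, D ^ m = U * Matrix.diagonal (fun i => (((l i) ^ m : ℝ) : ℂ)) * Uᴴ := by
      intro m
      induction m with
      | zero =>
        have : (Matrix.diagonal (fun i => (((l i) ^ 0 : ℝ) : ℂ)) : Matrix ι ι ℂ) = 1 := by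
          simp
        rw [this, Matrix.mul_one, hU2, pow_zero]
      | succ m ih =>
        rw [pow_succ, ih]
        conv_lhs => rw [hDU]
        calc U * Matrix.diagonal (fun i => (((l i) ^ m : ℝ) : ℂ)) * Uᴴ *
              (U * Matrix.diagonal (fun i => ((l i : ℝ) : ℂ)) * Uᴴ)
            = U * (Matrix.diagonal (fun i => (((l i) ^ m : ℝ) : ℂ)) * (Uᴴ * U) *
                Matrix.diagonal (fun i => ((l i : ℝ) : ℂ))) * Uᴴ := by
              simp only [Matrix.mul_assoc]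
          _ = _ := by
            rw [hU1, Matrix.mul_one, Matrix.diagonal_mul_diagonal]
            congr 3
            funext i
            push_cast
            ring
    intro h
    induction h using Polynomial.induction_on' with
    | add p q hp hq =>
      rw [map_add, hp, hq, ← Matrix.add_mul, ← Matrix.mul_add, Matrix.diagonal_add]
      congr 3
      funext i
      rw [eval_add]
      push_cast
      rfl
    | monomial m c =>
      rw [aeval_monomial, hpow m, Algebra.algebraMap_eq_smul_one, smul_mul_assoc, one_mul,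
        ← smul_mul_assoc, ← mul_smul_comm]
      congr 2
      ext i j
      rw [Matrix.smul_apply]
      by_cases hij : i = j
      · subst hij
        rw [Matrix.diagonal_apply_eq, Matrix.diagonal_apply_eq, eval_monomial, Complex.real_smul]
        push_cast
        ring
      · rw [Matrix.diagonal_apply_ne _ hij, Matrix.diagonal_apply_ne _ hij, smul_zero]

theorem aeval_isHermitian {D : Matrix ι ι ℂ} (hD : D.IsHermitian) (h : ℝ[X]) :
    (aeval D h).IsHermitian := by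
  induction h using Polynomial.induction_on' with
  | add p q hp hq => rw [map_add]; exact hp.add hq
  | monomial m c =>
    rw [aeval_monomial, Algebra.algebraMap_eq_smul_one, smul_mul_assoc, one_mul]
    unfold Matrix.IsHermitian
    rw [Matrix.conjTranspose_smul, star_trivial, Matrix.conjTranspose_pow, hD.eq]

/-- the quadratic form of a polynomial of `D` -/
private lemma Herm_form {D U : Matrix ι ι ℂ} {l : ι → ℝ}
    (hA : ∀ h : ℝ[X], aeval D h = U * Matrix.diagonal (fun i => (((h.eval (l i)) : ℝ) : ℂ)) * Uᴴ)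
    (h : ℝ[X]) (v : ι → ℂ) :
    star v ⬝ᵥ (aeval D h *ᵥ v) = ((∑ i, h.eval (l i) * ‖(Uᴴ *ᵥ v) i‖ ^ 2 : ℝ) : ℂ) := by
  rw [hA h, ← Matrix.mulVec_mulVec, ← Matrix.mulVec_mulVec, Herm_adj, Herm_diag_mulVec]
  unfold dotProduct
  rw [Complex.ofReal_sum]
  refine Finset.sum_congr rfl fun i _ => ?_
  rw [Pi.star_apply, RCLike.star_def]
  have h1 : (starRingEnd ℂ) ((Uᴴ *ᵥ v) i) * ((Uᴴ *ᵥ v) i) = ((‖(Uᴴ *ᵥ v) i‖ ^ 2 : ℝ) : ℂ) := by
    rw [← Complex.normSq_eq_conj_mul_self, Complex.normSq_eq_norm_sq]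
  calc (starRingEnd ℂ) ((Uᴴ *ᵥ v) i) * (((h.eval (l i) : ℝ) : ℂ) * (Uᴴ *ᵥ v) i)
      = ((h.eval (l i) : ℝ) : ℂ) * ((starRingEnd ℂ) ((Uᴴ *ᵥ v) i) * ((Uᴴ *ᵥ v) i)) := by ring
    _ = _ := by rw [h1]; push_cast; ring

private lemma Herm_trace {D U : Matrix ι ι ℂ} {l : ι → ℝ} (hU : Uᴴ * U = 1)
    (hA : ∀ h : ℝ[X], aeval D h = U * Matrix.diagonal (fun i => (((h.eval (l i)) : ℝ) : ℂ)) * Uᴴ)
    (h : ℝ[X]) : (aeval D h).trace = ((∑ i, h.eval (l i) : ℝ) : ℂ) := by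
  rw [hA h, Matrix.trace_mul_comm, ← Matrix.mul_assoc, hU, Matrix.one_mul, Matrix.trace_diagonal,
    Complex.ofReal_sum]

theorem aeval_form_mono {D : Matrix ι ι ℂ} {K : ℝ} (hD : PSB D K) (f g : ℝ[X])
    (hfg : ∀ x ∈ Set.Icc 0 K, f.eval x ≤ g.eval x) (v : ι → ℂ) :
    (star v ⬝ᵥ (aeval D f *ᵥ v)).re ≤ (star v ⬝ᵥ (aeval D g *ᵥ v)).re := by
  obtain ⟨U, l, -, -, hl, hA⟩ := psb_spectral hD
  rw [Herm_form hA, Herm_form hA, Complex.ofReal_re, Complex.ofReal_re]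
  exact Finset.sum_le_sum fun i _ => mul_le_mul_of_nonneg_right (hfg _ (hl i)) (by positivity)

theorem aeval_trace_mono {D : Matrix ι ι ℂ} {K : ℝ} (hD : PSB D K) (f g : ℝ[X])
    (hfg : ∀ x ∈ Set.Icc 0 K, f.eval x ≤ g.eval x) :
    (aeval D f).trace.re ≤ (aeval D g).trace.re := by
  obtain ⟨U, l, hU, -, hl, hA⟩ := psb_spectral hD
  rw [Herm_trace hU hA, Herm_trace hU hA, Complex.ofReal_re, Complex.ofReal_re]
  exact Finset.sum_le_sum fun i _ => hfg _ (hl i)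

theorem opn_aeval_le {D : Matrix ι ι ℂ} {K : ℝ} (hD : PSB D K) (f : ℝ[X]) (M : ℝ) (hM0 : 0 ≤ M)
    (hM : ∀ x ∈ Set.Icc 0 K, |f.eval x| ≤ M) : opn (aeval D f) ≤ M := by
  obtain ⟨U, l, hU, hU2, hl, hA⟩ := psb_spectral hD
  refine opn_le_of _ M hM0 fun v => ?_
  have hU' : (Uᴴ)ᴴ * Uᴴ = 1 := by rw [Matrix.conjTranspose_conjTranspose]; exact hU2
  rw [hA f, ← Matrix.mulVec_mulVec, ← Matrix.mulVec_mulVec, Herm_nv_unitary hU, Herm_diag_mulVec,
    ← Herm_nv_unitary hU' v]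
  unfold nv
  rw [Finset.mul_sum]
  refine Finset.sum_le_sum fun i _ => ?_
  rw [norm_mul, mul_pow, Complex.norm_real, Real.norm_eq_abs]
  exact mul_le_mul_of_nonneg_right (pow_le_pow_left₀ (abs_nonneg _) (hM _ (hl i)) 2)
    (by positivity)

theorem norm_trace_mul_aeval_le {D : Matrix ι ι ℂ} {K : ℝ} (hD : PSB D K) (A : Matrix ι ι ℂ)
    (f g : ℝ[X]) (hfg : ∀ x ∈ Set.Icc 0 K, |f.eval x| ≤ g.eval x) :
    ‖(A * aeval D f).trace‖ ≤ opn A * (aeval D g).trace.re := by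
  obtain ⟨U, l, hU, hU2, hl, hA⟩ := psb_spectral hD
  rw [Herm_trace hU hA, Complex.ofReal_re, hA f, Finset.mul_sum]
  have h1 : (A * (U * Matrix.diagonal (fun i => (((f.eval (l i)) : ℝ) : ℂ)) * Uᴴ)).trace
      = ∑ i, (Uᴴ * A * U) i i * ((f.eval (l i) : ℝ) : ℂ) := by
    rw [← Matrix.mul_assoc, Matrix.trace_mul_comm, ← Matrix.mul_assoc, ← Matrix.mul_assoc]
    unfold Matrix.trace
    refine Finset.sum_congr rfl fun i _ => ?_
    rw [Matrix.diag_apply, Matrix.mul_diagonal]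
  rw [h1]
  refine (norm_sum_le _ _).trans (Finset.sum_le_sum fun i _ => ?_)
  rw [norm_mul, Complex.norm_real, Real.norm_eq_abs]
  have h2 : ‖(Uᴴ * A * U) i i‖ ≤ opn A := by
    have h := Herm_diag_le (Uᴴ * A * U) i
    have e1 := opn_mul_le (Uᴴ * A) U
    have e2 := opn_mul_le Uᴴ A
    have e3 := Herm_opn_unitary hU
    have e4 : opn Uᴴ ≤ 1 := by rw [opn_conjTranspose]; exact e3
    have e5 : opn (Uᴴ * A) ≤ opn A :=
      e2.trans (by nlinarith [opn_nonneg A, opn_nonneg Uᴴ])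
    have e6 : opn (Uᴴ * A * U) ≤ opn A :=
      e1.trans (by nlinarith [opn_nonneg A, opn_nonneg U, opn_nonneg (Uᴴ * A)])
    exact h.trans e6
  exact mul_le_mul h2 (hfg _ (hl i)) (abs_nonneg _) (opn_nonneg _)

omit [DecidableEq ι] in
private lemma Herm_hs2_trace (A : Matrix ι ι ℂ) : ((hs2 A : ℝ) : ℂ) = (Aᴴ * A).trace := by
  unfold hs2 Matrix.trace
  rw [Finset.sum_comm, Complex.ofReal_sum]
  refine Finset.sum_congr rfl fun j _ => ?_
  rw [Matrix.diag_apply, Matrix.mul_apply, Complex.ofReal_sum]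
  refine Finset.sum_congr rfl fun i _ => ?_
  rw [Matrix.conjTranspose_apply, RCLike.star_def, ← Complex.normSq_eq_conj_mul_self,
    Complex.normSq_eq_norm_sq]

theorem hs2_aeval_le {D : Matrix ι ι ℂ} {K : ℝ} (hD : PSB D K) (f g : ℝ[X])
    (hfg : ∀ x ∈ Set.Icc 0 K, f.eval x ^ 2 ≤ g.eval x) :
    hs2 (aeval D f) ≤ (aeval D g).trace.re := by
  have h1 : ((hs2 (aeval D f) : ℝ) : ℂ) = (aeval D (f ^ 2)).trace := by
    rw [Herm_hs2_trace, (aeval_isHermitian hD.1 f).eq, map_pow, pow_two]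
  have h2 : hs2 (aeval D f) = (aeval D (f ^ 2)).trace.re := by
    rw [← h1, Complex.ofReal_re]
  rw [h2]
  refine aeval_trace_mono hD _ _ fun x hx => ?_
  rw [eval_pow]
  exact hfg x hx

end Pool.Agent.H55.ML
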