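/-
F4 (MomC).  Moments of the coarse bimodule.  About 100 lines.
Coordinates: ((ev LC u * ev RC v) Om2)(x, y) = wv u x * wv v y: induction on u and v with LC_apply, RC_apply
(c1 acts on the first coordinate only; cL is linear in f so constants factor out).
Inner product: sum over (x, y) of conj (wv u x) conj (wv v y) wv u' x wv v' y = product of the two sums
(finitely many nonzero terms: wv_zero) = inner_ev_ev twice (lp.inner_eq_tsum, ev_LT_apply), tsum over a
product: Summable.tsum_prod or finite sums.
expand_C: Expand.expand applied to A = E2 →L[ℂ] E2.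
-/
import Pool.Agent.H55.ML.TSym

namespace Pool.Agent.H55.ML
open Polynomial

private lemma cL_const_mul (b : Bool) (c : ℂ) (g : List Bool → ℂ) (w : List Bool) :
    cL b (fun u => c * g u) w = c * cL b g w := by
  unfold cL
  cases w with
  | nil => simp [cre]
  | cons a w =>
    simp only [cre]
    split_ifs <;> ring

private lemma cL_mul_const (b : Bool) (c : ℂ) (g : List Bool → ℂ) (w : List Bool) :
    cL b (fun u => g u * c) w = cL b g w * c := by
  have : (fun u => g u * c) = fun u => c * g u := by funext u; ring
  rw [this, cL_const_mul, mul_comm]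

private lemma Om2_apply (x y : List Bool) :
    (Om2 : List Bool × List Bool → ℂ) (x, y) = wv [] x * wv [] y := by
  unfold Om2
  rw [lp.coeFn_single]
  simp only [wv, Pi.single_apply, Prod.mk.injEq]
  by_cases hx : x = [] <;> by_cases hy : y = [] <;> simp [hx, hy]

private lemma ev_RC_apply (v x y : List Bool) :
    (ev (RC true) (RC false) v Om2 : List Bool × List Bool → ℂ) (x, y) = wv [] x * wv v y := by
  induction v generalizing x y with
  | nil => rw [ev_nil]; exact Om2_apply x y
  | cons b v ih =>
    rw [ev_cons]
    have h : (cond b (RC true) (RC false) : E2 →L[ℂ] E2) = RC b := by cases b <;> rfl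
    rw [h, mul_apply_eq_comp, RC_apply]
    unfold c2
    simp only [ih]
    rw [cL_const_mul]
    rfl

theorem ev_C_apply (u v x y : List Bool) :
    ((ev (LC true) (LC false) u * ev (RC true) (RC false) v) Om2 : List Bool × List Bool → ℂ) (x, y)
      = wv u x * wv v y := by
  rw [mul_apply_eq_comp]
  induction u generalizing x y with
  | nil => rw [ev_nil]; exact ev_RC_apply v x y
  | cons b u ih =>
    rw [ev_cons]
    have h : (cond b (LC true) (LC false) : E2 →L[ℂ] E2) = LC b := by cases b <;> rfl
    rw [h, mul_apply_eq_comp, LC_apply]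
    unfold c1
    simp only [ih]
    rw [cL_mul_const]
    rfl

theorem inner_C (u v u' v' : List Bool) :
    inner ℂ ((ev (LC true) (LC false) u * ev (RC true) (RC false) v) Om2)
      ((ev (LC true) (LC false) u' * ev (RC true) (RC false) v') Om2)
      = ((tau (st u ++ u') * tau (st v ++ v') : ℝ) : ℂ) := by
  have hs : ∀ w w' : List Bool, Summable fun x : List Bool => inner ℂ (wv w x) (wv w' x) := by
    intro w w'
    have h := lp.summable_inner (𝕜 := ℂ) (ev (LT true) (LT false) w Om1)
      (ev (LT true) (LT false) w' Om1)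
    simpa only [ev_LT_apply] using h
  have ht : ∀ w w' : List Bool, ∑' x : List Bool, inner ℂ (wv w x) (wv w' x)
      = (tau (st w ++ w') : ℂ) := by
    intro w w'
    rw [← inner_ev_ev, lp.inner_eq_tsum]
    simp only [ev_LT_apply]
  rw [lp.inner_eq_tsum, Complex.ofReal_mul, ← ht u u', ← ht v v',
    tsum_mul_tsum_of_summable_norm (hs u u').norm (hs v v').norm]
  refine tsum_congr fun p => ?_
  obtain ⟨x, y⟩ := p
  simp only [ev_C_apply]
  simp only [RCLike.inner_apply, map_mul]
  ring

/-- the value of `nuC` from any universal expansion -/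
theorem nuC_expand (h : ℝ[X]) (a : (List Bool × List Bool) →₀ ℝ)
    (ha : aeval DCo h = a.sum fun p t => t •
      (ev (LC true) (LC false) p.1 * ev (RC true) (RC false) p.2)) :
    nuC h = a.sum fun p t => t * (tau p.1 * tau p.2) := by
  unfold nuC
  rw [ha]
  unfold Finsupp.sum
  have e : ∀ (T : (List Bool × List Bool) → (E2 →L[ℂ] E2)) (s : Finset (List Bool × List Bool)),
      (∑ p ∈ s, a p • T p) Om2 = ∑ p ∈ s, a p • (T p Om2) := by
    intro T s
    rw [sum_apply]
    rfl
  rw [e, inner_sum, Complex.re_sum]
  refine Finset.sum_congr rfl fun p _ => ?_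
  have h0 : Om2 = (ev (LC true) (LC false) [] * ev (RC true) (RC false) []) Om2 := by
    rw [ev_nil, ev_nil]; rfl
  have h1 : inner ℂ Om2 ((ev (LC true) (LC false) p.1 * ev (RC true) (RC false) p.2) Om2)
      = ((tau p.1 * tau p.2 : ℝ) : ℂ) := by
    have := inner_C [] [] p.1 p.2
    rw [← h0] at this
    simpa [st] using this
  have h2 : a p • ((ev (LC true) (LC false) p.1 * ev (RC true) (RC false) p.2) Om2)
      = ((a p : ℝ) : ℂ) • ((ev (LC true) (LC false) p.1 * ev (RC true) (RC false) p.2) Om2) :=
    (Complex.coe_smul _ _).symm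
  rw [h2, inner_smul_right, h1, ← Complex.ofReal_mul, Complex.ofReal_re]

end Pool.Agent.H55.ML
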