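/-
Q2 (Master).  E Tr h(D_n) = n² p_h(1/n²) with p_h(0) = nuC h.  Needs PEx, Expand, LR, MomC.  About 120 lines.
PROOF.  expand h gives a finitely supported a with |u| + |v| <= 2 natDegree h, valid for the commuting pairs
(Lf X, Lf X*), (Rt X, Rt X*) (Lf_comm_Rt) in Op n and for (LC, RC) in E2 →L E2.  So (ev_Lf, ev_Rt, trace_Lf_mul_Rt)
Tr h(DD X) = sum a(u,v) Tr (ev X X* u) Tr (ev X X* v.reverse) = sum a(u,v) tb X [u, v.reverse];
exists_P for [u, v.reverse]: n^2 P_{uv}(1/n²), degree <= |u| + |v| <= 2 natDegree h,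
P_{uv}(0) = tau u * tau v.reverse = tau u * tau v (tau_reverse).  p = sum a(u,v) P_{uv};
p(0) = sum a(u,v) tau u tau v = nuC h (nuC_expand).
-/
import Pool.Agent.H55.ML.PEx
import Pool.Agent.H55.ML.LR
import Pool.Agent.H55.ML.MomC

namespace Pool.Agent.H55.ML
open MeasureTheory ProbabilityTheory Polynomial

private theorem master_trace {n : ℕ} (h : ℝ[X]) (a : (List Bool × List Bool) →₀ ℝ)
    (ha : ∀ (A : Type) [Ring A] [Algebra ℝ A] (l l' r r' : A),
      Commute l r → Commute l r' → Commute l' r → Commute l' r' →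
      aeval (DDg l l' r r') h = a.sum fun p t => t • (ev l l' p.1 * ev r r' p.2))
    (Y : Mat n) :
    (aeval (DD Y) h).trace = ∑ p ∈ a.support, ((a p : ℝ) : ℂ) * tb Y [p.1, p.2.reverse] := by
  unfold DD
  rw [ha (Op n) _ _ _ _ (Lf_comm_Rt _ _) (Lf_comm_Rt _ _) (Lf_comm_Rt _ _) (Lf_comm_Rt _ _)]
  unfold Finsupp.sum
  rw [Matrix.trace_sum]
  refine Finset.sum_congr rfl fun p _ => ?_
  rw [Matrix.trace_smul, ev_Lf, ev_Rt, trace_Lf_mul_Rt]
  simp [tb]

theorem master (h : ℝ[X]) : ∃ p : ℝ[X], p.natDegree ≤ 2 * h.natDegree ∧ p.eval 0 = nuC h ∧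
    ∀ n : ℕ, 1 ≤ n → ∫ g, (aeval (DD (XX g)) h).trace ∂(gin n)
      = (((n : ℝ) ^ 2 * p.eval (1 / (n : ℝ) ^ 2) : ℝ) : ℂ) := by
  obtain ⟨a, had, ha⟩ := expand h
  choose P hP1 hP2 hP3 using fun p : List Bool × List Bool => exists_P [p.1, p.2.reverse]
  refine ⟨∑ p ∈ a.support, C (a p) * P p, ?_, ?_, ?_⟩
  · refine natDegree_sum_le_of_forall_le _ _ fun p hp => ?_
    refine (natDegree_C_mul_le _ _).trans ((hP1 p).trans ?_)
    have := had p hp
    simpa using this
  · rw [eval_finsetSum]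
    have hn := nuC_expand h a
      (ha (E2 →L[ℂ] E2) (LC true) (LC false) (RC true) (RC false) (commute_LC_RC _ _)
        (commute_LC_RC _ _) (commute_LC_RC _ _) (commute_LC_RC _ _))
    rw [hn]
    unfold Finsupp.sum
    refine Finset.sum_congr rfl fun p _ => ?_
    rw [eval_mul, eval_C, hP2]
    simp [tau_reverse]
  · intro n hn
    have e1 : ∀ g : Fin n × Fin n → ℂ, (aeval (DD (XX g)) h).trace
        = ∑ p ∈ a.support, ((a p : ℝ) : ℂ) * tb (XX g) [p.1, p.2.reverse] :=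
      fun g => master_trace h a ha (XX g)
    simp only [e1]
    rw [integral_finsetSum _ (fun p _ => (tb_integrable _).const_mul _)]
    rw [eval_finsetSum, Finset.mul_sum, Complex.ofReal_sum]
    refine Finset.sum_congr rfl fun p _ => ?_
    rw [integral_const_mul, hP3 p n hn]
    simp only [List.length_cons, List.length_nil, eval_mul, eval_C]
    push_cast
    ring

end Pool.Agent.H55.ML
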