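/-
C3a (Markov).  A cheap Markov inequality: |p'| <= c m³ max |p| on [-1,1].  MATHLIB ONLY.
PROOF (helper87).  At the end point x = 1 the inequality |p'(1)| <= m² max |p| is in Mathlib
(Polynomial.Chebyshev.eval_iterate_derivative_le_of_forall_abs_le_one).  For 0 <= x <= 1 apply it to the
polynomial t ↦ p (((x+1) t + x - 1) / 2), which maps [-1,1] onto [-1,x]: |p'(x)| (x+1)/2 <= m² M, so
|p'(x)| <= 2 m² M; for x < 0 use p(-x).  Finally m² <= m³.
-/
import Mathlib

namespace Pool.Agent.H55.ML
open Polynomial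

private theorem mk_at_one (m : ℕ) (p : ℝ[X]) (hp : p.natDegree ≤ m) (M : ℝ) (hM0 : 0 < M)
    (hM : ∀ x ∈ Set.Icc (-1 : ℝ) 1, |p.eval x| ≤ M) :
    |p.derivative.eval 1| ≤ (m : ℝ) ^ 2 * M := by
  have key : ∀ q : ℝ[X], q.natDegree ≤ m → (∀ x ∈ Set.Icc (-1 : ℝ) 1, |q.eval x| ≤ M) →
      q.derivative.eval 1 ≤ (m : ℝ) ^ 2 * M := by
    intro q hq hqM
    have h := Polynomial.Chebyshev.eval_iterate_derivative_le_of_forall_abs_le_one (n := m)
      (P := Polynomial.C M⁻¹ * q) (k := 1) (x := 1) le_rfl
      (by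
        apply Polynomial.degree_le_of_natDegree_le
        exact (Polynomial.natDegree_C_mul_le _ _).trans hq)
      (by
        intro x hx
        rw [eval_mul, eval_C, abs_mul, abs_of_pos (inv_pos.2 hM0)]
        have := hqM x hx
        rw [inv_mul_le_iff₀ hM0]
        linarith)
    rw [Function.iterate_one] at h
    rw [derivative_C_mul, eval_mul, eval_C, Polynomial.Chebyshev.derivative_T_eval_one] at h
    rw [inv_mul_le_iff₀ hM0] at h
    push_cast at h
    linarith
  rw [abs_le]
  constructor
  · have h := key (-p) (by rwa [natDegree_neg]) (by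
      intro x hx
      rw [eval_neg, abs_neg]
      exact hM x hx)
    rw [derivative_neg, eval_neg] at h
    linarith
  · exact key p hp hM

private theorem mk_pos (m : ℕ) (p : ℝ[X]) (hp : p.natDegree ≤ m) (M : ℝ) (hM0 : 0 < M)
    (hM : ∀ x ∈ Set.Icc (-1 : ℝ) 1, |p.eval x| ≤ M) (x : ℝ) (hx0 : 0 ≤ x) (hx1 : x ≤ 1) :
    |p.derivative.eval x| ≤ 2 * (m : ℝ) ^ 2 * M := by
  have ha : (0 : ℝ) < (x + 1) / 2 := by linarith
  set l : ℝ[X] := Polynomial.C ((x + 1) / 2) * Polynomial.X + Polynomial.C ((x - 1) / 2) with hl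
  have hdl : l.natDegree ≤ 1 := by
    rw [hl]
    exact natDegree_linear_le
  have h := mk_at_one m (p.comp l) (by
      calc (p.comp l).natDegree ≤ p.natDegree * l.natDegree := natDegree_comp_le
        _ ≤ m * 1 := Nat.mul_le_mul hp hdl
        _ = m := by ring) M hM0 (by
      intro t ht
      rw [eval_comp]
      apply hM
      have : l.eval t = (x + 1) / 2 * t + (x - 1) / 2 := by
        simp [hl]
      rw [this]
      obtain ⟨h1, h2⟩ := ht
      constructor <;> nlinarith)
  rw [derivative_comp, eval_mul, eval_comp] at h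
  have e1 : l.eval 1 = x := by
    simp [hl]
    ring
  have e2 : l.derivative.eval 1 = (x + 1) / 2 := by
    simp [hl]
  rw [e1, e2, abs_mul, abs_of_pos ha] at h
  have h3 : 0 ≤ |p.derivative.eval x| := abs_nonneg _
  nlinarith

theorem markov_cheap (m : ℕ) (p : ℝ[X]) (hp : p.natDegree ≤ m) (M : ℝ)
    (hM : ∀ x ∈ Set.Icc (-1 : ℝ) 1, |p.eval x| ≤ M) :
    ∀ x ∈ Set.Icc (-1 : ℝ) 1, |p.derivative.eval x| ≤ 2 * (m : ℝ) ^ 3 * M := by
  intro x hx
  have hM0 : 0 ≤ M := le_trans (abs_nonneg _) (hM 0 (by constructor <;> norm_num))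
  rcases hM0.eq_or_lt with hM1 | hM1
  · have hz : p = 0 := by
      refine Polynomial.eq_zero_of_infinite_isRoot p ((Set.Icc_infinite
        (show (-1 : ℝ) < 1 by norm_num)).mono ?_)
      intro t ht
      have := hM t ht
      rw [← hM1] at this
      exact abs_nonpos_iff.1 this
    rw [hz, ← hM1]
    simp
  · rcases Nat.eq_zero_or_pos m with hm | hm
    · have : p.derivative = 0 := by
        apply Polynomial.derivative_of_natDegree_zero
        omega
      rw [this]
      simp [hm]
    · have h2 : |p.derivative.eval x| ≤ 2 * (m : ℝ) ^ 2 * M := by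
        rcases le_total 0 x with h0 | h0
        · exact mk_pos m p hp M hM1 hM x h0 hx.2
        · have h := mk_pos m (p.comp (-Polynomial.X)) (by
            rw [natDegree_comp, natDegree_neg, natDegree_X]
            omega) M hM1 (by
              intro t ht
              rw [eval_comp, eval_neg, eval_X]
              apply hM
              obtain ⟨h1, h2⟩ := ht
              constructor <;> linarith) (-x) (by linarith) (by linarith [hx.1])
          rw [derivative_comp, eval_mul, eval_comp, eval_neg, eval_X, neg_neg] at h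
          rw [derivative_neg, derivative_X, eval_neg, eval_one] at h
          simpa using h
      refine h2.trans ?_
      have hm1 : (1 : ℝ) ≤ m := by exact_mod_cast hm
      have : (m : ℝ) ^ 2 ≤ (m : ℝ) ^ 3 := pow_le_pow_right₀ hm1 (by norm_num)
      nlinarith

end Pool.Agent.H55.ML
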