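/-
C3b (Mesh).  A polynomial bounded at the points 1/n² is Lipschitz at 0.  Needs Markov.  About 120 lines.
PROOF.  Fix N = 16 m³, δ = 1/N².  Rescale Markov to [0, δ]: |p'| <= (2/δ) 2 m³ S = 4 m³ N² S on [0, δ], S = max |p|
on [0, δ] (attained at some x0).  Every x in (0, δ] lies between 1/(n+1)² and 1/n² for some n >= N, at distance
<= 1/n² - 1/(n+1)² <= 2/n³ <= 2/N³ from 1/(n+1)²; for x0 = 0 use continuity (points 1/n² → 0).  So
S <= A + 4 m³ N² S · 2/N³ = A + (8 m³/N) S = A + S/2, S <= 2A.  Then for 0 <= x <= δ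
|p(x) - p(0)| <= 4 m³ N² · 2A x = 8 · 256 m^9 A x = 2048 m^9 A x.  (C = 2048; N >= m so the hypothesis applies;
the conclusion is used for n >= N, guaranteed by 2048 m³ <= n.)
-/
import Pool.Agent.H55.ML.Markov

namespace Pool.Agent.H55.ML
open Polynomial

/-- Markov's inequality rescaled to `[0, δ]`. -/
theorem mesh_markov (m : ℕ) (p : ℝ[X]) (hp : p.natDegree ≤ m) (δ S : ℝ) (hδ : 0 < δ)
    (hS : ∀ x ∈ Set.Icc (0 : ℝ) δ, |p.eval x| ≤ S) :
    ∀ x ∈ Set.Icc (0 : ℝ) δ, |p.derivative.eval x| ≤ 2 / δ * (2 * (m : ℝ) ^ 3 * S) := by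
  intro x hx
  obtain ⟨hx0, hx1⟩ := hx
  set r : ℝ[X] := C (δ / 2) * (X + C 1) with hr
  have hreval : ∀ y : ℝ, r.eval y = δ / 2 * (y + 1) := by
    intro y
    simp [hr]
  have hrdeg : r.natDegree ≤ 1 := by
    rw [hr]
    refine (natDegree_C_mul_le _ _).trans ?_
    exact (natDegree_X_add_C (1 : ℝ)).le
  have hqdeg : (p.comp r).natDegree ≤ m := by
    refine natDegree_comp_le.trans ?_
    calc p.natDegree * r.natDegree ≤ m * 1 := Nat.mul_le_mul hp hrdeg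
      _ = m := Nat.mul_one m
  have hq : ∀ y ∈ Set.Icc (-1 : ℝ) 1, |(p.comp r).eval y| ≤ S := by
    intro y hy
    obtain ⟨hy0, hy1⟩ := hy
    rw [eval_comp, hreval]
    refine hS _ ⟨?_, ?_⟩
    · have : 0 ≤ y + 1 := by linarith
      positivity
    · nlinarith
  have hmain := markov_cheap m (p.comp r) hqdeg S hq (2 * x / δ - 1) ⟨by
      have : 0 ≤ 2 * x / δ := by positivity
      linarith, by
      have : 2 * x / δ ≤ 2 := by
        rw [div_le_iff₀ hδ]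
        nlinarith
      linarith⟩
  have hrd : r.derivative = C (δ / 2) := by
    rw [hr]
    simp
  rw [derivative_comp, eval_mul, hrd, eval_C, eval_comp, hreval] at hmain
  have hxx : δ / 2 * (2 * x / δ - 1 + 1) = x := by
    field_simp
    ring
  rw [hxx, abs_mul, abs_of_pos (by positivity : (0 : ℝ) < δ / 2)] at hmain
  have h2 : 2 / δ * (δ / 2 * |p.derivative.eval x|) = |p.derivative.eval x| := by
    field_simp
  calc |p.derivative.eval x| = 2 / δ * (δ / 2 * |p.derivative.eval x|) := h2.symm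
    _ ≤ 2 / δ * (2 * (m : ℝ) ^ 3 * S) :=
        mul_le_mul_of_nonneg_left hmain (by positivity)

/-- Lipschitz bound on `[0, δ]`. -/
theorem mesh_lip (m : ℕ) (p : ℝ[X]) (hp : p.natDegree ≤ m) (δ S : ℝ) (hδ : 0 < δ)
    (hS : ∀ x ∈ Set.Icc (0 : ℝ) δ, |p.eval x| ≤ S) (x y : ℝ) (hx : x ∈ Set.Icc (0 : ℝ) δ)
    (hy : y ∈ Set.Icc (0 : ℝ) δ) :
    |p.eval y - p.eval x| ≤ 2 / δ * (2 * (m : ℝ) ^ 3 * S) * |y - x| := by
  have h := mesh_markov m p hp δ S hδ hS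
  have := (convex_Icc (0 : ℝ) δ).norm_image_sub_le_of_norm_hasDerivWithin_le
    (f := fun z => p.eval z) (f' := fun z => p.derivative.eval z)
    (C := 2 / δ * (2 * (m : ℝ) ^ 3 * S))
    (fun z _ => (p.hasDerivAt z).hasDerivWithinAt)
    (fun z hz => by
      rw [Real.norm_eq_abs]
      exact h z hz) hx hy
  simpa only [Real.norm_eq_abs] using this

theorem mesh (m : ℕ) (hm : 1 ≤ m) (p : ℝ[X]) (hp : p.natDegree ≤ m) (A : ℝ)
    (hA : ∀ n : ℕ, m ≤ n → |p.eval (1 / (n : ℝ) ^ 2)| ≤ A) (n : ℕ) (hn : 2048 * m ^ 3 ≤ n) :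
    |p.eval (1 / (n : ℝ) ^ 2) - p.eval 0| ≤ 2048 * A * (m : ℝ) ^ 9 / (n : ℝ) ^ 2 := by
  have hm1 : (1 : ℝ) ≤ (m : ℝ) := by exact_mod_cast hm
  have hm3 : m ≤ m ^ 3 := Nat.le_self_pow (by norm_num) m
  obtain ⟨N, hN⟩ : ∃ N : ℕ, N = 16 * m ^ 3 := ⟨_, rfl⟩
  have hNm : m ≤ N := by omega
  have hNr : (N : ℝ) = 16 * (m : ℝ) ^ 3 := by
    rw [hN]
    push_cast
    ring
  have hm3r : (1 : ℝ) ≤ (m : ℝ) ^ 3 := one_le_pow₀ hm1
  have hN1 : (16 : ℝ) ≤ (N : ℝ) := by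
    rw [hNr]
    nlinarith
  have hNpos : (0 : ℝ) < (N : ℝ) := by linarith
  obtain ⟨δ, hδdef⟩ : ∃ δ : ℝ, δ = 1 / (N : ℝ) ^ 2 := ⟨_, rfl⟩
  have hδ : 0 < δ := by
    rw [hδdef]
    positivity
  -- the maximum
  obtain ⟨x0, hx0, hmax⟩ := (isCompact_Icc (a := (0 : ℝ)) (b := δ)).exists_isMaxOn
    ⟨0, le_refl _, hδ.le⟩ (f := fun z => |p.eval z|)
    (p.continuous.abs.continuousOn)
  obtain ⟨S, hSdef⟩ : ∃ S : ℝ, S = |p.eval x0| := ⟨_, rfl⟩
  have hS : ∀ x ∈ Set.Icc (0 : ℝ) δ, |p.eval x| ≤ S := by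
    intro x hx
    rw [hSdef]
    exact hmax hx
  have hS0 : 0 ≤ S := by
    rw [hSdef]
    exact abs_nonneg _
  -- value at zero
  have hp0 : |p.eval 0| ≤ A := by
    have ht : Filter.Tendsto (fun k : ℕ => |p.eval (1 / (k : ℝ) ^ 2)|) Filter.atTop
        (nhds |p.eval 0|) := by
      have h1 : Filter.Tendsto (fun k : ℕ => 1 / (k : ℝ) ^ 2) Filter.atTop (nhds 0) := by
        have := tendsto_one_div_atTop_nhds_zero_nat (𝕜 := ℝ)
        have h2 := this.pow 2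
        refine (h2.congr ?_).trans (by simp)
        intro k
        rw [div_pow, one_pow]
      exact ((p.continuous.abs).tendsto 0).comp h1
    refine le_of_tendsto ht ?_
    filter_upwards [Filter.eventually_ge_atTop m] with k hk
    exact hA k hk
  have hA0 : 0 ≤ A := (abs_nonneg _).trans hp0
  have hL : 2 / δ * (2 * (m : ℝ) ^ 3 * S) = 4 * (m : ℝ) ^ 3 * (N : ℝ) ^ 2 * S := by
    rw [hδdef]
    field_simp
    ring
  -- the maximum is at most 2 A
  have hS2 : S ≤ 2 * A := by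
    rcases eq_or_lt_of_le hx0.1 with h0 | h0
    · rw [hSdef, ← h0]
      linarith
    · have hx0δ := hx0.2
      have hsq : 0 < Real.sqrt x0 := Real.sqrt_pos.mpr h0
      have hsq2 : Real.sqrt x0 ^ 2 = x0 := Real.sq_sqrt h0.le
      obtain ⟨k, hk⟩ : ∃ k : ℕ, k = ⌊1 / Real.sqrt x0⌋₊ := ⟨_, rfl⟩
      have hk1 : (k : ℝ) ≤ 1 / Real.sqrt x0 := by
        rw [hk]
        exact Nat.floor_le (by positivity)
      have hk2 : 1 / Real.sqrt x0 < (k : ℝ) + 1 := by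
        rw [hk]
        exact Nat.lt_floor_add_one _
      have hNk : N ≤ k := by
        rw [hk]
        refine Nat.le_floor ?_
        rw [le_div_iff₀ hsq]
        have h3 : Real.sqrt x0 ≤ 1 / (N : ℝ) := by
          rw [Real.sqrt_le_left (by positivity), div_pow, one_pow, ← hδdef]
          exact hx0δ
        calc (N : ℝ) * Real.sqrt x0 ≤ (N : ℝ) * (1 / (N : ℝ)) :=
              mul_le_mul_of_nonneg_left h3 hNpos.le
          _ = 1 := by field_simp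
      have hNkr : (N : ℝ) ≤ (k : ℝ) := by exact_mod_cast hNk
      have hkpos : (0 : ℝ) < (k : ℝ) := by linarith
      have hkx : x0 ≤ 1 / (k : ℝ) ^ 2 := by
        rw [le_div_iff₀ (by positivity)]
        rw [le_div_iff₀ hsq] at hk1
        have h4 : ((k : ℝ) * Real.sqrt x0) ^ 2 ≤ 1 := by
          have : 0 ≤ (k : ℝ) * Real.sqrt x0 := by positivity
          nlinarith
        calc x0 * (k : ℝ) ^ 2 = ((k : ℝ) * Real.sqrt x0) ^ 2 := by
              rw [mul_pow, hsq2]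
              ring
          _ ≤ 1 := h4
      have hkx' : 1 / ((k : ℝ) + 1) ^ 2 ≤ x0 := by
        rw [div_le_iff₀ (by positivity)]
        rw [div_lt_iff₀ hsq] at hk2
        calc (1 : ℝ) ≤ (((k : ℝ) + 1) * Real.sqrt x0) ^ 2 := by nlinarith
          _ = x0 * ((k : ℝ) + 1) ^ 2 := by
              rw [mul_pow, hsq2]
              ring
      have hAk : |p.eval (1 / ((k : ℝ) + 1) ^ 2)| ≤ A := by
        have := hA (k + 1) (by omega)
        push_cast at this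
        exact this
      have hmem : 1 / ((k : ℝ) + 1) ^ 2 ∈ Set.Icc (0 : ℝ) δ :=
        ⟨by positivity, hkx'.trans hx0δ⟩
      have hlip := mesh_lip m p hp δ S hδ hS _ _ hmem hx0
      rw [hL, abs_of_nonneg (by linarith : 0 ≤ x0 - 1 / ((k : ℝ) + 1) ^ 2)] at hlip
      have hdist : x0 - 1 / ((k : ℝ) + 1) ^ 2 ≤ 2 / (N : ℝ) ^ 3 := by
        calc x0 - 1 / ((k : ℝ) + 1) ^ 2 ≤ 1 / (k : ℝ) ^ 2 - 1 / ((k : ℝ) + 1) ^ 2 := by linarith
          _ ≤ 2 / (k : ℝ) ^ 3 := by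
              rw [div_sub_div _ _ (by positivity) (by positivity),
                div_le_div_iff₀ (by positivity) (by positivity)]
              have hk0 : 0 ≤ (k : ℝ) := hkpos.le
              have e1 : (1 * ((k : ℝ) + 1) ^ 2 - (k : ℝ) ^ 2 * 1) * (k : ℝ) ^ 3
                  = 2 * (k : ℝ) ^ 4 + (k : ℝ) ^ 3 := by ring
              have e2 : 2 * ((k : ℝ) ^ 2 * ((k : ℝ) + 1) ^ 2)
                  = 2 * (k : ℝ) ^ 4 + 4 * (k : ℝ) ^ 3 + 2 * (k : ℝ) ^ 2 := by ring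
              rw [e1, e2]
              have : 0 ≤ 3 * (k : ℝ) ^ 3 + 2 * (k : ℝ) ^ 2 := by positivity
              linarith
          _ ≤ 2 / (N : ℝ) ^ 3 := by
              apply div_le_div_of_nonneg_left (by norm_num) (by positivity)
              exact pow_le_pow_left₀ hNpos.le hNkr 3
      have hfin : S ≤ A + 4 * (m : ℝ) ^ 3 * (N : ℝ) ^ 2 * S * (2 / (N : ℝ) ^ 3) := by
        have h5 : |p.eval x0| ≤ |p.eval (1 / ((k : ℝ) + 1) ^ 2)|
            + |p.eval x0 - p.eval (1 / ((k : ℝ) + 1) ^ 2)| := by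
          have := abs_add_le (p.eval (1 / ((k : ℝ) + 1) ^ 2))
            (p.eval x0 - p.eval (1 / ((k : ℝ) + 1) ^ 2))
          simpa using this
        have h6 : 4 * (m : ℝ) ^ 3 * (N : ℝ) ^ 2 * S * (x0 - 1 / ((k : ℝ) + 1) ^ 2)
            ≤ 4 * (m : ℝ) ^ 3 * (N : ℝ) ^ 2 * S * (2 / (N : ℝ) ^ 3) :=
          mul_le_mul_of_nonneg_left hdist (by positivity)
        rw [← hSdef] at h5
        linarith
      have h7 : 4 * (m : ℝ) ^ 3 * (N : ℝ) ^ 2 * S * (2 / (N : ℝ) ^ 3) = S / 2 := by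
        have h8 : 4 * (m : ℝ) ^ 3 * (N : ℝ) ^ 2 * S * (2 / (N : ℝ) ^ 3)
            = 8 * (m : ℝ) ^ 3 * S / (N : ℝ) := by
          field_simp
          ring
        rw [h8, hNr]
        have : (m : ℝ) ^ 3 ≠ 0 := by positivity
        field_simp
        ring
      rw [h7] at hfin
      linarith
  -- conclusion
  have hnr : 2048 * (m : ℝ) ^ 3 ≤ (n : ℝ) := by exact_mod_cast hn
  have hnN : (N : ℝ) ≤ (n : ℝ) := by
    rw [hNr]
    nlinarith
  have hnpos : (0 : ℝ) < (n : ℝ) := by linarith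
  have hnδ : 1 / (n : ℝ) ^ 2 ≤ δ := by
    rw [hδdef]
    apply div_le_div_of_nonneg_left (by norm_num) (by positivity)
    exact pow_le_pow_left₀ hNpos.le hnN 2
  have hlip := mesh_lip m p hp δ S hδ hS 0 (1 / (n : ℝ) ^ 2) ⟨le_refl _, hδ.le⟩
    ⟨by positivity, hnδ⟩
  rw [hL, sub_zero, abs_of_pos (by positivity : (0 : ℝ) < 1 / (n : ℝ) ^ 2)] at hlip
  refine hlip.trans ?_
  have h9 : 4 * (m : ℝ) ^ 3 * (N : ℝ) ^ 2 * S ≤ 4 * (m : ℝ) ^ 3 * (N : ℝ) ^ 2 * (2 * A) :=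
    mul_le_mul_of_nonneg_left hS2 (by positivity)
  calc 4 * (m : ℝ) ^ 3 * (N : ℝ) ^ 2 * S * (1 / (n : ℝ) ^ 2)
      ≤ 4 * (m : ℝ) ^ 3 * (N : ℝ) ^ 2 * (2 * A) * (1 / (n : ℝ) ^ 2) :=
        mul_le_mul_of_nonneg_right h9 (by positivity)
    _ = 2048 * A * (m : ℝ) ^ 9 / (n : ℝ) ^ 2 := by
        rw [hNr]
        ring

end Pool.Agent.H55.ML
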