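/-
G1e.  Exponential integrals of the standard complex Gaussian variable.  Defs only.  About 120 lines.
stdC_exp: with z = (a + i b)/√2, Re (conj u z) * 2 = √2 (Re u a + Im u b), so the integral is the product of two
real Gaussian exponential integrals E exp(t a) = exp(t^2/2) (mgf_gaussianReal / integral_exp...), t = √2 Re u and
√2 Im u: total exp(|u|^2).
stdC_exp_sq: exp(|z|^2/2) = exp(a^2/4) exp(b^2/4), E exp(a^2/4) = (1 - 1/2)^(-1/2) = √2
(density exp(-a^2/2)/√(2π), integral_gaussian: ∫ exp(-a^2/4) da = √(4π)).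
-/
import Pool.Agent.H55.ML.Defs

namespace Pool.Agent.H55.ML
open MeasureTheory ProbabilityTheory
open scoped ComplexConjugate ENNReal

private lemma lint_exp_lin (t : ℝ) :
    ∫⁻ a, ENNReal.ofReal (Real.exp (t * a)) ∂(gaussianReal 0 1)
      = ENNReal.ofReal (Real.exp (t ^ 2 / 2)) := by
  have hi : Integrable (fun a => Real.exp (t * a)) (gaussianReal 0 1) :=
    integrable_exp_mul_gaussianReal t
  rw [← ofReal_integral_eq_lintegral_ofReal hi
    (Filter.Eventually.of_forall fun a => (Real.exp_pos _).le)]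
  congr 1
  have h := congrFun (mgf_id_gaussianReal (μ := 0) (v := 1)) t
  simp only [mgf, id] at h
  rw [h]
  congr 1
  simp

private lemma lint_exp_sq :
    ∫⁻ a, ENNReal.ofReal (Real.exp (a ^ 2 / 4)) ∂(gaussianReal 0 1)
      = ENNReal.ofReal (Real.sqrt 2) := by
  rw [gaussianReal_of_var_ne_zero _ one_ne_zero,
    lintegral_withDensity_eq_lintegral_mul _ (measurable_gaussianPDF _ _) (by fun_prop)]
  have e : ∀ a : ℝ, (gaussianPDF 0 1 * fun a : ℝ => ENNReal.ofReal (Real.exp (a ^ 2 / 4))) a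
      = ENNReal.ofReal ((Real.sqrt (2 * Real.pi))⁻¹ * Real.exp (-(1 / 4) * a ^ 2)) := by
    intro a
    rw [Pi.mul_apply, gaussianPDF, ← ENNReal.ofReal_mul (gaussianPDFReal_nonneg _ _ _)]
    congr 1
    rw [gaussianPDFReal, mul_assoc, ← Real.exp_add]
    simp only [NNReal.coe_one, mul_one, sub_zero]
    congr 2
    ring
  simp only [e]
  have hi : Integrable (fun a : ℝ => (Real.sqrt (2 * Real.pi))⁻¹ * Real.exp (-(1 / 4) * a ^ 2)) :=
    (integrable_exp_neg_mul_sq (by norm_num)).const_mul _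
  rw [← ofReal_integral_eq_lintegral_ofReal hi
    (Filter.Eventually.of_forall fun a => by positivity)]
  congr 1
  rw [integral_const_mul, integral_gaussian]
  have h1 : Real.pi / (1 / 4) = 2 * (2 * Real.pi) := by ring
  rw [h1, Real.sqrt_mul (by norm_num : (0 : ℝ) ≤ 2) (2 * Real.pi)]
  have h2 : Real.sqrt (2 * Real.pi) ≠ 0 := by positivity
  rw [mul_comm (Real.sqrt 2), inv_mul_cancel_left₀ h2]

private lemma meas_z : Measurable (fun p : ℝ × ℝ =>
    ((p.1 : ℂ) + (p.2 : ℂ) * Complex.I) / (Real.sqrt 2 : ℂ)) := by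
  fun_prop

theorem stdC_exp (u : ℂ) :
    ∫⁻ z, ENNReal.ofReal (Real.exp (2 * (conj u * z).re)) ∂stdC
      = ENNReal.ofReal (Real.exp (‖u‖ ^ 2)) := by
  have hs : Real.sqrt 2 * Real.sqrt 2 = 2 := Real.mul_self_sqrt (by norm_num)
  have hs0 : Real.sqrt 2 ≠ 0 := by positivity
  have hm : Measurable (fun z : ℂ => ENNReal.ofReal (Real.exp (2 * (conj u * z).re))) := by
    have : Measurable (fun z : ℂ => (conj u * z).re) :=
      Complex.measurable_re.comp (measurable_const.mul measurable_id)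
    fun_prop
  rw [stdC, lintegral_map hm meas_z]
  have e : ∀ p : ℝ × ℝ, ENNReal.ofReal (Real.exp (2 * (conj u *
      (((p.1 : ℂ) + (p.2 : ℂ) * Complex.I) / (Real.sqrt 2 : ℂ))).re))
      = ENNReal.ofReal (Real.exp (Real.sqrt 2 * u.re * p.1)) *
        ENNReal.ofReal (Real.exp (Real.sqrt 2 * u.im * p.2)) := by
    intro p
    rw [← ENNReal.ofReal_mul (Real.exp_pos _).le, ← Real.exp_add]
    congr 2
    rw [← mul_div_assoc, Complex.div_ofReal_re]
    simp only [Complex.mul_re, Complex.add_re, Complex.add_im, Complex.conj_re, Complex.conj_im,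
      Complex.ofReal_re, Complex.ofReal_im, Complex.mul_im, Complex.I_re, Complex.I_im]
    field_simp
    have h3 : Real.sqrt 2 ^ 2 = 2 := by rw [pow_two, hs]
    rw [h3]
    ring
  simp only [e]
  rw [lintegral_prod_mul (f := fun a : ℝ => ENNReal.ofReal (Real.exp (Real.sqrt 2 * u.re * a)))
    (g := fun a : ℝ => ENNReal.ofReal (Real.exp (Real.sqrt 2 * u.im * a)))
    (by fun_prop) (by fun_prop), lint_exp_lin, lint_exp_lin,
    ← ENNReal.ofReal_mul (Real.exp_pos _).le, ← Real.exp_add]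
  congr 2
  rw [Complex.sq_norm, Complex.normSq_apply]
  have h3 : Real.sqrt 2 ^ 2 = 2 := by rw [pow_two, hs]
  ring_nf
  rw [h3]
  ring

theorem stdC_exp_sq : ∫⁻ z, ENNReal.ofReal (Real.exp (‖z‖ ^ 2 / 2)) ∂stdC = 2 := by
  have hs : Real.sqrt 2 * Real.sqrt 2 = 2 := Real.mul_self_sqrt (by norm_num)
  rw [stdC, lintegral_map (by fun_prop) meas_z]
  have e : ∀ p : ℝ × ℝ, ENNReal.ofReal (Real.exp
      (‖((p.1 : ℂ) + (p.2 : ℂ) * Complex.I) / (Real.sqrt 2 : ℂ)‖ ^ 2 / 2))
      = ENNReal.ofReal (Real.exp (p.1 ^ 2 / 4)) * ENNReal.ofReal (Real.exp (p.2 ^ 2 / 4)) := by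
    intro p
    rw [← ENNReal.ofReal_mul (Real.exp_pos _).le, ← Real.exp_add]
    congr 2
    rw [Complex.sq_norm, Complex.normSq_div, Complex.normSq_add_mul_I, Complex.normSq_ofReal, hs]
    ring
  simp only [e]
  rw [lintegral_prod_mul (f := fun a : ℝ => ENNReal.ofReal (Real.exp (a ^ 2 / 4)))
    (g := fun a : ℝ => ENNReal.ofReal (Real.exp (a ^ 2 / 4)))
    (by fun_prop) (by fun_prop), lint_exp_sq, ← ENNReal.ofReal_mul (Real.sqrt_nonneg _), hs]
  norm_num

end Pool.Agent.H55.ML
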