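/-
T0 (Net).  A net for the operator norm.  Needs Opn.  About 80 lines.
PROOF.  E = EuclideanSpace ℂ (Fin n), real dimension 2n.  Take a maximal subset S of the closed ball of radius 2
whose points are at distance at least 1 from each other: it is finite with at most 5^(2n) = 25^n elements
(Besicovitch.card_le_of_separated), and every point of the ball is within 1 of S (maximality; existence of a
maximal set: the cardinalities are bounded).  Halve: the set S/2 is a 1/2-net of the unit ball.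
For a unit vector y take s in S/2 with |y - s| <= 1/2: |A y| <= |A s| + opn A /2, so opn A <= max |A s| + opn A/2,
opn A <= 2 max_s |A s|, opn A ^2 <= 4 max nv (A s).
-/
import Pool.Agent.H55.ML.Opn

namespace Pool.Agent.H55.ML
open Matrix

private theorem net_nv {n : ℕ} (v : Fin n → ℂ) : nv v = ‖(WithLp.toLp 2 v : EuclideanSpace ℂ (Fin n))‖ ^ 2 := by
  rw [EuclideanSpace.norm_sq_eq]
  rfl

private theorem net_opn {n : ℕ} (A : Matrix (Fin n) (Fin n) ℂ) (v : Fin n → ℂ) :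
    nv (A *ᵥ v) = ‖Matrix.toEuclideanCLM (n := Fin n) (𝕜 := ℂ) A (WithLp.toLp 2 v)‖ ^ 2 := by
  rw [net_nv]
  congr 2

private theorem net_finrank (n : ℕ) : Module.finrank ℝ (EuclideanSpace ℂ (Fin n)) = 2 * n := by
  have h := Module.finrank_mul_finrank ℝ ℂ (EuclideanSpace ℂ (Fin n))
  rw [← h]
  simp [Complex.finrank_real_complex]

/-- a maximal separated set in the ball of radius 2 -/
private theorem net_max (n : ℕ) : ∃ S : Finset (EuclideanSpace ℂ (Fin n)), S.card ≤ 25 ^ n ∧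
    (∀ c ∈ S, ‖c‖ ≤ 2) ∧ ∀ x : EuclideanSpace ℂ (Fin n), ‖x‖ ≤ 2 → ∃ c ∈ S, ‖c - x‖ < 1 := by
  classical
  let P : Finset (EuclideanSpace ℂ (Fin n)) → Prop := fun s =>
    (∀ c ∈ s, ‖c‖ ≤ 2) ∧ ∀ c ∈ s, ∀ d ∈ s, c ≠ d → 1 ≤ ‖c - d‖
  have hb : ∀ s, P s → s.card ≤ 25 ^ n := by
    intro s hs
    have h := Besicovitch.card_le_of_separated s hs.1 hs.2
    rw [net_finrank, pow_mul] at h
    norm_num at h
    exact h
  have h0 : P ∅ := ⟨by simp, by simp⟩
  obtain ⟨k, hk⟩ : ∃ k, k = sSup {m | ∃ s, P s ∧ s.card = m} := ⟨_, rfl⟩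
  have hne : {m | ∃ s, P s ∧ s.card = m}.Nonempty := ⟨0, ∅, h0, rfl⟩
  have hbd : BddAbove {m | ∃ s, P s ∧ s.card = m} := by
    refine ⟨25 ^ n, ?_⟩
    rintro m ⟨s, hs, rfl⟩
    exact hb s hs
  obtain ⟨S, hS, hScard⟩ := Nat.sSup_mem hne hbd
  refine ⟨S, hb S hS, hS.1, ?_⟩
  intro x hx
  by_contra hcon
  push Not at hcon
  have hxS : x ∉ S := by
    intro h
    have := hcon x h
    simp at this
    linarith
  have hP : P (insert x S) := by
    constructor
    · intro c hc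
      rcases Finset.mem_insert.1 hc with rfl | hc
      · exact hx
      · exact hS.1 c hc
    · intro c hc d hd hcd
      rcases Finset.mem_insert.1 hc with rfl | hc'
      · rcases Finset.mem_insert.1 hd with rfl | hd'
        · exact absurd rfl hcd
        · rw [norm_sub_rev]
          exact hcon d hd'
      · rcases Finset.mem_insert.1 hd with rfl | hd'
        · exact hcon c hc'
        · exact hS.2 c hc' d hd' hcd
  have h1 : (insert x S).card ≤ sSup {m | ∃ s, P s ∧ s.card = m} := le_csSup hbd ⟨_, hP, rfl⟩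
  rw [Finset.card_insert_of_notMem hxS] at h1
  omega

theorem exists_net (n : ℕ) : ∃ S : Finset (Fin n → ℂ), S.card ≤ 25 ^ n ∧
    (∀ s ∈ S, nv s ≤ 1) ∧ S.Nonempty ∧
    ∀ A : Matrix (Fin n) (Fin n) ℂ, ∃ s ∈ S, opn A ^ 2 ≤ 4 * nv (A *ᵥ s) := by
  classical
  obtain ⟨S, hc, h2, hx⟩ := net_max n
  have hne : S.Nonempty := by
    obtain ⟨c, hc, -⟩ := hx 0 (by simp)
    exact ⟨c, hc⟩
  refine ⟨S.image fun c => (2⁻¹ : ℂ) • (WithLp.ofLp c), Finset.card_image_le.trans hc, ?_,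
    hne.image _, ?_⟩
  · intro s hs
    obtain ⟨c, hcS, rfl⟩ := Finset.mem_image.1 hs
    rw [net_nv]
    have h3 : (WithLp.toLp 2 ((2⁻¹ : ℂ) • WithLp.ofLp c) : EuclideanSpace ℂ (Fin n)) =
      (2⁻¹ : ℂ) • c := rfl
    rw [h3, norm_smul]
    have h4 := h2 c hcS
    have h5 : ‖(2⁻¹ : ℂ)‖ = 2⁻¹ := by norm_num
    rw [h5]
    have h6 := norm_nonneg c
    nlinarith
  · intro A
    obtain ⟨m, hm, hmax⟩ := Finset.exists_max_image S
      (fun c => ‖Matrix.toEuclideanCLM (n := Fin n) (𝕜 := ℂ) A ((2⁻¹ : ℂ) • c)‖) hne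
    refine ⟨_, Finset.mem_image_of_mem _ hm, ?_⟩
    rw [net_opn]
    have h3 : (WithLp.toLp 2 ((2⁻¹ : ℂ) • WithLp.ofLp m) : EuclideanSpace ℂ (Fin n)) =
      (2⁻¹ : ℂ) • m := rfl
    rw [h3]
    set T := Matrix.toEuclideanCLM (n := Fin n) (𝕜 := ℂ) A with hT
    set B := ‖T ((2⁻¹ : ℂ) • m)‖ with hB
    have hB0 : 0 ≤ B := norm_nonneg _
    have key : opn A ≤ 2 * B := by
      have h4 : opn A ≤ B + opn A / 2 := by
        have hop : opn A = ‖T‖ := rfl
        have h0 : 0 ≤ opn A := by rw [hop]; exact norm_nonneg _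
        rw [hop]
        refine ContinuousLinearMap.opNorm_le_of_unit_norm (by rw [← hop]; positivity) ?_
        intro y hy
        obtain ⟨c, hcS, hcx⟩ := hx ((2 : ℂ) • y) (by rw [norm_smul, hy]; norm_num)
        have h6 : y - (2⁻¹ : ℂ) • c = (-(2⁻¹ : ℂ)) • (c - (2 : ℂ) • y) := by
          module
        have h7 : ‖y - (2⁻¹ : ℂ) • c‖ ≤ 2⁻¹ := by
          rw [h6, norm_smul]
          have h5 : ‖(-(2⁻¹ : ℂ))‖ = 2⁻¹ := by norm_num
          rw [h5]
          nlinarith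
        have h8 : T y = T ((2⁻¹ : ℂ) • c) + T (y - (2⁻¹ : ℂ) • c) := by
          rw [← map_add]
          congr 1
          abel
        rw [h8]
        refine (norm_add_le _ _).trans ?_
        have h9 := hmax c hcS
        have h10 := T.le_opNorm (y - (2⁻¹ : ℂ) • c)
        have h11 : ‖T‖ * ‖y - (2⁻¹ : ℂ) • c‖ ≤ ‖T‖ * 2⁻¹ :=
          mul_le_mul_of_nonneg_left h7 (norm_nonneg _)
        have h12 : ‖T ((2⁻¹ : ℂ) • c)‖ ≤ B := h9
        linarith
      linarith
    have h0 : 0 ≤ opn A := norm_nonneg _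
    nlinarith

end Pool.Agent.H55.ML
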