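/-
T1 (ExpMom).  Exponential moment of the operator norm.  Needs Net, G1e, OpD.  About 180 lines.
(1) For y with nv y <= 1: ∫⁻ exp( (1/2) sum_i |sum_j g_ij y_j|^2 ) d gin <= 2^n.
 Linearization (Hubbard-Stratonovich), λ = 1/2: for v : Fin n → ℂ, exp(|v_i|^2/2) =
 ∫ exp(2 Re (conj(v_i/√2) ζ)) d stdC(ζ) (stdC_exp).  So the product over i is an integral over
 ζ in Measure.pi (fun _ : Fin n => stdC) (lintegral of a product of functions of one variable each); Tonelli;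
 for fixed ζ the integral over g of exp(√2 Re sum_ij conj(y_j) conj(g_ij) ζ_i) is the product over (i,j) of
 exp(|ζ_i|^2 |y_j|^2 / 2) = exp( (sum |ζ_i|^2)(sum |y_j|^2)/2 ) <= prod_i exp(|ζ_i|^2/2), and the integral over ζ is
 2^n (stdC_exp_sq).
(2) n nv (XX g *ᵥ y) = sum_i |sum_j g_ij y_j|^2, and opn X ^2 <= 4 nv (X s) for some s in the net, so
 exp(n opn X^2/8) <= sum_{s in S} exp(n nv (X s)/2), integral <= 25^n 2^n = 50^n.
-/
import Pool.Agent.H55.ML.Net
import Pool.Agent.H55.ML.G1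
import Pool.Agent.H55.ML.G1e
import Pool.Agent.H55.ML.OpD

namespace Pool.Agent.H55.ML
open MeasureTheory ProbabilityTheory Matrix
open scoped ENNReal

/-- integral of a product of functions of one coordinate -/
lemma lint_pi {ι : Type*} [Fintype ι] (f : ι → ℂ → ℝ≥0∞) (hf : ∀ i, Measurable (f i)) :
    ∫⁻ z : ι → ℂ, ∏ i, f i (z i) ∂(Measure.pi (fun _ : ι => stdC)) = ∏ i, ∫⁻ z, f i z ∂stdC := by
  have hind : iIndepFun (fun i => fun z : ι → ℂ => f i (z i))
      (Measure.pi (fun _ : ι => stdC)) :=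
    iIndepFun_pi (X := fun i => f i) (fun i => (hf i).aemeasurable)
  have h1 := lintegral_prod_eq_prod_lintegral_of_indepFun Finset.univ
    (fun i => fun z : ι → ℂ => f i (z i)) hind (fun i => (hf i).comp (measurable_pi_apply i))
  refine h1.trans ?_
  refine Finset.prod_congr rfl (fun i _ => ?_)
  have h2 := (measurePreserving_eval (fun _ : ι => stdC) i).lintegral_comp (hf i)
  exact h2

lemma ofReal_exp_sum {ι : Type*} (s : Finset ι) (f : ι → ℝ) :
    ENNReal.ofReal (Real.exp (∑ i ∈ s, f i)) = ∏ i ∈ s, ENNReal.ofReal (Real.exp (f i)) := by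
  rw [Real.exp_sum, ENNReal.ofReal_prod_of_nonneg (fun i _ => (Real.exp_pos _).le)]

lemma meas_exp {α : Type*} [MeasurableSpace α] {f : α → ℝ} (hf : Measurable f) :
    Measurable (fun x => ENNReal.ofReal (Real.exp (f x))) :=
  (Real.measurable_exp.comp hf).ennreal_ofReal

lemma lin1 (v : ℂ) : ENNReal.ofReal (Real.exp (‖v‖ ^ 2 / 2)) =
    ∫⁻ z, ENNReal.ofReal (Real.exp (2 * ((starRingEnd ℂ) (v / (Real.sqrt 2 : ℂ)) * z).re)) ∂stdC := by
  rw [stdC_exp]
  congr 2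
  rw [norm_div, div_pow, Complex.norm_real, Real.norm_eq_abs, sq_abs, Real.sq_sqrt (by norm_num)]

theorem exp_row (n : ℕ) (y : Fin n → ℂ) (hy : nv y ≤ 1) :
    ∫⁻ g : Fin n × Fin n → ℂ, ENNReal.ofReal
      (Real.exp ((1 / 2) * nv (fun i => ∑ j, g (i, j) * y j))) ∂(gin n) ≤ 2 ^ n := by
  have hs2 : (Real.sqrt 2 : ℂ) ≠ 0 := by
    rw [Complex.ofReal_ne_zero]
    positivity
  -- the linearized integrand
  let H : (Fin n × Fin n → ℂ) → (Fin n → ℂ) → ℝ≥0∞ := fun g ζ =>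
    ∏ i, ENNReal.ofReal (Real.exp (2 * ((starRingEnd ℂ)
      ((∑ j, g (i, j) * y j) / (Real.sqrt 2 : ℂ)) * ζ i).re))
  have h1 : ∀ g : Fin n × Fin n → ℂ, ENNReal.ofReal
      (Real.exp ((1 / 2) * nv (fun i => ∑ j, g (i, j) * y j))) =
      ∫⁻ ζ, H g ζ ∂(Measure.pi (fun _ : Fin n => stdC)) := by
    intro g
    have e1 : (1 / 2) * nv (fun i => ∑ j, g (i, j) * y j) =
        ∑ i, ‖∑ j, g (i, j) * y j‖ ^ 2 / 2 := by
      unfold nv
      rw [Finset.mul_sum]
      refine Finset.sum_congr rfl (fun i _ => ?_)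
      ring
    rw [e1, ofReal_exp_sum]
    simp only [H]
    rw [lint_pi (fun i z => ENNReal.ofReal (Real.exp (2 * ((starRingEnd ℂ)
      ((∑ j, g (i, j) * y j) / (Real.sqrt 2 : ℂ)) * z).re)))
      (fun i => meas_exp (by fun_prop))]
    exact Finset.prod_congr rfl (fun i _ => lin1 _)
  have hmeas : Measurable (Function.uncurry H) := by
    simp only [H, Function.uncurry_def]
    refine Finset.measurable_prod _ (fun i _ => meas_exp ?_)
    fun_prop
  have h2 : ∀ ζ : Fin n → ℂ, ∫⁻ g, H g ζ ∂(gin n) ≤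
      ∏ i, ENNReal.ofReal (Real.exp (‖ζ i‖ ^ 2 / 2)) := by
    intro ζ
    have e2 : ∀ g : Fin n × Fin n → ℂ, H g ζ = ∏ p : Fin n × Fin n,
        ENNReal.ofReal (Real.exp (2 * ((starRingEnd ℂ)
          ((starRingEnd ℂ) (y p.2) * ζ p.1 / (Real.sqrt 2 : ℂ)) * g p).re)) := by
      intro g
      simp only [H]
      rw [← ofReal_exp_sum, ← ofReal_exp_sum]
      congr 2
      rw [Fintype.sum_prod_type]
      refine Finset.sum_congr rfl (fun i _ => ?_)
      rw [← Finset.mul_sum, ← Complex.re_sum]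
      congr 1
      rw [← Complex.conj_re]
      congr 1
      rw [map_mul, Complex.conj_conj, Finset.sum_div, Finset.sum_mul]
      refine Finset.sum_congr rfl (fun j _ => ?_)
      simp only [map_div₀, map_mul, Complex.conj_conj, Complex.conj_ofReal]
      ring
    have e3 : ∫⁻ g, H g ζ ∂(gin n) = ∏ p : Fin n × Fin n, ENNReal.ofReal (Real.exp
        (‖y p.2‖ ^ 2 * ‖ζ p.1‖ ^ 2 / 2)) := by
      rw [lintegral_congr e2]
      unfold gin
      rw [lint_pi (fun (p : Fin n × Fin n) z => ENNReal.ofReal (Real.exp (2 * ((starRingEnd ℂ)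
          ((starRingEnd ℂ) (y p.2) * ζ p.1 / (Real.sqrt 2 : ℂ)) * z).re)))
          (fun p => meas_exp (by fun_prop))]
      refine Finset.prod_congr rfl (fun p _ => ?_)
      rw [stdC_exp]
      congr 2
      rw [norm_div, div_pow, Complex.norm_real, Real.norm_eq_abs, sq_abs,
        Real.sq_sqrt (by norm_num), norm_mul, Complex.norm_conj, mul_pow]
    rw [e3, ← ofReal_exp_sum, ← ofReal_exp_sum]
    apply ENNReal.ofReal_le_ofReal
    apply Real.exp_le_exp.mpr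
    rw [Fintype.sum_prod_type]
    refine Finset.sum_le_sum (fun i _ => ?_)
    have e4 : ∑ j, ‖y j‖ ^ 2 * ‖ζ i‖ ^ 2 / 2 = nv y * (‖ζ i‖ ^ 2 / 2) := by
      unfold nv
      rw [Finset.sum_mul]
      refine Finset.sum_congr rfl (fun j _ => ?_)
      ring
    simp only
    rw [e4]
    have : 0 ≤ ‖ζ i‖ ^ 2 / 2 := by positivity
    nlinarith
  calc _ = ∫⁻ g, ∫⁻ ζ, H g ζ ∂(Measure.pi (fun _ : Fin n => stdC)) ∂(gin n) :=
        lintegral_congr h1
    _ = ∫⁻ ζ, ∫⁻ g, H g ζ ∂(gin n) ∂(Measure.pi (fun _ : Fin n => stdC)) := by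
        unfold gin
        exact lintegral_lintegral_swap hmeas.aemeasurable
    _ ≤ ∫⁻ ζ : Fin n → ℂ, (∏ i, ENNReal.ofReal (Real.exp (‖ζ i‖ ^ 2 / 2)))
          ∂(Measure.pi (fun _ : Fin n => stdC)) := lintegral_mono h2
    _ = ∏ _i : Fin n, ∫⁻ z, ENNReal.ofReal (Real.exp (‖z‖ ^ 2 / 2)) ∂stdC :=
        lint_pi (fun _ z => ENNReal.ofReal (Real.exp (‖z‖ ^ 2 / 2)))
          (fun _ => meas_exp (by fun_prop))
    _ = 2 ^ n := by
        rw [stdC_exp_sq, Finset.prod_const, Finset.card_univ, Fintype.card_fin]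

theorem exp_mom (n : ℕ) (hn : 1 ≤ n) :
    ∫⁻ g : Fin n × Fin n → ℂ, ENNReal.ofReal (Real.exp (n * opn (XX g) ^ 2 / 8)) ∂(gin n)
      ≤ 50 ^ n := by
  obtain ⟨S, hS1, hS2, _, hS3⟩ := exists_net n
  have hn0 : (0 : ℝ) < n := by exact_mod_cast hn
  have h1 : ∀ g : Fin n × Fin n → ℂ, ENNReal.ofReal (Real.exp (n * opn (XX g) ^ 2 / 8)) ≤
      ∑ s ∈ S, ENNReal.ofReal (Real.exp ((1 / 2) * nv (fun i => ∑ j, g (i, j) * s j))) := by
    intro g
    obtain ⟨s, hs, hle⟩ := hS3 (XX g)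
    refine le_trans ?_ (Finset.single_le_sum (f := fun s : Fin n → ℂ =>
      ENNReal.ofReal (Real.exp ((1 / 2) * nv (fun i => ∑ j, g (i, j) * s j))))
      (fun _ _ => zero_le) hs)
    apply ENNReal.ofReal_le_ofReal
    apply Real.exp_le_exp.mpr
    have e1 : (n : ℝ) * nv (XX g *ᵥ s) = nv (fun i => ∑ j, g (i, j) * s j) := by
      unfold nv XX
      rw [Finset.mul_sum]
      refine Finset.sum_congr rfl (fun i _ => ?_)
      rw [Matrix.smul_mulVec, Pi.smul_apply, smul_eq_mul, norm_mul, mul_pow, norm_inv,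
        Complex.norm_real, Real.norm_eq_abs, inv_pow, sq_abs, Real.sq_sqrt hn0.le, ← mul_assoc,
        mul_inv_cancel₀ hn0.ne', one_mul]
      rfl
    have h2 : (n : ℝ) * opn (XX g) ^ 2 ≤ 4 * (n * nv (XX g *ᵥ s)) := by
      have := mul_le_mul_of_nonneg_left hle hn0.le
      linarith
    rw [e1] at h2
    linarith
  calc ∫⁻ g : Fin n × Fin n → ℂ, ENNReal.ofReal (Real.exp (n * opn (XX g) ^ 2 / 8)) ∂(gin n)
      ≤ ∫⁻ g : Fin n × Fin n → ℂ, ∑ s ∈ S, ENNReal.ofReal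
        (Real.exp ((1 / 2) * nv (fun i => ∑ j, g (i, j) * s j))) ∂(gin n) := lintegral_mono h1
    _ = ∑ s ∈ S, ∫⁻ g : Fin n × Fin n → ℂ, ENNReal.ofReal
        (Real.exp ((1 / 2) * nv (fun i => ∑ j, g (i, j) * s j))) ∂(gin n) := by
        refine lintegral_finsetSum _ (fun s _ => meas_exp ?_)
        unfold nv
        fun_prop
    _ ≤ ∑ _s ∈ S, 2 ^ n := Finset.sum_le_sum (fun s hs => exp_row n s (hS2 s hs))
    _ = (S.card : ℝ≥0∞) * 2 ^ n := by rw [Finset.sum_const, nsmul_eq_mul]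
    _ ≤ 25 ^ n * 2 ^ n := by
        gcongr
        exact_mod_cast hS1
    _ = 50 ^ n := by
        rw [← mul_pow]
        norm_num

end Pool.Agent.H55.ML
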