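/-
T2 (Tail).  The bad event has exponentially small contributions; second moments.  Needs ExpMom, OpD.  About 150 lines.
tail: on the complement of Gd, s = opn X^2 > 150 and (32 (1+s))^Q <= (32 (1+s))^n <= exp(n s/16), because
log(32 (1 + s)) <= s/16 for s >= 150 (log(32*151) = 8.483 <= 9.375 and the derivative of the difference is positive;
or: exp(s/16) >= exp(150/16) (1 + (s-150)/16) ... ).  exp(n s/16) <= exp(n s/8) exp(-150 n/16) there, so the integral is
<= 50^n exp(-9.375 n) <= exp(-n)  (50 <= exp(3.92)...: 50 <= exp 4 < exp 8.375).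
prob_bad: tail with Q = 0.   mom2: opn^2 <= 150 on Gd, and opn^2 <= 32 (1 + opn^2) on the complement: tail with
Q = 1, so C = 151 works (gin n is a probability measure).
integrableOn statements: from the finiteness of exp_mom or PG.
-/
import Pool.Agent.H55.ML.ExpMom
import Pool.Agent.H55.ML.PGr

namespace Pool.Agent.H55.ML
open MeasureTheory ProbabilityTheory Matrix
open scoped ENNReal

theorem PG_opn (n : ℕ) : PG (fun g : Fin n × Fin n → ℂ => opn (XX g)) := by
  refine ⟨continuous_opn.comp continuous_XX, n * ‖((Real.sqrt n : ℂ))⁻¹‖, 1, fun g => ?_⟩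
  rw [pow_one, Real.norm_eq_abs, abs_of_nonneg (opn_nonneg _)]
  set a : ℝ := ‖((Real.sqrt n : ℂ))⁻¹‖ with ha
  have ha0 : 0 ≤ a := norm_nonneg _
  have h1 : hs2 (XX g) ≤ (n * a * ‖g‖) ^ 2 := by
    unfold hs2
    have h2 : ∀ i j, ‖XX g i j‖ ^ 2 ≤ (a * ‖g‖) ^ 2 := by
      intro i j
      have h3 : ‖XX g i j‖ ≤ a * ‖g‖ := by
        unfold XX
        rw [Matrix.smul_apply, Matrix.of_apply, smul_eq_mul, norm_mul]
        exact mul_le_mul_of_nonneg_left (norm_le_pi_norm g (i, j)) ha0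
      exact pow_le_pow_left₀ (norm_nonneg _) h3 2
    calc ∑ i, ∑ j, ‖XX g i j‖ ^ 2 ≤ ∑ _i : Fin n, ∑ _j : Fin n, (a * ‖g‖) ^ 2 :=
          Finset.sum_le_sum fun i _ => Finset.sum_le_sum fun j _ => h2 i j
      _ = (n * a * ‖g‖) ^ 2 := by
          simp
          ring
  have h4 : opn (XX g) ^ 2 ≤ (n * a * ‖g‖) ^ 2 := (opn_sq_le_hs2 _).trans h1
  have h5 : 0 ≤ n * a * ‖g‖ := by positivity
  have h6 : opn (XX g) ≤ n * a * ‖g‖ := (pow_le_pow_iff_left₀ (opn_nonneg _) h5 two_ne_zero).1 h4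
  have h7 : 0 ≤ n * a := by positivity
  nlinarith

private theorem Tail_exp {s : ℝ} (hs : 150 ≤ s) : 32 * (1 + s) ≤ Real.exp (s / 16) := by
  have h1 : (8000 : ℝ) ≤ Real.exp 9 := by
    have h2 : Real.exp 9 = Real.exp 1 ^ 9 := by
      rw [← Real.exp_nat_mul]
      norm_num
    rw [h2]
    have h3 : (2.718 : ℝ) ≤ Real.exp 1 := by linarith [Real.exp_one_gt_d9]
    calc (8000 : ℝ) ≤ 2.718 ^ 9 := by norm_num
      _ ≤ Real.exp 1 ^ 9 := pow_le_pow_left₀ (by norm_num) h3 9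
  have h4 : Real.exp (s / 16) = Real.exp 9 * Real.exp (s / 16 - 9) := by
    rw [← Real.exp_add]
    congr 1
    ring
  have h5 := Real.add_one_le_exp (s / 16 - 9)
  rw [h4]
  have h6 : 8000 * (s / 16 - 9 + 1) ≤ Real.exp 9 * Real.exp (s / 16 - 9) :=
    mul_le_mul h1 h5 (by linarith) (by positivity)
  linarith

private theorem Tail_meas (n : ℕ) :
    Continuous (fun g : Fin n × Fin n → ℂ => Real.exp (n * opn (XX g) ^ 2 / 8)) :=
  Real.continuous_exp.comp
    ((continuous_const.mul ((continuous_opn.comp continuous_XX).pow 2)).div_const 8)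

private theorem Tail_int (n : ℕ) (hn : 1 ≤ n) :
    Integrable (fun g : Fin n × Fin n → ℂ => Real.exp (n * opn (XX g) ^ 2 / 8)) (gin n) := by
  refine ⟨(Tail_meas n).measurable.aestronglyMeasurable, ?_⟩
  rw [hasFiniteIntegral_iff_ofReal (Filter.Eventually.of_forall fun g => (Real.exp_pos _).le)]
  exact (exp_mom n hn).trans_lt (ENNReal.pow_lt_top (by simp))

private theorem Tail_val (n : ℕ) (hn : 1 ≤ n) :
    ∫ g : Fin n × Fin n → ℂ, Real.exp (n * opn (XX g) ^ 2 / 8) ∂(gin n) ≤ 50 ^ n := by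
  rw [integral_eq_lintegral_of_nonneg_ae (Filter.Eventually.of_forall fun g => (Real.exp_pos _).le)
    (Tail_meas n).measurable.aestronglyMeasurable]
  have h := ENNReal.toReal_mono (by finiteness) (exp_mom n hn)
  simpa using h

theorem tail (n : ℕ) (hn : 1 ≤ n) (Q : ℕ) (hQ : Q ≤ n) :
    ∫ g in (Gd n)ᶜ, (32 * (1 + opn (XX g) ^ 2)) ^ Q ∂(gin n) ≤ Real.exp (-n) := by
  have hn0 : (0 : ℝ) ≤ n := Nat.cast_nonneg n
  have hpt : ∀ g ∈ (Gd n)ᶜ, (32 * (1 + opn (XX g) ^ 2)) ^ Q ≤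
      Real.exp (-(150 / 16) * n) * Real.exp (n * opn (XX g) ^ 2 / 8) := by
    intro g hg
    simp only [Gd, KK, Set.mem_compl_iff, Set.mem_setOf_eq, not_le] at hg
    set s : ℝ := opn (XX g) ^ 2 with hs
    have hs150 : 150 ≤ s := by linarith
    calc (32 * (1 + s)) ^ Q ≤ (32 * (1 + s)) ^ n := pow_le_pow_right₀ (by linarith) hQ
      _ ≤ Real.exp (s / 16) ^ n := pow_le_pow_left₀ (by linarith) (Tail_exp hs150) n
      _ = Real.exp (n * (s / 16)) := (Real.exp_nat_mul _ _).symm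
      _ ≤ Real.exp (-(150 / 16) * n + n * s / 8) := by
          apply Real.exp_le_exp.2
          nlinarith
      _ = _ := by rw [Real.exp_add]
  have hint := (Tail_int n hn).const_mul (Real.exp (-(150 / 16) * n))
  have h1 : ∫ g in (Gd n)ᶜ, (32 * (1 + opn (XX g) ^ 2)) ^ Q ∂(gin n) ≤
      ∫ g in (Gd n)ᶜ, Real.exp (-(150 / 16) * n) * Real.exp (n * opn (XX g) ^ 2 / 8) ∂(gin n) := by
    refine setIntegral_mono_on ?_ hint.integrableOn (measurableSet_Gd n).compl hpt
    have hPG : PG (fun g : Fin n × Fin n → ℂ => (32 * (1 + opn (XX g) ^ 2)) ^ Q) :=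
      ((PG.const (32 : ℝ)).mulR ((PG.const (1 : ℝ)).add ((PG_opn n).powR 2))).powR Q
    exact hPG.integrableR.integrableOn
  have h2 : ∫ g in (Gd n)ᶜ, Real.exp (-(150 / 16) * n) * Real.exp (n * opn (XX g) ^ 2 / 8) ∂(gin n)
      ≤ ∫ g, Real.exp (-(150 / 16) * n) * Real.exp (n * opn (XX g) ^ 2 / 8) ∂(gin n) :=
    setIntegral_le_integral hint (Filter.Eventually.of_forall fun g => by positivity)
  refine h1.trans (h2.trans ?_)
  rw [integral_const_mul]
  have h3 := Tail_val n hn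
  have h4 : (50 : ℝ) ^ n ≤ Real.exp 4 ^ n := by
    refine pow_le_pow_left₀ (by norm_num) ?_ n
    have h2 : Real.exp 4 = Real.exp 1 ^ 4 := by
      rw [← Real.exp_nat_mul]
      norm_num
    rw [h2]
    have h3 : (2.718 : ℝ) ≤ Real.exp 1 := by linarith [Real.exp_one_gt_d9]
    calc (50 : ℝ) ≤ 2.718 ^ 4 := by norm_num
      _ ≤ Real.exp 1 ^ 4 := pow_le_pow_left₀ (by norm_num) h3 4
  calc Real.exp (-(150 / 16) * n) * ∫ g, Real.exp (n * opn (XX g) ^ 2 / 8) ∂(gin n)
      ≤ Real.exp (-(150 / 16) * n) * Real.exp 4 ^ n :=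
        mul_le_mul_of_nonneg_left (h3.trans h4) (Real.exp_pos _).le
    _ = Real.exp (-(150 / 16) * n + n * 4) := by
        rw [← Real.exp_nat_mul, ← Real.exp_add]
    _ ≤ Real.exp (-n) := by
        apply Real.exp_le_exp.2
        nlinarith

private theorem Tail_prob (n : ℕ) : IsProbabilityMeasure (gin n) := by
  unfold gin
  infer_instance

theorem prob_bad (n : ℕ) (hn : 1 ≤ n) :
    gin n (Gd n)ᶜ ≤ ENNReal.ofReal (Real.exp (-n)) := by
  haveI := Tail_prob n
  have h := tail n hn 0 (Nat.zero_le n)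
  simp only [pow_zero] at h
  rw [setIntegral_const, smul_eq_mul, mul_one] at h
  rw [← ofReal_measureReal]
  exact ENNReal.ofReal_le_ofReal h

theorem mom2 : ∃ C : ℝ, ∀ n : ℕ, 1 ≤ n →
    ∫ g : Fin n × Fin n → ℂ, opn (XX g) ^ 2 ∂(gin n) ≤ C := by
  refine ⟨151, fun n hn => ?_⟩
  haveI := Tail_prob n
  have hint : Integrable (fun g : Fin n × Fin n → ℂ => opn (XX g) ^ 2) (gin n) :=
    ((PG_opn n).powR 2).integrableR
  rw [← integral_add_compl (measurableSet_Gd n) hint]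
  have h1 : ∫ g in Gd n, opn (XX g) ^ 2 ∂(gin n) ≤ 150 := by
    have h2 : ∫ g in Gd n, opn (XX g) ^ 2 ∂(gin n) ≤ ∫ _g in Gd n, (150 : ℝ) ∂(gin n) := by
      refine setIntegral_mono_on hint.integrableOn (integrable_const _).integrableOn
        (measurableSet_Gd n) fun g hg => ?_
      simp only [Gd, KK, Set.mem_setOf_eq] at hg
      linarith
    refine h2.trans ?_
    rw [setIntegral_const, smul_eq_mul]
    have h3 : (gin n).real (Gd n) ≤ 1 := measureReal_le_one
    linarith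
  have h4 : ∫ g in (Gd n)ᶜ, opn (XX g) ^ 2 ∂(gin n) ≤ 1 := by
    have h5 : ∫ g in (Gd n)ᶜ, opn (XX g) ^ 2 ∂(gin n) ≤
        ∫ g in (Gd n)ᶜ, (32 * (1 + opn (XX g) ^ 2)) ^ 1 ∂(gin n) := by
      have hPG : PG (fun g : Fin n × Fin n → ℂ => (32 * (1 + opn (XX g) ^ 2)) ^ 1) :=
        ((PG.const (32 : ℝ)).mulR ((PG.const (1 : ℝ)).add ((PG_opn n).powR 2))).powR 1
      refine setIntegral_mono_on hint.integrableOn hPG.integrableR.integrableOn
        (measurableSet_Gd n).compl fun g _ => ?_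
      have := sq_nonneg (opn (XX g))
      rw [pow_one]
      linarith
    refine h5.trans ((tail n hn 1 hn).trans ?_)
    rw [← Real.exp_zero]
    apply Real.exp_le_exp.2
    have : (0 : ℝ) ≤ n := Nat.cast_nonneg n
    linarith
  linarith

end Pool.Agent.H55.ML
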