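/-
B1 (ChebTr).  E Tr Tk(D_n) = n² nuC (Tk k) + O(k^9).  Needs Master, Mesh, ChebG, Tail, Herm, OpD, KV.  About 150 lines.
PROOF.  On Gd: PSB (DD X) KK (DD_isHermitian, DD_form_nonneg, opn_DD_le), |Tr Tk(D)| <= n² (norm_trace_le,
opn_aeval_le with M = 1, card = n²).  In general PSB (DD X) (8 opn X^2), opn (Tk(D)) <= (4 (1 + 8 s))^k <=
(32 (1+s))^k (Tk_growth), s = opn X^2.  So for n >= k, n >= 1: |E Tr Tk(D_n)| <= n² + n² exp(-n) <= 2 n² (tail).
Master: p with natDegree <= 2k, |p(1/n²)| <= 2 for n >= 2k (n >= 1); Mesh with m = 2k, A = 2: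
|p(1/n²) - p(0)| <= 2048 · 2 · (2k)^9 / n² for n >= 2048 (2k)^3; times n².
-/
import Pool.Agent.H55.ML.Master
import Pool.Agent.H55.ML.Mesh
import Pool.Agent.H55.ML.ChebG
import Pool.Agent.H55.ML.Tail
import Pool.Agent.H55.ML.Herm
import Pool.Agent.H55.ML.KV

namespace Pool.Agent.H55.ML
open MeasureTheory ProbabilityTheory Polynomial Matrix

private lemma KK_pos : (0 : ℝ) < KK := by unfold KK; norm_num

theorem psb_DD {n : ℕ} (X : Mat n) : PSB (DD X) (8 * opn X ^ 2) :=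
  ⟨DD_isHermitian X, DD_form_nonneg X, opn_DD_le X⟩

theorem psb_DD_Gd {n : ℕ} (g : Fin n × Fin n → ℂ) (hg : g ∈ Gd n) : PSB (DD (XX g)) KK :=
  ⟨DD_isHermitian _, DD_form_nonneg _, (opn_DD_le _).trans hg⟩

/-- all entries are continuous of polynomial growth -/
private def PM {n : ℕ} (F : (Fin n × Fin n → ℂ) → Op n) : Prop :=
  ∀ p q, PG (fun g => F g p q)

private lemma PM.add {n : ℕ} {F G : (Fin n × Fin n → ℂ) → Op n} (hF : PM F) (hG : PM G) :
    PM (fun g => F g + G g) := by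
  intro p q
  simpa only [Matrix.add_apply] using (hF p q).add (hG p q)

private lemma PM.sub {n : ℕ} {F G : (Fin n × Fin n → ℂ) → Op n} (hF : PM F) (hG : PM G) :
    PM (fun g => F g - G g) := by
  intro p q
  simpa only [Matrix.sub_apply] using (hF p q).sub (hG p q)

private lemma PM.mul {n : ℕ} {F G : (Fin n × Fin n → ℂ) → Op n} (hF : PM F) (hG : PM G) :
    PM (fun g => F g * G g) := by
  intro p q
  simp only [Matrix.mul_apply]
  exact PG.sum _ (fun r _ => (hF p r).mul (hG r q))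

private lemma PM.pow {n : ℕ} {F : (Fin n × Fin n → ℂ) → Op n} (hF : PM F) (k : ℕ) :
    PM (fun g => F g ^ k) := by
  induction k with
  | zero =>
    intro p q
    simp only [pow_zero]
    exact PG.const _
  | succ k ih =>
    simp only [pow_succ]
    exact ih.mul hF

private lemma PG_XX {n : ℕ} (i j : Fin n) : PG (fun g : Fin n × Fin n → ℂ => XX g i j) := by
  have h : (fun g : Fin n × Fin n → ℂ => XX g i j)
      = fun g => ((Real.sqrt n : ℂ))⁻¹ * g (i, j) := by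
    funext g
    simp only [XX, Matrix.smul_apply, Matrix.of_apply, smul_eq_mul]
  rw [h]
  exact (PG.const _).mul (PG.coord (i, j))

private lemma PG_XXH {n : ℕ} (i j : Fin n) :
    PG (fun g : Fin n × Fin n → ℂ => (XX g)ᴴ i j) := by
  have h : (fun g : Fin n × Fin n → ℂ => (XX g)ᴴ i j)
      = fun g => (starRingEnd ℂ) (XX g j i) := by
    funext g
    simp only [Matrix.conjTranspose_apply]
    rfl
  rw [h]
  exact (PG_XX j i).conj

private lemma PM_Lf {n : ℕ} {F : (Fin n × Fin n → ℂ) → Mat n}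
    (hF : ∀ i j, PG (fun g => F g i j)) : PM (fun g => Lf (F g)) := by
  intro p q
  simp only [Lf, Matrix.kroneckerMap_apply]
  exact (hF _ _).mul (PG.const _)

private lemma PM_Rt {n : ℕ} {F : (Fin n × Fin n → ℂ) → Mat n}
    (hF : ∀ i j, PG (fun g => F g i j)) : PM (fun g => Rt (F g)) := by
  intro p q
  simp only [Rt, Matrix.kroneckerMap_apply, Matrix.transpose_apply]
  exact (PG.const _).mul (hF _ _)

private lemma PM_DD (n : ℕ) : PM (fun g : Fin n × Fin n → ℂ => DD (XX g)) := by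
  have a := PM_Lf (n := n) (fun i j => PG_XX i j)
  have b := PM_Lf (n := n) (fun i j => PG_XXH i j)
  have c := PM_Rt (n := n) (fun i j => PG_XX i j)
  have d := PM_Rt (n := n) (fun i j => PG_XXH i j)
  unfold DD DDg
  exact ((b.sub d).mul (a.sub c)).add ((a.sub c).mul (b.sub d))

theorem PG_aeval (n : ℕ) (h : ℝ[X]) (p q : Fin n × Fin n) :
    PG (fun g : Fin n × Fin n → ℂ => (aeval (DD (XX g)) h) p q) := by
  have e : (fun g : Fin n × Fin n → ℂ => (aeval (DD (XX g)) h) p q)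
      = fun g => ∑ i ∈ Finset.range (h.natDegree + 1),
          ((h.coeff i : ℝ) : ℂ) * (DD (XX g) ^ i) p q := by
    funext g
    rw [Polynomial.aeval_eq_sum_range, Matrix.sum_apply]
    refine Finset.sum_congr rfl (fun i _ => ?_)
    rw [Matrix.smul_apply, Complex.real_smul]
  rw [e]
  exact PG.sum _ (fun i _ => (PG.const _).mul ((PM_DD n).pow i p q))

theorem opn_growth (n : ℕ) (h : ℝ[X]) (C : ℝ) (m : ℕ) (hC : 0 ≤ C)
    (hg : ∀ x : ℝ, 0 ≤ x → |h.eval x| ≤ C * (4 * (1 + x)) ^ m) (g : Fin n × Fin n → ℂ) :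
    opn (aeval (DD (XX g)) h) ≤ C * (32 * (1 + opn (XX g) ^ 2)) ^ m := by
  refine opn_aeval_le (psb_DD (XX g)) h _ (by positivity) ?_
  intro x hx
  refine (hg x hx.1).trans ?_
  refine mul_le_mul_of_nonneg_left ?_ hC
  have h0 := hx.1
  refine pow_le_pow_left₀ (by positivity) ?_ m
  have := hx.2
  linarith

/-- pointwise growth of the trace of a polynomial -/
theorem trace_growth (n : ℕ) (h : ℝ[X]) (C : ℝ) (m : ℕ) (hC : 0 ≤ C)
    (hg : ∀ x : ℝ, 0 ≤ x → |h.eval x| ≤ C * (4 * (1 + x)) ^ m) (g : Fin n × Fin n → ℂ) :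
    ‖(aeval (DD (XX g)) h).trace‖ ≤ n ^ 2 * (C * (32 * (1 + opn (XX g) ^ 2)) ^ m) := by
  refine (norm_trace_le _).trans ?_
  have hcard : (Fintype.card (Fin n × Fin n) : ℝ) = (n : ℝ) ^ 2 := by
    rw [Fintype.card_prod, Fintype.card_fin]
    push_cast
    ring
  rw [hcard]
  exact mul_le_mul_of_nonneg_left (opn_growth n h C m hC hg g) (by positivity)

private lemma PG_trace (n : ℕ) (h : ℝ[X]) :
    PG (fun g : Fin n × Fin n → ℂ => (aeval (DD (XX g)) h).trace) := by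
  simp only [Matrix.trace, Matrix.diag_apply]
  exact PG.sum _ (fun p _ => PG_aeval n h p p)

/-- the expected trace of `T_k` is at most `2 n²` -/
private lemma trace_bound (k n : ℕ) (hn : 1 ≤ n) (hk : k ≤ n) :
    ‖∫ g, (aeval (DD (XX g)) (Tk k)).trace ∂(gin n)‖ ≤ 2 * (n : ℝ) ^ 2 := by
  have : IsProbabilityMeasure (gin n) := by unfold gin; infer_instance
  have hPG := PG_trace n (Tk k)
  have hint : Integrable (fun g : Fin n × Fin n → ℂ => ‖(aeval (DD (XX g)) (Tk k)).trace‖)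
      (gin n) := hPG.integrable.norm
  have hn2 : (0 : ℝ) ≤ (n : ℝ) ^ 2 := by positivity
  have hcard : (Fintype.card (Fin n × Fin n) : ℝ) = (n : ℝ) ^ 2 := by
    rw [Fintype.card_prod, Fintype.card_fin]
    push_cast
    ring
  have hms := measurableSet_Gd n
  refine (norm_integral_le_integral_norm _).trans ?_
  rw [← integral_add_compl hms hint]
  have h1 : ∫ g in Gd n, ‖(aeval (DD (XX g)) (Tk k)).trace‖ ∂(gin n) ≤ (n : ℝ) ^ 2 := by
    have hle : ∀ g ∈ Gd n, ‖(aeval (DD (XX g)) (Tk k)).trace‖ ≤ (n : ℝ) ^ 2 := by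
      intro g hg
      refine (norm_trace_le _).trans ?_
      rw [hcard]
      have := opn_aeval_le (psb_DD_Gd g hg) (Tk k) 1 zero_le_one
        (fun x hx => Tk_le_one k x hx)
      nlinarith
    calc ∫ g in Gd n, ‖(aeval (DD (XX g)) (Tk k)).trace‖ ∂(gin n)
        ≤ ∫ _ in Gd n, (n : ℝ) ^ 2 ∂(gin n) :=
          setIntegral_mono_on hint.integrableOn
            (integrable_const _).integrableOn hms hle
      _ = (gin n).real (Gd n) * (n : ℝ) ^ 2 := by
          rw [setIntegral_const, smul_eq_mul]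
      _ ≤ 1 * (n : ℝ) ^ 2 := by
          refine mul_le_mul_of_nonneg_right ?_ hn2
          exact measureReal_le_one
      _ = (n : ℝ) ^ 2 := one_mul _
  have hPG2 : PG (fun g : Fin n × Fin n → ℂ => (32 * (1 + opn (XX g) ^ 2)) ^ k) :=
    ((PG.const (32 : ℝ)).mulR ((PG.const (1 : ℝ)).add ((PG_opn n).powR 2))).powR k
  have h2 : ∫ g in (Gd n)ᶜ, ‖(aeval (DD (XX g)) (Tk k)).trace‖ ∂(gin n) ≤ (n : ℝ) ^ 2 := by
    have hle : ∀ g : Fin n × Fin n → ℂ, ‖(aeval (DD (XX g)) (Tk k)).trace‖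
        ≤ (n : ℝ) ^ 2 * (32 * (1 + opn (XX g) ^ 2)) ^ k := by
      intro g
      have := trace_growth n (Tk k) 1 k zero_le_one
        (fun x hx => by rw [one_mul]; exact Tk_growth k x hx) g
      rwa [one_mul] at this
    calc ∫ g in (Gd n)ᶜ, ‖(aeval (DD (XX g)) (Tk k)).trace‖ ∂(gin n)
        ≤ ∫ g in (Gd n)ᶜ, (n : ℝ) ^ 2 * (32 * (1 + opn (XX g) ^ 2)) ^ k ∂(gin n) :=
          setIntegral_mono_on hint.integrableOn
            (hPG2.integrableR.const_mul _).integrableOn hms.compl (fun g _ => hle g)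
      _ = (n : ℝ) ^ 2 * ∫ g in (Gd n)ᶜ, (32 * (1 + opn (XX g) ^ 2)) ^ k ∂(gin n) := by
          rw [integral_const_mul]
      _ ≤ (n : ℝ) ^ 2 * 1 := by
          refine mul_le_mul_of_nonneg_left ?_ hn2
          refine (tail n hn k hk).trans ?_
          rw [Real.exp_le_one_iff]
          simp
      _ = (n : ℝ) ^ 2 := mul_one _
  linarith

theorem cheb_trace (k : ℕ) (hk : 1 ≤ k) (n : ℕ) (hn : 2048 * (2 * k) ^ 3 ≤ n) :
    |(∫ g, (aeval (DD (XX g)) (Tk k)).trace ∂(gin n)).re - (n : ℝ) ^ 2 * nuC (Tk k)|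
      ≤ 4096 * (2 * (k : ℝ)) ^ 9 := by
  obtain ⟨p, hp1, hp2, hp3⟩ := master (Tk k)
  have hdeg : p.natDegree ≤ 2 * k := hp1.trans (Nat.mul_le_mul_left 2 (Tk_natDegree k))
  have hA : ∀ N : ℕ, 2 * k ≤ N → |p.eval (1 / (N : ℝ) ^ 2)| ≤ 2 := by
    intro N hN
    have hN1 : 1 ≤ N := by omega
    have hN0 : (0 : ℝ) < (N : ℝ) ^ 2 := by
      have : (0 : ℝ) < N := by exact_mod_cast hN1
      positivity
    have h := trace_bound k N hN1 (by omega)
    rw [hp3 N hN1, Complex.norm_real, Real.norm_eq_abs, abs_mul, abs_of_pos hN0] at h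
    nlinarith
  have hn1 : 1 ≤ n := by
    have : 1 ≤ 2048 * (2 * k) ^ 3 := by
      have : 0 < 2048 * (2 * k) ^ 3 := by positivity
      omega
    omega
  have hn0 : (0 : ℝ) < (n : ℝ) ^ 2 := by
    have : (0 : ℝ) < n := by exact_mod_cast hn1
    positivity
  have hm := mesh (2 * k) (by omega) p hdeg 2 hA n hn
  rw [hp3 n hn1, Complex.ofReal_re, ← hp2, ← mul_sub, abs_mul, abs_of_pos hn0]
  refine (mul_le_mul_of_nonneg_left hm hn0.le).trans (le_of_eq ?_)
  push_cast
  field_simp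
  norm_num

end Pool.Agent.H55.ML
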