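/-
F5 (Indep).  Triangularity of the vectors of the words.  Needs only TauRec.
span_wv: by induction on a strict bound m for the length of the words in the support of f: the
function f - sum over |u| = m of f(u) wv u is supported on words of length < m (wv_top, wv_zero).
span_wv2: the span of the functions wv u ⊗ wv v contains all delta_x ⊗ delta_y (span_wv twice).
indep2: take p0 = (u0, v0) in s with c p0 ≠ 0 of maximal total length; evaluate at p0.
-/
import Pool.Agent.H55.ML.TauRec

namespace Pool.Agent.H55.ML

private theorem span_wv_aux (m : ℕ) : ∀ f : List Bool →₀ ℂ, (∀ u, f u ≠ 0 → u.length < m) →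
    ∃ a : List Bool →₀ ℂ, ∀ u, f u = a.sum (fun w t => t * wv w u) := by
  classical
  induction m with
  | zero =>
    intro f hf
    refine ⟨0, fun u => ?_⟩
    have : f u = 0 := by
      by_contra h
      exact absurd (hf u h) (Nat.not_lt_zero _)
    rw [this, Finsupp.sum_zero_index]
  | succ m ih =>
    intro f hf
    set a1 : List Bool →₀ ℂ := f.filter (fun u => u.length = m) with ha1
    set g0 : List Bool → ℂ := fun u => f u - a1.sum (fun w t => t * wv w u) with hg0
    have hlen : ∀ w ∈ a1.support, w.length = m := by
      intro w hw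
      rw [Finsupp.mem_support_iff, ha1] at hw
      by_contra hne
      exact hw (Finsupp.filter_apply_neg _ _ hne)
    have hg : ∀ u, g0 u ≠ 0 → u.length < m := by
      intro u hu
      by_contra hlt
      push Not at hlt
      apply hu
      rcases Nat.lt_or_ge m u.length with h1 | h1
      · have hfu : f u = 0 := by
          by_contra h
          have := hf u h
          omega
        have hs : a1.sum (fun w t => t * wv w u) = 0 := by
          refine Finset.sum_eq_zero (fun w hw => ?_)
          show a1 w * wv w u = 0
          rw [wv_zero w u (by rw [hlen w hw]; exact h1), mul_zero]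
        simp only [hg0, hfu, hs, sub_zero]
      · have hm : u.length = m := le_antisymm h1 hlt
        have hs : a1.sum (fun w t => t * wv w u) = a1 u := by
          rw [Finsupp.sum]
          rw [Finset.sum_eq_single u]
          · show a1 u * wv u u = a1 u
            rw [wv_top u u rfl, if_pos rfl, mul_one]
          · intro w hw hne
            show a1 w * wv w u = 0
            rw [wv_top w u (by rw [hlen w hw, hm]), if_neg (Ne.symm hne), mul_zero]
          · intro hnot
            rw [Finsupp.notMem_support_iff] at hnot
            rw [hnot, zero_mul]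
        have h2 : a1 u = f u := by
          rw [ha1]
          exact Finsupp.filter_apply_pos _ _ hm
        simp only [hg0, hs, h2, sub_self]
    obtain ⟨a2, ha2⟩ := ih (Finsupp.onFinset (List.finite_length_lt Bool m).toFinset g0
      (by
        intro u hu
        rw [Set.Finite.mem_toFinset]
        exact hg u hu))
      (by
        intro u hu
        rw [Finsupp.onFinset_apply] at hu
        exact hg u hu)
    refine ⟨a1 + a2, fun u => ?_⟩
    rw [Finsupp.sum_add_index' (fun w => zero_mul _) (fun w x y => add_mul _ _ _)]
    have h3 := ha2 u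
    rw [Finsupp.onFinset_apply] at h3
    rw [← h3, hg0]
    ring

theorem span_wv (f : List Bool →₀ ℂ) :
    ∃ a : List Bool →₀ ℂ, ∀ u, f u = a.sum (fun w t => t * wv w u) := by
  classical
  refine span_wv_aux (f.support.sup List.length + 1) f (fun u hu => ?_)
  exact Nat.lt_succ_of_le (Finset.le_sup (f := List.length) (Finsupp.mem_support_iff.mpr hu))

private theorem span_wv2_aux (f : (List Bool × List Bool) →₀ ℂ) :
    (fun q : List Bool × List Bool => f q) ∈ Submodule.span ℂ
      (Set.range (fun (p : List Bool × List Bool) (q : List Bool × List Bool) =>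
        wv p.1 q.1 * wv p.2 q.2)) := by
  classical
  induction f using Finsupp.induction_linear with
  | zero => exact Submodule.zero_mem _
  | add f g hf hg =>
    have := Submodule.add_mem _ hf hg
    exact this
  | single p c =>
    obtain ⟨x, y⟩ := p
    obtain ⟨a, ha⟩ := span_wv (Finsupp.single x 1)
    obtain ⟨b, hb⟩ := span_wv (Finsupp.single y 1)
    have h1 : (fun q : List Bool × List Bool => (Finsupp.single (x, y) c) q) =
        ∑ w ∈ a.support, ∑ v ∈ b.support, (c * a w * b v) •
          (fun q : List Bool × List Bool => wv w q.1 * wv v q.2) := by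
      funext q
      rw [Finset.sum_apply]
      have h2 : (Finsupp.single (x, y) c) q =
          c * (Finsupp.single x (1 : ℂ) q.1) * (Finsupp.single y (1 : ℂ) q.2) := by
        obtain ⟨q1, q2⟩ := q
        simp only [Finsupp.single_apply, Prod.mk.injEq]
        by_cases h1 : x = q1 <;> by_cases h2 : y = q2 <;> simp [h1, h2]
      rw [h2, ha q.1, hb q.2, Finsupp.sum, Finsupp.sum, mul_assoc, Finset.sum_mul_sum,
        Finset.mul_sum]
      refine Finset.sum_congr rfl (fun w _ => ?_)
      rw [Finset.sum_apply, Finset.mul_sum]
      refine Finset.sum_congr rfl (fun v _ => ?_)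
      simp only [Pi.smul_apply, smul_eq_mul]
      ring
    rw [h1]
    refine Submodule.sum_mem _ (fun w _ => Submodule.sum_mem _ (fun v _ => ?_))
    exact Submodule.smul_mem _ _ (Submodule.subset_span ⟨(w, v), rfl⟩)

theorem span_wv2 (f : (List Bool × List Bool) →₀ ℂ) :
    ∃ a : (List Bool × List Bool) →₀ ℂ,
      ∀ x y, f (x, y) = a.sum (fun p t => t * (wv p.1 x * wv p.2 y)) := by
  classical
  have h := span_wv2_aux f
  rw [Finsupp.mem_span_range_iff_exists_finsupp] at h
  obtain ⟨a, ha⟩ := h
  refine ⟨a, fun x y => ?_⟩
  have h1 := congrFun ha (x, y)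
  rw [← h1, Finsupp.sum, Finsupp.sum, Finset.sum_apply]
  refine Finset.sum_congr rfl (fun p _ => ?_)
  simp only [Pi.smul_apply, smul_eq_mul]

theorem indep2 (s : Finset (List Bool × List Bool)) (c : List Bool × List Bool → ℂ)
    (h : ∀ x y, ∑ p ∈ s, c p * (wv p.1 x * wv p.2 y) = 0) : ∀ p ∈ s, c p = 0 := by
  classical
  by_contra hcon
  push Not at hcon
  obtain ⟨p1, hp1, hc1⟩ := hcon
  obtain ⟨p0, hp0, hmax⟩ := Finset.exists_max_image (s.filter (fun p => c p ≠ 0))
    (fun p => p.1.length + p.2.length) ⟨p1, Finset.mem_filter.mpr ⟨hp1, hc1⟩⟩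
  rw [Finset.mem_filter] at hp0
  obtain ⟨hp0s, hc0⟩ := hp0
  apply hc0
  have h1 := h p0.1 p0.2
  rw [Finset.sum_eq_single p0] at h1
  · rw [wv_top p0.1 p0.1 rfl, wv_top p0.2 p0.2 rfl, if_pos rfl, if_pos rfl, mul_one, mul_one] at h1
    exact h1
  · intro p hp hne
    by_cases hcp : c p = 0
    · rw [hcp, zero_mul]
    · have hle := hmax p (Finset.mem_filter.mpr ⟨hp, hcp⟩)
      rcases Nat.lt_or_ge p.1.length p0.1.length with h2 | h2
      · rw [wv_zero p.1 p0.1 h2, zero_mul, mul_zero]
      rcases Nat.lt_or_ge p.2.length p0.2.length with h3 | h3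
      · rw [wv_zero p.2 p0.2 h3, mul_zero, mul_zero]
      have e1 : p0.1.length = p.1.length := by omega
      have e2 : p0.2.length = p.2.length := by omega
      rw [wv_top p.1 p0.1 e1, wv_top p.2 p0.2 e2]
      by_cases h4 : p0.1 = p.1
      · by_cases h5 : p0.2 = p.2
        · exact absurd (Prod.ext h4.symm h5.symm) hne
        · rw [if_neg h5, mul_zero, mul_zero]
      · rw [if_neg h4, zero_mul, mul_zero]
  · intro hnot
    exact absurd hp0s hnot

end Pool.Agent.H55.ML
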