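/-
XA (Lam).  Vectors on which the left (and right) action looks like the trace.  Needs TSym, CatW.  About 220 lines.
s = (LT true + LT false)/√2, s Ek_k = Ek_{k+1} + Ek_{k-1} (k >= 1), s Ek_0 = Ek_1 (coordinates: cre t + cre f of Ek_k is
√2 Ek_{k+1}, and f ↦ f(t :: .) + f(f :: .) of Ek_k is √2 Ek_{k-1}).
lam k = (Ek k - Ek (k-2))/√2 = √2 T_k(s/2) Om1 for k >= 2 (recursion of Chebyshev polynomials: 2 T_k = U_k - U_{k-2}, or
directly by induction: T_{k+1}(s/2) = s T_k(s/2) - T_{k-1}(s/2), with T_0 Om1 = Ek 0, T_1(s/2) Om1 = Ek_1 / 2,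
T_2(s/2) Om1 = (Ek_2 - Ek_0)/2).
lam_left: let a = √2 T_k(s/2), a selfadjoint, a polynomial in LT true, LT false, and a' the same polynomial in
RT true, RT false: a' commutes with ev LT u and a' Om1 = a Om1, so
<a Om1, ev LT u a Om1> = <a Om1, a' ev LT u Om1> = <a' a Om1, ev LT u Om1> = <a a' Om1, ev LT u Om1>
= <a² Om1, ev LT u Om1> and a² = 2 T_k(s/2)² = 1 + T_{2k}(s/2) (Chebyshev.T_mul_T), T_{2k}(s/2) Om1 =
(Ek_{2k} - Ek_{2k-2})/2 is orthogonal to ev LT u Om1, which is supported on words of length <= |u| < 2k - 2 (wv_zero).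
lam_right: the same with the roles of LT and RT exchanged, and ev_RT_Om, tau_reverse.
-/
import Pool.Agent.H55.ML.TSym
import Pool.Agent.H55.ML.CatW

namespace Pool.Agent.H55.ML

/-- the vector `(Ek k - Ek (k-2))/√2` -/
noncomputable def lam (k : ℕ) (w : List Bool) : ℂ := (Ek k w - Ek (k - 2) w) / (Real.sqrt 2 : ℂ)

open Polynomial

private theorem lam_mem (k : ℕ) : Memℓp (Ek k : List Bool → ℂ) 2 := by
  apply memℓp_gen
  apply summable_of_hasFiniteSupport
  refine (List.finite_length_eq Bool k).subset fun w hw => ?_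
  by_contra h
  apply hw
  have h' : ¬ w.length = k := h
  simp [Ek, h']

private noncomputable def eV (k : ℕ) : E1 := ⟨Ek k, lam_mem k⟩

private theorem eV_apply (k : ℕ) (w : List Bool) : (eV k : List Bool → ℂ) w = Ek k w := rfl

private theorem sqrt2_mul (k : ℕ) :
    (Real.sqrt 2 : ℝ) * (1 / Real.sqrt 2) ^ (k + 1) = (1 / Real.sqrt 2) ^ k := by
  have h : (Real.sqrt 2 : ℝ) ≠ 0 := by positivity
  rw [pow_succ]
  field_simp

private theorem two_mul_q (k : ℕ) :
    (2 : ℝ) * (1 / Real.sqrt 2) ^ (k + 1) = Real.sqrt 2 * (1 / Real.sqrt 2) ^ k := by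
  rw [← sqrt2_mul k, ← mul_assoc, Real.mul_self_sqrt (by norm_num)]

private theorem cL_Ek (k : ℕ) (w : List Bool) :
    cL true (Ek (k + 1)) w + cL false (Ek (k + 1)) w
      = (Real.sqrt 2 : ℂ) * (Ek (k + 2) w + Ek k w) := by
  have h1 : (Real.sqrt 2 : ℂ) * (((1 / Real.sqrt 2) ^ (k + 2) : ℝ) : ℂ)
      = (((1 / Real.sqrt 2) ^ (k + 1) : ℝ) : ℂ) := by
    rw [← Complex.ofReal_mul, sqrt2_mul (k + 1)]
  have h2 : (2 : ℂ) * (((1 / Real.sqrt 2) ^ (k + 1) : ℝ) : ℂ)
      = (Real.sqrt 2 : ℂ) * (((1 / Real.sqrt 2) ^ k : ℝ) : ℂ) := by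
    rw [← Complex.ofReal_mul, ← two_mul_q k]
    push_cast
    ring
  cases w with
  | nil =>
    have h3 : cL true (Ek (k + 1)) [] + cL false (Ek (k + 1)) [] =
        Ek (k + 1) [false] + Ek (k + 1) [true] := by
      simp [cL, cre]
    rw [h3]
    simp only [Ek, List.length_cons, List.length_nil]
    by_cases h : 0 = k
    · have c1 : 0 + 1 = k + 1 := by omega
      have c2 : ¬ 0 = k + 2 := by omega
      rw [if_pos c1, if_neg c2, if_pos h]
      linear_combination h2
    · have c1 : ¬ 0 + 1 = k + 1 := by omega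
      have c2 : ¬ 0 = k + 2 := by omega
      rw [if_neg c1, if_neg c2, if_neg h]
      ring
  | cons a v =>
    have h3 : cL true (Ek (k + 1)) (a :: v) + cL false (Ek (k + 1)) (a :: v) =
        Ek (k + 1) v + (Ek (k + 1) (false :: a :: v) + Ek (k + 1) (true :: a :: v)) := by
      cases a <;> simp [cL, cre] <;> ring
    rw [h3]
    simp only [Ek, List.length_cons]
    by_cases c1 : v.length = k + 1
    · have c2 : ¬ v.length + 1 + 1 = k + 1 := by omega
      have c3 : v.length + 1 = k + 2 := by omega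
      have c4 : ¬ v.length + 1 = k := by omega
      rw [if_pos c1, if_neg c2, if_pos c3, if_neg c4]
      linear_combination -h1
    · by_cases c4 : v.length + 1 = k
      · have c2 : v.length + 1 + 1 = k + 1 := by omega
        have c3 : ¬ v.length + 1 = k + 2 := by omega
        rw [if_neg c1, if_pos c2, if_neg c3, if_pos c4]
        linear_combination h2
      · have c2 : ¬ v.length + 1 + 1 = k + 1 := by omega
        have c3 : ¬ v.length + 1 = k + 2 := by omega
        rw [if_neg c1, if_neg c2, if_neg c3, if_neg c4]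
        ring

private theorem cL_Ek0 (w : List Bool) :
    cL true (Ek 0) w + cL false (Ek 0) w = (Real.sqrt 2 : ℂ) * Ek 1 w := by
  have h1 : (Real.sqrt 2 : ℂ) * (((1 / Real.sqrt 2) ^ 1 : ℝ) : ℂ) = 1 := by
    rw [← Complex.ofReal_mul, sqrt2_mul 0]
    simp
  cases w with
  | nil => simp [cL, cre, Ek]
  | cons a v =>
    have h3 : cL true (Ek 0) (a :: v) + cL false (Ek 0) (a :: v) =
        Ek 0 v + (Ek 0 (false :: a :: v) + Ek 0 (true :: a :: v)) := by
      cases a <;> simp [cL, cre] <;> ring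
    rw [h3]
    simp only [Ek, List.length_cons]
    have c2 : ¬ v.length + 1 + 1 = 0 := by omega
    by_cases h : v.length = 0
    · have c1 : v.length + 1 = 1 := by omega
      rw [if_pos h, if_neg c2, if_pos c1, h1]
      simp
    · have c1 : ¬ v.length + 1 = 1 := by omega
      rw [if_neg h, if_neg c2, if_neg c1]
      ring

private theorem Ek_reverse (k : ℕ) (w : List Bool) : Ek k w.reverse = Ek k w := by
  simp [Ek]

private theorem cR_Ek_eq (k : ℕ) (b : Bool) (w : List Bool) :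
    cR b (Ek k) w = cL b (Ek k) w.reverse := by
  unfold cR
  have : (fun u : List Bool => Ek k u.reverse) = Ek k := funext fun u => Ek_reverse k u
  rw [this]

/-- `half F = (F true + F false) / (2 √2)` -/
private noncomputable def half (F : Bool → (E1 →L[ℂ] E1)) : E1 →L[ℂ] E1 :=
  ((1 / (2 * Real.sqrt 2) : ℝ) : ℂ) • (F true + F false)

private theorem half_const : ((1 / (2 * Real.sqrt 2) : ℝ) : ℂ) * (Real.sqrt 2 : ℂ) = 1 / 2 := by
  rw [← Complex.ofReal_mul]
  have h : (Real.sqrt 2 : ℝ) ≠ 0 := by positivity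
  have : (1 / (2 * Real.sqrt 2)) * Real.sqrt 2 = (1 / 2 : ℝ) := by field_simp
  rw [this]
  push_cast
  ring

/-- the property of the two families used below -/
private def Good (F : Bool → (E1 →L[ℂ] E1)) : Prop :=
  half F (eV 0) = (1 / 2 : ℂ) • eV 1 ∧
    ∀ k, half F (eV (k + 1)) = (1 / 2 : ℂ) • (eV (k + 2) + eV k)

private theorem good_LT : Good LT := by
  constructor
  · apply lp.ext
    funext w
    change ((1 / (2 * Real.sqrt 2) : ℝ) : ℂ) * ((LT true (eV 0) : List Bool → ℂ) w +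
      (LT false (eV 0) : List Bool → ℂ) w) = (1 / 2 : ℂ) * Ek 1 w
    rw [LT_apply, LT_apply]
    change ((1 / (2 * Real.sqrt 2) : ℝ) : ℂ) * (cL true (Ek 0) w + cL false (Ek 0) w) = _
    rw [cL_Ek0, ← mul_assoc, half_const]
  · intro k
    apply lp.ext
    funext w
    change ((1 / (2 * Real.sqrt 2) : ℝ) : ℂ) * ((LT true (eV (k + 1)) : List Bool → ℂ) w +
      (LT false (eV (k + 1)) : List Bool → ℂ) w) = (1 / 2 : ℂ) * (Ek (k + 2) w + Ek k w)
    rw [LT_apply, LT_apply]
    change ((1 / (2 * Real.sqrt 2) : ℝ) : ℂ) *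
      (cL true (Ek (k + 1)) w + cL false (Ek (k + 1)) w) = _
    rw [cL_Ek, ← mul_assoc, half_const]

private theorem good_RT : Good RT := by
  constructor
  · apply lp.ext
    funext w
    change ((1 / (2 * Real.sqrt 2) : ℝ) : ℂ) * ((RT true (eV 0) : List Bool → ℂ) w +
      (RT false (eV 0) : List Bool → ℂ) w) = (1 / 2 : ℂ) * Ek 1 w
    rw [RT_apply, RT_apply]
    change ((1 / (2 * Real.sqrt 2) : ℝ) : ℂ) * (cR true (Ek 0) w + cR false (Ek 0) w) = _
    rw [cR_Ek_eq, cR_Ek_eq, cL_Ek0, ← mul_assoc, half_const, Ek_reverse]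
  · intro k
    apply lp.ext
    funext w
    change ((1 / (2 * Real.sqrt 2) : ℝ) : ℂ) * ((RT true (eV (k + 1)) : List Bool → ℂ) w +
      (RT false (eV (k + 1)) : List Bool → ℂ) w) = (1 / 2 : ℂ) * (Ek (k + 2) w + Ek k w)
    rw [RT_apply, RT_apply]
    change ((1 / (2 * Real.sqrt 2) : ℝ) : ℂ) *
      (cR true (Ek (k + 1)) w + cR false (Ek (k + 1)) w) = _
    rw [cR_Ek_eq, cR_Ek_eq, cL_Ek, ← mul_assoc, half_const, Ek_reverse, Ek_reverse]

/-- the Chebyshev polynomial of `half F` -/
private noncomputable def tk (F : Bool → (E1 →L[ℂ] E1)) (k : ℕ) : E1 →L[ℂ] E1 :=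
  aeval (half F) (Polynomial.Chebyshev.T ℂ (k : ℤ))

private theorem tk_zero (F : Bool → (E1 →L[ℂ] E1)) : tk F 0 = 1 := by
  simp [tk]

private theorem tk_one (F : Bool → (E1 →L[ℂ] E1)) : tk F 1 = half F := by
  simp [tk]

private theorem tk_rec (F : Bool → (E1 →L[ℂ] E1)) (k : ℕ) :
    tk F (k + 2) = 2 * half F * tk F (k + 1) - tk F k := by
  unfold tk
  have h : Polynomial.Chebyshev.T ℂ ((k + 2 : ℕ) : ℤ) = 2 * X *
      Polynomial.Chebyshev.T ℂ ((k + 1 : ℕ) : ℤ) - Polynomial.Chebyshev.T ℂ (k : ℤ) := by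
    have := Polynomial.Chebyshev.T_add_two ℂ (k : ℤ)
    push_cast
    exact this
  rw [h]
  simp only [map_sub, map_mul, aeval_X, map_ofNat]

private theorem tk_comm (F : Bool → (E1 →L[ℂ] E1)) (k : ℕ) : Commute (half F) (tk F k) := by
  have h : (X : ℂ[X]) * Polynomial.Chebyshev.T ℂ (k : ℤ) =
    Polynomial.Chebyshev.T ℂ (k : ℤ) * X := mul_comm _ _
  have h2 := congrArg (aeval (half F)) h
  rw [map_mul, map_mul, aeval_X] at h2
  exact h2

private theorem half_adj (F : Bool → (E1 →L[ℂ] E1))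
    (hF : ∀ b, ContinuousLinearMap.adjoint (F b) = F (!b)) : star (half F) = half F := by
  unfold half
  rw [star_smul, star_add, ContinuousLinearMap.star_eq_adjoint,
    ContinuousLinearMap.star_eq_adjoint, hF, hF]
  have h1 : star ((1 / (2 * Real.sqrt 2) : ℝ) : ℂ) = ((1 / (2 * Real.sqrt 2) : ℝ) : ℂ) :=
    Complex.conj_ofReal _
  rw [h1, Bool.not_true, Bool.not_false, add_comm]

private theorem tk_adj (F : Bool → (E1 →L[ℂ] E1))
    (hF : ∀ b, ContinuousLinearMap.adjoint (F b) = F (!b)) (k : ℕ) :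
    star (tk F k) = tk F k ∧ star (tk F (k + 1)) = tk F (k + 1) := by
  induction k with
  | zero =>
    rw [tk_zero, zero_add, tk_one]
    exact ⟨star_one _, half_adj F hF⟩
  | succ k ih =>
    refine ⟨ih.2, ?_⟩
    rw [tk_rec, star_sub, star_mul, star_mul, ih.1, ih.2, half_adj F hF, star_ofNat]
    congr 1
    have h := (tk_comm F (k + 1)).eq
    have h2 : (2 : E1 →L[ℂ] E1) * half F = half F * 2 := by
      rw [two_mul, mul_two]
    rw [← h2, ← mul_assoc, mul_assoc 2, h, ← mul_assoc]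
    congr 1
    rw [two_mul, mul_two]

private theorem Om1_eq : Om1 = eV 0 := by
  apply lp.ext
  funext w
  unfold Om1
  rw [lp.coeFn_single, eV_apply, Pi.single_apply]
  cases w <;> simp [Ek]

private theorem tk_Om (F : Bool → (E1 →L[ℂ] E1)) (hF : Good F) (k : ℕ) :
    tk F (k + 2) (eV 0) = (1 / 2 : ℂ) • (eV (k + 2) - eV k) ∧
      tk F (k + 3) (eV 0) = (1 / 2 : ℂ) • (eV (k + 3) - eV (k + 1)) := by
  have two_app : ∀ (T S : E1 →L[ℂ] E1) (x : E1), (2 * T * S) x = (2 : ℂ) • T (S x) := by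
    intro T S x
    rw [mul_assoc, two_mul, two_smul]
    rfl
  have h2 : tk F 2 (eV 0) = (1 / 2 : ℂ) • (eV 2 - eV 0) := by
    have h := tk_rec F 0
    rw [zero_add, zero_add] at h
    rw [h, tk_zero, tk_one]
    change (2 * half F * half F) (eV 0) - eV 0 = _
    rw [two_app, hF.1, map_smul, hF.2 0]
    module
  have h3 : tk F 3 (eV 0) = (1 / 2 : ℂ) • (eV 3 - eV 1) := by
    have h := tk_rec F 1
    rw [show (1 + 2 : ℕ) = 3 from rfl, show (1 + 1 : ℕ) = 2 from rfl] at h
    rw [h, tk_one]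
    change (2 * half F * tk F 2) (eV 0) - half F (eV 0) = _
    rw [two_app, h2, map_smul, map_sub, hF.1, hF.2 1]
    module
  induction k with
  | zero => exact ⟨h2, h3⟩
  | succ k ih =>
    refine ⟨ih.2, ?_⟩
    have h := tk_rec F (k + 2)
    rw [show k + 2 + 2 = k + 1 + 3 by ring, show k + 2 + 1 = k + 3 by ring] at h
    rw [h]
    change (2 * half F * tk F (k + 3)) (eV 0) - tk F (k + 2) (eV 0) = _
    rw [two_app, ih.2, ih.1, map_smul, map_sub, hF.2 (k + 2), hF.2 k,
      show k + 2 + 2 = k + 1 + 3 by ring, show k + 1 + 1 = k + 2 by ring]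
    module

private theorem tk_sq (F : Bool → (E1 →L[ℂ] E1)) (k : ℕ) :
    2 * tk F k * tk F k = tk F (2 * k) + 1 := by
  unfold tk
  have h := Polynomial.Chebyshev.T_mul_T ℂ (k : ℤ) (k : ℤ)
  have h2 := congrArg (aeval (half F)) h
  simp only [map_mul, map_add, sub_self, Polynomial.Chebyshev.T_zero, map_one, map_ofNat] at h2
  rw [h2]
  congr 3
  push_cast
  ring

private theorem half_commute (u : List Bool) :
    Commute (half RT) (ev (LT true) (LT false) u) := by
  have h : ∀ b, Commute (RT b) (ev (LT true) (LT false) u) := by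
    intro b
    induction u with
    | nil => rw [ev_nil]; exact Commute.one_right _
    | cons a u ih =>
      rw [ev_cons]
      refine Commute.mul_right ?_ ih
      cases a
      · exact (commute_LT_RT false b).symm
      · exact (commute_LT_RT true b).symm
  unfold half
  exact ((h true).add_left (h false)).smul_left _

private theorem half_commute' (u : List Bool) :
    Commute (half LT) (ev (RT true) (RT false) u) := by
  have h : ∀ b, Commute (LT b) (ev (RT true) (RT false) u) := by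
    intro b
    induction u with
    | nil => rw [ev_nil]; exact Commute.one_right _
    | cons a u ih =>
      rw [ev_cons]
      refine Commute.mul_right ?_ ih
      cases a
      · exact commute_LT_RT b false
      · exact commute_LT_RT b true
  unfold half
  exact ((h true).add_left (h false)).smul_left _

private theorem aeval_commute {T S : E1 →L[ℂ] E1} (h : Commute T S) (p : ℂ[X]) :
    Commute (aeval T p) S := by
  induction p using Polynomial.induction_on' with
  | add p q hp hq => rw [map_add]; exact hp.add_left hq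
  | monomial n a =>
    rw [aeval_monomial]
    exact (Algebra.commute_algebraMap_left a S).mul_left (h.pow_left n)

private theorem half_half : Commute (half LT) (half RT) := by
  have h : ∀ b b', Commute (LT b) (RT b') := commute_LT_RT
  unfold half
  refine Commute.smul_left (Commute.smul_right ?_ _) _
  exact ((h true true).add_right (h true false)).add_left ((h false true).add_right (h false false))

/-- the general computation -/
private theorem main_comp (F G : Bool → (E1 →L[ℂ] E1)) (hF : Good F) (hG : Good G)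
    (hFa : ∀ b, ContinuousLinearMap.adjoint (F b) = F (!b))
    (hGa : ∀ b, ContinuousLinearMap.adjoint (G b) = G (!b))
    (hFG : Commute (half G) (half F)) (k : ℕ) (hk : 2 ≤ k) (W : E1 →L[ℂ] E1)
    (hW : Commute (half G) W) (t : ℂ) (h0 : (W Om1 : List Bool → ℂ) [] = t)
    (hs : ∀ w : List Bool, 2 * k - 2 ≤ w.length → (W Om1 : List Bool → ℂ) w = 0)
    (f : E1) (hf : f = (Real.sqrt 2 : ℂ) • tk F k (eV 0)) :
    inner ℂ f (W f) = t := by
  obtain ⟨j, rfl⟩ : ∃ j, k = j + 2 := ⟨k - 2, by omega⟩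
  have e1 : tk F (j + 2) (eV 0) = tk G (j + 2) (eV 0) := by
    rw [(tk_Om F hF j).1, (tk_Om G hG j).1]
  have hc : Commute (tk G (j + 2)) W := aeval_commute hW _
  have hc2 : Commute (tk G (j + 2)) (tk F (j + 2)) :=
    aeval_commute (aeval_commute hFG.symm _).symm _
  have haF := (tk_adj F hFa (j + 2)).1
  have haG := (tk_adj G hGa (j + 2)).1
  rw [ContinuousLinearMap.star_eq_adjoint] at haF haG
  have h1 : W (tk F (j + 2) (eV 0)) = tk G (j + 2) (W (eV 0)) := by
    rw [e1]
    have := congrArg (fun T : E1 →L[ℂ] E1 => T (eV 0)) hc.eq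
    exact this.symm
  have h2 : tk G (j + 2) (tk F (j + 2) (eV 0)) = (tk F (j + 2) * tk F (j + 2)) (eV 0) := by
    have := congrArg (fun T : E1 →L[ℂ] E1 => T (eV 0)) hc2.eq
    have h3 : tk G (j + 2) (tk F (j + 2) (eV 0)) = tk F (j + 2) (tk G (j + 2) (eV 0)) := this
    rw [h3, ← e1]
    rfl
  have h3 : (2 : ℂ) • ((tk F (j + 2) * tk F (j + 2)) (eV 0)) =
      eV 0 + (1 / 2 : ℂ) • (eV (2 * j + 4) - eV (2 * j + 2)) := by
    have h4 := congrArg (fun T : E1 →L[ℂ] E1 => T (eV 0)) (tk_sq F (j + 2))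
    have h5 : (2 * tk F (j + 2) * tk F (j + 2)) (eV 0) =
        (2 : ℂ) • ((tk F (j + 2) * tk F (j + 2)) (eV 0)) := by
      rw [mul_assoc, two_mul, two_smul]
      rfl
    rw [← h5]
    change (2 * tk F (j + 2) * tk F (j + 2)) (eV 0) = tk F (2 * (j + 2)) (eV 0) + eV 0 at h4
    rw [h4, show 2 * (j + 2) = (2 * j + 2) + 2 by ring, (tk_Om F hF (2 * j + 2)).1, add_comm]
  have hz : ∀ m, 2 * (j + 2) - 2 ≤ m → inner ℂ (eV m) (W Om1) = 0 := by
    intro m hm
    rw [lp.inner_eq_tsum]
    refine (tsum_congr fun w => ?_).trans tsum_zero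
    by_cases hw : w.length = m
    · rw [hs w (by omega)]
      simp
    · have : (eV m : List Bool → ℂ) w = 0 := by rw [eV_apply]; simp [Ek, hw]
      rw [this]
      simp
  have h00 : inner ℂ (eV 0) (W Om1) = t := by
    rw [← Om1_eq]
    unfold Om1
    rw [lp.inner_single_left]
    have h0' := h0
    unfold Om1 at h0'
    rw [h0']
    simp
  rw [hf, map_smul, inner_smul_left, inner_smul_right, h1,
    ← ContinuousLinearMap.adjoint_inner_left, haG, h2, Complex.conj_ofReal, ← mul_assoc]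
  have h6 : (Real.sqrt 2 : ℂ) * (Real.sqrt 2 : ℂ) = 2 := by
    rw [← Complex.ofReal_mul, Real.mul_self_sqrt (by norm_num)]
    norm_num
  rw [h6]
  have h7 : (2 : ℂ) * inner ℂ ((tk F (j + 2) * tk F (j + 2)) (eV 0)) (W (eV 0)) =
      inner ℂ ((2 : ℂ) • ((tk F (j + 2) * tk F (j + 2)) (eV 0))) (W (eV 0)) := by
    rw [inner_smul_left, map_ofNat]
  rw [h7, h3, inner_add_left, inner_smul_left, inner_sub_left, ← Om1_eq,
    hz (2 * j + 4) (by omega), hz (2 * j + 2) (by omega)]
  rw [Om1_eq] at h00 ⊢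
  rw [h00]
  simp

theorem exists_lam (k : ℕ) : ∃ f : E1, (f : List Bool → ℂ) = lam k := by
  refine ⟨((Real.sqrt 2 : ℂ))⁻¹ • (eV k - eV (k - 2)), ?_⟩
  funext w
  change ((Real.sqrt 2 : ℂ))⁻¹ * (Ek k w - Ek (k - 2) w) = _
  unfold lam
  rw [div_eq_mul_inv, mul_comm]

private theorem lam_eq (F : Bool → (E1 →L[ℂ] E1)) (hF : Good F) (k : ℕ) (hk : 2 ≤ k) (f : E1)
    (hf : (f : List Bool → ℂ) = lam k) : f = (Real.sqrt 2 : ℂ) • tk F k (eV 0) := by
  obtain ⟨j, rfl⟩ : ∃ j, k = j + 2 := ⟨k - 2, by omega⟩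
  rw [(tk_Om F hF j).1]
  apply lp.ext
  funext w
  rw [hf]
  change lam (j + 2) w = (Real.sqrt 2 : ℂ) * ((1 / 2 : ℂ) * (Ek (j + 2) w - Ek j w))
  unfold lam
  rw [Nat.add_sub_cancel]
  have h6 : (Real.sqrt 2 : ℂ) * (Real.sqrt 2 : ℂ) = 2 := by
    rw [← Complex.ofReal_mul, Real.mul_self_sqrt (by norm_num)]
    norm_num
  have h7 : (Real.sqrt 2 : ℂ) ≠ 0 := by
    intro h
    rw [h] at h6
    norm_num at h6
  rw [div_eq_iff h7]
  linear_combination (-(1 / 2 : ℂ) * (Ek (j + 2) w - Ek j w)) * h6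

theorem lam_left (k : ℕ) (u : List Bool) (hk : u.length + 3 ≤ k) (f : E1)
    (hf : (f : List Bool → ℂ) = lam k) :
    inner ℂ f ((ev (LT true) (LT false) u) f) = (tau u : ℂ) := by
  refine main_comp LT RT good_LT good_RT adjoint_LT adjoint_RT half_half.symm k (by omega) _
    (half_commute u) _ ?_ ?_ f (lam_eq LT good_LT k (by omega) f hf)
  · rw [ev_LT_apply, wv_nil_apply]
  · intro w hw
    rw [ev_LT_apply]
    exact wv_zero _ _ (by omega)

theorem lam_right (k : ℕ) (v : List Bool) (hk : v.length + 3 ≤ k) (f : E1)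
    (hf : (f : List Bool → ℂ) = lam k) :
    inner ℂ f ((ev (RT true) (RT false) v) f) = (tau v : ℂ) := by
  refine main_comp RT LT good_RT good_LT adjoint_RT adjoint_LT half_half k (by omega) _
    (half_commute' v) _ ?_ ?_ f (lam_eq RT good_RT k (by omega) f hf)
  · rw [ev_RT_Om, ev_LT_apply, wv_nil_apply, tau_reverse]
  · intro w hw
    rw [ev_RT_Om, ev_LT_apply]
    exact wv_zero _ _ (by rw [List.length_reverse]; omega)

end Pool.Agent.H55.ML
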