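/-
F6 (PolyBd).  Norm of a polynomial in a bounded selfadjoint operator with a <= T <= b.  MATHLIB ONLY.
About 80 lines.
PROOF.  The real spectrum of T is contained in [a, b]: T - a >= 0 and b - T >= 0 as positive operators
(ContinuousLinearMap.IsPositive, spectrum of a nonnegative element of a C*-algebra is nonnegative:
SpectrumRestricts / spectrum_nonneg_of_nonneg), cfc_polynomial / aeval_eq cfc: cfc_aeval, norm_cfc_le:
‖cfc f T‖ <= M if |f| <= M on the spectrum; then ‖aeval T h x‖ <= M ‖x‖.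
If E is trivial the statement is 0 <= M * 0.  M >= 0 follows from |h a| <= M.
Alternative without cfc: for p = M^2 - h^2 nonnegative on [a, b] write p as sum of squares plus
(x - a)(b - x) times sum of squares; cfc is simpler.
-/
import Mathlib

namespace Pool.Agent.H55.ML
open Polynomial

private lemma pb_alg {E : Type} [NormedAddCommGroup E] [InnerProductSpace ℂ E]
    [CompleteSpace E] (r : ℝ) (x : E) :
    inner ℂ x ((algebraMap ℝ (E →L[ℂ] E) r) x) = ((r * ‖x‖ ^ 2 : ℝ) : ℂ) := by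
  have h1 : (algebraMap ℝ (E →L[ℂ] E) r) x = (r : ℂ) • x := by
    rw [Algebra.algebraMap_eq_smul_one]
    simp
  rw [h1, inner_smul_right, inner_self_eq_norm_sq_to_K]
  push_cast
  rfl

theorem poly_bound {E : Type} [NormedAddCommGroup E] [InnerProductSpace ℂ E] [CompleteSpace E]
    (T : E →L[ℂ] E) (hT : IsSelfAdjoint T) (a b : ℝ) (hab : a ≤ b)
    (ha : ∀ x, a * ‖x‖ ^ 2 ≤ (inner ℂ x (T x)).re) (hb : ∀ x, (inner ℂ x (T x)).re ≤ b * ‖x‖ ^ 2)
    (h : ℝ[X]) (M : ℝ) (hM : ∀ x ∈ Set.Icc a b, |h.eval x| ≤ M) (x : E) :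
    ‖(aeval T h) x‖ ≤ M * ‖x‖ := by
  have hM0 : 0 ≤ M := (abs_nonneg _).trans (hM a ⟨le_refl a, hab⟩)
  have hsa : ∀ r : ℝ, IsSelfAdjoint (algebraMap ℝ (E →L[ℂ] E) r) := fun r =>
    (IsSelfAdjoint.all r).algebraMap _
  have h1 : algebraMap ℝ (E →L[ℂ] E) a ≤ T := by
    rw [ContinuousLinearMap.le_def, ContinuousLinearMap.isPositive_def']
    refine ⟨hT.sub (hsa a), fun y => ?_⟩
    rw [ContinuousLinearMap.reApplyInnerSelf_apply, ← inner_re_symm,
      sub_apply, inner_sub_right, pb_alg]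
    have h2 := ha y
    simp only [map_sub, RCLike.re_to_complex, Complex.ofReal_re]
    linarith
  have h2 : T ≤ algebraMap ℝ (E →L[ℂ] E) b := by
    rw [ContinuousLinearMap.le_def, ContinuousLinearMap.isPositive_def']
    refine ⟨(hsa b).sub hT, fun y => ?_⟩
    rw [ContinuousLinearMap.reApplyInnerSelf_apply, ← inner_re_symm,
      sub_apply, inner_sub_right, pb_alg]
    have h2 := hb y
    simp only [map_sub, RCLike.re_to_complex, Complex.ofReal_re]
    linarith
  rw [algebraMap_le_iff_le_spectrum] at h1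
  rw [le_algebraMap_iff_spectrum_le] at h2
  have h3 : ‖aeval T h‖ ≤ M := by
    rw [← cfc_polynomial h T hT]
    refine norm_cfc_le hM0 fun y hy => ?_
    rw [Real.norm_eq_abs]
    exact hM y ⟨h1 y hy, h2 y hy⟩
  exact ((aeval T h).le_opNorm x).trans (mul_le_mul_of_nonneg_right h3 (norm_nonneg x))

end Pool.Agent.H55.ML
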