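/-
F7c (QfC).  The form qC and the bottom dC; the functional nuC.  About 120 lines.
re <f, DCo f> = ‖(LC true - RC true) f‖^2 + ‖(LC false - RC false) f‖^2 = qC f
(adjoint_LC, adjoint_RC: adjoint (LC true - RC true) = LC false - RC false; lp norm as tsum; LC_apply, RC_apply).
Every f with HasSum ‖f‖^2 = 1 is an element of E2 of norm 1 and conversely (lp.norm_sq_eq_of_L2 or
lp.norm_rpow_eq_tsum), so dC ‖f‖^2 <= qC f by scaling (csInf_le, bounded below by 0), and
qC f <= (4^2 + 4^2) ‖f‖^2 = 32 ‖f‖^2 because ‖LC true - RC true‖ <= 4.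
dC <= 32: take f = Om2.
nuC_bound: |nuC h| <= ‖Om2‖ ‖aeval DCo h Om2‖ <= M by PolyBd with a = dC, b = KK (32 <= 1200).
-/
import Pool.Agent.H55.ML.Ops
import Pool.Agent.H55.ML.PolyBd

namespace Pool.Agent.H55.ML
open Polynomial

private theorem qfc_adj1 : star (LC true - RC true) = LC false - RC false := by
  rw [star_sub, ContinuousLinearMap.star_eq_adjoint, ContinuousLinearMap.star_eq_adjoint,
    adjoint_LC, adjoint_RC]
  rfl

private theorem qfc_adj2 : star (LC false - RC false) = LC true - RC true := by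
  rw [← qfc_adj1, star_star]

theorem DCo_selfAdjoint : IsSelfAdjoint DCo := by
  unfold IsSelfAdjoint DCo DDg
  rw [star_add, star_mul, star_mul, qfc_adj1, qfc_adj2]

private theorem qfc_two : (0 : ℝ) < (2 : ENNReal).toReal := by
  norm_num

private theorem qfc_hasSum (f : E2) : HasSum (fun w => ‖f w‖ ^ 2) (‖f‖ ^ 2) := by
  have h := lp.hasSum_norm qfc_two f
  simpa using h

private theorem qfc_comm (b : Bool) (f : E2) :
    ‖(LC b - RC b) f‖ ^ 2 = ∑' w, ‖c1 b f w - c2 b f w‖ ^ 2 := by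
  rw [← (qfc_hasSum ((LC b - RC b) f)).tsum_eq]
  refine tsum_congr fun w => ?_
  have h1 : ((LC b - RC b) f : List Bool × List Bool → ℂ) w = c1 b f w - c2 b f w := by
    rw [← LC_apply, ← RC_apply]
    rfl
  rw [h1]

private theorem qfc_qC (f : E2) :
    qC f = ‖(LC true - RC true) f‖ ^ 2 + ‖(LC false - RC false) f‖ ^ 2 := by
  rw [qfc_comm, qfc_comm]
  rfl

theorem re_inner_DCo (f : E2) : (inner ℂ f (DCo f)).re = qC f := by
  have e0 : DCo f = (LC false - RC false) ((LC true - RC true) f) +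
      (LC true - RC true) ((LC false - RC false) f) := rfl
  have e1 : inner ℂ f ((LC false - RC false) ((LC true - RC true) f)) =
      inner ℂ ((LC true - RC true) f) ((LC true - RC true) f) := by
    rw [← qfc_adj1, ContinuousLinearMap.star_eq_adjoint, ContinuousLinearMap.adjoint_inner_right]
  have e2 : inner ℂ f ((LC true - RC true) ((LC false - RC false) f)) =
      inner ℂ ((LC false - RC false) f) ((LC false - RC false) f) := by
    rw [← qfc_adj2, ContinuousLinearMap.star_eq_adjoint, ContinuousLinearMap.adjoint_inner_right]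
  rw [e0, inner_add_right, e1, e2, Complex.add_re, inner_self_eq_norm_sq_to_K,
    inner_self_eq_norm_sq_to_K, qfc_qC]
  norm_cast

private theorem qfc_nonneg (f : List Bool × List Bool → ℂ) : 0 ≤ qC f := by
  unfold qC
  exact add_nonneg (tsum_nonneg fun w => by positivity) (tsum_nonneg fun w => by positivity)

private theorem qfc_bdd : BddBelow {r : ℝ | ∃ f : List Bool × List Bool → ℂ,
    HasSum (fun w => ‖f w‖ ^ 2) 1 ∧ r = qC f} := by
  refine ⟨0, ?_⟩
  rintro r ⟨f, _, rfl⟩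
  exact qfc_nonneg f

private theorem qfc_norm_delta (b : Bool) : ‖LC b - RC b‖ ≤ 4 := by
  have h1 := norm_sub_le (LC b) (RC b)
  have h2 := norm_LC b
  have h3 := norm_RC b
  linarith

private theorem qfc_le (f : E2) : qC f ≤ 32 * ‖f‖ ^ 2 := by
  rw [qfc_qC]
  have h : ∀ b : Bool, ‖(LC b - RC b) f‖ ^ 2 ≤ 16 * ‖f‖ ^ 2 := by
    intro b
    have h1 : ‖(LC b - RC b) f‖ ≤ 4 * ‖f‖ :=
      ((LC b - RC b).le_opNorm f).trans
        (mul_le_mul_of_nonneg_right (qfc_norm_delta b) (norm_nonneg f))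
    calc ‖(LC b - RC b) f‖ ^ 2 ≤ (4 * ‖f‖) ^ 2 := pow_le_pow_left₀ (norm_nonneg _) h1 2
      _ = 16 * ‖f‖ ^ 2 := by ring
  linarith [h true, h false]

theorem dC_nonneg : 0 ≤ dC := by
  unfold dC
  refine Real.sInf_nonneg ?_
  rintro r ⟨f, _, rfl⟩
  exact qfc_nonneg f

theorem norm_Om2 : ‖Om2‖ = 1 := by
  unfold Om2
  rw [lp.norm_single (by norm_num), norm_one]

theorem dC_le : dC ≤ 32 := by
  have h2 : dC ≤ qC Om2 := by
    unfold dC
    refine csInf_le qfc_bdd ⟨_, ?_, rfl⟩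
    have h3 := qfc_hasSum Om2
    rw [norm_Om2, one_pow] at h3
    exact h3
  have h4 := qfc_le Om2
  rw [norm_Om2, one_pow, mul_one] at h4
  exact h2.trans h4

private theorem qfc_smul (c : ℂ) (f : E2) : qC (c • f : E2) = ‖c‖ ^ 2 * qC f := by
  rw [qfc_qC, qfc_qC, map_smul, map_smul, norm_smul, norm_smul]
  ring

theorem dC_mul_le (f : E2) : dC * ‖f‖ ^ 2 ≤ qC f := by
  by_cases h0 : f = 0
  · subst h0
    rw [norm_zero]
    have := qfc_nonneg (0 : E2)
    simpa using this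
  · have hn : 0 < ‖f‖ := norm_pos_iff.2 h0
    have hc : ‖((‖f‖ : ℝ) : ℂ)⁻¹‖ = ‖f‖⁻¹ := by
      rw [norm_inv, Complex.norm_real, Real.norm_of_nonneg hn.le]
    have h1 : ‖(((‖f‖ : ℝ) : ℂ)⁻¹ • f : E2)‖ = 1 := by
      rw [norm_smul, hc, inv_mul_cancel₀ hn.ne']
    have h2 : dC ≤ qC (((‖f‖ : ℝ) : ℂ)⁻¹ • f : E2) := by
      unfold dC
      refine csInf_le qfc_bdd ⟨_, ?_, rfl⟩
      have h3 := qfc_hasSum (((‖f‖ : ℝ) : ℂ)⁻¹ • f : E2)
      rw [h1, one_pow] at h3
      exact h3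
    rw [qfc_smul, hc, inv_pow] at h2
    have hn2 : 0 < ‖f‖ ^ 2 := by positivity
    rw [inv_mul_eq_div, le_div_iff₀ hn2] at h2
    exact h2

theorem qC_le (f : E2) : qC f ≤ 32 * ‖f‖ ^ 2 := qfc_le f

/-- near minimizers that are finite combinations of the vectors of the words -/
theorem approx_C (ε : ℝ) (hε : 0 < ε) : ∃ f : E2, (∃ s : Finset (List Bool × List Bool),
    ∀ p, p ∉ s → f p = 0) ∧ f ≠ 0 ∧ qC f < (dC + ε) * ‖f‖ ^ 2 := by
  have hne : {r : ℝ | ∃ f : List Bool × List Bool → ℂ,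
      HasSum (fun w => ‖f w‖ ^ 2) 1 ∧ r = qC f}.Nonempty := by
    refine ⟨_, Om2, ?_, rfl⟩
    have h3 := qfc_hasSum Om2
    rw [norm_Om2, one_pow] at h3
    exact h3
  obtain ⟨r, ⟨g, hg1, rfl⟩, hr⟩ := exists_lt_of_csInf_lt hne
    (show sInf _ < dC + ε by
      have : sInf {r : ℝ | ∃ f : List Bool × List Bool → ℂ,
        HasSum (fun w => ‖f w‖ ^ 2) 1 ∧ r = qC f} = dC := rfl
      rw [this]
      linarith)
  have hmem : Memℓp g 2 := by
    refine memℓp_gen ?_
    have h := hg1.summable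
    simpa using h
  obtain ⟨f, hf⟩ : ∃ f : E2, (f : List Bool × List Bool → ℂ) = g := ⟨⟨g, hmem⟩, rfl⟩
  have hfn : ‖f‖ ^ 2 = 1 := by
    have h := qfc_hasSum f
    rw [hf] at h
    exact h.unique hg1
  have hlim : Filter.Tendsto
      (fun s : Finset (List Bool × List Bool) => ∑ w ∈ s, (lp.single 2 w (f w) : E2))
      Filter.atTop (nhds f) := lp.hasSum_single (by norm_num) f
  have hcont : Continuous fun x : E2 => (dC + ε) * ‖x‖ ^ 2 - qC x := by
    have h1 : (fun x : E2 => (dC + ε) * ‖x‖ ^ 2 - qC x) =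
        fun x : E2 => (dC + ε) * ‖x‖ ^ 2 -
          (‖(LC true - RC true) x‖ ^ 2 + ‖(LC false - RC false) x‖ ^ 2) := by
      funext x
      rw [qfc_qC]
    rw [h1]
    have c1 := ((LC true - RC true).continuous).norm.pow 2
    have c2 := ((LC false - RC false).continuous).norm.pow 2
    exact (continuous_const.mul (continuous_norm.pow 2)).sub (c1.add c2)
  have hpos : 0 < (dC + ε) * ‖f‖ ^ 2 - qC f := by
    rw [hfn, mul_one, hf]
    linarith
  have hev := ((hcont.tendsto f).comp hlim).eventually (lt_mem_nhds hpos)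
  obtain ⟨s, hs⟩ := hev.exists
  have hval : ∀ p, (((∑ w ∈ s, (lp.single 2 w (f w) : E2)) : E2) :
      List Bool × List Bool → ℂ) p = if p ∈ s then f p else 0 := by
    intro p
    rw [lp.coeFn_sum, Finset.sum_apply]
    by_cases hp : p ∈ s
    · rw [if_pos hp, Finset.sum_eq_single p]
      · exact lp.single_apply_self _ _ _
      · intro w _ hw
        exact lp.single_apply_ne _ _ _ (fun h => hw h.symm)
      · intro h
        exact absurd hp h
    · rw [if_neg hp]
      refine Finset.sum_eq_zero fun w hw => ?_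
      refine lp.single_apply_ne _ _ _ ?_
      rintro rfl
      exact hp hw
  refine ⟨∑ w ∈ s, (lp.single 2 w (f w) : E2), ⟨s, fun p hp => ?_⟩, ?_, ?_⟩
  · rw [hval, if_neg hp]
  · intro h0
    rw [Function.comp_apply, h0] at hs
    have h1 := qfc_nonneg (0 : E2)
    rw [norm_zero] at hs
    linarith
  · rw [Function.comp_apply] at hs
    linarith

theorem nuC_bound (h : ℝ[X]) (M : ℝ) (hM : ∀ x ∈ Set.Icc dC KK, |h.eval x| ≤ M) :
    |nuC h| ≤ M := by
  have hK : KK = 1200 := rfl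
  have h1 : ‖(aeval DCo h) Om2‖ ≤ M * ‖Om2‖ := by
    refine poly_bound DCo DCo_selfAdjoint dC KK ?_ ?_ ?_ h M hM Om2
    · rw [hK]
      exact dC_le.trans (by norm_num)
    · intro x
      rw [re_inner_DCo]
      exact dC_mul_le x
    · intro x
      rw [re_inner_DCo, hK]
      have h2 := qC_le x
      have h3 : 0 ≤ ‖x‖ ^ 2 := by positivity
      linarith
  unfold nuC
  calc |(inner ℂ Om2 ((aeval DCo h) Om2)).re| ≤ ‖inner ℂ Om2 ((aeval DCo h) Om2)‖ :=
        Complex.abs_re_le_norm _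
    _ ≤ ‖Om2‖ * ‖(aeval DCo h) Om2‖ := norm_inner_le_norm _ _
    _ ≤ ‖Om2‖ * (M * ‖Om2‖) := mul_le_mul_of_nonneg_left h1 (norm_nonneg _)
    _ = M := by rw [norm_Om2]; ring

theorem nuC_add (f g : ℝ[X]) : nuC (f + g) = nuC f + nuC g := by
  unfold nuC
  rw [map_add]
  change (inner ℂ Om2 ((aeval DCo f) Om2 + (aeval DCo g) Om2)).re = _
  rw [inner_add_right, Complex.add_re]

theorem nuC_C_mul (c : ℝ) (f : ℝ[X]) : nuC (Polynomial.C c * f) = c * nuC f := by
  unfold nuC
  have h1 : (aeval DCo (Polynomial.C c * f)) Om2 = (c : ℂ) • ((aeval DCo f) Om2) := by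
    rw [map_mul, aeval_C, Algebra.algebraMap_eq_smul_one, smul_mul_assoc, one_mul]
    rfl
  rw [h1, inner_smul_right, Complex.re_ofReal_mul]

end Pool.Agent.H55.ML
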