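/-
F7t (QfT).  The form qT and the bottom dT.  About 150 lines; same scheme as QfC (independent file).
re <f, DT f> = ‖(LT true - RT true) f‖^2 + ‖(LT false - RT false) f‖^2 = qT f.
DT Om1 = 0: (LT b) Om1 = (RT b) Om1 = the word [b].
poly_T: for ξ with ξ [] = 0 and |h| <= M on [dT, KK]: ‖aeval DT h ξ‖ <= M ‖ξ‖.  Proof: the operator
T = DT + dT <Om1, .> Om1 is selfadjoint with dT <= T <= KK (decompose x = <Om1,x> Om1 + x', x'(∅) = 0,
DT Om1 = 0, DT selfadjoint; dT <= 32 <= KK), PolyBd gives ‖aeval T h ξ‖ <= M ‖ξ‖, and T = DT on the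
invariant subspace {x : x [] = 0} (DT x has coordinate <Om1, DT x> = <DT Om1, x> = 0 at []), so
aeval T h ξ = aeval DT h ξ (induction on powers).
-/
import Pool.Agent.H55.ML.Ops
import Pool.Agent.H55.ML.PolyBd

namespace Pool.Agent.H55.ML
open Polynomial

private theorem qft_adj1 : star (LT true - RT true) = LT false - RT false := by
  rw [star_sub, ContinuousLinearMap.star_eq_adjoint, ContinuousLinearMap.star_eq_adjoint,
    adjoint_LT, adjoint_RT]
  rfl

private theorem qft_adj2 : star (LT false - RT false) = LT true - RT true := by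
  rw [← qft_adj1, star_star]

theorem DT_selfAdjoint : IsSelfAdjoint DT := by
  unfold IsSelfAdjoint DT DDg
  rw [star_add, star_mul, star_mul, qft_adj1, qft_adj2]

private theorem qft_two : (0 : ℝ) < (2 : ENNReal).toReal := by
  norm_num

private theorem qft_hasSum (f : E1) : HasSum (fun w => ‖f w‖ ^ 2) (‖f‖ ^ 2) := by
  have h := lp.hasSum_norm qft_two f
  simpa using h

private theorem qft_symm (f g : E1) : inner ℂ (DT f) g = inner ℂ f (DT g) := by
  have h : ContinuousLinearMap.adjoint DT = DT := DT_selfAdjoint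
  conv_lhs => rw [← h]
  rw [ContinuousLinearMap.adjoint_inner_left]

private theorem qft_comm (b : Bool) (f : E1) :
    ‖(LT b - RT b) f‖ ^ 2 = ∑' w, ‖cL b f w - cR b f w‖ ^ 2 := by
  rw [← (qft_hasSum ((LT b - RT b) f)).tsum_eq]
  refine tsum_congr fun w => ?_
  have h1 : ((LT b - RT b) f : List Bool → ℂ) w = cL b f w - cR b f w := by
    rw [← LT_apply, ← RT_apply]
    rfl
  rw [h1]

private theorem qft_qT (f : E1) :
    qT f = ‖(LT true - RT true) f‖ ^ 2 + ‖(LT false - RT false) f‖ ^ 2 := by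
  rw [qft_comm, qft_comm]
  rfl

theorem re_inner_DT (f : E1) : (inner ℂ f (DT f)).re = qT f := by
  have e0 : DT f = (LT false - RT false) ((LT true - RT true) f) +
      (LT true - RT true) ((LT false - RT false) f) := rfl
  have e1 : inner ℂ f ((LT false - RT false) ((LT true - RT true) f)) =
      inner ℂ ((LT true - RT true) f) ((LT true - RT true) f) := by
    rw [← qft_adj1, ContinuousLinearMap.star_eq_adjoint, ContinuousLinearMap.adjoint_inner_right]
  have e2 : inner ℂ f ((LT true - RT true) ((LT false - RT false) f)) =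
      inner ℂ ((LT false - RT false) f) ((LT false - RT false) f) := by
    rw [← qft_adj2, ContinuousLinearMap.star_eq_adjoint, ContinuousLinearMap.adjoint_inner_right]
  rw [e0, inner_add_right, e1, e2, Complex.add_re, inner_self_eq_norm_sq_to_K,
    inner_self_eq_norm_sq_to_K, qft_qT]
  norm_cast

private theorem qft_Om (w : List Bool) : (Om1 : List Bool → ℂ) w = if w = [] then 1 else 0 := by
  unfold Om1
  rw [lp.single_apply]
  by_cases h : w = []
  · subst h
    simp
  · rw [if_neg h, Pi.single_eq_of_ne h]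

private theorem qft_cL (b : Bool) (w : List Bool) :
    cL b (Om1 : List Bool → ℂ) w = if w = [b] then 1 else 0 := by
  cases w with
  | nil =>
    unfold cL cre
    simp [qft_Om]
  | cons a w =>
    unfold cL cre
    simp only [qft_Om]
    by_cases hab : a = b
    · subst hab
      by_cases hw : w = []
      · subst hw
        simp
      · simp [hw]
    · simp [hab]

private theorem qft_cR (b : Bool) (w : List Bool) :
    cR b (Om1 : List Bool → ℂ) w = if w = [b] then 1 else 0 := by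
  have h1 : (fun u : List Bool => (Om1 : List Bool → ℂ) u.reverse) = (Om1 : List Bool → ℂ) := by
    funext u
    rw [qft_Om, qft_Om]
    simp only [List.reverse_eq_nil_iff]
  unfold cR
  rw [h1, qft_cL]
  have h2 : (w.reverse = [b]) ↔ (w = [b]) := by
    rw [List.reverse_eq_iff]
    simp
  simp only [h2]

private theorem qft_delta (b : Bool) : (LT b - RT b) Om1 = 0 := by
  apply lp.ext
  funext w
  have h1 : ((LT b - RT b) Om1 : List Bool → ℂ) w = cL b Om1 w - cR b Om1 w := by
    rw [← LT_apply, ← RT_apply]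
    rfl
  rw [h1, qft_cL, qft_cR, sub_self]
  rfl

theorem DT_Om1 : DT Om1 = 0 := by
  have e0 : DT Om1 = (LT false - RT false) ((LT true - RT true) Om1) +
      (LT true - RT true) ((LT false - RT false) Om1) := rfl
  rw [e0, qft_delta, qft_delta, map_zero, map_zero, add_zero]

private theorem qft_nonneg (f : List Bool → ℂ) : 0 ≤ qT f := by
  unfold qT
  exact add_nonneg (tsum_nonneg fun w => by positivity) (tsum_nonneg fun w => by positivity)

private theorem qft_bdd : BddBelow {r : ℝ | ∃ f : List Bool → ℂ, f [] = 0 ∧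
    HasSum (fun w => ‖f w‖ ^ 2) 1 ∧ r = qT f} := by
  refine ⟨0, ?_⟩
  rintro r ⟨f, _, _, rfl⟩
  exact qft_nonneg f

private theorem qft_norm_delta (b : Bool) : ‖LT b - RT b‖ ≤ 4 := by
  have h1 := norm_sub_le (LT b) (RT b)
  have h2 := norm_LT b
  have h3 := norm_RT b
  linarith

private theorem qft_le (f : E1) : qT f ≤ 32 * ‖f‖ ^ 2 := by
  rw [qft_qT]
  have h : ∀ b : Bool, ‖(LT b - RT b) f‖ ^ 2 ≤ 16 * ‖f‖ ^ 2 := by
    intro b
    have h1 : ‖(LT b - RT b) f‖ ≤ 4 * ‖f‖ :=
      ((LT b - RT b).le_opNorm f).trans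
        (mul_le_mul_of_nonneg_right (qft_norm_delta b) (norm_nonneg f))
    calc ‖(LT b - RT b) f‖ ^ 2 ≤ (4 * ‖f‖) ^ 2 := pow_le_pow_left₀ (norm_nonneg _) h1 2
      _ = 16 * ‖f‖ ^ 2 := by ring
  linarith [h true, h false]

theorem dT_nonneg : 0 ≤ dT := by
  unfold dT
  refine Real.sInf_nonneg ?_
  rintro r ⟨f, _, _, rfl⟩
  exact qft_nonneg f

theorem dT_le : dT ≤ 32 := by
  have h1 : ‖(lp.single 2 [true] (1 : ℂ) : E1)‖ = 1 := by
    rw [lp.norm_single (by norm_num), norm_one]
  have h2 : dT ≤ qT (lp.single 2 [true] (1 : ℂ) : E1) := by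
    unfold dT
    refine csInf_le qft_bdd ⟨_, ?_, ?_, rfl⟩
    · rw [lp.single_apply]
      exact Pi.single_eq_of_ne (by simp) _
    · have h3 := qft_hasSum (lp.single 2 [true] (1 : ℂ) : E1)
      rw [h1, one_pow] at h3
      exact h3
  have h4 := qft_le (lp.single 2 [true] (1 : ℂ) : E1)
  rw [h1, one_pow, mul_one] at h4
  exact h2.trans h4

private theorem qft_smul (c : ℂ) (f : E1) : qT (c • f : E1) = ‖c‖ ^ 2 * qT f := by
  rw [qft_qT, qft_qT, map_smul, map_smul, norm_smul, norm_smul]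
  ring

theorem dT_mul_le (f : E1) (hf : f [] = 0) : dT * ‖f‖ ^ 2 ≤ qT f := by
  by_cases h0 : f = 0
  · subst h0
    rw [norm_zero]
    have := qft_nonneg (0 : E1)
    simpa using this
  · have hn : 0 < ‖f‖ := norm_pos_iff.2 h0
    have hc : ‖((‖f‖ : ℝ) : ℂ)⁻¹‖ = ‖f‖⁻¹ := by
      rw [norm_inv, Complex.norm_real, Real.norm_of_nonneg hn.le]
    have h1 : ‖(((‖f‖ : ℝ) : ℂ)⁻¹ • f : E1)‖ = 1 := by
      rw [norm_smul, hc, inv_mul_cancel₀ hn.ne']
    have h2 : dT ≤ qT (((‖f‖ : ℝ) : ℂ)⁻¹ • f : E1) := by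
      unfold dT
      refine csInf_le qft_bdd ⟨_, ?_, ?_, rfl⟩
      · rw [lp.coeFn_smul, Pi.smul_apply, hf, smul_zero]
      · have h3 := qft_hasSum (((‖f‖ : ℝ) : ℂ)⁻¹ • f : E1)
        rw [h1, one_pow] at h3
        exact h3
    rw [qft_smul, hc, inv_pow] at h2
    have hn2 : 0 < ‖f‖ ^ 2 := by positivity
    rw [inv_mul_eq_div, le_div_iff₀ hn2] at h2
    exact h2

theorem qT_le (f : E1) : qT f ≤ 32 * ‖f‖ ^ 2 := qft_le f

/-- near minimizers of finite support -/
theorem approx_T (ε : ℝ) (hε : 0 < ε) : ∃ f : E1, (∃ s : Finset (List Bool),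
    ∀ p, p ∉ s → f p = 0) ∧ f [] = 0 ∧ f ≠ 0 ∧ qT f < (dT + ε) * ‖f‖ ^ 2 := by
  have hne : {r : ℝ | ∃ f : List Bool → ℂ, f [] = 0 ∧
      HasSum (fun w => ‖f w‖ ^ 2) 1 ∧ r = qT f}.Nonempty := by
    refine ⟨_, (lp.single 2 [true] (1 : ℂ) : E1), ?_, ?_, rfl⟩
    · rw [lp.single_apply]
      exact Pi.single_eq_of_ne (by simp) _
    · have h3 := qft_hasSum (lp.single 2 [true] (1 : ℂ) : E1)
      rw [lp.norm_single (by norm_num), norm_one, one_pow] at h3
      exact h3
  obtain ⟨r, ⟨g, hg0, hg1, rfl⟩, hr⟩ := exists_lt_of_csInf_lt hne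
    (show sInf _ < dT + ε by
      have : sInf {r : ℝ | ∃ f : List Bool → ℂ, f [] = 0 ∧
        HasSum (fun w => ‖f w‖ ^ 2) 1 ∧ r = qT f} = dT := rfl
      rw [this]
      linarith)
  have hmem : Memℓp g 2 := by
    refine memℓp_gen ?_
    have h := hg1.summable
    simpa using h
  obtain ⟨f, hf⟩ : ∃ f : E1, (f : List Bool → ℂ) = g := ⟨⟨g, hmem⟩, rfl⟩
  have hfn : ‖f‖ ^ 2 = 1 := by
    have h := qft_hasSum f
    rw [hf] at h
    exact h.unique hg1
  -- truncations
  have hlim : Filter.Tendsto (fun s : Finset (List Bool) => ∑ w ∈ s, (lp.single 2 w (f w) : E1))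
      Filter.atTop (nhds f) := lp.hasSum_single (by norm_num) f
  have hcont : Continuous fun x : E1 => (dT + ε) * ‖x‖ ^ 2 - qT x := by
    have h1 : (fun x : E1 => (dT + ε) * ‖x‖ ^ 2 - qT x) =
        fun x : E1 => (dT + ε) * ‖x‖ ^ 2 -
          (‖(LT true - RT true) x‖ ^ 2 + ‖(LT false - RT false) x‖ ^ 2) := by
      funext x
      rw [qft_qT]
    rw [h1]
    have c1 := ((LT true - RT true).continuous).norm.pow 2
    have c2 := ((LT false - RT false).continuous).norm.pow 2
    exact (continuous_const.mul (continuous_norm.pow 2)).sub (c1.add c2)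
  have hpos : 0 < (dT + ε) * ‖f‖ ^ 2 - qT f := by
    rw [hfn, mul_one, hf]
    linarith
  have hev := ((hcont.tendsto f).comp hlim).eventually (lt_mem_nhds hpos)
  obtain ⟨s, hs⟩ := hev.exists
  have hval : ∀ p, (((∑ w ∈ s, (lp.single 2 w (f w) : E1)) : E1) : List Bool → ℂ) p =
      if p ∈ s then f p else 0 := by
    intro p
    rw [lp.coeFn_sum, Finset.sum_apply]
    by_cases hp : p ∈ s
    · rw [if_pos hp, Finset.sum_eq_single p]
      · exact lp.single_apply_self _ _ _
      · intro w _ hw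
        exact lp.single_apply_ne _ _ _ (fun h => hw h.symm)
      · intro h
        exact absurd hp h
    · rw [if_neg hp]
      refine Finset.sum_eq_zero fun w hw => ?_
      refine lp.single_apply_ne _ _ _ ?_
      rintro rfl
      exact hp hw
  refine ⟨∑ w ∈ s, (lp.single 2 w (f w) : E1), ⟨s, fun p hp => ?_⟩, ?_, ?_, ?_⟩
  · rw [hval, if_neg hp]
  · rw [hval, hf, hg0]
    split_ifs <;> rfl
  · intro h0
    rw [Function.comp_apply, h0] at hs
    have h1 := qft_nonneg (0 : E1)
    rw [norm_zero] at hs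
    linarith
  · rw [Function.comp_apply] at hs
    linarith

theorem norm_Om1 : ‖Om1‖ = 1 := by
  unfold Om1
  rw [lp.norm_single (by norm_num), norm_one]

theorem inner_Om1 (f : E1) : inner ℂ Om1 f = f [] := by
  unfold Om1
  rw [lp.inner_single_left]
  simp

private noncomputable def qftT : E1 →L[ℂ] E1 :=
  DT + ((dT : ℝ) : ℂ) • (innerSL ℂ Om1).smulRight Om1

private theorem qft_T_apply (x : E1) :
    qftT x = DT x + ((dT : ℝ) : ℂ) • ((inner ℂ Om1 x : ℂ) • Om1) := rfl

private theorem qft_T_sa : IsSelfAdjoint qftT := by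
  rw [ContinuousLinearMap.isSelfAdjoint_iff_isSymmetric]
  intro x y
  change inner ℂ (qftT x) y = inner ℂ x (qftT y)
  rw [qft_T_apply, qft_T_apply, inner_add_left, inner_add_right, qft_symm, inner_smul_left,
    inner_smul_left, inner_smul_right, inner_smul_right, Complex.conj_ofReal, inner_conj_symm]
  ring

private theorem qft_decomp (x : E1) : ∃ x' : E1, x' [] = 0 ∧
    (inner ℂ x (qftT x)).re = qT x' + dT * ‖x []‖ ^ 2 ∧ ‖x‖ ^ 2 = ‖x'‖ ^ 2 + ‖x []‖ ^ 2 := by
  obtain ⟨c, hc⟩ : ∃ c : ℂ, c = x [] := ⟨_, rfl⟩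
  obtain ⟨y, hy⟩ : ∃ y : E1, y = x - c • Om1 := ⟨_, rfl⟩
  have hy0 : inner ℂ Om1 y = 0 := by
    rw [hy, inner_sub_right, inner_smul_right, inner_Om1, inner_self_eq_norm_sq_to_K, norm_Om1,
      hc]
    simp
  have hy1 : inner ℂ y Om1 = 0 := by
    rw [← inner_conj_symm, hy0, map_zero]
  have hx : x = y + c • Om1 := by
    rw [hy, sub_add_cancel]
  have hnn : inner ℂ Om1 Om1 = (1 : ℂ) := by
    rw [inner_self_eq_norm_sq_to_K, norm_Om1]
    simp
  have hyn : y [] = 0 := by
    rw [← inner_Om1, hy0]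
  refine ⟨y, hyn, ?_, ?_⟩
  · have h1 : inner ℂ Om1 x = c := by rw [inner_Om1, hc]
    have h2 : DT x = DT y := by
      rw [hx, map_add, map_smul, DT_Om1, smul_zero, add_zero]
    have h3 : inner ℂ x (DT y) = inner ℂ y (DT y) := by
      conv_lhs => rw [hx]
      rw [inner_add_left, inner_smul_left, ← qft_symm Om1 y, DT_Om1, inner_zero_left, mul_zero,
        add_zero]
    have h4 : inner ℂ x Om1 = (starRingEnd ℂ) c := by
      rw [← inner_conj_symm, h1]
    rw [qft_T_apply, h1, h2, inner_add_right, h3, inner_smul_right, inner_smul_right, h4,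
      Complex.add_re, re_inner_DT, ← hc, Complex.mul_conj, Complex.normSq_eq_norm_sq,
      ← Complex.ofReal_mul, Complex.ofReal_re]
  · have h5 : ((‖x‖ ^ 2 : ℝ) : ℂ) = ((‖y‖ ^ 2 + ‖c‖ ^ 2 : ℝ) : ℂ) := by
      have h6 : inner ℂ x x = ((‖x‖ ^ 2 : ℝ) : ℂ) := by
        rw [inner_self_eq_norm_sq_to_K]
        norm_cast
      have h7 : inner ℂ y y = ((‖y‖ ^ 2 : ℝ) : ℂ) := by
        rw [inner_self_eq_norm_sq_to_K]
        norm_cast
      rw [← h6]
      conv_lhs => rw [hx]
      rw [inner_add_left, inner_add_right, inner_add_right, inner_smul_left, inner_smul_left,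
        inner_smul_right, inner_smul_right, hy0, hy1, hnn, h7, Complex.ofReal_add]
      have h8 : (starRingEnd ℂ) c * (c * 1) = ((‖c‖ ^ 2 : ℝ) : ℂ) := by
        rw [mul_one, mul_comm, Complex.mul_conj, Complex.normSq_eq_norm_sq]
      rw [h8]
      ring
    rw [← hc]
    exact_mod_cast h5

theorem poly_T (h : ℝ[X]) (M : ℝ) (hM : ∀ x ∈ Set.Icc dT KK, |h.eval x| ≤ M) (f : E1)
    (hf : f [] = 0) : ‖(aeval DT h) f‖ ≤ M * ‖f‖ := by
  have hK : KK = 1200 := rfl
  have hpow : ∀ k : ℕ, (qftT ^ k) f = (DT ^ k) f ∧ ((DT ^ k) f : E1) [] = 0 := by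
    intro k
    induction k with
    | zero => exact ⟨rfl, hf⟩
    | succ k ih =>
      constructor
      · rw [pow_succ', pow_succ', mul_apply_eq_comp, mul_apply_eq_comp,
          ih.1, qft_T_apply, inner_Om1, ih.2, zero_smul, smul_zero, add_zero]
      · rw [pow_succ', mul_apply_eq_comp, ← inner_Om1, ← qft_symm, DT_Om1,
          inner_zero_left]
  have haev : (aeval DT h) f = (aeval qftT h) f := by
    rw [aeval_eq_sum_range, aeval_eq_sum_range, sum_apply,
      sum_apply]
    refine Finset.sum_congr rfl fun k _ => ?_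
    rw [smul_apply, smul_apply, (hpow k).1]
  rw [haev]
  refine poly_bound qftT qft_T_sa dT KK ?_ ?_ ?_ h M hM f
  · rw [hK]
    exact dT_le.trans (by norm_num)
  · intro x
    obtain ⟨y, hy0, h1, h2⟩ := qft_decomp x
    rw [h1, h2, mul_add]
    have := dT_mul_le y hy0
    linarith
  · intro x
    obtain ⟨y, hy0, h1, h2⟩ := qft_decomp x
    rw [h1, h2, hK]
    have h3 := qT_le y
    have h4 := dT_le
    have h5 : 0 ≤ ‖y‖ ^ 2 := by positivity
    have h6 : dT * ‖x []‖ ^ 2 ≤ 32 * ‖x []‖ ^ 2 :=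
      mul_le_mul_of_nonneg_right h4 (by positivity)
    have h7 : 0 ≤ ‖x []‖ ^ 2 := by positivity
    nlinarith

end Pool.Agent.H55.ML
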