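/-
XC (DTleDC).  dT <= dC: the coarse bimodule is weakly contained in the trivial one.  Needs Lam, QfC, QfT, MomC, Indep.
About 220 lines.
PROOF.  Let m be large, k = m + 3, μ = cat (lam k) (cat e2 (lam k)) ∈ E1 (finite support).
(1) For |u|, |v| <= m: (ev LT u * ev RT v) μ = cat (ev L u lam) (cat e2 (ev R v lam)) (cL_cat, cR_cat step by step: after
j < m + 1 letters the functions still vanish at the empty word since lam k lives on words of length >= k - 2 = m + 1;
cat_assoc for the right action; e2 [] = 0 and cat e2 β [] = 0).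
(2) <μ, (ev LT u * ev RT v) μ> = <lam, ev LT u lam> <lam, ev RT v lam> = tau u tau v (inner_cat by bilinearity: μ is a
combination of cat (Ek i) (cat e2 (Ek j)), real coefficients; lam_left, lam_right).
(3) approx_C ε: f = sum over p ∈ s of a_p Vp' p (span_wv2, ev_C_apply), ‖f‖ ≠ 0, qC f < (dC + ε) ‖f‖².  Let
η = sum a_p (ev LT p.1 * ev RT p.2) μ.  By (2) with the adjoints (adjoint_ev_LT, adjoint_ev_RT, commutation):
‖η‖² = sum conj a_p a_q tau(st p.1 ++ q.1) tau(st p.2 ++ q.2) = ‖f‖² (inner_C), and in the same way, expanding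
DT = DDg (LT ..) (RT ..) and DCo = DDg (LC ..) (RC ..) by Expand.expand with h = X: <η, DT η> = <f, DCo f>, that is
qT η = qC f, if m >= 2 max |p| + 2.  η [] = 0 (all words have length >= 1).  dT ‖η‖² <= qT η = qC f < (dC + ε) ‖f‖²,
so dT < dC + ε.
-/
import Pool.Agent.H55.ML.Lam
import Pool.Agent.H55.ML.QfC
import Pool.Agent.H55.ML.QfT
import Pool.Agent.H55.ML.MomC
import Pool.Agent.H55.ML.Indep

namespace Pool.Agent.H55.ML
open Polynomial

/-- apply the left letters of a word -/
private def aL : List Bool → (List Bool → ℂ) → (List Bool → ℂ)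
  | [], f => f
  | b :: u, f => cL b (aL u f)

/-- apply the right letters of a word -/
private def aR : List Bool → (List Bool → ℂ) → (List Bool → ℂ)
  | [], f => f
  | b :: u, f => cR b (aR u f)

private lemma ev_LT_eq (u : List Bool) (f : E1) :
    (ev (LT true) (LT false) u f : List Bool → ℂ) = aL u f := by
  induction u with
  | nil => rw [ev_nil]; rfl
  | cons b u ih =>
    rw [ev_cons]
    have h : (cond b (LT true) (LT false) : E1 →L[ℂ] E1) = LT b := by cases b <;> rfl
    funext w
    rw [h, mul_apply_eq_comp, LT_apply, ih]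
    rfl

private lemma ev_RT_eq (u : List Bool) (f : E1) :
    (ev (RT true) (RT false) u f : List Bool → ℂ) = aR u f := by
  induction u with
  | nil => rw [ev_nil]; rfl
  | cons b u ih =>
    rw [ev_cons]
    have h : (cond b (RT true) (RT false) : E1 →L[ℂ] E1) = RT b := by cases b <;> rfl
    funext w
    rw [h, mul_apply_eq_comp, RT_apply, ih]
    rfl

/-- lower support bound -/
private lemma cL_low (b : Bool) (f : List Bool → ℂ) (K : ℕ) (h : ∀ w, w.length < K → f w = 0)
    (w : List Bool) (hw : w.length + 1 < K) : cL b f w = 0 := by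
  unfold cL
  rw [h ((!b) :: w) (by simpa using hw), add_zero]
  cases w with
  | nil => rfl
  | cons a w =>
    simp only [cre]
    rw [h w (by simp only [List.length_cons] at hw; omega)]
    simp

private lemma cR_low (b : Bool) (f : List Bool → ℂ) (K : ℕ) (h : ∀ w, w.length < K → f w = 0)
    (w : List Bool) (hw : w.length + 1 < K) : cR b f w = 0 := by
  unfold cR
  exact cL_low b _ K (fun w hw => h _ (by simpa using hw)) _ (by simpa using hw)

/-- upper support bound -/
private lemma cL_up (b : Bool) (f : List Bool → ℂ) (K : ℕ) (h : ∀ w, K < w.length → f w = 0)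
    (w : List Bool) (hw : K + 1 < w.length) : cL b f w = 0 := by
  unfold cL
  rw [h ((!b) :: w) (by simp only [List.length_cons]; omega), add_zero]
  cases w with
  | nil => rfl
  | cons a w =>
    simp only [cre]
    rw [h w (by simp only [List.length_cons] at hw; omega)]
    simp

private lemma cR_up (b : Bool) (f : List Bool → ℂ) (K : ℕ) (h : ∀ w, K < w.length → f w = 0)
    (w : List Bool) (hw : K + 1 < w.length) : cR b f w = 0 := by
  unfold cR
  exact cL_up b _ K (fun w hw => h _ (by simpa using hw)) _ (by simpa using hw)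

private lemma aL_low (u : List Bool) (f : List Bool → ℂ) (K : ℕ)
    (h : ∀ w, w.length < K → f w = 0) :
    ∀ w : List Bool, w.length + u.length < K → aL u f w = 0 := by
  induction u with
  | nil => intro w hw; exact h w (by simpa using hw)
  | cons b u ih =>
    intro w hw
    simp only [List.length_cons] at hw
    exact cL_low b _ (K - u.length) (fun w hw => ih w (by omega)) w (by omega)

private lemma aR_low (u : List Bool) (f : List Bool → ℂ) (K : ℕ)
    (h : ∀ w, w.length < K → f w = 0) :
    ∀ w : List Bool, w.length + u.length < K → aR u f w = 0 := by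
  induction u with
  | nil => intro w hw; exact h w (by simpa using hw)
  | cons b u ih =>
    intro w hw
    simp only [List.length_cons] at hw
    exact cR_low b _ (K - u.length) (fun w hw => ih w (by omega)) w (by omega)

private lemma aL_up (u : List Bool) (f : List Bool → ℂ) (K : ℕ)
    (h : ∀ w, K < w.length → f w = 0) :
    ∀ w : List Bool, K + u.length < w.length → aL u f w = 0 := by
  induction u with
  | nil => intro w hw; exact h w (by simpa using hw)
  | cons b u ih =>
    intro w hw
    simp only [List.length_cons] at hw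
    exact cL_up b _ (K + u.length) (fun w hw => ih w (by omega)) w (by omega)

private lemma aR_up (u : List Bool) (f : List Bool → ℂ) (K : ℕ)
    (h : ∀ w, K < w.length → f w = 0) :
    ∀ w : List Bool, K + u.length < w.length → aR u f w = 0 := by
  induction u with
  | nil => intro w hw; exact h w (by simpa using hw)
  | cons b u ih =>
    intro w hw
    simp only [List.length_cons] at hw
    exact cR_up b _ (K + u.length) (fun w hw => ih w (by omega)) w (by omega)

private lemma aL_cat (u : List Bool) (α β : List Bool → ℂ) (K : ℕ)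
    (h : ∀ w, w.length < K → α w = 0) (hu : u.length ≤ K) :
    aL u (cat α β) = cat (aL u α) β := by
  induction u with
  | nil => rfl
  | cons b u ih =>
    simp only [List.length_cons] at hu
    show cL b (aL u (cat α β)) = cat (cL b (aL u α)) β
    rw [ih (by omega)]
    exact cL_cat b _ _ (aL_low u α K h [] (by simp only [List.length_nil]; omega))

private lemma cat_nil_left (α β : List Bool → ℂ) : cat α β [] = α [] * β [] := by
  simp [cat]

private lemma aR_cat (u : List Bool) (α β : List Bool → ℂ) (K : ℕ)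
    (h : ∀ w, w.length < K → β w = 0) (hu : u.length ≤ K) :
    aR u (cat α β) = cat α (aR u β) := by
  induction u with
  | nil => rfl
  | cons b u ih =>
    simp only [List.length_cons] at hu
    show cR b (aR u (cat α β)) = cat α (cR b (aR u β))
    rw [ih (by omega)]
    exact cR_cat b _ _ (aR_low u β K h [] (by simp only [List.length_nil]; omega))

private lemma aR_cat2 (u : List Bool) (α β : List Bool → ℂ) (K : ℕ)
    (h : ∀ w, w.length < K → β w = 0) (hu : u.length ≤ K) :
    aR u (cat α (cat e2 β)) = cat α (cat e2 (aR u β)) := by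
  induction u with
  | nil => rfl
  | cons b u ih =>
    simp only [List.length_cons] at hu
    show cR b (aR u (cat α (cat e2 β))) = cat α (cat e2 (cR b (aR u β)))
    rw [ih (by omega), cR_cat b _ _ ?_, cR_cat b _ _ ?_]
    · exact aR_low u β K h [] (by simp only [List.length_nil]; omega)
    · rw [cat_nil_left]
      have : e2 [] = 0 := rfl
      rw [this, zero_mul]

private lemma e2_conj (w : List Bool) : (starRingEnd ℂ) (e2 w) = e2 w := by
  unfold e2
  split
  · exact Complex.conj_ofReal _
  · exact Complex.conj_ofReal _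
  · exact map_zero _

private lemma Ek_conj (k : ℕ) (w : List Bool) : (starRingEnd ℂ) (Ek k w) = Ek k w := by
  unfold Ek
  split_ifs
  · exact Complex.conj_ofReal _
  · exact map_zero _

private lemma lam_conj (k : ℕ) (w : List Bool) : (starRingEnd ℂ) (lam k w) = lam k w := by
  unfold lam
  rw [map_div₀, map_sub, Ek_conj, Ek_conj, Complex.conj_ofReal]

private lemma cat_conj (α β : List Bool → ℂ) (hα : ∀ w, (starRingEnd ℂ) (α w) = α w)
    (hβ : ∀ w, (starRingEnd ℂ) (β w) = β w) (w : List Bool) :
    (starRingEnd ℂ) (cat α β w) = cat α β w := by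
  unfold cat
  rw [map_sum]
  exact Finset.sum_congr rfl fun i _ => by rw [map_mul, hα, hβ]

private lemma cat_lin_left (c : ℂ) (α α' β : List Bool → ℂ) (w : List Bool) :
    cat (fun w => c * (α w - α' w)) β w = c * (cat α β w - cat α' β w) := by
  unfold cat
  rw [← Finset.sum_sub_distrib, Finset.mul_sum]
  exact Finset.sum_congr rfl fun i _ => by ring

private lemma cat_lin_right (c : ℂ) (α β β' : List Bool → ℂ) (w : List Bool) :
    cat α (fun w => c * (β w - β' w)) w = c * (cat α β w - cat α β' w) := by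
  unfold cat
  rw [← Finset.sum_sub_distrib, Finset.mul_sum]
  exact Finset.sum_congr rfl fun i _ => by ring

private lemma lam_eq (k : ℕ) :
    lam k = fun w => (1 / (Real.sqrt 2 : ℂ)) * (Ek k w - Ek (k - 2) w) := by
  funext w
  unfold lam
  ring

private lemma mu_eq (k : ℕ) (w : List Bool) :
    cat (lam k) (cat e2 (lam k)) w = (1 / (Real.sqrt 2 : ℂ)) * (1 / (Real.sqrt 2 : ℂ)) *
      (cat (Ek k) (cat e2 (Ek k)) w - cat (Ek k) (cat e2 (Ek (k - 2))) w
        - cat (Ek (k - 2)) (cat e2 (Ek k)) w + cat (Ek (k - 2)) (cat e2 (Ek (k - 2))) w) := by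
  have h : cat e2 (lam k) = fun w => (1 / (Real.sqrt 2 : ℂ)) *
      (cat e2 (Ek k) w - cat e2 (Ek (k - 2)) w) := by
    funext w
    rw [lam_eq, cat_lin_right]
  rw [h, cat_lin_right, lam_eq, cat_lin_left, cat_lin_left]
  ring

private lemma lam_low (m k : ℕ) (hk : k = m + 3) (w : List Bool) (hw : w.length < m + 1) :
    lam k w = 0 := by
  unfold lam Ek
  rw [if_neg (by omega), if_neg (by omega)]
  simp

private lemma lam_up (k : ℕ) (w : List Bool) (hw : k < w.length) : lam k w = 0 := by
  unfold lam Ek
  rw [if_neg (by omega), if_neg (by omega)]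
  simp

private lemma tsum_fin (M : ℕ) (g : List Bool → ℂ) (h : ∀ w, M < w.length → g w = 0) :
    ∑' w, g w = ∑ w ∈ (List.finite_length_le Bool M).toFinset, g w := by
  refine tsum_eq_sum fun w hw => h w ?_
  rw [Set.Finite.mem_toFinset] at hw
  simpa using hw

private lemma tsum_lam (k M : ℕ) (α : List Bool → ℂ) (h : ∀ w, M < w.length → α w = 0) :
    ∑' x, lam k x * α x = (1 / (Real.sqrt 2 : ℂ)) *
      (∑' x, Ek k x * α x - ∑' x, Ek (k - 2) x * α x) := by
  rw [tsum_fin M _ (fun w hw => by rw [h w hw, mul_zero]),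
    tsum_fin M (fun x => Ek k x * α x) (fun w hw => by rw [h w hw, mul_zero]),
    tsum_fin M (fun x => Ek (k - 2) x * α x) (fun w hw => by rw [h w hw, mul_zero]),
    ← Finset.sum_sub_distrib, Finset.mul_sum]
  refine Finset.sum_congr rfl fun w _ => ?_
  rw [lam_eq]
  ring

private lemma coord_mu (m k : ℕ) (hk : k = m + 3) (μ : E1)
    (hμ : (μ : List Bool → ℂ) = cat (lam k) (cat e2 (lam k))) (u v : List Bool)
    (hu : u.length ≤ m) (hv : v.length ≤ m) :
    ((ev (LT true) (LT false) u * ev (RT true) (RT false) v) μ : List Bool → ℂ)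
      = cat (aL u (lam k)) (cat e2 (aR v (lam k))) := by
  rw [mul_apply_eq_comp, ev_LT_eq, ev_RT_eq, hμ,
    aR_cat2 v _ _ (m + 1) (lam_low m k hk) (by omega),
    aL_cat u _ _ (m + 1) (lam_low m k hk) (by omega)]

theorem inner_mu (m k : ℕ) (hk : k = m + 3) (μ : E1)
    (hμ : (μ : List Bool → ℂ) = cat (lam k) (cat e2 (lam k))) (u v : List Bool)
    (hu : u.length ≤ m) (hv : v.length ≤ m) :
    inner ℂ μ ((ev (LT true) (LT false) u * ev (RT true) (RT false) v) μ)
      = ((tau u * tau v : ℝ) : ℂ) := by
  obtain ⟨f, hf⟩ := exists_lam k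
  have hup := lam_up k
  set α := aL u (lam k) with hα
  set β := aR v (lam k) with hβ
  have hc : ((ev (LT true) (LT false) u * ev (RT true) (RT false) v) μ : List Bool → ℂ)
      = cat α (cat e2 β) := coord_mu m k hk μ hμ u v hu hv
  have hαup : ∀ w : List Bool, k + m < w.length → α w = 0 := fun w hw =>
    aL_up u _ k hup w (by omega)
  have hβup : ∀ w : List Bool, k + m < w.length → β w = 0 := fun w hw =>
    aR_up v _ k hup w (by omega)
  have he2up : ∀ w : List Bool, k + m < w.length → e2 w = 0 := by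
    intro w hw
    match w, hw with
    | [], _ => rfl
    | [a], hw => simp only [List.length_singleton] at hw; omega
    | a :: b :: w, _ => cases a <;> rfl
  have h1 : ∀ w : List Bool, 2 * (k + m) < w.length → cat e2 β w = 0 :=
    cat_supp e2 β (k + m) he2up hβup
  have hgup : ∀ w : List Bool, 2 * (2 * (k + m)) < w.length → cat α (cat e2 β) w = 0 :=
    cat_supp α (cat e2 β) (2 * (k + m)) (fun w hw => hαup w (by omega)) h1
  have hin : inner ℂ μ ((ev (LT true) (LT false) u * ev (RT true) (RT false) v) μ)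
      = ∑' w, cat (lam k) (cat e2 (lam k)) w * cat α (cat e2 β) w := by
    rw [lp.inner_eq_tsum]
    refine tsum_congr fun w => ?_
    rw [hc, hμ, RCLike.inner_apply, cat_conj _ _ (lam_conj k)
      (cat_conj _ _ e2_conj (lam_conj k)), mul_comm]
  have hA : ∑' x, lam k x * α x = (tau u : ℂ) := by
    rw [← lam_left k u (by omega) f hf, lp.inner_eq_tsum]
    refine tsum_congr fun w => ?_
    rw [ev_LT_eq, hf, RCLike.inner_apply, lam_conj, mul_comm]
  have hB : ∑' x, lam k x * β x = (tau v : ℂ) := by
    rw [← lam_right k v (by omega) f hf, lp.inner_eq_tsum]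
    refine tsum_congr fun w => ?_
    rw [ev_RT_eq, hf, RCLike.inner_apply, lam_conj, mul_comm]
  rw [tsum_lam k (k + m) α hαup] at hA
  rw [tsum_lam k (k + m) β hβup] at hB
  have hI := fun i j => inner_cat i j α β (k + m) hαup hβup
  rw [hin, Complex.ofReal_mul, ← hA, ← hB]
  have h4 : ∀ i j, ∑ w ∈ (List.finite_length_le Bool (2 * (2 * (k + m)))).toFinset,
      cat (Ek i) (cat e2 (Ek j)) w * cat α (cat e2 β) w
      = (∑' x, Ek i x * α x) * (∑' y, Ek j y * β y) := by
    intro i j
    rw [← hI i j, tsum_fin _ _ (fun w hw => by rw [hgup w hw, mul_zero])]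
  rw [tsum_fin (2 * (2 * (k + m))) _ (fun w hw => by rw [hgup w hw, mul_zero])]
  have h5 : ∀ w, cat (lam k) (cat e2 (lam k)) w * cat α (cat e2 β) w =
      (1 / (Real.sqrt 2 : ℂ)) * (1 / (Real.sqrt 2 : ℂ)) *
      (cat (Ek k) (cat e2 (Ek k)) w * cat α (cat e2 β) w
        - cat (Ek k) (cat e2 (Ek (k - 2))) w * cat α (cat e2 β) w
        - cat (Ek (k - 2)) (cat e2 (Ek k)) w * cat α (cat e2 β) w
        + cat (Ek (k - 2)) (cat e2 (Ek (k - 2))) w * cat α (cat e2 β) w) := by
    intro w
    rw [mu_eq]
    ring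
  simp only [h5]
  rw [← Finset.mul_sum, Finset.sum_add_distrib, Finset.sum_sub_distrib, Finset.sum_sub_distrib,
    h4, h4, h4, h4]
  ring

/-- the product of the moments of two pairs of words -/
private noncomputable def GG (p q : List Bool × List Bool) : ℂ :=
  ((tau (st p.1 ++ q.1) * tau (st p.2 ++ q.2) : ℝ) : ℂ)

private noncomputable def WT (p : List Bool × List Bool) : E1 →L[ℂ] E1 :=
  ev (LT true) (LT false) p.1 * ev (RT true) (RT false) p.2

private noncomputable def WC (p : List Bool × List Bool) : E2 →L[ℂ] E2 :=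
  ev (LC true) (LC false) p.1 * ev (RC true) (RC false) p.2

private lemma commute_ev1 {A : Type} [Ring A] {l l' x : A} (h1 : Commute l x)
    (h2 : Commute l' x) (u : List Bool) : Commute (ev l l' u) x := by
  induction u with
  | nil => rw [ev_nil]; exact Commute.one_left x
  | cons b u ih =>
    rw [ev_cons]
    refine Commute.mul_left ?_ ih
    cases b
    · exact h2
    · exact h1

private lemma commute_ev2 {A : Type} [Ring A] {l l' r r' : A} (h1 : Commute l r)
    (h2 : Commute l r') (h3 : Commute l' r) (h4 : Commute l' r') (u v : List Bool) :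
    Commute (ev l l' u) (ev r r' v) := by
  refine commute_ev1 ?_ ?_ u
  · exact (commute_ev1 h1.symm h2.symm v).symm
  · exact (commute_ev1 h3.symm h4.symm v).symm

private lemma word_mul {A : Type} [Ring A] {l l' r r' : A} (h1 : Commute l r)
    (h2 : Commute l r') (h3 : Commute l' r) (h4 : Commute l' r') (p q : List Bool × List Bool) :
    (ev l l' p.1 * ev r r' p.2) * (ev l l' q.1 * ev r r' q.2)
      = ev l l' (p.1 ++ q.1) * ev r r' (p.2 ++ q.2) := by
  rw [ev_append, ev_append]
  have h := (commute_ev2 h1 h2 h3 h4 q.1 p.2).eq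
  calc _ = ev l l' p.1 * (ev r r' p.2 * ev l l' q.1) * ev r r' q.2 := by
        simp only [mul_assoc]
    _ = ev l l' p.1 * (ev l l' q.1 * ev r r' p.2) * ev r r' q.2 := by rw [h]
    _ = _ := by simp only [mul_assoc]

private lemma WT_mul (p q : List Bool × List Bool) :
    WT p * WT q = WT (p.1 ++ q.1, p.2 ++ q.2) :=
  word_mul (commute_LT_RT _ _) (commute_LT_RT _ _) (commute_LT_RT _ _) (commute_LT_RT _ _) p q

private lemma WC_mul (p q : List Bool × List Bool) :
    WC p * WC q = WC (p.1 ++ q.1, p.2 ++ q.2) :=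
  word_mul (commute_LC_RC _ _) (commute_LC_RC _ _) (commute_LC_RC _ _) (commute_LC_RC _ _) p q

private lemma length_st (w : List Bool) : (st w).length = w.length := by
  simp [st]

private lemma inner_WT (m k : ℕ) (hk : k = m + 3) (μ : E1)
    (hμ : (μ : List Bool → ℂ) = cat (lam k) (cat e2 (lam k))) (p q : List Bool × List Bool)
    (h1 : p.1.length + q.1.length ≤ m) (h2 : p.2.length + q.2.length ≤ m) :
    inner ℂ (WT p μ) (WT q μ) = GG p q := by
  have hadj : inner ℂ (WT p μ) (WT q μ) = inner ℂ μ ((WT (st p.1, st p.2) * WT q) μ) := by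
    have h3 : WT p μ = ev (LT true) (LT false) p.1 (ev (RT true) (RT false) p.2 μ) := rfl
    have h4 : (WT (st p.1, st p.2) * WT q) μ
        = ev (RT true) (RT false) (st p.2) (ev (LT true) (LT false) (st p.1) (WT q μ)) := by
      have h5 : WT (st p.1, st p.2)
          = ev (RT true) (RT false) (st p.2) * ev (LT true) (LT false) (st p.1) :=
        (commute_ev2 (commute_LT_RT _ _) (commute_LT_RT _ _) (commute_LT_RT _ _)
          (commute_LT_RT _ _) (st p.1) (st p.2)).eq
      rw [h5]
      rfl
    rw [h4, ← adjoint_ev_RT, ContinuousLinearMap.adjoint_inner_right, ← adjoint_ev_LT,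
      ContinuousLinearMap.adjoint_inner_right, h3]
  rw [hadj, WT_mul]
  exact inner_mu m k hk μ hμ _ _
    (by simp only [List.length_append, length_st]; exact h1)
    (by simp only [List.length_append, length_st]; exact h2)

private lemma form_eq {H : Type*} [NormedAddCommGroup H] [InnerProductSpace ℂ H]
    (V : List Bool × List Bool → H) (D : H →L[ℂ] H) (s : Finset (List Bool × List Bool))
    (a : List Bool × List Bool → ℂ) (c : (List Bool × List Bool) →₀ ℝ)
    (hI : ∀ p ∈ s, ∀ q ∈ s, inner ℂ (V p) (V q) = GG p q)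
    (hD : ∀ q ∈ s, D (V q) = ∑ r ∈ c.support, (c r : ℂ) • V (r.1 ++ q.1, r.2 ++ q.2))
    (hI2 : ∀ p ∈ s, ∀ q ∈ s, ∀ r ∈ c.support,
      inner ℂ (V p) (V (r.1 ++ q.1, r.2 ++ q.2)) = GG p (r.1 ++ q.1, r.2 ++ q.2)) :
    inner ℂ (∑ p ∈ s, a p • V p) (∑ p ∈ s, a p • V p)
      = ∑ p ∈ s, ∑ q ∈ s, (starRingEnd ℂ) (a p) * (a q * GG p q) ∧
    inner ℂ (∑ p ∈ s, a p • V p) (D (∑ p ∈ s, a p • V p))
      = ∑ p ∈ s, ∑ q ∈ s, (starRingEnd ℂ) (a p) *
          (a q * ∑ r ∈ c.support, (c r : ℂ) * GG p (r.1 ++ q.1, r.2 ++ q.2)) := by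
  constructor
  · rw [sum_inner]
    refine Finset.sum_congr rfl fun p hp => ?_
    rw [inner_smul_left, inner_sum, Finset.mul_sum]
    refine Finset.sum_congr rfl fun q hq => ?_
    rw [inner_smul_right, hI p hp q hq]
  · rw [sum_inner]
    refine Finset.sum_congr rfl fun p hp => ?_
    rw [inner_smul_left, map_sum, inner_sum, Finset.mul_sum]
    refine Finset.sum_congr rfl fun q hq => ?_
    rw [map_smul, inner_smul_right, hD q hq, inner_sum]
    congr 2
    refine Finset.sum_congr rfl fun r hr => ?_
    rw [inner_smul_right, hI2 p hp q hq r hr]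

private lemma exists_mu (k : ℕ) (hk : 1 ≤ k) :
    ∃ μ : E1, (μ : List Bool → ℂ) = cat (lam k) (cat e2 (lam k)) := by
  have he2up : ∀ w : List Bool, k < w.length → e2 w = 0 := by
    intro w hw
    match w, hw with
    | [], _ => rfl
    | [a], hw => simp only [List.length_singleton] at hw; omega
    | a :: b :: w, _ => cases a <;> rfl
  have h1 : ∀ w : List Bool, 2 * k < w.length → cat e2 (lam k) w = 0 :=
    cat_supp e2 (lam k) k he2up (lam_up k)
  have h2 : ∀ w : List Bool, 2 * (2 * k) < w.length → cat (lam k) (cat e2 (lam k)) w = 0 :=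
    cat_supp _ _ (2 * k) (fun w hw => lam_up k w (by omega)) h1
  have h3 : Memℓp (cat (lam k) (cat e2 (lam k))) 2 := by
    refine Memℓp.of_exponent_ge (memℓp_zero ?_) zero_le
    refine (List.finite_length_le Bool (2 * (2 * k))).subset fun w hw => ?_
    by_contra hcon
    exact hw (h2 w (by simpa using hcon))
  exact ⟨⟨_, h3⟩, rfl⟩

private lemma DT_apply_sum (c : (List Bool × List Bool) →₀ ℝ)
    (hc : ∀ (A : Type) [Ring A] [Algebra ℝ A] (l l' r r' : A),
      Commute l r → Commute l r' → Commute l' r → Commute l' r' →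
      aeval (DDg l l' r r') (X : ℝ[X]) = c.sum fun p t => t • (ev l l' p.1 * ev r r' p.2))
    (x : E1) (q : List Bool × List Bool) :
    DT (WT q x) = ∑ r ∈ c.support, (c r : ℂ) • WT (r.1 ++ q.1, r.2 ++ q.2) x := by
  have h := hc (E1 →L[ℂ] E1) (LT true) (LT false) (RT true) (RT false) (commute_LT_RT _ _)
    (commute_LT_RT _ _) (commute_LT_RT _ _) (commute_LT_RT _ _)
  rw [aeval_X] at h
  have h' : DT = ∑ r ∈ c.support, c r • WT r := h
  rw [h', sum_apply]
  refine Finset.sum_congr rfl fun r _ => ?_
  rw [← WT_mul]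
  rfl

private lemma DC_apply_sum (c : (List Bool × List Bool) →₀ ℝ)
    (hc : ∀ (A : Type) [Ring A] [Algebra ℝ A] (l l' r r' : A),
      Commute l r → Commute l r' → Commute l' r → Commute l' r' →
      aeval (DDg l l' r r') (X : ℝ[X]) = c.sum fun p t => t • (ev l l' p.1 * ev r r' p.2))
    (x : E2) (q : List Bool × List Bool) :
    DCo (WC q x) = ∑ r ∈ c.support, (c r : ℂ) • WC (r.1 ++ q.1, r.2 ++ q.2) x := by
  have h := hc (E2 →L[ℂ] E2) (LC true) (LC false) (RC true) (RC false) (commute_LC_RC _ _)
    (commute_LC_RC _ _) (commute_LC_RC _ _) (commute_LC_RC _ _)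
  rw [aeval_X] at h
  have h' : DCo = ∑ r ∈ c.support, c r • WC r := h
  rw [h', sum_apply]
  refine Finset.sum_congr rfl fun r _ => ?_
  rw [← WC_mul]
  rfl

private lemma f_expand (f : E2) (s : Finset (List Bool × List Bool))
    (hs : ∀ p, p ∉ s → f p = 0) : ∃ a : (List Bool × List Bool) →₀ ℂ,
    f = ∑ p ∈ a.support, a p • WC p Om2 := by
  classical
  obtain ⟨a, ha⟩ := span_wv2 (Finsupp.onFinset s f (fun p hp => by
    by_contra h
    exact hp (hs p h)))
  refine ⟨a, ?_⟩
  refine lp.ext ?_
  funext p
  obtain ⟨x, y⟩ := p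
  have h1 := ha x y
  rw [Finsupp.onFinset_apply] at h1
  rw [h1, lp.coeFn_sum, Finset.sum_apply, Finsupp.sum]
  refine Finset.sum_congr rfl fun p _ => ?_
  rw [lp.coeFn_smul, Pi.smul_apply, smul_eq_mul]
  unfold WC
  rw [ev_C_apply]

theorem dT_le_dC : dT ≤ dC := by
  refine le_of_forall_pos_le_add fun ε hε => ?_
  obtain ⟨f, ⟨s, hs⟩, hf0, hf⟩ := approx_C ε hε
  obtain ⟨a, ha⟩ := f_expand f s hs
  obtain ⟨c, hc, hexp⟩ := expand (X : ℝ[X])
  set N := a.support.sup (fun p => p.1.length + p.2.length) with hN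
  have hNle : ∀ p ∈ a.support, p.1.length + p.2.length ≤ N := fun p hp =>
    Finset.le_sup (f := fun p : List Bool × List Bool => p.1.length + p.2.length) hp
  have hc2 : ∀ p ∈ c.support, p.1.length + p.2.length ≤ 2 := fun p hp => by
    have := hc p hp
    rw [natDegree_X] at this
    omega
  set m := 2 * N + 2 with hm
  obtain ⟨μ, hμ⟩ := exists_mu (m + 3) (by omega)
  set η : E1 := ∑ p ∈ a.support, a p • WT p μ with hη
  have hT := form_eq (fun p => WT p μ) DT a.support a c
    (fun p hp q hq => inner_WT m (m + 3) rfl μ hμ p q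
      (by have := hNle p hp; have := hNle q hq; omega)
      (by have := hNle p hp; have := hNle q hq; omega))
    (fun q _ => DT_apply_sum c hexp μ q)
    (fun p hp q hq r hr => inner_WT m (m + 3) rfl μ hμ p _
      (by have := hNle p hp; have := hNle q hq; have := hc2 r hr
          simp only [List.length_append]; omega)
      (by have := hNle p hp; have := hNle q hq; have := hc2 r hr
          simp only [List.length_append]; omega))
  have hC := form_eq (fun p => WC p Om2) DCo a.support a c
    (fun p _ q _ => inner_C p.1 p.2 q.1 q.2)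
    (fun q _ => DC_apply_sum c hexp Om2 q)
    (fun p _ q _ r _ => inner_C p.1 p.2 (r.1 ++ q.1) (r.2 ++ q.2))
  simp only [← hη] at hT
  simp only [← ha] at hC
  have e1 : (inner ℂ η η : ℂ) = inner ℂ f f := hT.1.trans hC.1.symm
  have e3 : (inner ℂ η (DT η) : ℂ) = inner ℂ f (DCo f) := hT.2.trans hC.2.symm
  have n1 : ‖η‖ ^ 2 = ‖f‖ ^ 2 := by
    rw [inner_self_eq_norm_sq_to_K, inner_self_eq_norm_sq_to_K] at e1
    exact_mod_cast e1
  have n2 : qT η = qC f := by
    rw [← re_inner_DT, ← re_inner_DCo, e3]
  have hz : η [] = 0 := by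
    rw [hη, lp.coeFn_sum, Finset.sum_apply]
    refine Finset.sum_eq_zero fun p hp => ?_
    rw [lp.coeFn_smul, Pi.smul_apply, smul_eq_mul]
    unfold WT
    rw [coord_mu m (m + 3) rfl μ hμ p.1 p.2 (by have := hNle p hp; omega)
      (by have := hNle p hp; omega), cat_nil_left, cat_nil_left]
    have : e2 [] = 0 := rfl
    rw [this, zero_mul, mul_zero, mul_zero]
  have hpos : 0 < ‖f‖ ^ 2 := by
    have : 0 < ‖f‖ := norm_pos_iff.2 hf0
    positivity
  have h1 := dT_mul_le η hz
  rw [n1, n2] at h1
  exact (lt_of_mul_lt_mul_right (h1.trans_lt hf) hpos.le).le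

end Pool.Agent.H55.ML
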