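/-
L4a (DetS).  A deterministic inequality.  Needs Opn, KV (hs2_eq_trace).  About 80 lines.
PROOF.  hs2 F = Re Tr(Fᴴ F) = Re Tr((F-G)ᴴ F) + Re Tr(Gᴴ F).
First term: entrywise |x y| <= |x|² + |y|²/4, so it is <= hs2 (F - G) + hs2 F / 4.
Second term: <= sum |c_i| p <= sum (γ |c_i|²/8 + 2 p²/γ) <= hs2 G / 8 + 2 card p²/γ, and
hs2 G <= 2 hs2 F + 2 hs2 (F - G).  Together hs2 F / 2 <= (5/4) hs2 (F - G) + 2 card p²/γ.
-/
import Pool.Agent.H55.ML.Opn
import Pool.Agent.H55.ML.KV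

namespace Pool.Agent.H55.ML
open Matrix

private lemma re_trace_le {ι : Type} [Fintype ι] (A B : Matrix ι ι ℂ) :
    ((Aᴴ * B).trace).re ≤ hs2 A + hs2 B / 4 := by
  have h1 : (Aᴴ * B).trace = ∑ j, ∑ i, star (A i j) * B i j := by
    simp only [Matrix.trace, Matrix.diag_apply, Matrix.mul_apply, Matrix.conjTranspose_apply]
  have h2 : (Aᴴ * B).trace = ∑ i, ∑ j, star (A i j) * B i j := by
    rw [h1, Finset.sum_comm]
  rw [h2]
  unfold hs2
  rw [Complex.re_sum, Finset.sum_div, ← Finset.sum_add_distrib]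
  refine Finset.sum_le_sum fun i _ => ?_
  rw [Complex.re_sum, Finset.sum_div, ← Finset.sum_add_distrib]
  refine Finset.sum_le_sum fun j _ => ?_
  have h3 : (star (A i j) * B i j).re ≤ ‖A i j‖ * ‖B i j‖ := by
    refine (Complex.re_le_norm _).trans ?_
    rw [norm_mul, norm_star]
  nlinarith [sq_nonneg (‖A i j‖ - ‖B i j‖ / 2), h3]

theorem det_small {ι α : Type} [Fintype ι] [DecidableEq ι] (F G : Matrix ι ι ℂ) (s : Finset α)
    (Φ : α → Matrix ι ι ℂ) (c : α → ℂ) (hG : G = ∑ a ∈ s, c a • Φ a) (γ p : ℝ) (hγ : 0 < γ)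
    (hp0 : 0 ≤ p) (hc : γ * ∑ a ∈ s, ‖c a‖ ^ 2 ≤ hs2 G)
    (hp : ∀ a ∈ s, ‖((Φ a)ᴴ * F).trace‖ ≤ p) :
    hs2 F ≤ 4 * hs2 (F - G) + 4 * s.card * p ^ 2 / γ := by
  have hF : hs2 F = (((F - G)ᴴ * F).trace).re + ((Gᴴ * F).trace).re := by
    have h1 : ((hs2 F : ℝ) : ℂ) = ((F - G)ᴴ * F).trace + (Gᴴ * F).trace := by
      rw [hs2_eq_trace, ← Matrix.trace_add, ← Matrix.add_mul, ← Matrix.conjTranspose_add,
        sub_add_cancel]
    have h2 := congrArg Complex.re h1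
    rwa [Complex.ofReal_re, Complex.add_re] at h2
  have h1 := re_trace_le (F - G) F
  have h2 : ((Gᴴ * F).trace).re ≤ γ * (∑ a ∈ s, ‖c a‖ ^ 2) / 8 + 2 * s.card * p ^ 2 / γ := by
    have e1 : (Gᴴ * F).trace = ∑ a ∈ s, star (c a) * ((Φ a)ᴴ * F).trace := by
      rw [hG, Matrix.conjTranspose_sum, Finset.sum_mul, Matrix.trace_sum]
      refine Finset.sum_congr rfl fun a _ => ?_
      rw [Matrix.conjTranspose_smul, Matrix.smul_mul, Matrix.trace_smul, smul_eq_mul]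
    rw [e1, Complex.re_sum]
    have e2 : ∀ a ∈ s, (star (c a) * ((Φ a)ᴴ * F).trace).re ≤
        γ * ‖c a‖ ^ 2 / 8 + 2 * p ^ 2 / γ := by
      intro a ha
      have e3 : (star (c a) * ((Φ a)ᴴ * F).trace).re ≤ ‖c a‖ * p := by
        refine (Complex.re_le_norm _).trans ?_
        rw [norm_mul, norm_star]
        exact mul_le_mul_of_nonneg_left (hp a ha) (norm_nonneg _)
      have e4 : γ * (2 * p ^ 2 / γ) = 2 * p ^ 2 := by field_simp
      have e5 : ‖c a‖ * p ≤ γ * ‖c a‖ ^ 2 / 8 + 2 * p ^ 2 / γ := by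
        have e6 : 0 ≤ (γ * ‖c a‖ - 4 * p) ^ 2 := sq_nonneg _
        have e7 : γ * (‖c a‖ * p) ≤ γ * (γ * ‖c a‖ ^ 2 / 8 + 2 * p ^ 2 / γ) := by
          rw [mul_add, e4]
          nlinarith [e6]
        exact le_of_mul_le_mul_left e7 hγ
      exact e3.trans e5
    refine (Finset.sum_le_sum e2).trans ?_
    rw [Finset.sum_add_distrib, Finset.sum_const, nsmul_eq_mul, ← Finset.sum_div, ← Finset.mul_sum]
    apply le_of_eq
    ring
  have h3 : hs2 G ≤ 2 * hs2 F + 2 * hs2 (F - G) := by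
    have := hs2_sub_le F (F - G)
    rwa [sub_sub_cancel] at this
  have h4 : 4 * (s.card : ℝ) * p ^ 2 / γ = 2 * (2 * s.card * p ^ 2 / γ) := by ring
  rw [h4]
  have h5 := hs2_nonneg (F - G)
  have h6 : γ * (∑ a ∈ s, ‖c a‖ ^ 2) / 8 ≤ hs2 G / 8 := by linarith
  linarith

end Pool.Agent.H55.ML
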