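/-
HC2 (HSLip).  Hilbert-Schmidt Lipschitz estimate with few low eigenvalues.  About 150 lines.
PROOF.  Spectral decompositions (Herm.psb_spectral) D = U diag(λ) U*, D' = V diag(μ) V*, W = U* V unitary,
p_ij = |W i j|^2.  For every polynomial f: f(D) - f(D') = U (diag f(λ) W - W diag f(μ)) V*, hence
hs2 (f(D) - f(D')) = sum_ij (f(λ_i) - f(μ_j))^2 p_ij
<= L sum_ij (G(λ_i) + G(μ_j)) (λ_i - μ_j)^2 p_ij + e sum_ij p_ij, and sum_ij p_ij = card ι.
sum_j (λ_i - μ_j)^2 p_ij = nv of the i-th row of U* (D - D') V <= opn(D - D')^2  (f = X in the formula above: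
it is the i-th row of  diag(λ) W - W diag(μ) = U* (D - D') V), similarly for columns.
G(λ_i) >= 0.  sum_i G(λ_i) = trace G(D).
-/
import Pool.Agent.H55.ML.Herm

namespace Pool.Agent.H55.ML
open Matrix Polynomial

variable {ι : Type*} [Fintype ι] [DecidableEq ι]

omit [DecidableEq ι] in
private lemma HSLip_dot_self (v : ι → ℂ) : star v ⬝ᵥ v = ((nv v : ℝ) : ℂ) := by
  unfold nv dotProduct
  rw [Complex.ofReal_sum]
  refine Finset.sum_congr rfl fun i _ => ?_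
  rw [Pi.star_apply, RCLike.star_def, ← Complex.normSq_eq_conj_mul_self, Complex.normSq_eq_norm_sq]

private lemma HSLip_nv_unitary {U : Matrix ι ι ℂ} (hU : Uᴴ * U = 1) (v : ι → ℂ) :
    nv (U *ᵥ v) = nv v := by
  have h : ((nv (U *ᵥ v) : ℝ) : ℂ) = ((nv v : ℝ) : ℂ) := by
    rw [← HSLip_dot_self, ← HSLip_dot_self, Matrix.star_mulVec, ← Matrix.dotProduct_mulVec,
      Matrix.mulVec_mulVec, hU, Matrix.one_mulVec]
  exact_mod_cast h

private lemma HSLip_opn_unitary {U : Matrix ι ι ℂ} (hU : Uᴴ * U = 1) : opn U ≤ 1 := by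
  refine opn_le_of U 1 zero_le_one fun v => ?_
  rw [HSLip_nv_unitary hU, one_pow, one_mul]

private lemma HSLip_nv_single (i : ι) : nv (Pi.single i (1 : ℂ)) = 1 := by
  unfold nv
  rw [Finset.sum_eq_single i]
  · simp
  · intro b _ hb
    rw [Pi.single_eq_of_ne hb]; simp
  · intro h; exact absurd (Finset.mem_univ i) h

/-- a column has norm at most the operator norm -/
private lemma HSLip_col (A : Matrix ι ι ℂ) (j : ι) : ∑ i, ‖A i j‖ ^ 2 ≤ opn A ^ 2 := by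
  have h := nv_mulVec_le A (Pi.single j (1 : ℂ))
  rw [HSLip_nv_single, mul_one, Matrix.mulVec_single_one] at h
  exact h

/-- a row has norm at most the operator norm -/
private lemma HSLip_row (A : Matrix ι ι ℂ) (i : ι) : ∑ j, ‖A i j‖ ^ 2 ≤ opn A ^ 2 := by
  have h := HSLip_col Aᴴ i
  rw [opn_conjTranspose] at h
  refine le_trans (le_of_eq ?_) h
  refine Finset.sum_congr rfl fun j _ => ?_
  rw [Matrix.conjTranspose_apply, norm_star]

private lemma HSLip_hs2_trace (A : Matrix ι ι ℂ) : ((hs2 A : ℝ) : ℂ) = (Aᴴ * A).trace := by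
  unfold hs2 Matrix.trace
  rw [Finset.sum_comm, Complex.ofReal_sum]
  refine Finset.sum_congr rfl fun j _ => ?_
  rw [Matrix.diag_apply, Matrix.mul_apply, Complex.ofReal_sum]
  refine Finset.sum_congr rfl fun i _ => ?_
  rw [Matrix.conjTranspose_apply, RCLike.star_def, ← Complex.normSq_eq_conj_mul_self,
    Complex.normSq_eq_norm_sq]

/-- unitary invariance of the Hilbert-Schmidt norm -/
private lemma HSLip_inv {U V : Matrix ι ι ℂ} (hU : U * Uᴴ = 1) (hV : V * Vᴴ = 1)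
    (A : Matrix ι ι ℂ) : hs2 (Uᴴ * A * V) = hs2 A := by
  have h : ((hs2 (Uᴴ * A * V) : ℝ) : ℂ) = ((hs2 A : ℝ) : ℂ) := by
    rw [HSLip_hs2_trace, HSLip_hs2_trace, Matrix.conjTranspose_mul, Matrix.conjTranspose_mul,
      Matrix.conjTranspose_conjTranspose]
    calc (Vᴴ * (Aᴴ * U) * (Uᴴ * A * V)).trace
        = (Vᴴ * (Aᴴ * (U * Uᴴ) * A) * V).trace := by simp only [Matrix.mul_assoc]
      _ = (Vᴴ * (Aᴴ * A) * V).trace := by rw [hU, Matrix.mul_one]
      _ = (V * (Vᴴ * (Aᴴ * A))).trace := Matrix.trace_mul_comm _ _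
      _ = (V * Vᴴ * (Aᴴ * A)).trace := by simp only [Matrix.mul_assoc]
      _ = _ := by rw [hV, Matrix.one_mul]
  exact_mod_cast h

/-- the difference of two diagonalisable matrices in the mixed bases -/
private lemma HSLip_mixed {A B U V : Matrix ι ι ℂ} {a b : ι → ℂ} (hU : Uᴴ * U = 1)
    (hV : Vᴴ * V = 1) (hA : A = U * Matrix.diagonal a * Uᴴ) (hB : B = V * Matrix.diagonal b * Vᴴ)
    (i j : ι) : (Uᴴ * (A - B) * V) i j = (a i - b j) * (Uᴴ * V) i j := by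
  have h : Uᴴ * (A - B) * V = Matrix.diagonal a * (Uᴴ * V) - (Uᴴ * V) * Matrix.diagonal b := by
    rw [Matrix.mul_sub, Matrix.sub_mul]
    congr 1
    · rw [hA]
      calc Uᴴ * (U * Matrix.diagonal a * Uᴴ) * V
          = (Uᴴ * U) * (Matrix.diagonal a * (Uᴴ * V)) := by simp only [Matrix.mul_assoc]
        _ = _ := by rw [hU, Matrix.one_mul]
    · rw [hB]
      calc Uᴴ * (V * Matrix.diagonal b * Vᴴ) * V
          = (Uᴴ * V) * Matrix.diagonal b * (Vᴴ * V) := by simp only [Matrix.mul_assoc]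
        _ = _ := by rw [hV, Matrix.mul_one]
  rw [h, Matrix.sub_apply, Matrix.diagonal_mul, Matrix.mul_diagonal]
  ring

theorem hs_lip {D D' : Matrix ι ι ℂ} {K : ℝ} (hD : PSB D K) (hD' : PSB D' K) (f G : ℝ[X])
    (L e : ℝ) (hL : 0 ≤ L) (hG : ∀ x ∈ Set.Icc 0 K, 0 ≤ G.eval x)
    (hf : ∀ x ∈ Set.Icc 0 K, ∀ y ∈ Set.Icc 0 K,
      (f.eval x - f.eval y) ^ 2 ≤ L * (G.eval x + G.eval y) * (x - y) ^ 2 + e) :
    hs2 (aeval D f - aeval D' f) ≤
      L * opn (D - D') ^ 2 * ((aeval D G).trace.re + (aeval D' G).trace.re)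
        + e * Fintype.card ι := by
  obtain ⟨U, l, hU1, hU2, hl, hA⟩ := psb_spectral hD
  obtain ⟨V, m, hV1, hV2, hm, hB⟩ := psb_spectral hD'
  set W : Matrix ι ι ℂ := Uᴴ * V with hW
  -- traces
  have htr : ∀ (h : ℝ[X]), (aeval D h).trace.re = ∑ i, h.eval (l i) := by
    intro h
    rw [hA h, Matrix.trace_mul_comm, ← Matrix.mul_assoc, hU1, Matrix.one_mul,
      Matrix.trace_diagonal, ← Complex.ofReal_sum, Complex.ofReal_re]
  have htr' : ∀ (h : ℝ[X]), (aeval D' h).trace.re = ∑ i, h.eval (m i) := by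
    intro h
    rw [hB h, Matrix.trace_mul_comm, ← Matrix.mul_assoc, hV1, Matrix.one_mul,
      Matrix.trace_diagonal, ← Complex.ofReal_sum, Complex.ofReal_re]
  -- the double sum
  have hsum : ∀ (h : ℝ[X]) (i j : ι), ‖(Uᴴ * (aeval D h - aeval D' h) * V) i j‖ ^ 2 =
      (h.eval (l i) - h.eval (m j)) ^ 2 * ‖W i j‖ ^ 2 := by
    intro h i j
    rw [HSLip_mixed hU1 hV1 (hA h) (hB h), norm_mul, mul_pow, ← Complex.ofReal_sub,
      Complex.norm_real, Real.norm_eq_abs, sq_abs]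
  have hX : ∀ (i j : ι), ‖(Uᴴ * (D - D') * V) i j‖ ^ 2 = (l i - m j) ^ 2 * ‖W i j‖ ^ 2 := by
    intro i j
    have h := hsum X i j
    rw [aeval_X, aeval_X, eval_X, eval_X] at h
    exact h
  have hop : opn (Uᴴ * (D - D') * V) ≤ opn (D - D') := by
    have e1 := opn_mul_le (Uᴴ * (D - D')) V
    have e2 := opn_mul_le Uᴴ (D - D')
    have e3 := HSLip_opn_unitary hV1
    have e4 : opn Uᴴ ≤ 1 := by rw [opn_conjTranspose]; exact HSLip_opn_unitary hU1
    have e5 : opn (Uᴴ * (D - D')) ≤ opn (D - D') :=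
      e2.trans (by nlinarith [opn_nonneg (D - D'), opn_nonneg Uᴴ])
    exact e1.trans (by nlinarith [opn_nonneg (D - D'), opn_nonneg V, opn_nonneg (Uᴴ * (D - D'))])
  have hop2 : opn (Uᴴ * (D - D') * V) ^ 2 ≤ opn (D - D') ^ 2 :=
    pow_le_pow_left₀ (opn_nonneg _) hop 2
  have hrow : ∀ i, ∑ j, (l i - m j) ^ 2 * ‖W i j‖ ^ 2 ≤ opn (D - D') ^ 2 := by
    intro i
    refine le_trans (le_of_eq ?_) ((HSLip_row (Uᴴ * (D - D') * V) i).trans hop2)
    exact Finset.sum_congr rfl fun j _ => (hX i j).symm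
  have hcol : ∀ j, ∑ i, (l i - m j) ^ 2 * ‖W i j‖ ^ 2 ≤ opn (D - D') ^ 2 := by
    intro j
    refine le_trans (le_of_eq ?_) ((HSLip_col (Uᴴ * (D - D') * V) j).trans hop2)
    exact Finset.sum_congr rfl fun i _ => (hX i j).symm
  have hWW : Wᴴ * W = 1 := by
    rw [hW, Matrix.conjTranspose_mul, Matrix.conjTranspose_conjTranspose]
    calc Vᴴ * U * (Uᴴ * V) = Vᴴ * (U * Uᴴ) * V := by simp only [Matrix.mul_assoc]
      _ = 1 := by rw [hU2, Matrix.mul_one, hV1]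
  have hp : ∑ i, ∑ j, ‖W i j‖ ^ 2 = (Fintype.card ι : ℝ) := by
    have h : ((hs2 W : ℝ) : ℂ) = ((Fintype.card ι : ℝ) : ℂ) := by
      rw [HSLip_hs2_trace, hWW, Matrix.trace_one]
      push_cast
      rfl
    exact_mod_cast h
  -- the estimate
  rw [← HSLip_inv hU2 hV2 (aeval D f - aeval D' f), htr, htr']
  have h1 : hs2 (Uᴴ * (aeval D f - aeval D' f) * V) =
      ∑ i, ∑ j, (f.eval (l i) - f.eval (m j)) ^ 2 * ‖W i j‖ ^ 2 := by
    unfold hs2
    exact Finset.sum_congr rfl fun i _ => Finset.sum_congr rfl fun j _ => hsum f i j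
  rw [h1]
  have h2 : ∑ i, ∑ j, (f.eval (l i) - f.eval (m j)) ^ 2 * ‖W i j‖ ^ 2 ≤
      ∑ i, ∑ j, (L * (G.eval (l i) * ((l i - m j) ^ 2 * ‖W i j‖ ^ 2)) +
        L * (G.eval (m j) * ((l i - m j) ^ 2 * ‖W i j‖ ^ 2)) + e * ‖W i j‖ ^ 2) := by
    refine Finset.sum_le_sum fun i _ => Finset.sum_le_sum fun j _ => ?_
    have h3 := mul_le_mul_of_nonneg_right (hf _ (hl i) _ (hm j))
      (by positivity : (0 : ℝ) ≤ ‖W i j‖ ^ 2)
    refine h3.trans (le_of_eq ?_)
    ring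
  refine h2.trans ?_
  simp only [Finset.sum_add_distrib, ← Finset.mul_sum]
  have h4 : ∑ i, G.eval (l i) * ∑ j, (l i - m j) ^ 2 * ‖W i j‖ ^ 2 ≤
      opn (D - D') ^ 2 * ∑ i, G.eval (l i) := by
    rw [Finset.mul_sum]
    refine Finset.sum_le_sum fun i _ => ?_
    rw [mul_comm (opn (D - D') ^ 2)]
    exact mul_le_mul_of_nonneg_left (hrow i) (hG _ (hl i))
  have h5 : ∑ i, ∑ j, G.eval (m j) * ((l i - m j) ^ 2 * ‖W i j‖ ^ 2) ≤
      opn (D - D') ^ 2 * ∑ i, G.eval (m i) := by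
    rw [Finset.sum_comm, Finset.mul_sum]
    refine Finset.sum_le_sum fun j _ => ?_
    rw [← Finset.mul_sum, mul_comm (opn (D - D') ^ 2)]
    exact mul_le_mul_of_nonneg_left (hcol j) (hG _ (hm j))
  rw [hp]
  have h6 := mul_le_mul_of_nonneg_left h4 hL
  have h7 := mul_le_mul_of_nonneg_left h5 hL
  nlinarith [h6, h7]

end Pool.Agent.H55.ML
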