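/-
B3 (LowCount).  The expected number of small eigenvalues is bounded.  Needs ChebTr, Approx, QfC.  About 180 lines.
PROOF.  x0 < dC.  χ(x) = smoothTransition ((dC - x)/(dC - x0)) (Real.smoothTransition): smooth, 0 <= χ <= 1, χ = 1 for
x <= x0, χ = 0 for x >= dC.  approx with c0 = 2048 · 8: a, Q n, h_n = chs a (Q n).  For n >= N, all k <= Q n satisfy
2048 (2k)^3 <= n, so by linearity of the trace, cheb_trace (k >= 1; k = 0 is exact: Tk 0 = 1, nuC 1 = 1) and
|a_k| (k+1)^11 <= C:  |E Tr h_n(D) - n² nuC h_n| <= sum |a_k| 4096 · 2^9 k^9 <= C' (sum (k+1)^{-2} < 2).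
|nuC h_n| <= n^{-4} by nuC_bound (on [dC, KK] ⊆ [0, KK]: χ = 0, so |h_n| <= n^{-4}; dC_nonneg).  So |E Tr h_n| <= C''.
G_n = h_n + C(n^{-4}): on [0,KK]: G_n >= χ >= 0 and >= 1 on [0, x0].
Good part: ∫_{Gd} Re Tr G_n = E Re Tr h_n - ∫_{Gd^c} Re Tr h_n + n^{-2} P(Gd), and
|∫_{Gd^c} Tr h_n| <= n² 2C ∫_{Gd^c} (32(1+s))^{Q n} <= 2 C n² exp(-n) <= C''' (chs_growth, trace_growth, tail, Q n <= n).
Integrability of the trace: PG_aeval.
-/
import Pool.Agent.H55.ML.ChebTr
import Pool.Agent.H55.ML.Approx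
import Pool.Agent.H55.ML.QfC
import Pool.Agent.H55.ML.OpD

namespace Pool.Agent.H55.ML
open MeasureTheory ProbabilityTheory Polynomial Matrix

private lemma pgtr (n : ℕ) (h : ℝ[X]) :
    PG (fun g : Fin n × Fin n → ℂ => (aeval (DD (XX g)) h).trace) :=
  PG.sum Finset.univ (fun p _ => PG_aeval n h p p)

private lemma nuC_zero' : nuC 0 = 0 := by
  have h := nuC_C_mul 0 0
  rwa [Polynomial.C_0, zero_mul, zero_mul] at h

private lemma nuC_one' : nuC 1 = 1 := by
  unfold nuC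
  rw [map_one]
  have h : (inner ℂ Om2 ((1 : E2 →L[ℂ] E2) Om2)) = inner ℂ Om2 Om2 := rfl
  rw [h, inner_self_eq_norm_sq_to_K, norm_Om2]
  simp

private lemma nuC_chs (a : ℕ → ℝ) (Q : ℕ) :
    nuC (chs a Q) = ∑ k ∈ Finset.range (Q + 1), a k * nuC (Tk k) := by
  unfold chs
  induction Q + 1 with
  | zero => simp [nuC_zero']
  | succ m ih => rw [Finset.sum_range_succ, nuC_add, ih, nuC_C_mul, Finset.sum_range_succ]

private lemma Tk_zero' : Tk 0 = 1 := by
  unfold Tk
  simp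

private lemma integral_chs (n : ℕ) (a : ℕ → ℝ) (Q : ℕ) :
    (∫ g, (aeval (DD (XX g)) (chs a Q)).trace ∂(gin n)).re =
      ∑ k ∈ Finset.range (Q + 1), a k * (∫ g, (aeval (DD (XX g)) (Tk k)).trace ∂(gin n)).re := by
  have h1 : ∀ g : Fin n × Fin n → ℂ, (aeval (DD (XX g)) (chs a Q)).trace =
      ∑ k ∈ Finset.range (Q + 1), ((a k : ℝ) : ℂ) * (aeval (DD (XX g)) (Tk k)).trace := by
    intro g
    unfold chs
    rw [map_sum, Matrix.trace_sum]
    refine Finset.sum_congr rfl fun k _ => ?_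
    rw [map_mul, aeval_C, Algebra.algebraMap_eq_smul_one, Matrix.smul_mul, one_mul,
      Matrix.trace_smul, Complex.real_smul]
  simp_rw [h1]
  rw [integral_finsetSum _ (fun k _ => ((pgtr n (Tk k)).integrable).const_mul _), Complex.re_sum]
  refine Finset.sum_congr rfl fun k _ => ?_
  rw [integral_const_mul, Complex.re_ofReal_mul]

private lemma prob_gin (n : ℕ) : IsProbabilityMeasure (gin n) := by
  unfold gin
  infer_instance

private lemma tr_one (n : ℕ) : (1 : Op n).trace = (n : ℂ) ^ 2 := by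
  rw [Matrix.trace_one, Fintype.card_prod, Fintype.card_fin]
  push_cast
  ring

private lemma sum_inv_sq (Q : ℕ) :
    ∑ k ∈ Finset.range (Q + 1), 1 / ((k : ℝ) + 1) ^ 2 ≤ 2 - 1 / ((Q : ℝ) + 1) := by
  induction Q with
  | zero => norm_num
  | succ m ih =>
    rw [Finset.sum_range_succ]
    have hm : (0 : ℝ) ≤ m := Nat.cast_nonneg m
    have h1 : 1 / (((m + 1 : ℕ) : ℝ) + 1) ^ 2 ≤ 1 / ((m : ℝ) + 1) - 1 / (((m + 1 : ℕ) : ℝ) + 1) := by
      push_cast
      rw [div_sub_div _ _ (by positivity) (by positivity), div_le_div_iff₀ (by positivity)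
        (by positivity)]
      nlinarith
    linarith

/-- the expectation of the trace is bounded -/
private lemma mean_chs (a : ℕ → ℝ) (C : ℝ) (hC : 0 ≤ C)
    (ha : ∀ k : ℕ, |a k| * ((k : ℝ) + 1) ^ 11 ≤ C) (Q n : ℕ) (hn : 2048 * 8 * (Q + 1) ^ 3 ≤ n) :
    |(∫ g, (aeval (DD (XX g)) (chs a Q)).trace ∂(gin n)).re - (n : ℝ) ^ 2 * nuC (chs a Q)|
      ≤ 2 * (4096 * 512 * C) := by
  have := prob_gin n
  rw [integral_chs, nuC_chs, Finset.mul_sum, ← Finset.sum_sub_distrib]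
  refine (Finset.abs_sum_le_sum_abs _ _).trans ?_
  have h1 : ∀ k ∈ Finset.range (Q + 1),
      |a k * (∫ g, (aeval (DD (XX g)) (Tk k)).trace ∂(gin n)).re -
        (n : ℝ) ^ 2 * (a k * nuC (Tk k))| ≤ (4096 * 512 * C) * (1 / ((k : ℝ) + 1) ^ 2) := by
    intro k hk
    have e1 : a k * (∫ g, (aeval (DD (XX g)) (Tk k)).trace ∂(gin n)).re -
        (n : ℝ) ^ 2 * (a k * nuC (Tk k)) =
        a k * ((∫ g, (aeval (DD (XX g)) (Tk k)).trace ∂(gin n)).re - (n : ℝ) ^ 2 * nuC (Tk k)) := by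
      ring
    rw [e1, abs_mul]
    have hk0 : (0 : ℝ) ≤ k := Nat.cast_nonneg k
    have e2 : |(∫ g, (aeval (DD (XX g)) (Tk k)).trace ∂(gin n)).re -
        (n : ℝ) ^ 2 * nuC (Tk k)| ≤ 4096 * 512 * ((k : ℝ) + 1) ^ 9 := by
      rcases Nat.eq_zero_or_pos k with h0 | h0
      · subst h0
        have h0 : ∀ g : Fin n × Fin n → ℂ, (aeval (DD (XX g)) (1 : ℝ[X])).trace = (n : ℂ) ^ 2 := by
          intro g
          rw [map_one, tr_one]
        rw [Tk_zero', nuC_one']
        simp_rw [h0]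
        rw [integral_const]
        simp only [probReal_univ, one_smul, mul_one]
        have : ((n : ℂ) ^ 2).re = (n : ℝ) ^ 2 := by
          rw [← Complex.ofReal_natCast, ← Complex.ofReal_pow, Complex.ofReal_re]
        rw [this, sub_self, abs_zero]
        positivity
      · have h2 : 2048 * (2 * k) ^ 3 ≤ n := by
          refine le_trans ?_ hn
          have h3 : k ≤ Q + 1 := by
            have := Finset.mem_range.1 hk
            omega
          have h4 : k ^ 3 ≤ (Q + 1) ^ 3 := Nat.pow_le_pow_left h3 3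
          have h5 : 2048 * (2 * k) ^ 3 = 2048 * 8 * k ^ 3 := by ring
          rw [h5]
          exact Nat.mul_le_mul_left _ h4
        refine (cheb_trace k h0 n h2).trans ?_
        have h6 : (k : ℝ) ^ 9 ≤ ((k : ℝ) + 1) ^ 9 :=
          pow_le_pow_left₀ hk0 (by linarith) 9
        have h7 : 4096 * (2 * (k : ℝ)) ^ 9 = 4096 * 512 * (k : ℝ) ^ 9 := by ring
        rw [h7]
        exact mul_le_mul_of_nonneg_left h6 (by norm_num)
    have e3 : 0 < (k : ℝ) + 1 := by linarith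
    calc |a k| * |(∫ g, (aeval (DD (XX g)) (Tk k)).trace ∂(gin n)).re - (n : ℝ) ^ 2 * nuC (Tk k)|
        ≤ |a k| * (4096 * 512 * ((k : ℝ) + 1) ^ 9) :=
          mul_le_mul_of_nonneg_left e2 (abs_nonneg _)
      _ = 4096 * 512 * (|a k| * ((k : ℝ) + 1) ^ 11) * (1 / ((k : ℝ) + 1) ^ 2) := by
          field_simp
      _ ≤ (4096 * 512 * C) * (1 / ((k : ℝ) + 1) ^ 2) := by
          apply mul_le_mul_of_nonneg_right _ (by positivity)
          exact mul_le_mul_of_nonneg_left (ha k) (by norm_num)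
  refine (Finset.sum_le_sum h1).trans ?_
  rw [← Finset.mul_sum, mul_comm]
  apply mul_le_mul_of_nonneg_right _ (by positivity)
  refine (sum_inv_sq Q).trans ?_
  have : (0 : ℝ) ≤ 1 / ((Q : ℝ) + 1) := by positivity
  linarith

private lemma sq_exp (n : ℕ) : (n : ℝ) ^ 2 * Real.exp (-n) ≤ 2 := by
  have h1 : 1 + (n : ℝ) + (n : ℝ) ^ 2 / 2 ≤ Real.exp n :=
    Real.quadratic_le_exp_of_nonneg (Nat.cast_nonneg n)
  have h2 : (n : ℝ) ^ 2 ≤ 2 * Real.exp n := by
    have : (0 : ℝ) ≤ n := Nat.cast_nonneg n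
    linarith
  rw [Real.exp_neg, ← div_eq_mul_inv, div_le_iff₀ (Real.exp_pos _)]
  exact h2

/-- the bad part is bounded -/
private lemma bad_chs (a : ℕ → ℝ) (C : ℝ) (hC : 0 ≤ C)
    (ha : ∀ k : ℕ, |a k| * ((k : ℝ) + 1) ^ 11 ≤ C) (Q n : ℕ) (hn : 1 ≤ n) (hQ : Q ≤ n) :
    |∫ g in (Gd n)ᶜ, ((aeval (DD (XX g)) (chs a Q)).trace).re ∂(gin n)| ≤ 4 * C := by
  have := prob_gin n
  have h1 : ∀ g : Fin n × Fin n → ℂ, ‖((aeval (DD (XX g)) (chs a Q)).trace).re‖ ≤
      (n : ℝ) ^ 2 * (2 * C) * (32 * (1 + opn (XX g) ^ 2)) ^ Q := by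
    intro g
    rw [Real.norm_eq_abs]
    refine (Complex.abs_re_le_norm _).trans ?_
    refine (trace_growth n (chs a Q) (2 * C) Q (by positivity)
      (fun x hx => chs_growth a C ha Q x hx) g).trans ?_
    apply le_of_eq
    ring
  rw [← Real.norm_eq_abs]
  have hint : Integrable (fun g : Fin n × Fin n → ℂ =>
      (n : ℝ) ^ 2 * (2 * C) * (32 * (1 + opn (XX g) ^ 2)) ^ Q) (gin n) := by
    apply Integrable.const_mul
    refine PG.integrableR ?_
    refine PG.powR ?_ Q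
    refine PG.mulR (PG.const (32 : ℝ)) ?_
    exact PG.add (PG.const (1 : ℝ)) ((PG_opn n).powR 2)
  refine (norm_integral_le_of_norm_le hint.integrableOn (Filter.Eventually.of_forall h1)).trans ?_
  rw [integral_const_mul]
  have h2 := tail n hn Q hQ
  calc (n : ℝ) ^ 2 * (2 * C) * ∫ g in (Gd n)ᶜ, (32 * (1 + opn (XX g) ^ 2)) ^ Q ∂(gin n)
      ≤ (n : ℝ) ^ 2 * (2 * C) * Real.exp (-n) := mul_le_mul_of_nonneg_left h2 (by positivity)
    _ = 2 * C * ((n : ℝ) ^ 2 * Real.exp (-n)) := by ring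
    _ ≤ 2 * C * 2 := mul_le_mul_of_nonneg_left (sq_exp n) (by positivity)
    _ = 4 * C := by ring

theorem low_count (x0 : ℝ) (hx0 : x0 < dC) : ∃ (G : ℕ → ℝ[X]) (C : ℝ) (N : ℕ), 0 ≤ C ∧ ∀ n, N ≤ n →
    (∀ x ∈ Set.Icc 0 KK, 0 ≤ (G n).eval x) ∧ (∀ x ∈ Set.Icc 0 x0, 1 ≤ (G n).eval x) ∧
    ∫ g in Gd n, ((aeval (DD (XX g)) (G n)).trace).re ∂(gin n) ≤ C := by
  have hd : 0 < dC - x0 := by linarith
  obtain ⟨a, Q, C, N, hC, ha, hQ, happ⟩ :=
    approx (fun x => Real.smoothTransition ((dC - x) / (dC - x0)))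
      (Real.smoothTransition.contDiff.comp
        ((contDiff_const.sub contDiff_id).div_const _)) (2048 * 8)
  have hKK : KK = 1200 := rfl
  refine ⟨fun n => chs a (Q n) + Polynomial.C (1 / (n : ℝ) ^ 4),
    2 * (4096 * 512 * C) + 1 + 4 * C + 1, N, by positivity, fun n hn => ⟨?_, ?_, ?_⟩⟩
  · intro x hx
    have h1 := abs_le.1 (happ n hn x hx)
    rw [eval_add, eval_C]
    have h2 := Real.smoothTransition.nonneg ((dC - x) / (dC - x0))
    linarith [h1.2]
  · intro x hx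
    have h1 := abs_le.1 (happ n hn x ⟨hx.1, by
      have := dC_le
      rw [hKK]
      linarith [hx.2]⟩)
    rw [eval_add, eval_C]
    have h2 : Real.smoothTransition ((dC - x) / (dC - x0)) = 1 := by
      apply Real.smoothTransition.one_of_one_le
      rw [le_div_iff₀ hd]
      linarith [hx.2]
    rw [h2] at h1
    linarith [h1.2]
  · have := prob_gin n
    have hQn := hQ n hn
    have hn1 : 1 ≤ n := by
      have : 1 ≤ (Q n + 1) ^ 3 := Nat.one_le_pow _ _ (Nat.succ_pos _)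
      omega
    have hQle : Q n ≤ n := by
      have : Q n + 1 ≤ (Q n + 1) ^ 3 := Nat.le_self_pow (by norm_num) _
      omega
    have hnR : (1 : ℝ) ≤ n := by exact_mod_cast hn1
    -- the functional at the limit
    have hnu : |nuC (chs a (Q n))| ≤ 1 / (n : ℝ) ^ 4 := by
      apply nuC_bound
      intro x hx
      have h1 := happ n hn x ⟨dC_nonneg.trans hx.1, hx.2⟩
      have h2 : Real.smoothTransition ((dC - x) / (dC - x0)) = 0 := by
        apply Real.smoothTransition.zero_of_nonpos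
        apply div_nonpos_of_nonpos_of_nonneg _ hd.le
        linarith [hx.1]
      rwa [h2, zero_sub, abs_neg] at h1
    have h3 := mean_chs a C hC ha (Q n) n hQn
    have h4 := bad_chs a C hC ha (Q n) n hn1 hQle
    have hnu2 : |(n : ℝ) ^ 2 * nuC (chs a (Q n))| ≤ 1 := by
      rw [abs_mul, abs_of_nonneg (by positivity)]
      refine (mul_le_mul_of_nonneg_left hnu (by positivity)).trans ?_
      rw [mul_one_div, div_le_one (by positivity)]
      exact pow_le_pow_right₀ hnR (by norm_num)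
    have hI : Integrable (fun g : Fin n × Fin n → ℂ =>
        ((aeval (DD (XX g)) (chs a (Q n))).trace).re) (gin n) :=
      ((pgtr n (chs a (Q n))).re).integrableR
    have h5 : ∫ g in Gd n, ((aeval (DD (XX g)) (chs a (Q n))).trace).re ∂(gin n) =
        (∫ g, (aeval (DD (XX g)) (chs a (Q n))).trace ∂(gin n)).re -
        ∫ g in (Gd n)ᶜ, ((aeval (DD (XX g)) (chs a (Q n))).trace).re ∂(gin n) := by
      have e1 := integral_add_compl (measurableSet_Gd n) hI
      have e2 : ∫ g, ((aeval (DD (XX g)) (chs a (Q n))).trace).re ∂(gin n) =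
          (∫ g, (aeval (DD (XX g)) (chs a (Q n))).trace ∂(gin n)).re :=
        integral_re ((pgtr n (chs a (Q n))).integrable)
      rw [← e2, ← e1]
      ring
    have h6 : ∀ g : Fin n × Fin n → ℂ,
        ((aeval (DD (XX g)) (chs a (Q n) + Polynomial.C (1 / (n : ℝ) ^ 4))).trace).re =
        ((aeval (DD (XX g)) (chs a (Q n))).trace).re + 1 / (n : ℝ) ^ 2 := by
      intro g
      rw [map_add, aeval_C, Matrix.trace_add, Complex.add_re, Algebra.algebraMap_eq_smul_one,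
        Matrix.trace_smul, tr_one, Complex.real_smul]
      congr 1
      have e1 : ((1 / (n : ℝ) ^ 4 : ℝ) : ℂ) * (n : ℂ) ^ 2 = ((1 / (n : ℝ) ^ 2 : ℝ) : ℂ) := by
        push_cast
        have : (n : ℂ) ≠ 0 := by
          exact_mod_cast (show n ≠ 0 by omega)
        field_simp
      rw [e1, Complex.ofReal_re]
    simp_rw [h6]
    rw [integral_add hI.integrableOn (integrable_const _), h5]
    have h7 : ∫ _g in Gd n, 1 / (n : ℝ) ^ 2 ∂(gin n) ≤ 1 := by
      rw [setIntegral_const, smul_eq_mul]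
      have e1 : (gin n).real (Gd n) ≤ 1 := measureReal_le_one
      have e2 : 1 / (n : ℝ) ^ 2 ≤ 1 := by
        rw [div_le_one (by positivity)]
        exact one_le_pow₀ hnR
      have e3 : 0 ≤ 1 / (n : ℝ) ^ 2 := by positivity
      nlinarith [measureReal_nonneg (μ := gin n) (s := Gd n)]
    have h8 := abs_le.1 h3
    have h9 := abs_le.1 h4
    have h10 := abs_le.1 hnu2
    linarith [h8.2, h9.1, h10.2]

end Pool.Agent.H55.ML
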