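/-
B5 (Setup).  The data for the soft spectral projection.  Needs Approx, LowCount.  About 120 lines.
PROOF of exists_setup.  m = min dC dT, x0 = (x1 + m)/2, χ(x) = Real.smoothTransition ((x0 - x)/(x0 - x1)): smooth,
0 <= χ <= 1, χ = 0 for x >= x0, χ = 1 for x <= x1; Lipschitz on [0, KK] because it is C¹
(ContDiff.lipschitz... on compact convex sets: ContDiffOn.exists_lipschitzOnWith / bounded derivative).
approx with c0 = 2: f n = chs a (Q n), 2 Q n <= 2 (Q n+1)^3 <= n so Q n <= n/2 and the growth from chs_growth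
((4(1+x)) >= 1).  low_count x0: G.  C, N = maxima.
-/
import Pool.Agent.H55.ML.LowCount
import Pool.Agent.H55.ML.QfT

namespace Pool.Agent.H55.ML
open MeasureTheory ProbabilityTheory Polynomial Matrix

/-- the data used in the exclusion of outliers below `x1` -/
structure Setup where
  x0 : ℝ
  x1 : ℝ
  χ : ℝ → ℝ
  f : ℕ → ℝ[X]
  G : ℕ → ℝ[X]
  C : ℝ
  L : ℝ
  N : ℕ
  N_pos : 1 ≤ N
  C_nonneg : 0 ≤ C
  L_nonneg : 0 ≤ L
  x0_lt_C : x0 < dC
  x0_lt_T : x0 < dT
  cont : Continuous χ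
  nonneg : ∀ x, 0 ≤ χ x
  le_one : ∀ x, χ x ≤ 1
  zero : ∀ x, x0 ≤ x → χ x = 0
  one : ∀ x, x ≤ x1 → χ x = 1
  lip : ∀ x ∈ Set.Icc 0 KK, ∀ y ∈ Set.Icc 0 KK, |χ x - χ y| ≤ L * |x - y|
  app : ∀ n, N ≤ n → ∀ x ∈ Set.Icc 0 KK, |χ x - (f n).eval x| ≤ 1 / (n : ℝ) ^ 4
  gro : ∀ n, N ≤ n → ∀ x : ℝ, 0 ≤ x → |(f n).eval x| ≤ C * (4 * (1 + x)) ^ (n / 2)
  G0 : ∀ n, N ≤ n → ∀ x ∈ Set.Icc 0 KK, 0 ≤ (G n).eval x
  G1 : ∀ n, N ≤ n → ∀ x ∈ Set.Icc 0 x0, 1 ≤ (G n).eval x
  Gtr : ∀ n, N ≤ n → ∫ g in Gd n, ((aeval (DD (XX g)) (G n)).trace).re ∂(gin n) ≤ C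

private theorem st_lip (χ : ℝ → ℝ) (h : ContDiff ℝ 1 χ) : ∃ L : ℝ, 0 ≤ L ∧
    ∀ x ∈ Set.Icc 0 KK, ∀ y ∈ Set.Icc 0 KK, |χ x - χ y| ≤ L * |x - y| := by
  obtain ⟨L, hL⟩ := isCompact_Icc.exists_bound_of_continuousOn (s := Set.Icc 0 KK)
    (h.continuous_deriv le_rfl).continuousOn
  refine ⟨L, ?_, fun x hx y hy => ?_⟩
  · have h0 : (0 : ℝ) ∈ Set.Icc 0 KK := ⟨le_rfl, by unfold KK; norm_num⟩
    exact (norm_nonneg _).trans (hL 0 h0)
  · have := (convex_Icc 0 KK).norm_image_sub_le_of_norm_deriv_le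
      (fun z _ => (h.differentiable one_ne_zero) z) hL hy hx
    simpa [Real.norm_eq_abs] using this

theorem exists_setup (x1 : ℝ) (h : x1 < min dC dT) : ∃ S : Setup, S.x1 = x1 := by
  set m := min dC dT with hm
  set x0 := (x1 + m) / 2 with hx0
  have h10 : x1 < x0 := by rw [hx0]; linarith
  have h0m : x0 < m := by rw [hx0]; linarith
  have h0C : x0 < dC := h0m.trans_le (min_le_left _ _)
  have h0T : x0 < dT := h0m.trans_le (min_le_right _ _)
  have hd : 0 < x0 - x1 := sub_pos.2 h10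
  set χ : ℝ → ℝ := fun x => Real.smoothTransition ((x0 - x) / (x0 - x1)) with hχ
  have hsm : ∀ n : ℕ∞, ContDiff ℝ n χ := fun n =>
    Real.smoothTransition.contDiff.comp ((contDiff_const.sub contDiff_id).div_const _)
  obtain ⟨L, hL0, hL⟩ := st_lip χ (hsm 1)
  obtain ⟨a, Q, C1, N1, hC1, ha, hQ, happ⟩ := approx χ (hsm ⊤) 2
  obtain ⟨G, C2, N2, hC2, hG⟩ := low_count x0 h0C
  refine ⟨{
    x0 := x0
    x1 := x1
    χ := χ
    f := fun n => chs a (Q n)
    G := G
    C := max (2 * C1) C2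
    L := L
    N := max 1 (max N1 N2)
    N_pos := le_max_left _ _
    C_nonneg := hC2.trans (le_max_right _ _)
    L_nonneg := hL0
    x0_lt_C := h0C
    x0_lt_T := h0T
    cont := (hsm 0).continuous
    nonneg := fun x => Real.smoothTransition.nonneg _
    le_one := fun x => Real.smoothTransition.le_one _
    zero := fun x hx => Real.smoothTransition.zero_of_nonpos
      (div_nonpos_of_nonpos_of_nonneg (by linarith) hd.le)
    one := fun x hx => Real.smoothTransition.one_of_one_le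
      ((one_le_div hd).2 (by linarith))
    lip := hL
    app := fun n hn x hx => happ n
      (((le_max_left _ _).trans (le_max_right _ _)).trans hn) x hx
    gro := fun n hn x hx => ?_
    G0 := fun n hn x hx => (hG n
      (((le_max_right _ _).trans (le_max_right _ _)).trans hn)).1 x hx
    G1 := fun n hn x hx => (hG n
      (((le_max_right _ _).trans (le_max_right _ _)).trans hn)).2.1 x hx
    Gtr := fun n hn => ((hG n
      (((le_max_right _ _).trans (le_max_right _ _)).trans hn)).2.2).trans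
        (le_max_right _ _) }, rfl⟩
  have hn1 : N1 ≤ n := ((le_max_left _ _).trans (le_max_right _ _)).trans hn
  have hq := hQ n hn1
  have hQn : Q n ≤ n / 2 := by
    rw [Nat.le_div_iff_mul_le two_pos]
    have h1 : Q n + 1 ≤ (Q n + 1) ^ 3 := Nat.le_self_pow (by norm_num) _
    omega
  have h4 : (1 : ℝ) ≤ 4 * (1 + x) := by linarith
  calc |(chs a (Q n)).eval x| ≤ 2 * C1 * (4 * (1 + x)) ^ (Q n) := chs_growth a C1 ha (Q n) x hx
    _ ≤ max (2 * C1) C2 * (4 * (1 + x)) ^ (n / 2) :=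
        mul_le_mul (le_max_left _ _) (pow_le_pow_right₀ h4 hQn) (by positivity)
          (hC2.trans (le_max_right _ _))

end Pool.Agent.H55.ML
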