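/-
E1a (RotA).  The soft projection is Lipschitz in Hilbert-Schmidt norm on the good event.  Needs Setup, HSLip, OpD,
KV.  About 100 lines.
PROOF.  FF f g - FF f g' = f(D) - f(D') (the P1 parts cancel), D = DD (XX g), D' = DD (XX g'), both PSB with KK
(psb_DD_Gd).  For x, y in [0, KK]: (f x - f y)^2 <= 2 L^2 (G x + G y)(x - y)^2 + 8/n^8: |f x - f y| <=
|χ x - χ y| + 2/n^4; if x <= x0 or y <= x0 then G x + G y >= 1 and |f x - f y|^2 <= 2 L²|x-y|² + 8/n^8; otherwise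
χ x = χ y = 0 and |f x - f y|^2 <= 4/n^8.  hs_lip gives
hs2 <= 2 L² opn(D - D')² (Tr G(D) + Tr G(D')) + (8/n^8) n².
opn(D - D')² <= 64 (opn X + opn Y)² opn(X - Y)² and (opn X + opn Y)² <= 4 KK/8 = KK/2: 32 KK opn(X - Y)².
-/
import Pool.Agent.H55.ML.Setup
import Pool.Agent.H55.ML.HSLip

namespace Pool.Agent.H55.ML
open MeasureTheory ProbabilityTheory Polynomial Matrix

private theorem rotA_point (S : Setup) (n : ℕ) (hn : S.N ≤ n) (x y : ℝ) (hx : x ∈ Set.Icc 0 KK)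
    (hy : y ∈ Set.Icc 0 KK) :
    ((S.f n).eval x - (S.f n).eval y) ^ 2 ≤
      2 * S.L ^ 2 * ((S.G n).eval x + (S.G n).eval y) * (x - y) ^ 2 + 8 / (n : ℝ) ^ 8 := by
  have h1 := S.app n hn x hx
  have h2 := S.app n hn y hy
  have hGx := S.G0 n hn x hx
  have hGy := S.G0 n hn y hy
  obtain ⟨e, he⟩ : ∃ e : ℝ, e = 1 / (n : ℝ) ^ 4 := ⟨_, rfl⟩
  have he0 : 0 ≤ e := by rw [he]; positivity
  have he8 : 8 / (n : ℝ) ^ 8 = 8 * e ^ 2 := by
    rw [he, div_pow, one_pow, ← pow_mul]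
    ring
  rw [← he] at h1 h2
  rw [he8]
  obtain ⟨a, ha⟩ : ∃ a : ℝ, a = |S.χ x - S.χ y| := ⟨_, rfl⟩
  have ha0 : 0 ≤ a := by rw [ha]; positivity
  have h3 : |(S.f n).eval x - (S.f n).eval y| ≤ a + 2 * e := by
    have h4 : (S.f n).eval x - (S.f n).eval y
        = (S.χ x - S.χ y) - (S.χ x - (S.f n).eval x) + (S.χ y - (S.f n).eval y) := by ring
    rw [h4]
    calc |(S.χ x - S.χ y) - (S.χ x - (S.f n).eval x) + (S.χ y - (S.f n).eval y)|
        ≤ |(S.χ x - S.χ y) - (S.χ x - (S.f n).eval x)| + |S.χ y - (S.f n).eval y| := abs_add_le _ _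
      _ ≤ |S.χ x - S.χ y| + |S.χ x - (S.f n).eval x| + |S.χ y - (S.f n).eval y| := by
          gcongr
          exact abs_sub _ _
      _ ≤ a + 2 * e := by rw [← ha]; linarith
  have h5 : ((S.f n).eval x - (S.f n).eval y) ^ 2 ≤ 2 * a ^ 2 + 8 * e ^ 2 := by
    rw [← sq_abs ((S.f n).eval x - (S.f n).eval y)]
    have h6 : |(S.f n).eval x - (S.f n).eval y| ^ 2 ≤ (a + 2 * e) ^ 2 :=
      pow_le_pow_left₀ (abs_nonneg _) h3 2
    nlinarith [sq_nonneg (a - 2 * e)]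
  have h7 : 2 * a ^ 2 ≤ 2 * S.L ^ 2 * ((S.G n).eval x + (S.G n).eval y) * (x - y) ^ 2 := by
    by_cases hxy : x ≤ S.x0 ∨ y ≤ S.x0
    · have h8 : 1 ≤ (S.G n).eval x + (S.G n).eval y := by
        rcases hxy with h | h
        · have := S.G1 n hn x ⟨hx.1, h⟩
          linarith
        · have := S.G1 n hn y ⟨hy.1, h⟩
          linarith
      have h9 : a ≤ S.L * |x - y| := by rw [ha]; exact S.lip x hx y hy
      have h10 : a ^ 2 ≤ S.L ^ 2 * (x - y) ^ 2 := by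
        calc a ^ 2 ≤ (S.L * |x - y|) ^ 2 := pow_le_pow_left₀ ha0 h9 2
          _ = S.L ^ 2 * (x - y) ^ 2 := by rw [mul_pow, sq_abs]
      have h11 : 0 ≤ S.L ^ 2 * (x - y) ^ 2 := by positivity
      nlinarith [mul_le_mul_of_nonneg_left h8 h11]
    · push Not at hxy
      have h12 : a = 0 := by
        rw [ha, S.zero x hxy.1.le, S.zero y hxy.2.le]
        simp
      rw [h12]
      have : 0 ≤ 2 * S.L ^ 2 * ((S.G n).eval x + (S.G n).eval y) * (x - y) ^ 2 := by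
        have := add_nonneg hGx hGy
        positivity
      simpa using this
  linarith

private theorem rotA_tr_nonneg (S : Setup) (n : ℕ) (hn : S.N ≤ n) (g : Fin n × Fin n → ℂ)
    (hg : g ∈ Gd n) : 0 ≤ ((aeval (DD (XX g)) (S.G n)).trace).re := by
  have h := aeval_trace_mono (psb_DD_Gd g hg) 0 (S.G n)
    (fun x hx => by simpa using S.G0 n hn x hx)
  simpa using h

theorem rot_good (S : Setup) (n : ℕ) (hn : S.N ≤ n) (g g' : Fin n × Fin n → ℂ) (hg : g ∈ Gd n)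
    (hg' : g' ∈ Gd n) :
    hs2 (FF (S.f n) g - FF (S.f n) g') ≤ 64 * S.L ^ 2 * KK * opn (XX g - XX g') ^ 2 *
      (((aeval (DD (XX g)) (S.G n)).trace).re + ((aeval (DD (XX g')) (S.G n)).trace).re)
      + 8 / (n : ℝ) ^ 6 := by
  have hn0 : (0 : ℝ) < n := by
    have : 1 ≤ n := le_trans S.N_pos hn
    exact_mod_cast this
  have h1 : FF (S.f n) g - FF (S.f n) g'
      = aeval (DD (XX g)) (S.f n) - aeval (DD (XX g')) (S.f n) := by
    unfold FF
    abel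
  rw [h1]
  have hP := psb_DD_Gd g hg
  have hP' := psb_DD_Gd g' hg'
  have h2 := hs_lip hP hP' (S.f n) (S.G n) (2 * S.L ^ 2) (8 / (n : ℝ) ^ 8) (by positivity)
    (fun x hx => S.G0 n hn x hx) (fun x hx y hy => rotA_point S n hn x y hx hy)
  refine h2.trans ?_
  have hT : 0 ≤ ((aeval (DD (XX g)) (S.G n)).trace).re
      + ((aeval (DD (XX g')) (S.G n)).trace).re :=
    add_nonneg (rotA_tr_nonneg S n hn g hg) (rotA_tr_nonneg S n hn g' hg')
  have h3 : (8 / (n : ℝ) ^ 8) * (Fintype.card (Fin n × Fin n) : ℝ) = 8 / (n : ℝ) ^ 6 := by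
    rw [Fintype.card_prod, Fintype.card_fin]
    push_cast
    field_simp
  rw [h3]
  have h4 : opn (DD (XX g) - DD (XX g')) ^ 2 ≤ 32 * KK * opn (XX g - XX g') ^ 2 := by
    have h5 := opn_DD_sub_le (XX g) (XX g')
    have h6 : 8 * opn (XX g) ^ 2 ≤ KK := hg
    have h7 : 8 * opn (XX g') ^ 2 ≤ KK := hg'
    have h8 : (opn (XX g) + opn (XX g')) ^ 2 ≤ KK / 2 := by
      nlinarith [sq_nonneg (opn (XX g) - opn (XX g'))]
    calc opn (DD (XX g) - DD (XX g')) ^ 2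
        ≤ (8 * (opn (XX g) + opn (XX g')) * opn (XX g - XX g')) ^ 2 :=
          pow_le_pow_left₀ (opn_nonneg _) h5 2
      _ = 64 * (opn (XX g) + opn (XX g')) ^ 2 * opn (XX g - XX g') ^ 2 := by ring
      _ ≤ 64 * (KK / 2) * opn (XX g - XX g') ^ 2 := by gcongr
      _ = 32 * KK * opn (XX g - XX g') ^ 2 := by ring
  have h9 : 2 * S.L ^ 2 * opn (DD (XX g) - DD (XX g')) ^ 2
      ≤ 64 * S.L ^ 2 * KK * opn (XX g - XX g') ^ 2 := by
    calc 2 * S.L ^ 2 * opn (DD (XX g) - DD (XX g')) ^ 2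
        ≤ 2 * S.L ^ 2 * (32 * KK * opn (XX g - XX g') ^ 2) := by gcongr
      _ = 64 * S.L ^ 2 * KK * opn (XX g - XX g') ^ 2 := by ring
  have h10 := mul_le_mul_of_nonneg_right h9 hT
  linarith

end Pool.Agent.H55.ML
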