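/-
E1b (RotB).  The bad events contribute nothing.  Needs Setup, Tail, Rot, KV.  About 180 lines.
PROOF.  hs2_FF_good: FF f g = f(D) (1 - P1) (FF_eq), hs2 <= opn(f(D))^2 hs2 (1 - P1) and hs2 (1 - P1) <= card * opn^2
<= n² · 4 (P1 is a Hermitian projection, opn P1 <= 1: P1 = P1ᴴ P1, or nv (P1 v) <= nv v); on Gd |f| <= 2 on [0,KK],
opn(f(D)) <= 2 (opn_aeval_le, psb_DD_Gd): hs2 <= 16 n².
hs2_FF_growth: opn(f(D)) <= C (32 (1+s))^(n/2) (opn_growth), squared: <= C² (32(1+s))^n since 2 (n/2) <= n and the base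
is >= 1: hs2 <= 4 n² C² (32 (1+s))^n.
bad_part: B = {p | p.1 ∉ Gd or p_θ ∉ Gd}, p_θ = (rotP c s p).1, c = cos θ, s = sin θ.  hs2(F - F_θ) <= 2 hs2 F + 2 hs2 F_θ.
∫_B hs2 F(p.1) <= ∫_{p.1 ∉ Gd} 4 n² C² (32(1+s))^n + ∫_{p.1 ∈ Gd, p_θ ∉ Gd} 16 n² <= 4 n² C² exp(-n) + 16 n² exp(-n)
(tail with Q = n; prob_bad and measurePreserving_rotP: the law of p_θ is gin n).  The same for F_θ by the involution
rotP (it exchanges p.1 and p_θ and preserves the measure and the set B).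
Measurability/integrability: PG_aeval, PG.rot, measurableSet_Gd.
-/
import Pool.Agent.H55.ML.Setup
import Pool.Agent.H55.ML.Rot

namespace Pool.Agent.H55.ML
open MeasureTheory ProbabilityTheory Polynomial Matrix

private lemma RB_dot_self {ι : Type*} [Fintype ι] (u : ι → ℂ) :
    star u ⬝ᵥ u = ((nv u : ℝ) : ℂ) := by
  simp only [dotProduct, nv, Pi.star_apply, RCLike.star_def, Complex.conj_mul', Complex.ofReal_sum,
    Complex.ofReal_pow]

private lemma RB_opn_P1 (n : ℕ) : opn (P1 n) ≤ 1 := by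
  apply opn_le_of _ _ zero_le_one
  intro v
  have h1 : star (P1 n *ᵥ v) ⬝ᵥ (P1 n *ᵥ v) = star v ⬝ᵥ (P1 n *ᵥ v) := by
    rw [Matrix.star_mulVec, P1_conjTranspose, ← Matrix.dotProduct_mulVec, Matrix.mulVec_mulVec,
      P1_mul_P1]
  have h2 : ‖star v ⬝ᵥ (P1 n *ᵥ v)‖ = nv (P1 n *ᵥ v) := by
    rw [← h1, RB_dot_self, Complex.norm_real, Real.norm_of_nonneg (nv_nonneg _)]
  have h3 := norm_dot_le v (P1 n *ᵥ v)
  rw [h2] at h3
  rw [one_pow, one_mul]
  set a := Real.sqrt (nv (P1 n *ᵥ v)) with ha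
  set b := Real.sqrt (nv v) with hb
  have ha2 : nv (P1 n *ᵥ v) = a ^ 2 := (Real.sq_sqrt (nv_nonneg _)).symm
  have hb2 : nv v = b ^ 2 := (Real.sq_sqrt (nv_nonneg _)).symm
  have ha0 : 0 ≤ a := Real.sqrt_nonneg _
  have hb0 : 0 ≤ b := Real.sqrt_nonneg _
  rw [ha2] at h3
  rw [ha2, hb2]
  rcases ha0.eq_or_lt with h | h
  · rw [← h]; nlinarith [sq_nonneg b]
  · have : a ≤ b := by
      by_contra hc
      nlinarith
    exact pow_le_pow_left₀ ha0 this 2

private lemma RB_hs2_one_sub (n : ℕ) : hs2 (1 - P1 n) ≤ 4 * (n : ℝ) ^ 2 := by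
  have h1 : opn (1 - P1 n) ≤ 2 := by
    refine (opn_sub_le _ _).trans ?_
    have := opn_one_le (ι := Fin n × Fin n)
    have := RB_opn_P1 n
    linarith
  have h2 := hs2_le_opn (1 - P1 n)
  have h3 : opn (1 - P1 n) ^ 2 ≤ 4 := by
    have := pow_le_pow_left₀ (opn_nonneg (1 - P1 n)) h1 2
    linarith
  have h4 : ((Fintype.card (Fin n × Fin n) : ℕ) : ℝ) = (n : ℝ) ^ 2 := by
    simp [Fintype.card_prod, sq]
  rw [h4] at h2
  have h5 : (n : ℝ) ^ 2 * opn (1 - P1 n) ^ 2 ≤ (n : ℝ) ^ 2 * 4 :=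
    mul_le_mul_of_nonneg_left h3 (by positivity)
  linarith

private lemma RB_hs2_FF (n : ℕ) (h : ℝ[X]) (g : Fin n × Fin n → ℂ) (M : ℝ)
    (hM : opn (aeval (DD (XX g)) h) ≤ M) : hs2 (FF h g) ≤ M ^ 2 * (4 * (n : ℝ) ^ 2) := by
  rw [FF_eq]
  refine (hs2_mul_le _ _).trans ?_
  apply mul_le_mul _ (RB_hs2_one_sub n) (hs2_nonneg _) (by positivity)
  exact pow_le_pow_left₀ (opn_nonneg _) hM 2

theorem hs2_FF_good (S : Setup) (n : ℕ) (hn : S.N ≤ n) (g : Fin n × Fin n → ℂ) (hg : g ∈ Gd n) :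
    hs2 (FF (S.f n) g) ≤ 16 * (n : ℝ) ^ 2 := by
  have hn1 : 1 ≤ n := le_trans S.N_pos hn
  have h := RB_hs2_FF n (S.f n) g 2 ?_
  · linarith
  · apply opn_aeval_le (psb_DD_Gd g hg) _ _ (by norm_num)
    intro x hx
    have h1 := S.app n hn x hx
    have h2 : |S.χ x| ≤ 1 := abs_le.mpr ⟨by linarith [S.nonneg x], S.le_one x⟩
    have h3 : (1 : ℝ) / (n : ℝ) ^ 4 ≤ 1 := by
      rw [div_le_one (by positivity)]
      exact one_le_pow₀ (by exact_mod_cast hn1)
    have h4 : |(S.f n).eval x| ≤ |S.χ x| + |S.χ x - (S.f n).eval x| := by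
      have := abs_sub_abs_le_abs_sub ((S.f n).eval x) (S.χ x)
      rw [abs_sub_comm] at this
      linarith
    linarith

theorem hs2_FF_growth (S : Setup) (n : ℕ) (hn : S.N ≤ n) (g : Fin n × Fin n → ℂ) :
    hs2 (FF (S.f n) g) ≤ 4 * (n : ℝ) ^ 2 * S.C ^ 2 * (32 * (1 + opn (XX g) ^ 2)) ^ n := by
  have h1 := opn_growth n (S.f n) S.C (n / 2) S.C_nonneg (S.gro n hn) g
  have h2 := RB_hs2_FF n (S.f n) g _ h1
  refine h2.trans ?_
  have hb : (1 : ℝ) ≤ 32 * (1 + opn (XX g) ^ 2) := by nlinarith [sq_nonneg (opn (XX g))]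
  have h3 : ((32 * (1 + opn (XX g) ^ 2)) ^ (n / 2)) ^ 2 ≤ (32 * (1 + opn (XX g) ^ 2)) ^ n := by
    rw [← pow_mul]
    exact pow_le_pow_right₀ hb (by omega)
  have h4 : 0 ≤ S.C ^ 2 * (4 * (n : ℝ) ^ 2) := by positivity
  have h5 := mul_le_mul_of_nonneg_left h3 h4
  calc (S.C * (32 * (1 + opn (XX g) ^ 2)) ^ (n / 2)) ^ 2 * (4 * (n : ℝ) ^ 2)
      = S.C ^ 2 * (4 * (n : ℝ) ^ 2) * ((32 * (1 + opn (XX g) ^ 2)) ^ (n / 2)) ^ 2 := by ring
    _ ≤ S.C ^ 2 * (4 * (n : ℝ) ^ 2) * (32 * (1 + opn (XX g) ^ 2)) ^ n := h5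
    _ = 4 * (n : ℝ) ^ 2 * S.C ^ 2 * (32 * (1 + opn (XX g) ^ 2)) ^ n := by ring

private lemma RB_PG_FF (n : ℕ) (h : ℝ[X]) (i j : Fin n × Fin n) :
    PG (fun g : Fin n × Fin n → ℂ => (FF h g) i j) := by
  have h1 := (PG_aeval n h i j).sub (PG.const (E := Fin n × Fin n → ℂ)
    (((h.eval 0 : ℝ) : ℂ) * P1 n i j))
  exact h1

theorem PG_hs2_FF (n : ℕ) (h : ℝ[X]) (θ : ℝ) :
    PG (fun p : (Fin n × Fin n → ℂ) × (Fin n × Fin n → ℂ) =>
      hs2 (FF h p.1 - FF h (rotP (Real.cos θ) (Real.sin θ) p).1)) := by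
  unfold hs2
  apply PG.sum
  intro i _
  apply PG.sum
  intro j _
  apply PG.powR
  apply PG.norm
  have h1 : PG (fun p : (Fin n × Fin n → ℂ) × (Fin n × Fin n → ℂ) => (FF h p.1) i j) :=
    (RB_PG_FF n h i j).comp PG.fst
  have h2 : PG (fun p : (Fin n × Fin n → ℂ) × (Fin n × Fin n → ℂ) =>
      (FF h (rotP (Real.cos θ) (Real.sin θ) p).1) i j) :=
    (RB_PG_FF n h i j).comp (PG.rot (Real.cos θ) (Real.sin θ))
  exact h1.sub h2

private lemma RB_PG_hs2 (n : ℕ) (h : ℝ[X]) :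
    PG (fun g : Fin n × Fin n → ℂ => hs2 (FF h g)) := by
  unfold hs2
  apply PG.sum
  intro i _
  apply PG.sum
  intro j _
  exact ((RB_PG_FF n h i j).norm).powR 2

private lemma RB_prob (n : ℕ) : IsProbabilityMeasure (gin n) := by
  unfold gin; infer_instance

private lemma RB_one_part (S : Setup) (n : ℕ) (hn : S.N ≤ n) (θ : ℝ) :
    ∫ p in {p : (Fin n × Fin n → ℂ) × (Fin n × Fin n → ℂ) |
        ¬ (p.1 ∈ Gd n ∧ (rotP (Real.cos θ) (Real.sin θ) p).1 ∈ Gd n)},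
      hs2 (FF (S.f n) p.1) ∂((gin n).prod (gin n))
      ≤ (4 * S.C ^ 2 + 16) * (n : ℝ) ^ 2 * Real.exp (-n) := by
  have hn1 : 1 ≤ n := le_trans S.N_pos hn
  have := RB_prob n
  have hcs : Real.cos θ ^ 2 + Real.sin θ ^ 2 = 1 := Real.cos_sq_add_sin_sq θ
  have hmp := measurePreserving_rotP n (Real.cos θ) (Real.sin θ) hcs
  set T : (Fin n × Fin n → ℂ) × (Fin n × Fin n → ℂ) → (Fin n × Fin n → ℂ) × (Fin n × Fin n → ℂ) :=
    rotP (Real.cos θ) (Real.sin θ) with hT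
  set A : Set ((Fin n × Fin n → ℂ) × (Fin n × Fin n → ℂ)) := Prod.fst ⁻¹' (Gd n)ᶜ with hA
  have hAm : MeasurableSet A := measurable_fst (measurableSet_Gd n).compl
  have hA'm : MeasurableSet (T ⁻¹' A) := hmp.measurable hAm
  set G : (Fin n × Fin n → ℂ) → ℝ := fun g =>
    4 * (n : ℝ) ^ 2 * S.C ^ 2 * (32 * (1 + opn (XX g) ^ 2)) ^ n with hG
  have hG0 : ∀ g, 0 ≤ G g := fun g => by simp only [hG]; positivity
  have hGPG : PG G := by
    have h1 : PG (fun g : Fin n × Fin n → ℂ => 1 + opn (XX g) ^ 2) :=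
      (PG.const (1 : ℝ)).add ((PG_opn n).powR 2)
    have h2 : PG (fun g : Fin n × Fin n → ℂ => (32 * (1 + opn (XX g) ^ 2)) ^ n) :=
      ((PG.const (32 : ℝ)).mulR h1).powR n
    exact (PG.const (4 * (n : ℝ) ^ 2 * S.C ^ 2)).mulR h2
  have hF := (RB_PG_hs2 n (S.f n))
  have hFi : Integrable (fun p : (Fin n × Fin n → ℂ) × (Fin n × Fin n → ℂ) =>
      hs2 (FF (S.f n) p.1)) ((gin n).prod (gin n)) := PG.integrable_prodR (hF.comp PG.fst)
  have hGi : Integrable (fun p : (Fin n × Fin n → ℂ) × (Fin n × Fin n → ℂ) =>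
      G p.1) ((gin n).prod (gin n)) := PG.integrable_prodR (hGPG.comp PG.fst)
  have hset : {p : (Fin n × Fin n → ℂ) × (Fin n × Fin n → ℂ) |
        ¬ (p.1 ∈ Gd n ∧ (T p).1 ∈ Gd n)} = A ∪ T ⁻¹' A := by
    ext p
    simp only [hA, Set.mem_union, Set.mem_preimage, Set.mem_compl_iff, Set.mem_ofPred_eq]
    tauto
  rw [hset, ← integral_indicator (hAm.union hA'm)]
  have hle : ∀ p, (A ∪ T ⁻¹' A).indicator (fun p => hs2 (FF (S.f n) p.1)) p ≤
      A.indicator (fun p => G p.1) p + (T ⁻¹' A).indicator (fun _ => 16 * (n : ℝ) ^ 2) p := by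
    intro p
    have e1 : 0 ≤ A.indicator (fun p => G p.1) p := Set.indicator_nonneg (fun p _ => hG0 p.1) p
    have e2 : 0 ≤ (T ⁻¹' A).indicator (fun _ => 16 * (n : ℝ) ^ 2) p :=
      Set.indicator_nonneg (fun p _ => by positivity) p
    by_cases hp : p ∈ A
    · rw [Set.indicator_of_mem (Set.mem_union_left _ hp), Set.indicator_of_mem hp]
      have := hs2_FF_growth S n hn p.1
      simp only [hG]
      simp only [hG] at e1
      linarith
    · by_cases hp' : p ∈ T ⁻¹' A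
      · rw [Set.indicator_of_mem (Set.mem_union_right _ hp'), Set.indicator_of_mem hp']
        have hg : p.1 ∈ Gd n := by
          by_contra hc
          exact hp hc
        have := hs2_FF_good S n hn p.1 hg
        linarith
      · rw [Set.indicator_of_notMem (by simp only [Set.mem_union]; tauto)]
        linarith
  have hint1 : Integrable (A.indicator (fun p : (Fin n × Fin n → ℂ) × (Fin n × Fin n → ℂ) =>
      G p.1)) ((gin n).prod (gin n)) := hGi.indicator hAm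
  have hint2 : Integrable ((T ⁻¹' A).indicator (fun _ : (Fin n × Fin n → ℂ) ×
      (Fin n × Fin n → ℂ) => 16 * (n : ℝ) ^ 2)) ((gin n).prod (gin n)) :=
    (integrable_const _).indicator hA'm
  refine (integral_mono (hFi.indicator (hAm.union hA'm)) (hint1.add hint2) hle).trans ?_
  rw [integral_add' hint1 hint2]
  have hI1 : ∫ p, A.indicator (fun p : (Fin n × Fin n → ℂ) × (Fin n × Fin n → ℂ) => G p.1) p
      ∂((gin n).prod (gin n)) ≤ 4 * (n : ℝ) ^ 2 * S.C ^ 2 * Real.exp (-n) := by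
    have h1 : (A.indicator (fun p : (Fin n × Fin n → ℂ) × (Fin n × Fin n → ℂ) => G p.1)) =
        fun p => (Gd n)ᶜ.indicator G p.1 := by
      funext p
      by_cases hp : p.1 ∈ (Gd n)ᶜ
      · rw [Set.indicator_of_mem hp, Set.indicator_of_mem (show p ∈ A from hp)]
      · rw [Set.indicator_of_notMem hp, Set.indicator_of_notMem (show p ∉ A from hp)]
    rw [h1, integral_fun_fst]
    rw [probReal_univ, one_smul, integral_indicator (measurableSet_Gd n).compl]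
    simp only [hG]
    rw [integral_const_mul]
    exact mul_le_mul_of_nonneg_left (tail n hn1 n le_rfl) (by positivity)
  have hI2 : ∫ p, (T ⁻¹' A).indicator (fun _ : (Fin n × Fin n → ℂ) ×
      (Fin n × Fin n → ℂ) => 16 * (n : ℝ) ^ 2) p
      ∂((gin n).prod (gin n)) ≤ 16 * (n : ℝ) ^ 2 * Real.exp (-n) := by
    rw [integral_indicator hA'm, setIntegral_const, smul_eq_mul]
    have h1 : ((gin n).prod (gin n)).real (T ⁻¹' A) = (gin n).real (Gd n)ᶜ := by
      unfold Measure.real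
      rw [hmp.measure_preimage hAm.nullMeasurableSet]
      have : A = (Gd n)ᶜ ×ˢ (Set.univ : Set (Fin n × Fin n → ℂ)) := by
        ext p; simp [hA]
      rw [this, Measure.prod_prod, measure_univ, mul_one]
    rw [h1]
    have h2 : (gin n).real (Gd n)ᶜ ≤ Real.exp (-n) := by
      unfold Measure.real
      have := ENNReal.toReal_mono ENNReal.ofReal_ne_top (prob_bad n hn1)
      rwa [ENNReal.toReal_ofReal (Real.exp_pos _).le] at this
    have h3 : (gin n).real (Gd n)ᶜ * (16 * (n : ℝ) ^ 2) ≤ Real.exp (-n) * (16 * (n : ℝ) ^ 2) :=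
      mul_le_mul_of_nonneg_right h2 (by positivity)
    linarith
  have e : 4 * (n : ℝ) ^ 2 * S.C ^ 2 * Real.exp (-n) + 16 * (n : ℝ) ^ 2 * Real.exp (-n) =
      (4 * S.C ^ 2 + 16) * (n : ℝ) ^ 2 * Real.exp (-n) := by ring
  linarith

theorem bad_part (S : Setup) (n : ℕ) (hn : S.N ≤ n) (θ : ℝ) :
    ∫ p in {p : (Fin n × Fin n → ℂ) × (Fin n × Fin n → ℂ) |
        ¬ (p.1 ∈ Gd n ∧ (rotP (Real.cos θ) (Real.sin θ) p).1 ∈ Gd n)},
      hs2 (FF (S.f n) p.1 - FF (S.f n) (rotP (Real.cos θ) (Real.sin θ) p).1)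
        ∂((gin n).prod (gin n))
      ≤ 4 * (4 * S.C ^ 2 + 16) * (n : ℝ) ^ 2 * Real.exp (-n) := by
  have := RB_prob n
  have hone := RB_one_part S n hn θ
  have hcs : Real.cos θ ^ 2 + Real.sin θ ^ 2 = 1 := Real.cos_sq_add_sin_sq θ
  have hmp := measurePreserving_rotP n (Real.cos θ) (Real.sin θ) hcs
  have hinv := rotP_rotP (ι := Fin n × Fin n) (Real.cos θ) (Real.sin θ) hcs
  set T : (Fin n × Fin n → ℂ) × (Fin n × Fin n → ℂ) → (Fin n × Fin n → ℂ) × (Fin n × Fin n → ℂ) :=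
    rotP (Real.cos θ) (Real.sin θ) with hT
  set B : Set ((Fin n × Fin n → ℂ) × (Fin n × Fin n → ℂ)) :=
    {p | ¬ (p.1 ∈ Gd n ∧ (T p).1 ∈ Gd n)} with hB
  have hBm : MeasurableSet B := by
    apply MeasurableSet.compl
    exact (measurable_fst (measurableSet_Gd n)).inter
      (hmp.measurable (measurable_fst (measurableSet_Gd n)))
  have hF := RB_PG_hs2 n (S.f n)
  have hFi : Integrable (fun p : (Fin n × Fin n → ℂ) × (Fin n × Fin n → ℂ) =>
      hs2 (FF (S.f n) p.1)) ((gin n).prod (gin n)) := PG.integrable_prodR (hF.comp PG.fst)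
  have hFTi : Integrable (fun p : (Fin n × Fin n → ℂ) × (Fin n × Fin n → ℂ) =>
      hs2 (FF (S.f n) (T p).1)) ((gin n).prod (gin n)) :=
    PG.integrable_prodR (hF.comp (PG.rot (Real.cos θ) (Real.sin θ)))
  have hDi : Integrable (fun p : (Fin n × Fin n → ℂ) × (Fin n × Fin n → ℂ) =>
      hs2 (FF (S.f n) p.1 - FF (S.f n) (T p).1)) ((gin n).prod (gin n)) :=
    PG.integrable_prodR (PG_hs2_FF n (S.f n) θ)
  have hsym : ∫ p in B, hs2 (FF (S.f n) (T p).1) ∂((gin n).prod (gin n)) =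
      ∫ p in B, hs2 (FF (S.f n) p.1) ∂((gin n).prod (gin n)) := by
    rw [← integral_indicator hBm, ← integral_indicator hBm]
    have h1 : ∫ p, B.indicator (fun p : (Fin n × Fin n → ℂ) × (Fin n × Fin n → ℂ) =>
        hs2 (FF (S.f n) p.1)) p ∂(((gin n).prod (gin n)).map T) =
        ∫ p, B.indicator (fun p : (Fin n × Fin n → ℂ) × (Fin n × Fin n → ℂ) =>
        hs2 (FF (S.f n) p.1)) (T p) ∂((gin n).prod (gin n)) := by
      apply integral_map hmp.measurable.aemeasurable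
      rw [hmp.map_eq]
      exact (hFi.indicator hBm).aestronglyMeasurable
    rw [hmp.map_eq] at h1
    rw [h1]
    congr 1
    funext p
    have hiff : T p ∈ B ↔ p ∈ B := by
      simp only [hB, Set.mem_ofPred_eq, hinv]
      tauto
    by_cases hp : p ∈ B
    · rw [Set.indicator_of_mem hp, Set.indicator_of_mem (hiff.mpr hp)]
    · rw [Set.indicator_of_notMem hp, Set.indicator_of_notMem (fun h => hp (hiff.mp h))]
  have hmono : ∫ p in B, hs2 (FF (S.f n) p.1 - FF (S.f n) (T p).1) ∂((gin n).prod (gin n)) ≤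
      ∫ p in B, (2 * hs2 (FF (S.f n) p.1) + 2 * hs2 (FF (S.f n) (T p).1))
        ∂((gin n).prod (gin n)) := by
    apply integral_mono hDi.integrableOn ((hFi.const_mul 2).add (hFTi.const_mul 2)).integrableOn
    intro p
    exact hs2_sub_le _ _
  refine hmono.trans ?_
  rw [integral_add (hFi.const_mul 2).integrableOn (hFTi.const_mul 2).integrableOn,
    integral_const_mul, integral_const_mul, hsym]
  linarith

end Pool.Agent.H55.ML
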