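/-
E1c (RotC).  The rotation estimate.  Needs RotA, RotB, Tail.  About 150 lines.
PROOF.  c = cos θ, s = sin θ, p = (g, g'), g_θ = c g + s g'.  On both good events use rot_good:
opn (XX g - XX g_θ)^2 = opn ((1-c) X - s X')^2 <= 2 (1-c)^2 opn X^2 + 2 s^2 opn X'^2 <= 2 θ² (opn X^2 + opn X'^2)
(1 - cos θ <= θ²/2 <= θ, |sin θ| <= θ for 0 <= θ <= 1).
Term with Tr G(D_g): integral over {g ∈ Gd} (drop the condition on g_θ: the integrand is nonnegative because
Re Tr G(D) >= 0 on Gd by G0 and Herm.aeval_trace_mono): independent variables: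
2 θ² (KK/8 + E opn X'^2) ∫_{Gd} Re Tr G <= 2 θ² (KK/8 + C2) S.C (mom2).
Term with Tr G(D_{g_θ}): apply the measure preserving involution rotP c s, which exchanges g and g_θ: same bound.
Total: C θ² + 8/n^6 + bad_part, C = 64 L² KK · 4 (KK/8 + C2) S.C,
e n = 8/n^6 + 4(4 C² + 16) n² exp(-n) → 0.
-/
import Pool.Agent.H55.ML.RotA
import Pool.Agent.H55.ML.RotB

namespace Pool.Agent.H55.ML
open MeasureTheory ProbabilityTheory Polynomial Matrix Filter Topology

private noncomputable def TT (S : Setup) (n : ℕ) (g : Fin n × Fin n → ℂ) : ℝ :=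
  ((aeval (DD (XX g)) (S.G n)).trace).re

private theorem PG_TT (S : Setup) (n : ℕ) : PG (TT S n) := by
  have h : PG (fun g : Fin n × Fin n → ℂ => (aeval (DD (XX g)) (S.G n)).trace) := by
    unfold Matrix.trace
    exact PG.sum _ (fun p _ => PG_aeval n (S.G n) p p)
  exact h.re

private theorem TT_nonneg (S : Setup) (n : ℕ) (hn : S.N ≤ n) {g : Fin n × Fin n → ℂ}
    (hg : g ∈ Gd n) : 0 ≤ TT S n g := by
  have h := aeval_trace_mono (psb_DD_Gd g hg) 0 (S.G n)
    (fun x hx => by rw [Polynomial.eval_zero]; exact S.G0 n hn x hx)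
  simpa [TT] using h

private theorem XX_sub (n : ℕ) (g h : Fin n × Fin n → ℂ) : XX (g - h) = XX g - XX h := by
  have h1 := XX_add (g - h) h
  rw [sub_add_cancel] at h1
  rw [h1, add_sub_cancel_right]

private theorem opn_neg' {n : ℕ} (A : Mat n) : opn (-A) = opn A := by
  have h := opn_smul (-1 : ℂ) A
  rw [neg_one_smul, norm_neg, norm_one, one_mul] at h
  exact h

private abbrev Pr (n : ℕ) := (Fin n × Fin n → ℂ) × (Fin n × Fin n → ℂ)

/-- the squared operator norm of the difference -/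
private noncomputable def dd (n : ℕ) (c s : ℝ) (p : Pr n) : ℝ :=
  opn (XX p.1 - XX (rotP c s p).1) ^ 2

private theorem dd_eq (n : ℕ) (c s : ℝ) (p : Pr n) :
    dd n c s p = opn (XX (p.1 - ((c : ℂ) • p.1 + (s : ℂ) • p.2))) ^ 2 := by
  unfold dd rotP
  rw [XX_sub]

private theorem PG_dd (n : ℕ) (c s : ℝ) : PG (dd n c s) := by
  have h1 : PG (fun p : Pr n => p.1 - ((c : ℂ) • p.1 + (s : ℂ) • p.2)) :=
    PG.sub PG.fst (PG.rot c s)
  have h2 := ((PG_opn n).comp h1).powR 2
  have h3 : dd n c s = fun p : Pr n => opn (XX (p.1 - ((c : ℂ) • p.1 + (s : ℂ) • p.2))) ^ 2 := by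
    funext p
    exact dd_eq n c s p
  rw [h3]
  exact h2

private theorem dd_le (n : ℕ) (θ : ℝ) (hθ : θ ∈ Set.Icc (0 : ℝ) 1) (p : Pr n) :
    dd n (Real.cos θ) (Real.sin θ) p
      ≤ 2 * θ ^ 2 * (opn (XX p.1) ^ 2 + opn (XX p.2) ^ 2) := by
  obtain ⟨h0, h1⟩ := hθ
  set c := Real.cos θ with hc
  set s := Real.sin θ with hs
  have hc1 : |1 - c| ≤ θ := by
    have h2 : 1 - θ ^ 2 / 2 ≤ c := Real.one_sub_sq_div_two_le_cos
    have h3 : c ≤ 1 := Real.cos_le_one θ
    rw [abs_of_nonneg (by linarith)]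
    nlinarith
  have hs1 : |s| ≤ θ := by
    have := Real.abs_sin_le_abs (x := θ)
    rw [abs_of_nonneg h0] at this
    exact this
  have e : p.1 - ((c : ℂ) • p.1 + (s : ℂ) • p.2)
      = ((1 - c : ℝ) : ℂ) • p.1 - ((s : ℝ) : ℂ) • p.2 := by
    push_cast
    rw [sub_smul, one_smul]
    abel
  rw [dd_eq, e, XX_sub, XX_smul, XX_smul]
  have h4 : opn (((1 - c : ℝ) : ℂ) • XX p.1 - ((s : ℝ) : ℂ) • XX p.2)
      ≤ θ * opn (XX p.1) + θ * opn (XX p.2) := by
    refine (opn_sub_le _ _).trans ?_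
    rw [opn_smul, opn_smul, Complex.norm_real, Complex.norm_real, Real.norm_eq_abs,
      Real.norm_eq_abs]
    exact add_le_add (mul_le_mul_of_nonneg_right hc1 (opn_nonneg _))
      (mul_le_mul_of_nonneg_right hs1 (opn_nonneg _))
  have h5 := pow_le_pow_left₀ (opn_nonneg _) h4 2
  refine h5.trans ?_
  nlinarith [sq_nonneg (opn (XX p.1) - opn (XX p.2)), sq_nonneg θ,
    mul_nonneg (sq_nonneg θ) (sq_nonneg (opn (XX p.1) - opn (XX p.2)))]

/-- the good set -/
private def GA (n : ℕ) (c s : ℝ) : Set (Pr n) := {p | p.1 ∈ Gd n ∧ (rotP c s p).1 ∈ Gd n}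

private theorem meas_GA (n : ℕ) (c s : ℝ) (h : c ^ 2 + s ^ 2 = 1) : MeasurableSet (GA n c s) :=
  (measurable_fst (measurableSet_Gd n)).inter
    ((measurable_fst.comp (measurePreserving_rotP n c s h).measurable) (measurableSet_Gd n))

private theorem gin_prob (n : ℕ) : IsProbabilityMeasure (gin n) := by
  unfold gin
  infer_instance

private theorem lin {α : Type*} {m : MeasurableSpace α} (μ : Measure α) [IsFiniteMeasure μ]
    (f g : α → ℝ) (hf : Integrable f μ) (hg : Integrable g μ) (K d : ℝ) (A : Set α) :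
    ∫ p in A, (K * (f p + g p) + d) ∂μ
      = K * (∫ p in A, f p ∂μ + ∫ p in A, g p ∂μ) + μ.real A * d := by
  have hf' := hf.integrableOn (s := A)
  have hg' := hg.integrableOn (s := A)
  have h1 : ∫ p in A, (K * (f p + g p) + d) ∂μ = ∫ p in A, (K * (f p + g p)) ∂μ + ∫ _p in A, d ∂μ :=
    integral_add ((hf'.add hg').const_mul K) (integrable_const d).integrableOn
  have h2 : ∫ p in A, (f p + g p) ∂μ = ∫ p in A, f p ∂μ + ∫ p in A, g p ∂μ :=
    integral_add hf' hg'
  rw [h1, integral_const_mul, h2, setIntegral_const, smul_eq_mul]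

private theorem int1 (S : Setup) (C2 : ℝ) (n : ℕ) (hn : S.N ≤ n)
    (hC2 : ∫ g : Fin n × Fin n → ℂ, opn (XX g) ^ 2 ∂(gin n) ≤ C2)
    (θ : ℝ) (hθ : θ ∈ Set.Icc (0 : ℝ) 1) :
    ∫ p in GA n (Real.cos θ) (Real.sin θ), dd n (Real.cos θ) (Real.sin θ) p * TT S n p.1
      ∂((gin n).prod (gin n)) ≤ 2 * θ ^ 2 * ((KK / 8 + C2) * S.C) := by
  have := gin_prob n
  set c := Real.cos θ with hc
  set s := Real.sin θ with hs
  have hcs : c ^ 2 + s ^ 2 = 1 := Real.cos_sq_add_sin_sq θ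
  have hPG1 : PG (fun p : Pr n => dd n c s p * TT S n p.1) :=
    (PG_dd n c s).mulR ((PG_TT S n).comp PG.fst)
  have hPG2 : PG (fun p : Pr n => 2 * θ ^ 2 * (TT S n p.1 * (KK / 8 + opn (XX p.2) ^ 2))) :=
    (PG.const (2 * θ ^ 2)).mulR (((PG_TT S n).comp PG.fst).mulR
      ((PG.const (KK / 8)).add (((PG_opn n).comp PG.snd).powR 2)))
  have hKK : (0 : ℝ) ≤ KK := by unfold KK; norm_num
  have h1 : ∫ p in GA n c s, dd n c s p * TT S n p.1 ∂((gin n).prod (gin n))
      ≤ ∫ p in GA n c s, 2 * θ ^ 2 * (TT S n p.1 * (KK / 8 + opn (XX p.2) ^ 2))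
        ∂((gin n).prod (gin n)) := by
    refine setIntegral_mono_on hPG1.integrable_prodR.integrableOn
      hPG2.integrable_prodR.integrableOn (meas_GA n c s hcs) fun p hp => ?_
    have hT := TT_nonneg S n hn hp.1
    have hX : opn (XX p.1) ^ 2 ≤ KK / 8 := by
      have := hp.1
      simp only [Gd, Set.mem_ofPred_eq] at this
      linarith
    have hd := dd_le n θ hθ p
    have h2 : dd n c s p ≤ 2 * θ ^ 2 * (KK / 8 + opn (XX p.2) ^ 2) := by
      refine hd.trans ?_
      exact mul_le_mul_of_nonneg_left (by linarith) (by positivity)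
    calc dd n c s p * TT S n p.1 ≤ 2 * θ ^ 2 * (KK / 8 + opn (XX p.2) ^ 2) * TT S n p.1 :=
          mul_le_mul_of_nonneg_right h2 hT
      _ = _ := by ring
  have hsub : GA n c s ⊆ (Gd n) ×ˢ Set.univ := fun p hp => ⟨hp.1, Set.mem_univ _⟩
  have h2 : ∫ p in GA n c s, 2 * θ ^ 2 * (TT S n p.1 * (KK / 8 + opn (XX p.2) ^ 2))
        ∂((gin n).prod (gin n))
      ≤ ∫ p in (Gd n) ×ˢ Set.univ, 2 * θ ^ 2 * (TT S n p.1 * (KK / 8 + opn (XX p.2) ^ 2))
        ∂((gin n).prod (gin n)) := by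
    refine setIntegral_mono_set hPG2.integrable_prodR.integrableOn ?_
      (Filter.Eventually.of_forall hsub)
    refine (ae_restrict_iff' ((measurableSet_Gd n).prod MeasurableSet.univ)).2
      (Filter.Eventually.of_forall fun p hp => ?_)
    have hT := TT_nonneg S n hn hp.1
    simp only [Pi.zero_apply]
    positivity
  refine h1.trans (h2.trans ?_)
  have hprod := setIntegral_prod_mul (μ := gin n) (ν := gin n) (TT S n)
    (fun g : Fin n × Fin n → ℂ => KK / 8 + opn (XX g) ^ 2) (Gd n) Set.univ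
  rw [integral_const_mul, hprod, Measure.restrict_univ,
    integral_add (integrable_const _) ((PG_opn n).powR 2).integrableR, integral_const]
  simp only [probReal_univ, smul_eq_mul, one_mul]
  have h3 : ∫ g in Gd n, TT S n g ∂(gin n) ≤ S.C := S.Gtr n hn
  have h4 : 0 ≤ ∫ g : Fin n × Fin n → ℂ, opn (XX g) ^ 2 ∂(gin n) :=
    integral_nonneg fun g => by positivity
  have h5 : 0 ≤ ∫ g in Gd n, TT S n g ∂(gin n) :=
    setIntegral_nonneg (measurableSet_Gd n) fun g hg => TT_nonneg S n hn hg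
  refine mul_le_mul_of_nonneg_left ?_ (by positivity)
  calc (∫ g in Gd n, TT S n g ∂(gin n)) * (KK / 8 + ∫ g : Fin n × Fin n → ℂ, opn (XX g) ^ 2 ∂(gin n))
      ≤ S.C * (KK / 8 + C2) :=
        mul_le_mul h3 (by linarith) (by positivity) S.C_nonneg
    _ = _ := by ring

private theorem int2 (S : Setup) (n : ℕ) (c s : ℝ) (h : c ^ 2 + s ^ 2 = 1) :
    ∫ p in GA n c s, dd n c s p * TT S n (rotP c s p).1 ∂((gin n).prod (gin n))
      = ∫ p in GA n c s, dd n c s p * TT S n p.1 ∂((gin n).prod (gin n)) := by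
  have hmp := measurePreserving_rotP n c s h
  let e : Pr n ≃ᵐ Pr n :=
    { toFun := rotP c s
      invFun := rotP c s
      left_inv := fun p => rotP_rotP c s h p
      right_inv := fun p => rotP_rotP c s h p
      measurable_toFun := hmp.measurable
      measurable_invFun := hmp.measurable }
  have hemb : MeasurableEmbedding (rotP c s : Pr n → Pr n) := e.measurableEmbedding
  have h1 := hmp.setIntegral_preimage_emb hemb (fun p => dd n c s p * TT S n p.1) (GA n c s)
  have hpre : (rotP c s : Pr n → Pr n) ⁻¹' (GA n c s) = GA n c s := by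
    ext p
    simp only [GA, Set.mem_preimage, Set.mem_ofPred_eq, rotP_rotP c s h]
    exact and_comm
  have hdd : ∀ p : Pr n, dd n c s (rotP c s p) = dd n c s p := by
    intro p
    unfold dd
    rw [rotP_rotP c s h, ← opn_neg', neg_sub]
  rw [hpre] at h1
  simp only [hdd] at h1
  exact h1

theorem rotate (S : Setup) : ∃ (C : ℝ) (e : ℕ → ℝ), 0 ≤ C ∧ Tendsto e atTop (𝓝 0) ∧
    ∀ n, S.N ≤ n → ∀ θ ∈ Set.Icc (0 : ℝ) 1,
      ∫ p, hs2 (FF (S.f n) p.1 - FF (S.f n) (rotP (Real.cos θ) (Real.sin θ) p).1)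
        ∂((gin n).prod (gin n)) ≤ C * θ ^ 2 + e n := by
  obtain ⟨C2', hC2'⟩ := mom2
  set C2 : ℝ := max C2' 0 with hC2
  have hKK : (0 : ℝ) ≤ KK := by unfold KK; norm_num
  have hK1 : 0 ≤ 64 * S.L ^ 2 * KK := by positivity
  refine ⟨64 * S.L ^ 2 * KK * (4 * ((KK / 8 + C2) * S.C)),
    fun n => 8 / (n : ℝ) ^ 6 + 4 * (4 * S.C ^ 2 + 16) * ((n : ℝ) ^ 2 * Real.exp (-n)),
    mul_nonneg hK1 (mul_nonneg (by norm_num) (mul_nonneg
      (add_nonneg (by positivity) (le_max_right _ _)) S.C_nonneg)), ?_, ?_⟩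
  · have h1 : Tendsto (fun n : ℕ => 8 / (n : ℝ) ^ 6) atTop (𝓝 0) :=
      tendsto_const_nhds.div_atTop ((tendsto_pow_atTop (by norm_num)).comp
        tendsto_natCast_atTop_atTop)
    have h2 : Tendsto (fun n : ℕ => (n : ℝ) ^ 2 * Real.exp (-n)) atTop (𝓝 0) :=
      (Real.tendsto_pow_mul_exp_neg_atTop_nhds_zero 2).comp tendsto_natCast_atTop_atTop
    have h3 := h1.add (h2.const_mul (4 * (4 * S.C ^ 2 + 16)))
    simpa using h3
  · intro n hn θ hθ
    have := gin_prob n
    have hn1 : 1 ≤ n := S.N_pos.trans hn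
    have hcs : Real.cos θ ^ 2 + Real.sin θ ^ 2 = 1 := Real.cos_sq_add_sin_sq θ
    set c := Real.cos θ with hc
    set s := Real.sin θ with hs
    set μ := (gin n).prod (gin n) with hμ
    have hH : PG (fun p : Pr n => hs2 (FF (S.f n) p.1 - FF (S.f n) (rotP c s p).1)) :=
      PG_hs2_FF n (S.f n) θ
    have hPG1 : PG (fun p : Pr n => dd n c s p * TT S n p.1) :=
      (PG_dd n c s).mulR ((PG_TT S n).comp PG.fst)
    have hPG2 : PG (fun p : Pr n => dd n c s p * TT S n (rotP c s p).1) :=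
      (PG_dd n c s).mulR ((PG_TT S n).comp (PG.rot c s))
    have hmA := meas_GA n c s hcs
    have hbad := bad_part S n hn θ
    have hcompl : (GA n c s)ᶜ = {p : Pr n | ¬ (p.1 ∈ Gd n ∧ (rotP c s p).1 ∈ Gd n)} := rfl
    have hi1 := hPG1.integrable_prodR (n := n)
    have hi2 := hPG2.integrable_prodR (n := n)
    have hgood : ∫ p in GA n c s, hs2 (FF (S.f n) p.1 - FF (S.f n) (rotP c s p).1) ∂μ
        ≤ 64 * S.L ^ 2 * KK * (4 * ((KK / 8 + C2) * S.C)) * θ ^ 2 + 8 / (n : ℝ) ^ 6 := by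
      have h1 : ∫ p in GA n c s, hs2 (FF (S.f n) p.1 - FF (S.f n) (rotP c s p).1) ∂μ
          ≤ ∫ p in GA n c s, (64 * S.L ^ 2 * KK * (dd n c s p * TT S n p.1
            + dd n c s p * TT S n (rotP c s p).1) + 8 / (n : ℝ) ^ 6) ∂μ := by
        refine setIntegral_mono_on hH.integrable_prodR.integrableOn
          (((hi1.add hi2).const_mul _).add (integrable_const _)).integrableOn hmA fun p hp => ?_
        refine (rot_good S n hn p.1 (rotP c s p).1 hp.1 hp.2).trans (le_of_eq ?_)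
        unfold dd TT
        ring
      refine h1.trans ?_
      rw [lin μ _ _ hi1 hi2, int2 S n c s hcs]
      have h2 := int1 S C2 n hn ((hC2' n hn1).trans (le_max_left _ _)) θ hθ
      have h3 : μ.real (GA n c s) ≤ 1 := measureReal_le_one
      have h4 : μ.real (GA n c s) * (8 / (n : ℝ) ^ 6) ≤ 8 / (n : ℝ) ^ 6 := by
        have : 0 ≤ 8 / (n : ℝ) ^ 6 := by positivity
        nlinarith
      have h5 := mul_le_mul_of_nonneg_left (add_le_add h2 h2) hK1
      refine (add_le_add h5 h4).trans (le_of_eq ?_)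
      ring
    rw [← integral_add_compl hmA hH.integrable_prodR, hcompl]
    refine (add_le_add hgood hbad).trans (le_of_eq ?_)
    ring

end Pool.Agent.H55.ML
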