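/-
S7 (Dist).  The soft projection is close to the chaos of order q.  Needs Chaos, RotC.  About 80 lines.
PROOF.  q >= 4, θ = 2/√q <= 1: cos θ <= 1 - θ²/4 <= exp(-θ²/4) (cos θ <= 1 - θ²/2 + θ⁴/24, or Real.cos_lt...),
cos^q θ <= exp(-q θ²/4) = exp(-1) <= 1/2, so 2 (1 - cos^q θ) >= 1 and by chaos_dist and rotate
∫ hs2 (F - G) <= C θ² + e n = 4 C/q + e n.
-/
import Pool.Agent.H55.ML.Chaos
import Pool.Agent.H55.ML.RotC

namespace Pool.Agent.H55.ML
open MeasureTheory ProbabilityTheory Matrix Filter Topology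

private theorem dist_hs2_nonneg {ι κ : Type*} [Fintype ι] [Fintype κ] (A : Matrix ι κ ℂ) :
    0 ≤ hs2 A := by
  unfold hs2
  exact Finset.sum_nonneg fun i _ => Finset.sum_nonneg fun j _ => by positivity

private theorem dist_cos (q : ℕ) (hq : 4 ≤ q) :
    1 ≤ 2 * (1 - Real.cos (2 / Real.sqrt q) ^ q) := by
  have hq0 : (0 : ℝ) < q := by
    have : 0 < q := by omega
    exact_mod_cast this
  have hs : 2 ≤ Real.sqrt q := by
    rw [show (2 : ℝ) = Real.sqrt 4 by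
      rw [show (4 : ℝ) = 2 ^ 2 by norm_num, Real.sqrt_sq (by norm_num)]]
    exact Real.sqrt_le_sqrt (by exact_mod_cast hq)
  have hs0 : 0 < Real.sqrt q := by linarith
  set θ : ℝ := 2 / Real.sqrt q with hθ
  have h0 : 0 < θ := by positivity
  have h1 : θ ≤ 1 := by
    rw [hθ, div_le_one hs0]
    exact hs
  have hsq : θ ^ 2 = 4 / q := by
    rw [hθ, div_pow, Real.sq_sqrt hq0.le]
    norm_num
  have hcb := Real.cos_bound (x := θ) (by rw [abs_of_pos h0]; exact h1)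
  have hc1 : Real.cos θ ≤ 1 - θ ^ 2 / 4 := by
    have h2 := (abs_le.1 hcb).2
    rw [abs_of_pos h0] at h2
    have h3 : θ ^ 4 ≤ θ ^ 2 := by
      have : θ ^ 2 ≤ 1 := by nlinarith
      nlinarith [sq_nonneg θ]
    nlinarith [sq_nonneg θ]
  have hc0 : 0 ≤ Real.cos θ := by
    apply Real.cos_nonneg_of_mem_Icc
    constructor <;> [linarith [Real.pi_pos]; linarith [Real.pi_gt_three]]
  have hc2 : Real.cos θ ≤ Real.exp (-(θ ^ 2 / 4)) := by
    have := Real.add_one_le_exp (-(θ ^ 2 / 4))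
    linarith
  have hc3 : Real.cos θ ^ q ≤ Real.exp (-1) := by
    calc Real.cos θ ^ q ≤ Real.exp (-(θ ^ 2 / 4)) ^ q := pow_le_pow_left₀ hc0 hc2 q
      _ = Real.exp (-1) := by
        rw [← Real.exp_nat_mul, hsq]
        congr 1
        field_simp
  have he : Real.exp (-1) ≤ 1 / 2 := by
    have := Real.exp_neg_one_lt_d9
    linarith
  linarith

theorem dist_chaos (S : Setup) : ∃ (C : ℝ) (e : ℕ → ℝ), 0 ≤ C ∧ Tendsto e atTop (𝓝 0) ∧
    ∀ n, S.N ≤ n → ∀ q : ℕ, 4 ≤ q → ∃ F ∈ SS n q,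
      ∫ g, hs2 (FF (S.f n) g - F g) ∂(gin n) ≤ C / q + e n := by
  obtain ⟨C, e, hC, he, hrot⟩ := rotate S
  refine ⟨4 * C, e, by positivity, he, fun n hn q hq => ?_⟩
  have hq0 : (0 : ℝ) < q := by
    have : 0 < q := by omega
    exact_mod_cast this
  have hs : 2 ≤ Real.sqrt q := by
    rw [show (2 : ℝ) = Real.sqrt 4 by
      rw [show (4 : ℝ) = 2 ^ 2 by norm_num, Real.sqrt_sq (by norm_num)]]
    exact Real.sqrt_le_sqrt (by exact_mod_cast hq)
  have hs0 : 0 < Real.sqrt q := by linarith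
  have h0 : 0 < 2 / Real.sqrt q := by positivity
  have h1 : 2 / Real.sqrt q ≤ 1 := by
    rw [div_le_one hs0]
    exact hs
  have hsq : (2 / Real.sqrt q) ^ 2 = 4 / q := by
    rw [div_pow, Real.sq_sqrt hq0.le]
    norm_num
  obtain ⟨G, hG, hGd⟩ := chaos_dist (FF (S.f n)) _ (FF_mem n (S.f n)) q (2 / Real.sqrt q) h0 h1
  refine ⟨G, hG, ?_⟩
  have hI : 0 ≤ ∫ g, hs2 (FF (S.f n) g - G g) ∂(gin n) :=
    integral_nonneg fun g => dist_hs2_nonneg _
  have hr := hrot n hn (2 / Real.sqrt q) ⟨h0.le, h1⟩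
  have hcos := dist_cos q hq
  have hfin : C * (2 / Real.sqrt q) ^ 2 = 4 * C / q := by
    rw [hsq]
    ring
  nlinarith [mul_le_mul_of_nonneg_right hcos hI]

end Pool.Agent.H55.ML
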