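/-
YL (GapLow).  Spectral gap dT >= 3 - 2√2.  Needs QfT, PInj.  About 180 lines.
PROOF.  C_b = creation of b on the left, A_b = its adjoint (annihilation), LT b = C_b + A_(!b).
(1) A_t LT_t - LT_t A_t + A_f LT_f - LT_f A_f = 1 + P_Ω: A_b C_b = 1, C_t A_t + C_f A_f = 1 - P_Ω and the terms
A_t A_f, A_f A_t cancel.
(2) A_b RT_b' ξ = RT_b' A_b ξ if ξ [] = 0 (the commutator is supported on the empty word).
(3) for ξ [] = 0, δ = LT t - RT t, δ' = LT f - RT f its adjoint: ‖ξ‖² = <ξ, (1 + P_Ω) ξ> =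
<C_t ξ, δ ξ> - <δ' ξ, A_t ξ> + <C_f ξ, δ' ξ> - <δ ξ, A_f ξ>, so
‖ξ‖² <= ‖(C_t - A_f) ξ‖ ‖δ ξ‖ + ‖(C_f - A_t) ξ‖ ‖δ' ξ‖ <= sqrt(‖(C_t - A_f) ξ‖² + ‖(C_f - A_t) ξ‖²) sqrt(qT ξ), and
‖(C_t - A_f) ξ‖² + ‖(C_f - A_t) ξ‖² <= 2‖ξ‖² + ‖ξ‖² - 2 Re <(C_f C_t + C_t C_f) ξ, ξ> <= (3 + 2√2) ‖ξ‖²
(‖(C_f C_t + C_t C_f) ξ‖² = 2 ‖ξ‖²).  So qT ξ >= ‖ξ‖²/(3 + 2√2) = (3 - 2√2) ‖ξ‖².
-/
import Pool.Agent.H55.ML.QfT

namespace Pool.Agent.H55.ML

private def ph (b : Bool) : List Bool → Option (List Bool)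
  | [] => none
  | a :: w => if a = b then some w else none

private theorem exCA (b : Bool) : ∃ C A : E1 →L[ℂ] E1,
    (∀ (f : E1) (a : Bool) (w : List Bool), (C f : List Bool → ℂ) (a :: w) = if a = b then f w else 0) ∧
    (∀ f : E1, (C f : List Bool → ℂ) [] = 0) ∧
    (∀ (f : E1) (w : List Bool), (A f : List Bool → ℂ) w = f (b :: w)) ∧
    ContinuousLinearMap.adjoint C = A := by
  obtain ⟨T, S, hT, hS, -, -, hTS⟩ := pinj (ph b) (fun w => some (b :: w)) (by
    intro x y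
    cases x with
    | nil => simp [ph]
    | cons a x =>
      by_cases h : a = b
      · subst h; simp [ph, eq_comm]
      · simp [ph, h, Ne.symm h])
  refine ⟨T, S, fun f a w => ?_, fun f => ?_, fun f w => ?_, hTS⟩
  · rw [hT]
    by_cases h : a = b
    · simp [ph, h]
    · simp [ph, h]
  · rw [hT]; rfl
  · rw [hS]; rfl

private theorem cL_cons_true (f : List Bool → ℂ) (a : Bool) (w : List Bool) :
    cL true f (a :: w) = (if a = true then f w else 0) + f (false :: a :: w) := rfl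

private theorem cL_cons_false (f : List Bool → ℂ) (a : Bool) (w : List Bool) :
    cL false f (a :: w) = (if a = false then f w else 0) + f (true :: a :: w) := rfl

private theorem cR_comm (b b' : Bool) (f : List Bool → ℂ) (hf : f [] = 0) (w : List Bool) :
    cR b' f (b :: w) = cR b' (fun u => f (b :: u)) w := by
  unfold cR cL
  have h2 : ((!b') :: (b :: w).reverse).reverse = b :: ((!b') :: w.reverse).reverse := by simp
  beta_reduce
  rw [h2]
  congr 1
  rcases hw : w.reverse with _ | ⟨a, v⟩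
  · have hw' : w = [] := by simpa using hw
    subst hw'
    simp only [List.reverse_cons, List.reverse_nil, List.nil_append, cre, hf]
    split_ifs <;> rfl
  · have h3 : (b :: w).reverse = a :: (v ++ [b]) := by
      rw [List.reverse_cons, hw]; rfl
    rw [h3]
    simp only [cre, List.reverse_append, List.reverse_cons, List.reverse_nil, List.nil_append,
      List.singleton_append]

private theorem gap (f : E1) (hf : f [] = 0) :
    (3 - 2 * Real.sqrt 2) * ‖f‖ ^ 2 ≤ qT f := by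
  obtain ⟨Ct, At, hCt, hCt0, hAt, hadt⟩ := exCA true
  obtain ⟨Cf, Af, hCf, hCf0, hAf, hadf⟩ := exCA false
  -- adjoint relations
  have iAt : ∀ x y : E1, inner ℂ x (At y) = inner ℂ (Ct x) y := fun x y => by
    rw [← hadt, ContinuousLinearMap.adjoint_inner_right]
  have iAf : ∀ x y : E1, inner ℂ x (Af y) = inner ℂ (Cf x) y := fun x y => by
    rw [← hadf, ContinuousLinearMap.adjoint_inner_right]
  have iCt : ∀ x y : E1, inner ℂ x (Ct y) = inner ℂ (At x) y := fun x y => by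
    rw [← hadt, ContinuousLinearMap.adjoint_inner_left]
  have iCf : ∀ x y : E1, inner ℂ x (Cf y) = inner ℂ (Af x) y := fun x y => by
    rw [← hadf, ContinuousLinearMap.adjoint_inner_left]
  have iLt : ∀ x y : E1, inner ℂ x (LT true y) = inner ℂ (LT false x) y := fun x y => by
    have h := adjoint_LT false
    simp only [Bool.not_false] at h
    rw [← h, ContinuousLinearMap.adjoint_inner_right]
  have iLf : ∀ x y : E1, inner ℂ x (LT false y) = inner ℂ (LT true x) y := fun x y => by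
    have h := adjoint_LT true
    simp only [Bool.not_true] at h
    rw [← h, ContinuousLinearMap.adjoint_inner_right]
  have iRt : ∀ x y : E1, inner ℂ x (RT true y) = inner ℂ (RT false x) y := fun x y => by
    have h := adjoint_RT false
    simp only [Bool.not_false] at h
    rw [← h, ContinuousLinearMap.adjoint_inner_right]
  have iRf : ∀ x y : E1, inner ℂ x (RT false y) = inner ℂ (RT true x) y := fun x y => by
    have h := adjoint_RT true
    simp only [Bool.not_true] at h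
    rw [← h, ContinuousLinearMap.adjoint_inner_right]
  -- pointwise relations
  have eLt : ∀ x : E1, LT true x = Ct x + Af x := by
    intro x
    apply lp.ext
    funext w
    rw [LT_apply, lp.coeFn_add, Pi.add_apply, hAf]
    cases w with
    | nil => rw [hCt0]; rfl
    | cons a w => rw [hCt]; rfl
  have eLf : ∀ x : E1, LT false x = Cf x + At x := by
    intro x
    apply lp.ext
    funext w
    rw [LT_apply, lp.coeFn_add, Pi.add_apply, hAt]
    cases w with
    | nil => rw [hCf0]; rfl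
    | cons a w => rw [hCf]; rfl
  have eAtCt : ∀ x : E1, At (Ct x) = x := by
    intro x
    apply lp.ext
    funext w
    rw [hAt, hCt, if_pos rfl]
  have eAfCf : ∀ x : E1, Af (Cf x) = x := by
    intro x
    apply lp.ext
    funext w
    rw [hAf, hCf, if_pos rfl]
  have eAfCt : ∀ x : E1, Af (Ct x) = 0 := by
    intro x
    apply lp.ext
    funext w
    rw [hAf, hCt, if_neg (by decide)]
    rfl
  have eS : ∀ x : E1, x [] = 0 → Ct (At x) + Cf (Af x) = x := by
    intro x hx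
    apply lp.ext
    funext w
    rw [lp.coeFn_add, Pi.add_apply]
    rcases w with _ | ⟨a, w⟩
    · rw [hCt0, hCf0, hx, add_zero]
    · rw [hCt, hCf, hAt, hAf]
      cases a <;> simp
  have eRt : ∀ x : E1, x [] = 0 → ∀ b' : Bool, At (RT b' x) = RT b' (At x) := by
    intro x hx b'
    apply lp.ext
    funext w
    rw [hAt, RT_apply, RT_apply, cR_comm true b' x hx w]
    congr 1
    funext u
    rw [hAt]
  have eRf : ∀ x : E1, x [] = 0 → ∀ b' : Bool, Af (RT b' x) = RT b' (Af x) := by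
    intro x hx b'
    apply lp.ext
    funext w
    rw [hAf, RT_apply, RT_apply, cR_comm false b' x hx w]
    congr 1
    funext u
    rw [hAf]
  -- the main identity
  set d : E1 := LT true f - RT true f with hd
  set d' : E1 := LT false f - RT false f with hd'
  have key : At d - (LT true (At f) - RT true (At f)) + (Af d' - (LT false (Af f) - RT false (Af f)))
      = f := by
    have h1 := eS f hf
    rw [hd, hd', map_sub, map_sub, eRt f hf, eRf f hf]
    have e1 : At (LT true f) = f + At (Af f) := by rw [eLt, map_add, eAtCt]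
    have e2 : LT true (At f) = Ct (At f) + Af (At f) := eLt _
    have e3 : Af (LT false f) = f + Af (At f) := by rw [eLf, map_add, eAfCf]
    have e4 : LT false (Af f) = Cf (Af f) + At (Af f) := eLf _
    rw [e1, e2, e3, e4]
    have : f + At (Af f) - RT true (At f) - (Ct (At f) + Af (At f) - RT true (At f)) +
        (f + Af (At f) - RT false (Af f) - (Cf (Af f) + At (Af f) - RT false (Af f)))
        = f + f - (Ct (At f) + Cf (Af f)) := by abel
    rw [this, h1]
    abel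
  have eAtCf : ∀ x : E1, At (Cf x) = 0 := by
    intro x
    apply lp.ext
    funext w
    rw [hAt, hCf, if_neg (by decide)]
    rfl
  have nsq : ∀ x : E1, (inner ℂ x x).re = ‖x‖ ^ 2 := fun x => by
    have := inner_self_eq_norm_sq (𝕜 := ℂ) x
    simpa using this
  have hin : inner ℂ f f = inner ℂ (Ct f) d - inner ℂ d' (At f) + (inner ℂ (Cf f) d' - inner ℂ d (Af f)) := by
    have h1 : inner ℂ f f = inner ℂ f (At d - (LT true (At f) - RT true (At f))
        + (Af d' - (LT false (Af f) - RT false (Af f)))) := by rw [key]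
    rw [h1, inner_add_right, inner_sub_right, inner_sub_right, inner_sub_right, inner_sub_right,
      iAt, iAf, iLt, iRt, iLf, iRf, hd, hd', inner_sub_left, inner_sub_left]
  have hre : ‖f‖ ^ 2 ≤ ‖Ct f - Af f‖ * ‖d‖ + ‖Cf f - At f‖ * ‖d'‖ := by
    have h1 := congrArg Complex.re hin
    rw [nsq] at h1
    simp only [Complex.add_re, Complex.sub_re] at h1
    have s1 : (inner ℂ d' (At f)).re = (inner ℂ (At f) d').re := by
      have := inner_re_symm (𝕜 := ℂ) d' (At f)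
      simpa using this
    have s2 : (inner ℂ d (Af f)).re = (inner ℂ (Af f) d).re := by
      have := inner_re_symm (𝕜 := ℂ) d (Af f)
      simpa using this
    have h2 : (inner ℂ (Ct f - Af f) d).re ≤ ‖Ct f - Af f‖ * ‖d‖ := by
      exact re_inner_le_norm (𝕜 := ℂ) (Ct f - Af f) d
    have h3 : (inner ℂ (Cf f - At f) d').re ≤ ‖Cf f - At f‖ * ‖d'‖ := by
      exact re_inner_le_norm (𝕜 := ℂ) (Cf f - At f) d'
    rw [inner_sub_left, Complex.sub_re] at h2 h3
    rw [h1, s1, s2]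
    linarith
  have nCt : ∀ x : E1, ‖Ct x‖ ^ 2 = ‖x‖ ^ 2 := fun x => by
    rw [← nsq, ← nsq, ← iAt, eAtCt]
  have nCf : ∀ x : E1, ‖Cf x‖ ^ 2 = ‖x‖ ^ 2 := fun x => by
    rw [← nsq, ← nsq, ← iAf, eAfCf]
  have nA : ‖At f‖ ^ 2 + ‖Af f‖ ^ 2 = ‖f‖ ^ 2 := by
    rw [← nsq, ← nsq, ← nsq, ← iCt, ← iCf, ← Complex.add_re, ← inner_add_right, eS f hf]
  set V : E1 := Cf (Ct f) + Ct (Cf f) with hV
  have hcross : (inner ℂ (Ct f) (Af f)).re + (inner ℂ (Cf f) (At f)).re = (inner ℂ V f).re := by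
    rw [hV, inner_add_left, Complex.add_re, iAf, iAt]
  have hVn : ‖V‖ ^ 2 = 2 * ‖f‖ ^ 2 := by
    have h1 := norm_add_sq (𝕜 := ℂ) (Cf (Ct f)) (Ct (Cf f))
    rw [iCt, eAtCf, inner_zero_left, nCf, nCt, nCt, nCf] at h1
    rw [hV, h1]
    simp
    ring
  have hVr : ‖V‖ = Real.sqrt 2 * ‖f‖ := by
    have h1 : ‖V‖ ^ 2 = (Real.sqrt 2 * ‖f‖) ^ 2 := by
      rw [hVn, mul_pow, Real.sq_sqrt (by norm_num)]
    exact (pow_left_inj₀ (norm_nonneg _) (by positivity) two_ne_zero).1 h1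
  have hVf : -(Real.sqrt 2 * ‖f‖ ^ 2) ≤ (inner ℂ V f).re := by
    have h1 := re_inner_le_norm (𝕜 := ℂ) (-V) f
    rw [inner_neg_left, norm_neg, hVr] at h1
    have h2 : -(inner ℂ V f).re ≤ Real.sqrt 2 * ‖f‖ * ‖f‖ := by simpa using h1
    nlinarith
  have hab : ‖Ct f - Af f‖ ^ 2 + ‖Cf f - At f‖ ^ 2 ≤ (3 + 2 * Real.sqrt 2) * ‖f‖ ^ 2 := by
    have h1 := norm_sub_sq (𝕜 := ℂ) (Ct f) (Af f)
    have h2 := norm_sub_sq (𝕜 := ℂ) (Cf f) (At f)
    rw [nCt] at h1
    rw [nCf] at h2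
    have h3 : (RCLike.re (inner ℂ (Ct f) (Af f)) : ℝ) = (inner ℂ (Ct f) (Af f)).re := rfl
    have h4 : (RCLike.re (inner ℂ (Cf f) (At f)) : ℝ) = (inner ℂ (Cf f) (At f)).re := rfl
    rw [h3] at h1
    rw [h4] at h2
    rw [h1, h2]
    nlinarith
  have hq : qT f = ‖d‖ ^ 2 + ‖d'‖ ^ 2 := by
    rw [← re_inner_DT f]
    have h1 : DT f = (LT false d - RT false d) + (LT true d' - RT true d') := by
      unfold DT DDg
      rfl
    rw [h1, inner_add_right, inner_sub_right, inner_sub_right, iLf, iRf, iLt, iRt,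
      ← inner_sub_left, ← inner_sub_left, ← hd, ← hd', Complex.add_re, nsq, nsq]
  have hs2 : Real.sqrt 2 ^ 2 = 2 := Real.sq_sqrt (by norm_num)
  have hs0 : 0 ≤ Real.sqrt 2 := Real.sqrt_nonneg 2
  have hs1 : Real.sqrt 2 < 3 / 2 := by
    rw [Real.sqrt_lt' (by norm_num)]
    norm_num
  rcases eq_or_ne (‖f‖) 0 with h0 | h0
  · rw [h0, hq]
    have : 0 ≤ ‖d‖ ^ 2 + ‖d'‖ ^ 2 := by positivity
    simpa using this
  · have hpos : 0 < ‖f‖ ^ 2 := by positivity
    have hcs : (‖Ct f - Af f‖ * ‖d‖ + ‖Cf f - At f‖ * ‖d'‖) ^ 2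
        ≤ (‖Ct f - Af f‖ ^ 2 + ‖Cf f - At f‖ ^ 2) * (‖d‖ ^ 2 + ‖d'‖ ^ 2) := by
      nlinarith [sq_nonneg (‖Ct f - Af f‖ * ‖d'‖ - ‖Cf f - At f‖ * ‖d‖)]
    have h1 : (‖f‖ ^ 2) ^ 2 ≤ ((3 + 2 * Real.sqrt 2) * ‖f‖ ^ 2) * (‖d‖ ^ 2 + ‖d'‖ ^ 2) := by
      refine (pow_le_pow_left₀ hpos.le hre 2).trans (hcs.trans ?_)
      exact mul_le_mul_of_nonneg_right hab (by positivity)
    have h2 : ‖f‖ ^ 2 ≤ (3 + 2 * Real.sqrt 2) * (‖d‖ ^ 2 + ‖d'‖ ^ 2) := by
      have h3 : ‖f‖ ^ 2 * ‖f‖ ^ 2 ≤ ‖f‖ ^ 2 * ((3 + 2 * Real.sqrt 2) * (‖d‖ ^ 2 + ‖d'‖ ^ 2)) := by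
        calc ‖f‖ ^ 2 * ‖f‖ ^ 2 = (‖f‖ ^ 2) ^ 2 := by ring
          _ ≤ _ := h1
          _ = _ := by ring
      exact le_of_mul_le_mul_left h3 hpos
    have h4 : (3 - 2 * Real.sqrt 2) * ‖f‖ ^ 2
        ≤ (3 - 2 * Real.sqrt 2) * ((3 + 2 * Real.sqrt 2) * (‖d‖ ^ 2 + ‖d'‖ ^ 2)) :=
      mul_le_mul_of_nonneg_left h2 (by linarith)
    rw [hq]
    refine h4.trans (le_of_eq ?_)
    have : (3 - 2 * Real.sqrt 2) * (3 + 2 * Real.sqrt 2) = 1 := by
      linear_combination (-4) * hs2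
    rw [← mul_assoc, this, one_mul]

theorem dT_ge : 3 - 2 * Real.sqrt 2 ≤ dT := by
  unfold dT
  refine le_csInf ⟨_, Pi.single [true] 1, by simp, ?_, rfl⟩ ?_
  · have h := hasSum_single (f := fun w : List Bool => ‖(Pi.single [true] (1 : ℂ) : List Bool → ℂ) w‖ ^ 2)
      [true] (fun w hw => by simp [hw])
    simpa using h
  · rintro r ⟨f, hf0, hf1, rfl⟩
    have hmem : Memℓp f 2 := by
      refine memℓp_gen ?_
      have := hf1.summable
      simpa using this
    have h := gap ⟨f, hmem⟩ hf0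
    have hn : ‖(⟨f, hmem⟩ : E1)‖ ^ 2 = 1 := by
      have h1 := lp.norm_rpow_eq_tsum (p := 2) (by norm_num) (⟨f, hmem⟩ : E1)
      simp only [ENNReal.toReal_ofNat, Real.rpow_ofNat] at h1
      rw [h1]
      exact hf1.tsum_eq
    rw [hn, mul_one] at h
    exact h

end Pool.Agent.H55.ML
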