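/-
YU (GapUp).  Upper bound dC <= 6 - 4√2.  Needs QfC (or only Defs).  About 180 lines.
PROOF.  Product functions f(x,y) = g(x) g(y), g real of finite support on words of EVEN length, sum g² = 1.
Then c1 b f - c2 b f = (cL b g)(x) g(y) - g(x) (cL b g)(y), cL b g lives on odd words, so the cross terms vanish and
sum |.|² = 2 sum |cL b g|².  So qC f = 2 (sum |cL true g|² + sum |cL false g|²) = 2 (3 + cross) where, with C_b = creation,
A_b = annihilation: sum |cL true g|² + sum |cL false g|² = 2 sum g² + sum_{w ≠ []} g(w)² + 2 <g, (C_f C_t + C_t C_f) g>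
= 3 - g([])² + 2 <g, V g>, (V g)(w) = g(w') if w = [f,t] ++ w' or w = [t,f] ++ w'.
Take g(w) = (-1)^j x_j 2^(-j/2) for w a concatenation of j blocks [t,f] or [f,t] (there are 2^j of them) and 0
otherwise: sum g² = sum x_j², <g, V g> = - √2 sum x_j x_{j+1}.  With x_j = 1/√N for j < N:
qC f <= 2 (3 - 2√2 (N-1)/N), and N → ∞.
-/
import Pool.Agent.H55.ML.QfC

namespace Pool.Agent.H55.ML

private lemma gu_mul {α β : Type} {f : α → ℝ} {g : β → ℝ} {a b : ℝ} (hf : HasSum f a)
    (hg : HasSum g b) (hf0 : ∀ x, 0 ≤ f x) (hg0 : ∀ x, 0 ≤ g x) :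
    HasSum (fun p : α × β => f p.1 * g p.2) (a * b) :=
  hf.mul hg (hf.summable.mul_of_nonneg hg.summable hf0 hg0)

private noncomputable def guX : List Bool → (ℕ → ℝ) → ℝ
  | [], x => x 0
  | [_], _ => 0
  | a :: b :: w, x => if a = b then 0 else guX w (fun j => x (j + 1))

private lemma guX_nil (x : ℕ → ℝ) : guX [] x = x 0 := by rw [guX]

private lemma guX_one (a : Bool) (x : ℕ → ℝ) : guX [a] x = 0 := by rw [guX]

private lemma guX_cons (a b : Bool) (w : List Bool) (x : ℕ → ℝ) :
    guX (a :: b :: w) x = if a = b then 0 else guX w (fun j => x (j + 1)) := by rw [guX]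

private lemma guX_add (n : ℕ) : ∀ (w : List Bool), w.length ≤ n → ∀ x y : ℕ → ℝ,
    guX w (fun j => x j + y j) = guX w x + guX w y := by
  induction n with
  | zero =>
    intro w hw x y
    have : w = [] := List.length_eq_zero_iff.1 (by omega)
    subst this
    rw [guX_nil, guX_nil, guX_nil]
  | succ n ih =>
    intro w hw x y
    rcases w with _ | ⟨a, _ | ⟨b, w⟩⟩
    · rw [guX_nil, guX_nil, guX_nil]
    · rw [guX_one, guX_one, guX_one, add_zero]
    · rw [guX_cons, guX_cons, guX_cons]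
      split_ifs
      · rw [add_zero]
      · exact ih w (by simp only [List.length_cons] at hw; omega) _ _

private lemma guX_zero (n : ℕ) : ∀ (w : List Bool), w.length ≤ n → ∀ x : ℕ → ℝ, (∀ j, x j = 0) →
    guX w x = 0 := by
  induction n with
  | zero =>
    intro w hw x hx
    have : w = [] := List.length_eq_zero_iff.1 (by omega)
    subst this
    rw [guX_nil, hx]
  | succ n ih =>
    intro w hw x hx
    rcases w with _ | ⟨a, _ | ⟨b, w⟩⟩
    · rw [guX_nil, hx]
    · rw [guX_one]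
    · rw [guX_cons]
      split_ifs
      · rfl
      · exact ih w (by simp only [List.length_cons] at hw; omega) _ fun j => hx _

private lemma guX_odd (n : ℕ) : ∀ (w : List Bool), w.length ≤ n → ∀ x : ℕ → ℝ,
    ¬ Even w.length → guX w x = 0 := by
  induction n with
  | zero =>
    intro w hw x hx
    exfalso
    apply hx
    rw [show w.length = 0 by omega]
    exact Even.zero
  | succ n ih =>
    intro w hw x hx
    rcases w with _ | ⟨a, _ | ⟨b, w⟩⟩
    · exfalso
      apply hx
      exact Even.zero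
    · rw [guX_one]
    · rw [guX_cons]
      split_ifs
      · rfl
      · refine ih w (by simp only [List.length_cons] at hw; omega) _ fun h => hx ?_
        simp only [List.length_cons]
        rw [show w.length + 1 + 1 = w.length + 2 by ring]
        exact h.add (by norm_num)

private lemma gu_sum (N : ℕ) : ∀ x : ℕ → ℝ, (∀ j, N ≤ j → x j = 0) →
    HasSum (fun w => guX w x ^ 2) (∑ j ∈ Finset.range N, 2 ^ j * x j ^ 2) := by
  induction N with
  | zero =>
    intro x hx
    have h : (fun w => guX w x ^ 2) = fun _ => (0 : ℝ) := by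
      funext w
      rw [guX_zero w.length w le_rfl x fun j => hx j (Nat.zero_le _)]
      norm_num
    rw [h, Finset.sum_range_zero]
    exact hasSum_zero
  | succ N ih =>
    intro x hx
    have h1 := ih (fun j => x (j + 1)) fun j hj => hx _ (by omega)
    have h2 : HasSum (fun _ : Bool => (1 : ℝ)) 2 := by
      have := hasSum_fintype (fun _ : Bool => (1 : ℝ))
      simpa using this
    have h3 := gu_mul h2 h1 (fun _ => zero_le_one) (fun w => sq_nonneg _)
    have hinj : Function.Injective (fun p : Bool × List Bool => p.1 :: (!p.1) :: p.2) := by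
      rintro ⟨a, w⟩ ⟨b, v⟩ h
      simp only [List.cons.injEq] at h
      exact Prod.ext h.1 h.2.2
    have h4 : HasSum (fun w : List Bool => if w = [] then (0 : ℝ) else guX w x ^ 2)
        (2 * ∑ j ∈ Finset.range N, 2 ^ j * x (j + 1) ^ 2) := by
      rw [← hinj.hasSum_iff]
      · refine h3.congr_fun ?_
        rintro ⟨a, w⟩
        simp only [Function.comp, guX_cons, reduceCtorEq, if_false, one_mul]
        rw [if_neg]
        cases a <;> simp
      · intro w hw
        rcases w with _ | ⟨a, _ | ⟨b, w⟩⟩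
        · simp
        · simp [guX_one]
        · have hab : a = b := by
            by_contra hab
            apply hw
            refine ⟨(a, w), ?_⟩
            cases a <;> cases b <;> simp_all
          simp [guX_cons, hab]
    have h5 : HasSum (fun w : List Bool => if w = [] then x 0 ^ 2 else 0) (x 0 ^ 2) :=
      hasSum_ite_eq [] (x 0 ^ 2)
    have h6 := h5.add h4
    rw [Finset.sum_range_succ']
    have e1 : (∑ j ∈ Finset.range N, 2 ^ (j + 1) * x (j + 1) ^ 2) + 2 ^ 0 * x 0 ^ 2 =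
        x 0 ^ 2 + 2 * ∑ j ∈ Finset.range N, 2 ^ j * x (j + 1) ^ 2 := by
      rw [Finset.mul_sum, pow_zero, one_mul, add_comm]
      congr 1
      refine Finset.sum_congr rfl fun j _ => ?_
      ring
    rw [e1]
    refine h6.congr_fun ?_
    intro w
    rcases w with _ | ⟨a, w⟩
    · simp [guX_nil]
    · simp

private noncomputable def guH (b : Bool) (x : ℕ → ℝ) : List Bool → ℝ
  | [] => 0
  | a :: w => if a = b then guX w (fun j => x j + x (j + 1)) else 0

private lemma gu_H (b : Bool) (x : ℕ → ℝ) (u : List Bool) :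
    (match u with
      | [] => 0
      | a :: w => if a = b then guX w x else 0) + guX ((!b) :: u) x = guH b x u := by
  rcases u with _ | ⟨a, w⟩
  · simp [guX_one, guH]
  · rw [guX_cons]
    simp only [guH]
    rw [guX_add w.length w le_rfl]
    cases a <;> cases b <;> simp

private lemma gu_Hg (b : Bool) (x : ℕ → ℝ) (u : List Bool) : guH b x u * guX u x = 0 := by
  rcases u with _ | ⟨a, w⟩
  · simp [guH]
  · by_cases he : Even w.length
    · rw [guX_odd _ (a :: w) le_rfl x, mul_zero]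
      simp only [List.length_cons]
      exact fun h => (Nat.not_even_iff_odd.2 he.add_one) h
    · simp only [guH]
      rw [guX_odd w.length w le_rfl _ he]
      simp

private lemma gu_sumH (b : Bool) (N : ℕ) (x : ℕ → ℝ) (hx : ∀ j, N ≤ j → x j = 0) :
    HasSum (fun w => guH b x w ^ 2) (∑ j ∈ Finset.range N, 2 ^ j * (x j + x (j + 1)) ^ 2) := by
  have h1 := gu_sum N (fun j => x j + x (j + 1)) fun j hj => by
    rw [hx j hj, hx (j + 1) (by omega), add_zero]
  have hinj : Function.Injective (fun w : List Bool => b :: w) := fun u v h => by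
    simpa using h
  rw [← hinj.hasSum_iff]
  · refine h1.congr_fun ?_
    intro w
    simp [guH]
  · intro w hw
    rcases w with _ | ⟨a, w⟩
    · simp [guH]
    · have hab : a ≠ b := by
        rintro rfl
        exact hw ⟨w, rfl⟩
      simp [guH, hab]

private noncomputable def guF (x : ℕ → ℝ) (p : List Bool × List Bool) : ℂ :=
  ((guX p.1 x * guX p.2 x : ℝ) : ℂ)

private lemma gu_c1 (b : Bool) (x : ℕ → ℝ) (p : List Bool × List Bool) :
    c1 b (guF x) p = ((guH b x p.1 * guX p.2 x : ℝ) : ℂ) := by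
  obtain ⟨u, v⟩ := p
  unfold c1 cL guF
  rw [← gu_H b x u]
  rcases u with _ | ⟨a, w⟩
  · simp [cre]
  · simp only [cre]
    by_cases h : a = b
    · simp [h, add_mul]
    · simp [h]

private lemma gu_c2 (b : Bool) (x : ℕ → ℝ) (p : List Bool × List Bool) :
    c2 b (guF x) p = ((guX p.1 x * guH b x p.2 : ℝ) : ℂ) := by
  obtain ⟨u, v⟩ := p
  unfold c2 cL guF
  rw [← gu_H b x v]
  rcases v with _ | ⟨a, w⟩
  · simp [cre]
  · simp only [cre]
    by_cases h : a = b
    · simp [h, mul_add]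
    · simp [h]

private lemma gu_q (b : Bool) (N : ℕ) (x : ℕ → ℝ) (hx : ∀ j, N ≤ j → x j = 0)
    (h1 : ∑ j ∈ Finset.range N, 2 ^ j * x j ^ 2 = 1) :
    ∑' p, ‖c1 b (guF x) p - c2 b (guF x) p‖ ^ 2 =
      2 * ∑ j ∈ Finset.range N, 2 ^ j * (x j + x (j + 1)) ^ 2 := by
  have g := gu_sum N x hx
  rw [h1] at g
  have h := gu_sumH b N x hx
  have s1 := gu_mul h g (fun w => sq_nonneg _) (fun w => sq_nonneg _)
  have s2 := gu_mul g h (fun w => sq_nonneg _) (fun w => sq_nonneg _)
  have s3 := s1.add s2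
  have e : (fun p => ‖c1 b (guF x) p - c2 b (guF x) p‖ ^ 2) = fun p : List Bool × List Bool =>
      guH b x p.1 ^ 2 * guX p.2 x ^ 2 + guX p.1 x ^ 2 * guH b x p.2 ^ 2 := by
    funext p
    rw [gu_c1, gu_c2, ← Complex.ofReal_sub, Complex.norm_real, Real.norm_eq_abs, sq_abs]
    have z := gu_Hg b x p.1
    linear_combination (-2 * guX p.2 x * guH b x p.2) * z
  rw [e, s3.tsum_eq]
  ring

private lemma gu_dC (N : ℕ) (x : ℕ → ℝ) (hx : ∀ j, N ≤ j → x j = 0)
    (h1 : ∑ j ∈ Finset.range N, 2 ^ j * x j ^ 2 = 1) :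
    dC ≤ 4 * ∑ j ∈ Finset.range N, 2 ^ j * (x j + x (j + 1)) ^ 2 := by
  have g := gu_sum N x hx
  rw [h1] at g
  have s := gu_mul g g (fun w => sq_nonneg _) (fun w => sq_nonneg _)
  rw [one_mul] at s
  have hf : HasSum (fun p => ‖guF x p‖ ^ 2) 1 := by
    refine s.congr_fun ?_
    intro p
    unfold guF
    rw [Complex.norm_real, Real.norm_eq_abs, sq_abs, mul_pow]
  have hq : qC (guF x) = 4 * ∑ j ∈ Finset.range N, 2 ^ j * (x j + x (j + 1)) ^ 2 := by
    unfold qC
    rw [gu_q true N x hx h1, gu_q false N x hx h1]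
    ring
  rw [← hq]
  unfold dC
  refine csInf_le ⟨0, ?_⟩ ⟨guF x, hf, rfl⟩
  rintro r ⟨f, -, rfl⟩
  unfold qC
  exact add_nonneg (tsum_nonneg fun p => sq_nonneg _) (tsum_nonneg fun p => sq_nonneg _)

private lemma gu_bound (M : ℕ) : dC ≤ 6 - 4 * Real.sqrt 2 + 4 / ((M : ℝ) + 1) := by
  have hN : (0 : ℝ) < (M : ℝ) + 1 := by positivity
  set r : ℝ := -(Real.sqrt 2)⁻¹ with hr
  have h2 : Real.sqrt 2 ^ 2 = 2 := Real.sq_sqrt (by norm_num)
  have h2p : 0 < Real.sqrt 2 := Real.sqrt_pos.2 (by norm_num)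
  have hr2 : r ^ 2 = 1 / 2 := by
    rw [hr, neg_sq, inv_pow, h2]
    norm_num
  have hr1 : r = -(Real.sqrt 2 / 2) := by
    rw [hr]
    congr 1
    field_simp
    exact h2.symm
  have hp : ∀ j : ℕ, (2 : ℝ) ^ j * (r ^ j) ^ 2 = 1 := by
    intro j
    rw [← pow_mul, mul_comm j 2, pow_mul, hr2, ← mul_pow]
    norm_num
  set s : ℝ := (Real.sqrt ((M : ℝ) + 1))⁻¹ with hs
  have hs2 : s ^ 2 = 1 / ((M : ℝ) + 1) := by
    rw [hs, inv_pow, Real.sq_sqrt hN.le, one_div]
  set x : ℕ → ℝ := fun j => if j < M + 1 then r ^ j * s else 0 with hxdef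
  have hx0 : ∀ j, M + 1 ≤ j → x j = 0 := fun j hj => if_neg (by omega)
  have hx1 : ∀ j, j < M + 1 → x j = r ^ j * s := fun j hj => if_pos hj
  have h1 : ∑ j ∈ Finset.range (M + 1), 2 ^ j * x j ^ 2 = 1 := by
    have : ∀ j ∈ Finset.range (M + 1), 2 ^ j * x j ^ 2 = 1 / ((M : ℝ) + 1) := by
      intro j hj
      rw [hx1 j (Finset.mem_range.1 hj), mul_pow, ← mul_assoc, hp, one_mul, hs2]
    rw [Finset.sum_congr rfl this, Finset.sum_const, Finset.card_range, nsmul_eq_mul]
    push_cast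
    field_simp
  have hd := gu_dC (M + 1) x hx0 h1
  have h3 : ∑ j ∈ Finset.range (M + 1), 2 ^ j * (x j + x (j + 1)) ^ 2 =
      (M : ℝ) * ((1 + r) ^ 2 / ((M : ℝ) + 1)) + 1 / ((M : ℝ) + 1) := by
    rw [Finset.sum_range_succ]
    congr 1
    · have : ∀ j ∈ Finset.range M, 2 ^ j * (x j + x (j + 1)) ^ 2 =
          (1 + r) ^ 2 / ((M : ℝ) + 1) := by
        intro j hj
        have hj' := Finset.mem_range.1 hj
        rw [hx1 j (by omega), hx1 (j + 1) (by omega)]
        have : (2 : ℝ) ^ j * (r ^ j * s + r ^ (j + 1) * s) ^ 2 =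
            (2 ^ j * (r ^ j) ^ 2) * ((1 + r) ^ 2 * s ^ 2) := by ring
        rw [this, hp, hs2]
        ring
      rw [Finset.sum_congr rfl this, Finset.sum_const, Finset.card_range, nsmul_eq_mul]
    · rw [hx1 M (by omega), hx0 (M + 1) le_rfl, add_zero, mul_pow, ← mul_assoc, hp, one_mul, hs2]
  rw [h3] at hd
  refine hd.trans ?_
  have h5 : (1 + r) ^ 2 = 3 / 2 - Real.sqrt 2 := by
    rw [hr1]
    linear_combination (1 / 4) * h2
  have h6 : Real.sqrt 2 ≤ 3 / 2 := by
    rw [Real.sqrt_le_left (by norm_num)]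
    norm_num
  rw [h5]
  have h7 : 4 * ((M : ℝ) * ((3 / 2 - Real.sqrt 2) / ((M : ℝ) + 1)) + 1 / ((M : ℝ) + 1)) =
      (6 - 4 * Real.sqrt 2) * ((M : ℝ) / ((M : ℝ) + 1)) + 4 / ((M : ℝ) + 1) := by
    field_simp
    ring
  rw [h7]
  have h8 : (M : ℝ) / ((M : ℝ) + 1) ≤ 1 := by
    rw [div_le_one hN]
    linarith
  have h9 : (6 - 4 * Real.sqrt 2) * ((M : ℝ) / ((M : ℝ) + 1)) ≤ (6 - 4 * Real.sqrt 2) * 1 :=
    mul_le_mul_of_nonneg_left h8 (by linarith)
  linarith

theorem dC_le_six : dC ≤ 6 - 4 * Real.sqrt 2 := by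
  refine le_of_forall_pos_le_add fun ε hε => ?_
  obtain ⟨M, hM⟩ := exists_nat_gt (4 / ε)
  refine (gu_bound M).trans ?_
  have hM0 : (0 : ℝ) < (M : ℝ) + 1 := by positivity
  have h : 4 / ((M : ℝ) + 1) ≤ ε := by
    rw [div_le_iff₀ hM0]
    rw [div_lt_iff₀ hε] at hM
    nlinarith
  linarith

end Pool.Agent.H55.ML
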