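/-
L1 (Gram).  The Gram matrix of the generators is nondegenerate with high probability.  Needs TrConv, KV, MomC, Indep.
About 220 lines.
PROOF.  Normalized Gram entries: (1/n²) Tr of the adjoint of one generator times the other, index set Bool × s:
 L-L: (trace_LR_LR) tr(ev (st u ++ u')) tr(ev (v' ++ st v)) → tau(st u ++ u') tau(v' ++ st v) = tau(st u ++ u') tau(st v ++ v')
 K-K: (trace_K_K) the same; L-K: (trace_LR_K) (1/n) tr(word) → 0.
Limit form: Q0(c) = sum_{p,p'} conj(c p) c p' inner (Vp p) (Vp p') = ‖sum c p Vp p‖² (inner_C), > 0 unless c = 0 on s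
(ev_C_apply and indep2), so by compactness of the unit sphere of (s → ℂ) Q0(c) >= 2 γ sum ‖c p‖² for some γ > 0.
hs2 (sum)/n² = form of the Gram matrix (hs2_eq_trace); it differs from Q0(c) + Q0(c') by at most
(max |entry - limit|) (sum |c| + |c'|)² <= (max) · 2 card s · sum (‖c‖²+‖c'‖²).  So the bad event is contained in the union
over the finitely many pairs of indices of {|entry - limit| >= γ/(2 card s + 1)}: EvZ.
-/
import Pool.Agent.H55.ML.TrConv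
import Pool.Agent.H55.ML.KV
import Pool.Agent.H55.ML.MomC
import Pool.Agent.H55.ML.Indep

namespace Pool.Agent.H55.ML
open MeasureTheory ProbabilityTheory Polynomial Matrix


private theorem evz_biUnion {α : Type*} (S : Finset α) (A : α → ∀ n : ℕ, Set (Fin n × Fin n → ℂ))
    (h : ∀ a ∈ S, EvZ (A a)) : EvZ (fun n => ⋃ a ∈ S, A a n) := by
  classical
  induction S using Finset.induction_on with
  | empty =>
    unfold EvZ
    simp
  | insert a S ha ih =>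
    have h1 := h a (Finset.mem_insert_self _ _)
    have h2 := ih (fun b hb => h b (Finset.mem_insert_of_mem hb))
    refine (h1.union h2).mono (Filter.Eventually.of_forall fun n => ?_)
    rw [Finset.set_biUnion_insert]

/-- the generators -/
private noncomputable def gen {n : ℕ} (g : Fin n × Fin n → ℂ)
    (q : Bool × (List Bool × List Bool)) : Op n :=
  if q.1 then Lf (ev (XX g) (XX g)ᴴ q.2.1) * Rt (ev (XX g) (XX g)ᴴ q.2.2)
  else Kop (ev (XX g) (XX g)ᴴ q.2.1) (ev (XX g) (XX g)ᴴ q.2.2)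

private noncomputable def TT (p p' : List Bool × List Bool) : ℂ :=
  ((tau (st p.1 ++ p'.1) * tau (st p.2 ++ p'.2) : ℝ) : ℂ)

private noncomputable def LL (q q' : Bool × (List Bool × List Bool)) : ℂ :=
  if q.1 = q'.1 then TT q.2 q'.2 else 0

private theorem gr_ev_append {A : Type*} [Monoid A] (x y : A) (u v : List Bool) :
    ev x y (u ++ v) = ev x y u * ev x y v := by
  simp [ev]

private theorem gr_two (a b : List Bool × List Bool) :
    TP (fun n g => (((ev (XX g) (XX g)ᴴ a.1)ᴴ * ev (XX g) (XX g)ᴴ b.1).trace *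
      (ev (XX g) (XX g)ᴴ b.2 * (ev (XX g) (XX g)ᴴ a.2)ᴴ).trace) / (n : ℂ) ^ 2) (TT a b) := by
  have h1 := (tr_conv (st a.1 ++ b.1)).mul (tr_conv (b.2 ++ st a.2))
  have h2 : ((tau (st a.1 ++ b.1) : ℝ) : ℂ) * ((tau (b.2 ++ st a.2) : ℝ) : ℂ) = TT a b := by
    unfold TT
    rw [tau_append_comm b.2 (st a.2), Complex.ofReal_mul]
  rw [h2] at h1
  refine h1.congr fun n _ g => ?_
  rw [gr_ev_append, gr_ev_append, ev_conjTranspose, ev_conjTranspose, div_mul_div_comm, ← sq]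

private theorem gr_cross (a b : List Bool × List Bool) :
    TP (fun n g => (ev (XX g) (XX g)ᴴ b.2 * ((ev (XX g) (XX g)ᴴ a.1)ᴴ * ev (XX g) (XX g)ᴴ b.1 *
      (ev (XX g) (XX g)ᴴ a.2)ᴴ)).trace / (n : ℂ) ^ 2) 0 := by
  have h0 : Filter.Tendsto (fun n : ℕ => ((n : ℂ))⁻¹) Filter.atTop (nhds 0) :=
    tendsto_inv_atTop_nhds_zero_nat (𝕜 := ℂ)
  have h1 := (TP.of_tendsto _ _ h0).mul (tr_conv (b.2 ++ (st a.1 ++ b.1 ++ st a.2)))
  rw [zero_mul] at h1
  refine h1.congr fun n _ g => ?_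
  rw [gr_ev_append, gr_ev_append, gr_ev_append, ev_conjTranspose, ev_conjTranspose, sq,
    div_eq_mul_inv, mul_inv, div_eq_mul_inv]
  ring

private theorem entry_tp (q q' : Bool × (List Bool × List Bool)) :
    TP (fun n g => ((gen g q)ᴴ * gen g q').trace / (n : ℂ) ^ 2) (LL q q') := by
  obtain ⟨b, a⟩ := q
  obtain ⟨b', a'⟩ := q'
  cases b <;> cases b'
  · have h := gr_two a a'
    have hL : LL (false, a) (false, a') = TT a a' := by simp [LL]
    rw [hL]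
    refine h.congr fun n _ g => ?_
    simp only [gen, Bool.false_eq_true, if_false]
    rw [trace_K_K]
  · have h := (gr_cross a' a).conj
    rw [map_zero] at h
    have hL : LL (false, a) (true, a') = 0 := by simp [LL]
    rw [hL]
    refine h.congr fun n _ g => ?_
    simp only [gen, Bool.false_eq_true, if_false, if_true]
    rw [← trace_LR_K, map_div₀, map_pow, Complex.conj_natCast]
    congr 1
    rw [← Matrix.conjTranspose_conjTranspose (Lf (ev (XX g) (XX g)ᴴ a'.1) * Rt (ev (XX g) (XX g)ᴴ a'.2)),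
      ← Matrix.conjTranspose_mul, Matrix.trace_conjTranspose, Matrix.conjTranspose_conjTranspose]
    rfl
  · have h := gr_cross a a'
    have hL : LL (true, a) (false, a') = 0 := by simp [LL]
    rw [hL]
    refine h.congr fun n _ g => ?_
    simp only [gen, Bool.false_eq_true, if_false, if_true]
    rw [trace_LR_K]
  · have h := gr_two a a'
    have hL : LL (true, a) (true, a') = TT a a' := by simp [LL]
    rw [hL]
    refine h.congr fun n _ g => ?_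
    simp only [gen, if_true]
    rw [trace_LR_LR]

private theorem form_expand {ι κ : Type*} [Fintype ι] (S : Finset κ) (d : κ → ℂ)
    (G : κ → Matrix ι ι ℂ) : ((hs2 (∑ q ∈ S, d q • G q) : ℝ) : ℂ) =
      ∑ q ∈ S, ∑ q' ∈ S, star (d q) * d q' * ((G q)ᴴ * G q').trace := by
  rw [hs2_eq_trace, Matrix.conjTranspose_sum, Finset.sum_mul_sum, Matrix.trace_sum]
  refine Finset.sum_congr rfl fun q _ => ?_
  rw [Matrix.trace_sum]
  refine Finset.sum_congr rfl fun q' _ => ?_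
  rw [Matrix.conjTranspose_smul, Matrix.smul_mul, Matrix.mul_smul, smul_smul, Matrix.trace_smul,
    smul_eq_mul]

private noncomputable def Vp (p : List Bool × List Bool) : E2 :=
  (ev (LC true) (LC false) p.1 * ev (RC true) (RC false) p.2) Om2

private theorem limit_form (s : Finset (List Bool × List Bool)) (c : List Bool × List Bool → ℂ) :
    ∑ p ∈ s, ∑ p' ∈ s, star (c p) * c p' * TT p p' = ((‖∑ p ∈ s, c p • Vp p‖ ^ 2 : ℝ) : ℂ) := by
  have h := inner_self_eq_norm_sq_to_K (𝕜 := ℂ) (∑ p ∈ s, c p • Vp p)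
  rw [sum_inner] at h
  rw [show ((‖∑ p ∈ s, c p • Vp p‖ ^ 2 : ℝ) : ℂ) = (‖∑ p ∈ s, c p • Vp p‖ : ℂ) ^ 2 by push_cast; rfl]
  refine Eq.trans ?_ h
  refine Finset.sum_congr rfl fun p _ => ?_
  rw [inner_sum]
  refine Finset.sum_congr rfl fun p' _ => ?_
  rw [inner_smul_left, inner_smul_right]
  unfold Vp
  rw [inner_C, mul_assoc]
  rfl

private theorem gap (s : Finset (List Bool × List Bool)) : ∃ κ : ℝ, 0 < κ ∧
    ∀ c : List Bool × List Bool → ℂ, κ * ∑ p ∈ s, ‖c p‖ ^ 2 ≤ ‖∑ p ∈ s, c p • Vp p‖ ^ 2 := by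
  classical
  let Φ : (s → ℂ) →ₗ[ℂ] E2 :=
    { toFun := fun c => ∑ p : s, c p • Vp p
      map_add' := fun a b => by simp [add_smul, Finset.sum_add_distrib]
      map_smul' := fun a b => by simp [Finset.smul_sum, smul_smul] }
  have hΦ : LinearMap.ker Φ = ⊥ := by
    rw [LinearMap.ker_eq_bot']
    intro c hc
    have h1 : ∀ x y, ∑ p ∈ s, (if h : p ∈ s then c ⟨p, h⟩ else 0) * (wv p.1 x * wv p.2 y) = 0 := by
      intro x y
      have h2 : ((∑ p : s, c p • Vp p : E2) : List Bool × List Bool → ℂ) (x, y) = 0 := by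
        have h3 : (∑ p : s, c p • Vp p : E2) = 0 := hc
        rw [h3]
        rfl
      rw [lp.coeFn_sum, Finset.sum_apply] at h2
      rw [← Finset.sum_coe_sort s]
      rw [← h2]
      refine Finset.sum_congr rfl fun p _ => ?_
      rw [dif_pos p.2, lp.coeFn_smul, Pi.smul_apply, smul_eq_mul]
      unfold Vp
      rw [ev_C_apply]
    have h4 := indep2 s _ h1
    funext p
    have h5 := h4 p.1 p.2
    rw [dif_pos p.2] at h5
    exact h5
  obtain ⟨K, hK, hA⟩ := Φ.exists_antilipschitzWith hΦ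
  have hK' : (0 : ℝ) < K := hK
  refine ⟨1 / ((s.card + 1) * (K : ℝ) ^ 2), by positivity, fun c => ?_⟩
  have h1 : ‖fun p : s => c p‖ ≤ K * ‖∑ p ∈ s, c p • Vp p‖ := by
    have h2 := hA.le_mul_dist (fun p : s => c p) 0
    rw [dist_zero_right, map_zero, dist_zero_right] at h2
    have h3 : Φ (fun p : s => c p) = ∑ p ∈ s, c p • Vp p := Finset.sum_coe_sort s (fun p => c p • Vp p)
    rw [h3] at h2
    exact h2
  have h4 : ∑ p ∈ s, ‖c p‖ ^ 2 ≤ (s.card + 1) * (K * ‖∑ p ∈ s, c p • Vp p‖) ^ 2 := by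
    have h5 : ∑ p ∈ s, ‖c p‖ ^ 2 ≤ ∑ p ∈ s, (K * ‖∑ p ∈ s, c p • Vp p‖) ^ 2 := by
      refine Finset.sum_le_sum fun p hp => ?_
      have h6 := (norm_le_pi_norm (fun p : s => c p) ⟨p, hp⟩).trans h1
      exact pow_le_pow_left₀ (norm_nonneg _) h6 2
    rw [Finset.sum_const, nsmul_eq_mul] at h5
    nlinarith [sq_nonneg ((K : ℝ) * ‖∑ p ∈ s, c p • Vp p‖)]
  rw [one_div, inv_mul_le_iff₀ (by positivity)]
  calc _ ≤ _ := h4
    _ = _ := by ring

theorem gram (s : Finset (List Bool × List Bool)) : ∃ γ : ℝ, 0 < γ ∧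
    EvZ (fun n => {g | ∃ c c' : List Bool × List Bool → ℂ,
      hs2 (∑ p ∈ s, (c p • (Lf (ev (XX g) (XX g)ᴴ p.1) * Rt (ev (XX g) (XX g)ᴴ p.2))
        + c' p • Kop (ev (XX g) (XX g)ᴴ p.1) (ev (XX g) (XX g)ᴴ p.2)))
        < γ * (n : ℝ) ^ 2 * ∑ p ∈ s, (‖c p‖ ^ 2 + ‖c' p‖ ^ 2)}) := by
  classical
  obtain ⟨κ, hκ, hgap⟩ := gap s
  let S : Finset (Bool × (List Bool × List Bool)) := Finset.univ ×ˢ s
  let η : ℝ := κ / (2 * (S.card + 1))
  have hη : 0 < η := by positivity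
  refine ⟨κ / 4, by positivity, ?_⟩
  have hbad : EvZ (fun n => ⋃ a ∈ S ×ˢ S, {g : Fin n × Fin n → ℂ |
      η ≤ ‖((gen g a.1)ᴴ * gen g a.2).trace / (n : ℂ) ^ 2 - LL a.1 a.2‖}) :=
    evz_biUnion (S ×ˢ S) _ fun a _ => entry_tp a.1 a.2 η hη
  refine hbad.mono ?_
  filter_upwards [Filter.eventually_ge_atTop 1] with n hn g hg
  obtain ⟨c, c', hlt⟩ := hg
  by_contra hno
  have hsm : ∀ q ∈ S, ∀ q' ∈ S, ‖((gen g q)ᴴ * gen g q').trace / (n : ℂ) ^ 2 - LL q q'‖ ≤ η := by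
    intro q hq q' hq'
    by_contra hc
    refine hno ?_
    simp only [Set.mem_iUnion]
    exact ⟨(q, q'), Finset.mem_product.2 ⟨hq, hq'⟩, (not_le.1 hc).le⟩
  let d : Bool × (List Bool × List Bool) → ℂ := fun q => if q.1 then c q.2 else c' q.2
  have hsum : ∑ p ∈ s, (c p • (Lf (ev (XX g) (XX g)ᴴ p.1) * Rt (ev (XX g) (XX g)ᴴ p.2))
        + c' p • Kop (ev (XX g) (XX g)ᴴ p.1) (ev (XX g) (XX g)ᴴ p.2)) = ∑ q ∈ S, d q • gen g q := by
    rw [Finset.sum_product, Fintype.sum_bool, Finset.sum_add_distrib]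
    rfl
  have hd : ∑ p ∈ s, (‖c p‖ ^ 2 + ‖c' p‖ ^ 2) = ∑ q ∈ S, ‖d q‖ ^ 2 := by
    rw [Finset.sum_product, Fintype.sum_bool, Finset.sum_add_distrib]
    rfl
  rw [hsum, hd] at hlt
  have hn' : (0 : ℝ) < (n : ℝ) ^ 2 := by
    have : (0 : ℝ) < n := by exact_mod_cast hn
    positivity
  have hnC : ((n : ℂ) ^ 2) ≠ 0 := by
    have : (n : ℂ) ≠ 0 := by exact_mod_cast (by omega : n ≠ 0)
    exact pow_ne_zero 2 this
  have hLL : ∑ q ∈ S, ∑ q' ∈ S, star (d q) * d q' * LL q q' =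
      ((‖∑ p ∈ s, c p • Vp p‖ ^ 2 + ‖∑ p ∈ s, c' p • Vp p‖ ^ 2 : ℝ) : ℂ) := by
    rw [Complex.ofReal_add, ← limit_form, ← limit_form, Finset.sum_product, Fintype.sum_bool]
    refine congrArg₂ (· + ·) (Finset.sum_congr rfl fun p _ => ?_)
      (Finset.sum_congr rfl fun p _ => ?_)
    · rw [Finset.sum_product, Fintype.sum_bool]
      simp [d, LL]
    · rw [Finset.sum_product, Fintype.sum_bool]
      simp [d, LL]
  have hform : ((hs2 (∑ q ∈ S, d q • gen g q) : ℝ) : ℂ) / (n : ℂ) ^ 2 =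
      ∑ q ∈ S, ∑ q' ∈ S, star (d q) * d q' * (((gen g q)ᴴ * gen g q').trace / (n : ℂ) ^ 2) := by
    rw [form_expand, Finset.sum_div]
    refine Finset.sum_congr rfl fun q _ => ?_
    rw [Finset.sum_div]
    refine Finset.sum_congr rfl fun q' _ => ?_
    rw [mul_div_assoc]
  have hdiff : ‖((hs2 (∑ q ∈ S, d q • gen g q) : ℝ) : ℂ) / (n : ℂ) ^ 2 -
      ((‖∑ p ∈ s, c p • Vp p‖ ^ 2 + ‖∑ p ∈ s, c' p • Vp p‖ ^ 2 : ℝ) : ℂ)‖ ≤
      η * (∑ q ∈ S, ‖d q‖) ^ 2 := by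
    rw [hform, ← hLL, ← Finset.sum_sub_distrib]
    have h1 : η * (∑ q ∈ S, ‖d q‖) ^ 2 = ∑ q ∈ S, ∑ q' ∈ S, ‖d q‖ * ‖d q'‖ * η := by
      rw [sq, Finset.sum_mul_sum, Finset.mul_sum]
      refine Finset.sum_congr rfl fun q _ => ?_
      rw [Finset.mul_sum]
      exact Finset.sum_congr rfl fun q' _ => by ring
    rw [h1]
    refine (norm_sum_le _ _).trans (Finset.sum_le_sum fun q hq => ?_)
    rw [← Finset.sum_sub_distrib]
    refine (norm_sum_le _ _).trans (Finset.sum_le_sum fun q' hq' => ?_)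
    rw [← mul_sub, norm_mul, norm_mul, norm_star]
    exact mul_le_mul_of_nonneg_left (hsm q hq q' hq') (by positivity)
  have hreal : (‖∑ p ∈ s, c p • Vp p‖ ^ 2 + ‖∑ p ∈ s, c' p • Vp p‖ ^ 2) -
      hs2 (∑ q ∈ S, d q • gen g q) / (n : ℝ) ^ 2 ≤ η * (∑ q ∈ S, ‖d q‖) ^ 2 := by
    refine le_trans ?_ hdiff
    have h2 : ((hs2 (∑ q ∈ S, d q • gen g q) : ℝ) : ℂ) / (n : ℂ) ^ 2 -
      ((‖∑ p ∈ s, c p • Vp p‖ ^ 2 + ‖∑ p ∈ s, c' p • Vp p‖ ^ 2 : ℝ) : ℂ) =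
      ((hs2 (∑ q ∈ S, d q • gen g q) / (n : ℝ) ^ 2 -
        (‖∑ p ∈ s, c p • Vp p‖ ^ 2 + ‖∑ p ∈ s, c' p • Vp p‖ ^ 2) : ℝ) : ℂ) := by
      push_cast
      ring
    rw [h2, Complex.norm_real, Real.norm_eq_abs]
    refine le_trans (le_of_eq ?_) (neg_le_abs _)
    ring
  have hcs : (∑ q ∈ S, ‖d q‖) ^ 2 ≤ S.card * ∑ q ∈ S, ‖d q‖ ^ 2 := sq_sum_le_card_mul_sum_sq
  have hg1 := hgap c
  have hg2 := hgap c'
  have hd' : ∑ q ∈ S, ‖d q‖ ^ 2 = ∑ p ∈ s, ‖c p‖ ^ 2 + ∑ p ∈ s, ‖c' p‖ ^ 2 := by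
    rw [← hd, Finset.sum_add_distrib]
  have hD0 : 0 ≤ ∑ q ∈ S, ‖d q‖ ^ 2 := Finset.sum_nonneg fun _ _ => by positivity
  have hη2 : η * (∑ q ∈ S, ‖d q‖) ^ 2 ≤ κ / 2 * ∑ q ∈ S, ‖d q‖ ^ 2 := by
    have h3 : η * (S.card : ℝ) ≤ κ / 2 := by
      have h4 : η * (2 * ((S.card : ℝ) + 1)) = κ := div_mul_cancel₀ _ (by positivity)
      nlinarith [hη]
    calc η * (∑ q ∈ S, ‖d q‖) ^ 2 ≤ η * (S.card * ∑ q ∈ S, ‖d q‖ ^ 2) :=
          mul_le_mul_of_nonneg_left hcs hη.le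
      _ = (η * S.card) * ∑ q ∈ S, ‖d q‖ ^ 2 := by ring
      _ ≤ κ / 2 * ∑ q ∈ S, ‖d q‖ ^ 2 := mul_le_mul_of_nonneg_right h3 hD0
  have hfin : κ / 2 * ∑ q ∈ S, ‖d q‖ ^ 2 ≤ hs2 (∑ q ∈ S, d q • gen g q) / (n : ℝ) ^ 2 := by
    have h5 : κ * ∑ q ∈ S, ‖d q‖ ^ 2 ≤
        ‖∑ p ∈ s, c p • Vp p‖ ^ 2 + ‖∑ p ∈ s, c' p • Vp p‖ ^ 2 := by
      rw [hd', mul_add]
      exact add_le_add hg1 hg2
    linarith
  rw [le_div_iff₀ hn'] at hfin
  have h6 : κ / 4 * (n : ℝ) ^ 2 * ∑ q ∈ S, ‖d q‖ ^ 2 ≤ κ / 2 * (∑ q ∈ S, ‖d q‖ ^ 2) * (n : ℝ) ^ 2 := by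
    have h7 : 0 ≤ κ * ((∑ q ∈ S, ‖d q‖ ^ 2) * (n : ℝ) ^ 2) :=
      mul_nonneg hκ.le (mul_nonneg hD0 hn'.le)
    nlinarith [h7]
  exact absurd hlt (not_lt.2 (h6.trans hfin))

end Pool.Agent.H55.ML
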