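/-
HC4 (LowVec).  A low vector on the complement of the identity makes the soft projection large.
About 120 lines.
PROOF.  D = DD X, E = D + K P1 (P1 = P1 n; K - x > 0).  E is Hermitian, b* E b = b* D b <= x (P1 b = 0).
Take the smallest eigenvalue μ of E with unit eigenvector v: μ <= x (Rayleigh: expand b in the eigenbasis
of E; not all eigenvalues exceed x).  Let e = vc 1 (n >= 1 because nv b = 1): E e = K e (DD_mul_P1), and
E Hermitian, so K <e,v> = <e, E v> = μ <e,v>, μ <= x < K, hence <e,v> = 0, P1 v = 0, D v = μ v, μ >= 0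
(DD_form_nonneg).  So FF v = h(D) v - h(0) P1 v = h(μ) v and
c^2 <= h(μ)^2 = nv (F v) <= opn F^2 nv v <= hs2 F (Opn).
-/
import Pool.Agent.H55.ML.KV
import Pool.Agent.H55.ML.Herm

namespace Pool.Agent.H55.ML
open Matrix Polynomial

variable {n : ℕ}

private theorem lv_dot {ι : Type*} [Fintype ι] (v : ι → ℂ) : star v ⬝ᵥ v = ((nv v : ℝ) : ℂ) := by
  unfold nv dotProduct
  rw [Complex.ofReal_sum]
  refine Finset.sum_congr rfl fun i _ => ?_
  rw [Pi.star_apply, Complex.star_def, ← Complex.normSq_eq_conj_mul_self, Complex.normSq_eq_norm_sq]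

private theorem lv_pow {ι : Type*} [Fintype ι] [DecidableEq ι] (D : Matrix ι ι ℂ) (v : ι → ℂ)
    (μ : ℝ) (h : D *ᵥ v = (μ : ℂ) • v) (k : ℕ) : (D ^ k) *ᵥ v = ((μ : ℂ) ^ k) • v := by
  induction k with
  | zero => rw [pow_zero, pow_zero, one_mulVec, one_smul]
  | succ k ih =>
    rw [pow_succ, ← mulVec_mulVec, h, mulVec_smul, ih, smul_smul, pow_succ, mul_comm]

private theorem lv_aeval {ι : Type*} [Fintype ι] [DecidableEq ι] (D : Matrix ι ι ℂ) (v : ι → ℂ)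
    (μ : ℝ) (h : D *ᵥ v = (μ : ℂ) • v) (f : ℝ[X]) :
    (aeval D f) *ᵥ v = ((f.eval μ : ℝ) : ℂ) • v := by
  induction f using Polynomial.induction_on' with
  | add p q hp hq =>
    rw [map_add, add_mulVec, hp, hq, Polynomial.eval_add, Complex.ofReal_add, add_smul]
  | monomial k a =>
    rw [Polynomial.aeval_monomial, Polynomial.eval_monomial, Algebra.algebraMap_eq_smul_one,
      smul_mul_assoc, one_mul, smul_mulVec, lv_pow D v μ h k, Complex.ofReal_mul,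
      Complex.ofReal_pow, mul_smul]
    rfl

private theorem lv_mul_form {ι : Type*} [Fintype ι] (U : Matrix ι ι ℂ) (M : Matrix ι ι ℂ)
    (v w : ι → ℂ) : star (U *ᵥ v) ⬝ᵥ (M *ᵥ (U *ᵥ w)) = star v ⬝ᵥ ((Uᴴ * M * U) *ᵥ w) := by
  rw [star_mulVec, ← dotProduct_mulVec, mulVec_mulVec, mulVec_mulVec, Matrix.mul_assoc]

private theorem lv_nv {ι : Type*} [Fintype ι] [DecidableEq ι] (U : Matrix ι ι ℂ)
    (hU : Uᴴ * U = 1) (v : ι → ℂ) : nv (U *ᵥ v) = nv v := by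
  apply Complex.ofReal_injective
  rw [← lv_dot, ← lv_dot]
  have h1 := lv_mul_form U 1 v v
  rw [one_mulVec, Matrix.mul_one, hU, one_mulVec] at h1
  exact h1

private theorem lv_P1 (v : Fin n × Fin n → ℂ) (h : ∑ i, v (i, i) = 0) : P1 n *ᵥ v = 0 := by
  have h1 : v = vc (Matrix.of fun i j => v (i, j)) := rfl
  unfold P1
  rw [h1, smul_mulVec, Kop_mulVec_vc, Matrix.one_mul]
  have h2 : (Matrix.of fun i j => v (i, j) : Mat n).trace = 0 := h
  rw [h2, zero_smul, smul_zero]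

private theorem lv_P1_form (v : Fin n × Fin n → ℂ) : 0 ≤ (star v ⬝ᵥ (P1 n *ᵥ v)).re := by
  have h1 := lv_mul_form (P1 n) 1 v v
  rw [one_mulVec, lv_dot, Matrix.mul_one, P1_conjTranspose, P1_mul_P1] at h1
  rw [← h1, Complex.ofReal_re]
  exact nv_nonneg _

theorem low_vec (X : Mat n) (K : ℝ) (h : ℝ[X]) (c x : ℝ) (hx : x < K)
    (hc : 0 ≤ c) (hh : ∀ t ∈ Set.Icc 0 x, c ≤ h.eval t) (b : Fin n × Fin n → ℂ)
    (hb0 : ∑ i, b (i, i) = 0) (hb1 : nv b = 1) (hb : (star b ⬝ᵥ (DD X *ᵥ b)).re ≤ x) :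
    c ^ 2 ≤ hs2 (aeval (DD X) h - ((h.eval 0 : ℝ) : ℂ) • P1 n) := by
  have hP1b : P1 n *ᵥ b = 0 := lv_P1 b hb0
  have hx0 : 0 ≤ x := (DD_form_nonneg X b).trans hb
  have hK0 : 0 < K := lt_of_le_of_lt hx0 hx
  obtain ⟨E, hEdef⟩ : ∃ E : Op n, E = DD X + ((K : ℝ) : ℂ) • P1 n := ⟨_, rfl⟩
  have hE : PSB E (opn E) := by
    refine ⟨?_, fun v => ?_, le_rfl⟩
    · rw [hEdef]
      refine (DD_isHermitian X).add ?_
      unfold Matrix.IsHermitian
      rw [conjTranspose_smul, P1_conjTranspose, Complex.star_def, Complex.conj_ofReal]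
    · rw [hEdef, add_mulVec, dotProduct_add, Complex.add_re, smul_mulVec, dotProduct_smul,
        smul_eq_mul, Complex.re_ofReal_mul]
      have h1 := DD_form_nonneg X v
      have h2 := mul_nonneg hK0.le (lv_P1_form v)
      linarith
  obtain ⟨U, l, hU1, hU2, hl, hU⟩ := psb_spectral hE
  have hEd : E = U * Matrix.diagonal (fun i => ((l i : ℝ) : ℂ)) * Uᴴ := by
    have h1 := hU Polynomial.X
    simpa using h1
  have hnvc : nv (Uᴴ *ᵥ b) = 1 := by
    rw [lv_nv Uᴴ (by rw [conjTranspose_conjTranspose]; exact hU2) b, hb1]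
  have hform : (star b ⬝ᵥ (E *ᵥ b)).re = ∑ i, l i * ‖(Uᴴ *ᵥ b) i‖ ^ 2 := by
    have h1 := lv_mul_form Uᴴ (Matrix.diagonal (fun i => ((l i : ℝ) : ℂ))) b b
    rw [conjTranspose_conjTranspose, ← hEd] at h1
    rw [← h1]
    unfold dotProduct
    rw [Complex.re_sum]
    refine Finset.sum_congr rfl fun i _ => ?_
    rw [mulVec_diagonal, Pi.star_apply, Complex.star_def,
      show (starRingEnd ℂ) ((Uᴴ *ᵥ b) i) * (((l i : ℝ) : ℂ) * (Uᴴ *ᵥ b) i) =
        ((l i : ℝ) : ℂ) * ((starRingEnd ℂ) ((Uᴴ *ᵥ b) i) * (Uᴴ *ᵥ b) i) by ring,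
      ← Complex.normSq_eq_conj_mul_self, Complex.re_ofReal_mul, Complex.ofReal_re,
      Complex.normSq_eq_norm_sq]
  have hform2 : (star b ⬝ᵥ (E *ᵥ b)).re ≤ x := by
    rw [hEdef, add_mulVec, smul_mulVec, hP1b, smul_zero, add_zero]
    exact hb
  obtain ⟨i, hi⟩ : ∃ i, l i ≤ x := by
    by_contra hcon
    push Not at hcon
    have h1 : ∑ i, (l i - x) * ‖(Uᴴ *ᵥ b) i‖ ^ 2 ≤ 0 := by
      have h2 : ∑ i, (l i - x) * ‖(Uᴴ *ᵥ b) i‖ ^ 2 =
          ∑ i, l i * ‖(Uᴴ *ᵥ b) i‖ ^ 2 - x * nv (Uᴴ *ᵥ b) := by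
        unfold nv
        rw [Finset.mul_sum, ← Finset.sum_sub_distrib]
        refine Finset.sum_congr rfl fun i _ => ?_
        ring
      rw [h2, hnvc, ← hform]
      linarith
    have h3 : ∀ i ∈ Finset.univ, 0 ≤ (l i - x) * ‖(Uᴴ *ᵥ b) i‖ ^ 2 := fun i _ =>
      mul_nonneg (by linarith [hcon i]) (by positivity)
    have h4 := (Finset.sum_eq_zero_iff_of_nonneg h3).1 (le_antisymm h1 (Finset.sum_nonneg h3))
    have h5 : nv (Uᴴ *ᵥ b) = 0 := by
      unfold nv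
      refine Finset.sum_eq_zero fun i hi => ?_
      rcases mul_eq_zero.1 (h4 i hi) with h6 | h6
      · have := hcon i
        linarith
      · exact h6
    rw [hnvc] at h5
    exact one_ne_zero h5
  obtain ⟨v, hv⟩ : ∃ v : Fin n × Fin n → ℂ, v = U *ᵥ Pi.single i 1 := ⟨_, rfl⟩
  have hnvv : nv v = 1 := by
    rw [hv, lv_nv U hU1]
    unfold nv
    rw [Finset.sum_eq_single i]
    · simp
    · intro j _ hj
      simp [Pi.single_eq_of_ne hj]
    · intro h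
      exact absurd (Finset.mem_univ i) h
  have hEv : E *ᵥ v = ((l i : ℝ) : ℂ) • v := by
    rw [hEd, hv, ← mulVec_mulVec, ← mulVec_mulVec, mulVec_mulVec (Pi.single i 1) Uᴴ U, hU1,
      one_mulVec, diagonal_mulVec_single, ← mulVec_smul]
    congr 1
    ext j
    by_cases hj : j = i
    · subst hj
      simp
    · simp [Pi.single_eq_of_ne hj]
  have hP1v : P1 n *ᵥ v = 0 := by
    have h1 : P1 n *ᵥ (E *ᵥ v) = ((K : ℝ) : ℂ) • (P1 n *ᵥ v) := by
      rw [hEdef, mulVec_mulVec, Matrix.mul_add, P1_mul_DD, zero_add, Matrix.mul_smul, P1_mul_P1,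
        smul_mulVec]
    rw [hEv, mulVec_smul] at h1
    have h2 : (((l i : ℝ) : ℂ) - ((K : ℝ) : ℂ)) • (P1 n *ᵥ v) = 0 := by
      rw [sub_smul, h1, sub_self]
    rcases smul_eq_zero.1 h2 with h3 | h3
    · exfalso
      rw [← Complex.ofReal_sub] at h3
      have h4 : l i - K = 0 := by exact_mod_cast h3
      linarith
    · exact h3
  have hDv : DD X *ᵥ v = ((l i : ℝ) : ℂ) • v := by
    rw [← hEv, hEdef, add_mulVec, smul_mulVec, hP1v, smul_zero, add_zero]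
  have hF : (aeval (DD X) h - ((h.eval 0 : ℝ) : ℂ) • P1 n) *ᵥ v =
      ((h.eval (l i) : ℝ) : ℂ) • v := by
    rw [sub_mulVec, smul_mulVec, hP1v, smul_zero, sub_zero, lv_aeval _ _ _ hDv]
  have hnvF : nv (((h.eval (l i) : ℝ) : ℂ) • v) = (h.eval (l i)) ^ 2 := by
    have h1 : nv (((h.eval (l i) : ℝ) : ℂ) • v) = (h.eval (l i)) ^ 2 * nv v := by
      unfold nv
      rw [Finset.mul_sum]
      refine Finset.sum_congr rfl fun j _ => ?_
      rw [Pi.smul_apply, smul_eq_mul, norm_mul, mul_pow, Complex.norm_real, Real.norm_eq_abs,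
        sq_abs]
    rw [h1, hnvv, mul_one]
  have hle := nv_mulVec_le (aeval (DD X) h - ((h.eval 0 : ℝ) : ℂ) • P1 n) v
  rw [hF, hnvF, hnvv, mul_one] at hle
  have hce : c ≤ h.eval (l i) := hh (l i) ⟨(hl i).1, hi⟩
  calc c ^ 2 ≤ (h.eval (l i)) ^ 2 := pow_le_pow_left₀ hc hce 2
    _ ≤ _ := hle
    _ ≤ _ := opn_sq_le_hs2 _

end Pool.Agent.H55.ML
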