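/-
M (MalQ).  The malnormality constant in terms of the form of DD.  About 120 lines.
mal_ge: the set in the definition of mal is nonempty for n >= 2 (B = (E_00 - E_11)/√2) and for every B in it
the vector b = vc B has trace 0, nv b = 1, so by DD_form_herm 2 hs2 (X B - B X) = (b* D b).re >= x,
le_csInf.
mal_le: write b = vc C, H = (C + C*)/2, K = (C - C*)/(2i), both Hermitian of trace 0 and C = H + i K;
hs2 C = hs2 H + hs2 K (parallelogram: hs2 C = (hs2 C + hs2 C*)/2) and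
b* D b = 2 hs2 [X,H] + 2 hs2 [X,K]: use DD_form: b* D b = hs2 [X,C] + hs2 [X*,C] and
[X*,C] = -[X, C*]* so hs2 [X*,C] = hs2 [X,C*]; parallelogram: hs2 [X,H+iK] + hs2 [X,H-iK] =
2 hs2 [X,H] + 2 hs2 [X,K].  So one of H, K, say H, is nonzero and has 2 hs2 [X,H] <= x hs2 H; normalize
(B = H / √(hs2 H)) and use csInf_le (bounded below by 0).
-/
import Pool.Agent.H55.ML.KV
import Pool.Agent.H55.ML.Opn

namespace Pool.Agent.H55.ML
open Matrix

variable {n : ℕ}

private theorem mq_nv (B : Mat n) : nv (vc B) = hs2 B := by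
  unfold nv hs2 vc
  rw [Fintype.sum_prod_type]

private theorem mq_par {ι κ : Type*} [Fintype ι] [Fintype κ] (A B : Matrix ι κ ℂ) :
    hs2 (A + B) + hs2 (A - B) = 2 * hs2 A + 2 * hs2 B := by
  unfold hs2
  rw [Finset.mul_sum, Finset.mul_sum, ← Finset.sum_add_distrib, ← Finset.sum_add_distrib]
  refine Finset.sum_congr rfl fun i _ => ?_
  rw [Finset.mul_sum, Finset.mul_sum, ← Finset.sum_add_distrib, ← Finset.sum_add_distrib]
  refine Finset.sum_congr rfl fun j _ => ?_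
  rw [Matrix.add_apply, Matrix.sub_apply]
  have h := parallelogram_law_with_norm ℂ (A i j) (B i j)
  nlinarith [h]

private theorem mq_smul {ι κ : Type*} [Fintype ι] [Fintype κ] (c : ℂ) (A : Matrix ι κ ℂ) :
    hs2 (c • A) = ‖c‖ ^ 2 * hs2 A := by
  unfold hs2
  rw [Finset.mul_sum]
  refine Finset.sum_congr rfl fun i _ => ?_
  rw [Finset.mul_sum]
  refine Finset.sum_congr rfl fun j _ => ?_
  rw [Matrix.smul_apply, smul_eq_mul, norm_mul, mul_pow]

private theorem mq_ct {ι : Type*} [Fintype ι] (A : Matrix ι ι ℂ) : hs2 Aᴴ = hs2 A := by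
  unfold hs2
  rw [Finset.sum_comm]
  refine Finset.sum_congr rfl fun i _ => Finset.sum_congr rfl fun j _ => ?_
  rw [Matrix.conjTranspose_apply, norm_star]

private theorem mq_neg {ι : Type*} [Fintype ι] (A : Matrix ι ι ℂ) : hs2 (-A) = hs2 A := by
  unfold hs2
  refine Finset.sum_congr rfl fun i _ => Finset.sum_congr rfl fun j _ => ?_
  rw [Matrix.neg_apply, norm_neg]

private noncomputable def mqQ (X B : Mat n) : ℝ := hs2 (X * B - B * X) + hs2 (Xᴴ * B - B * Xᴴ)

private theorem mq_form (X B : Mat n) : (star (vc B) ⬝ᵥ (DD X *ᵥ vc B)).re = mqQ X B := by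
  rw [DD_form, Complex.ofReal_re]
  unfold mqQ
  have h1 : ∀ Y : Mat n, (Lf Y - Rt Y) *ᵥ vc B = vc (Y * B - B * Y) := by
    intro Y
    rw [sub_mulVec, Lf_mulVec_vc, Rt_mulVec_vc]
    rfl
  rw [h1, h1, mq_nv, mq_nv]

private theorem mq_Qct (X B : Mat n) : mqQ X Bᴴ = mqQ X B := by
  unfold mqQ
  have h1 : hs2 (X * Bᴴ - Bᴴ * X) = hs2 (Xᴴ * B - B * Xᴴ) := by
    rw [← mq_ct, conjTranspose_sub, conjTranspose_mul, conjTranspose_mul,
      conjTranspose_conjTranspose, ← mq_neg, neg_sub]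
  have h2 : hs2 (Xᴴ * Bᴴ - Bᴴ * Xᴴ) = hs2 (X * B - B * X) := by
    rw [← mq_ct, conjTranspose_sub, conjTranspose_mul, conjTranspose_mul,
      conjTranspose_conjTranspose, conjTranspose_conjTranspose, ← mq_neg, neg_sub]
  rw [h1, h2, add_comm]

private theorem mq_Qpar (X A B : Mat n) :
    mqQ X (A + B) + mqQ X (A - B) = 2 * mqQ X A + 2 * mqQ X B := by
  unfold mqQ
  have e1 : ∀ Y : Mat n, Y * (A + B) - (A + B) * Y = (Y * A - A * Y) + (Y * B - B * Y) := by
    intro Y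
    noncomm_ring
  have e2 : ∀ Y : Mat n, Y * (A - B) - (A - B) * Y = (Y * A - A * Y) - (Y * B - B * Y) := by
    intro Y
    noncomm_ring
  rw [e1, e1, e2, e2]
  have h1 := mq_par (X * A - A * X) (X * B - B * X)
  have h2 := mq_par (Xᴴ * A - A * Xᴴ) (Xᴴ * B - B * Xᴴ)
  linarith

private theorem mq_Qsmul (X B : Mat n) (c : ℂ) : mqQ X (c • B) = ‖c‖ ^ 2 * mqQ X B := by
  unfold mqQ
  have e1 : ∀ Y : Mat n, Y * (c • B) - (c • B) * Y = c • (Y * B - B * Y) := by
    intro Y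
    rw [Matrix.mul_smul, Matrix.smul_mul, smul_sub]
  rw [e1, e1, mq_smul, mq_smul]
  ring

theorem mal_nonneg (X : Mat n) : 0 ≤ mal X := by
  unfold mal
  refine Real.sInf_nonneg ?_
  rintro r ⟨B, _, _, _, rfl⟩
  exact Real.sqrt_nonneg _

private theorem mq_ne (hn : 2 ≤ n) : ∃ B : Mat n, B.IsHermitian ∧ B.trace = 0 ∧ hs2 B = 1 := by
  obtain ⟨i0, i1, h01⟩ : ∃ i0 i1 : Fin n, i0 ≠ i1 :=
    ⟨⟨0, by omega⟩, ⟨1, by omega⟩, by simp [Fin.ext_iff]⟩
  have hB : ((Matrix.diagonal fun i => if i = i0 then (1 : ℂ) else if i = i1 then -1 else 0) :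
      Mat n).IsHermitian := by
    unfold Matrix.IsHermitian
    rw [diagonal_conjTranspose]
    congr 1
    ext i
    rw [Pi.star_apply]
    split_ifs <;> simp
  refine ⟨((Real.sqrt 2 : ℝ) : ℂ)⁻¹ • Matrix.diagonal
    (fun i => if i = i0 then (1 : ℂ) else if i = i1 then -1 else 0), ?_, ?_, ?_⟩
  · unfold Matrix.IsHermitian at hB ⊢
    rw [conjTranspose_smul, hB, Complex.star_def, map_inv₀, Complex.conj_ofReal]
  · rw [trace_smul, trace_diagonal, Finset.sum_ite, Finset.sum_ite]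
    have e1 : (Finset.univ.filter fun i : Fin n => i = i0) = {i0} := by
      ext i
      simp
    have e2 : ((Finset.univ.filter fun i : Fin n => ¬ i = i0).filter fun i => i = i1) = {i1} := by
      ext i
      simp only [Finset.mem_filter, Finset.mem_univ, true_and, Finset.mem_singleton]
      constructor
      · exact fun h => h.2
      · rintro rfl
        exact ⟨fun h => h01 h.symm, rfl⟩
    rw [e1, e2]
    simp
  · rw [mq_smul, norm_inv, Complex.norm_real, Real.norm_of_nonneg (Real.sqrt_nonneg 2), inv_pow,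
      Real.sq_sqrt (by norm_num)]
    have h1 : hs2 (Matrix.diagonal
        (fun i => if i = i0 then (1 : ℂ) else if i = i1 then -1 else 0) : Mat n) = 2 := by
      unfold hs2
      have h2 : ∀ i : Fin n, ∑ j, ‖(Matrix.diagonal
          (fun i => if i = i0 then (1 : ℂ) else if i = i1 then -1 else 0) : Mat n) i j‖ ^ 2 =
          (if i = i0 then (1 : ℝ) else 0) + (if i = i1 then 1 else 0) := by
        intro i
        rw [Finset.sum_eq_single i]
        · rw [diagonal_apply_eq]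
          by_cases ha : i = i0
          · subst ha
            simp [h01]
          · by_cases hb : i = i1
            · subst hb
              simp [ha]
            · simp [ha, hb]
        · intro j _ hj
          rw [diagonal_apply_ne _ (fun h => hj h.symm)]
          simp
        · intro h
          exact absurd (Finset.mem_univ i) h
      simp only [h2, Finset.sum_add_distrib, Finset.sum_ite_eq', Finset.mem_univ, if_true]
      norm_num
    rw [h1]
    norm_num

theorem mal_ge (hn : 2 ≤ n) (X : Mat n) (x : ℝ)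
    (h : ∀ b : Fin n × Fin n → ℂ, ∑ i, b (i, i) = 0 → nv b = 1 →
      x ≤ (star b ⬝ᵥ (DD X *ᵥ b)).re) : Real.sqrt (x / 2) ≤ mal X := by
  unfold mal
  refine le_csInf ?_ ?_
  · obtain ⟨B, h1, h2, h3⟩ := mq_ne hn
    exact ⟨_, B, h1, h2, h3, rfl⟩
  · rintro r ⟨B, h1, h2, h3, rfl⟩
    have h4 := h (vc B) h2 (by rw [mq_nv, h3])
    rw [DD_form_herm X B h1] at h4
    refine Real.sqrt_le_sqrt ?_
    linarith

private theorem mq_le (X B : Mat n) (x : ℝ) (h1 : B.IsHermitian) (h2 : B.trace = 0)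
    (h3 : 0 < hs2 B) (h : mqQ X B ≤ x * hs2 B) : mal X ≤ Real.sqrt (x / 2) := by
  unfold mal
  have hs : 0 < Real.sqrt (hs2 B) := Real.sqrt_pos.2 h3
  have hnorm : ‖((Real.sqrt (hs2 B) : ℝ) : ℂ)⁻¹‖ ^ 2 = (hs2 B)⁻¹ := by
    rw [norm_inv, Complex.norm_real, Real.norm_of_nonneg hs.le, inv_pow, Real.sq_sqrt h3.le]
  have hbdd : BddBelow {r : ℝ | ∃ B : Mat n, B.IsHermitian ∧ B.trace = 0 ∧ hs2 B = 1 ∧
      r = Real.sqrt (hs2 (X * B - B * X))} := by
    refine ⟨0, ?_⟩
    rintro r ⟨B, _, _, _, rfl⟩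
    exact Real.sqrt_nonneg _
  have hmem : Real.sqrt (hs2 (X * (((Real.sqrt (hs2 B) : ℝ) : ℂ)⁻¹ • B) -
      (((Real.sqrt (hs2 B) : ℝ) : ℂ)⁻¹ • B) * X)) ∈
      {r : ℝ | ∃ B : Mat n, B.IsHermitian ∧ B.trace = 0 ∧ hs2 B = 1 ∧
      r = Real.sqrt (hs2 (X * B - B * X))} := by
    refine ⟨((Real.sqrt (hs2 B) : ℝ) : ℂ)⁻¹ • B, ?_, ?_, ?_, rfl⟩
    · unfold Matrix.IsHermitian at h1 ⊢
      rw [conjTranspose_smul, h1, Complex.star_def, map_inv₀, Complex.conj_ofReal]
    · rw [trace_smul, h2, smul_zero]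
    · rw [mq_smul, hnorm, inv_mul_cancel₀ h3.ne']
  refine (csInf_le hbdd hmem).trans ?_
  · refine Real.sqrt_le_sqrt ?_
    have e1 : X * (((Real.sqrt (hs2 B) : ℝ) : ℂ)⁻¹ • B) -
        (((Real.sqrt (hs2 B) : ℝ) : ℂ)⁻¹ • B) * X =
        ((Real.sqrt (hs2 B) : ℝ) : ℂ)⁻¹ • (X * B - B * X) := by
      rw [Matrix.mul_smul, Matrix.smul_mul, smul_sub]
    rw [e1, mq_smul, hnorm]
    have h5 := DD_form_herm X B h1
    rw [mq_form] at h5
    rw [h5] at h
    rw [inv_mul_le_iff₀ h3]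
    linarith

theorem mal_le (X : Mat n) (x : ℝ) (b : Fin n × Fin n → ℂ) (hb0 : ∑ i, b (i, i) = 0)
    (hb : 0 < nv b) (h : (star b ⬝ᵥ (DD X *ᵥ b)).re ≤ x * nv b) :
    mal X ≤ Real.sqrt (x / 2) := by
  obtain ⟨C, hC⟩ : ∃ C : Mat n, b = vc C := ⟨Matrix.of fun i j => b (i, j), rfl⟩
  subst hC
  have htr : C.trace = 0 := hb0
  rw [mq_form, mq_nv] at h
  rw [mq_nv] at hb
  obtain ⟨H, hH⟩ : ∃ H : Mat n, H = (2 : ℂ)⁻¹ • (C + Cᴴ) := ⟨_, rfl⟩
  obtain ⟨K, hK⟩ : ∃ K : Mat n, K = (-Complex.I * (2 : ℂ)⁻¹) • (C - Cᴴ) := ⟨_, rfl⟩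
  have hIK : Complex.I • K = (2 : ℂ)⁻¹ • (C - Cᴴ) := by
    rw [hK, smul_smul]
    congr 1
    rw [← mul_assoc, mul_neg, Complex.I_mul_I, neg_neg, one_mul]
  have hCe : H + Complex.I • K = C := by
    rw [hIK, hH, ← smul_add]
    have : C + Cᴴ + (C - Cᴴ) = (2 : ℂ) • C := by
      rw [two_smul]
      abel
    rw [this, smul_smul, inv_mul_cancel₀ two_ne_zero, one_smul]
  have hCt : H - Complex.I • K = Cᴴ := by
    rw [hIK, hH, ← smul_sub]
    have : C + Cᴴ - (C - Cᴴ) = (2 : ℂ) • Cᴴ := by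
      rw [two_smul]
      abel
    rw [this, smul_smul, inv_mul_cancel₀ two_ne_zero, one_smul]
  have hHh : H.IsHermitian := by
    unfold Matrix.IsHermitian
    rw [hH, conjTranspose_smul, conjTranspose_add, conjTranspose_conjTranspose, add_comm Cᴴ C]
    congr 1
    rw [Complex.star_def, map_inv₀]
    congr 1
    exact Complex.conj_ofNat 2
  have hKh : K.IsHermitian := by
    unfold Matrix.IsHermitian
    rw [hK, conjTranspose_smul, conjTranspose_sub, conjTranspose_conjTranspose,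
      ← neg_sub C Cᴴ, smul_neg, ← neg_smul]
    congr 1
    rw [Complex.star_def, map_mul, map_neg, Complex.conj_I, map_inv₀, neg_neg,
      Complex.conj_ofNat 2]
    ring
  have hHt : H.trace = 0 := by
    rw [hH, trace_smul, trace_add, trace_conjTranspose, htr, star_zero, add_zero, smul_zero]
  have hKt : K.trace = 0 := by
    rw [hK, trace_smul, trace_sub, trace_conjTranspose, htr, star_zero, sub_zero, smul_zero]
  have hnI : ‖Complex.I‖ ^ 2 = 1 := by
    rw [Complex.norm_I, one_pow]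
  have hh : hs2 C = hs2 H + hs2 K := by
    have h1 := mq_par H (Complex.I • K)
    rw [hCe, hCt, mq_ct, mq_smul, hnI, one_mul] at h1
    linarith
  have hq : mqQ X C = mqQ X H + mqQ X K := by
    have h1 := mq_Qpar X H (Complex.I • K)
    rw [hCe, hCt, mq_Qct, mq_Qsmul, hnI, one_mul] at h1
    linarith
  have hQnn : ∀ B : Mat n, 0 ≤ mqQ X B := fun B => by
    rw [← mq_form]
    exact DD_form_nonneg X (vc B)
  have hHnn : 0 ≤ hs2 H := hs2_nonneg H
  have hKnn : 0 ≤ hs2 K := hs2_nonneg K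
  by_contra hcon
  have cH : 0 < hs2 H → x * hs2 H < mqQ X H := fun h0 => by
    by_contra h1
    exact hcon (mq_le X H x hHh hHt h0 (not_lt.1 h1))
  have cK : 0 < hs2 K → x * hs2 K < mqQ X K := fun h0 => by
    by_contra h1
    exact hcon (mq_le X K x hKh hKt h0 (not_lt.1 h1))
  rcases hHnn.eq_or_lt with h1 | h1
  · rcases hKnn.eq_or_lt with h2 | h2
    · linarith
    · have h3 := cK h2
      have h4 := hQnn H
      rw [hq, hh, ← h1, zero_add] at h
      linarith
  · rcases hKnn.eq_or_lt with h2 | h2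
    · have h3 := cH h1
      have h4 := hQnn K
      rw [hq, hh, ← h2, add_zero] at h
      linarith
    · have h3 := cH h1
      have h4 := cK h2
      rw [hq, hh, mul_add] at h
      linarith

end Pool.Agent.H55.ML
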