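/-
L5 (NoLow).  No eigenvalue below min dC dT on the complement of the identity.  Needs Small, LowVec.  About 60 lines.
PROOF.  exists_setup gives S with S.x1 = x1.  For n >= max N 2 and g ∈ Gd: if b has trace 0, nv b = 1 and form <= x1,
then low_vec with K = KK, h = S.f n, c = 1/2, x = x1 (x1 < dC <= 32 < KK): for t ∈ [0, x1]: f t >= χ t - 1/n^4 =
1 - 1/n^4 >= 1/2.  So 1/4 <= hs2 (FF (S.f n) g).  The event is contained in {1/4 <= hs2 FF} ∪ Gd^c.
-/
import Pool.Agent.H55.ML.Small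
import Pool.Agent.H55.ML.LowVec

namespace Pool.Agent.H55.ML
open MeasureTheory ProbabilityTheory Polynomial Matrix

theorem no_low (x1 : ℝ) (h : x1 < min dC dT) :
    EvZ (fun n => {g | ∃ b : Fin n × Fin n → ℂ, ∑ i, b (i, i) = 0 ∧ nv b = 1 ∧
      (star b ⬝ᵥ (DD (XX g) *ᵥ b)).re ≤ x1}) := by
  obtain ⟨S, hS⟩ := exists_setup x1 h
  have hx1 : x1 < KK := by
    have h1 : x1 < dC := h.trans_le (min_le_left _ _)
    have h2 := dC_le
    unfold KK
    linarith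
  refine EvZ.mono (FF_small S (1 / 4) (by norm_num)) ?_
  filter_upwards [Filter.eventually_ge_atTop S.N, Filter.eventually_ge_atTop 2] with n hN hn2
  rintro g ⟨b, hb0, hb1, hb⟩
  have hn2' : (2 : ℝ) ≤ n := by exact_mod_cast hn2
  have hsmall : 1 / (n : ℝ) ^ 4 ≤ 1 / 2 := by
    have h1 : (2 : ℝ) ≤ (n : ℝ) ^ 4 := by
      calc (2 : ℝ) ≤ (n : ℝ) := hn2'
        _ = (n : ℝ) ^ 1 := (pow_one _).symm
        _ ≤ (n : ℝ) ^ 4 := pow_le_pow_right₀ (by linarith) (by norm_num)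
    exact one_div_le_one_div_of_le (by norm_num) h1
  have hh : ∀ t ∈ Set.Icc (0 : ℝ) x1, (1 / 2 : ℝ) ≤ (S.f n).eval t := by
    intro t ht
    have h1 := S.app n hN t ⟨ht.1, ht.2.trans hx1.le⟩
    have h2 : S.χ t = 1 := S.one t (by rw [hS]; exact ht.2)
    rw [h2] at h1
    have h3 := (abs_le.mp h1).2
    linarith
  have h4 := low_vec (XX g) KK (S.f n) (1 / 2) x1 hx1 (by norm_num) hh b hb0 hb1 hb
  change (1 / 4 : ℝ) ≤ hs2 (FF (S.f n) g)
  unfold FF
  refine le_trans (le_of_eq ?_) h4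
  norm_num

end Pool.Agent.H55.ML
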