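/-
L2 (PairL).  The soft projection is asymptotically orthogonal to the operators B ↦ u B v.
Needs Setup, Tail, InProb, KV, ChebTr.  About 150 lines.
PROOF.  On Gd, n >= N: |f n| <= G n + 1/n^4 on [0, KK] (|f| <= χ + 1/n^4; χ <= 1 <= G on [0,x0], χ = 0 <= G after x0).
FF = f(D) - f(0) P1.  A = (Lf U * Rt V)ᴴ, opn A <= (opn X)^(|u|+|v|) <= (KK/8)^((|u|+|v|)/2) <= C1 (real power or
(max 1 KK)^(|u|+|v|)).  |Tr (A f(D))| <= opn A (Re Tr G(D) + n²/n^4) (norm_trace_mul_aeval_le with the polynomial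
G n + C(1/n^4)), |f(0)| |Tr (A P1)| <= 2 opn A (Tr (A P1) = (1/n) star(vc 1) ⬝ (A vc 1), nv (vc 1) = n).
So on Gd the quantity divided by n is at most C1 (Re Tr G(D) + 3)/n.  Markov on Gd:
gin {g ∈ Gd, Re Tr G(D) >= ε n} <= (1/(ε n)) ∫_{Gd} Re Tr G <= C/(ε n) → 0 (Re Tr G >= 0 on Gd).
-/
import Pool.Agent.H55.ML.Setup
import Pool.Agent.H55.ML.InProb

namespace Pool.Agent.H55.ML
open MeasureTheory ProbabilityTheory Polynomial Matrix Filter Topology

theorem EvZ_bad : EvZ (fun n => (Gd n)ᶜ) := by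
  unfold EvZ
  have h1 : Tendsto (fun n : ℕ => ENNReal.ofReal (Real.exp (-(n : ℝ)))) atTop (𝓝 0) := by
    have h2 : Tendsto (fun n : ℕ => Real.exp (-(n : ℝ))) atTop (𝓝 0) :=
      Real.tendsto_exp_neg_atTop_nhds_zero.comp tendsto_natCast_atTop_atTop
    have h3 := (ENNReal.continuous_ofReal.tendsto 0).comp h2
    rwa [ENNReal.ofReal_zero] at h3
  refine tendsto_of_tendsto_of_tendsto_of_le_of_le' tendsto_const_nhds h1
    (Eventually.of_forall fun n => zero_le) ?_
  filter_upwards [eventually_ge_atTop 1] with n hn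
  exact prob_bad n hn

private lemma pairL_opn {n : ℕ} (g : Fin n × Fin n → ℂ) (hg : g ∈ Gd n) (u v : List Bool) :
    opn ((Lf (ev (XX g) (XX g)ᴴ u) * Rt (ev (XX g) (XX g)ᴴ v))ᴴ) ≤ KK ^ (u.length + v.length) := by
  have h0 : opn (XX g) ≤ KK := by
    simp only [Gd, KK, Set.mem_ofPred_eq] at hg ⊢
    nlinarith [opn_nonneg (XX g)]
  have hu : opn (Lf (ev (XX g) (XX g)ᴴ u)) ≤ KK ^ u.length :=
    ((opn_Lf_le _).trans (opn_ev_le _ _)).trans (pow_le_pow_left₀ (opn_nonneg _) h0 _)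
  have hv : opn (Rt (ev (XX g) (XX g)ᴴ v)) ≤ KK ^ v.length :=
    ((opn_Rt_le _).trans (opn_ev_le _ _)).trans (pow_le_pow_left₀ (opn_nonneg _) h0 _)
  rw [opn_conjTranspose, pow_add]
  exact (opn_mul_le _ _).trans (mul_le_mul hu hv (opn_nonneg _) ((opn_nonneg _).trans hu))

private lemma pairL_P1 {n : ℕ} (hn : 1 ≤ n) (A : Op n) : ‖(A * P1 n).trace‖ ≤ opn A := by
  have hn0 : (0 : ℝ) < n := by exact_mod_cast hn
  have h1 : (A * P1 n).trace = ((n : ℂ))⁻¹ * (star (vc (1 : Mat n)) ⬝ᵥ (A *ᵥ vc (1 : Mat n))) := by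
    have h2 := trace_K_any (1 : Mat n) (1 : Mat n) A
    rw [Matrix.conjTranspose_one] at h2
    rw [← h2, Matrix.trace_mul_comm, ← P1_conjTranspose, P1, Matrix.conjTranspose_smul,
      Matrix.smul_mul, Matrix.trace_smul, smul_eq_mul]
    simp
  have h3 : nv (vc (1 : Mat n)) = n := by
    rw [nv_vc]
    have h4 := hs2_eq_trace (1 : Mat n)
    rw [Matrix.conjTranspose_one, one_mul, Matrix.trace_one, Fintype.card_fin] at h4
    exact_mod_cast h4
  have h5 := norm_form_le A (vc (1 : Mat n)) (vc (1 : Mat n))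
  rw [h3, Real.mul_self_sqrt hn0.le] at h5
  rw [h1, norm_mul, norm_inv, Complex.norm_natCast]
  calc (n : ℝ)⁻¹ * ‖star (vc (1 : Mat n)) ⬝ᵥ (A *ᵥ vc (1 : Mat n))‖
      ≤ (n : ℝ)⁻¹ * (opn A * n) := mul_le_mul_of_nonneg_left h5 (by positivity)
    _ = opn A := by field_simp

private lemma pairL_le (S : Setup) {n : ℕ} (hn : S.N ≤ n) (x : ℝ) (hx : x ∈ Set.Icc 0 KK) :
    |(S.f n).eval x| ≤ (S.G n + Polynomial.C (1 / (n : ℝ) ^ 4)).eval x := by
  rw [Polynomial.eval_add, Polynomial.eval_C]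
  have h1 := S.app n hn x hx
  have h2 : |(S.f n).eval x| ≤ S.χ x + 1 / (n : ℝ) ^ 4 := by
    have h3 := abs_sub_abs_le_abs_sub ((S.f n).eval x) (S.χ x)
    rw [abs_sub_comm] at h3
    rw [abs_of_nonneg (S.nonneg x)] at h3
    linarith
  have h4 : S.χ x ≤ (S.G n).eval x := by
    rcases le_total x S.x0 with h | h
    · exact (S.le_one x).trans (S.G1 n hn x ⟨hx.1, h⟩)
    · rw [S.zero x h]
      exact S.G0 n hn x hx
  linarith

private lemma pairL_Gnn (S : Setup) {n : ℕ} (hn : S.N ≤ n) (g : Fin n × Fin n → ℂ)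
    (hg : g ∈ Gd n) : 0 ≤ ((aeval (DD (XX g)) (S.G n)).trace).re := by
  have h := aeval_trace_mono (psb_DD_Gd g hg) 0 (S.G n) (fun x hx => by
    rw [Polynomial.eval_zero]; exact S.G0 n hn x hx)
  rwa [map_zero, Matrix.trace_zero, Complex.zero_re] at h

private lemma pairL_pt (S : Setup) (u v : List Bool) {n : ℕ} (hn : S.N ≤ n)
    (g : Fin n × Fin n → ℂ) (hg : g ∈ Gd n) :
    ‖((Lf (ev (XX g) (XX g)ᴴ u) * Rt (ev (XX g) (XX g)ᴴ v))ᴴ * FF (S.f n) g).trace‖ ≤
      KK ^ (u.length + v.length) * (((aeval (DD (XX g)) (S.G n)).trace).re + 3) := by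
  have hn1 : 1 ≤ n := S.N_pos.trans hn
  have hn0 : (1 : ℝ) ≤ n := by exact_mod_cast hn1
  set A : Op n := (Lf (ev (XX g) (XX g)ᴴ u) * Rt (ev (XX g) (XX g)ᴴ v))ᴴ with hA
  have hA1 : opn A ≤ KK ^ (u.length + v.length) := pairL_opn g hg u v
  have hA0 : 0 ≤ opn A := opn_nonneg A
  have hG := pairL_Gnn S hn g hg
  have h1 : (A * FF (S.f n) g).trace = (A * aeval (DD (XX g)) (S.f n)).trace
      - (((S.f n).eval 0 : ℝ) : ℂ) * (A * P1 n).trace := by
    rw [FF, mul_sub, Matrix.trace_sub, Matrix.mul_smul, Matrix.trace_smul, smul_eq_mul]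
  have h2 := norm_trace_mul_aeval_le (psb_DD_Gd g hg) A (S.f n)
    (S.G n + Polynomial.C (1 / (n : ℝ) ^ 4)) (pairL_le S hn)
  have h3 : ((aeval (DD (XX g)) (S.G n + Polynomial.C (1 / (n : ℝ) ^ 4))).trace).re
      = ((aeval (DD (XX g)) (S.G n)).trace).re + 1 / (n : ℝ) ^ 2 := by
    rw [map_add, Polynomial.aeval_C, Matrix.trace_add, Complex.add_re]
    congr 1
    rw [Algebra.algebraMap_eq_smul_one, Matrix.trace_smul, Matrix.trace_one, Fintype.card_prod,
      Fintype.card_fin, Complex.real_smul]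
    rw [Complex.re_ofReal_mul]
    push_cast
    have : ((n : ℂ) * (n : ℂ)).re = (n : ℝ) * n := by
      rw [← Nat.cast_mul, Complex.natCast_re]
      push_cast
      ring
    rw [this]
    field_simp
  have hinv2 : 1 / (n : ℝ) ^ 2 ≤ 1 := by
    rw [div_le_one (by positivity)]
    exact one_le_pow₀ hn0
  have hinv4 : 1 / (n : ℝ) ^ 4 ≤ 1 := by
    rw [div_le_one (by positivity)]
    exact one_le_pow₀ hn0
  have h4 : |(S.f n).eval 0| ≤ 2 := by
    have h5 := S.app n hn 0 ⟨le_rfl, by unfold KK; norm_num⟩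
    have h6 := abs_sub_abs_le_abs_sub ((S.f n).eval 0) (S.χ 0)
    rw [abs_sub_comm] at h6
    rw [abs_of_nonneg (S.nonneg 0)] at h6
    have h7 := S.le_one 0
    linarith
  have h5 := pairL_P1 hn1 A
  rw [h1]
  refine (norm_sub_le _ _).trans ?_
  rw [norm_mul, Complex.norm_real, Real.norm_eq_abs]
  rw [h3] at h2
  have h6 : |(S.f n).eval 0| * ‖(A * P1 n).trace‖ ≤ 2 * opn A :=
    mul_le_mul h4 h5 (norm_nonneg _) (by norm_num)
  have h7 : opn A * (((aeval (DD (XX g)) (S.G n)).trace).re + 1 / (n : ℝ) ^ 2) ≤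
      opn A * (((aeval (DD (XX g)) (S.G n)).trace).re + 1) :=
    mul_le_mul_of_nonneg_left (by linarith) hA0
  have h8 : opn A * (((aeval (DD (XX g)) (S.G n)).trace).re + 3) ≤
      KK ^ (u.length + v.length) * (((aeval (DD (XX g)) (S.G n)).trace).re + 3) :=
    mul_le_mul_of_nonneg_right hA1 (by linarith)
  linarith

private lemma TP_of_L1 {φ : ∀ n : ℕ, (Fin n × Fin n → ℂ) → ℝ} {e : ℕ → ℝ}
    (he : Tendsto e atTop (𝓝 0))
    (hint : ∀ᶠ n in atTop, (∀ g, 0 ≤ φ n g) ∧ Integrable (φ n) (gin n) ∧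
      ∫ g, φ n g ∂(gin n) ≤ e n) : TP (fun n g => ((φ n g : ℝ) : ℂ)) 0 := by
  intro ε hε
  have h1 : Tendsto (fun n => ENNReal.ofReal (e n / ε)) atTop (𝓝 0) := by
    have h2 : Tendsto (fun n => e n / ε) atTop (𝓝 (0 / ε)) := he.div_const _
    rw [zero_div] at h2
    have h3 := (ENNReal.continuous_ofReal.tendsto 0).comp h2
    rwa [ENNReal.ofReal_zero] at h3
  refine tendsto_of_tendsto_of_tendsto_of_le_of_le' tendsto_const_nhds h1
    (Eventually.of_forall fun n => zero_le) ?_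
  filter_upwards [hint] with n hn
  have h4 := mul_meas_ge_le_integral_of_nonneg (μ := gin n) (f := φ n)
    (Eventually.of_forall hn.1) hn.2.1 ε
  have h5 : {g : Fin n × Fin n → ℂ | ε ≤ ‖((φ n g : ℝ) : ℂ) - 0‖} ⊆ {g | ε ≤ φ n g} := by
    intro g hg
    simp only [Set.mem_ofPred_eq, sub_zero, Complex.norm_real, Real.norm_eq_abs] at hg ⊢
    rwa [abs_of_nonneg (hn.1 g)] at hg
  refine (measure_mono h5).trans ?_
  rw [← ENNReal.ofReal_toReal (measure_ne_top (gin n) {g | ε ≤ φ n g})]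
  refine ENNReal.ofReal_le_ofReal ?_
  rw [le_div_iff₀ hε]
  have h6 : ε * (gin n {g | ε ≤ φ n g}).toReal ≤ e n := h4.trans hn.2.2
  linarith

theorem pair_L (S : Setup) (u v : List Bool) :
    TP (fun n g => ((Lf (ev (XX g) (XX g)ᴴ u) * Rt (ev (XX g) (XX g)ᴴ v))ᴴ
      * FF (S.f n) g).trace / (n : ℂ)) 0 := by
  have hK : (0 : ℝ) ≤ KK := by unfold KK; norm_num
  set c : ℝ := KK ^ (u.length + v.length) with hc
  have hc0 : 0 ≤ c := pow_nonneg hK _
  set φ : ∀ n : ℕ, (Fin n × Fin n → ℂ) → ℝ := fun n =>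
    (Gd n).indicator (fun g => c * (((aeval (DD (XX g)) (S.G n)).trace).re + 3) / n) with hφ
  have hTP : TP (fun n g => ((φ n g : ℝ) : ℂ)) 0 := by
    refine TP_of_L1 (e := fun n => c * (S.C + 3) / n) ?_ ?_
    · exact tendsto_const_div_atTop_nhds_zero_nat _
    · filter_upwards [eventually_ge_atTop S.N] with n hn
      have hn1 : 1 ≤ n := S.N_pos.trans hn
      have hn0 : (0 : ℝ) < n := by exact_mod_cast hn1
      have hint0 : Integrable (fun g : Fin n × Fin n → ℂ =>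
          ((aeval (DD (XX g)) (S.G n)).trace).re) (gin n) :=
        (PG.re (PG.sum Finset.univ (fun p _ => PG_aeval n (S.G n) p p))).integrableR
      have hint1 : Integrable (fun g : Fin n × Fin n → ℂ =>
          c * (((aeval (DD (XX g)) (S.G n)).trace).re + 3) / n) (gin n) :=
        ((hint0.add (integrable_const 3)).const_mul c).div_const _
      refine ⟨fun g => ?_, hint1.indicator (measurableSet_Gd n), ?_⟩
      · refine Set.indicator_nonneg (fun g hg => ?_) g
        have := pairL_Gnn S hn g hg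
        positivity
      · rw [hφ]
        simp only
        rw [integral_indicator (measurableSet_Gd n)]
        have h1 : ∫ g in Gd n, c * (((aeval (DD (XX g)) (S.G n)).trace).re + 3) / n ∂(gin n)
            = c * ((∫ g in Gd n, ((aeval (DD (XX g)) (S.G n)).trace).re ∂(gin n))
              + (gin n).real (Gd n) * 3) / n := by
          rw [integral_div, integral_const_mul, integral_add hint0.integrableOn
            (integrable_const 3).integrableOn, setIntegral_const, smul_eq_mul]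
        rw [h1]
        have h2 : (gin n).real (Gd n) ≤ 1 := measureReal_le_one
        have h3 := S.Gtr n hn
        refine div_le_div_of_nonneg_right (mul_le_mul_of_nonneg_left ?_ hc0) hn0.le
        linarith
  refine TP_of_le hTP (fun n => (Gd n)ᶜ) EvZ_bad ?_
  filter_upwards [eventually_ge_atTop S.N] with n hn
  intro g hg
  have hg' : g ∈ Gd n := by simpa using hg
  have hn1 : 1 ≤ n := S.N_pos.trans hn
  have hn0 : (0 : ℝ) < n := by exact_mod_cast hn1
  have h1 := pairL_pt S u v hn g hg'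
  have h2 := pairL_Gnn S hn g hg'
  rw [sub_zero, norm_div, Complex.norm_natCast]
  have h3 : φ n g = c * (((aeval (DD (XX g)) (S.G n)).trace).re + 3) / n := by
    rw [hφ]
    simp only
    rw [Set.indicator_of_mem hg']
  rw [h3, Complex.norm_real, Real.norm_eq_abs, abs_of_nonneg (by positivity)]
  exact div_le_div_of_nonneg_right h1 hn0.le

end Pool.Agent.H55.ML
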