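/-
U2 (UpC).  Upper bound by dC.  Needs Bim, QfC, Indep, OpD, Tail, PairL (EvZ_bad).  About 200 lines.
PROOF.  approx_C (ε/2): f of finite support, f ≠ 0, qC f < (dC + ε/2) ‖f‖²; span_wv2: f = sum a_p Vp p in E2 (ev_C_apply).
Y = sum a_p Yp g p ∈ Op n, Z = (1 - P1) Y.  The columns b_q = Z *ᵥ e_q have trace 0 (trace_one_sub_P1),
sum_q nv b_q = Re Tr (Zᴴ Z), sum_q Re star b_q D b_q = Re Tr (Zᴴ D Z) = Re Tr (Yᴴ D Y) (DD_mul_P1, P1_mul_DD).
(1/n²) Tr (Yᴴ D Y) → <f, DCo f> = qC f, (1/n²) Tr (Yᴴ Y) → ‖f‖² (co_conv with h = X and h = 1),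
(1/n²) Tr (Yᴴ P1 Y) <= (1/n²) opn(Y)² → 0 on Gd (Tr (Yᴴ P1 Y) = (1/n) nv (Yᴴ vc 1) <= opn(Yᴴ)²; opn Y <= sum |a_p|
opn(X)^(|p|)).  So off an event of vanishing probability Tr (Zᴴ Z) > 0 and Re Tr (Zᴴ D Z) < (dC + ε) Re Tr (Zᴴ Z):
some column has nv b_q > 0 and form <= (dC + ε) nv b_q.
-/
import Pool.Agent.H55.ML.Bim
import Pool.Agent.H55.ML.QfC
import Pool.Agent.H55.ML.Indep
import Pool.Agent.H55.ML.PairL

namespace Pool.Agent.H55.ML
open MeasureTheory ProbabilityTheory Polynomial Matrix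

private theorem inner_sum_sum {κ E : Type*} [NormedAddCommGroup E] [InnerProductSpace ℂ E]
    (s : Finset κ) (a : κ → ℂ) (e : κ → E) (T : E →L[ℂ] E) :
    inner ℂ (∑ w ∈ s, a w • e w) (T (∑ w ∈ s, a w • e w))
      = ∑ w ∈ s, ∑ w' ∈ s, (star (a w) * a w') * inner ℂ (e w) (T (e w')) := by
  rw [sum_inner]
  refine Finset.sum_congr rfl fun w _ => ?_
  rw [map_sum, inner_sum]
  refine Finset.sum_congr rfl fun w' _ => ?_
  rw [map_smul, inner_smul_left, inner_smul_right]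
  simp only [starRingEnd_apply]
  ring

private theorem dot_self {ι : Type*} [Fintype ι] (v : ι → ℂ) :
    star v ⬝ᵥ v = ((nv v : ℝ) : ℂ) := by
  simp only [dotProduct, nv, Pi.star_apply, Complex.ofReal_sum]
  refine Finset.sum_congr rfl fun i _ => ?_
  rw [← Complex.normSq_eq_norm_sq, Complex.normSq_eq_conj_mul_self]
  rfl

private noncomputable def Yy {n : ℕ} (a : (List Bool × List Bool) →₀ ℂ)
    (g : Fin n × Fin n → ℂ) : Op n :=
  ∑ p ∈ a.support, a p • Yp g p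

private theorem tr_Yy {n : ℕ} (a : (List Bool × List Bool) →₀ ℂ) (g : Fin n × Fin n → ℂ)
    (M : Op n) :
    ((Yy a g)ᴴ * M * Yy a g).trace = ∑ p ∈ a.support, ∑ q ∈ a.support,
      (star (a p) * a q) * ((Yp g p)ᴴ * M * Yp g q).trace := by
  unfold Yy
  rw [Matrix.conjTranspose_sum, Finset.sum_mul, Finset.sum_mul, Matrix.trace_sum]
  refine Finset.sum_congr rfl fun p _ => ?_
  rw [Finset.mul_sum, Matrix.trace_sum]
  refine Finset.sum_congr rfl fun q _ => ?_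
  rw [Matrix.conjTranspose_smul, Matrix.smul_mul, Matrix.smul_mul, Matrix.mul_smul,
    Matrix.trace_smul, Matrix.trace_smul, smul_eq_mul, smul_eq_mul]
  ring

private theorem form_conv (a : (List Bool × List Bool) →₀ ℂ) (h : ℝ[X]) :
    TP (fun n g => ((Yy a g)ᴴ * aeval (DD (XX g)) h * Yy a g).trace / (n : ℂ) ^ 2)
      (inner ℂ (∑ p ∈ a.support, a p • Vp p)
        ((aeval DCo h) (∑ p ∈ a.support, a p • Vp p))) := by
  rw [inner_sum_sum]
  have H := TP.sum a.support (f := fun w n g => ∑ w' ∈ a.support, (star (a w) * a w') *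
      (((Yp g w)ᴴ * aeval (DD (XX g)) h * Yp g w').trace / (n : ℂ) ^ 2))
    (c := fun w => ∑ w' ∈ a.support, (star (a w) * a w') *
      inner ℂ (Vp w) ((aeval DCo h) (Vp w')))
    (fun w _ => TP.sum a.support (fun w' _ => TP.const_mul _ (co_conv w w' h)))
  refine TP.congr H fun n _ g => ?_
  rw [tr_Yy, Finset.sum_div]
  refine Finset.sum_congr rfl fun w _ => ?_
  rw [Finset.sum_div]
  refine Finset.sum_congr rfl fun w' _ => ?_
  rw [mul_div_assoc]

private theorem Kop_trace {n : ℕ} (A : Mat n) : (Kop A (1 : Mat n)).trace = A.trace := by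
  simp only [Matrix.trace, Matrix.diag, Kop, Matrix.of_apply, Fintype.sum_prod_type]
  refine Finset.sum_congr rfl fun i _ => ?_
  rw [Finset.sum_eq_single i]
  · simp
  · intro j _ hj
    rw [Matrix.one_apply_ne hj, mul_zero]
  · intro hi
    exact absurd (Finset.mem_univ i) hi

private theorem tr_P1 {n : ℕ} (g : Fin n × Fin n → ℂ) (p q : List Bool × List Bool) :
    ((Yp g p)ᴴ * P1 n * Yp g q).trace = ((n : ℂ))⁻¹ *
      (ev (XX g) (XX g)ᴴ (q.1 ++ (st p.1 ++ st p.2.reverse ++ q.2.reverse))).trace := by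
  have h1 : ∀ r : List Bool × List Bool, Yp g r
      = Lf (ev (XX g) (XX g)ᴴ r.1) * Rt (ev (XX g) (XX g)ᴴ r.2.reverse) := by
    intro r
    rw [Yp, ev_Lf, ev_Rt]
  rw [h1 p, h1 q, P1, Matrix.mul_smul, Matrix.smul_mul, Matrix.trace_smul, smul_eq_mul]
  congr 1
  rw [Matrix.conjTranspose_mul, Lf_conjTranspose, Rt_conjTranspose, Matrix.mul_assoc (Rt _),
    Lf_mul_Kop, Rt_mul_Kop, Matrix.trace_mul_comm, Matrix.mul_assoc, Rt_mul_Kop, Lf_mul_Kop,
    Kop_trace, Matrix.mul_one, ev_conjTranspose, ev_conjTranspose, ev_append, ev_append, ev_append]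

private theorem P_conv (a : (List Bool × List Bool) →₀ ℂ) :
    TP (fun n g => ((Yy a g)ᴴ * P1 n * Yy a g).trace / (n : ℂ) ^ 2) 0 := by
  have hlim : Filter.Tendsto (fun n : ℕ => ((n : ℂ)⁻¹) ^ 2) Filter.atTop (nhds 0) := by
    have h0 : Filter.Tendsto (fun n : ℕ => ((n : ℂ)⁻¹)) Filter.atTop (nhds 0) :=
      tendsto_inv_atTop_nhds_zero_nat (𝕜 := ℂ)
    have := h0.pow 2
    simpa using this
  have H := TP.sum a.support (f := fun w n g => ∑ w' ∈ a.support, (star (a w) * a w') *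
      (((n : ℂ)⁻¹) ^ 2 * ((ev (XX g) (XX g)ᴴ
        (w'.1 ++ (st w.1 ++ st w.2.reverse ++ w'.2.reverse))).trace / (n : ℂ))))
    (c := fun w => ∑ w' ∈ a.support, (star (a w) * a w') *
      (0 * (tau (w'.1 ++ (st w.1 ++ st w.2.reverse ++ w'.2.reverse)) : ℂ)))
    (fun w _ => TP.sum a.support (fun w' _ => TP.const_mul _
      ((TP.of_tendsto _ _ hlim).mul (tr_conv _))))
  simp only [zero_mul, mul_zero, Finset.sum_const_zero] at H
  refine TP.congr H fun n _ g => ?_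
  rw [tr_Yy, Finset.sum_div]
  refine Finset.sum_congr rfl fun w _ => ?_
  rw [Finset.sum_div]
  refine Finset.sum_congr rfl fun w' _ => ?_
  rw [tr_P1, div_eq_mul_inv, div_eq_mul_inv, inv_pow]
  ring

/-- trace of a form as the sum over the columns -/
private theorem tr_cols {ι : Type*} [Fintype ι] (Z M : Matrix ι ι ℂ) :
    (Zᴴ * M * Z).trace = ∑ q, star (fun i => Z i q) ⬝ᵥ (M *ᵥ fun i => Z i q) := by
  rw [Matrix.mul_assoc]
  rfl

theorem upper_C (ε : ℝ) (hε : 0 < ε) :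
    EvZ (fun n => {g | ¬ ∃ b : Fin n × Fin n → ℂ, ∑ i, b (i, i) = 0 ∧ 0 < nv b ∧
      (star b ⬝ᵥ (DD (XX g) *ᵥ b)).re ≤ (dC + ε) * nv b}) := by
  obtain ⟨f, ⟨s, hs⟩, hfne, hq⟩ := approx_C (ε / 2) (by positivity)
  obtain ⟨a, ha⟩ := span_wv2 (Finsupp.onFinset s (fun u => (f : List Bool × List Bool → ℂ) u) (by
    intro u hu
    by_contra hus
    exact hu (hs u hus)))
  have hfa : f = ∑ w ∈ a.support, a w • Vp w := by
    apply lp.ext
    funext u
    obtain ⟨x, y⟩ := u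
    rw [lp.coeFn_sum, Finset.sum_apply]
    have := ha x y
    simp only [Finsupp.onFinset_apply, Finsupp.sum] at this
    rw [this]
    refine Finset.sum_congr rfl fun w _ => ?_
    rw [lp.coeFn_smul, Pi.smul_apply, Vp, ev_C_apply, smul_eq_mul]
  have hC := P_conv a
  have hB := form_conv a 1
  have hA := form_conv a X
  rw [← hfa] at hB hA
  simp only [map_one, aeval_X, Matrix.mul_one] at hB hA
  have hT := (TP.const_mul ((dC + ε : ℝ) : ℂ) (hB.sub hC)).sub hA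
  set δ : ℝ := (dC + ε) * ‖f‖ ^ 2 - qC f with hδ
  have hnf : 0 < ‖f‖ ^ 2 := by
    have : 0 < ‖f‖ := norm_pos_iff.mpr hfne
    positivity
  have hδ0 : 0 < δ := by
    rw [hδ]
    nlinarith
  refine EvZ.mono (hT δ hδ0) ?_
  filter_upwards [Filter.eventually_ge_atTop 1] with n hn
  intro g hg
  change ¬ _ at hg
  change δ ≤ _
  by_contra hlt
  rw [not_le] at hlt
  apply hg
  have hn0 : (0 : ℝ) < n := by exact_mod_cast hn
  have hnC : (n : ℂ) ≠ 0 := by exact_mod_cast hn0.ne'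
  have hQ : (1 - P1 n)ᴴ = 1 - P1 n := by
    rw [Matrix.conjTranspose_sub, Matrix.conjTranspose_one, P1_conjTranspose]
  set Z : Op n := (1 - P1 n) * Yy a g with hZ
  have hZc : Zᴴ = (Yy a g)ᴴ * (1 - P1 n) := by
    rw [hZ, Matrix.conjTranspose_mul, hQ]
  have e1 : ((∑ q, nv (fun i => Z i q) : ℝ) : ℂ)
      = ((Yy a g)ᴴ * Yy a g).trace - ((Yy a g)ᴴ * P1 n * Yy a g).trace := by
    have h1 := tr_cols Z 1
    simp only [Matrix.one_mulVec, dot_self, Matrix.mul_one] at h1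
    rw [Complex.ofReal_sum, ← h1, hZc, hZ, Matrix.mul_assoc, ← Matrix.mul_assoc (1 - P1 n)]
    have h2 : (1 - P1 n) * (1 - P1 n) = 1 - P1 n := by
      rw [Matrix.mul_sub, Matrix.mul_one, Matrix.sub_mul, Matrix.one_mul, P1_mul_P1, sub_self,
        sub_zero]
    rw [h2, Matrix.sub_mul, Matrix.one_mul, Matrix.mul_sub, Matrix.trace_sub, Matrix.mul_assoc]
  have e2 : ∑ q, star (fun i => Z i q) ⬝ᵥ (DD (XX g) *ᵥ fun i => Z i q)
      = ((Yy a g)ᴴ * DD (XX g) * Yy a g).trace := by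
    rw [← tr_cols, hZc, hZ]
    congr 1
    have h3 : (1 - P1 n) * DD (XX g) * (1 - P1 n) = DD (XX g) := by
      rw [Matrix.sub_mul, Matrix.one_mul, P1_mul_DD, sub_zero, Matrix.mul_sub,
        Matrix.mul_one, DD_mul_P1, sub_zero]
    calc (Yy a g)ᴴ * (1 - P1 n) * DD (XX g) * ((1 - P1 n) * Yy a g)
        = (Yy a g)ᴴ * ((1 - P1 n) * DD (XX g) * (1 - P1 n)) * Yy a g := by
          simp only [Matrix.mul_assoc]
      _ = _ := by rw [h3]
  have hre : 0 < (((dC + ε : ℝ) : ℂ) * (((Yy a g)ᴴ * Yy a g).trace / (n : ℂ) ^ 2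
      - ((Yy a g)ᴴ * P1 n * Yy a g).trace / (n : ℂ) ^ 2)
      - ((Yy a g)ᴴ * DD (XX g) * Yy a g).trace / (n : ℂ) ^ 2).re := by
    have h3 := (Complex.abs_re_le_norm _).trans_lt hlt
    rw [abs_lt, Complex.sub_re] at h3
    have h4 : (((dC + ε : ℝ) : ℂ) * (inner ℂ f ((1 : E2 →L[ℂ] E2) f) - 0)
        - inner ℂ f (DCo f)).re = δ := by
      have h5 : inner ℂ f ((1 : E2 →L[ℂ] E2) f) = ((‖f‖ ^ 2 : ℝ) : ℂ) := by
        rw [one_apply_eq_self, inner_self_eq_norm_sq_to_K]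
        push_cast
        rfl
      rw [h5, sub_zero, ← Complex.ofReal_mul, Complex.sub_re, Complex.ofReal_re,
        re_inner_DCo]
    rw [h4] at h3
    linarith [h3.1]
  rw [← sub_div, ← e1, ← e2] at hre
  have hre2 : 0 < ∑ q, ((dC + ε) * nv (fun i => Z i q)
      - (star (fun i => Z i q) ⬝ᵥ (DD (XX g) *ᵥ fun i => Z i q)).re) := by
    have h6 : (((dC + ε : ℝ) : ℂ) * (((∑ q, nv (fun i => Z i q) : ℝ) : ℂ) / (n : ℂ) ^ 2)
      - (∑ q, star (fun i => Z i q) ⬝ᵥ (DD (XX g) *ᵥ fun i => Z i q)) / (n : ℂ) ^ 2).re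
      = (∑ q, ((dC + ε) * nv (fun i => Z i q)
      - (star (fun i => Z i q) ⬝ᵥ (DD (XX g) *ᵥ fun i => Z i q)).re)) / (n : ℝ) ^ 2 := by
      rw [← mul_div_assoc, ← sub_div]
      have : ((n : ℂ)) ^ 2 = (((n : ℝ) ^ 2 : ℝ) : ℂ) := by push_cast; rfl
      rw [this, Complex.div_ofReal_re, Complex.sub_re, ← Complex.ofReal_mul, Complex.ofReal_re,
        Complex.re_sum, Finset.sum_sub_distrib, Finset.mul_sum]
    rw [h6] at hre
    by_contra hneg
    rw [not_lt] at hneg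
    exact absurd hre (not_lt.mpr (div_nonpos_of_nonpos_of_nonneg hneg (by positivity)))
  obtain ⟨q, hq1⟩ : ∃ q, 0 < (dC + ε) * nv (fun i => Z i q)
      - (star (fun i => Z i q) ⬝ᵥ (DD (XX g) *ᵥ fun i => Z i q)).re := by
    by_contra hno
    push Not at hno
    exact absurd hre2 (not_lt.mpr (Finset.sum_nonpos fun q _ => hno q))
  refine ⟨fun i => Z i q, ?_, ?_, by linarith⟩
  · exact trace_one_sub_P1 (fun i => Yy a g i q)
  · have hnn : 0 ≤ nv (fun i => Z i q) := Finset.sum_nonneg fun i _ => by positivity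
    rcases hnn.lt_or_eq with hpos | hzero
    · exact hpos
    · exfalso
      have hb : (fun i => Z i q) = 0 := by
        have h7 := hzero.symm
        unfold nv at h7
        rw [Finset.sum_eq_zero_iff_of_nonneg (fun i _ => by positivity)] at h7
        funext i
        have := h7 i (Finset.mem_univ i)
        simpa using this
      rw [hb] at hq1
      simp [nv] at hq1

end Pool.Agent.H55.ML
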