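/-
U1 (UpT).  Upper bound by dT.  Needs Bim, QfT, Indep, TSym.  About 150 lines.
PROOF.  approx_T (ε/2): f of finite support, f [] = 0, f ≠ 0, qT f < (dT + ε/2) ‖f‖².  span_wv: f = sum a_w wv w, that is
f = sum a_w ev LT w Om1 in E1 (ev_LT_apply).  y = sum a_w ev X X* w, b = vc y - P1 (vc y): trace 0
(trace_one_sub_P1).  (1/n) nv b = (1/n) star(vc y) vc y - |tr y|² (form_P1) → ‖f‖² - |f []|² = ‖f‖² (bim_conv with h = 1,
tr_conv; inner_Om1) and (1/n) star b D b = (1/n) star(vc y) D vc y → <f, DT f> = qT f (bim_conv with h = X; DD_mul_P1,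
P1_mul_DD).  So off an event of vanishing probability nv b > 0 and form <= (dT + ε) nv b.
-/
import Pool.Agent.H55.ML.Bim
import Pool.Agent.H55.ML.QfT
import Pool.Agent.H55.ML.Indep

namespace Pool.Agent.H55.ML
open MeasureTheory ProbabilityTheory Polynomial Matrix

private theorem form_sum {ι κ : Type*} [Fintype ι] (s : Finset κ) (a : κ → ℂ) (v : κ → ι → ℂ)
    (M : Matrix ι ι ℂ) :
    star (∑ w ∈ s, a w • v w) ⬝ᵥ (M *ᵥ ∑ w ∈ s, a w • v w)
      = ∑ w ∈ s, ∑ w' ∈ s, (star (a w) * a w') * (star (v w) ⬝ᵥ (M *ᵥ v w')) := by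
  rw [star_sum, sum_dotProduct]
  refine Finset.sum_congr rfl fun w _ => ?_
  rw [Matrix.mulVec_sum, dotProduct_sum]
  refine Finset.sum_congr rfl fun w' _ => ?_
  rw [star_smul, smul_dotProduct, Matrix.mulVec_smul, dotProduct_smul, smul_eq_mul, smul_eq_mul]
  ring

private theorem inner_sum_sum {κ E : Type*} [NormedAddCommGroup E] [InnerProductSpace ℂ E]
    (s : Finset κ) (a : κ → ℂ) (e : κ → E) (T : E →L[ℂ] E) :
    inner ℂ (∑ w ∈ s, a w • e w) (T (∑ w ∈ s, a w • e w))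
      = ∑ w ∈ s, ∑ w' ∈ s, (star (a w) * a w') * inner ℂ (e w) (T (e w')) := by
  rw [sum_inner]
  refine Finset.sum_congr rfl fun w _ => ?_
  rw [map_sum, inner_sum]
  refine Finset.sum_congr rfl fun w' _ => ?_
  rw [map_smul, inner_smul_left, inner_smul_right]
  simp only [starRingEnd_apply]
  ring

private theorem form_conj {ι : Type*} [Fintype ι] (Q M : Matrix ι ι ℂ) (V : ι → ℂ) :
    star (Q *ᵥ V) ⬝ᵥ (M *ᵥ (Q *ᵥ V)) = star V ⬝ᵥ ((Qᴴ * M * Q) *ᵥ V) := by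
  rw [Matrix.star_mulVec, ← Matrix.dotProduct_mulVec, Matrix.mulVec_mulVec, Matrix.mulVec_mulVec]

private theorem dot_self {ι : Type*} [Fintype ι] (v : ι → ℂ) :
    star v ⬝ᵥ v = ((nv v : ℝ) : ℂ) := by
  simp only [dotProduct, nv, Pi.star_apply, Complex.ofReal_sum]
  refine Finset.sum_congr rfl fun i _ => ?_
  rw [← Complex.normSq_eq_norm_sq, Complex.normSq_eq_conj_mul_self]
  rfl

private noncomputable def yy {n : ℕ} (a : List Bool →₀ ℂ) (g : Fin n × Fin n → ℂ) : Mat n :=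
  ∑ w ∈ a.support, a w • ev (XX g) (XX g)ᴴ w

private theorem vc_yy {n : ℕ} (a : List Bool →₀ ℂ) (g : Fin n × Fin n → ℂ) :
    vc (yy a g) = ∑ w ∈ a.support, a w • vc (ev (XX g) (XX g)ᴴ w) := by
  funext p
  simp only [vc, yy, Finset.sum_apply, Matrix.sum_apply, Pi.smul_apply, Matrix.smul_apply]

private theorem form_conv (a : List Bool →₀ ℂ) (h : ℝ[X]) :
    TP (fun n g => (star (vc (yy a g)) ⬝ᵥ (aeval (DD (XX g)) h *ᵥ vc (yy a g))) / (n : ℂ))
      (inner ℂ (∑ w ∈ a.support, a w • ev (LT true) (LT false) w Om1)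
        ((aeval DT h) (∑ w ∈ a.support, a w • ev (LT true) (LT false) w Om1))) := by
  rw [inner_sum_sum]
  have H := TP.sum a.support (f := fun w n g => ∑ w' ∈ a.support, (star (a w) * a w') *
      ((star (vc (ev (XX g) (XX g)ᴴ w)) ⬝ᵥ
        (aeval (DD (XX g)) h *ᵥ vc (ev (XX g) (XX g)ᴴ w'))) / (n : ℂ)))
    (c := fun w => ∑ w' ∈ a.support, (star (a w) * a w') *
      inner ℂ (ev (LT true) (LT false) w Om1) ((aeval DT h) (ev (LT true) (LT false) w' Om1)))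
    (fun w _ => TP.sum a.support (fun w' _ => TP.const_mul _ (bim_conv w w' h)))
  refine TP.congr H fun n _ g => ?_
  rw [vc_yy, form_sum, Finset.sum_div]
  refine Finset.sum_congr rfl fun w _ => ?_
  rw [Finset.sum_div]
  refine Finset.sum_congr rfl fun w' _ => ?_
  rw [mul_div_assoc]

private theorem tr_yy_conv (a : List Bool →₀ ℂ) :
    TP (fun n g => (yy a g).trace / (n : ℂ)) (∑ w ∈ a.support, a w * wv w []) := by
  have H := TP.sum a.support (f := fun w n g => a w * ((ev (XX g) (XX g)ᴴ w).trace / (n : ℂ)))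
    (c := fun w => a w * (tau w : ℂ)) (fun w _ => TP.const_mul _ (tr_conv w))
  simp only [← wv_nil_apply] at H
  refine TP.congr H fun n _ g => ?_
  simp only [yy, Matrix.trace_sum, Matrix.trace_smul, smul_eq_mul, Finset.sum_div, mul_div_assoc]

theorem upper_T (ε : ℝ) (hε : 0 < ε) :
    EvZ (fun n => {g | ¬ ∃ b : Fin n × Fin n → ℂ, ∑ i, b (i, i) = 0 ∧ 0 < nv b ∧
      (star b ⬝ᵥ (DD (XX g) *ᵥ b)).re ≤ (dT + ε) * nv b}) := by
  obtain ⟨f, ⟨s, hs⟩, hf0, hfne, hq⟩ := approx_T (ε / 2) (by positivity)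
  -- the coordinates of `f` as a finitely supported function
  obtain ⟨a, ha⟩ := span_wv (Finsupp.onFinset s (fun u => (f : List Bool → ℂ) u) (by
    intro u hu
    by_contra hus
    exact hu (hs u hus)))
  have hfa : f = ∑ w ∈ a.support, a w • ev (LT true) (LT false) w Om1 := by
    apply lp.ext
    funext u
    rw [lp.coeFn_sum, Finset.sum_apply]
    have := ha u
    simp only [Finsupp.onFinset_apply, Finsupp.sum] at this
    rw [this]
    refine Finset.sum_congr rfl fun w _ => ?_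
    rw [lp.coeFn_smul, Pi.smul_apply, ev_LT_apply, smul_eq_mul]
  have hC := tr_yy_conv a
  have hC0 : ∑ w ∈ a.support, a w * wv w [] = 0 := by
    have := ha []
    simp only [Finsupp.onFinset_apply, Finsupp.sum] at this
    rw [← this, hf0]
  rw [hC0] at hC
  have hB := form_conv a 1
  have hA := form_conv a X
  rw [← hfa] at hB hA
  simp only [map_one, aeval_X, Matrix.one_mulVec] at hB hA
  have hT := (TP.const_mul ((dT + ε : ℝ) : ℂ) (hB.sub (hC.conj.mul hC))).sub hA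
  set δ : ℝ := (dT + ε) * ‖f‖ ^ 2 - qT f with hδ
  have hnf : 0 < ‖f‖ ^ 2 := by
    have : 0 < ‖f‖ := norm_pos_iff.mpr hfne
    positivity
  have hδ0 : 0 < δ := by
    rw [hδ]
    nlinarith
  refine EvZ.mono (hT δ hδ0) ?_
  filter_upwards [Filter.eventually_ge_atTop 1] with n hn
  intro g hg
  change ¬ _ at hg
  change δ ≤ _
  by_contra hlt
  rw [not_le] at hlt
  apply hg
  have hn0 : (0 : ℝ) < n := by exact_mod_cast hn
  have hnC : (n : ℂ) ≠ 0 := by exact_mod_cast hn0.ne'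
  have hQ : (1 - P1 n)ᴴ = 1 - P1 n := by
    rw [Matrix.conjTranspose_sub, Matrix.conjTranspose_one, P1_conjTranspose]
  refine ⟨(1 - P1 n) *ᵥ vc (yy a g), trace_one_sub_P1 _, ?_⟩
  have e1 : ((nv ((1 - P1 n) *ᵥ vc (yy a g)) : ℝ) : ℂ)
      = star (vc (yy a g)) ⬝ᵥ vc (yy a g)
        - ((‖(yy a g).trace‖ ^ 2 / n : ℝ) : ℂ) := by
    have h1 := form_conj (1 - P1 n) 1 (vc (yy a g))
    rw [Matrix.one_mulVec, dot_self, hQ, Matrix.mul_one] at h1
    rw [h1]
    have h2 : (1 - P1 n) * (1 - P1 n) = 1 - P1 n := by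
      rw [Matrix.mul_sub, Matrix.mul_one, Matrix.sub_mul, Matrix.one_mul, P1_mul_P1, sub_self,
        sub_zero]
    rw [h2, Matrix.sub_mulVec, Matrix.one_mulVec, dotProduct_sub, form_P1]
    rfl
  have e2 : star ((1 - P1 n) *ᵥ vc (yy a g)) ⬝ᵥ (DD (XX g) *ᵥ ((1 - P1 n) *ᵥ vc (yy a g)))
      = star (vc (yy a g)) ⬝ᵥ (DD (XX g) *ᵥ vc (yy a g)) := by
    rw [form_conj, hQ, Matrix.sub_mul, Matrix.one_mul, P1_mul_DD, sub_zero, Matrix.mul_sub,
      Matrix.mul_one, DD_mul_P1, sub_zero]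
  have hcc : (starRingEnd ℂ) ((yy a g).trace / (n : ℂ)) * ((yy a g).trace / (n : ℂ))
      = ((‖(yy a g).trace‖ ^ 2 / n : ℝ) : ℂ) / (n : ℂ) := by
    rw [← Complex.normSq_eq_conj_mul_self, Complex.normSq_eq_norm_sq, norm_div,
      Complex.norm_natCast]
    push_cast
    field_simp
  have hre : 0 < (((dT + ε : ℝ) : ℂ) * ((star (vc (yy a g)) ⬝ᵥ vc (yy a g)) / (n : ℂ)
      - (starRingEnd ℂ) ((yy a g).trace / (n : ℂ)) * ((yy a g).trace / (n : ℂ)))
      - (star (vc (yy a g)) ⬝ᵥ (DD (XX g) *ᵥ vc (yy a g))) / (n : ℂ)).re := by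
    have h3 := (Complex.abs_re_le_norm _).trans_lt hlt
    rw [abs_lt, Complex.sub_re] at h3
    have h4 : (((dT + ε : ℝ) : ℂ) * (inner ℂ f ((1 : E1 →L[ℂ] E1) f) - (starRingEnd ℂ) 0 * 0)
        - inner ℂ f (DT f)).re = δ := by
      have h5 : inner ℂ f ((1 : E1 →L[ℂ] E1) f) = ((‖f‖ ^ 2 : ℝ) : ℂ) := by
        rw [one_apply_eq_self, inner_self_eq_norm_sq_to_K]
        push_cast
        rfl
      rw [h5, mul_zero, sub_zero, ← Complex.ofReal_mul, Complex.sub_re, Complex.ofReal_re,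
        re_inner_DT]
    rw [h4] at h3
    linarith [h3.1]
  rw [hcc, ← sub_div, ← e1, ← e2] at hre
  have hre2 : 0 < (dT + ε) * nv ((1 - P1 n) *ᵥ vc (yy a g))
      - (star ((1 - P1 n) *ᵥ vc (yy a g)) ⬝ᵥ
          (DD (XX g) *ᵥ ((1 - P1 n) *ᵥ vc (yy a g)))).re := by
    have h6 : (((dT + ε : ℝ) : ℂ) * (((nv ((1 - P1 n) *ᵥ vc (yy a g)) : ℝ) : ℂ) / (n : ℂ))
      - (star ((1 - P1 n) *ᵥ vc (yy a g)) ⬝ᵥ
          (DD (XX g) *ᵥ ((1 - P1 n) *ᵥ vc (yy a g)))) / (n : ℂ)).re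
      = ((dT + ε) * nv ((1 - P1 n) *ᵥ vc (yy a g))
      - (star ((1 - P1 n) *ᵥ vc (yy a g)) ⬝ᵥ
          (DD (XX g) *ᵥ ((1 - P1 n) *ᵥ vc (yy a g)))).re) / n := by
      rw [← mul_div_assoc, ← sub_div, ← Complex.ofReal_natCast, Complex.div_ofReal_re,
        Complex.sub_re, ← Complex.ofReal_mul, Complex.ofReal_re]
    rw [h6] at hre
    by_contra hneg
    rw [not_lt] at hneg
    exact absurd hre (not_lt.mpr (div_nonpos_of_nonpos_of_nonneg hneg hn0.le))
  refine ⟨?_, by linarith⟩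
  have hnn : 0 ≤ nv ((1 - P1 n) *ᵥ vc (yy a g)) := Finset.sum_nonneg fun i _ => by positivity
  rcases hnn.lt_or_eq with hpos | hzero
  · exact hpos
  · exfalso
    have hb : (1 - P1 n) *ᵥ vc (yy a g) = 0 := by
      have h7 := hzero.symm
      unfold nv at h7
      rw [Finset.sum_eq_zero_iff_of_nonneg (fun i _ => by positivity)] at h7
      funext i
      have := h7 i (Finset.mem_univ i)
      simpa using this
    rw [hb] at hre2
    simp [nv] at hre2

end Pool.Agent.H55.ML
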