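/-
Main.  Convergence in probability of the malnormality constant.  Assembly.
-/
import Pool.Agent.H55.ML.NoLow
import Pool.Agent.H55.ML.UpT
import Pool.Agent.H55.ML.UpC
import Pool.Agent.H55.ML.MalQ

namespace Pool.Agent.H55.ML
open MeasureTheory ProbabilityTheory Filter Topology Matrix

private theorem upper_min (ε : ℝ) (hε : 0 < ε) :
    EvZ (fun n => {g | ¬ ∃ b : Fin n × Fin n → ℂ, ∑ i, b (i, i) = 0 ∧ 0 < nv b ∧
      (star b ⬝ᵥ (DD (XX g) *ᵥ b)).re ≤ (min dC dT + ε) * nv b}) := by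
  rcases le_total dC dT with h | h
  · rw [min_eq_left h]; exact upper_C ε hε
  · rw [min_eq_right h]; exact upper_T ε hε

private theorem cmal_sq : cmal ^ 2 = min dC dT / 2 := by
  unfold cmal
  rw [Real.sq_sqrt]
  have h1 := dC_nonneg
  have h2 := dT_nonneg
  have : 0 ≤ min dC dT := le_min h1 h2
  linarith

private theorem cmal_nonneg : 0 ≤ cmal := Real.sqrt_nonneg _

/-- lower half -/
private theorem lower_half (ε : ℝ) (hε : 0 < ε) :
    EvZ (fun n => {g | mal (XX g) ≤ cmal - ε}) := by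
  by_cases hc : cmal - ε < 0
  · refine EvZ.mono (B := fun _ => ∅) (by simp [EvZ]) (Eventually.of_forall fun n g hg => ?_)
    have h1 := mal_nonneg (XX g)
    have h2 : mal (XX g) ≤ cmal - ε := hg
    linarith
  · push Not at hc
    -- choose `x1` between `2 (cmal - ε)²` and `min dC dT`
    set x1 : ℝ := 2 * (cmal - ε / 2) ^ 2 with hx1
    have hlt : x1 < min dC dT := by
      have h1 := cmal_sq
      have h2 : (cmal - ε / 2) ^ 2 < cmal ^ 2 := by nlinarith
      rw [hx1]; linarith
    refine EvZ.mono (no_low x1 hlt) ?_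
    filter_upwards [eventually_ge_atTop 2] with n hn g hg
    by_contra hno
    have hno' : ∀ b : Fin n × Fin n → ℂ, ∑ i, b (i, i) = 0 → nv b = 1 →
        x1 ≤ (star b ⬝ᵥ (DD (XX g) *ᵥ b)).re := by
      intro b hb0 hb1
      by_contra hlt'
      push Not at hlt'
      exact hno ⟨b, hb0, hb1, hlt'.le⟩
    have h3 := mal_ge hn (XX g) x1 hno'
    have h4 : Real.sqrt (x1 / 2) = cmal - ε / 2 := by
      rw [hx1]
      have : 2 * (cmal - ε / 2) ^ 2 / 2 = (cmal - ε / 2) ^ 2 := by ring
      rw [this]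
      exact Real.sqrt_sq (by linarith)
    have h5 : mal (XX g) ≤ cmal - ε := hg
    linarith

/-- upper half -/
private theorem upper_half (ε : ℝ) (hε : 0 < ε) :
    EvZ (fun n => {g | cmal + ε ≤ mal (XX g)}) := by
  -- `η` with `sqrt((m + η)/2) < cmal + ε`
  set η : ℝ := 2 * ((cmal + ε / 2) ^ 2 - cmal ^ 2) with hη
  have hη0 : 0 < η := by
    have := cmal_nonneg
    rw [hη]; nlinarith
  refine EvZ.mono (upper_min η hη0) ?_
  refine Eventually.of_forall fun n g hg => ?_
  rintro ⟨b, hb0, hb1, hb2⟩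
  have h1 := mal_le (XX g) (min dC dT + η) b hb0 hb1 hb2
  have h2 : Real.sqrt ((min dC dT + η) / 2) = cmal + ε / 2 := by
    have h3 := cmal_sq
    have : (min dC dT + η) / 2 = (cmal + ε / 2) ^ 2 := by
      rw [hη]; linarith
    rw [this]
    exact Real.sqrt_sq (by have := cmal_nonneg; linarith)
  have h4 : cmal + ε ≤ mal (XX g) := hg
  linarith

theorem mal_gin (ε : ℝ) (hε : 0 < ε) :
    Tendsto (fun n => gin n {g | ε ≤ |mal (XX g) - cmal|}) atTop (𝓝 0) := by
  have h := EvZ.union (lower_half ε hε) (upper_half ε hε)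
  refine EvZ.mono h (Eventually.of_forall fun n g hg => ?_)
  have hg' : ε ≤ |mal (XX g) - cmal| := hg
  rcases le_abs.mp hg' with h1 | h1
  · right
    show cmal + ε ≤ mal (XX g)
    linarith
  · left
    show mal (XX g) ≤ cmal - ε
    linarith

end Pool.Agent.H55.ML
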