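/-
MalCont.  The malnormality constant is Lipschitz in the operator norm, hence continuous and measurable.
-/
import Pool.Agent.H55.ML.OpD
import Pool.Agent.H55.ML.MalQ

namespace Pool.Agent.H55.ML
open Matrix MeasureTheory

variable {n : ℕ}

private theorem sqrt_hs2_eq {ι κ : Type*} [Fintype ι] [Fintype κ] (A : Matrix ι κ ℂ) :
    Real.sqrt (hs2 A) = ‖(WithLp.toLp 2 (fun p : ι × κ => A p.1 p.2) : EuclideanSpace ℂ (ι × κ))‖ := by
  rw [EuclideanSpace.norm_eq]
  congr 1
  rw [hs2, Fintype.sum_prod_type]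

private theorem sqrt_hs2_add {ι κ : Type*} [Fintype ι] [Fintype κ] (A B : Matrix ι κ ℂ) :
    Real.sqrt (hs2 (A + B)) ≤ Real.sqrt (hs2 A) + Real.sqrt (hs2 B) := by
  rw [sqrt_hs2_eq, sqrt_hs2_eq, sqrt_hs2_eq]
  have h := norm_add_le (WithLp.toLp 2 (fun p : ι × κ => A p.1 p.2) : EuclideanSpace ℂ (ι × κ))
    (WithLp.toLp 2 (fun p : ι × κ => B p.1 p.2) : EuclideanSpace ℂ (ι × κ))
  exact h

private theorem comm_le (Z B : Mat n) (hB : hs2 B = 1) :
    Real.sqrt (hs2 (Z * B - B * Z)) ≤ 2 * opn Z := by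
  have h0 := opn_nonneg Z
  have h1 : hs2 (Z * B - B * Z) ≤ (2 * opn Z) ^ 2 := by
    have h2 := hs2_sub_le (Z * B) (B * Z)
    have h3 := hs2_mul_le Z B
    have h4 := hs2_mul_le' B Z
    rw [hB] at h3 h4
    nlinarith
  calc Real.sqrt (hs2 (Z * B - B * Z)) ≤ Real.sqrt ((2 * opn Z) ^ 2) := Real.sqrt_le_sqrt h1
    _ = 2 * opn Z := Real.sqrt_sq (by linarith)

private theorem mal_le_add (X Y : Mat n) : mal X ≤ mal Y + 2 * opn (X - Y) := by
  have h0 := opn_nonneg (X - Y)
  by_cases hS : ∃ B : Mat n, B.IsHermitian ∧ B.trace = 0 ∧ hs2 B = 1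
  · obtain ⟨B0, hB0⟩ := hS
    have key : mal X - 2 * opn (X - Y) ≤ mal Y := by
      refine le_csInf ⟨_, B0, hB0.1, hB0.2.1, hB0.2.2, rfl⟩ ?_
      rintro r ⟨B, hB1, hB2, hB3, rfl⟩
      have h1 : mal X ≤ Real.sqrt (hs2 (X * B - B * X)) := by
        refine csInf_le ⟨0, ?_⟩ ⟨B, hB1, hB2, hB3, rfl⟩
        rintro r ⟨B', _, _, _, rfl⟩
        exact Real.sqrt_nonneg _
      have h2 : X * B - B * X = (Y * B - B * Y) + ((X - Y) * B - B * (X - Y)) := by
        noncomm_ring
      have h3 : Real.sqrt (hs2 (X * B - B * X)) ≤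
          Real.sqrt (hs2 (Y * B - B * Y)) + Real.sqrt (hs2 ((X - Y) * B - B * (X - Y))) := by
        conv_lhs => rw [h2]
        exact sqrt_hs2_add _ _
      have h4 := comm_le (X - Y) B hB3
      linarith
    linarith
  · have hX : mal X = 0 := by
      unfold mal
      have : {r : ℝ | ∃ B : Mat n, B.IsHermitian ∧ B.trace = 0 ∧ hs2 B = 1 ∧
          r = Real.sqrt (hs2 (X * B - B * X))} = ∅ := by
        ext r
        simp only [Set.mem_setOf_eq, Set.mem_empty_iff_false, iff_false]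
        rintro ⟨B, h1, h2, h3, _⟩
        exact hS ⟨B, h1, h2, h3⟩
      rw [this, Real.sInf_empty]
    have hY := mal_nonneg Y
    linarith

theorem continuous_mal : Continuous (mal : Mat n → ℝ) := by
  rw [continuous_iff_continuousAt]
  intro X
  have h1 : Filter.Tendsto (fun Y : Mat n => 2 * opn (X - Y)) (nhds X) (nhds 0) := by
    have h2 : Continuous (fun Y : Mat n => 2 * opn (X - Y)) :=
      continuous_const.mul (continuous_opn.comp (continuous_const.sub continuous_id))
    have h3 := h2.tendsto X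
    simp only [sub_self, opn_zero, mul_zero] at h3
    exact h3
  have hneg : ∀ A : Mat n, opn (-A) = opn A := by
    intro A
    have := opn_smul (-1 : ℂ) A
    simpa using this
  refine tendsto_iff_dist_tendsto_zero.mpr ?_
  refine squeeze_zero (fun _ => dist_nonneg) (fun Y => ?_) h1
  rw [Real.dist_eq, abs_le]
  have h2 := mal_le_add X Y
  have h3 := mal_le_add Y X
  have h4 : opn (Y - X) = opn (X - Y) := by rw [← hneg, neg_sub]
  rw [h4] at h3
  constructor <;> linarith

theorem measurable_mal_XX : Measurable (fun g : Fin n × Fin n → ℂ => mal (XX g)) :=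
  (continuous_mal.comp continuous_XX).measurable

end Pool.Agent.H55.ML
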