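/-
L3 (PairK).  The soft projection is asymptotically orthogonal to the rank one operators.  Needs PairV.  About 80 lines.
PROOF.  trace_K_any: Tr ((Kop A V)ᴴ F) = star (vc A) ⬝ (F vc Vᴴ), A = ev u, Vᴴ = ev (st v) (ev_conjTranspose), so on Gd
|.|/n <= sqrt(nv (vc A)/n) sqrt(nv (F vc ev(st v))/n), nv (vc A)/n = hs2 A/n <= opn A² <= C1 (nv_vc, hs2_le_opn,
opn_ev_le).  pair_V for st v and TP_of_le (the square root: {ε <= C sqrt t} = {ε²/C² <= t}).
-/
import Pool.Agent.H55.ML.PairV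

namespace Pool.Agent.H55.ML
open MeasureTheory ProbabilityTheory Polynomial Matrix

private theorem pairK_TP_sqrt {t : ∀ n : ℕ, (Fin n × Fin n → ℂ) → ℝ} (ht0 : ∀ n g, 0 ≤ t n g)
    (ht : TP (fun n g => ((t n g : ℝ) : ℂ)) 0) (C : ℝ) (hC : 0 < C) :
    TP (fun n g => ((Real.sqrt (C * t n g) : ℝ) : ℂ)) 0 := by
  intro ε hε
  have h := ht (ε ^ 2 / C) (by positivity)
  refine EvZ.mono h (Filter.Eventually.of_forall fun n => ?_)
  intro g hg
  simp only [Set.mem_ofPred_eq, sub_zero, Complex.norm_real, Real.norm_eq_abs] at hg ⊢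
  rw [abs_of_nonneg (Real.sqrt_nonneg _)] at hg
  rw [abs_of_nonneg (ht0 n g), div_le_iff₀ hC]
  have h2 := (Real.le_sqrt' hε).1 hg
  linarith [mul_comm C (t n g)]

theorem pair_K (S : Setup) (u v : List Bool) :
    TP (fun n g => ((Kop (ev (XX g) (XX g)ᴴ u) (ev (XX g) (XX g)ᴴ v))ᴴ
      * FF (S.f n) g).trace / (n : ℂ)) 0 := by
  have hV := pair_V S (st v)
  have h1 := pairK_TP_sqrt
    (t := fun n g => nv (FF (S.f n) g *ᵥ vc (ev (XX g) (XX g)ᴴ (st v))) / n)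
    (fun n g => div_nonneg (nv_nonneg _) (Nat.cast_nonneg _)) hV
    ((KK / 8) ^ u.length) (by unfold KK; positivity)
  refine TP_of_le h1 (fun n => (Gd n)ᶜ) EvZ_bad ?_
  filter_upwards [Filter.eventually_ge_atTop 1] with n hn g hg
  have hg' : 8 * opn (XX g) ^ 2 ≤ KK := by simpa [Gd] using hg
  have hn0 : (0 : ℝ) < n := by exact_mod_cast hn
  have hop : opn (XX g) ^ 2 ≤ KK / 8 := by linarith
  have hA : nv (vc (ev (XX g) (XX g)ᴴ u)) ≤ n * (KK / 8) ^ u.length := by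
    rw [nv_vc]
    refine (hs2_le_opn _).trans ?_
    rw [Fintype.card_fin]
    refine mul_le_mul_of_nonneg_left ?_ hn0.le
    calc opn (ev (XX g) (XX g)ᴴ u) ^ 2 ≤ (opn (XX g) ^ u.length) ^ 2 :=
          pow_le_pow_left₀ (opn_nonneg _) (opn_ev_le _ _) 2
      _ = (opn (XX g) ^ 2) ^ u.length := by ring
      _ ≤ (KK / 8) ^ u.length := pow_le_pow_left₀ (sq_nonneg _) hop _
  rw [trace_K_any, ev_conjTranspose, sub_zero, norm_div, Complex.norm_natCast,
    Complex.norm_real, Real.norm_eq_abs, abs_of_nonneg (Real.sqrt_nonneg _)]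
  set w := FF (S.f n) g *ᵥ vc (ev (XX g) (XX g)ᴴ (st v)) with hw
  rw [div_le_iff₀ hn0]
  refine (norm_dot_le _ _).trans ?_
  have hwn : 0 ≤ nv w := nv_nonneg _
  have hAn : 0 ≤ nv (vc (ev (XX g) (XX g)ᴴ u)) := nv_nonneg _
  rw [← Real.sqrt_mul hAn]
  have hsq : Real.sqrt ((KK / 8) ^ u.length * (nv w / n)) * n
      = Real.sqrt (((KK / 8) ^ u.length * (nv w / n)) * (n : ℝ) ^ 2) := by
    rw [Real.sqrt_mul' _ (sq_nonneg _), Real.sqrt_sq hn0.le]
  rw [hsq]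
  refine Real.sqrt_le_sqrt ?_
  calc nv (vc (ev (XX g) (XX g)ᴴ u)) * nv w ≤ (n * (KK / 8) ^ u.length) * nv w :=
        mul_le_mul_of_nonneg_right hA hwn
    _ = ((KK / 8) ^ u.length * (nv w / n)) * (n : ℝ) ^ 2 := by
        field_simp

end Pool.Agent.H55.ML
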