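/-
L3a (PairV).  The soft projection kills the vectors of the words.  Needs Setup, Bim, QfT, PairL.  About 220 lines.
PROOF.  Let η > 0 and let p0 be a real polynomial with χ² <= p0 <= χ² + η on [0, KK] (Weierstrass for χ² + η/2:
exists_polynomial_near_of_continuousOn).  b = vc (ev X X* u), b' = b - P1 b.  On Gd, n >= N:
nv (FF b) = nv (f(D) b') (FF_eq) = Re star b' (f²)(D) b' <= Re star b' (p0 + 3/n^4)(D) b' (aeval_form_mono,
f² <= (χ + 1/n^4)² <= χ² + 3/n^4, using 0 <= χ <= 1) = Re star b p0(D) b - p0(0) |sum b_ii|²/n + (3/n^4) nv b'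
(aeval_DD_mul_P1, P1_mul_aeval_DD, form_P1).  nv b' <= nv b <= n (KK/8)^|u| on Gd.
Divide by n: (1/n) star b p0(D) b → <ξ, p0(DT) ξ>, ξ = ev LT u Om1 (bim_conv); |sum b_ii|²/n² = |tr ev u|² → tau(u)²
(tr_conv).  The limit is <ξ, p0(DT) ξ> - p0(0) tau(u)² = <ξ', p0(DT) ξ'> with ξ' = ξ - tau(u) Om1 (ξ' [] = 0; DT Om1 = 0,
DT selfadjoint), and |p0| <= η on [dT, KK] (χ = 0 there, x0 < dT), so poly_T gives
|<ξ', p0(DT) ξ'>| <= η ‖ξ'‖² <= η (tau(st u ++ u)).  As η is arbitrary, the quantity tends to 0 in probability: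
for ε > 0 choose η with η tau(st u ++ u) < ε/2; the event {ε <= nv/n} is contained in Gd^c union
{|expression - limit| >= ε/4} for large n.
-/
import Pool.Agent.H55.ML.Setup
import Pool.Agent.H55.ML.Bim
import Pool.Agent.H55.ML.QfT
import Pool.Agent.H55.ML.PairL

namespace Pool.Agent.H55.ML
open MeasureTheory ProbabilityTheory Polynomial Matrix

/-- a polynomial slightly above `χ²` -/
private theorem pv_poly (χ : ℝ → ℝ) (hc : Continuous χ) (η : ℝ) (hη : 0 < η) :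
    ∃ p : ℝ[X], ∀ x ∈ Set.Icc 0 KK, χ x ^ 2 ≤ p.eval x ∧ p.eval x ≤ χ x ^ 2 + η := by
  obtain ⟨p, hp⟩ := exists_polynomial_near_of_continuousOn 0 KK (fun x => χ x ^ 2 + η / 2)
    (by fun_prop) (η / 2) (by linarith)
  refine ⟨p, fun x hx => ?_⟩
  have := abs_lt.1 (hp x hx)
  constructor <;> linarith [this.1, this.2]

private theorem pv_nv_eq {ι : Type*} [Fintype ι] (v : ι → ℂ) :
    ((nv v : ℝ) : ℂ) = star v ⬝ᵥ v := by
  unfold nv
  push_cast
  simp only [dotProduct, Pi.star_apply]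
  refine Finset.sum_congr rfl fun i _ => ?_
  have h := Complex.conj_mul' (v i)
  rw [← h]; rfl

private theorem pv_adj {ι : Type*} [Fintype ι] (A : Matrix ι ι ℂ) (v w : ι → ℂ) :
    star (A *ᵥ v) ⬝ᵥ w = star v ⬝ᵥ (Aᴴ *ᵥ w) := by
  rw [star_mulVec, dotProduct_mulVec]

/-- `nv (A b) = Re <b, A² b>` for Hermitian `A` -/
private theorem pv_nv_mulVec {ι : Type*} [Fintype ι] (A : Matrix ι ι ℂ) (hA : A.IsHermitian)
    (v : ι → ℂ) : nv (A *ᵥ v) = (star v ⬝ᵥ ((A * A) *ᵥ v)).re := by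
  have h := pv_nv_eq (A *ᵥ v)
  rw [pv_adj, hA.eq, mulVec_mulVec] at h
  rw [← h, Complex.ofReal_re]

variable {n : ℕ}

private theorem pv_psb (g : Fin n × Fin n → ℂ) (hg : g ∈ Gd n) : PSB (DD (XX g)) KK :=
  ⟨DD_isHermitian _, DD_form_nonneg _, (opn_DD_le _).trans hg⟩

/-- the form of `(1 - P1) p(D) (1 - P1)` -/
private theorem pv_form (X : Mat n) (p : ℝ[X]) (b : Fin n × Fin n → ℂ) :
    star ((1 - P1 n) *ᵥ b) ⬝ᵥ (aeval (DD X) p *ᵥ ((1 - P1 n) *ᵥ b)) =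
      star b ⬝ᵥ (aeval (DD X) p *ᵥ b) -
        ((p.eval 0 * (‖∑ i, b (i, i)‖ ^ 2 / n) : ℝ) : ℂ) := by
  have hH : (1 - P1 n : Op n)ᴴ = 1 - P1 n := by
    rw [conjTranspose_sub, P1_conjTranspose, conjTranspose_one]
  rw [pv_adj, hH, mulVec_mulVec, mulVec_mulVec]
  have key : (1 - P1 n) * aeval (DD X) p * (1 - P1 n) =
      aeval (DD X) p - ((p.eval 0 : ℝ) : ℂ) • P1 n := by
    have h1 := aeval_DD_mul_P1 X p
    have h2 := P1_mul_aeval_DD X p
    have h3 := P1_mul_P1 (n := n)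
    rw [sub_mul, one_mul, h2, mul_sub, mul_one, sub_mul, h1, smul_mul_assoc, h3]
    abel
  rw [key, sub_mulVec, dotProduct_sub, smul_mulVec, dotProduct_smul, form_P1]
  push_cast
  rw [smul_eq_mul]

private theorem pv_nv_le (b : Fin n × Fin n → ℂ) : nv ((1 - P1 n) *ᵥ b) ≤ nv b := by
  have hH : (1 - P1 n : Op n)ᴴ = 1 - P1 n := by
    rw [conjTranspose_sub, P1_conjTranspose, conjTranspose_one]
  have h := pv_nv_eq ((1 - P1 n) *ᵥ b)
  have key : (1 - P1 n) * (1 - P1 n) = (1 - P1 n : Op n) := by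
    have h3 := P1_mul_P1 (n := n)
    rw [mul_sub, mul_one, sub_mul, one_mul, h3]
    abel
  generalize nv ((1 - P1 n) *ᵥ b) = N at h ⊢
  rw [pv_adj, hH, mulVec_mulVec, key, sub_mulVec, dotProduct_sub, form_P1, one_mulVec,
    ← pv_nv_eq] at h
  have h' : N = nv b - ‖∑ i, b (i, i)‖ ^ 2 / n := by exact_mod_cast h
  rw [h']
  have : (0 : ℝ) ≤ ‖∑ i, b (i, i)‖ ^ 2 / n := by positivity
  linarith

private theorem pv_nv_word (g : Fin n × Fin n → ℂ) (hg : g ∈ Gd n) (u : List Bool) :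
    nv (vc (ev (XX g) (XX g)ᴴ u)) ≤ n * (KK / 8) ^ u.length := by
  rw [nv_vc]
  refine (hs2_le_opn _).trans ?_
  rw [Fintype.card_fin]
  refine mul_le_mul_of_nonneg_left ?_ (Nat.cast_nonneg n)
  have h1 := opn_ev_le (XX g) u
  have h2 : opn (XX g) ^ 2 ≤ KK / 8 := by
    have : 8 * opn (XX g) ^ 2 ≤ KK := hg
    linarith
  calc opn (ev (XX g) (XX g)ᴴ u) ^ 2 ≤ (opn (XX g) ^ u.length) ^ 2 :=
        pow_le_pow_left₀ (opn_nonneg _) h1 2
    _ = (opn (XX g) ^ 2) ^ u.length := by rw [← pow_mul, ← pow_mul, mul_comm]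
    _ ≤ (KK / 8) ^ u.length := pow_le_pow_left₀ (sq_nonneg _) h2 _

/-- the deterministic inequality on the good event -/
private theorem pv_det (f p : ℝ[X]) (χ : ℝ → ℝ) (δ : ℝ) (hδ : 0 ≤ δ) (hδ1 : δ ≤ 1)
    (h0 : ∀ x, 0 ≤ χ x) (h1 : ∀ x, χ x ≤ 1)
    (hf : ∀ x ∈ Set.Icc 0 KK, |χ x - f.eval x| ≤ δ)
    (hp : ∀ x ∈ Set.Icc 0 KK, χ x ^ 2 ≤ p.eval x)
    (g : Fin n × Fin n → ℂ) (hg : g ∈ Gd n) (b : Fin n × Fin n → ℂ) :
    nv (FF f g *ᵥ b) ≤ (star b ⬝ᵥ (aeval (DD (XX g)) p *ᵥ b)).re -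
        p.eval 0 * (‖∑ i, b (i, i)‖ ^ 2 / n) + 3 * δ * nv b := by
  have hpsb := pv_psb g hg
  set b' := (1 - P1 n) *ᵥ b with hb'
  have e1 : FF f g *ᵥ b = aeval (DD (XX g)) f *ᵥ b' := by
    rw [FF_eq, ← mulVec_mulVec]
  rw [e1, pv_nv_mulVec _ (aeval_isHermitian (DD_isHermitian _) f), ← map_mul]
  have e2 := aeval_form_mono hpsb (f * f) (p + C (3 * δ)) (fun x hx => by
    have a1 := abs_le.1 (hf x hx)
    have a2 := hp x hx
    have a3 := h0 x
    have a4 := h1 x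
    simp only [eval_mul, eval_add, eval_C]
    have a5 : |f.eval x| ≤ χ x + δ := by
      rw [abs_le]; constructor <;> linarith [a1.1, a1.2]
    have a6 : f.eval x * f.eval x ≤ (χ x + δ) * (χ x + δ) := by
      rw [← abs_mul_abs_self]
      exact mul_le_mul a5 a5 (abs_nonneg _) (by linarith)
    nlinarith [mul_le_mul_of_nonneg_right a4 hδ, mul_le_mul_of_nonneg_left hδ1 hδ]) b'
  refine e2.trans ?_
  rw [map_add, add_mulVec, dotProduct_add, aeval_C, Complex.add_re]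
  have e3 : (algebraMap ℝ (Op n) (3 * δ)) *ᵥ b' = ((3 * δ : ℝ) : ℂ) • b' := by
    rw [Algebra.algebraMap_eq_smul_one, smul_mulVec, one_mulVec]
    ext i; simp
  rw [e3, dotProduct_smul, smul_eq_mul, ← pv_nv_eq, ← Complex.ofReal_mul, Complex.ofReal_re,
    pv_form, Complex.sub_re, Complex.ofReal_re]
  have e4 := pv_nv_le b
  have : 3 * δ * nv b' ≤ 3 * δ * nv b := mul_le_mul_of_nonneg_left e4 (by linarith)
  linarith

private theorem pv_alg (a : ℝ) :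
    algebraMap ℝ (E1 →L[ℂ] E1) a = ((a : ℝ) : ℂ) • (1 : E1 →L[ℂ] E1) := by
  rw [Algebra.algebraMap_eq_smul_one]
  exact (Complex.coe_smul a (1 : E1 →L[ℂ] E1)).symm

private theorem pv_aeval_Om (p : ℝ[X]) : (aeval DT p) Om1 = ((p.eval 0 : ℝ) : ℂ) • Om1 := by
  induction p using Polynomial.induction_on' with
  | add p q hp hq =>
    rw [map_add, _root_.add_apply, hp, hq, eval_add, Complex.ofReal_add, add_smul]
  | monomial k a =>
    rw [aeval_monomial, pv_alg, smul_mul_assoc, one_mul, _root_.smul_apply]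
    rcases Nat.eq_zero_or_pos k with rfl | hk
    · rw [pow_zero]
      simp
    · obtain ⟨j, rfl⟩ := Nat.exists_eq_succ_of_ne_zero hk.ne'
      rw [pow_succ, mul_apply_eq_comp, DT_Om1, map_zero, smul_zero]
      simp [eval_monomial]

private theorem pv_sa (p : ℝ[X]) : IsSelfAdjoint (aeval DT p) := by
  induction p using Polynomial.induction_on' with
  | add p q hp hq => rw [map_add]; exact hp.add hq
  | monomial k a =>
    rw [aeval_monomial, pv_alg, smul_mul_assoc, one_mul]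
    have h1 : IsSelfAdjoint ((a : ℝ) : ℂ) := Complex.conj_ofReal a
    exact h1.smul (DT_selfAdjoint.pow k)

/-- the limit after removal of the trivial direction -/
private theorem pv_limit (p : ℝ[X]) (ξ : E1) (t : ℝ) (ht : (ξ : List Bool → ℂ) [] = t) :
    inner ℂ ξ ((aeval DT p) ξ) - ((p.eval 0 : ℝ) : ℂ) * ((t : ℂ) * (starRingEnd ℂ) (t : ℂ)) =
      inner ℂ (ξ - (t : ℂ) • Om1) ((aeval DT p) (ξ - (t : ℂ) • Om1)) := by
  have hO : inner ℂ Om1 ξ = (t : ℂ) := by rw [inner_Om1, ht]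
  have hO' : inner ℂ ξ Om1 = (t : ℂ) := by
    rw [← inner_conj_symm, hO, Complex.conj_ofReal]
  have hOO : inner ℂ Om1 Om1 = (1 : ℂ) := by
    rw [inner_self_eq_norm_sq_to_K, norm_Om1]; simp
  have hA : inner ℂ Om1 ((aeval DT p) ξ) = ((p.eval 0 : ℝ) : ℂ) * (t : ℂ) := by
    have h1 := ContinuousLinearMap.adjoint_inner_left (aeval DT p) ξ Om1
    have h2 : ContinuousLinearMap.adjoint (aeval DT p) = aeval DT p := pv_sa p
    rw [h2, pv_aeval_Om, inner_smul_left, hO, Complex.conj_ofReal] at h1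
    exact h1.symm
  rw [map_sub, map_smul, pv_aeval_Om]
  simp only [inner_sub_left, inner_sub_right, inner_smul_left, inner_smul_right, hA, hO', hOO,
    Complex.conj_ofReal]
  ring

theorem pair_V (S : Setup) (u : List Bool) :
    TP (fun n g => ((nv (FF (S.f n) g *ᵥ vc (ev (XX g) (XX g)ᴴ u)) / n : ℝ) : ℂ)) 0 := by
  intro ε hε
  set ξ : E1 := ev (LT true) (LT false) u Om1 with hξ
  have hξ0 : (ξ : List Bool → ℂ) [] = (tau u : ℂ) := by
    rw [← inner_Om1, hξ]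
    have := inner_ev_ev [] u
    simpa [ev, st] using this
  set ξ' : E1 := ξ - (tau u : ℂ) • Om1 with hξ'
  have hξ'0 : (ξ' : List Bool → ℂ) [] = 0 := by
    rw [← inner_Om1, hξ', inner_sub_right, inner_smul_right, inner_Om1, hξ0,
      inner_self_eq_norm_sq_to_K, norm_Om1]
    simp
  -- choice of η
  set M : ℝ := ‖ξ'‖ ^ 2 + 1 with hM
  have hMpos : 0 < M := by positivity
  set η : ℝ := ε / (3 * M) with hη
  have hηpos : 0 < η := by positivity
  obtain ⟨p, hp⟩ := pv_poly S.χ S.cont η hηpos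
  have hL : ‖inner ℂ ξ' ((aeval DT p) ξ')‖ ≤ ε / 3 := by
    have h1 : ‖(aeval DT p) ξ'‖ ≤ η * ‖ξ'‖ := by
      refine poly_T p η (fun x hx => ?_) ξ' hξ'0
      have hx0 : x ∈ Set.Icc 0 KK := ⟨dT_nonneg.trans hx.1, hx.2⟩
      have hz : S.χ x = 0 := S.zero x (S.x0_lt_T.le.trans hx.1)
      have := hp x hx0
      rw [hz] at this
      rw [abs_le]
      constructor <;> nlinarith [this.1, this.2]
    calc ‖inner ℂ ξ' ((aeval DT p) ξ')‖ ≤ ‖ξ'‖ * ‖(aeval DT p) ξ'‖ := norm_inner_le_norm _ _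
      _ ≤ ‖ξ'‖ * (η * ‖ξ'‖) := mul_le_mul_of_nonneg_left h1 (norm_nonneg _)
      _ = η * ‖ξ'‖ ^ 2 := by ring
      _ ≤ η * M := mul_le_mul_of_nonneg_left (by rw [hM]; linarith) hηpos.le
      _ = ε / 3 := by rw [hη]; field_simp
  -- the random expression
  have c1 := bim_conv u u p
  have c2 := (tr_conv u).mul (tr_conv u).conj
  have c3 := c1.sub (c2.const_mul ((p.eval 0 : ℝ) : ℂ))
  rw [← hξ, pv_limit p ξ (tau u) hξ0, ← hξ'] at c3
  have c4 := c3 (ε / 3) (by linarith)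
  -- exceptional event
  have c5 : EvZ (fun n => (Gd n)ᶜ ∪ {g : Fin n × Fin n → ℂ | ε / 3 ≤
      ‖(star (vc (ev (XX g) (XX g)ᴴ u)) ⬝ᵥ (aeval (DD (XX g)) p *ᵥ vc (ev (XX g) (XX g)ᴴ u))) /
          (n : ℂ) - ((p.eval 0 : ℝ) : ℂ) * ((ev (XX g) (XX g)ᴴ u).trace / (n : ℂ) *
          (starRingEnd ℂ) ((ev (XX g) (XX g)ᴴ u).trace / (n : ℂ))) -
        inner ℂ ξ' ((aeval DT p) ξ')‖}) := EvZ_bad.union c4
  refine EvZ.mono c5 ?_
  set W : ℝ := 3 * (KK / 8) ^ u.length with hW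
  have hWpos : 0 ≤ W := by
    have : (0 : ℝ) ≤ KK / 8 := by unfold KK; norm_num
    positivity
  have hlim : Filter.Tendsto (fun n : ℕ => W * (1 / (n : ℝ))) Filter.atTop (nhds (W * 0)) :=
    (tendsto_const_div_atTop_nhds_zero_nat 1).const_mul W
  rw [mul_zero] at hlim
  have hev : ∀ᶠ n : ℕ in Filter.atTop, W * (1 / (n : ℝ)) < ε / 3 :=
    hlim.eventually_lt_const (by linarith)
  filter_upwards [hev, Filter.eventually_ge_atTop S.N] with n hn1 hnN
  have hn : 1 ≤ n := S.N_pos.trans hnN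
  have hnR : (1 : ℝ) ≤ n := by exact_mod_cast hn
  have hnpos : (0 : ℝ) < n := by linarith
  intro g hg
  by_cases hG : g ∈ Gd n
  · right
    have hg' : ε ≤ ‖(((nv (FF (S.f n) g *ᵥ vc (ev (XX g) (XX g)ᴴ u)) / n : ℝ)) : ℂ) - 0‖ := hg
    rw [sub_zero, Complex.norm_real, Real.norm_eq_abs, abs_of_nonneg
      (div_nonneg (nv_nonneg _) hnpos.le)] at hg'
    by_contra hlt
    have hlt' : ‖(star (vc (ev (XX g) (XX g)ᴴ u)) ⬝ᵥ
          (aeval (DD (XX g)) p *ᵥ vc (ev (XX g) (XX g)ᴴ u))) /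
          (n : ℂ) - ((p.eval 0 : ℝ) : ℂ) * ((ev (XX g) (XX g)ᴴ u).trace / (n : ℂ) *
          (starRingEnd ℂ) ((ev (XX g) (XX g)ᴴ u).trace / (n : ℂ))) -
        inner ℂ ξ' ((aeval DT p) ξ')‖ < ε / 3 := not_le.1 hlt
    set b := vc (ev (XX g) (XX g)ᴴ u) with hb
    have hd1 : (1 : ℝ) / (n : ℝ) ^ 4 ≤ 1 := by
      rw [div_le_one (by positivity)]
      exact one_le_pow₀ hnR
    have hdet := pv_det (S.f n) p S.χ (1 / (n : ℝ) ^ 4) (by positivity) hd1 S.nonneg S.le_one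
      (S.app n hnN) (fun x hx => (hp x hx).1) g hG b
    have hnvb := pv_nv_word g hG u
    rw [← hb] at hnvb
    have htr : ∑ i, b (i, i) = (ev (XX g) (XX g)ᴴ u).trace := rfl
    rw [htr] at hdet
    set T := (ev (XX g) (XX g)ᴴ u).trace with hT
    set Q := star b ⬝ᵥ (aeval (DD (XX g)) p *ᵥ b) with hQ
    -- real part of the expression
    have hre : (Q / (n : ℂ) - ((p.eval 0 : ℝ) : ℂ) * (T / (n : ℂ) *
        (starRingEnd ℂ) (T / (n : ℂ)))).re =
        (Q.re - p.eval 0 * (‖T‖ ^ 2 / n)) / n := by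
      rw [Complex.mul_conj', norm_div, Complex.norm_natCast, Complex.sub_re]
      have a1 : (Q / (n : ℂ)).re = Q.re / n := by
        rw [show (n : ℂ) = ((n : ℝ) : ℂ) by push_cast; rfl, Complex.div_ofReal_re]
      have a2 : (((p.eval 0 : ℝ) : ℂ) * ((‖T‖ / (n : ℝ) : ℝ) : ℂ) ^ 2).re =
          p.eval 0 * (‖T‖ / n) ^ 2 := by
        rw [← Complex.ofReal_pow, ← Complex.ofReal_mul, Complex.ofReal_re]
      rw [a1, a2]
      field_simp
    have h5 : (Q / (n : ℂ) - ((p.eval 0 : ℝ) : ℂ) * (T / (n : ℂ) *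
        (starRingEnd ℂ) (T / (n : ℂ)))).re < ε / 3 + ε / 3 := by
      have b1 := Complex.re_le_norm (Q / (n : ℂ) - ((p.eval 0 : ℝ) : ℂ) * (T / (n : ℂ) *
        (starRingEnd ℂ) (T / (n : ℂ))))
      have b2 : ‖Q / (n : ℂ) - ((p.eval 0 : ℝ) : ℂ) * (T / (n : ℂ) *
        (starRingEnd ℂ) (T / (n : ℂ)))‖ ≤ ‖Q / (n : ℂ) - ((p.eval 0 : ℝ) : ℂ) * (T / (n : ℂ) *
        (starRingEnd ℂ) (T / (n : ℂ))) - inner ℂ ξ' ((aeval DT p) ξ')‖ +
          ‖inner ℂ ξ' ((aeval DT p) ξ')‖ := by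
        have := norm_add_le (Q / (n : ℂ) - ((p.eval 0 : ℝ) : ℂ) * (T / (n : ℂ) *
          (starRingEnd ℂ) (T / (n : ℂ))) - inner ℂ ξ' ((aeval DT p) ξ'))
          (inner ℂ ξ' ((aeval DT p) ξ'))
        rwa [sub_add_cancel] at this
      linarith
    rw [hre] at h5
    have h6 : nv (FF (S.f n) g *ᵥ b) / n ≤
        (Q.re - p.eval 0 * (‖T‖ ^ 2 / n)) / n + W * (1 / (n : ℝ)) := by
      have b3 : 3 * (1 / (n : ℝ) ^ 4) * nv b ≤ W := by
        have b4 : 3 * (1 / (n : ℝ) ^ 4) * nv b ≤ 3 * (1 / (n : ℝ) ^ 4) *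
            (n * (KK / 8) ^ u.length) :=
          mul_le_mul_of_nonneg_left hnvb (by positivity)
        have b5 : (1 / (n : ℝ) ^ 4) * n ≤ 1 := by
          rw [one_div, inv_mul_le_iff₀ (by positivity), mul_one]
          calc (n : ℝ) = (n : ℝ) ^ 1 := (pow_one _).symm
            _ ≤ (n : ℝ) ^ 4 := pow_le_pow_right₀ hnR (by norm_num)
        have b6 : (0 : ℝ) ≤ (KK / 8) ^ u.length := by
          have : (0 : ℝ) ≤ KK / 8 := by unfold KK; norm_num
          positivity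
        calc 3 * (1 / (n : ℝ) ^ 4) * nv b ≤ 3 * (1 / (n : ℝ) ^ 4) *
            (n * (KK / 8) ^ u.length) := b4
          _ = ((1 / (n : ℝ) ^ 4) * n) * (3 * (KK / 8) ^ u.length) := by ring
          _ ≤ 1 * (3 * (KK / 8) ^ u.length) := mul_le_mul_of_nonneg_right b5 (by positivity)
          _ = W := by rw [one_mul, hW]
      calc nv (FF (S.f n) g *ᵥ b) / n ≤
          (Q.re - p.eval 0 * (‖T‖ ^ 2 / n) + 3 * (1 / (n : ℝ) ^ 4) * nv b) / n :=
            div_le_div_of_nonneg_right hdet hnpos.le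
        _ ≤ (Q.re - p.eval 0 * (‖T‖ ^ 2 / n) + W) / n :=
            div_le_div_of_nonneg_right (by linarith) hnpos.le
        _ = _ := by ring
    linarith
  · left; exact hG

end Pool.Agent.H55.ML
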