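/-
L4 (Small).  The soft projection tends to zero.  Needs Dist, Gram, PairL, PairK, DetS, SSd.  About 180 lines.
PROOF.  Let ε, δ > 0.  dist_chaos: C, e.  Choose q >= 4 with 8 (C/q)/ε <= δ/4, and n large so that 8 e n/ε <= δ/4:
F_n := the element of SS n q with ∫ hs2 (FF - F_n) <= C/q + e n; Markov (SS_PG, PG_hs2 for measurability and
integrability): gin {hs2 (FF - F_n) >= ε/8} <= 8 (C/q + e n)/ε <= δ/2.
s from exists_words q; SS_repr: F_n g = sum over s of c p (...) + c' p (...).  γ from gram s: off an event of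
vanishing probability γ n² sum (‖c‖²+‖c'‖²) <= hs2 (F_n g).  Apply DetS with index set s × Bool (Finset.product with
univ, or s.disjSum s), Φ = generators divided by n (so coefficients n c p), p = threshold t > 0:
all |Tr (Φᴴ FF)| <= t off an event of vanishing probability (pair_L, pair_K, finite union), and
hs2 FF <= 4 · ε/8 + 4 · 2 card s · t²/γ < ε for t small.
So limsup gin {ε <= hs2 FF} <= δ/2 for every δ > 0: EvZ.
-/
import Pool.Agent.H55.ML.Dist
import Pool.Agent.H55.ML.Gram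
import Pool.Agent.H55.ML.PairK
import Pool.Agent.H55.ML.DetS

namespace Pool.Agent.H55.ML
open MeasureTheory ProbabilityTheory Polynomial Matrix

theorem EvZ_biUnion {α : Type*} (s : Finset α) (A : α → ∀ n : ℕ, Set (Fin n × Fin n → ℂ))
    (h : ∀ a ∈ s, EvZ (A a)) : EvZ (fun n => ⋃ a ∈ s, A a n) := by
  classical
  induction s using Finset.induction_on with
  | empty =>
    refine (?_ : Filter.Tendsto (fun n => gin n (⋃ a ∈ (∅ : Finset α), A a n)) Filter.atTop (nhds 0))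
    simp
  | insert a s ha ih =>
    have h1 := (h a (Finset.mem_insert_self a s)).union
      (ih fun b hb => h b (Finset.mem_insert_of_mem hb))
    refine EvZ.mono h1 (Filter.Eventually.of_forall fun n => ?_)
    rw [Finset.set_biUnion_insert]

/-- the deterministic step -/
theorem small_det {n : ℕ} (hn : 0 < n) (s : Finset (List Bool × List Bool))
    (c c' : List Bool × List Bool → ℂ) (L K : List Bool × List Bool → Op n) (F G : Op n)
    (hG : G = ∑ p ∈ s, (c p • L p + c' p • K p)) (γ t : ℝ) (hγ : 0 < γ) (ht : 0 ≤ t)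
    (hc : γ * (n : ℝ) ^ 2 * ∑ p ∈ s, (‖c p‖ ^ 2 + ‖c' p‖ ^ 2) ≤ hs2 G)
    (hL : ∀ p ∈ s, ‖((L p)ᴴ * F).trace / (n : ℂ)‖ ≤ t)
    (hK : ∀ p ∈ s, ‖((K p)ᴴ * F).trace / (n : ℂ)‖ ≤ t) :
    hs2 F ≤ 4 * hs2 (F - G) + 4 * (s.card * 2 : ℕ) * t ^ 2 / γ := by
  classical
  have hn0 : (n : ℂ) ≠ 0 := by exact_mod_cast hn.ne'
  let S' : Finset ((List Bool × List Bool) × Bool) := s ×ˢ Finset.univ
  let Φ : (List Bool × List Bool) × Bool → Op n := fun a =>
    ((n : ℂ))⁻¹ • (cond a.2 (L a.1) (K a.1))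
  let cc : (List Bool × List Bool) × Bool → ℂ := fun a => (n : ℂ) * (cond a.2 (c a.1) (c' a.1))
  have hcard : S'.card = s.card * 2 := by
    simp only [S', Finset.card_product, Finset.card_univ, Fintype.card_bool]
  have h1 : G = ∑ a ∈ S', cc a • Φ a := by
    rw [hG]
    simp only [S', Finset.sum_product, Fintype.sum_bool, cc, Φ, cond_true, cond_false, smul_smul]
    refine Finset.sum_congr rfl fun p _ => ?_
    rw [mul_right_comm, mul_inv_cancel₀ hn0, one_mul, mul_right_comm, mul_inv_cancel₀ hn0, one_mul]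
  have h2 : γ * ∑ a ∈ S', ‖cc a‖ ^ 2 ≤ hs2 G := by
    refine le_trans (le_of_eq ?_) hc
    simp only [S', Finset.sum_product, Fintype.sum_bool, cc, cond_true, cond_false, norm_mul,
      Complex.norm_natCast, mul_pow]
    rw [mul_assoc, Finset.mul_sum (a := (n : ℝ) ^ 2)]
    refine congrArg (γ * ·) (Finset.sum_congr rfl fun p _ => ?_)
    ring
  have h3 : ∀ a ∈ S', ‖((Φ a)ᴴ * F).trace‖ ≤ t := by
    rintro ⟨p, b⟩ ha
    have hp : p ∈ s := (Finset.mem_product.mp ha).1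
    have e1 : ∀ M : Op n, ((((n : ℂ))⁻¹ • M)ᴴ * F).trace = (Mᴴ * F).trace / (n : ℂ) := by
      intro M
      rw [Matrix.conjTranspose_smul, Matrix.smul_mul, Matrix.trace_smul]
      have : star ((n : ℂ)⁻¹) = (n : ℂ)⁻¹ := by
        rw [star_inv₀]
        simp
      rw [this, smul_eq_mul, div_eq_inv_mul]
    cases b with
    | true =>
      simp only [Φ, cond_true, e1]
      exact hL p hp
    | false =>
      simp only [Φ, cond_false, e1]
      exact hK p hp
  have h4 := det_small F G S' Φ cc h1 γ t hγ ht h2 h3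
  rwa [hcard] at h4

theorem FF_small (S : Setup) (ε : ℝ) (hε : 0 < ε) :
    EvZ (fun n => {g | ε ≤ hs2 (FF (S.f n) g)}) := by
  classical
  obtain ⟨C, e, hC, he, hD⟩ := dist_chaos S
  refine ENNReal.tendsto_nhds_zero.mpr fun δ hδ => ?_
  obtain ⟨d, hd0, hd⟩ : ∃ d : ℝ, 0 < d ∧ ENNReal.ofReal d ≤ δ := by
    obtain ⟨r, hr, hr1, hr2⟩ := ENNReal.lt_iff_exists_real_btwn.mp hδ
    refine ⟨r, ?_, hr2.le⟩
    exact ENNReal.ofReal_pos.mp hr1
  -- the order of the chaos
  obtain ⟨q, hq⟩ := exists_nat_gt (max 4 (32 * C / (d * ε)))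
  have hq4 : 4 ≤ q := by
    have := (le_max_left (4 : ℝ) (32 * C / (d * ε))).trans hq.le
    exact_mod_cast this
  have hq0 : (0 : ℝ) < q := by
    have : (4 : ℝ) ≤ q := by exact_mod_cast hq4
    linarith
  have hqC : C / q ≤ d * ε / 32 := by
    have h1 := (le_max_right (4 : ℝ) (32 * C / (d * ε))).trans hq.le
    rw [div_le_iff₀ (mul_pos hd0 hε)] at h1
    rw [div_le_iff₀ hq0]
    linarith
  obtain ⟨s, hs⟩ := exists_words q
  obtain ⟨γ, hγ, hgram⟩ := gram s
  set t : ℝ := Real.sqrt (ε * γ / (16 * ((s.card : ℝ) + 1))) with htdef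
  have hs1 : (0 : ℝ) < (s.card : ℝ) + 1 := by positivity
  have ht2 : t ^ 2 = ε * γ / (16 * ((s.card : ℝ) + 1)) := Real.sq_sqrt (by positivity)
  have ht : 0 < t := Real.sqrt_pos.mpr (by positivity)
  -- the remaining events
  let R : ∀ n : ℕ, Set (Fin n × Fin n → ℂ) := fun n =>
    {g | ∃ c c' : List Bool × List Bool → ℂ,
      hs2 (∑ p ∈ s, (c p • (Lf (ev (XX g) (XX g)ᴴ p.1) * Rt (ev (XX g) (XX g)ᴴ p.2))
        + c' p • Kop (ev (XX g) (XX g)ᴴ p.1) (ev (XX g) (XX g)ᴴ p.2)))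
        < γ * (n : ℝ) ^ 2 * ∑ p ∈ s, (‖c p‖ ^ 2 + ‖c' p‖ ^ 2)} ∪
    ((⋃ p ∈ s, {g | t ≤ ‖((Lf (ev (XX g) (XX g)ᴴ p.1) * Rt (ev (XX g) (XX g)ᴴ p.2))ᴴ
        * FF (S.f n) g).trace / (n : ℂ) - 0‖}) ∪
     (⋃ p ∈ s, {g | t ≤ ‖((Kop (ev (XX g) (XX g)ᴴ p.1) (ev (XX g) (XX g)ᴴ p.2))ᴴ
        * FF (S.f n) g).trace / (n : ℂ) - 0‖}))
  have hR : EvZ R := by
    refine hgram.union (EvZ.union ?_ ?_)
    · exact EvZ_biUnion s _ fun p _ => pair_L S p.1 p.2 t ht
    · exact EvZ_biUnion s _ fun p _ => pair_K S p.1 p.2 t ht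
  have hR2 : ∀ᶠ n in Filter.atTop, gin n (R n) ≤ ENNReal.ofReal (d / 2) :=
    ENNReal.tendsto_nhds_zero.mp hR _ (ENNReal.ofReal_pos.mpr (by linarith))
  have he2 : ∀ᶠ n in Filter.atTop, e n ≤ d * ε / 32 := by
    have h0 : (0 : ℝ) < d * ε / 32 := by positivity
    exact (he.eventually (gt_mem_nhds h0)).mono fun n hn => hn.le
  filter_upwards [hR2, he2, Filter.eventually_ge_atTop S.N, Filter.eventually_ge_atTop 1]
    with n hRn hen hN hn1
  obtain ⟨F, hF, hFint⟩ := hD n hN q hq4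
  -- Markov
  have hPG : PG (fun g => hs2 (FF (S.f n) g - F g)) := by
    refine PG_hs2 (fun g => FF (S.f n) g - F g) fun x y => ?_
    exact PG.sub (SS_PG (FF_mem n (S.f n)) x y) (SS_PG hF x y)
  have hM := mul_meas_ge_le_integral_of_nonneg (μ := gin n)
    (f := fun g => hs2 (FF (S.f n) g - F g))
    (Filter.Eventually.of_forall fun g => hs2_nonneg _) hPG.integrableR (ε / 8)
  have hM2 : (gin n).real {g | ε / 8 ≤ hs2 (FF (S.f n) g - F g)} ≤ d / 2 := by
    have h1 : ε / 8 * (gin n).real {g | ε / 8 ≤ hs2 (FF (S.f n) g - F g)} ≤ d * ε / 32 + d * ε / 32 :=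
      hM.trans (hFint.trans (add_le_add hqC hen))
    have h2 : (0 : ℝ) < ε / 8 := by linarith
    have h3 : ε / 8 * (gin n).real {g | ε / 8 ≤ hs2 (FF (S.f n) g - F g)} ≤ ε / 8 * (d / 2) := by
      refine h1.trans (le_of_eq ?_)
      ring
    exact le_of_mul_le_mul_left h3 h2
  have hM3 : gin n {g | ε / 8 ≤ hs2 (FF (S.f n) g - F g)} ≤ ENNReal.ofReal (d / 2) := by
    rw [← ENNReal.ofReal_toReal (measure_ne_top (gin n) {g | ε / 8 ≤ hs2 (FF (S.f n) g - F g)})]
    exact ENNReal.ofReal_le_ofReal hM2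
  -- inclusion
  have hsub : {g | ε ≤ hs2 (FF (S.f n) g)} ⊆
      {g | ε / 8 ≤ hs2 (FF (S.f n) g - F g)} ∪ R n := by
    intro g hg
    by_contra hcon
    rw [Set.mem_union, not_or] at hcon
    obtain ⟨h1, h2⟩ := hcon
    simp only [R, Set.mem_union, not_or] at h2
    obtain ⟨h2a, h2b, h2c⟩ := h2
    simp only [Set.mem_ofPred_eq, not_le, not_lt, not_exists, Set.mem_iUnion, sub_zero] at h1 h2a h2b h2c
    obtain ⟨c, c', hcc⟩ := SS_repr hF s hs g
    have h5 := small_det hn1 s c c'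
      (fun p => Lf (ev (XX g) (XX g)ᴴ p.1) * Rt (ev (XX g) (XX g)ᴴ p.2))
      (fun p => Kop (ev (XX g) (XX g)ᴴ p.1) (ev (XX g) (XX g)ᴴ p.2))
      (FF (S.f n) g) (F g) hcc γ t hγ ht.le (by rw [hcc]; exact h2a c c')
      (fun p hp => (h2b p hp).le) (fun p hp => (h2c p hp).le)
    have h6 : 4 * ((s.card * 2 : ℕ) : ℝ) * t ^ 2 / γ < ε / 2 := by
      rw [ht2]
      push_cast
      have : 4 * ((s.card : ℝ) * 2) * (ε * γ / (16 * ((s.card : ℝ) + 1))) / γ =
          (ε / 2) * ((s.card : ℝ) / ((s.card : ℝ) + 1)) := by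
        field_simp
        ring
      rw [this]
      have h7 : (s.card : ℝ) / ((s.card : ℝ) + 1) < 1 := by
        rw [div_lt_one hs1]
        linarith
      have h8 : (0 : ℝ) < ε / 2 := by linarith
      nlinarith
    have h9 : ε ≤ hs2 (FF (S.f n) g) := hg
    linarith
  calc gin n {g | ε ≤ hs2 (FF (S.f n) g)}
      ≤ gin n ({g | ε / 8 ≤ hs2 (FF (S.f n) g - F g)} ∪ R n) := measure_mono hsub
    _ ≤ gin n {g | ε / 8 ≤ hs2 (FF (S.f n) g - F g)} + gin n (R n) := measure_union_le _ _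
    _ ≤ ENNReal.ofReal (d / 2) + ENNReal.ofReal (d / 2) := add_le_add hM3 hRn
    _ = ENNReal.ofReal d := by
        rw [← ENNReal.ofReal_add (by linarith) (by linarith)]
        congr 1
        ring
    _ ≤ δ := hd

end Pool.Agent.H55.ML
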